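import Mathlib

/-! Periodic composites of an isotropic elastic phase with void in the plane: definitions. -/

open MeasureTheory Complex Set
open scoped ContDiff ENNReal
noncomputable section
namespace Porous

/-- A function on the plane `ℂ = ℝ²` is periodic for the lattice generated by the basis `b`. -/
def Per {α : Type*} (b : Module.Basis (Fin 2) ℝ ℂ) (f : ℂ → α) : Prop :=
  ∀ (i : Fin 2) (x : ℂ), f (x + b i) = f x

/-- The (half-open) period cell of the lattice generated by `b`. -/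
abbrev cell (b : Module.Basis (Fin 2) ℝ ℂ) : Set ℂ := ZSpan.fundamentalDomain b

/-- `u` is a periodic displacement of class `H¹` (locally), with weak partial derivatives `G₁ = ∂u/∂x₁`, `G₂ = ∂u/∂x₂`. -/
structure IsH1Per (b : Module.Basis (Fin 2) ℝ ℂ) (u G₁ G₂ : ℂ → ℂ) : Prop where
  per_u : Per b u
  per_1 : Per b G₁
  per_2 : Per b G₂
  mem_u : MemLp u 2 (volume.restrict (cell b))
  mem_1 : MemLp G₁ 2 (volume.restrict (cell b))
  mem_2 : MemLp G₂ 2 (volume.restrict (cell b))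
  weak_1 : ∀ ψ : ℂ → ℝ, ContDiff ℝ ∞ ψ → Per b ψ →
    ∫ x in cell b, ψ x • G₁ x = - ∫ x in cell b, (fderiv ℝ ψ x 1) • u x
  weak_2 : ∀ ψ : ℂ → ℝ, ContDiff ℝ ∞ ψ → Per b ψ →
    ∫ x in cell b, ψ x • G₂ x = - ∫ x in cell b, (fderiv ℝ ψ x I) • u x

/-- Energy density of the phase with planar bulk modulus `κ ∈ [0,∞]` and shear modulus `μ` at the strain
`(p₁₁, p₂₂, p₁₂)`; `κ = ∞` is the incompressible phase (`∞ * 0 = 0`). -/
def W (κ : ℝ≥0∞) (μ p₁₁ p₂₂ p₁₂ : ℝ) : ℝ≥0∞ :=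
  κ * ENNReal.ofReal ((p₁₁ + p₂₂) ^ 2) + ENNReal.ofReal (μ * ((p₁₁ - p₂₂) ^ 2 + 4 * p₁₂ ^ 2))

/-- Effective energy of the periodic composite with solid part `Ω` at the average strain `(e₁₁, e₂₂, e₁₂)`. -/
def effE (b : Module.Basis (Fin 2) ℝ ℂ) (Ω : Set ℂ) (κ : ℝ≥0∞) (μ e₁₁ e₂₂ e₁₂ : ℝ) : ℝ≥0∞ :=
  ⨅ (u : ℂ → ℂ) (G₁ : ℂ → ℂ) (G₂ : ℂ → ℂ) (_ : IsH1Per b u G₁ G₂),
    (∫⁻ x in Ω ∩ cell b, W κ μ (e₁₁ + (G₁ x).re) (e₂₂ + (G₂ x).im) (e₁₂ + ((G₁ x).im + (G₂ x).re) / 2)) /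
      volume (cell b)


end Porous
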