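import Pool.Agent.Porous.Defs

open MeasureTheory Complex Set
open scoped ContDiff ENNReal
noncomputable section
namespace Porous

/-- the solid part of the `m`-th belt composite: the points at distance at least `a/200` from the crack set, `a = 1/(100 m³)` -/
def beltSet (m : ℕ) : Set ℂ :=
  {x | 1 / (100 * (m : ℝ) ^ 3) / 200 ≤ Metric.infDist x (Gam hx m (1 / (100 * (m : ℝ) ^ 3)))}

end Porous
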