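import Pool.Agent.Porous.Base

open MeasureTheory Complex Set
open scoped ContDiff ENNReal
noncomputable section
namespace Porous

/-- affine frame of the plane: origin and two lattice vectors -/
@[ext] structure Frame where
  O : ℂ
  τ : ℂ
  σ : ℂ

namespace Frame
/-- the point with lattice coordinates `(s, r)` -/
def pt (F : Frame) (s r : ℝ) : ℂ := F.O + s * F.τ + r * F.σ
/-- lattice coordinates -/
def cs (F : Frame) (x : ℂ) : ℝ := ((x - F.O) * (starRingEnd ℂ) F.σ).im / (F.τ * (starRingEnd ℂ) F.σ).im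
def cr (F : Frame) (x : ℂ) : ℝ := ((x - F.O) * (starRingEnd ℂ) F.τ).im / (F.σ * (starRingEnd ℂ) F.τ).im
/-- frame of the next side of the black triangle with side `L` -/
def next (F : Frame) (L : ℝ) : Frame := ⟨F.O + L * F.τ, F.σ - F.τ, -F.τ⟩
def shift (F : Frame) (v : ℂ) : Frame := ⟨F.O + v, F.τ, F.σ⟩
/-- nondegenerate, positively oriented, not far from the equilateral frame -/
structure good (F : Frame) : Prop where
  det : 0 < (F.σ * (starRingEnd ℂ) F.τ).im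
  bs : ∀ s r : ℝ, |s| ≤ 2 * ‖(s : ℂ) * F.τ + r * F.σ‖
  br : ∀ s r : ℝ, |r| ≤ 2 * ‖(s : ℂ) * F.τ + r * F.σ‖
  bsr : ∀ s r : ℝ, |s + r| ≤ 2 * ‖(s : ℂ) * F.τ + r * F.σ‖
/-- node hinges -/
def N (F : Frame) (j : ℕ) : ℂ := F.pt ((j : ℝ) + 2) 0
/-- hinges of the lower bodies -/
def D (F : Frame) (i : ℕ) : ℂ := F.pt (2 * (i : ℝ) + 1) 1
/-- hinges of the upper bodies -/
def U (F : Frame) (m i : ℕ) : ℂ := F.pt (2 * (i : ℝ) + 3) (-1 + 1 / (2 * (m : ℝ) + 3))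
end Frame

/-- side length of the big triangles -/
def Lm (m : ℕ) : ℝ := 2 * (m : ℝ) + 3

/-- sector form at the node `j` -/
def lam (j : ℕ) (s r : ℝ) : ℝ := if Even j then s + r - ((j : ℝ) + 2) else ((j : ℝ) + 2) - s

/-- cracks of one side in lattice coordinates -/
def Edges (m : ℕ) : Set (ℝ × ℝ) :=
  {p | (p.2 = 0 ∧ 0 ≤ p.1 ∧ p.1 ≤ Lm m) ∨
    ∃ i < m, -1 ≤ p.2 ∧ p.2 ≤ 1 ∧ (p.1 + p.2 = 2 * (i : ℝ) + 2 ∨ p.1 = 2 * (i : ℝ) + 3)}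

/-- radial cut-off: `0` for `‖y‖ ≤ a`, `1` for `‖y‖ ≥ 2a` -/
def kk (a : ℝ) (y : ℂ) : ℝ := Real.smoothTransition ((‖y‖ ^ 2 / a ^ 2 - 1) / 3)

/-- rotation field about `C`, frozen near the hinges `P₁, P₂, P₃` -/
def gf (a : ℝ) (C P₁ P₂ P₃ x : ℂ) : ℂ :=
  (x - C) - ((1 - kk a (x - P₁) : ℝ) : ℂ) * (x - P₁) - ((1 - kk a (x - P₂) : ℝ) : ℂ) * (x - P₂)
    - ((1 - kk a (x - P₃) : ℝ) : ℂ) * (x - P₃)

open Classical in
/-- displacement of the lower bodies attached to the side of frame `F` -/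
def low (F : Frame) (m : ℕ) (a w : ℝ) (x : ℂ) : ℂ :=
  -(I * w) * ((∑ i ∈ Finset.Ico 1 m,
      (if 0 < F.cr x ∧ 2 * (i : ℝ) + 1 ≤ F.cs x ∧ F.cs x + F.cr x ≤ 2 * (i : ℝ) + 2 then
        gf a (F.D i) (F.D i) (F.N (2 * i - 1)) (F.N (2 * i)) x else 0))
    + (if 0 < F.cs x ∧ 0 < F.cr x ∧ F.cs x + F.cr x ≤ 2 then
        gf a (F.D 0) (F.D 0) (F.N 0) (F.pt 0 2) x else 0)
    + ∑ j ∈ Finset.range (2 * m),
      (if 0 < F.cr x ∧ 0 < lam j (F.cs x) (F.cr x) ∧ ‖x - F.N j‖ < 3 * a / 2 then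
        F.N j - F.D ((j + 1) / 2) else 0))

open Classical in
/-- displacement of the upper bodies attached to the side of frame `F` -/
def up (F : Frame) (m : ℕ) (a w : ℝ) (x : ℂ) : ℂ :=
  (I * w) * ((∑ i ∈ Finset.range m,
      (if F.cr x ≤ 0 ∧ F.cs x ≤ 2 * (i : ℝ) + 3 ∧ 2 * (i : ℝ) + 2 ≤ F.cs x + F.cr x then
        gf a (F.U m i) (F.U m i) (F.N (2 * i)) (F.N (2 * i + 1)) x else 0))
    + ∑ j ∈ Finset.range (2 * m),
      (if F.cr x ≤ 0 ∧ lam j (F.cs x) (F.cr x) < 0 ∧ ‖x - F.N j‖ < 3 * a / 2 then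
        F.N j - F.U m (j / 2) else 0))

/-- displacement in the black triangle of the frame `F` -/
def blackV (F : Frame) (m : ℕ) (a w : ℝ) (x : ℂ) : ℂ :=
  low F m a w x + low (F.next (Lm m)) m a w x + low ((F.next (Lm m)).next (Lm m)) m a w x

/-- displacement in the white triangle below the first side of the frame `F` -/
def whiteV (F : Frame) (m : ℕ) (a w : ℝ) (x : ℂ) : ℂ :=
  I * w * (1 / Lm m : ℝ) * F.σ + up F m a w x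
    + up ((F.next (Lm m)).shift (-(Lm m * F.σ))) m a w x
    + up (((F.next (Lm m)).next (Lm m)).shift (Lm m * (F.τ - F.σ))) m a w x

/-- points at distance at most `2a` from a hinge of the side -/
def Zs (F : Frame) (m : ℕ) (a : ℝ) : Set ℂ :=
  {x | (∃ j < 2 * m, ‖x - F.N j‖ ≤ 2 * a) ∨ (∃ i < m, ‖x - F.D i‖ ≤ 2 * a) ∨
    (∃ i < m, ‖x - F.U m i‖ ≤ 2 * a) ∨ ‖x - F.pt 0 2‖ ≤ 2 * a}

/-- strain components of `f` at `x`: divergence, difference of the normal strains, twice the shear strain -/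
def sdiv (f : ℂ → ℂ) (x : ℂ) : ℝ := (fderiv ℝ f x 1).re + (fderiv ℝ f x I).im
def sdif (f : ℂ → ℂ) (x : ℂ) : ℝ := (fderiv ℝ f x 1).re - (fderiv ℝ f x I).im
def sshe (f : ℂ → ℂ) (x : ℂ) : ℝ := (fderiv ℝ f x 1).im + (fderiv ℝ f x I).re

/-- cracks of one side, with the hinge balls removed, and the arcs at the nodes -/
def sideG (F : Frame) (m : ℕ) (a : ℝ) : Set ℂ :=
  {x | (F.cs x, F.cr x) ∈ Edges m ∧ (∀ j < 2 * m, a ≤ ‖x - F.N j‖) ∧ (∀ i ≤ m, a ≤ ‖x - F.D i‖) ∧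
      (∀ i < m, a ≤ ‖x - F.U m i‖)} ∪
  {x | ∃ j < 2 * m, ‖x - F.N j‖ = 3 * a / 2 ∧
      ((0 ≤ F.cr x ∧ 0 ≤ lam j (F.cs x) (F.cr x)) ∨ (F.cr x ≤ 0 ∧ lam j (F.cs x) (F.cr x) ≤ 0))}

/-- the full crack set: all three sides of all black triangles -/
def Gam (F : Frame) (m : ℕ) (a : ℝ) : Set ℂ :=
  {x | ∃ t₁ t₂ : ℤ, x - Lm m * ((t₁ : ℂ) * F.τ + (t₂ : ℂ) * F.σ) ∈
    sideG F m a ∪ sideG (F.next (Lm m)) m a ∪ sideG ((F.next (Lm m)).next (Lm m)) m a}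


/-! more definitions -/

/-- translation part of the displacement for the lattice vector `L (t₁ τ + t₂ σ)` -/
def Tr (F : Frame) (m : ℕ) (w t₁ t₂ : ℝ) : ℂ :=
  I * w * ((1 / Lm m : ℝ) : ℂ) * ((t₁ : ℂ) * (F.σ - 2 * F.τ) - (t₂ : ℂ) * (F.τ + F.σ))

open Classical in
/-- the displacement on the whole plane -/
def vfun (F : Frame) (m : ℕ) (a w : ℝ) (x : ℂ) : ℂ :=
  Tr F m w ((⌈F.cs x / Lm m⌉ - 1 : ℤ) : ℝ) ((⌈F.cr x / Lm m⌉ - 1 : ℤ) : ℝ) +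
  (if F.cs (x - Lm m * (((⌈F.cs x / Lm m⌉ - 1 : ℤ) : ℂ) * F.τ + ((⌈F.cr x / Lm m⌉ - 1 : ℤ) : ℂ) * F.σ))
      + F.cr (x - Lm m * (((⌈F.cs x / Lm m⌉ - 1 : ℤ) : ℂ) * F.τ + ((⌈F.cr x / Lm m⌉ - 1 : ℤ) : ℂ) * F.σ)) < Lm m
    then blackV F m a w (x - Lm m * (((⌈F.cs x / Lm m⌉ - 1 : ℤ) : ℂ) * F.τ + ((⌈F.cr x / Lm m⌉ - 1 : ℤ) : ℂ) * F.σ))
    else Tr F m w 0 1 + whiteV (F.shift (Lm m * F.σ)) m a w
      (x - Lm m * (((⌈F.cs x / Lm m⌉ - 1 : ℤ) : ℂ) * F.τ + ((⌈F.cr x / Lm m⌉ - 1 : ℤ) : ℂ) * F.σ)))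

/-- all points at distance at most `2a` from some hinge -/
def Zfull (F : Frame) (m : ℕ) (a : ℝ) : Set ℂ :=
  {x | ∃ t₁ t₂ : ℤ, x - Lm m * ((t₁ : ℂ) * F.τ + (t₂ : ℂ) * F.σ) ∈
    Zs F m a ∪ Zs (F.next (Lm m)) m a ∪ Zs ((F.next (Lm m)).next (Lm m)) m a}

/-- all hinges of one side -/
def hinges (F : Frame) (m : ℕ) : Set ℂ :=
  {P | (∃ j < 2 * m, P = F.N j) ∨ (∃ i < m, P = F.D i) ∨ (∃ i < m, P = F.U m i)}

/-! definitions for the stress function (equilateral lattice) -/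

/-- primitive sixth root of unity -/
def zt : ℂ := ⟨1 / 2, Real.sqrt 3 / 2⟩
/-- equilateral frame -/
def hx : Frame := ⟨0, 1, zt⟩
/-- lattice point -/
def lp (p : ℤ × ℤ) : ℂ := (p.1 : ℂ) + (p.2 : ℂ) * zt
/-- harmonic quadratic form -/
def qf (c x : ℂ) : ℝ := (c * x ^ 2).re
def dl (m : ℕ) : ℝ := 1 / Lm m
def gam (c : ℂ) : ℝ := -((c.re + (c * zt).re) / 3)
/-- tangent plane of `qf c` at the end `Lm m` of the side -/
def lM (m : ℕ) (c x : ℂ) : ℝ := qf c (Lm m) + 2 * (c * (Lm m) * (x - Lm m)).re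
/-- prescribed values at the hinges `U i`, `D i`, `N j` -/
def aU (m : ℕ) (c : ℂ) (i : ℕ) : ℝ :=
  if i = 0 then 0 else if i + 1 = m then lM m c (hx.U m i) else qf c (hx.U m i)
def aD (m : ℕ) (c : ℂ) (i : ℕ) : ℝ :=
  if i = 0 then -2 * gam c else if i = m then lM m c (hx.D m - dl m * zt) - 2 * gam c else qf c (hx.D i)
def aN (m : ℕ) (c : ℂ) (j : ℕ) : ℝ := (aU m c (j / 2) + aD m c ((j + 1) / 2)) / 2 + gam c
/-- plane on the `i`-th black crack cluster (through `D i`, `D (i+1)`, `N (2i)`, `N (2i+1)`) -/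
def bp (m : ℕ) (c : ℂ) (i : ℕ) (x : ℂ) : ℝ :=
  aD m c i + (aD m c (i + 1) - aD m c i) / 2 * (hx.cs x - (2 * (i : ℝ) + 1))
    + ((aD m c i + aD m c (i + 1)) / 2 - aN m c (2 * i)) * (hx.cr x - 1)
/-- plane on the `i`-th white crack cluster (through `U (i-1)`, `U i`, `N (2i-1)`, `N (2i)`) -/
def wp (m : ℕ) (c : ℂ) (i : ℕ) (x : ℂ) : ℝ :=
  if i = 0 then 0 else if i = m then lM m c x else
    aN m c (2 * i) + (aU m c i - aU m c (i - 1)) / 2 * (hx.cs x - (2 * (i : ℝ) + 2))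
      + (aN m c (2 * i) - (aU m c i + aU m c (i - 1)) / 2) / (1 - dl m) * hx.cr x
/-- last black plane of the previous side -/
def bL (m : ℕ) (c x : ℂ) : ℝ :=
  qf c (Lm m * zt) + 2 * (c * (Lm m * zt) * (x - Lm m * zt)).re + bp m (c * zt ^ 2) (m - 1) (zt ^ 2 * x + Lm m)
/-- function with the two planes `l₋`, `l₊` glued at the hinge `P`, direction `d` -/
def hg (Xi : ℂ → ℝ) (a : ℝ) (P d : ℂ) (lm lq : ℂ → ℝ) (x : ℂ) : ℝ :=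
  lm x + Xi ((x - P) * (starRingEnd ℂ) d / a) * (lq x - lm x)
def LN (Xi : ℂ → ℝ) (m : ℕ) (a : ℝ) (c : ℂ) (j : ℕ) (x : ℂ) : ℝ :=
  hg Xi a (hx.N j) (if Even j then zt else zt ^ 2) (wp m c ((j + 1) / 2)) (bp m c (j / 2)) x
def LD (Xi : ℂ → ℝ) (m : ℕ) (a : ℝ) (c : ℂ) (i : ℕ) (x : ℂ) : ℝ :=
  hg Xi a (hx.D i) 1 (if i = 0 then bL m c else bp m c (i - 1)) (bp m c i) x
def LU (Xi : ℂ → ℝ) (m : ℕ) (a : ℝ) (c : ℂ) (i : ℕ) (x : ℂ) : ℝ :=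
  hg Xi a (hx.U m i) 1 (wp m c i) (wp m c (i + 1)) x
/-- special lattice points of the first side -/
def Sp (m : ℕ) (p : ℤ × ℤ) : Prop :=
  (p.2 = 0 ∧ 1 ≤ p.1 ∧ p.1 ≤ 2 * (m : ℤ) + 2) ∨ (p.2 = 1 ∧ ∃ i < m, p.1 = 2 * (i : ℤ) + 1) ∨
    (p.2 = -1 ∧ ∃ i < m, p.1 = 2 * (i : ℤ) + 3)
/-- value function at a special lattice point -/
def LL (Xi : ℂ → ℝ) (m : ℕ) (a : ℝ) (c : ℂ) (p : ℤ × ℤ) (x : ℂ) : ℝ :=
  if p.2 = 0 then (if p.1 = 1 then 0 else if p.1 = 2 * (m : ℤ) + 2 then lM m c x else LN Xi m a c (p.1 - 2).toNat x)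
  else if p.2 = 1 then LD Xi m a c ((p.1 - 1) / 2).toNat x
  else LU Xi m a c ((p.1 - 3) / 2).toNat x
open Classical in
/-- deviation at a lattice point of the first side -/
def Dev (Xi : ℂ → ℝ) (m : ℕ) (a : ℝ) (c : ℂ) (p : ℤ × ℤ) (x : ℂ) : ℝ :=
  if Sp m p then LL Xi m a c p x - qf c x else 0
/-- rotation of the lattice about the centre of the black triangle -/
def rotL (m : ℕ) (p : ℤ × ℤ) : ℤ × ℤ := (2 * (m : ℤ) + 3 - p.1 - p.2, p.1)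
def box (m : ℕ) : Finset (ℤ × ℤ) := Finset.Icc (1 : ℤ) (2 * (m : ℤ) + 2) ×ˢ Finset.Icc (-1 : ℤ) 1
/-- contribution of one black triangle (and its first vertex) to the deviation -/
def HH (θ Xi : ℂ → ℝ) (m : ℕ) (a : ℝ) (c x : ℂ) : ℝ :=
  -(θ x * qf c x) + ∑ p ∈ box m,
    (θ (x - lp p) * Dev Xi m a c p x
      + θ (x - lp (rotL m p)) * Dev Xi m a (c * zt ^ 4) p (zt ^ 4 * (x - Lm m))
      + θ (x - lp (rotL m (rotL m p))) * Dev Xi m a (c * zt ^ 2) p (zt ^ 2 * x + Lm m))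
/-- the deviation of the Airy function from `qf c` -/
def dd (θ Xi : ℂ → ℝ) (m : ℕ) (a : ℝ) (c x : ℂ) : ℝ :=
  ∑' t : ℤ × ℤ, HH θ Xi m a c (x - Lm m * lp t)

/-- properties of the lattice partition of unity -/
structure ThetaOK (θ : ℂ → ℝ) : Prop where
  smooth : ContDiff ℝ ∞ θ
  supp : ∀ x : ℂ, 0.86 ≤ ‖x‖ → θ x = 0
  rot : ∀ x : ℂ, θ (zt * x) = θ x
  nonneg : ∀ x : ℂ, 0 ≤ θ x
  sum_one : ∀ x : ℂ, ∑' p : ℤ × ℤ, θ (x - lp p) = 1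

/-- properties of the hinge profile -/
structure XiOK (Xi : ℂ → ℝ) (K : ℝ) : Prop where
  smooth : ContDiff ℝ ∞ Xi
  one : ∀ y : ℂ, 0.9 ≤ ‖y‖ → 0.45 * ‖y‖ ≤ y.re → Xi y = 1
  zero : ∀ y : ℂ, 0.9 ≤ ‖y‖ → y.re ≤ -0.45 * ‖y‖ → Xi y = 0
  bound : ∀ (k : ℕ) (y : ℂ), k ≤ 2 → ‖iteratedFDeriv ℝ k Xi y‖ ≤ K / (1 + ‖y‖) ^ k

/-- special lattice points of the closed first side -/
def SpP (m : ℕ) (p : ℤ × ℤ) : Prop :=
  Sp m p ∨ p = (0, 0) ∨ p = (2 * (m : ℤ) + 3, 0) ∨ p = (2 * (m : ℤ) + 1, 1)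
/-- value function at the special lattice points of the closed first side -/
def VV (Xi : ℂ → ℝ) (m : ℕ) (a : ℝ) (c : ℂ) (p : ℤ × ℤ) (x : ℂ) : ℝ :=
  if p = (0, 0) then 0 else if p = (2 * (m : ℤ) + 3, 0) then lM m c x
  else if p = (2 * (m : ℤ) + 1, 1) then lM m c x + LD Xi m a (c * zt ^ 4) 0 (zt ^ 4 * (x - Lm m))
  else LL Xi m a c p x

end Porous
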