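import Pool.Agent.Porous.Base

open MeasureTheory Complex Set
open scoped ContDiff ENNReal
noncomputable section
namespace Porous

theorem g3_bdd (b : Module.Basis (Fin 2) ℝ ℂ) {F : Type*} [NormedAddCommGroup F]
    {g : ℂ → F} (hg : Continuous g) : ∃ C : ℝ, ∀ x ∈ cell b, ‖g x‖ ≤ C := by
  obtain ⟨R, hR⟩ := (ZSpan.fundamentalDomain_isBounded b).subset_closedBall 0
  obtain ⟨C, hC⟩ := (isCompact_closedBall (0 : ℂ) R).exists_bound_of_continuousOn hg.continuousOn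
  exact ⟨C, fun x hx => hC x (hR hx)⟩

theorem g3_fin (b : Module.Basis (Fin 2) ℝ ℂ) : IsFiniteMeasure (volume.restrict (cell b)) :=
  ⟨by rw [Measure.restrict_apply_univ]
      exact (ZSpan.fundamentalDomain_isBounded b).measure_lt_top⟩

theorem g3_meas (b : Module.Basis (Fin 2) ℝ ℂ) : MeasurableSet (cell b) :=
  ZSpan.fundamentalDomain_measurableSet b

theorem g3_memLp (b : Module.Basis (Fin 2) ℝ ℂ) {g : ℂ → ℂ} (hg : Continuous g) :
    MemLp g 2 (volume.restrict (cell b)) := by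
  have := g3_fin b
  obtain ⟨C, hC⟩ := g3_bdd b hg
  refine MemLp.of_bound hg.aestronglyMeasurable C ?_
  exact (ae_restrict_iff' (g3_meas b)).2 (Filter.Eventually.of_forall hC)

theorem g3_int (b : Module.Basis (Fin 2) ℝ ℂ) {ψ : ℂ → ℝ} (hψ : Continuous ψ) {G : ℂ → ℂ}
    (hG : MemLp G 2 (volume.restrict (cell b))) :
    Integrable (fun x => ψ x • G x) (volume.restrict (cell b)) := by
  have := g3_fin b
  obtain ⟨C, hC⟩ := g3_bdd b hψ
  have h1 : Integrable G (volume.restrict (cell b)) := hG.integrable one_le_two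
  refine Integrable.mono' (h1.norm.const_mul C) (hψ.aestronglyMeasurable.smul hG.1) ?_
  refine (ae_restrict_iff' (g3_meas b)).2 (Filter.Eventually.of_forall fun x hx => ?_)
  rw [norm_smul]
  exact mul_le_mul_of_nonneg_right (hC x hx) (norm_nonneg _)

theorem g3_fderiv_per {F : Type*} [NormedAddCommGroup F] [NormedSpace ℝ F]
    {b : Module.Basis (Fin 2) ℝ ℂ} {u : ℂ → F} (hper : Per b u) (h : ℂ) :
    Per b (fun x => fderiv ℝ u x h) := by
  intro i x
  have e : (fun y => u (y + b i)) = u := funext fun y => hper i y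
  have h1 := fderiv_comp_add_right (𝕜 := ℝ) (f := u) (x := x) (b i)
  rw [e] at h1
  show fderiv ℝ u (x + b i) h = fderiv ℝ u x h
  rw [← h1]

theorem g3_fderiv_cont {F : Type*} [NormedAddCommGroup F] [NormedSpace ℝ F]
    {u : ℂ → F} (hu : ContDiff ℝ ∞ u) (h : ℂ) : Continuous (fun x => fderiv ℝ u x h) :=
  (hu.continuous_fderiv (by simp)).clm_apply continuous_const

theorem g3_weak
    (hder : ∀ (b : Module.Basis (Fin 2) ℝ ℂ) (f : ℂ → ℂ), ContDiff ℝ ∞ f → Per b f → ∀ h : ℂ,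
      ∫ x in cell b, fderiv ℝ f x h = 0)
    (b : Module.Basis (Fin 2) ℝ ℂ) (u : ℂ → ℂ) (hu : ContDiff ℝ ∞ u) (hper : Per b u) (h : ℂ)
    (ψ : ℂ → ℝ) (hψ : ContDiff ℝ ∞ ψ) (hψp : Per b ψ) :
    ∫ x in cell b, ψ x • fderiv ℝ u x h = - ∫ x in cell b, (fderiv ℝ ψ x h) • u x := by
  have h1 := hder b (fun x => ψ x • u x) (hψ.smul hu)
    (fun i x => by show ψ (x + b i) • u (x + b i) = ψ x • u x; rw [hψp i x, hper i x]) h
  have h2 : ∀ x, fderiv ℝ (fun x => ψ x • u x) x h =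
      ψ x • fderiv ℝ u x h + (fderiv ℝ ψ x h) • u x := by
    intro x
    have d1 : DifferentiableAt ℝ ψ x := (hψ.differentiable (by simp)) x
    have d2 : DifferentiableAt ℝ u x := (hu.differentiable (by simp)) x
    have h3 : fderiv ℝ (fun x => ψ x • u x) x = _ := (d1.hasFDerivAt.smul d2.hasFDerivAt).fderiv
    rw [h3]
    simp
  simp only [h2] at h1
  rw [integral_add] at h1
  · exact eq_neg_of_add_eq_zero_left h1
  · exact g3_int b hψ.continuous (g3_memLp b (g3_fderiv_cont hu h))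
  · exact g3_int b (g3_fderiv_cont hψ h) (g3_memLp b hu.continuous)

/-- (assumed here, proved elsewhere) -/
theorem isH1Per_of_contDiff
    (hder : ∀ (b : Module.Basis (Fin 2) ℝ ℂ) (f : ℂ → ℂ), ContDiff ℝ ∞ f → Per b f → ∀ h : ℂ,
      ∫ x in cell b, fderiv ℝ f x h = 0)
    (b : Module.Basis (Fin 2) ℝ ℂ) (u : ℂ → ℂ) (hu : ContDiff ℝ ∞ u) (hper : Per b u) :
    IsH1Per b u (fun x => fderiv ℝ u x 1) (fun x => fderiv ℝ u x I) where
  per_u := hper
  per_1 := g3_fderiv_per hper 1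
  per_2 := g3_fderiv_per hper I
  mem_u := g3_memLp b hu.continuous
  mem_1 := g3_memLp b (g3_fderiv_cont hu 1)
  mem_2 := g3_memLp b (g3_fderiv_cont hu I)
  weak_1 := fun ψ hψ hψp => g3_weak hder b u hu hper 1 ψ hψ hψp
  weak_2 := fun ψ hψ hψp => g3_weak hder b u hu hper I ψ hψ hψp

theorem g3_add {b : Module.Basis (Fin 2) ℝ ℂ} {u G u' G' : ℂ → ℂ} {h : ℂ}
    (mu : MemLp u 2 (volume.restrict (cell b))) (mG : MemLp G 2 (volume.restrict (cell b)))
    (mu' : MemLp u' 2 (volume.restrict (cell b))) (mG' : MemLp G' 2 (volume.restrict (cell b)))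
    {ψ : ℂ → ℝ} (hψ : ContDiff ℝ ∞ ψ)
    (h1 : ∫ x in cell b, ψ x • G x = - ∫ x in cell b, (fderiv ℝ ψ x h) • u x)
    (h2 : ∫ x in cell b, ψ x • G' x = - ∫ x in cell b, (fderiv ℝ ψ x h) • u' x) :
    ∫ x in cell b, ψ x • (G x + G' x) = - ∫ x in cell b, (fderiv ℝ ψ x h) • (u x + u' x) := by
  simp only [smul_add]
  rw [integral_add (g3_int b hψ.continuous mG) (g3_int b hψ.continuous mG'),
    integral_add (g3_int b (g3_fderiv_cont hψ h) mu) (g3_int b (g3_fderiv_cont hψ h) mu'),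
    h1, h2, neg_add]

theorem g3_smul {b : Module.Basis (Fin 2) ℝ ℂ} {u G : ℂ → ℂ} {h : ℂ}
    {ψ : ℂ → ℝ} (t : ℝ)
    (h1 : ∫ x in cell b, ψ x • G x = - ∫ x in cell b, (fderiv ℝ ψ x h) • u x) :
    ∫ x in cell b, ψ x • ((t : ℂ) * G x) = - ∫ x in cell b, (fderiv ℝ ψ x h) • ((t : ℂ) * u x) := by
  simp only [← mul_smul_comm]
  rw [integral_const_mul, integral_const_mul, h1, mul_neg]

/-- the admissible displacements form a vector space -/
theorem IsH1Per.add {b : Module.Basis (Fin 2) ℝ ℂ} {u G₁ G₂ u' G₁' G₂' : ℂ → ℂ}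
    (h : IsH1Per b u G₁ G₂) (h' : IsH1Per b u' G₁' G₂') :
    IsH1Per b (fun x => u x + u' x) (fun x => G₁ x + G₁' x) (fun x => G₂ x + G₂' x) where
  per_u := fun i x => by show u (x + b i) + u' (x + b i) = _; rw [h.per_u i x, h'.per_u i x]
  per_1 := fun i x => by show G₁ (x + b i) + G₁' (x + b i) = _; rw [h.per_1 i x, h'.per_1 i x]
  per_2 := fun i x => by show G₂ (x + b i) + G₂' (x + b i) = _; rw [h.per_2 i x, h'.per_2 i x]
  mem_u := h.mem_u.add h'.mem_u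
  mem_1 := h.mem_1.add h'.mem_1
  mem_2 := h.mem_2.add h'.mem_2
  weak_1 := fun ψ hψ hψp => g3_add h.mem_u h.mem_1 h'.mem_u h'.mem_1 hψ
    (h.weak_1 ψ hψ hψp) (h'.weak_1 ψ hψ hψp)
  weak_2 := fun ψ hψ hψp => g3_add h.mem_u h.mem_2 h'.mem_u h'.mem_2 hψ
    (h.weak_2 ψ hψ hψp) (h'.weak_2 ψ hψ hψp)

theorem IsH1Per.smul {b : Module.Basis (Fin 2) ℝ ℂ} {u G₁ G₂ : ℂ → ℂ}
    (h : IsH1Per b u G₁ G₂) (t : ℝ) :
    IsH1Per b (fun x => (t : ℂ) * u x) (fun x => (t : ℂ) * G₁ x) (fun x => (t : ℂ) * G₂ x) where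
  per_u := fun i x => by show (t : ℂ) * u (x + b i) = _; rw [h.per_u i x]
  per_1 := fun i x => by show (t : ℂ) * G₁ (x + b i) = _; rw [h.per_1 i x]
  per_2 := fun i x => by show (t : ℂ) * G₂ (x + b i) = _; rw [h.per_2 i x]
  mem_u := h.mem_u.const_mul _
  mem_1 := h.mem_1.const_mul _
  mem_2 := h.mem_2.const_mul _
  weak_1 := fun ψ hψ hψp => g3_smul t (h.weak_1 ψ hψ hψp)
  weak_2 := fun ψ hψ hψp => g3_smul t (h.weak_2 ψ hψ hψp)


end Porous
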