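import Pool.Agent.Porous.Base

open MeasureTheory Complex Set
open scoped ContDiff ENNReal
noncomputable section
namespace Porous
namespace JG4


/-- the energy of a trial field -/
def En (b : Module.Basis (Fin 2) ℝ ℂ) (Ω : Set ℂ) (κ : ℝ≥0∞) (μ e₁₁ e₂₂ e₁₂ : ℝ)
    (G₁ G₂ : ℂ → ℂ) : ℝ≥0∞ :=
  (∫⁻ x in Ω ∩ cell b, W κ μ (e₁₁ + (G₁ x).re) (e₂₂ + (G₂ x).im)
    (e₁₂ + ((G₁ x).im + (G₂ x).re) / 2)) / volume (cell b)

theorem effE_le_En {b : Module.Basis (Fin 2) ℝ ℂ} {Ω : Set ℂ} {κ : ℝ≥0∞} {μ e₁₁ e₂₂ e₁₂ : ℝ}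
    {u G₁ G₂ : ℂ → ℂ} (h : IsH1Per b u G₁ G₂) :
    effE b Ω κ μ e₁₁ e₂₂ e₁₂ ≤ En b Ω κ μ e₁₁ e₂₂ e₁₂ G₁ G₂ :=
  iInf_le_of_le u (iInf_le_of_le G₁ (iInf_le_of_le G₂ (iInf_le_of_le h le_rfl)))

theorem le_effE {b : Module.Basis (Fin 2) ℝ ℂ} {Ω : Set ℂ} {κ : ℝ≥0∞} {μ e₁₁ e₂₂ e₁₂ : ℝ}
    {x : ℝ≥0∞} (h : ∀ u G₁ G₂ : ℂ → ℂ, IsH1Per b u G₁ G₂ →
      x ≤ En b Ω κ μ e₁₁ e₂₂ e₁₂ G₁ G₂) :
    x ≤ effE b Ω κ μ e₁₁ e₂₂ e₁₂ :=
  le_iInf fun u => le_iInf fun G₁ => le_iInf fun G₂ => le_iInf fun hh => h u G₁ G₂ hh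

theorem le_mul_effE {b : Module.Basis (Fin 2) ℝ ℂ} {Ω : Set ℂ} {κ : ℝ≥0∞} {μ e₁₁ e₂₂ e₁₂ : ℝ}
    {c x y : ℝ≥0∞} (hc0 : c ≠ 0) (hct : c ≠ ⊤)
    (h : ∀ u G₁ G₂ : ℂ → ℂ, IsH1Per b u G₁ G₂ →
      x ≤ c * En b Ω κ μ e₁₁ e₂₂ e₁₂ G₁ G₂ + y) :
    x ≤ c * effE b Ω κ μ e₁₁ e₂₂ e₁₂ + y := by
  rw [← tsub_le_iff_right, ← ENNReal.div_le_iff' hc0 hct]
  refine le_effE fun u G₁ G₂ hh => ?_
  rw [ENNReal.div_le_iff' hc0 hct, tsub_le_iff_right]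
  exact h u G₁ G₂ hh

theorem W_smul (κ : ℝ≥0∞) (μ t p q r : ℝ) :
    W κ μ (t * p) (t * q) (t * r) = ENNReal.ofReal (t ^ 2) * W κ μ p q r := by
  unfold W
  have h1 : (t * p + t * q) ^ 2 = t ^ 2 * (p + q) ^ 2 := by ring
  have h2 : μ * ((t * p - t * q) ^ 2 + 4 * (t * r) ^ 2) =
      t ^ 2 * (μ * ((p - q) ^ 2 + 4 * r ^ 2)) := by ring
  rw [h1, h2, ENNReal.ofReal_mul (sq_nonneg t), ENNReal.ofReal_mul (sq_nonneg t)]
  ring

theorem W_par (κ : ℝ≥0∞) {μ : ℝ} (hμ : 0 < μ) (p q r p' q' r' : ℝ) :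
    W κ μ (p + p') (q + q') (r + r') + W κ μ (p - p') (q - q') (r - r') =
      2 * W κ μ p q r + 2 * W κ μ p' q' r' := by
  have h2 : ∀ a : ℝ, (2 : ℝ≥0∞) * ENNReal.ofReal a = ENNReal.ofReal (2 * a) := fun a => by
    rw [ENNReal.ofReal_mul (by norm_num), ENNReal.ofReal_ofNat]
  have e1 : ENNReal.ofReal ((p + p' + (q + q')) ^ 2) + ENNReal.ofReal ((p - p' + (q - q')) ^ 2) =
      2 * ENNReal.ofReal ((p + q) ^ 2) + 2 * ENNReal.ofReal ((p' + q') ^ 2) := by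
    rw [h2, h2, ← ENNReal.ofReal_add (by positivity) (by positivity),
      ← ENNReal.ofReal_add (by positivity) (by positivity)]
    congr 1
    ring
  have e2 : ENNReal.ofReal (μ * ((p + p' - (q + q')) ^ 2 + 4 * (r + r') ^ 2)) +
      ENNReal.ofReal (μ * ((p - p' - (q - q')) ^ 2 + 4 * (r - r') ^ 2)) =
      2 * ENNReal.ofReal (μ * ((p - q) ^ 2 + 4 * r ^ 2)) +
      2 * ENNReal.ofReal (μ * ((p' - q') ^ 2 + 4 * r' ^ 2)) := by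
    rw [h2, h2, ← ENNReal.ofReal_add (by positivity) (by positivity),
      ← ENNReal.ofReal_add (by positivity) (by positivity)]
    congr 1
    ring
  unfold W
  calc κ * ENNReal.ofReal ((p + p' + (q + q')) ^ 2) +
        ENNReal.ofReal (μ * ((p + p' - (q + q')) ^ 2 + 4 * (r + r') ^ 2)) +
        (κ * ENNReal.ofReal ((p - p' + (q - q')) ^ 2) +
        ENNReal.ofReal (μ * ((p - p' - (q - q')) ^ 2 + 4 * (r - r') ^ 2)))
      = κ * (ENNReal.ofReal ((p + p' + (q + q')) ^ 2) +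
          ENNReal.ofReal ((p - p' + (q - q')) ^ 2)) +
        (ENNReal.ofReal (μ * ((p + p' - (q + q')) ^ 2 + 4 * (r + r') ^ 2)) +
        ENNReal.ofReal (μ * ((p - p' - (q - q')) ^ 2 + 4 * (r - r') ^ 2))) := by ring
    _ = _ := by rw [e1, e2]; ring

theorem isH1Per_zero (b : Module.Basis (Fin 2) ℝ ℂ) :
    IsH1Per b (fun _ => 0) (fun _ => 0) (fun _ => 0) where
  per_u := fun _ _ => rfl
  per_1 := fun _ _ => rfl
  per_2 := fun _ _ => rfl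
  mem_u := MemLp.zero'
  mem_1 := MemLp.zero'
  mem_2 := MemLp.zero'
  weak_1 := fun ψ _ _ => by simp
  weak_2 := fun ψ _ _ => by simp

theorem effE_zero (b : Module.Basis (Fin 2) ℝ ℂ) (Ω : Set ℂ) (κ : ℝ≥0∞) (μ : ℝ) :
    effE b Ω κ μ 0 0 0 = 0 := by
  refine le_antisymm ((effE_le_En (isH1Per_zero b)).trans ?_) zero_le
  unfold En W
  simp

theorem effE_smul_le (b : Module.Basis (Fin 2) ℝ ℂ) (Ω : Set ℂ) (κ : ℝ≥0∞) (μ : ℝ)
    (hsmul : ∀ (u G₁ G₂ : ℂ → ℂ) (t : ℝ), IsH1Per b u G₁ G₂ →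
      IsH1Per b (fun x => (t : ℂ) * u x) (fun x => (t : ℂ) * G₁ x) (fun x => (t : ℂ) * G₂ x))
    {t : ℝ} (ht : t ≠ 0) (e₁₁ e₂₂ e₁₂ : ℝ) :
    effE b Ω κ μ (t * e₁₁) (t * e₂₂) (t * e₁₂) ≤
      ENNReal.ofReal (t ^ 2) * effE b Ω κ μ e₁₁ e₂₂ e₁₂ := by
  have ht2 : 0 < t ^ 2 := by positivity
  rw [← add_zero (ENNReal.ofReal (t ^ 2) * effE b Ω κ μ e₁₁ e₂₂ e₁₂)]
  refine le_mul_effE (by simpa using ht) ENNReal.ofReal_ne_top fun u G₁ G₂ hh => ?_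
  rw [add_zero]
  refine (effE_le_En (hsmul u G₁ G₂ t hh)).trans (le_of_eq ?_)
  unfold En
  rw [← mul_div_assoc, ← lintegral_const_mul' _ _ ENNReal.ofReal_ne_top]
  congr 1
  refine lintegral_congr fun x => ?_
  rw [← W_smul]
  congr 1
  · rw [Complex.re_ofReal_mul]; ring
  · rw [Complex.im_ofReal_mul]; ring
  · rw [Complex.im_ofReal_mul, Complex.re_ofReal_mul]; ring

theorem effE_smul (b : Module.Basis (Fin 2) ℝ ℂ) (Ω : Set ℂ) (κ : ℝ≥0∞) (μ : ℝ)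
    (hsmul : ∀ (u G₁ G₂ : ℂ → ℂ) (t : ℝ), IsH1Per b u G₁ G₂ →
      IsH1Per b (fun x => (t : ℂ) * u x) (fun x => (t : ℂ) * G₁ x) (fun x => (t : ℂ) * G₂ x))
    (t e₁₁ e₂₂ e₁₂ : ℝ) :
    effE b Ω κ μ (t * e₁₁) (t * e₂₂) (t * e₁₂) = ENNReal.ofReal (t ^ 2) * effE b Ω κ μ e₁₁ e₂₂ e₁₂ := by
  by_cases ht : t = 0
  · rw [ht]
    simp only [zero_mul, effE_zero]
    simp
  · refine le_antisymm (effE_smul_le b Ω κ μ hsmul ht _ _ _) ?_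
    have h1 := effE_smul_le b Ω κ μ hsmul (inv_ne_zero ht) (t * e₁₁) (t * e₂₂) (t * e₁₂)
    simp only [← mul_assoc, inv_mul_cancel₀ ht, one_mul] at h1
    calc ENNReal.ofReal (t ^ 2) * effE b Ω κ μ e₁₁ e₂₂ e₁₂
        ≤ ENNReal.ofReal (t ^ 2) * (ENNReal.ofReal (t⁻¹ ^ 2) *
          effE b Ω κ μ (t * e₁₁) (t * e₂₂) (t * e₁₂)) := by gcongr
      _ = effE b Ω κ μ (t * e₁₁) (t * e₂₂) (t * e₁₂) := by
          rw [← mul_assoc, ← ENNReal.ofReal_mul (sq_nonneg t), ← mul_pow, mul_inv_cancel₀ ht]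
          simp

theorem aemeasurable_W {b : Module.Basis (Fin 2) ℝ ℂ} {u G₁ G₂ : ℂ → ℂ}
    (h : IsH1Per b u G₁ G₂) (Ω : Set ℂ) (κ : ℝ≥0∞) (μ e₁₁ e₂₂ e₁₂ : ℝ) :
    AEMeasurable (fun x => W κ μ (e₁₁ + (G₁ x).re) (e₂₂ + (G₂ x).im)
      (e₁₂ + ((G₁ x).im + (G₂ x).re) / 2)) (volume.restrict (Ω ∩ cell b)) := by
  have hle : volume.restrict (Ω ∩ cell b) ≤ volume.restrict (cell b) :=
    Measure.restrict_mono inter_subset_right le_rfl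
  have h1 : AEMeasurable G₁ (volume.restrict (Ω ∩ cell b)) :=
    (h.mem_1.1.mono_measure hle).aemeasurable
  have h2 : AEMeasurable G₂ (volume.restrict (Ω ∩ cell b)) :=
    (h.mem_2.1.mono_measure hle).aemeasurable
  have r1 : AEMeasurable (fun x => (G₁ x).re) (volume.restrict (Ω ∩ cell b)) :=
    Complex.measurable_re.comp_aemeasurable h1
  have i1 : AEMeasurable (fun x => (G₁ x).im) (volume.restrict (Ω ∩ cell b)) :=
    Complex.measurable_im.comp_aemeasurable h1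
  have r2 : AEMeasurable (fun x => (G₂ x).re) (volume.restrict (Ω ∩ cell b)) :=
    Complex.measurable_re.comp_aemeasurable h2
  have i2 : AEMeasurable (fun x => (G₂ x).im) (volume.restrict (Ω ∩ cell b)) :=
    Complex.measurable_im.comp_aemeasurable h2
  unfold W
  have a1 := (r1.const_add e₁₁)
  have a2 := (i2.const_add e₂₂)
  have a3 := (((i1.add r2).div_const 2).const_add e₁₂)
  exact (((a1.add a2).pow_const 2).ennreal_ofReal.const_mul κ).add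
    ((((a1.sub a2).pow_const 2).add ((a3.pow_const 2).const_mul 4)).const_mul μ).ennreal_ofReal

theorem effE_par (b : Module.Basis (Fin 2) ℝ ℂ) (Ω : Set ℂ) (κ : ℝ≥0∞) (μ : ℝ) (hμ : 0 < μ)
    (hadd : ∀ (u G₁ G₂ u' G₁' G₂' : ℂ → ℂ), IsH1Per b u G₁ G₂ → IsH1Per b u' G₁' G₂' →
      IsH1Per b (fun x => u x + u' x) (fun x => G₁ x + G₁' x) (fun x => G₂ x + G₂' x))
    (hsmul : ∀ (u G₁ G₂ : ℂ → ℂ) (t : ℝ), IsH1Per b u G₁ G₂ →
      IsH1Per b (fun x => (t : ℂ) * u x) (fun x => (t : ℂ) * G₁ x) (fun x => (t : ℂ) * G₂ x))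
    (e₁₁ e₂₂ e₁₂ e₁₁' e₂₂' e₁₂' : ℝ) :
    effE b Ω κ μ (e₁₁ + e₁₁') (e₂₂ + e₂₂') (e₁₂ + e₁₂') + effE b Ω κ μ (e₁₁ - e₁₁') (e₂₂ - e₂₂') (e₁₂ - e₁₂')
      ≤ 2 * effE b Ω κ μ e₁₁ e₂₂ e₁₂ + 2 * effE b Ω κ μ e₁₁' e₂₂' e₁₂' := by
  refine le_mul_effE two_ne_zero ENNReal.ofNat_ne_top fun u G₁ G₂ hh => ?_
  rw [add_comm (2 * En b Ω κ μ e₁₁ e₂₂ e₁₂ G₁ G₂)]
  refine le_mul_effE two_ne_zero ENNReal.ofNat_ne_top fun u' G₁' G₂' hh' => ?_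
  have hp := hadd _ _ _ _ _ _ hh hh'
  have hm := hadd _ _ _ _ _ _ hh (hsmul _ _ _ (-1) hh')
  refine (add_le_add (effE_le_En hp) (effE_le_En hm)).trans (le_of_eq ?_)
  unfold En
  rw [← ENNReal.add_div, ← mul_div_assoc, ← mul_div_assoc, ← ENNReal.add_div]
  congr 1
  rw [← lintegral_add_left' (aemeasurable_W hp Ω κ μ _ _ _),
    ← lintegral_const_mul' _ _ ENNReal.ofNat_ne_top,
    ← lintegral_const_mul' _ _ ENNReal.ofNat_ne_top,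
    ← lintegral_add_left' ((aemeasurable_W hh' Ω κ μ _ _ _).const_mul 2)]
  refine lintegral_congr fun x => ?_
  rw [add_comm (2 * W κ μ (e₁₁' + (G₁' x).re) (e₂₂' + (G₂' x).im)
    (e₁₂' + ((G₁' x).im + (G₂' x).re) / 2)), ← W_par κ hμ]
  simp only [Complex.add_re, Complex.add_im, Complex.re_ofReal_mul, Complex.im_ofReal_mul]
  congr 1
  · congr 1 <;> ring
  · congr 1 <;> ring

theorem effE_tracefree (b : Module.Basis (Fin 2) ℝ ℂ) (Ω : Set ℂ) (κ : ℝ≥0∞) (μ x y : ℝ) :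
    effE b Ω κ μ x (-x) y ≠ ⊤ := by
  refine ne_top_of_le_ne_top ?_ (effE_le_En (isH1Per_zero b))
  unfold En W
  simp only [Complex.zero_re, Complex.zero_im, add_zero, zero_div, add_neg_cancel]
  rw [lintegral_const]
  have hfin : volume (cell b) ≠ ⊤ := (ZSpan.fundamentalDomain_isBounded b).measure_lt_top.ne
  refine ENNReal.div_ne_top (ENNReal.mul_ne_top ?_ ?_)
    (ZSpan.measure_fundamentalDomain_ne_zero b)
  · simp
  · rw [Measure.restrict_apply_univ]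
    exact ne_top_of_le_ne_top hfin (measure_mono inter_subset_right)

/-- the effective energy of a composite with 3-fold symmetry is isotropic -/
theorem effE_isotropic (b : Module.Basis (Fin 2) ℝ ℂ) (Ω : Set ℂ) (κ : ℝ≥0∞) (μ : ℝ) (hμ : 0 < μ)
    (halg : ∀ (f : ℝ → ℂ → ℝ), (∀ s β, 0 ≤ f s β) →
      (∀ (t s : ℝ) (β : ℂ), f (t * s) (t * β) = t ^ 2 * f s β) →
      (∀ (s s' : ℝ) (β β' : ℂ), f (s + s') (β + β') + f (s - s') (β - β') = 2 * f s β + 2 * f s' β') →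
      (∀ s β, f s ((⟨-1/2, Real.sqrt 3 / 2⟩ : ℂ) * β) = f s β) →
      ∃ A B : ℝ, 0 ≤ A ∧ 0 ≤ B ∧ ∀ s β, f s β = A * s ^ 2 + B * ‖β‖ ^ 2)
    (hadd : ∀ (u G₁ G₂ u' G₁' G₂' : ℂ → ℂ), IsH1Per b u G₁ G₂ → IsH1Per b u' G₁' G₂' →
      IsH1Per b (fun x => u x + u' x) (fun x => G₁ x + G₁' x) (fun x => G₂ x + G₂' x))
    (hsmul : ∀ (u G₁ G₂ : ℂ → ℂ) (t : ℝ), IsH1Per b u G₁ G₂ →
      IsH1Per b (fun x => (t : ℂ) * u x) (fun x => (t : ℂ) * G₁ x) (fun x => (t : ℂ) * G₂ x))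
    (hfin : effE b Ω κ μ 1 1 0 ≠ ⊤)
    (hrot : ∀ (s : ℝ) (β : ℂ),
      effE b Ω κ μ (s + ((⟨-1/2, Real.sqrt 3 / 2⟩ : ℂ) * β).re) (s - ((⟨-1/2, Real.sqrt 3 / 2⟩ : ℂ) * β).re)
        ((⟨-1/2, Real.sqrt 3 / 2⟩ : ℂ) * β).im = effE b Ω κ μ (s + β.re) (s - β.re) β.im) :
    ∃ k m : ℝ, 0 ≤ k ∧ 0 ≤ m ∧ ∀ e₁₁ e₂₂ e₁₂ : ℝ,
      effE b Ω κ μ e₁₁ e₂₂ e₁₂ = ENNReal.ofReal (k * (e₁₁ + e₂₂) ^ 2 + m * ((e₁₁ - e₂₂) ^ 2 + 4 * e₁₂ ^ 2)) := by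
  have hpar := effE_par b Ω κ μ hμ hadd hsmul
  have hsm := effE_smul b Ω κ μ hsmul
  have hF : ∀ (s : ℝ) (β : ℂ), effE b Ω κ μ (s + β.re) (s - β.re) β.im ≠ ⊤ := by
    intro s β
    have h1 := hpar s s 0 β.re (-β.re) β.im
    have h2 : effE b Ω κ μ s s 0 ≠ ⊤ := by
      have h3 := hsm s 1 1 0
      rw [mul_one, mul_zero] at h3
      rw [h3]
      exact ENNReal.mul_ne_top ENNReal.ofReal_ne_top hfin
    have h4 : 2 * effE b Ω κ μ s s 0 + 2 * effE b Ω κ μ β.re (-β.re) β.im ≠ ⊤ :=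
      ENNReal.add_ne_top.2 ⟨ENNReal.mul_ne_top ENNReal.ofNat_ne_top h2,
        ENNReal.mul_ne_top ENNReal.ofNat_ne_top (effE_tracefree b Ω κ μ _ _)⟩
    have h5 := ne_top_of_le_ne_top h4 (le_self_add.trans h1)
    rw [zero_add, ← sub_eq_add_neg] at h5
    exact h5
  set f : ℝ → ℂ → ℝ := fun s β => (effE b Ω κ μ (s + β.re) (s - β.re) β.im).toReal with hf
  have hhom : ∀ (t s : ℝ) (β : ℂ), f (t * s) (t * β) = t ^ 2 * f s β := by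
    intro t s β
    have h1 := hsm t (s + β.re) (s - β.re) β.im
    simp only [hf]
    rw [Complex.re_ofReal_mul, Complex.im_ofReal_mul, ← mul_add, ← mul_sub, h1,
      ENNReal.toReal_mul, ENNReal.toReal_ofReal (sq_nonneg t)]
  have hle : ∀ (s s' : ℝ) (β β' : ℂ),
      f (s + s') (β + β') + f (s - s') (β - β') ≤ 2 * f s β + 2 * f s' β' := by
    intro s s' β β'
    have h1 := hpar (s + β.re) (s - β.re) β.im (s' + β'.re) (s' - β'.re) β'.im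
    have h2 := hF (s + s') (β + β')
    have h3 := hF (s - s') (β - β')
    have e1 : s + β.re + (s' + β'.re) = s + s' + (β + β').re := by rw [Complex.add_re]; ring
    have e2 : s - β.re + (s' - β'.re) = s + s' - (β + β').re := by rw [Complex.add_re]; ring
    have e3 : s + β.re - (s' + β'.re) = s - s' + (β - β').re := by rw [Complex.sub_re]; ring
    have e4 : s - β.re - (s' - β'.re) = s - s' - (β - β').re := by rw [Complex.sub_re]; ring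
    rw [e1, e2, e3, e4, ← Complex.add_im, ← Complex.sub_im] at h1
    have h4 : 2 * effE b Ω κ μ (s + β.re) (s - β.re) β.im +
        2 * effE b Ω κ μ (s' + β'.re) (s' - β'.re) β'.im ≠ ⊤ :=
      ENNReal.add_ne_top.2 ⟨ENNReal.mul_ne_top ENNReal.ofNat_ne_top (hF s β),
        ENNReal.mul_ne_top ENNReal.ofNat_ne_top (hF s' β')⟩
    have h5 := ENNReal.toReal_mono h4 h1
    rw [ENNReal.toReal_add h2 h3, ENNReal.toReal_add
      (ENNReal.mul_ne_top ENNReal.ofNat_ne_top (hF s β))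
      (ENNReal.mul_ne_top ENNReal.ofNat_ne_top (hF s' β')), ENNReal.toReal_mul,
      ENNReal.toReal_mul, ENNReal.toReal_ofNat] at h5
    exact h5
  obtain ⟨A, B, hA, hB, hAB⟩ := halg f (fun s β => ENNReal.toReal_nonneg) hhom (by
    intro s s' β β'
    refine le_antisymm (hle s s' β β') ?_
    have h1 := hle (s + s') (s - s') (β + β') (β - β')
    have e1 : s + s' + (s - s') = 2 * s := by ring
    have e2 : s + s' - (s - s') = 2 * s' := by ring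
    have e3 : β + β' + (β - β') = ((2 : ℝ) : ℂ) * β := by push_cast; ring
    have e4 : β + β' - (β - β') = ((2 : ℝ) : ℂ) * β' := by push_cast; ring
    rw [e1, e2, e3, e4, hhom, hhom] at h1
    linarith) (by
    intro s β
    simp only [hf]
    rw [hrot])
  refine ⟨A / 4, B / 4, by positivity, by positivity, ?_⟩
  intro e₁₁ e₂₂ e₁₂
  have h1 := hAB ((e₁₁ + e₂₂) / 2) ⟨(e₁₁ - e₂₂) / 2, e₁₂⟩
  have h2 := hF ((e₁₁ + e₂₂) / 2) ⟨(e₁₁ - e₂₂) / 2, e₁₂⟩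
  simp only [hf] at h1
  have e1 : (e₁₁ + e₂₂) / 2 + (e₁₁ - e₂₂) / 2 = e₁₁ := by ring
  have e2 : (e₁₁ + e₂₂) / 2 - (e₁₁ - e₂₂) / 2 = e₂₂ := by ring
  rw [e1, e2] at h1 h2
  rw [← ENNReal.ofReal_toReal h2, h1]
  congr 1
  rw [← Complex.normSq_eq_norm_sq, Complex.normSq_mk]
  ring


end JG4
export JG4 (effE_smul effE_par effE_isotropic)

end Porous
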