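import Pool.Agent.Porous.Base

open MeasureTheory Complex Set
open scoped ContDiff ENNReal
noncomputable section
namespace Porous
namespace JG5

theorem per_span {α : Type*} {b : Module.Basis (Fin 2) ℝ ℂ} {f : ℂ → α} (hf : Per b f) :
    ∀ g ∈ Submodule.span ℤ (Set.range b), ∀ x, f (g + x) = f x := by
  let H : AddSubgroup ℂ :=
    { carrier := {g | ∀ x, f (g + x) = f x}
      zero_mem' := fun x => by rw [zero_add]
      add_mem' := fun {g h} hg hh x => by rw [add_assoc, hg, hh]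
      neg_mem' := fun {g} hg x => by rw [← hg (-g + x), add_neg_cancel_left] }
  have hle : Submodule.span ℤ (Set.range b) ≤ AddSubgroup.toIntSubmodule H := by
    rw [Submodule.span_le]
    rintro _ ⟨i, rfl⟩
    intro x
    show f (b i + x) = f x
    rw [add_comm]
    exact hf i x
  intro g hg
  exact hle hg

instance instVAI (b : Module.Basis (Fin 2) ℝ ℂ) :
    VAddInvariantMeasure (Submodule.span ℤ (Set.range b)) ℂ (volume : Measure ℂ) :=
  ⟨fun c s _ => measure_preimage_add volume (c : ℂ) s⟩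

/-- the rigid motion -/
def mot (ρ v : ℂ) (x : ℂ) : ℂ := ρ * x + v

theorem mot_mp (ρ v : ℂ) (hρ : ‖ρ‖ = 1) : MeasurePreserving (mot ρ v) volume volume := by
  have h1 : MeasurePreserving (rotation (⟨ρ, by simpa [Submonoid.unitSphere] using hρ⟩ : Circle))
      volume volume := LinearIsometryEquiv.measurePreserving _
  have h2 := (measurePreserving_add_right (volume : Measure ℂ) v).comp h1
  exact h2

theorem mot_emb (ρ v : ℂ) (hρ : ‖ρ‖ = 1) : MeasurableEmbedding (mot ρ v) := by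
  have hρ0 : ρ ≠ 0 := by
    intro h; rw [h, norm_zero] at hρ; exact zero_ne_one hρ
  have hc : Continuous (mot ρ v) := by unfold mot; fun_prop
  have hinj : Function.Injective (mot ρ v) := by
    intro x y hxy
    unfold mot at hxy
    exact mul_left_cancel₀ hρ0 (add_right_cancel hxy)
  exact hc.measurableEmbedding hinj

theorem mot_fd (b : Module.Basis (Fin 2) ℝ ℂ) (ρ v : ℂ) (hρ : ‖ρ‖ = 1)
    (hlat : ∀ x : ℂ, x ∈ Submodule.span ℤ (Set.range b) ↔ ρ * x ∈ Submodule.span ℤ (Set.range b)) :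
    ∃ t : Set ℂ, mot ρ v ⁻¹' t = cell b ∧
      IsAddFundamentalDomain (Submodule.span ℤ (Set.range b)) t (volume : Measure ℂ) := by
  have hρ0 : ρ ≠ 0 := by
    intro h; rw [h, norm_zero] at hρ; exact zero_ne_one hρ
  have hρi : ‖ρ⁻¹‖ = 1 := by rw [norm_inv, hρ, inv_one]
  refine ⟨mot ρ⁻¹ (-(ρ⁻¹ * v)) ⁻¹' cell b, ?_, ?_⟩
  · ext x
    simp only [mem_preimage, mot]
    have : ρ⁻¹ * (ρ * x + v) + -(ρ⁻¹ * v) = x := by field_simp; ring
    rw [this]
  · have h0 := ZSpan.isAddFundamentalDomain b (volume : Measure ℂ)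
    refine h0.preimage_of_equiv (f := mot ρ⁻¹ (-(ρ⁻¹ * v)))
      (mot_mp _ _ hρi).quasiMeasurePreserving
      (e := fun g => ⟨ρ * g, (hlat g).1 g.2⟩) ⟨?_, ?_⟩ ?_
    · intro g h hgh
      have := congrArg Subtype.val hgh
      exact Subtype.ext (mul_left_cancel₀ hρ0 this)
    · rintro ⟨g, hg⟩
      have h1 : ρ * (ρ⁻¹ * g) = g := by field_simp
      refine ⟨⟨ρ⁻¹ * g, (hlat _).2 (by rw [h1]; exact hg)⟩, Subtype.ext h1⟩
    · intro g x
      show mot ρ⁻¹ (-(ρ⁻¹ * v)) ((ρ * (g : ℂ)) + x) = (g : ℂ) + mot ρ⁻¹ (-(ρ⁻¹ * v)) x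
      unfold mot
      field_simp
      ring

/-- invariance of integrals over the cell of periodic functions under a rigid motion preserving the lattice -/
theorem integral_cell_rot {E : Type*} [NormedAddCommGroup E] [NormedSpace ℝ E]
    (b : Module.Basis (Fin 2) ℝ ℂ) (ρ v : ℂ) (hρ : ‖ρ‖ = 1)
    (hlat : ∀ x : ℂ, x ∈ Submodule.span ℤ (Set.range b) ↔ ρ * x ∈ Submodule.span ℤ (Set.range b))
    (f : ℂ → E) (hf : Per b f) :
    ∫ x in cell b, f (ρ * x + v) = ∫ x in cell b, f x := by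
  obtain ⟨t, ht, hfd⟩ := mot_fd b ρ v hρ hlat
  have h1 := (mot_mp ρ v hρ).setIntegral_preimage_emb (mot_emb ρ v hρ) f t
  rw [ht] at h1
  refine h1.trans ?_
  exact hfd.setIntegral_eq (ZSpan.isAddFundamentalDomain b (volume : Measure ℂ))
    (fun g x => per_span hf g g.2 x)

theorem lintegral_cell_rot
    (b : Module.Basis (Fin 2) ℝ ℂ) (ρ v : ℂ) (hρ : ‖ρ‖ = 1)
    (hlat : ∀ x : ℂ, x ∈ Submodule.span ℤ (Set.range b) ↔ ρ * x ∈ Submodule.span ℤ (Set.range b))
    (f : ℂ → ℝ≥0∞) (hf : Per b f) :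
    ∫⁻ x in cell b, f (ρ * x + v) = ∫⁻ x in cell b, f x := by
  obtain ⟨t, ht, hfd⟩ := mot_fd b ρ v hρ hlat
  have h1 := (mot_mp ρ v hρ).setLIntegral_comp_preimage_emb (mot_emb ρ v hρ) f t
  rw [ht] at h1
  refine h1.trans ?_
  exact hfd.setLIntegral_eq (ZSpan.isAddFundamentalDomain b (volume : Measure ℂ)) f
    (fun g x => per_span hf g g.2 x)

/-- a locally square integrable periodic function stays so -/
theorem memLp_cell_rot
    (b : Module.Basis (Fin 2) ℝ ℂ) (ρ v : ℂ) (hρ : ‖ρ‖ = 1)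
    (hlat : ∀ x : ℂ, x ∈ Submodule.span ℤ (Set.range b) ↔ ρ * x ∈ Submodule.span ℤ (Set.range b))
    (f : ℂ → ℂ) (hf : Per b f) (hL : MemLp f 2 (volume.restrict (cell b))) :
    MemLp (fun x => f (ρ * x + v)) 2 (volume.restrict (cell b)) := by
  obtain ⟨t, ht, hfd⟩ := mot_fd b ρ v hρ hlat
  have h0 := ZSpan.isAddFundamentalDomain b (volume : Measure ℂ)
  have hmp := (mot_mp ρ v hρ).restrict_preimage_emb (mot_emb ρ v hρ) t
  rw [ht] at hmp
  have hLt : MemLp f 2 (volume.restrict t) := by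
    refine ⟨(h0.aestronglyMeasurable_on_iff hfd (fun g x => per_span hf g g.2 x)).1 hL.1, ?_⟩
    have h2 := hL.2
    rw [eLpNorm_lt_top_iff_lintegral_rpow_enorm_lt_top (by norm_num) (by norm_num)] at h2 ⊢
    rwa [hfd.setLIntegral_eq h0 (fun x => ‖f x‖ₑ ^ (2 : ℝ≥0∞).toReal)
      (fun g x => by
        have : f (g +ᵥ x) = f x := per_span hf g g.2 x
        rw [this])]
  exact hLt.comp_measurePreserving hmp


end JG5
export JG5 (integral_cell_rot lintegral_cell_rot memLp_cell_rot)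

end Porous
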