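import Pool.Agent.Porous.Base

open MeasureTheory Complex Set
open scoped ContDiff ENNReal
noncomputable section
namespace Porous


theorem Per.add_mem {α : Type*} {b : Module.Basis (Fin 2) ℝ ℂ} {f : ℂ → α} (hf : Per b f) {w : ℂ}
    (hw : w ∈ Submodule.span ℤ (Set.range b)) : ∀ x, f (x + w) = f x := by
  induction hw using Submodule.span_induction with
  | mem x h => obtain ⟨i, rfl⟩ := h; exact fun x => hf i x
  | zero => intro x; simp
  | add a c _ _ iha ihc => intro x; rw [← add_assoc, ihc, iha]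
  | smul n a _ iha =>
    intro x
    induction n using Int.induction_on generalizing x with
    | zero => simp
    | succ k ih => rw [add_smul, one_smul, ← add_assoc, iha, ih]
    | pred k ih =>
      have h1 := iha (x + (-(k:ℤ) - 1) • a)
      rw [← h1, ← ih x]
      congr 1
      rw [sub_smul, one_smul]; ring

theorem Per.comp_rot {α : Type*} {b : Module.Basis (Fin 2) ℝ ℂ} {f : ℂ → α} (hf : Per b f) {ρ v : ℂ}
    (hlat : ∀ x : ℂ, x ∈ Submodule.span ℤ (Set.range b) → ρ * x ∈ Submodule.span ℤ (Set.range b)) :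
    Per b (fun x => f (ρ * x + v)) := by
  intro i x
  have h : ρ * (x + b i) + v = (ρ * x + v) + ρ * b i := by ring
  show f (ρ * (x + b i) + v) = f (ρ * x + v)
  rw [h]
  exact hf.add_mem (hlat _ (Submodule.subset_span ⟨i, rfl⟩)) _

theorem Per.fderiv {b : Module.Basis (Fin 2) ℝ ℂ} {f : ℂ → ℝ} (hf : Per b f) (h : ℂ) :
    Per b (fun x => _root_.fderiv ℝ f x h) := by
  intro i x
  have h1 : (fun y => f (y + b i)) = f := funext (hf i)
  have h2 := fderiv_comp_add_right (𝕜 := ℝ) (f := f) (x := x) (b i)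
  rw [h1] at h2
  show _root_.fderiv ℝ f (x + b i) h = _
  rw [← h2]

theorem integrable_smul_cell {b : Module.Basis (Fin 2) ℝ ℂ} {φ : ℂ → ℝ} (hφ : Continuous φ) {G : ℂ → ℂ}
    (hG : MemLp G 2 (volume.restrict (cell b))) : Integrable (fun x => φ x • G x) (volume.restrict (cell b)) := by
  have hb : Bornology.IsBounded (cell b) := ZSpan.fundamentalDomain_isBounded b
  have hmeas : MeasurableSet (cell b) := ZSpan.fundamentalDomain_measurableSet b
  have hfin : volume (cell b) < ⊤ := hb.measure_lt_top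
  have : IsFiniteMeasure (volume.restrict (cell b)) := ⟨by simpa using hfin⟩
  have hGi : Integrable G (volume.restrict (cell b)) := hG.integrable (by norm_num)
  have hc : IsCompact (closure (cell b)) := hb.isCompact_closure
  obtain ⟨C, hC⟩ := hc.exists_bound_of_continuousOn hφ.continuousOn
  refine hGi.bdd_smul C hφ.aestronglyMeasurable ?_
  filter_upwards [ae_restrict_mem hmeas] with x hx
  exact hC x (subset_closure hx)

theorem weak_dir {b : Module.Basis (Fin 2) ℝ ℂ} {u G₁ G₂ : ℂ → ℂ} (H : IsH1Per b u G₁ G₂) {ψ : ℂ → ℝ}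
    (hψ : ContDiff ℝ ∞ ψ) (hp : Per b ψ) (k : ℂ) (c₁ c₂ : ℝ) :
    ∫ x in cell b, ψ x • (k * (c₁ * G₁ x + c₂ * G₂ x)) =
      - ∫ x in cell b, (fderiv ℝ ψ x ((c₁ : ℂ) + c₂ * I)) • (k * u x) := by
  have hψc : Continuous ψ := hψ.continuous
  have hfc : ∀ h : ℂ, Continuous (fun x => fderiv ℝ ψ x h) := fun h =>
    (hψ.continuous_fderiv (by simp)).clm_apply continuous_const
  have i1 := integrable_smul_cell hψc H.mem_1
  have i2 := integrable_smul_cell hψc H.mem_2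
  have j1 := integrable_smul_cell (hfc 1) H.mem_u
  have j2 := integrable_smul_cell (hfc I) H.mem_u
  have e1 : ∫ x in cell b, ψ x • (k * (c₁ * G₁ x + c₂ * G₂ x)) =
      k * (c₁ * (∫ x in cell b, ψ x • G₁ x) + c₂ * (∫ x in cell b, ψ x • G₂ x)) := by
    rw [← integral_const_mul, ← integral_const_mul, ← integral_add (i1.const_mul _) (i2.const_mul _),
      ← integral_const_mul]
    refine integral_congr_ae (Filter.Eventually.of_forall fun x => ?_)
    simp only [Complex.real_smul]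
    ring
  have e2 : ∫ x in cell b, (fderiv ℝ ψ x ((c₁ : ℂ) + c₂ * I)) • (k * u x) =
      k * (c₁ * (∫ x in cell b, (fderiv ℝ ψ x 1) • u x) + c₂ * (∫ x in cell b, (fderiv ℝ ψ x I) • u x)) := by
    rw [← integral_const_mul, ← integral_const_mul, ← integral_add (j1.const_mul _) (j2.const_mul _),
      ← integral_const_mul]
    refine integral_congr_ae (Filter.Eventually.of_forall fun x => ?_)
    have h1 : (c₁ : ℂ) + c₂ * I = c₁ • (1 : ℂ) + c₂ • I := by simp [Complex.real_smul]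
    have h2 : (fderiv ℝ ψ x) ((c₁ : ℂ) + c₂ * I) = c₁ * fderiv ℝ ψ x 1 + c₂ * fderiv ℝ ψ x I := by
      rw [h1, map_add, map_smul, map_smul]; rfl
    simp only [h2, Complex.real_smul]
    push_cast
    ring
  rw [e1, e2, H.weak_1 ψ hψ hp, H.weak_2 ψ hψ hp]
  ring

theorem weak_rot {b : Module.Basis (Fin 2) ℝ ℂ} {u G₁ G₂ : ℂ → ℂ} (H : IsH1Per b u G₁ G₂) {ρ v : ℂ} (hρ : ‖ρ‖ = 1)
    (hlat : ∀ x : ℂ, x ∈ Submodule.span ℤ (Set.range b) ↔ ρ * x ∈ Submodule.span ℤ (Set.range b))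
    (hI : ∀ f : ℂ → ℂ, Per b f → ∫ x in cell b, f (ρ * x + v) = ∫ x in cell b, f x)
    {ψ : ℂ → ℝ} (hψ : ContDiff ℝ ∞ ψ) (hp : Per b ψ) (k : ℂ) (c₁ c₂ : ℝ) (h : ℂ) (hh : ρ * h = c₁ + c₂ * I) :
    ∫ x in cell b, ψ x • (k * (c₁ * G₁ (ρ * x + v) + c₂ * G₂ (ρ * x + v))) =
      - ∫ x in cell b, (fderiv ℝ ψ x h) • (k * u (ρ * x + v)) := by
  have hρρ : starRingEnd ℂ ρ * ρ = 1 := by
    rw [mul_comm, Complex.mul_conj, Complex.normSq_eq_norm_sq, hρ]; norm_num
  have hρρ' : ρ * starRingEnd ℂ ρ = 1 := by rw [mul_comm]; exact hρρ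
  set ψ' : ℂ → ℝ := fun y => ψ (starRingEnd ℂ ρ * y + (-(starRingEnd ℂ ρ * v))) with hψ'
  have hlat' : ∀ x : ℂ, x ∈ Submodule.span ℤ (Set.range b) → starRingEnd ℂ ρ * x ∈ Submodule.span ℤ (Set.range b) := by
    intro x hx
    rw [hlat, ← mul_assoc, hρρ', one_mul]
    exact hx
  have hp' : Per b ψ' := hp.comp_rot hlat'
  have hψs : ContDiff ℝ ∞ ψ' := by
    refine hψ.comp ?_
    exact (contDiff_const.mul contDiff_id).add contDiff_const
  have hback : ∀ x, ψ' (ρ * x + v) = ψ x := by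
    intro x
    simp only [hψ']
    congr 1
    linear_combination x * hρρ
  have hfd : ∀ x, fderiv ℝ ψ x h = fderiv ℝ ψ' (ρ * x + v) (c₁ + c₂ * I) := by
    intro x
    have h1 : ψ = fun x => ψ' (ρ * x + v) := funext fun x => (hback x).symm
    have hd : DifferentiableAt ℝ ψ' (ρ * x + v) := hψs.differentiable (by simp) _
    have hA : HasFDerivAt (fun x : ℂ => ρ * x + v) (ρ • (ContinuousLinearMap.id ℝ ℂ)) x :=
      ((hasFDerivAt_id x).const_mul ρ).add_const v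
    have h2 := (hd.hasFDerivAt.comp x hA).fderiv
    have h3 : (ψ' ∘ fun x : ℂ => ρ * x + v) = ψ := by
      rw [h1]
      rfl
    rw [h3] at h2
    rw [h2, ← hh]
    simp
  have hg : Per b (fun y => ψ' y • (k * (c₁ * G₁ y + c₂ * G₂ y))) := by
    intro i x
    simp only [hp' i x, H.per_1 i x, H.per_2 i x]
  have hg2 : Per b (fun y => (fderiv ℝ ψ' y (c₁ + c₂ * I)) • (k * u y)) := by
    intro i x
    simp only [hp'.fderiv _ i x, H.per_u i x]
  have e1 := hI _ hg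
  have e2 := hI _ hg2
  simp only [hback] at e1
  simp only [← hfd] at e2
  rw [e1, e2]
  exact weak_dir H hψs hp' k c₁ c₂


/-- invariance of the effective energy under a rigid motion `x ↦ ρ x + v` preserving the lattice and the composite -/
theorem effE_rot_le (b : Module.Basis (Fin 2) ℝ ℂ) (Ω : Set ℂ) (κ : ℝ≥0∞) (μ : ℝ) (ρ v : ℂ) (hρ : ‖ρ‖ = 1)
    (hlat : ∀ x : ℂ, x ∈ Submodule.span ℤ (Set.range b) ↔ ρ * x ∈ Submodule.span ℤ (Set.range b))
    (hΩ : ∀ x, x ∈ Ω ↔ ρ * x + v ∈ Ω) (hΩm : MeasurableSet Ω) (hΩp : ∀ (i : Fin 2) (x : ℂ), x + b i ∈ Ω ↔ x ∈ Ω)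
    (hI : ∀ f : ℂ → ℂ, Per b f → ∫ x in cell b, f (ρ * x + v) = ∫ x in cell b, f x)
    (hL : ∀ f : ℂ → ℝ≥0∞, Per b f → ∫⁻ x in cell b, f (ρ * x + v) = ∫⁻ x in cell b, f x)
    (hM : ∀ f : ℂ → ℂ, Per b f → MemLp f 2 (volume.restrict (cell b)) →
      MemLp (fun x => f (ρ * x + v)) 2 (volume.restrict (cell b)))
    (s : ℝ) (β : ℂ) :
    effE b Ω κ μ (s + ((starRingEnd ℂ ρ) ^ 2 * β).re) (s - ((starRingEnd ℂ ρ) ^ 2 * β).re) ((starRingEnd ℂ ρ) ^ 2 * β).im
      ≤ effE b Ω κ μ (s + β.re) (s - β.re) β.im := by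
  have hρρ : starRingEnd ℂ ρ * ρ = 1 := by
    rw [mul_comm, Complex.mul_conj, Complex.normSq_eq_norm_sq, hρ]; norm_num
  have hsq : ρ.re ^ 2 + ρ.im ^ 2 = 1 := by
    have := Complex.normSq_eq_norm_sq ρ
    rw [hρ, Complex.normSq_apply] at this
    nlinarith
  unfold effE
  refine le_iInf fun u => le_iInf fun G₁ => le_iInf fun G₂ => le_iInf fun H => ?_
  have hper : ∀ {f : ℂ → ℂ}, Per b f → Per b (fun x => f (ρ * x + v)) := fun hf =>
    hf.comp_rot (fun x hx => (hlat x).1 hx)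
  have H' : IsH1Per b (fun x => starRingEnd ℂ ρ * u (ρ * x + v))
      (fun x => starRingEnd ℂ ρ * ((ρ.re : ℂ) * G₁ (ρ * x + v) + (ρ.im : ℂ) * G₂ (ρ * x + v)))
      (fun x => starRingEnd ℂ ρ * (((-ρ.im : ℝ) : ℂ) * G₁ (ρ * x + v) + (ρ.re : ℂ) * G₂ (ρ * x + v))) := by
    refine ⟨?_, ?_, ?_, ?_, ?_, ?_, ?_, ?_⟩
    · intro i x
      simp only [hper H.per_u i x]
    · intro i x
      show _ * (_ * G₁ (ρ * (x + b i) + v) + _ * G₂ (ρ * (x + b i) + v)) = _
      rw [show G₁ (ρ * (x + b i) + v) = G₁ (ρ * x + v) from hper H.per_1 i x,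
        show G₂ (ρ * (x + b i) + v) = G₂ (ρ * x + v) from hper H.per_2 i x]
    · intro i x
      show _ * (_ * G₁ (ρ * (x + b i) + v) + _ * G₂ (ρ * (x + b i) + v)) = _
      rw [show G₁ (ρ * (x + b i) + v) = G₁ (ρ * x + v) from hper H.per_1 i x,
        show G₂ (ρ * (x + b i) + v) = G₂ (ρ * x + v) from hper H.per_2 i x]
    · exact (hM u H.per_u H.mem_u).const_mul _
    · exact (((hM _ H.per_1 H.mem_1).const_mul _).add ((hM _ H.per_2 H.mem_2).const_mul _)).const_mul _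
    · exact (((hM _ H.per_1 H.mem_1).const_mul _).add ((hM _ H.per_2 H.mem_2).const_mul _)).const_mul _
    · intro ψ hψ hp
      exact weak_rot H hρ hlat hI hψ hp _ ρ.re ρ.im 1 (by rw [mul_one]; exact (Complex.re_add_im ρ).symm)
    · intro ψ hψ hp
      refine weak_rot H hρ hlat hI hψ hp _ (-ρ.im) ρ.re I ?_
      apply Complex.ext <;> simp
  refine iInf_le_of_le _ (iInf_le_of_le _ (iInf_le_of_le _ (iInf_le_of_le H' ?_)))
  refine ENNReal.div_le_div_right (le_of_eq ?_) _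
  set F : ℂ → ℝ≥0∞ := fun x => W κ μ (s + β.re + (G₁ x).re) (s - β.re + (G₂ x).im)
    (β.im + ((G₁ x).im + (G₂ x).re) / 2) with hF
  have hFper : Per b F := by
    intro i x
    simp only [hF, H.per_1 i x, H.per_2 i x]
  have key : ∀ x, W κ μ
      (s + ((starRingEnd ℂ ρ) ^ 2 * β).re + (starRingEnd ℂ ρ * ((ρ.re : ℂ) * G₁ (ρ * x + v) + (ρ.im : ℂ) * G₂ (ρ * x + v))).re)
      (s - ((starRingEnd ℂ ρ) ^ 2 * β).re + (starRingEnd ℂ ρ * (((-ρ.im : ℝ) : ℂ) * G₁ (ρ * x + v) + (ρ.re : ℂ) * G₂ (ρ * x + v))).im)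
      (((starRingEnd ℂ ρ) ^ 2 * β).im + ((starRingEnd ℂ ρ * ((ρ.re : ℂ) * G₁ (ρ * x + v) + (ρ.im : ℂ) * G₂ (ρ * x + v))).im
        + (starRingEnd ℂ ρ * (((-ρ.im : ℝ) : ℂ) * G₁ (ρ * x + v) + (ρ.re : ℂ) * G₂ (ρ * x + v))).re) / 2)
      = F (ρ * x + v) := by
    intro x
    simp only [hF, W]
    generalize G₁ (ρ * x + v) = g₁
    generalize G₂ (ρ * x + v) = g₂
    simp only [Complex.add_re, Complex.add_im, Complex.mul_re, Complex.mul_im, Complex.conj_re, Complex.conj_im,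
      Complex.ofReal_re, Complex.ofReal_im, pow_two]
    generalize g₁.re = a₁ at *
    generalize g₁.im = a₂ at *
    generalize g₂.re = b₁ at *
    generalize g₂.im = b₂ at *
    generalize β.re = p at *
    generalize β.im = q at *
    generalize ρ.re = r at *
    generalize ρ.im = t at *
    congr 3
    · have hs2 : t ^ 2 = 1 - r ^ 2 := by linarith
      have : s + ((r * r - -t * -t) * p - (r * -t + -t * r) * q) +
        (r * (r * a₁ - 0 * a₂ + (t * b₁ - 0 * b₂)) - -t * (r * a₂ + 0 * a₁ + (t * b₂ + 0 * b₁))) +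
        (s - ((r * r - -t * -t) * p - (r * -t + -t * r) * q) +
        (r * (-t * a₂ + 0 * a₁ + (r * b₂ + 0 * b₁)) + -t * (-t * a₁ - 0 * a₂ + (r * b₁ - 0 * b₂)))) =
        s + p + a₁ + (s - p + b₂) := by
        linear_combination (a₁ + b₂) * hsq
      rw [this]
    · linear_combination ((p * 2 + a₁ - b₂) ^ 2 + (2 * q + a₂ + b₁) ^ 2) * (r ^ 2 + t ^ 2 + 1) * hsq
  have e1 : ∀ F' : ℂ → ℝ≥0∞, ∫⁻ x in Ω ∩ cell b, F' x = ∫⁻ x in cell b, Ω.indicator F' x := by
    intro F'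
    rw [lintegral_indicator hΩm, Measure.restrict_restrict hΩm]
  rw [e1, e1]
  have hper2 : Per b (Ω.indicator F) := by
    intro i x
    by_cases hx : x ∈ Ω
    · rw [Set.indicator_of_mem hx, Set.indicator_of_mem ((hΩp i x).2 hx), hFper i x]
    · rw [Set.indicator_of_notMem hx, Set.indicator_of_notMem (fun h => hx ((hΩp i x).1 h))]
  rw [← hL _ hper2]
  refine lintegral_congr fun x => ?_
  by_cases hx : x ∈ Ω
  · rw [Set.indicator_of_mem hx, Set.indicator_of_mem ((hΩ x).1 hx)]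
    exact key x
  · rw [Set.indicator_of_notMem hx, Set.indicator_of_notMem (fun h => hx ((hΩ x).2 h))]



end Porous
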