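import Pool.Agent.Porous.Base

open MeasureTheory Complex Set
open scoped ContDiff ENNReal
noncomputable section
namespace Porous
namespace JG6


/-- upper bound of the effective energy by a smooth trial displacement whose total strain is trace free on the solid part -/
theorem effE_le (b : Module.Basis (Fin 2) ℝ ℂ) (Ω : Set ℂ) (hΩm : MeasurableSet Ω) (κ : ℝ≥0∞) (μ : ℝ) (hμ : 0 < μ)
    (u : ℂ → ℂ) (hu : ContDiff ℝ ∞ u) (hH : IsH1Per b u (fun x => fderiv ℝ u x 1) (fun x => fderiv ℝ u x I))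
    (e₁₁ e₂₂ e₁₂ : ℝ)
    (htr : ∀ x ∈ Ω, (e₁₁ + (fderiv ℝ u x 1).re) + (e₂₂ + (fderiv ℝ u x I).im) = 0) :
    effE b Ω κ μ e₁₁ e₂₂ e₁₂ ≤ ENNReal.ofReal
      ((∫ x in Ω ∩ cell b, μ * (((e₁₁ + (fderiv ℝ u x 1).re) - (e₂₂ + (fderiv ℝ u x I).im)) ^ 2
        + 4 * (e₁₂ + ((fderiv ℝ u x 1).im + (fderiv ℝ u x I).re) / 2) ^ 2)) / (volume (cell b)).toReal) := by
  have hfin : volume (cell b) ≠ ⊤ := (ZSpan.fundamentalDomain_isBounded b).measure_lt_top.ne
  have hpos : volume (cell b) ≠ 0 := ZSpan.measure_fundamentalDomain_ne_zero b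
  have hposR : 0 < (volume (cell b)).toReal := ENNReal.toReal_pos hpos hfin
  have hcm : MeasurableSet (cell b) := ZSpan.fundamentalDomain_measurableSet b
  have hd : Continuous (fderiv ℝ u) := hu.continuous_fderiv (by simp)
  have hd1 : Continuous (fun x => fderiv ℝ u x 1) := hd.clm_apply continuous_const
  have hdI : Continuous (fun x => fderiv ℝ u x I) := hd.clm_apply continuous_const
  have hfc : Continuous (fun x : ℂ => μ * (((e₁₁ + (fderiv ℝ u x 1).re) - (e₂₂ + (fderiv ℝ u x I).im)) ^ 2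
        + 4 * (e₁₂ + ((fderiv ℝ u x 1).im + (fderiv ℝ u x I).re) / 2) ^ 2)) := by
    have h1 : Continuous (fun x => (fderiv ℝ u x 1).re) := Complex.continuous_re.comp hd1
    have h2 : Continuous (fun x => (fderiv ℝ u x 1).im) := Complex.continuous_im.comp hd1
    have h3 : Continuous (fun x => (fderiv ℝ u x I).re) := Complex.continuous_re.comp hdI
    have h4 : Continuous (fun x => (fderiv ℝ u x I).im) := Complex.continuous_im.comp hdI
    fun_prop
  have hint : IntegrableOn (fun x : ℂ => μ * (((e₁₁ + (fderiv ℝ u x 1).re) - (e₂₂ + (fderiv ℝ u x I).im)) ^ 2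
        + 4 * (e₁₂ + ((fderiv ℝ u x 1).im + (fderiv ℝ u x I).re) / 2) ^ 2)) (Ω ∩ cell b) volume := by
    have hK : IsCompact (closure (cell b)) := (ZSpan.fundamentalDomain_isBounded b).isCompact_closure
    exact (hfc.continuousOn.integrableOn_compact hK).mono_set
      (Set.inter_subset_right.trans subset_closure)
  unfold effE
  refine (iInf_le _ u).trans ((iInf_le _ _).trans ((iInf_le _ _).trans ((iInf_le _ hH).trans ?_)))
  rw [ENNReal.ofReal_div_of_pos hposR, ENNReal.ofReal_toReal hfin]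
  refine ENNReal.div_le_div_right ?_ _
  rw [ofReal_integral_eq_lintegral_ofReal hint (Filter.Eventually.of_forall (fun x => by
    rw [Pi.zero_apply]; positivity))]
  refine setLIntegral_mono' (hΩm.inter hcm) ?_
  intro x hx
  unfold W
  have h0 := htr x hx.1
  rw [h0]
  simp

/-- trivial upper bound (`u = 0`) for trace free strains -/
theorem effE_le_dev (b : Module.Basis (Fin 2) ℝ ℂ) (Ω : Set ℂ) (κ : ℝ≥0∞) (μ : ℝ) (hμ : 0 < μ)
    (e₁₁ e₁₂ : ℝ) :
    effE b Ω κ μ e₁₁ (-e₁₁) e₁₂ ≤ ENNReal.ofReal (μ * ((e₁₁ + e₁₁) ^ 2 + 4 * e₁₂ ^ 2)) := by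
  have hfin : volume (cell b) ≠ ⊤ := (ZSpan.fundamentalDomain_isBounded b).measure_lt_top.ne
  have hpos : volume (cell b) ≠ 0 := ZSpan.measure_fundamentalDomain_ne_zero b
  have hH : IsH1Per b (fun _ => (0 : ℂ)) (fun _ => (0 : ℂ)) (fun _ => (0 : ℂ)) := by
    refine ⟨fun _ _ => rfl, fun _ _ => rfl, fun _ _ => rfl, ?_, ?_, ?_, ?_, ?_⟩
    · exact MemLp.zero'
    · exact MemLp.zero'
    · exact MemLp.zero'
    · intro ψ _ _
      simp
    · intro ψ _ _
      simp
  unfold effE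
  refine (iInf_le _ _).trans ((iInf_le _ _).trans ((iInf_le _ _).trans ((iInf_le _ hH).trans ?_)))
  refine ENNReal.div_le_of_le_mul ?_
  have hW : W κ μ (e₁₁ + (0 : ℂ).re) (-e₁₁ + (0 : ℂ).im)
      (e₁₂ + ((0 : ℂ).im + (0 : ℂ).re) / 2) =
      ENNReal.ofReal (μ * ((e₁₁ + e₁₁) ^ 2 + 4 * e₁₂ ^ 2)) := by
    unfold W
    simp
  rw [hW]
  rw [setLIntegral_const]
  exact mul_le_mul_right (measure_mono Set.inter_subset_right) _


end JG6
export JG6 (effE_le effE_le_dev)

end Porous
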