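import Pool.Agent.Porous.Base

open MeasureTheory Complex Set
open scoped ContDiff ENNReal
noncomputable section
namespace Porous
namespace JG7


/-- directional derivative -/
def G7D (h : ℂ) (f : ℂ → ℝ) : ℂ → ℝ := fun x => fderiv ℝ f x h

lemma G7_contDiff {f : ℂ → ℝ} (hf : ContDiff ℝ ∞ f) (h : ℂ) : ContDiff ℝ ∞ (G7D h f) :=
  (hf.fderiv_right (m := ∞) (by simp)).clm_apply contDiff_const

lemma G7_Per {b : Module.Basis (Fin 2) ℝ ℂ} {f : ℂ → ℝ} (hf : Per b f) (h : ℂ) :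
    Per b (G7D h f) := by
  intro i x
  unfold G7D
  have h1 : (fun y => f (y + b i)) = f := funext fun y => hf i y
  have h2 := fderiv_comp_add_right (𝕜 := ℝ) (f := f) (x := x) (b i)
  rw [h1] at h2
  rw [← h2]

lemma G7_DD {f : ℂ → ℝ} (hf : ContDiff ℝ ∞ f) (h k x : ℂ) :
    G7D k (G7D h f) x = fderiv ℝ (fderiv ℝ f) x k h := by
  unfold G7D
  have h1 : DifferentiableAt ℝ (fderiv ℝ f) x :=
    ((hf.fderiv_right (m := ∞) (by simp)).differentiable (by simp)) x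
  have h2 : HasFDerivAt (fun y => fderiv ℝ f y h)
      ((ContinuousLinearMap.apply ℝ ℝ h).comp (fderiv ℝ (fderiv ℝ f) x)) x :=
    (ContinuousLinearMap.apply ℝ ℝ h).hasFDerivAt.comp x h1.hasFDerivAt
  rw [h2.fderiv]
  rfl

lemma G7_two_le : (2 : WithTop ℕ∞) ≤ ((⊤ : ℕ∞) : WithTop ℕ∞) :=
  show (((2 : ℕ∞)) : WithTop ℕ∞) ≤ ((⊤ : ℕ∞) : WithTop ℕ∞) from WithTop.coe_le_coe.mpr le_top

lemma G7_comm {f : ℂ → ℝ} (hf : ContDiff ℝ ∞ f) (h k x : ℂ) :
    G7D k (G7D h f) x = G7D h (G7D k f) x := by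
  rw [G7_DD hf, G7_DD hf]
  have h0 : (2 : WithTop ℕ∞) ≤ ((⊤ : ℕ∞) : WithTop ℕ∞) := G7_two_le
  have h1 : IsSymmSndFDerivAt ℝ f x :=
    (hf.contDiffAt (x := x)).isSymmSndFDerivAt (by simpa using h0)
  exact h1.eq k h

lemma G7_bound {f : ℂ → ℝ} (hf : ContDiff ℝ ∞ f) (h k x : ℂ) (hh : ‖h‖ = 1) (hk : ‖k‖ = 1) :
    |G7D k (G7D h f) x| ≤ ‖iteratedFDeriv ℝ 2 f x‖ := by
  rw [G7_DD hf]
  have h1 := (iteratedFDeriv ℝ 2 f x).le_opNorm ![k, h]
  rw [iteratedFDeriv_two_apply] at h1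
  simpa [Fin.prod_univ_two, hh, hk] using h1

lemma G7_pointwise {κ : ℝ≥0∞} (hκ : κ ≠ 0) {μ : ℝ} (hμ : 0 < μ)
    (s11 s22 s12 p11 p22 p12 : ℝ) :
    ENNReal.ofReal (2 * (s11 * p11 + s22 * p22 + 2 * s12 * p12) -
      ((s11 - s22) ^ 2 + 4 * s12 ^ 2) / (4 * μ) - (s11 + s22) ^ 2 * (κ⁻¹).toReal / 4) ≤
      W κ μ p11 p22 p12 := by
  have hB : (s11 - s22) * (p11 - p22) + 4 * s12 * p12 - ((s11 - s22) ^ 2 + 4 * s12 ^ 2) / (4 * μ) ≤
      μ * ((p11 - p22) ^ 2 + 4 * p12 ^ 2) := by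
    have h1 : μ * ((p11 - p22) ^ 2 + 4 * p12 ^ 2) - ((s11 - s22) * (p11 - p22) + 4 * s12 * p12 -
        ((s11 - s22) ^ 2 + 4 * s12 ^ 2) / (4 * μ)) =
        ((2 * μ * (p11 - p22) - (s11 - s22)) ^ 2 + 4 * (2 * μ * p12 - s12) ^ 2) / (4 * μ) := by
      field_simp
      ring
    have h2 : 0 ≤ ((2 * μ * (p11 - p22) - (s11 - s22)) ^ 2 + 4 * (2 * μ * p12 - s12) ^ 2) /
        (4 * μ) := by positivity
    linarith
  have hA : ENNReal.ofReal ((s11 + s22) * (p11 + p22) - (s11 + s22) ^ 2 * (κ⁻¹).toReal / 4) ≤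
      κ * ENNReal.ofReal ((p11 + p22) ^ 2) := by
    by_cases htop : κ = ⊤
    · subst htop
      by_cases ht : p11 + p22 = 0
      · rw [ht]
        simp
      · have : ENNReal.ofReal ((p11 + p22) ^ 2) ≠ 0 := by
          simp only [ne_eq, ENNReal.ofReal_eq_zero, not_le]
          positivity
        rw [ENNReal.top_mul this]
        exact le_top
    · obtain ⟨k, hk, rfl⟩ : ∃ k : ℝ, 0 < k ∧ κ = ENNReal.ofReal k :=
        ⟨κ.toReal, ENNReal.toReal_pos hκ htop, (ENNReal.ofReal_toReal htop).symm⟩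
      rw [← ENNReal.ofReal_mul hk.le, ← ENNReal.ofReal_inv_of_pos hk,
        ENNReal.toReal_ofReal (by positivity)]
      apply ENNReal.ofReal_le_ofReal
      have h1 : k * (p11 + p22) ^ 2 - ((s11 + s22) * (p11 + p22) - (s11 + s22) ^ 2 * k⁻¹ / 4) =
          (2 * k * (p11 + p22) - (s11 + s22)) ^ 2 / (4 * k) := by
        field_simp
        ring
      have h2 : 0 ≤ (2 * k * (p11 + p22) - (s11 + s22)) ^ 2 / (4 * k) := by positivity
      linarith
  unfold W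
  calc ENNReal.ofReal (2 * (s11 * p11 + s22 * p22 + 2 * s12 * p12) -
      ((s11 - s22) ^ 2 + 4 * s12 ^ 2) / (4 * μ) - (s11 + s22) ^ 2 * (κ⁻¹).toReal / 4)
      = ENNReal.ofReal (((s11 + s22) * (p11 + p22) - (s11 + s22) ^ 2 * (κ⁻¹).toReal / 4) +
        ((s11 - s22) * (p11 - p22) + 4 * s12 * p12 -
          ((s11 - s22) ^ 2 + 4 * s12 ^ 2) / (4 * μ))) := by
        congr 1
        ring
    _ ≤ ENNReal.ofReal ((s11 + s22) * (p11 + p22) - (s11 + s22) ^ 2 * (κ⁻¹).toReal / 4) +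
        ENNReal.ofReal ((s11 - s22) * (p11 - p22) + 4 * s12 * p12 -
          ((s11 - s22) ^ 2 + 4 * s12 ^ 2) / (4 * μ)) := ENNReal.ofReal_add_le
    _ ≤ _ := add_le_add hA (ENNReal.ofReal_le_ofReal hB)

lemma G7_ofReal_int_le {α : Type*} [MeasurableSpace α] {ν : Measure α} {f : α → ℝ}
    (hf : Integrable f ν) : ENNReal.ofReal (∫ x, f x ∂ν) ≤ ∫⁻ x, ENNReal.ofReal (f x) ∂ν := by
  have h1 : ∫ x, f x ∂ν ≤ ∫ x, max (f x) 0 ∂ν :=
    integral_mono hf hf.pos_part fun x => le_max_left _ _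
  refine (ENNReal.ofReal_le_ofReal h1).trans ?_
  rw [ofReal_integral_eq_lintegral_ofReal hf.pos_part
    (Filter.Eventually.of_forall fun x => le_max_right _ _)]
  apply le_of_eq
  refine lintegral_congr fun x => ?_
  rcases le_total (f x) 0 with h | h
  · rw [max_eq_right h, ENNReal.ofReal_zero, ENNReal.ofReal_of_nonpos h]
  · rw [max_eq_left h]

/-- second derivatives of a quadratic function -/
lemma G7_quad (c g : ℂ) (α : ℝ) (h k x : ℂ) :
    G7D k (G7D h (fun y => α + (g * y).re - (c * y ^ 2).re)) x = - (2 * c * h * k).re := by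
  have h1 : ∀ y, G7D h (fun y => α + (g * y).re - (c * y ^ 2).re) y =
      (g * h).re - (2 * c * y * h).re := by
    intro y
    unfold G7D
    have e1 : HasFDerivAt (fun y : ℂ => g * y) (g • ContinuousLinearMap.id ℝ ℂ : ℂ →L[ℝ] ℂ) y := by
      have := (hasFDerivAt_id (𝕜 := ℝ) y).const_mul g
      simpa using this
    have e2 : HasFDerivAt (fun y : ℂ => c * y ^ 2)
        ((c * (2 * y)) • ContinuousLinearMap.id ℝ ℂ : ℂ →L[ℝ] ℂ) y := by
      have e3 : HasDerivAt (fun y : ℂ => c * y ^ 2) (c * (2 * y)) y := by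
        simpa using (hasDerivAt_pow 2 y).const_mul c
      refine (e3.hasFDerivAt.restrictScalars ℝ).congr_fderiv ?_
      refine ContinuousLinearMap.ext fun v => ?_
      simp [mul_comm]
    have e5 := ((hasFDerivAt_const (𝕜 := ℝ) α y).add (Complex.reCLM.hasFDerivAt.comp y e1)).sub
      (Complex.reCLM.hasFDerivAt.comp y e2)
    have e6 : HasFDerivAt (fun y : ℂ => α + (g * y).re - (c * y ^ 2).re)
      (0 + Complex.reCLM.comp (g • ContinuousLinearMap.id ℝ ℂ : ℂ →L[ℝ] ℂ) -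
        Complex.reCLM.comp ((c * (2 * y)) • ContinuousLinearMap.id ℝ ℂ : ℂ →L[ℝ] ℂ)) y := e5
    rw [e6.fderiv]
    simp only [zero_add, _root_.sub_apply, ContinuousLinearMap.comp_apply,
      _root_.smul_apply, ContinuousLinearMap.id_apply, smul_eq_mul, Complex.reCLM_apply]
    congr 2
    ring
  have h2 : G7D h (fun y => α + (g * y).re - (c * y ^ 2).re) =
      fun y => (g * h).re - ((2 * c * h) * y).re := by
    funext y
    rw [h1]
    congr 2
    ring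
  rw [h2]
  unfold G7D
  have e1 : HasFDerivAt (fun y : ℂ => (2 * c * h) * y)
      ((2 * c * h) • ContinuousLinearMap.id ℝ ℂ : ℂ →L[ℝ] ℂ) x := by
    have := (hasFDerivAt_id (𝕜 := ℝ) x).const_mul (2 * c * h)
    simpa using this
  have e5 := (hasFDerivAt_const (𝕜 := ℝ) (g * h).re x).sub (Complex.reCLM.hasFDerivAt.comp x e1)
  have e6 : HasFDerivAt (fun y : ℂ => (g * h).re - ((2 * c * h) * y).re)
      (0 - Complex.reCLM.comp ((2 * c * h) • ContinuousLinearMap.id ℝ ℂ : ℂ →L[ℝ] ℂ)) x := e5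
  rw [e6.fderiv]
  simp

lemma G7_eventually {d : ℂ → ℝ} {c g : ℂ} {α : ℝ} {x : ℂ}
    (h : ∀ᶠ y in nhds x, (c * y ^ 2).re + d y = α + (g * y).re) (v w : ℂ) :
    G7D w (G7D v d) x = - (2 * c * v * w).re := by
  have h1 : d =ᶠ[nhds x] (fun y => α + (g * y).re - (c * y ^ 2).re) := by
    filter_upwards [h] with y hy
    linarith
  have h2 : G7D v d =ᶠ[nhds x] G7D v (fun y => α + (g * y).re - (c * y ^ 2).re) := by
    filter_upwards [h1.fderiv (𝕜 := ℝ)] with y hy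
    unfold G7D
    rw [hy]
  rw [← G7_quad c g α v w x]
  unfold G7D at h2 ⊢
  rw [h2.fderiv_eq]

set_option maxHeartbeats 4000000 in
/-- dual lower bound of the effective energy by an Airy function `φ(x) = Re (c x²) + d(x)`, `d` smooth periodic, which is
locally affine outside `Ω`. -/
theorem effE_ge (b : Module.Basis (Fin 2) ℝ ℂ)
    (hder : ∀ f : ℂ → ℝ, ContDiff ℝ ∞ f → Per b f → ∀ h : ℂ, ∫ x in cell b, fderiv ℝ f x h = 0)
    (Ω : Set ℂ) (hΩm : MeasurableSet Ω) (κ : ℝ≥0∞) (hκ : κ ≠ 0) (μ : ℝ) (hμ : 0 < μ)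
    (c : ℂ) (d : ℂ → ℝ) (hd : ContDiff ℝ ∞ d) (hper : Per b d)
    (haff : ∀ x, x ∉ Ω → ∃ (α : ℝ) (g : ℂ), ∀ᶠ y in nhds x, (c * y ^ 2).re + d y = α + (g * y).re)
    (e₁₁ e₂₂ e₁₂ : ℝ) :
    ENNReal.ofReal (-4 * c.re * (e₁₁ - e₂₂) + 8 * c.im * e₁₂ - 4 * ‖c‖ ^ 2 / μ
        - (2 / μ + (κ⁻¹).toReal) * ((∫ x in cell b, ‖iteratedFDeriv ℝ 2 d x‖ ^ 2) / (volume (cell b)).toReal))
      ≤ effE b Ω κ μ e₁₁ e₂₂ e₁₂ := by
  unfold effE
  refine le_iInf fun u => le_iInf fun G₁ => le_iInf fun G₂ => le_iInf fun hu => ?_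
  -- the cell
  have hcb : Bornology.IsBounded (cell b) := ZSpan.fundamentalDomain_isBounded b
  have hcm : MeasurableSet (cell b) := ZSpan.fundamentalDomain_measurableSet b
  have hc0 : volume (cell b) ≠ 0 := ZSpan.measure_fundamentalDomain_ne_zero b
  have hct : volume (cell b) ≠ ⊤ := hcb.measure_lt_top.ne
  have hK : IsCompact (closure (cell b)) :=
    Metric.isCompact_of_isClosed_isBounded isClosed_closure hcb.closure
  set V : ℝ := (volume (cell b)).toReal with hV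
  have hVpos : 0 < V := ENNReal.toReal_pos hc0 hct
  have hvolV : volume (cell b) = ENNReal.ofReal V := (ENNReal.ofReal_toReal hct).symm
  have hfin : IsFiniteMeasure (volume.restrict (cell b)) := ⟨by
    rw [Measure.restrict_apply_univ]; exact hcb.measure_lt_top⟩
  have hci : ∀ f : ℂ → ℝ, Continuous f → IntegrableOn f (cell b) := fun f hf =>
    (hf.continuousOn.integrableOn_compact hK).mono_set subset_closure
  -- the second derivatives
  set a₁₁ : ℂ → ℝ := G7D I (G7D I d) with ha₁₁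
  set a₂₂ : ℂ → ℝ := G7D 1 (G7D 1 d) with ha₂₂
  set a₁₂ : ℂ → ℝ := G7D I (G7D 1 d) with ha₁₂
  have sm₁₁ : ContDiff ℝ ∞ a₁₁ := G7_contDiff (G7_contDiff hd _) _
  have sm₂₂ : ContDiff ℝ ∞ a₂₂ := G7_contDiff (G7_contDiff hd _) _
  have sm₁₂ : ContDiff ℝ ∞ a₁₂ := G7_contDiff (G7_contDiff hd _) _
  have ct₁₁ := sm₁₁.continuous
  have ct₂₂ := sm₂₂.continuous
  have ct₁₂ := sm₁₂.continuous
  have per₁₁ : Per b a₁₁ := G7_Per (G7_Per hper _) _
  have per₂₂ : Per b a₂₂ := G7_Per (G7_Per hper _) _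
  have per₁₂ : Per b a₁₂ := G7_Per (G7_Per hper _) _
  have int₁₁ : ∫ x in cell b, a₁₁ x = 0 := hder _ (G7_contDiff hd _) (G7_Per hper _) I
  have int₂₂ : ∫ x in cell b, a₂₂ x = 0 := hder _ (G7_contDiff hd _) (G7_Per hper _) 1
  have int₁₂ : ∫ x in cell b, a₁₂ x = 0 := hder _ (G7_contDiff hd _) (G7_Per hper _) I
  have bd₁₁ : ∀ x, |a₁₁ x| ≤ ‖iteratedFDeriv ℝ 2 d x‖ := fun x =>
    G7_bound hd _ _ x (by simp) (by simp)
  have bd₂₂ : ∀ x, |a₂₂ x| ≤ ‖iteratedFDeriv ℝ 2 d x‖ := fun x =>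
    G7_bound hd _ _ x (by simp) (by simp)
  have bd₁₂ : ∀ x, |a₁₂ x| ≤ ‖iteratedFDeriv ℝ 2 d x‖ := fun x =>
    G7_bound hd _ _ x (by simp) (by simp)
  -- the stress
  set σ₁₁ : ℂ → ℝ := fun x => -2 * c.re + a₁₁ x with hσ₁₁
  set σ₂₂ : ℂ → ℝ := fun x => 2 * c.re + a₂₂ x with hσ₂₂
  set σ₁₂ : ℂ → ℝ := fun x => 2 * c.im - a₁₂ x with hσ₁₂
  have ssm₁₁ : ContDiff ℝ ∞ σ₁₁ := contDiff_const.add sm₁₁
  have ssm₂₂ : ContDiff ℝ ∞ σ₂₂ := contDiff_const.add sm₂₂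
  have ssm₁₂ : ContDiff ℝ ∞ σ₁₂ := contDiff_const.sub sm₁₂
  have sper₁₁ : Per b σ₁₁ := fun i x => by simp only [hσ₁₁, per₁₁ i x]
  have sper₂₂ : Per b σ₂₂ := fun i x => by simp only [hσ₂₂, per₂₂ i x]
  have sper₁₂ : Per b σ₁₂ := fun i x => by simp only [hσ₁₂, per₁₂ i x]
  have D11 : ∀ h x, fderiv ℝ σ₁₁ x h = G7D h a₁₁ x := by
    intro h x
    rw [hσ₁₁, fderiv_const_add]
    rfl
  have D22 : ∀ h x, fderiv ℝ σ₂₂ x h = G7D h a₂₂ x := by
    intro h x
    rw [hσ₂₂, fderiv_const_add]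
    rfl
  have D12 : ∀ h x, fderiv ℝ σ₁₂ x h = - G7D h a₁₂ x := by
    intro h x
    rw [hσ₁₂, fderiv_const_sub]
    rfl
  -- equilibrium
  have eq1 : ∀ x, fderiv ℝ σ₁₂ x I = - fderiv ℝ σ₁₁ x 1 := by
    intro x
    rw [D12, D11, ha₁₁, ha₁₂]
    have h1 : G7D I (G7D 1 d) = G7D 1 (G7D I d) := funext fun y => G7_comm hd 1 I y
    rw [h1, G7_comm (G7_contDiff hd _)]
  have eq2 : ∀ x, fderiv ℝ σ₂₂ x I = - fderiv ℝ σ₁₂ x 1 := by
    intro x
    rw [D12, D22, ha₂₂, ha₁₂, neg_neg, G7_comm (G7_contDiff hd _)]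
  have w1 := hu.weak_1 σ₁₁ ssm₁₁ sper₁₁
  have w2 := hu.weak_1 σ₁₂ ssm₁₂ sper₁₂
  have w3 := hu.weak_2 σ₁₂ ssm₁₂ sper₁₂
  have w4 := hu.weak_2 σ₂₂ ssm₂₂ sper₂₂
  simp_rw [eq1] at w3
  simp_rw [eq2] at w4
  simp only [neg_smul, integral_neg, neg_neg] at w3 w4
  -- integrability
  have iG1 : Integrable G₁ (volume.restrict (cell b)) := hu.mem_1.integrable (by norm_num)
  have iG2 : Integrable G₂ (volume.restrict (cell b)) := hu.mem_2.integrable (by norm_num)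
  have hbdd : ∀ f : ℂ → ℝ, Continuous f → ∃ C : ℝ, ∀ᵐ x ∂(volume.restrict (cell b)), ‖f x‖ ≤ C := by
    intro f hf
    obtain ⟨C, hC⟩ := hK.exists_bound_of_continuousOn hf.continuousOn
    refine ⟨C, ?_⟩
    filter_upwards [ae_restrict_mem hcm] with x hx
    exact hC x (subset_closure hx)
  have imul : ∀ (f g : ℂ → ℝ), Continuous f → Integrable g (volume.restrict (cell b)) →
      Integrable (fun x => f x * g x) (volume.restrict (cell b)) := by
    intro f g hf hg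
    obtain ⟨C, hC⟩ := hbdd f hf
    exact hg.bdd_mul hf.aestronglyMeasurable hC
  have ismul : ∀ (f : ℂ → ℝ) (g : ℂ → ℂ), Continuous f → Integrable g (volume.restrict (cell b)) →
      Integrable (fun x => f x • g x) (volume.restrict (cell b)) := by
    intro f g hf hg
    obtain ⟨C, hC⟩ := hbdd f hf
    exact hg.bdd_smul C hf.aestronglyMeasurable hC
  have hre : ∀ (f : ℂ → ℝ) (g : ℂ → ℂ), Continuous f → Integrable g (volume.restrict (cell b)) →
      ∫ x in cell b, f x * (g x).re = (∫ x in cell b, f x • g x).re := by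
    intro f g hf hg
    have h1 := integral_re (ismul f g hf hg)
    have h2 : ∀ x, RCLike.re (f x • g x) = f x * (g x).re := by
      intro x; simp
    simp_rw [h2] at h1
    exact h1
  have him : ∀ (f : ℂ → ℝ) (g : ℂ → ℂ), Continuous f → Integrable g (volume.restrict (cell b)) →
      ∫ x in cell b, f x * (g x).im = (∫ x in cell b, f x • g x).im := by
    intro f g hf hg
    have h1 := integral_im (ismul f g hf hg)
    have h2 : ∀ x, RCLike.im (f x • g x) = f x * (g x).im := by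
      intro x; simp
    simp_rw [h2] at h1
    exact h1
  have r1 := hre σ₁₁ G₁ ssm₁₁.continuous iG1
  have r2 := him σ₁₂ G₁ ssm₁₂.continuous iG1
  have r3 := hre σ₁₂ G₂ ssm₁₂.continuous iG2
  have r4 := him σ₂₂ G₂ ssm₂₂.continuous iG2
  rw [w1] at r1
  rw [w2] at r2
  rw [w3] at r3
  rw [w4] at r4
  have j1 := imul σ₁₁ _ ssm₁₁.continuous iG1.re
  have j2 := imul σ₁₂ _ ssm₁₂.continuous iG1.im
  have j3 := imul σ₁₂ _ ssm₁₂.continuous iG2.re
  have j4 := imul σ₂₂ _ ssm₂₂.continuous iG2.im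
  set Bf : ℂ → ℝ := fun x => σ₁₁ x * (G₁ x).re + σ₁₂ x * (G₁ x).im + σ₁₂ x * (G₂ x).re +
    σ₂₂ x * (G₂ x).im with hBf
  have iBf : Integrable Bf (volume.restrict (cell b)) := ((j1.add j2).add j3).add j4
  have intB : ∫ x in cell b, Bf x = 0 := by
    have h1 : ∫ x in cell b, Bf x = ((∫ x in cell b, σ₁₁ x * (G₁ x).re) +
        (∫ x in cell b, σ₁₂ x * (G₁ x).im)) + (∫ x in cell b, σ₁₂ x * (G₂ x).re) +
        ∫ x in cell b, σ₂₂ x * (G₂ x).im := by
      have k1 := integral_add ((j1.add j2).add j3) j4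
      have k2 := integral_add (j1.add j2) j3
      have k3 := integral_add j1 j2
      simp only [Pi.add_apply] at k1 k2 k3
      rw [k2, k3] at k1
      exact k1
    rw [h1, r1, r2, r3, r4]
    simp only [Complex.neg_re, Complex.neg_im]
    ring
  -- the dual energy
  set kinv : ℝ := (κ⁻¹).toReal with hkinv
  have hkinv0 : 0 ≤ kinv := ENNReal.toReal_nonneg
  set A : ℂ → ℝ := fun x => 2 * (σ₁₁ x * e₁₁ + σ₂₂ x * e₂₂ + 2 * σ₁₂ x * e₁₂) -
    ((σ₁₁ x - σ₂₂ x) ^ 2 + 4 * σ₁₂ x ^ 2) / (4 * μ) - (σ₁₁ x + σ₂₂ x) ^ 2 * kinv / 4 with hA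
  have cA : Continuous A := by
    have c1 := ssm₁₁.continuous
    have c2 := ssm₂₂.continuous
    have c3 := ssm₁₂.continuous
    fun_prop
  have iA : IntegrableOn A (cell b) := hci A cA
  set n : ℂ → ℝ := fun x => ‖iteratedFDeriv ℝ 2 d x‖ with hn
  have cn : Continuous n := by
    have : Continuous (iteratedFDeriv ℝ 2 d) := hd.continuous_iteratedFDeriv G7_two_le
    exact this.norm
  set Lin : ℂ → ℝ := fun x => 2 * (a₁₁ x * e₁₁ + a₂₂ x * e₂₂ - 2 * a₁₂ x * e₁₂) -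
    (-8 * c.re * (a₁₁ x - a₂₂ x) - 16 * c.im * a₁₂ x) / (4 * μ) with hLin
  have intLin : ∫ x in cell b, Lin x = 0 := by
    have h1 : Lin = fun x => (2 * e₁₁ + 8 * c.re / (4 * μ)) * a₁₁ x +
        (2 * e₂₂ - 8 * c.re / (4 * μ)) * a₂₂ x + (16 * c.im / (4 * μ) - 4 * e₁₂) * a₁₂ x := by
      funext x
      rw [hLin]
      field_simp
      ring
    rw [h1]
    have i1 : IntegrableOn (fun x => (2 * e₁₁ + 8 * c.re / (4 * μ)) * a₁₁ x) (cell b) :=
      hci _ (by fun_prop)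
    have i2 : IntegrableOn (fun x => (2 * e₂₂ - 8 * c.re / (4 * μ)) * a₂₂ x) (cell b) :=
      hci _ (by fun_prop)
    have i3 : IntegrableOn (fun x => (16 * c.im / (4 * μ) - 4 * e₁₂) * a₁₂ x) (cell b) :=
      hci _ (by fun_prop)
    have k1 := integral_add (i1.add i2) i3
    have k2 := integral_add i1 i2
    simp only [Pi.add_apply] at k1 k2
    rw [k1, k2, integral_const_mul, integral_const_mul, integral_const_mul, int₁₁, int₂₂, int₁₂]
    ring
  set A0 : ℝ := -4 * c.re * (e₁₁ - e₂₂) + 8 * c.im * e₁₂ - 4 * ‖c‖ ^ 2 / μ with hA0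
  have hpt : ∀ x, A0 + Lin x - (2 / μ + kinv) * n x ^ 2 ≤ A x := by
    intro x
    have b1 := bd₁₁ x
    have b2 := bd₂₂ x
    have b3 := bd₁₂ x
    have hnx : ‖iteratedFDeriv ℝ 2 d x‖ = n x := rfl
    rw [hnx] at b1 b2 b3
    have hcn : ‖c‖ ^ 2 = c.re ^ 2 + c.im ^ 2 := by
      rw [← Complex.normSq_eq_norm_sq, Complex.normSq_apply]; ring
    have h1 : A x = A0 + Lin x - ((a₁₁ x - a₂₂ x) ^ 2 + 4 * a₁₂ x ^ 2) / (4 * μ) -
        (a₁₁ x + a₂₂ x) ^ 2 * kinv / 4 := by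
      simp only [hA, hA0, hLin, hσ₁₁, hσ₂₂, hσ₁₂, hcn]
      field_simp
      ring
    have hn0 : 0 ≤ n x := norm_nonneg _
    have q1 := sq_le_sq' (abs_le.mp b1).1 (abs_le.mp b1).2
    have q2 := sq_le_sq' (abs_le.mp b2).1 (abs_le.mp b2).2
    have q3 := sq_le_sq' (abs_le.mp b3).1 (abs_le.mp b3).2
    have t1 : (a₁₁ x - a₂₂ x) ^ 2 + 4 * a₁₂ x ^ 2 ≤ 8 * n x ^ 2 := by
      nlinarith [sq_nonneg (a₁₁ x + a₂₂ x)]
    have t2 : (a₁₁ x + a₂₂ x) ^ 2 ≤ 4 * n x ^ 2 := by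
      nlinarith [sq_nonneg (a₁₁ x - a₂₂ x)]
    have t3 : ((a₁₁ x - a₂₂ x) ^ 2 + 4 * a₁₂ x ^ 2) / (4 * μ) ≤ 2 / μ * n x ^ 2 := by
      calc ((a₁₁ x - a₂₂ x) ^ 2 + 4 * a₁₂ x ^ 2) / (4 * μ) ≤ (8 * n x ^ 2) / (4 * μ) := by
            gcongr
        _ = 2 / μ * n x ^ 2 := by field_simp; ring
    have t4 : (a₁₁ x + a₂₂ x) ^ 2 * kinv / 4 ≤ kinv * n x ^ 2 := by
      nlinarith
    rw [h1]
    linarith
  have hintA : A0 * V - (2 / μ + kinv) * ∫ x in cell b, n x ^ 2 ≤ ∫ x in cell b, A x := by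
    have i0 : IntegrableOn (fun _ : ℂ => A0) (cell b) := hci _ continuous_const
    have cLin : Continuous Lin := by
      simp only [hLin]
      fun_prop
    have i1 : IntegrableOn Lin (cell b) := hci _ cLin
    have i2 : IntegrableOn (fun x => (2 / μ + kinv) * n x ^ 2) (cell b) := hci _ (by fun_prop)
    have h1 : ∫ x in cell b, (A0 + Lin x - (2 / μ + kinv) * n x ^ 2) ≤ ∫ x in cell b, A x :=
      integral_mono ((i0.add i1).sub i2) iA hpt
    have k1 := integral_sub (i0.add i1) i2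
    have k2 := integral_add i0 i1
    simp only [Pi.add_apply] at k1 k2
    rw [k1, k2, intLin, integral_const_mul, setIntegral_const, add_zero, smul_eq_mul, mul_comm] at h1
    exact h1
  -- the lower function
  set lower : ℂ → ℝ := fun x => A x + 2 * Bf x with hlower
  have ilower : Integrable lower (volume.restrict (cell b)) := iA.add (iBf.const_mul 2)
  have intlower : ∫ x in cell b, lower x = ∫ x in cell b, A x := by
    have k1 := integral_add iA (iBf.const_mul 2)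
    rw [integral_const_mul, intB, mul_zero, add_zero] at k1
    exact k1
  have hlow : ∀ x, ENNReal.ofReal (lower x) ≤
      W κ μ (e₁₁ + (G₁ x).re) (e₂₂ + (G₂ x).im) (e₁₂ + ((G₁ x).im + (G₂ x).re) / 2) := by
    intro x
    refine le_trans (le_of_eq ?_) (G7_pointwise hκ hμ (σ₁₁ x) (σ₂₂ x) (σ₁₂ x) _ _ _)
    congr 1
    simp only [hlower, hA, hBf]
    ring
  have hzero : ∀ x, x ∉ Ω → lower x = 0 := by
    intro x hx
    obtain ⟨α, g, hev⟩ := haff x hx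
    have z1 : σ₁₁ x = 0 := by
      simp only [hσ₁₁, ha₁₁]
      rw [G7_eventually hev]
      simp [mul_assoc]
    have z2 : σ₂₂ x = 0 := by
      simp only [hσ₂₂, ha₂₂]
      rw [G7_eventually hev]
      simp
    have z3 : σ₁₂ x = 0 := by
      simp only [hσ₁₂, ha₁₂]
      rw [G7_eventually hev]
      simp
    simp only [hlower, hA, hBf, z1, z2, z3]
    ring
  have hmain : ENNReal.ofReal (∫ x in cell b, A x) ≤ ∫⁻ x in Ω ∩ cell b,
      W κ μ (e₁₁ + (G₁ x).re) (e₂₂ + (G₂ x).im) (e₁₂ + ((G₁ x).im + (G₂ x).re) / 2) := by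
    rw [← intlower]
    refine (G7_ofReal_int_le ilower).trans ?_
    have h1 : ∫⁻ x in cell b, ENNReal.ofReal (lower x) =
        ∫⁻ x in cell b, Ω.indicator (fun x => ENNReal.ofReal (lower x)) x := by
      refine lintegral_congr fun x => ?_
      by_cases hx : x ∈ Ω
      · rw [indicator_of_mem hx]
      · rw [indicator_of_notMem hx, hzero x hx, ENNReal.ofReal_zero]
    rw [h1, setLIntegral_indicator hΩm]
    exact lintegral_mono fun x => hlow x
  rw [ENNReal.le_div_iff_mul_le (Or.inl hc0) (Or.inl hct), hvolV,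
    ← ENNReal.ofReal_mul' hVpos.le]
  refine le_trans (ENNReal.ofReal_le_ofReal ?_) hmain
  refine le_trans (le_of_eq ?_) hintA
  have : (∫ x in cell b, ‖iteratedFDeriv ℝ 2 d x‖ ^ 2) / V * V = ∫ x in cell b, n x ^ 2 := by
    rw [div_mul_cancel₀ _ hVpos.ne']
  rw [sub_mul, mul_assoc, this]


end JG7
export JG7 (effE_ge)

end Porous
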