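import Pool.Agent.Porous.KC1

open MeasureTheory Complex Set
open scoped ContDiff ENNReal
noncomputable section
namespace Porous
namespace JKD

theorem j4618_cut (Γ : Set ℂ) (η : ℝ) (hη : 0 < η) :
    ∃ ψ : ℂ → ℝ, ContDiff ℝ ∞ ψ ∧
      (∀ v : ℂ, (∀ x, Metric.infDist (x + v) Γ = Metric.infDist x Γ) → ∀ x, ψ (x + v) = ψ x) ∧
      (∀ x, 3 * η / 4 < Metric.infDist x Γ → ψ x = 1) ∧ (∀ x, Metric.infDist x Γ < η / 4 → ψ x = 0) := by
  let φ : ContDiffBump (0 : ℂ) := ⟨η / 16, η / 8, by positivity, by linarith⟩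
  let χ : ℂ → ℝ := Set.indicator {x | η / 2 < Metric.infDist x Γ} (fun _ => 1)
  have hφ : φ.rOut = η / 8 := rfl
  refine ⟨MeasureTheory.convolution (φ.normed volume) χ (ContinuousLinearMap.lsmul ℝ ℝ) volume, ?_, ?_, ?_, ?_⟩
  · refine φ.hasCompactSupport_normed.contDiff_convolution_left _ φ.contDiff_normed ?_
    refine (locallyIntegrable_const 1).indicator ?_
    exact (isOpen_lt continuous_const (Metric.continuous_infDist_pt _)).measurableSet
  · intro v hv x
    unfold MeasureTheory.convolution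
    congr 1
    funext t
    have : χ (x + v - t) = χ (x - t) := by
      have e : x + v - t = (x - t) + v := by ring
      rw [e]
      simp only [χ, Set.indicator, Set.mem_ofPred_eq, hv]
    rw [this]
  · intro x hx
    have hx1 : χ x = 1 := by
      simp only [χ]
      rw [Set.indicator_of_mem]
      show η / 2 < Metric.infDist x Γ
      linarith
    rw [φ.normed_convolution_eq_right (μ := volume) (g := χ) (x₀ := x), hx1]
    intro y hy
    rw [hx1]
    simp only [χ]
    rw [Set.indicator_of_mem]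
    show η / 2 < Metric.infDist y Γ
    rw [hφ, Metric.mem_ball] at hy
    have := Metric.infDist_le_infDist_add_dist (s := Γ) (x := x) (y := y)
    rw [dist_comm] at hy
    linarith
  · intro x hx
    have hx1 : χ x = 0 := by
      simp only [χ]
      rw [Set.indicator_of_notMem]
      show ¬ (η / 2 < Metric.infDist x Γ)
      linarith
    rw [φ.normed_convolution_eq_right (μ := volume) (g := χ) (x₀ := x), hx1]
    intro y hy
    rw [hx1]
    simp only [χ]
    rw [Set.indicator_of_notMem]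
    show ¬ (η / 2 < Metric.infDist y Γ)
    rw [hφ, Metric.mem_ball] at hy
    have := Metric.infDist_le_infDist_add_dist (s := Γ) (x := y) (y := x)
    linarith

theorem j4618_cs (F : Frame) : ContDiff ℝ ∞ F.cs := by
  have h : F.cs = fun x => Complex.imCLM ((x - F.O) * (starRingEnd ℂ) F.σ) / (F.τ * (starRingEnd ℂ) F.σ).im := by
    funext x; rfl
  rw [h]
  refine ContDiff.div_const ?_ _
  exact Complex.imCLM.contDiff.comp ((contDiff_id.sub contDiff_const).mul contDiff_const)

theorem j4618_cr (F : Frame) : ContDiff ℝ ∞ F.cr := by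
  have h : F.cr = fun x => Complex.imCLM ((x - F.O) * (starRingEnd ℂ) F.τ) / (F.σ * (starRingEnd ℂ) F.τ).im := by
    funext x; rfl
  rw [h]
  refine ContDiff.div_const ?_ _
  exact Complex.imCLM.contDiff.comp ((contDiff_id.sub contDiff_const).mul contDiff_const)

theorem j4618_Tr (F : Frame) (m : ℕ) (w : ℝ) : ContDiff ℝ ∞ (fun x => Tr F m w (F.cs x / Lm m) (F.cr x / Lm m)) := by
  have h1 : ContDiff ℝ ∞ (fun x => ((F.cs x / Lm m : ℝ) : ℂ)) :=
    Complex.ofRealCLM.contDiff.comp ((j4618_cs F).div_const _)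
  have h2 : ContDiff ℝ ∞ (fun x => ((F.cr x / Lm m : ℝ) : ℂ)) :=
    Complex.ofRealCLM.contDiff.comp ((j4618_cr F).div_const _)
  unfold Tr
  exact contDiff_const.mul ((h1.mul contDiff_const).sub (h2.mul contDiff_const))

theorem j4618_Tr_add (F : Frame) (m : ℕ) (w s t s' t' : ℝ) :
    Tr F m w (s + s') (t + t') = Tr F m w s t + Tr F m w s' t' := by
  unfold Tr
  push_cast
  ring

/-! TARGETS -/

/-- the crack set is periodic -/
theorem Gam_periodic {F : Frame} (m : ℕ) (a : ℝ) (n₁ n₂ : ℤ) (x : ℂ) :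
    x + Lm m * ((n₁ : ℂ) * F.τ + (n₂ : ℂ) * F.σ) ∈ Gam F m a ↔ x ∈ Gam F m a := by
  constructor
  · rintro ⟨t₁, t₂, h⟩
    refine ⟨t₁ - n₁, t₂ - n₂, ?_⟩
    convert h using 1
    push_cast
    ring
  · rintro ⟨t₁, t₂, h⟩
    refine ⟨t₁ + n₁, t₂ + n₂, ?_⟩
    convert h using 1
    push_cast
    ring

/-- smooth periodic trial displacement: cut the displacement off near the cracks -/
theorem trial {F : Frame} (hF : F.good) (m : ℕ) (a w η : ℝ) (hη : 0 < η)
    (hv : ∀ x, x ∉ Gam F m a → ContDiffAt ℝ ∞ (vfun F m a w) x) :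
    ∃ u : ℂ → ℂ, ContDiff ℝ ∞ u ∧
      (∀ (n₁ n₂ : ℤ) (x : ℂ), u (x + Lm m * ((n₁ : ℂ) * F.τ + (n₂ : ℂ) * F.σ)) = u x) ∧
      ∀ x, η ≤ Metric.infDist x (Gam F m a) →
        ∀ᶠ y in nhds x, u y = vfun F m a w y - Tr F m w (F.cs y / Lm m) (F.cr y / Lm m) := by
  obtain ⟨ψ, h1, h2, h3, h4⟩ := j4618_cut (Gam F m a) η hη
  have hLm : (Lm m : ℝ) ≠ 0 := by
    unfold Lm; positivity
  have hper : ∀ (n₁ n₂ : ℤ) (x : ℂ), Metric.infDist (x + Lm m * ((n₁ : ℂ) * F.τ + (n₂ : ℂ) * F.σ)) (Gam F m a)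
      = Metric.infDist x (Gam F m a) := by
    intro n₁ n₂ x
    have hi : (fun y : ℂ => y + Lm m * ((n₁ : ℂ) * F.τ + (n₂ : ℂ) * F.σ)) '' Gam F m a = Gam F m a := by
      ext y
      constructor
      · rintro ⟨z, hz, rfl⟩
        exact (Gam_periodic m a n₁ n₂ z).2 hz
      · intro hy
        refine ⟨y - Lm m * ((n₁ : ℂ) * F.τ + (n₂ : ℂ) * F.σ), ?_, by simp⟩
        rw [← Gam_periodic m a n₁ n₂, sub_add_cancel]
        exact hy
    have := Metric.infDist_image (t := Gam F m a) (x := x)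
      (isometry_add_right (Lm m * ((n₁ : ℂ) * F.τ + (n₂ : ℂ) * F.σ)))
    rw [hi] at this
    exact this
  refine ⟨fun x => ψ x • (vfun F m a w x - Tr F m w (F.cs x / Lm m) (F.cr x / Lm m)), ?_, ?_, ?_⟩
  · rw [contDiff_iff_contDiffAt]
    intro x
    by_cases hx : Metric.infDist x (Gam F m a) < η / 4
    · have : ∀ᶠ y in nhds x, Metric.infDist y (Gam F m a) < η / 4 :=
        (isOpen_lt (Metric.continuous_infDist_pt _) continuous_const).mem_nhds hx
      refine (contDiffAt_const (c := (0 : ℂ))).congr_of_eventuallyEq ?_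
      filter_upwards [this] with y hy
      rw [h4 y hy, zero_smul]
    · have hxG : x ∉ Gam F m a := by
        intro hmem
        rw [Metric.infDist_zero_of_mem hmem] at hx
        apply hx
        positivity
      exact (h1.contDiffAt).smul ((hv x hxG).sub (j4618_Tr F m w).contDiffAt)
  · intro n₁ n₂ x
    simp only
    rw [h2 _ (hper n₁ n₂) x, vfun_add hF]
    have e : x + Lm m * ((n₁ : ℂ) * F.τ + (n₂ : ℂ) * F.σ) =
        x + (((Lm m * n₁ : ℝ) : ℂ) * F.τ + ((Lm m * n₂ : ℝ) : ℂ) * F.σ) := by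
      push_cast; ring
    have e1 : F.cs (x + Lm m * ((n₁ : ℂ) * F.τ + (n₂ : ℂ) * F.σ)) / Lm m = F.cs x / Lm m + n₁ := by
      rw [e, Frame.cs_add hF, add_div, mul_div_cancel_left₀ _ hLm]
    have e2 : F.cr (x + Lm m * ((n₁ : ℂ) * F.τ + (n₂ : ℂ) * F.σ)) / Lm m = F.cr x / Lm m + n₂ := by
      rw [e, Frame.cr_add hF, add_div, mul_div_cancel_left₀ _ hLm]
    rw [e1, e2, j4618_Tr_add]
    congr 1
    ring
  · intro x hx
    have : ∀ᶠ y in nhds x, 3 * η / 4 < Metric.infDist y (Gam F m a) :=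
      (isOpen_lt continuous_const (Metric.continuous_infDist_pt _)).mem_nhds (by
        show 3 * η / 4 < Metric.infDist x (Gam F m a)
        linarith)
    filter_upwards [this] with y hy
    rw [h3 y hy, one_smul]


end JKD
export JKD (Gam_periodic trial)

end Porous
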