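import Pool.Agent.Porous.Defs

open MeasureTheory Complex Set
open scoped ContDiff ENNReal
noncomputable section
namespace Porous
namespace JK2


theorem kk_contDiff {a : ℝ} (ha : 0 < a) : ContDiff ℝ ∞ (kk a) := by
  have h1 : ContDiff ℝ ∞ (fun y : ℂ => (‖y‖ ^ 2 / a ^ 2 - 1) / 3) :=
    ((((contDiff_norm_sq ℝ).div_const _).sub contDiff_const).div_const _)
  exact Real.smoothTransition.contDiff.comp h1

theorem kk_eq_zero {a : ℝ} (ha : 0 < a) {y : ℂ} (hy : ‖y‖ ≤ a) : kk a y = 0 := by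
  unfold kk
  apply Real.smoothTransition.zero_of_nonpos
  have h1 : ‖y‖ ^ 2 / a ^ 2 ≤ 1 := by
    rw [div_le_one (by positivity)]
    gcongr
  linarith

theorem kk_eq_one {a : ℝ} (ha : 0 < a) {y : ℂ} (hy : 2 * a ≤ ‖y‖) : kk a y = 1 := by
  unfold kk
  apply Real.smoothTransition.one_of_one_le
  have h1 : 4 ≤ ‖y‖ ^ 2 / a ^ 2 := by
    rw [le_div_iff₀ (by positivity)]
    nlinarith
  linarith

theorem gf_contDiff {a : ℝ} (ha : 0 < a) (C P₁ P₂ P₃ : ℂ) : ContDiff ℝ ∞ (gf a C P₁ P₂ P₃) := by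
  have h : ∀ P : ℂ, ContDiff ℝ ∞ (fun x : ℂ => ((1 - kk a (x - P) : ℝ) : ℂ) * (x - P)) := by
    intro P
    have h1 : ContDiff ℝ ∞ (fun x : ℂ => x - P) := contDiff_id.sub contDiff_const
    have h2 : ContDiff ℝ ∞ (fun x : ℂ => 1 - kk a (x - P)) :=
      contDiff_const.sub ((kk_contDiff ha).comp h1)
    exact (Complex.ofRealCLM.contDiff.comp h2).mul h1
  unfold gf
  exact (((contDiff_id.sub contDiff_const).sub (h P₁)).sub (h P₂)).sub (h P₃)

theorem K2_deriv_zero {u : ℝ} (hu : 1 < u) : deriv Real.smoothTransition u = 0 := by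
  have h : Real.smoothTransition =ᶠ[nhds u] fun _ => (1 : ℝ) := by
    filter_upwards [lt_mem_nhds hu] with v hv
    exact Real.smoothTransition.one_of_one_le hv.le
  rw [h.deriv_eq, deriv_const]

theorem K2_bound : ∃ K₀ : ℝ, 0 < K₀ ∧ ∀ u : ℝ, -(1 / 3) ≤ u →
    |deriv Real.smoothTransition u| * (3 * u + 1) ≤ K₀ := by
  have hc : Continuous (deriv Real.smoothTransition) :=
    (Real.smoothTransition.contDiff (n := 1)).continuous_deriv le_rfl
  have hc' : ContinuousOn (fun u : ℝ => |deriv Real.smoothTransition u| * (3 * u + 1))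
      (Set.Icc (-(1 / 3)) 1) := by
    apply Continuous.continuousOn
    exact hc.abs.mul (by fun_prop)
  obtain ⟨K, hK⟩ := isCompact_Icc.bddAbove_image hc'
  refine ⟨max K 1, lt_of_lt_of_le one_pos (le_max_right _ _), fun u hu => ?_⟩
  by_cases h1 : u ≤ 1
  · exact (hK ⟨u, ⟨hu, h1⟩, rfl⟩).trans (le_max_left _ _)
  · rw [K2_deriv_zero (not_le.1 h1), abs_zero, zero_mul]
    exact le_trans zero_le_one (le_max_right _ _)

theorem K2_corr {K₀ : ℝ} (hK : ∀ u : ℝ, -(1 / 3) ≤ u →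
    |deriv Real.smoothTransition u| * (3 * u + 1) ≤ K₀) {a : ℝ} (ha : 0 < a) (P x : ℂ) :
    ∃ (q c : ℝ) (L : ℂ →L[ℝ] ℂ), |c| * ‖x - P‖ ^ 2 ≤ 2 / 3 * K₀ ∧ (2 * a < ‖x - P‖ → c = 0) ∧
      HasFDerivAt (fun x : ℂ => ((1 - kk a (x - P) : ℝ) : ℂ) * (x - P)) L x ∧
      L 1 = (q : ℂ) + ((c * (x - P).re : ℝ) : ℂ) * (x - P) ∧
      L I = (q : ℂ) * I + ((c * (x - P).im : ℝ) : ℂ) * (x - P) := by
  set u : ℝ := (‖x - P‖ ^ 2 / a ^ 2 - 1) / 3 with hu
  set d : ℝ := deriv Real.smoothTransition u with hd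
  have h1 : HasFDerivAt (fun x : ℂ => ‖x - P‖ ^ 2) (2 • (innerSL ℝ (x - P))) x := by
    have h := ((hasFDerivAt_id (𝕜 := ℝ) x).sub_const P).norm_sq
    simpa using h
  have h2 : HasFDerivAt (fun x : ℂ => (‖x - P‖ ^ 2 / a ^ 2 - 1) / 3)
      ((1 / (3 * a ^ 2)) • (2 • (innerSL ℝ (x - P)))) x := by
    have h := (h1.const_mul (1 / (3 * a ^ 2))).sub_const (1 / 3)
    have e : (fun x : ℂ => (‖x - P‖ ^ 2 / a ^ 2 - 1) / 3)
        = fun x : ℂ => 1 / (3 * a ^ 2) * ‖x - P‖ ^ 2 - 1 / 3 := by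
      funext z
      field_simp
    rw [e]
    exact h
  have hdiff : HasDerivAt Real.smoothTransition d u :=
    ((Real.smoothTransition.contDiff (n := 1)).differentiable (by norm_num) u).hasDerivAt
  have h3 : HasFDerivAt (fun x : ℂ => kk a (x - P))
      (d • ((1 / (3 * a ^ 2)) • (2 • (innerSL ℝ (x - P))))) x :=
    hdiff.comp_hasFDerivAt x h2
  have h4 := (h3.const_sub 1).smul ((hasFDerivAt_id (𝕜 := ℝ) x).sub_const P)
  refine ⟨1 - kk a (x - P), -(d * (1 / (3 * a ^ 2) * 2)),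
    (1 - kk a (x - P)) • ContinuousLinearMap.id ℝ ℂ +
      (-(d • ((1 / (3 * a ^ 2)) • (2 • (innerSL ℝ (x - P)))))).smulRight (x - P),
    ?_, ?_, ?_, ?_, ?_⟩
  rotate_left 2
  · have e : (fun x : ℂ => ((1 - kk a (x - P) : ℝ) : ℂ) * (x - P))
        = (fun x : ℂ => (1 - kk a (x - P))) • (fun x : ℂ => id x - P) := by
      funext z
      simp only [Pi.smul_apply', id, Complex.real_smul]
    rw [e]
    exact h4
  · simp only [add_apply, smul_apply,
      ContinuousLinearMap.smulRight_apply, neg_apply, innerSL_apply_apply,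
      Complex.inner, Complex.real_smul, id, ContinuousLinearMap.id_apply, smul_eq_mul, nsmul_eq_mul]
    simp
    left
    ring
  · simp only [add_apply, smul_apply,
      ContinuousLinearMap.smulRight_apply, neg_apply, innerSL_apply_apply,
      Complex.inner, Complex.real_smul, id, ContinuousLinearMap.id_apply, smul_eq_mul, nsmul_eq_mul]
    simp
    left
    ring
  · have hu3 : 3 * u + 1 = ‖x - P‖ ^ 2 / a ^ 2 := by rw [hu]; ring
    have hu0 : -(1 / 3) ≤ u := by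
      have : 0 ≤ ‖x - P‖ ^ 2 / a ^ 2 := by positivity
      linarith
    have hk := hK u hu0
    rw [hu3] at hk
    rw [abs_neg, abs_mul, abs_of_nonneg (a := 1 / (3 * a ^ 2) * 2) (by positivity)]
    calc |d| * (1 / (3 * a ^ 2) * 2) * ‖x - P‖ ^ 2
        = 2 / 3 * (|d| * (‖x - P‖ ^ 2 / a ^ 2)) := by field_simp
      _ ≤ 2 / 3 * K₀ := by gcongr
  · intro hy
    have hu1 : 1 < u := by
      have h1 : 4 < ‖x - P‖ ^ 2 / a ^ 2 := by
        rw [lt_div_iff₀ (by positivity)]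
        nlinarith
      rw [hu]
      linarith
    rw [hd, K2_deriv_zero hu1]
    simp

/-- the rotation fields are divergence free, with strain concentrated near the hinges -/
theorem gf_strain : ∃ K : ℝ, 0 < K ∧ ∀ (a : ℝ), 0 < a → ∀ (w : ℝ) (C P₁ P₂ P₃ x : ℂ),
    sdiv (fun y => (I * w) * gf a C P₁ P₂ P₃ y) x = 0 ∧
    |sdif (fun y => (I * w) * gf a C P₁ P₂ P₃ y) x| ≤ K * |w| ∧
    |sshe (fun y => (I * w) * gf a C P₁ P₂ P₃ y) x| ≤ K * |w| ∧
    (2 * a < ‖x - P₁‖ → 2 * a < ‖x - P₂‖ → 2 * a < ‖x - P₃‖ →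
      sdif (fun y => (I * w) * gf a C P₁ P₂ P₃ y) x = 0 ∧ sshe (fun y => (I * w) * gf a C P₁ P₂ P₃ y) x = 0) := by
  obtain ⟨K₀, hK0, hK⟩ := K2_bound
  refine ⟨2 * K₀, by positivity, ?_⟩
  intro a ha w C P₁ P₂ P₃ x
  obtain ⟨q1, c1, L1, b1, z1, f1, s1, t1⟩ := K2_corr hK ha P₁ x
  obtain ⟨q2, c2, L2, b2, z2, f2, s2, t2⟩ := K2_corr hK ha P₂ x
  obtain ⟨q3, c3, L3, b3, z3, f3, s3, t3⟩ := K2_corr hK ha P₃ x
  have hg : HasFDerivAt (fun y => (I * w) * gf a C P₁ P₂ P₃ y)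
      ((I * w) • (ContinuousLinearMap.id ℝ ℂ - L1 - L2 - L3)) x := by
    have h0 : HasFDerivAt (fun x : ℂ => x - C) (ContinuousLinearMap.id ℝ ℂ) x :=
      (hasFDerivAt_id (𝕜 := ℝ) x).sub_const C
    exact (((h0.sub f1).sub f2).sub f3).const_mul (I * w)
  have e1 : fderiv ℝ (fun y => (I * w) * gf a C P₁ P₂ P₃ y) x 1
      = (I * w) * (1 - L1 1 - L2 1 - L3 1) := by
    rw [hg.fderiv]
    rfl
  have eI : fderiv ℝ (fun y => (I * w) * gf a C P₁ P₂ P₃ y) x I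
      = (I * w) * (I - L1 I - L2 I - L3 I) := by
    rw [hg.fderiv]
    rfl
  rw [s1, s2, s3] at e1
  rw [t1, t2, t3] at eI
  have hdiv : sdiv (fun y => (I * w) * gf a C P₁ P₂ P₃ y) x = 0 := by
    unfold sdiv
    rw [e1, eI]
    simp
    ring
  have hdif : sdif (fun y => (I * w) * gf a C P₁ P₂ P₃ y) x =
      w * (2 * (c1 * ((x - P₁).re * (x - P₁).im)) + 2 * (c2 * ((x - P₂).re * (x - P₂).im))
        + 2 * (c3 * ((x - P₃).re * (x - P₃).im))) := by
    unfold sdif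
    rw [e1, eI]
    simp
    ring
  have hshe : sshe (fun y => (I * w) * gf a C P₁ P₂ P₃ y) x =
      w * (c1 * ((x - P₁).im ^ 2 - (x - P₁).re ^ 2) + c2 * ((x - P₂).im ^ 2 - (x - P₂).re ^ 2)
        + c3 * ((x - P₃).im ^ 2 - (x - P₃).re ^ 2)) := by
    unfold sshe
    rw [e1, eI]
    simp
    ring
  have k1 : ∀ (c : ℝ) (y : ℂ), |c| * ‖y‖ ^ 2 ≤ 2 / 3 * K₀ → |2 * (c * (y.re * y.im))| ≤ 2 / 3 * K₀ := by
    intro c y hy
    refine le_trans ?_ hy
    have e : 2 * (c * (y.re * y.im)) = c * (2 * (y.re * y.im)) := by ring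
    rw [e, abs_mul]
    gcongr
    rw [← Complex.normSq_eq_norm_sq, Complex.normSq_apply, abs_le]
    constructor
    · nlinarith [sq_nonneg (y.re + y.im)]
    · nlinarith [sq_nonneg (y.re - y.im)]
  have k2 : ∀ (c : ℝ) (y : ℂ), |c| * ‖y‖ ^ 2 ≤ 2 / 3 * K₀ → |c * (y.im ^ 2 - y.re ^ 2)| ≤ 2 / 3 * K₀ := by
    intro c y hy
    refine le_trans ?_ hy
    rw [abs_mul]
    gcongr
    rw [← Complex.normSq_eq_norm_sq, Complex.normSq_apply, abs_le]
    constructor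
    · nlinarith [sq_nonneg y.im, sq_nonneg y.re]
    · nlinarith [sq_nonneg y.im, sq_nonneg y.re]
  refine ⟨hdiv, ?_, ?_, ?_⟩
  · rw [hdif, abs_mul, mul_comm]
    gcongr
    refine (abs_add_le _ _).trans ?_
    have g1 := k1 c1 _ b1
    have g2 := k1 c2 _ b2
    have g3 := k1 c3 _ b3
    have g4 := abs_add_le (2 * (c1 * ((x - P₁).re * (x - P₁).im)))
      (2 * (c2 * ((x - P₂).re * (x - P₂).im)))
    linarith
  · rw [hshe, abs_mul, mul_comm]
    gcongr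
    refine (abs_add_le _ _).trans ?_
    have g1 := k2 c1 _ b1
    have g2 := k2 c2 _ b2
    have g3 := k2 c3 _ b3
    have g4 := abs_add_le (c1 * ((x - P₁).im ^ 2 - (x - P₁).re ^ 2))
      (c2 * ((x - P₂).im ^ 2 - (x - P₂).re ^ 2))
    linarith
  · intro h1 h2 h3
    rw [hdif, hshe, z1 h1, z2 h2, z3 h3]
    simp


end JK2
export JK2 (kk_contDiff kk_eq_zero kk_eq_one gf_contDiff gf_strain)

end Porous
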