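import Pool.Agent.Porous.K1
import Pool.Agent.Porous.K2

open MeasureTheory Complex Set
open scoped ContDiff ENNReal
noncomputable section
namespace Porous
namespace JKE

/-! TARGET -/


open Classical in
/-- hinges of one side -/
def KEH (F : Frame) (m : ℕ) : Finset ℂ :=
  (Finset.range (2 * m)).image F.N ∪ (Finset.range m).image F.D ∪
    (Finset.range m).image (F.U m) ∪ {F.pt 0 2}

theorem KEH_card (F : Frame) (m : ℕ) : (KEH F m).card ≤ 4 * m + 1 := by
  classical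
  unfold KEH
  have h1 := (Finset.card_image_le (s := Finset.range (2 * m)) (f := F.N))
  have h2 := (Finset.card_image_le (s := Finset.range m) (f := F.D))
  have h3 := (Finset.card_image_le (s := Finset.range m) (f := F.U m))
  rw [Finset.card_range] at h1 h2 h3
  have h4 := Finset.card_union_le ((Finset.range (2 * m)).image F.N ∪ (Finset.range m).image F.D ∪
    (Finset.range m).image (F.U m)) {F.pt 0 2}
  have h5 := Finset.card_union_le ((Finset.range (2 * m)).image F.N ∪ (Finset.range m).image F.D)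
    ((Finset.range m).image (F.U m))
  have h6 := Finset.card_union_le ((Finset.range (2 * m)).image F.N) ((Finset.range m).image F.D)
  rw [Finset.card_singleton] at h4
  omega

theorem KEH_mem {F : Frame} {m : ℕ} {a : ℝ} {x : ℂ} (hx : x ∈ Zs F m a) :
    ∃ P ∈ KEH F m, ‖x - P‖ ≤ 2 * a := by
  classical
  rcases hx with ⟨j, hj, h⟩ | ⟨i, hi, h⟩ | ⟨i, hi, h⟩ | h
  · refine ⟨F.N j, ?_, h⟩
    simp only [KEH, Finset.mem_union]
    exact Or.inl (Or.inl (Or.inl (Finset.mem_image_of_mem _ (Finset.mem_range.2 hj))))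
  · refine ⟨F.D i, ?_, h⟩
    simp only [KEH, Finset.mem_union]
    exact Or.inl (Or.inl (Or.inr (Finset.mem_image_of_mem _ (Finset.mem_range.2 hi))))
  · refine ⟨F.U m i, ?_, h⟩
    simp only [KEH, Finset.mem_union]
    exact Or.inl (Or.inr (Finset.mem_image_of_mem _ (Finset.mem_range.2 hi)))
  · refine ⟨F.pt 0 2, ?_, h⟩
    simp only [KEH, Finset.mem_union]
    exact Or.inr (Finset.mem_singleton_self _)

theorem KEH_coord {F : Frame} (hF : F.good) {m : ℕ} {P : ℂ} (hP : P ∈ KEH F m) :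
    0 ≤ F.cs P ∧ F.cs P ≤ Lm m ∧ -1 ≤ F.cr P ∧ F.cr P ≤ 2 := by
  classical
  have hm0 : (0 : ℝ) ≤ m := Nat.cast_nonneg m
  simp only [KEH, Finset.mem_union, Finset.mem_image, Finset.mem_range,
    Finset.mem_singleton] at hP
  rcases hP with ((⟨j, hj, rfl⟩ | ⟨i, hi, rfl⟩) | ⟨i, hi, rfl⟩) | rfl
  · have hj' : (j : ℝ) + 1 ≤ 2 * m := by exact_mod_cast hj
    have hj0 : (0 : ℝ) ≤ j := Nat.cast_nonneg j
    unfold Frame.N
    rw [Frame.cs_pt hF, Frame.cr_pt hF]
    unfold Lm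
    refine ⟨by linarith, by linarith, by linarith, by linarith⟩
  · have hi' : (i : ℝ) + 1 ≤ m := by exact_mod_cast hi
    have hi0 : (0 : ℝ) ≤ i := Nat.cast_nonneg i
    unfold Frame.D
    rw [Frame.cs_pt hF, Frame.cr_pt hF]
    unfold Lm
    refine ⟨by linarith, by linarith, by linarith, by linarith⟩
  · have hi' : (i : ℝ) + 1 ≤ m := by exact_mod_cast hi
    have hi0 : (0 : ℝ) ≤ i := Nat.cast_nonneg i
    unfold Frame.U
    rw [Frame.cs_pt hF, Frame.cr_pt hF]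
    unfold Lm
    have h1 : (0 : ℝ) ≤ 1 / (2 * (m : ℝ) + 3) := by positivity
    have h2 : 1 / (2 * (m : ℝ) + 3) ≤ 1 := by
      rw [div_le_one (by positivity)]
      linarith
    refine ⟨by linarith, by linarith, by linarith, by linarith⟩
  · rw [Frame.cs_pt hF, Frame.cr_pt hF]
    unfold Lm
    refine ⟨le_refl _, by linarith, by linarith, le_refl _⟩

theorem KEH_coord3 {F : Frame} (hF : F.good) {m : ℕ} {P : ℂ}
    (hP : P ∈ KEH F m ∨ P ∈ KEH (F.next (Lm m)) m ∨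
      P ∈ KEH ((F.next (Lm m)).next (Lm m)) m) :
    -2 ≤ F.cs P ∧ F.cs P ≤ Lm m + 1 ∧ -2 ≤ F.cr P ∧ F.cr P ≤ Lm m + 1 := by
  have hL : (3 : ℝ) ≤ Lm m := by
    unfold Lm
    have : (0 : ℝ) ≤ m := Nat.cast_nonneg m
    linarith
  rcases hP with h | h | h
  · obtain ⟨h1, h2, h3, h4⟩ := KEH_coord hF h
    refine ⟨by linarith, by linarith, by linarith, by linarith⟩
  · obtain ⟨h1, h2, h3, h4⟩ := KEH_coord (Frame.good_next hF _) h
    rw [Frame.cs_next hF] at h1 h2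
    rw [Frame.cr_next hF] at h3 h4
    refine ⟨by linarith, by linarith, by linarith, by linarith⟩
  · obtain ⟨h1, h2, h3, h4⟩ := KEH_coord (Frame.good_next (Frame.good_next hF _) _) h
    rw [Frame.cs_next (Frame.good_next hF _), Frame.cr_next hF] at h1 h2
    rw [Frame.cr_next (Frame.good_next hF _), Frame.cs_next hF, Frame.cr_next hF] at h3 h4
    refine ⟨by linarith, by linarith, by linarith, by linarith⟩

open Classical in
/-- all centres -/
def KEC (F : Frame) (m : ℕ) : Finset ℂ :=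
  (Finset.Icc (-2 : ℤ) 2 ×ˢ Finset.Icc (-2 : ℤ) 2).biUnion fun t =>
    (KEH F m ∪ KEH (F.next (Lm m)) m ∪ KEH ((F.next (Lm m)).next (Lm m)) m).image
      fun P => P + Lm m * ((t.1 : ℂ) * F.τ + (t.2 : ℂ) * F.σ)

theorem KEC_card (F : Frame) (m : ℕ) : (KEC F m).card ≤ 25 * (3 * (4 * m + 1)) := by
  classical
  unfold KEC
  refine Finset.card_biUnion_le.trans ?_
  have h : ∀ t ∈ (Finset.Icc (-2 : ℤ) 2 ×ˢ Finset.Icc (-2 : ℤ) 2),
      ((KEH F m ∪ KEH (F.next (Lm m)) m ∪ KEH ((F.next (Lm m)).next (Lm m)) m).image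
        fun P => P + Lm m * ((t.1 : ℂ) * F.τ + (t.2 : ℂ) * F.σ)).card ≤ 3 * (4 * m + 1) := by
    intro t _
    refine Finset.card_image_le.trans ?_
    have h1 := KEH_card F m
    have h2 := KEH_card (F.next (Lm m)) m
    have h3 := KEH_card ((F.next (Lm m)).next (Lm m)) m
    have h4 := Finset.card_union_le (KEH F m ∪ KEH (F.next (Lm m)) m)
      (KEH ((F.next (Lm m)).next (Lm m)) m)
    have h5 := Finset.card_union_le (KEH F m) (KEH (F.next (Lm m)) m)
    omega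
  refine (Finset.sum_le_sum h).trans ?_
  rw [Finset.sum_const, smul_eq_mul]
  apply le_of_eq
  congr 1

theorem Zfull_sub {F : Frame} (hF : F.good) (hO : F.O = 0) (m : ℕ) (hm : 2 ≤ m)
    (a : ℝ) (ha' : a ≤ 1 / 100) (b : Module.Basis (Fin 2) ℝ ℂ)
    (hb0 : b 0 = Lm m * F.τ) (hb1 : b 1 = Lm m * F.σ) :
    Zfull F m a ∩ ZSpan.fundamentalDomain b ⊆ ⋃ c ∈ KEC F m, Metric.closedBall c (2 * a) := by
  classical
  rintro x ⟨⟨t₁, t₂, hx⟩, hxb⟩
  have hm' : (2 : ℝ) ≤ m := by exact_mod_cast hm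
  have hL : (7 : ℝ) ≤ Lm m := by
    unfold Lm
    linarith
  -- coordinates of x
  rw [ZSpan.mem_fundamentalDomain] at hxb
  have hx0 := hxb 0
  have hx1 := hxb 1
  have hxe : x = F.pt (b.repr x 0 * Lm m) (b.repr x 1 * Lm m) := by
    have h := b.sum_repr x
    rw [Fin.sum_univ_two, hb0, hb1] at h
    rw [Frame.pt, hO]
    nth_rewrite 1 [← h]
    simp only [Complex.real_smul]
    push_cast
    ring
  have hcs : F.cs x = b.repr x 0 * Lm m := by
    conv_lhs => rw [hxe]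
    exact Frame.cs_pt hF _ _
  have hcr : F.cr x = b.repr x 1 * Lm m := by
    conv_lhs => rw [hxe]
    exact Frame.cr_pt hF _ _
  have hcs0 : 0 ≤ F.cs x := by rw [hcs]; exact mul_nonneg hx0.1 (by linarith)
  have hcr0 : 0 ≤ F.cr x := by rw [hcr]; exact mul_nonneg hx1.1 (by linarith)
  have hcs1 : F.cs x ≤ Lm m := by
    rw [hcs]; nlinarith [hx0.2]
  have hcr1 : F.cr x ≤ Lm m := by
    rw [hcr]; nlinarith [hx1.2]
  set y := x - Lm m * ((t₁ : ℂ) * F.τ + (t₂ : ℂ) * F.σ) with hy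
  have hxy : x = y + (((Lm m * t₁ : ℝ) : ℂ) * F.τ + ((Lm m * t₂ : ℝ) : ℂ) * F.σ) := by
    rw [hy]
    push_cast
    ring
  have hcsy : F.cs x = F.cs y + Lm m * t₁ := by
    conv_lhs => rw [hxy]
    exact Frame.cs_add hF _ _ _
  have hcry : F.cr x = F.cr y + Lm m * t₂ := by
    conv_lhs => rw [hxy]
    exact Frame.cr_add hF _ _ _
  obtain ⟨P, hP, hyP⟩ : ∃ P : ℂ, (P ∈ KEH F m ∨ P ∈ KEH (F.next (Lm m)) m ∨
      P ∈ KEH ((F.next (Lm m)).next (Lm m)) m) ∧ ‖y - P‖ ≤ 2 * a := by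
    rcases hx with (h | h) | h
    · obtain ⟨P, h1, h2⟩ := KEH_mem h
      exact ⟨P, Or.inl h1, h2⟩
    · obtain ⟨P, h1, h2⟩ := KEH_mem h
      exact ⟨P, Or.inr (Or.inl h1), h2⟩
    · obtain ⟨P, h1, h2⟩ := KEH_mem h
      exact ⟨P, Or.inr (Or.inr h1), h2⟩
  obtain ⟨h1, h2, h3, h4⟩ := KEH_coord3 hF hP
  have h5 := abs_le.1 ((Frame.abs_cs_sub_le hF y P).trans
    (show 2 * ‖y - P‖ ≤ 1 / 25 by linarith))
  have h6 := abs_le.1 ((Frame.abs_cr_sub_le hF y P).trans
    (show 2 * ‖y - P‖ ≤ 1 / 25 by linarith))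
  have ht : ∀ (t : ℤ) (u v : ℝ), 0 ≤ u → u ≤ Lm m → -3 ≤ v → v ≤ Lm m + 2 →
      u = v + Lm m * t → t ∈ Finset.Icc (-2 : ℤ) 2 := by
    intro t u v hu0 hu1 hv0 hv1 huv
    rw [Finset.mem_Icc]
    have h7 : (t : ℝ) < 3 := by
      by_contra hc
      push Not at hc
      nlinarith
    have h8 : (-3 : ℝ) < t := by
      by_contra hc
      push Not at hc
      nlinarith
    have h7' : t < 3 := by exact_mod_cast h7
    have h8' : -3 < t := by exact_mod_cast h8
    constructor <;> omega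
  have ht1 := ht t₁ _ _ hcs0 hcs1 (by linarith) (by linarith) hcsy
  have ht2 := ht t₂ _ _ hcr0 hcr1 (by linarith) (by linarith) hcry
  rw [Set.mem_iUnion₂]
  refine ⟨P + Lm m * ((t₁ : ℂ) * F.τ + (t₂ : ℂ) * F.σ), ?_, ?_⟩
  · unfold KEC
    rw [Finset.mem_biUnion]
    refine ⟨(t₁, t₂), Finset.mem_product.2 ⟨ht1, ht2⟩, ?_⟩
    rw [Finset.mem_image]
    refine ⟨P, ?_, rfl⟩
    simp only [Finset.mem_union]
    tauto
  · rw [Metric.mem_closedBall, dist_eq_norm]
    have : x - (P + Lm m * ((t₁ : ℂ) * F.τ + (t₂ : ℂ) * F.σ)) = y - P := by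
      rw [hy]; ring
    rw [this]
    exact hyP

/-- area of the hinge neighbourhoods in one period cell -/
theorem volume_Zfull : ∃ K : ℝ, 0 < K ∧ ∀ {F : Frame} (hF : F.good) (hO : F.O = 0) (m : ℕ) (hm : 2 ≤ m)
    (a : ℝ) (ha : 0 < a) (ha' : a ≤ 1 / 100) (b : Module.Basis (Fin 2) ℝ ℂ)
    (hb0 : b 0 = Lm m * F.τ) (hb1 : b 1 = Lm m * F.σ),
    volume (Zfull F m a ∩ ZSpan.fundamentalDomain b) ≤ ENNReal.ofReal (K * m * a ^ 2) := by
  refine ⟨1500 * Real.pi, by positivity, ?_⟩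
  intro F hF hO m hm a ha ha' b hb0 hb1
  have hm' : (2 : ℝ) ≤ m := by exact_mod_cast hm
  refine (measure_mono (Zfull_sub hF hO m hm a ha' b hb0 hb1)).trans ?_
  refine (measure_biUnion_finset_le _ _).trans ?_
  have h1 : ∀ c ∈ KEC F m, volume (Metric.closedBall c (2 * a)) =
      ENNReal.ofReal (4 * Real.pi * a ^ 2) := by
    intro c _
    rw [Complex.volume_closedBall, ← ENNReal.ofReal_pow (by positivity),
      ← ENNReal.ofReal_coe_nnreal, NNReal.coe_real_pi, ← ENNReal.ofReal_mul (by positivity)]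
    congr 1
    ring
  rw [Finset.sum_congr rfl h1, Finset.sum_const, nsmul_eq_mul, ← ENNReal.ofReal_natCast,
    ← ENNReal.ofReal_mul (by positivity)]
  apply ENNReal.ofReal_le_ofReal
  have h2 : ((KEC F m).card : ℝ) ≤ 25 * (3 * (4 * m + 1)) := by exact_mod_cast KEC_card F m
  have h3 : (25 : ℝ) * (3 * (4 * m + 1)) ≤ 375 * m := by linarith
  have h4 : 0 ≤ 4 * Real.pi * a ^ 2 := by positivity
  calc ((KEC F m).card : ℝ) * (4 * Real.pi * a ^ 2) ≤ (375 * m) * (4 * Real.pi * a ^ 2) :=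
        mul_le_mul_of_nonneg_right (h2.trans h3) h4
    _ = 1500 * Real.pi * m * a ^ 2 := by ring


end JKE
export JKE (volume_Zfull)

end Porous
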