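import Pool.Agent.Porous.K1

open MeasureTheory Complex Set
open scoped ContDiff ENNReal
noncomputable section
namespace Porous
namespace JS6b0

/-! TARGET -/

theorem ae_nsq (s r : ℝ) : ‖(s : ℂ) + (r : ℂ) * zt‖ ^ 2 = s ^ 2 + s * r + r ^ 2 := by
  rw [← Complex.normSq_eq_norm_sq, Complex.normSq_apply]
  have h3 : Real.sqrt 3 ^ 2 = 3 := Real.sq_sqrt (by norm_num)
  simp only [zt, Complex.add_re, Complex.add_im, Complex.mul_re, Complex.mul_im,
    Complex.ofReal_re, Complex.ofReal_im]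
  ring_nf
  rw [h3]
  ring

theorem ae_sub (z p v : ℤ × ℤ) (t : ℝ) : lp p - (lp z + (t : ℂ) * lp v) =
    ((((p.1 - z.1 : ℤ) : ℝ) - t * (v.1 : ℝ) : ℝ) : ℂ) +
      ((((p.2 - z.2 : ℤ) : ℝ) - t * (v.2 : ℝ) : ℝ) : ℂ) * zt := by
  unfold lp
  push_cast
  ring

/-- near a lattice edge only the two end points are active (edge directions 0, 60, 120 degrees) -/
theorem active_edge (z v : ℤ × ℤ) (hv : v = (1, 0) ∨ v = (0, 1) ∨ v = (-1, 1)) (t : ℝ) (h0 : 0 ≤ t) (h1 : t ≤ 1)
    (x : ℂ) (hx' : ‖x - (lp z + (t : ℂ) * lp v)‖ ≤ 0.005) (p : ℤ × ℤ) (hp : ‖x - lp p‖ < 0.86) :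
    p = z ∨ p = z + v := by
  have hd : ‖lp p - (lp z + (t : ℂ) * lp v)‖ < 0.865 := by
    have h2 : lp p - (lp z + (t : ℂ) * lp v) =
        (x - (lp z + (t : ℂ) * lp v)) - (x - lp p) := by ring
    rw [h2]
    refine (norm_sub_le _ _).trans_lt ?_
    norm_num at hx' hp ⊢
    linarith
  rw [ae_sub] at hd
  have hsq := pow_lt_pow_left₀ hd (norm_nonneg _) two_ne_zero
  rw [ae_nsq] at hsq
  set q1 : ℤ := p.1 - z.1 with hq1
  set q2 : ℤ := p.2 - z.2 with hq2
  have hint : ∀ n : ℤ, n ≠ 0 → (1 : ℝ) ≤ (n : ℝ) ^ 2 := by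
    intro n hn
    have : (1 : ℤ) ≤ n ^ 2 := by
      have := sq_pos_of_ne_zero hn
      omega
    exact_mod_cast this
  have h01 : ∀ n : ℤ, ((n : ℝ) - t) ^ 2 < 1 → n = 0 ∨ n = 1 := by
    intro n hn
    have h2 : |(n : ℝ) - t| < 1 := (sq_lt_one_iff_abs_lt_one _).1 hn
    rw [abs_lt] at h2
    have h3 : (-1 : ℝ) < n := by linarith [h2.1]
    have h4 : (n : ℝ) < 2 := by linarith [h2.2]
    have h3' : (-1 : ℤ) < n := by exact_mod_cast h3
    have h4' : n < (2 : ℤ) := by exact_mod_cast h4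
    omega
  norm_num at hsq
  rcases hv with rfl | rfl | rfl
  · simp only [Int.cast_one, Int.cast_zero, mul_one, mul_zero, sub_zero] at hsq
    have hz2 : q2 = 0 := by
      by_contra hne
      have := hint q2 hne
      nlinarith [sq_nonneg ((q1 : ℝ) - t + q2 / 2)]
    rw [hz2] at hsq
    simp only [Int.cast_zero] at hsq
    rcases h01 q1 (by nlinarith) with h | h
    · left
      exact Prod.ext (by omega) (by omega)
    · right
      exact Prod.ext (by simp only [Prod.fst_add]; omega) (by simp only [Prod.snd_add]; omega)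
  · simp only [Int.cast_one, Int.cast_zero, mul_one, mul_zero, sub_zero] at hsq
    have hz1 : q1 = 0 := by
      by_contra hne
      have := hint q1 hne
      nlinarith [sq_nonneg ((q2 : ℝ) - t + q1 / 2)]
    rw [hz1] at hsq
    simp only [Int.cast_zero] at hsq
    rcases h01 q2 (by nlinarith) with h | h
    · left
      exact Prod.ext (by omega) (by omega)
    · right
      exact Prod.ext (by simp only [Prod.fst_add]; omega) (by simp only [Prod.snd_add]; omega)
  · simp only [Int.cast_one, Int.cast_neg, mul_one, mul_neg] at hsq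
    have hz : q1 + q2 = 0 := by
      by_contra hne
      have h5 := hint (q1 + q2) hne
      push_cast at h5
      nlinarith [sq_nonneg ((q1 : ℝ) + t - (q2 - t))]
    have hq1' : (q1 : ℝ) = -q2 := by
      have : ((q1 + q2 : ℤ) : ℝ) = 0 := by rw [hz]; simp
      push_cast at this
      linarith
    rw [hq1'] at hsq
    rcases h01 q2 (by nlinarith) with h | h
    · left
      exact Prod.ext (by omega) (by omega)
    · right
      exact Prod.ext (by simp only [Prod.fst_add]; omega) (by simp only [Prod.snd_add]; omega)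

/-- near a lattice point only this point is active -/
theorem active_point (z : ℤ × ℤ) (x : ℂ) (hx' : ‖x - lp z‖ ≤ 0.1) (p : ℤ × ℤ) (hp : ‖x - lp p‖ < 0.86) :
    p = z := by
  have hd : ‖lp p - (lp z + ((0 : ℝ) : ℂ) * lp 0)‖ < 0.96 := by
    have h2 : lp p - (lp z + ((0 : ℝ) : ℂ) * lp 0) = (x - lp z) - (x - lp p) := by
      rw [Complex.ofReal_zero]
      ring
    rw [h2]
    refine (norm_sub_le _ _).trans_lt ?_
    norm_num at hx' hp ⊢
    linarith
  rw [ae_sub] at hd
  have hsq := pow_lt_pow_left₀ hd (norm_nonneg _) two_ne_zero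
  rw [ae_nsq] at hsq
  set q1 : ℤ := p.1 - z.1 with hq1
  set q2 : ℤ := p.2 - z.2 with hq2
  norm_num at hsq
  have h1 : ((q1 ^ 2 + q1 * q2 + q2 ^ 2 : ℤ) : ℝ) < 1 := by
    push_cast
    linarith
  have h2 : q1 ^ 2 + q1 * q2 + q2 ^ 2 < 1 := by exact_mod_cast h1
  have h3 : q2 = 0 := by
    by_contra hne
    have := sq_pos_of_ne_zero hne
    nlinarith [sq_nonneg (2 * q1 + q2)]
  have h4 : q1 = 0 := by
    by_contra hne
    have := sq_pos_of_ne_zero hne
    rw [h3] at h2
    nlinarith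
  exact Prod.ext (by omega) (by omega)

/-- the hinge function equals the second plane in the forward sector and the first plane in the backward sector -/
theorem hg_sector {Xi : ℂ → ℝ} {K : ℝ} (hXi : XiOK Xi K) (a : ℝ) (ha : 0 < a) (P d : ℂ) (hd : ‖d‖ = 1) (lm lq : ℂ → ℝ)
    (y x : ℂ) (hy : 0.95 * a ≤ ‖y - P‖) (hxy : ‖x - y‖ ≤ a / 100) :
    (0.5 * ‖y - P‖ ≤ ((y - P) * (starRingEnd ℂ) d).re → hg Xi a P d lm lq x = lq x) ∧
    (((y - P) * (starRingEnd ℂ) d).re ≤ -0.5 * ‖y - P‖ → hg Xi a P d lm lq x = lm x) := by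
  have hw : ‖(x - P) * (starRingEnd ℂ) d / a‖ = ‖x - P‖ / a := by
    rw [norm_div, norm_mul, RCLike.norm_conj, hd, mul_one, Complex.norm_real, Real.norm_eq_abs,
      abs_of_pos ha]
  have hre : ((x - P) * (starRingEnd ℂ) d / a).re = ((x - P) * (starRingEnd ℂ) d).re / a :=
    Complex.div_ofReal_re _ _
  have h1 : ‖y - P‖ ≤ ‖x - P‖ + a / 100 := by
    have : y - P = (x - P) - (x - y) := by ring
    rw [this]
    exact (norm_sub_le _ _).trans (by linarith)
  have h2 : ‖x - P‖ ≤ ‖y - P‖ + a / 100 := by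
    have : x - P = (y - P) + (x - y) := by ring
    rw [this]
    exact (norm_add_le _ _).trans (by linarith)
  have h3 : |((x - P) * (starRingEnd ℂ) d).re - ((y - P) * (starRingEnd ℂ) d).re| ≤ a / 100 := by
    have : ((x - P) * (starRingEnd ℂ) d).re - ((y - P) * (starRingEnd ℂ) d).re =
        ((x - y) * (starRingEnd ℂ) d).re := by
      rw [← Complex.sub_re]
      congr 1
      ring
    rw [this]
    refine (Complex.abs_re_le_norm _).trans ?_
    rw [norm_mul, RCLike.norm_conj, hd, mul_one]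
    exact hxy
  rw [abs_le] at h3
  norm_num at hy
  have h9 : 0.9 ≤ ‖(x - P) * (starRingEnd ℂ) d / a‖ := by
    rw [hw, le_div_iff₀ ha]
    norm_num
    linarith
  constructor
  · intro h
    have h5 : 0.45 * ‖(x - P) * (starRingEnd ℂ) d / a‖ ≤ ((x - P) * (starRingEnd ℂ) d / a).re := by
      rw [hw, hre, ← mul_div_assoc]
      apply div_le_div_of_nonneg_right _ ha.le
      generalize ((x - P) * (starRingEnd ℂ) d).re = RX at h3 ⊢
      generalize ((y - P) * (starRingEnd ℂ) d).re = RY at h3 h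
      norm_num at h ⊢
      linarith [h3.1]
    unfold hg
    rw [hXi.one _ h9 h5]
    ring
  · intro h
    have h5 : ((x - P) * (starRingEnd ℂ) d / a).re ≤ -0.45 * ‖(x - P) * (starRingEnd ℂ) d / a‖ := by
      rw [hw, hre, ← mul_div_assoc]
      apply div_le_div_of_nonneg_right _ ha.le
      generalize ((x - P) * (starRingEnd ℂ) d).re = RX at h3 ⊢
      generalize ((y - P) * (starRingEnd ℂ) d).re = RY at h3 h
      norm_num at h ⊢
      linarith [h3.2]
    unfold hg
    rw [hXi.zero _ h9 h5]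
    ring

theorem hx_good : hx.good := by
  have h3 : 0 < Real.sqrt 3 := Real.sqrt_pos.2 (by norm_num)
  have key : ∀ s r y : ℝ, y ^ 2 ≤ 4 * (s ^ 2 + s * r + r ^ 2) →
      |y| ≤ 2 * ‖(s : ℂ) * hx.τ + r * hx.σ‖ := by
    intro s r y h
    have h4 : (s : ℂ) * hx.τ + r * hx.σ = (s : ℂ) + (r : ℂ) * zt := by
      show (s : ℂ) * 1 + r * zt = _
      rw [mul_one]
    rw [h4]
    apply abs_le_of_sq_le_sq _ (by positivity)
    rw [mul_pow, ae_nsq]
    linarith
  refine ⟨?_, ?_, ?_, ?_⟩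
  · show 0 < (zt * (starRingEnd ℂ) 1).im
    rw [map_one, mul_one]
    show 0 < Real.sqrt 3 / 2
    positivity
  · intro s r
    exact key s r s (by nlinarith [sq_nonneg (s + 2 * r), sq_nonneg s])
  · intro s r
    exact key s r r (by nlinarith [sq_nonneg (2 * s + r), sq_nonneg r])
  · intro s r
    exact key s r (s + r) (by nlinarith [sq_nonneg (s - r), sq_nonneg (s + r)])

theorem cs_hx (x : ℂ) : hx.cs x = x.re - x.im / Real.sqrt 3 := by
  have h3 : 0 < Real.sqrt 3 := Real.sqrt_pos.2 (by norm_num)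
  have h : hx.cs x = ((x - 0) * (starRingEnd ℂ) zt).im / (1 * (starRingEnd ℂ) zt).im := rfl
  rw [h]
  simp only [zt, sub_zero, one_mul, Complex.mul_im, Complex.conj_re, Complex.conj_im]
  field_simp
  ring

theorem cr_hx (x : ℂ) : hx.cr x = 2 * x.im / Real.sqrt 3 := by
  have h3 : 0 < Real.sqrt 3 := Real.sqrt_pos.2 (by norm_num)
  have h : hx.cr x = ((x - 0) * (starRingEnd ℂ) 1).im / (zt * (starRingEnd ℂ) 1).im := rfl
  rw [h]
  simp only [zt, sub_zero, map_one, mul_one]
  field_simp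


end JS6b0
export JS6b0 (active_edge active_point hg_sector hx_good cs_hx cr_hx)

end Porous
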