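import Pool.Agent.Porous.KC3b
import Pool.Agent.Porous.KD
import Pool.Agent.Porous.KE
import Pool.Agent.Porous.S6b0

open MeasureTheory Complex Set
open scoped ContDiff ENNReal
noncomputable section
namespace Porous
namespace JKF

/-! TARGET -/

/-- kinematic part: a smooth periodic displacement that turns the average strain `I` into a trace free strain on the
solid part `{η ≤ dist(x, Γ)}` with small energy -/
theorem kin_final : ∃ K : ℝ, 0 < K ∧ ∀ (m : ℕ), 2 ≤ m → ∀ (a : ℝ), 0 < a → a ≤ 1 / (100 * (m : ℝ)) →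
    ∀ (η : ℝ), 0 < η → ∀ (b : Module.Basis (Fin 2) ℝ ℂ), b 0 = Lm m → b 1 = Lm m * zt →
    ∃ u : ℂ → ℂ, ContDiff ℝ ∞ u ∧ Per b u ∧
      (∀ x, η ≤ Metric.infDist x (Gam hx m a) → (1 + (fderiv ℝ u x 1).re) + (1 + (fderiv ℝ u x I).im) = 0) ∧
      ∫ x in {x | η ≤ Metric.infDist x (Gam hx m a)} ∩ ZSpan.fundamentalDomain b,
        (((1 + (fderiv ℝ u x 1).re) - (1 + (fderiv ℝ u x I).im)) ^ 2
          + 4 * (0 + ((fderiv ℝ u x 1).im + (fderiv ℝ u x I).re) / 2) ^ 2) ≤ K * (m : ℝ) ^ 7 * a ^ 2 := by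
  obtain ⟨K₁, hK₁, hmain⟩ := vfun_main
  obtain ⟨K₂, hK₂, hvol⟩ := volume_Zfull
  refine ⟨2 * K₁ ^ 2 * K₂ * (1024 / 3), by positivity, ?_⟩
  intro m hm a ha ha' η hη b hb0 hb1
  have hm0 : (2 : ℝ) ≤ m := by exact_mod_cast hm
  have hL : (0 : ℝ) < Lm m := by unfold Lm; positivity
  have hLC : ((Lm m : ℝ) : ℂ) ≠ 0 := by exact_mod_cast hL.ne'
  have h3 : (0 : ℝ) < Real.sqrt 3 := Real.sqrt_pos.2 (by norm_num)
  have h33 : Real.sqrt 3 * Real.sqrt 3 = 3 := Real.mul_self_sqrt (by norm_num)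
  set w : ℝ := -2 * (Lm m) ^ 2 / Real.sqrt 3 with hw
  have hwsq : w ^ 2 = 4 * (Lm m) ^ 4 / 3 := by
    rw [hw, div_pow, sq (Real.sqrt 3), h33]; ring
  have hsm : ∀ x, x ∉ Gam hx m a → ContDiffAt ℝ ∞ (vfun hx m a w) x := fun x hxG =>
    (hmain hx_good m hm a w ha ha' x hxG).1
  obtain ⟨u, hu1, hu2, hu3⟩ := trial hx_good m a w η hη hsm
  -- the linear part
  set phi : ℂ := (I * w / (Lm m : ℂ) ^ 2) * (zt - 2) with hphi
  have hzt : zt ^ 2 = zt - 1 := by
    apply Complex.ext
    · simp only [zt, sq, Complex.mul_re, Complex.sub_re, Complex.one_re]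
      nlinarith [h33]
    · simp only [zt, sq, Complex.mul_im, Complex.sub_im, Complex.one_im]
      ring
  have hphire : phi.re = 1 := by
    have e : phi = (((w / (Lm m) ^ 2 : ℝ)) : ℂ) * (I * (zt - 2)) := by
      rw [hphi]; push_cast; ring
    rw [e, Complex.re_ofReal_mul]
    have : (I * (zt - 2)).re = -(Real.sqrt 3 / 2) := by
      simp [zt]
    rw [this, hw]
    field_simp
  have hTr : ∀ y : ℂ, Tr hx m w (hx.cs y / Lm m) (hx.cr y / Lm m) = phi * y := by
    intro y
    have e := Frame.pt_cs_cr hx_good y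
    unfold Frame.pt at e
    have e1 : ((hx.cs y : ℝ) : ℂ) + (hx.cr y : ℂ) * zt = y := by
      have : hx.O + (hx.cs y : ℂ) * hx.τ + (hx.cr y : ℂ) * hx.σ = y := e
      simpa [hx] using this
    conv_rhs => rw [← e1]
    unfold Tr
    rw [hphi]
    have hτ : hx.τ = 1 := rfl
    have hσ : hx.σ = zt := rfl
    rw [hτ, hσ]
    push_cast
    field_simp
    have hz2 : zt * zt = zt - 1 := by rw [← sq]; exact hzt
    linear_combination (-(w : ℂ) * (hx.cr y : ℂ)) * hz2
  have hder : ∀ x, η ≤ Metric.infDist x (Gam hx m a) → ∀ h : ℂ,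
      fderiv ℝ u x h = fderiv ℝ (vfun hx m a w) x h - phi * h ∧ x ∉ Gam hx m a := by
    intro x hxd h
    have hxG : x ∉ Gam hx m a := by
      intro hxG
      rw [Metric.infDist_zero_of_mem hxG] at hxd
      linarith
    refine ⟨?_, hxG⟩
    have he := hu3 x hxd
    have he2 : u =ᶠ[nhds x] fun y => vfun hx m a w y - phi * y := by
      filter_upwards [he] with y hy
      rw [hy, hTr y]
    rw [he2.fderiv_eq]
    have hd1 : DifferentiableAt ℝ (vfun hx m a w) x := (hsm x hxG).differentiableAt (by simp)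
    have hd2 : HasFDerivAt (fun y : ℂ => phi * y) (phi • (ContinuousLinearMap.id ℝ ℂ)) x := by
      simpa using (hasFDerivAt_id (𝕜 := ℝ) x).const_mul phi
    have hd3 := hd1.hasFDerivAt.sub hd2
    have : HasFDerivAt (fun y => vfun hx m a w y - phi * y)
        (fderiv ℝ (vfun hx m a w) x - phi • (ContinuousLinearMap.id ℝ ℂ)) x := hd3
    rw [this.fderiv]
    simp
  have hkey : ∀ x, η ≤ Metric.infDist x (Gam hx m a) →
      (1 + (fderiv ℝ u x 1).re) = (fderiv ℝ (vfun hx m a w) x 1).re ∧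
      (1 + (fderiv ℝ u x I).im) = (fderiv ℝ (vfun hx m a w) x I).im ∧
      ((fderiv ℝ u x 1).im + (fderiv ℝ u x I).re) = sshe (vfun hx m a w) x := by
    intro x hxd
    have h1 := (hder x hxd 1).1
    have h2 := (hder x hxd I).1
    refine ⟨?_, ?_, ?_⟩
    · rw [h1, Complex.sub_re, mul_one, hphire]; ring
    · rw [h2, Complex.sub_im]
      have : (phi * I).im = phi.re := by simp
      rw [this, hphire]; ring
    · rw [h1, h2, Complex.sub_im, Complex.sub_re, mul_one]
      have : (phi * I).re = - phi.im := by simp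
      rw [this]; unfold sshe; ring
  refine ⟨u, hu1, ?_, ?_, ?_⟩
  · intro i x
    fin_cases i
    · have := hu2 1 0 x
      have e : (Lm m : ℂ) * (((1 : ℤ) : ℂ) * hx.τ + ((0 : ℤ) : ℂ) * hx.σ) = b 0 := by
        rw [hb0]; simp [hx]
      rw [e] at this
      exact this
    · have := hu2 0 1 x
      have e : (Lm m : ℂ) * (((0 : ℤ) : ℂ) * hx.τ + ((1 : ℤ) : ℂ) * hx.σ) = b 1 := by
        rw [hb1]; simp [hx]
      rw [e] at this
      exact this
  · intro x hxd
    obtain ⟨h1, h2, _⟩ := hkey x hxd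
    rw [h1, h2]
    exact (hmain hx_good m hm a w ha ha' x (hder x hxd 1).2).2.1
  · -- the energy
    have ha100 : a ≤ 1 / 100 := by
      refine ha'.trans ?_
      apply one_div_le_one_div_of_le (by norm_num)
      nlinarith
    have hvolZ := hvol hx_good rfl m hm a ha ha100 b (by rw [hb0]; simp [hx]) (by rw [hb1]; simp [hx])
    set S : Set ℂ := {x | η ≤ Metric.infDist x (Gam hx m a)} with hS
    set D : Set ℂ := ZSpan.fundamentalDomain b with hD
    have hSm : MeasurableSet S :=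
      (isClosed_le continuous_const (Metric.continuous_infDist_pt _)).measurableSet
    have hDm : MeasurableSet D := ZSpan.fundamentalDomain_measurableSet b
    have hSD : MeasurableSet (S ∩ D) := hSm.inter hDm
    set M : ℝ := 2 * (K₁ * |w| * m) ^ 2 with hM
    have hM0 : 0 ≤ M := by positivity
    set Z' : Set ℂ := toMeasurable volume (Zfull hx m a ∩ D) with hZ'
    have hZ'm : MeasurableSet Z' := measurableSet_toMeasurable _ _
    have hZ'v : volume Z' ≤ ENNReal.ofReal (K₂ * m * a ^ 2) := by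
      rw [hZ', measure_toMeasurable]; exact hvolZ
    have hZ'fin : volume Z' < ⊤ := hZ'v.trans_lt ENNReal.ofReal_lt_top
    have step1 : ∫ x in S ∩ D,
        (((1 + (fderiv ℝ u x 1).re) - (1 + (fderiv ℝ u x I).im)) ^ 2
          + 4 * (0 + ((fderiv ℝ u x 1).im + (fderiv ℝ u x I).re) / 2) ^ 2)
        ≤ ∫ x in S ∩ D, Z'.indicator (fun _ => M) x := by
      apply integral_mono_of_nonneg
      · exact Filter.Eventually.of_forall fun x => by positivity
      · rw [integrable_indicator_iff hZ'm]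
        have hs1 : (volume.restrict (S ∩ D)) Z' ≠ ⊤ :=
          ((Measure.restrict_apply_le _ _).trans_lt hZ'fin).ne
        have hs2 : ‖M‖ₑ ≠ ⊤ := by simp
        exact integrableOn_const hs1 hs2
      · refine (ae_restrict_iff' hSD).2 (Filter.Eventually.of_forall fun x hxSD => ?_)
        have hxd : η ≤ Metric.infDist x (Gam hx m a) := hxSD.1
        obtain ⟨h1, h2, h3'⟩ := hkey x hxd
        have hm5 := hmain hx_good m hm a w ha ha' x (hder x hxd 1).2
        have eq1 : (((1 + (fderiv ℝ u x 1).re) - (1 + (fderiv ℝ u x I).im)) ^ 2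
          + 4 * (0 + ((fderiv ℝ u x 1).im + (fderiv ℝ u x I).re) / 2) ^ 2)
            = (sdif (vfun hx m a w) x) ^ 2 + (sshe (vfun hx m a w) x) ^ 2 := by
          rw [h1, h2, h3']; unfold sdif; ring
        show (((1 + (fderiv ℝ u x 1).re) - (1 + (fderiv ℝ u x I).im)) ^ 2
          + 4 * (0 + ((fderiv ℝ u x 1).im + (fderiv ℝ u x I).re) / 2) ^ 2) ≤ _
        rw [eq1]
        by_cases hxZ : x ∈ Zfull hx m a
        · have hxZ' : x ∈ Z' := subset_toMeasurable _ _ ⟨hxZ, hxSD.2⟩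
          rw [Set.indicator_of_mem hxZ']
          have b1 := sq_le_sq' (by have := (abs_le.1 hm5.2.2.1).1; linarith) (abs_le.1 hm5.2.2.1).2
          have b2 := sq_le_sq' (by have := (abs_le.1 hm5.2.2.2.1).1; linarith) (abs_le.1 hm5.2.2.2.1).2
          rw [hM]; linarith
        · obtain ⟨z1, z2⟩ := hm5.2.2.2.2 hxZ
          rw [z1, z2]
          have : 0 ≤ Z'.indicator (fun _ => M) x := Set.indicator_nonneg (fun _ _ => hM0) x
          simpa using this
    refine step1.trans ?_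
    rw [integral_indicator_const M hZ'm, smul_eq_mul]
    have hreal : (volume.restrict (S ∩ D)).real Z' ≤ K₂ * m * a ^ 2 := by
      unfold Measure.real
      have : (volume.restrict (S ∩ D)) Z' ≤ ENNReal.ofReal (K₂ * m * a ^ 2) :=
        (Measure.restrict_apply_le _ _).trans hZ'v
      calc ((volume.restrict (S ∩ D)) Z').toReal ≤ (ENNReal.ofReal (K₂ * m * a ^ 2)).toReal :=
            ENNReal.toReal_mono ENNReal.ofReal_ne_top this
        _ = K₂ * m * a ^ 2 := ENNReal.toReal_ofReal (by positivity)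
    have hL4 : Lm m ≤ 4 * m := by unfold Lm; linarith
    have hL44 : (Lm m) ^ 4 ≤ (4 * m) ^ 4 := pow_le_pow_left₀ hL.le hL4 4
    have hMeq : M = 2 * K₁ ^ 2 * (4 * (Lm m) ^ 4 / 3) * m ^ 2 := by
      rw [hM, mul_pow, mul_pow, sq_abs, hwsq]; ring
    calc (volume.restrict (S ∩ D)).real Z' * M ≤ (K₂ * m * a ^ 2) * M :=
          mul_le_mul_of_nonneg_right hreal hM0
      _ = (K₂ * m * a ^ 2) * (2 * K₁ ^ 2 * (4 * (Lm m) ^ 4 / 3) * m ^ 2) := by rw [hMeq]
      _ ≤ (K₂ * m * a ^ 2) * (2 * K₁ ^ 2 * (4 * (4 * m) ^ 4 / 3) * m ^ 2) := by gcongr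
      _ = 2 * K₁ ^ 2 * K₂ * (1024 / 3) * (m : ℝ) ^ 7 * a ^ 2 := by ring


end JKF
export JKF (kin_final)

end Porous
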