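import Pool.Agent.Porous.K1

open MeasureTheory Complex Set
open scoped ContDiff ENNReal
noncomputable section
namespace Porous
namespace JS2

/-! TARGET -/

/-- the concrete hinge profile -/
def Xi0 (y : ℂ) : ℝ :=
  Real.smoothTransition ((‖y‖ ^ 2 - 1 / 4) / (1 / 2)) * Real.smoothTransition ((y.re / ‖y‖ + 0.45) / 0.9)

theorem Xi0_first {y : ℂ} (hy : 0.9 ≤ ‖y‖) : Real.smoothTransition ((‖y‖ ^ 2 - 1 / 4) / (1 / 2)) = 1 := by
  apply Real.smoothTransition.one_of_one_le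
  rw [le_div_iff₀ (by norm_num)]
  nlinarith

theorem Xi0_one (y : ℂ) (hy : 0.9 ≤ ‖y‖) (h : 0.45 * ‖y‖ ≤ y.re) : Xi0 y = 1 := by
  have hpos : 0 < ‖y‖ := lt_of_lt_of_le (by norm_num) hy
  unfold Xi0
  rw [Xi0_first hy, one_mul]
  apply Real.smoothTransition.one_of_one_le
  rw [le_div_iff₀ (by norm_num)]
  have : 0.45 ≤ y.re / ‖y‖ := by rw [le_div_iff₀ hpos]; exact h
  linarith

theorem Xi0_zero (y : ℂ) (hy : 0.9 ≤ ‖y‖) (h : y.re ≤ -0.45 * ‖y‖) : Xi0 y = 0 := by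
  have hpos : 0 < ‖y‖ := lt_of_lt_of_le (by norm_num) hy
  unfold Xi0
  rw [Xi0_first hy, one_mul]
  apply Real.smoothTransition.zero_of_nonpos
  apply div_nonpos_of_nonpos_of_nonneg _ (by norm_num)
  have : y.re / ‖y‖ ≤ -0.45 := by rw [div_le_iff₀ hpos]; exact h
  linarith

theorem Xi0_smooth : ContDiff ℝ ∞ Xi0 := by
  rw [contDiff_iff_contDiffAt]
  intro y
  by_cases hy : y = 0
  · subst hy
    have h0 : Xi0 =ᶠ[nhds 0] fun _ => (0 : ℝ) := by
      filter_upwards [Metric.ball_mem_nhds (0 : ℂ) (show (0 : ℝ) < 1 / 2 by norm_num)] with x hx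
      rw [mem_ball_zero_iff] at hx
      unfold Xi0
      rw [Real.smoothTransition.zero_of_nonpos, zero_mul]
      apply div_nonpos_of_nonpos_of_nonneg _ (by norm_num)
      nlinarith [norm_nonneg x]
    exact (contDiffAt_const).congr_of_eventuallyEq h0
  · have hn : ContDiffAt ℝ ∞ (fun y : ℂ => ‖y‖) y := contDiffAt_norm ℝ hy
    have hre : ContDiffAt ℝ ∞ (fun y : ℂ => y.re) y := Complex.reCLM.contDiff.contDiffAt
    have hn0 : ‖y‖ ≠ 0 := norm_ne_zero_iff.2 hy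
    have h1 : ContDiffAt ℝ ∞ (fun y : ℂ => Real.smoothTransition ((‖y‖ ^ 2 - 1 / 4) / (1 / 2))) y := by
      refine ContDiffAt.comp y (g := Real.smoothTransition) (f := fun y : ℂ => (‖y‖ ^ 2 - 1 / 4) / (1 / 2))
        Real.smoothTransition.contDiffAt ?_
      exact ((hn.pow 2).sub contDiffAt_const).div_const _
    have h2 : ContDiffAt ℝ ∞ (fun y : ℂ => Real.smoothTransition ((y.re / ‖y‖ + 0.45) / 0.9)) y := by
      refine ContDiffAt.comp y (g := Real.smoothTransition) (f := fun y : ℂ => (y.re / ‖y‖ + 0.45) / 0.9)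
        Real.smoothTransition.contDiffAt ?_
      exact ((hre.div hn hn0).add contDiffAt_const).div_const _
    exact h1.mul h2

theorem Xi0_homog {y : ℂ} (hy : 0.9 ≤ ‖y‖) {t : ℝ} (ht : 1 ≤ t) (hyt : 0.9 * t ≤ ‖y‖) : Xi0 (t⁻¹ • y) = Xi0 y := by
  have ht0 : 0 < t := by linarith
  have hn : ‖t⁻¹ • y‖ = t⁻¹ * ‖y‖ := by rw [norm_smul, Real.norm_of_nonneg (by positivity)]
  have h9 : 0.9 ≤ ‖t⁻¹ • y‖ := by
    rw [hn, inv_mul_eq_div, le_div_iff₀ ht0]; exact hyt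
  unfold Xi0
  rw [Xi0_first hy, Xi0_first h9, hn]
  have hre : (t⁻¹ • y).re = t⁻¹ * y.re := by simp
  rw [hre, mul_div_mul_left _ _ (by positivity)]

theorem Xi0_scale (k : ℕ) (y : ℂ) (hy : 1 ≤ ‖y‖) :
    ‖iteratedFDeriv ℝ k Xi0 y‖ ≤ ‖iteratedFDeriv ℝ k Xi0 (‖y‖⁻¹ • y)‖ * (‖y‖⁻¹) ^ k := by
  set t := ‖y‖ with ht
  have ht0 : 0 < t := by linarith
  let g : ℂ →L[ℝ] ℂ := t⁻¹ • ContinuousLinearMap.id ℝ ℂ
  have hg : ∀ x, g x = t⁻¹ • x := fun x => rfl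
  have hev : Xi0 =ᶠ[nhds y] Xi0 ∘ g := by
    have hopen : IsOpen {x : ℂ | 0.9 * t < ‖x‖} := isOpen_lt continuous_const continuous_norm
    have hmem : y ∈ {x : ℂ | 0.9 * t < ‖x‖} := by
      show 0.9 * t < ‖y‖
      rw [← ht]; linarith
    filter_upwards [hopen.mem_nhds hmem] with x hx
    have hx' : 0.9 * t < ‖x‖ := hx
    rw [Function.comp_apply, hg, Xi0_homog (by linarith) hy hx'.le]
  have h1 : iteratedFDeriv ℝ k Xi0 y = iteratedFDeriv ℝ k (Xi0 ∘ g) y := (hev.iteratedFDeriv ℝ k).eq_of_nhds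
  rw [h1, ContinuousLinearMap.iteratedFDeriv_comp_right g Xi0_smooth y (i := k) (by exact_mod_cast le_top)]
  refine (ContinuousMultilinearMap.norm_compContinuousLinearMap_le _ _).trans ?_
  rw [hg]
  refine mul_le_mul_of_nonneg_left ?_ (norm_nonneg _)
  have hgn : ‖g‖ ≤ t⁻¹ := by
    refine ContinuousLinearMap.opNorm_le_bound _ (by positivity) (fun x => ?_)
    rw [hg, norm_smul, Real.norm_of_nonneg (by positivity)]
  rw [Finset.prod_const, Finset.card_univ, Fintype.card_fin]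
  exact pow_le_pow_left₀ (norm_nonneg _) hgn k

theorem Xi0_ball (k : ℕ) : ∃ C, ∀ y : ℂ, ‖y‖ ≤ 1 → ‖iteratedFDeriv ℝ k Xi0 y‖ ≤ C := by
  have hc : Continuous (iteratedFDeriv ℝ k Xi0) :=
    ContDiff.continuous_iteratedFDeriv (by exact_mod_cast le_top) Xi0_smooth
  obtain ⟨C, hC⟩ := (isCompact_closedBall (0 : ℂ) 1).exists_bound_of_continuousOn hc.continuousOn
  exact ⟨C, fun y hy => hC y (mem_closedBall_zero_iff.2 hy)⟩

/-- hinge profile -/
theorem exists_Xi : ∃ (Xi : ℂ → ℝ) (K : ℝ), 0 < K ∧ XiOK Xi K := by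
  choose C hC using Xi0_ball
  obtain ⟨M, hM0, hM⟩ : ∃ M : ℝ, 0 < M ∧ ∀ k ≤ 2, C k ≤ M := by
    refine ⟨|C 0| + |C 1| + |C 2| + 1, by positivity, ?_⟩
    intro k hk
    have h0 := le_abs_self (C 0)
    have h1 := le_abs_self (C 1)
    have h2 := le_abs_self (C 2)
    have h0' := abs_nonneg (C 0)
    have h1' := abs_nonneg (C 1)
    have h2' := abs_nonneg (C 2)
    interval_cases k <;> linarith
  refine ⟨Xi0, 4 * M, by positivity, Xi0_smooth, Xi0_one, Xi0_zero, ?_⟩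
  intro k y hk
  have h4 : (2 : ℝ) ^ k ≤ 4 := by
    interval_cases k <;> norm_num
  rcases le_total ‖y‖ 1 with hy | hy
  · have hpos : 0 < (1 + ‖y‖) ^ k := by positivity
    rw [le_div_iff₀ hpos]
    have h1 : (1 + ‖y‖) ^ k ≤ 2 ^ k := pow_le_pow_left₀ (by positivity) (by linarith) k
    have h2 := (hC k y hy).trans (hM k hk)
    calc ‖iteratedFDeriv ℝ k Xi0 y‖ * (1 + ‖y‖) ^ k ≤ M * 4 :=
          mul_le_mul h2 (h1.trans h4) hpos.le hM0.le
      _ = 4 * M := by ring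
  · have ht0 : 0 < ‖y‖ := by linarith
    have hpos : 0 < (1 + ‖y‖) ^ k := by positivity
    have hn1 : ‖‖y‖⁻¹ • y‖ = 1 := by
      rw [norm_smul, norm_inv, norm_norm, inv_mul_cancel₀ ht0.ne']
    have h1 := Xi0_scale k y hy
    have h2 := (hC k (‖y‖⁻¹ • y) hn1.le).trans (hM k hk)
    rw [le_div_iff₀ hpos]
    have h3 : (1 + ‖y‖) ^ k ≤ 4 * ‖y‖ ^ k := by
      calc (1 + ‖y‖) ^ k ≤ (2 * ‖y‖) ^ k := pow_le_pow_left₀ (by positivity) (by linarith) k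
        _ = 2 ^ k * ‖y‖ ^ k := mul_pow _ _ _
        _ ≤ 4 * ‖y‖ ^ k := mul_le_mul_of_nonneg_right h4 (by positivity)
    calc ‖iteratedFDeriv ℝ k Xi0 y‖ * (1 + ‖y‖) ^ k ≤ (M * (‖y‖⁻¹) ^ k) * (4 * ‖y‖ ^ k) := by
          refine mul_le_mul (h1.trans ?_) h3 hpos.le (by positivity)
          exact mul_le_mul_of_nonneg_right h2 (by positivity)
      _ = 4 * M * (‖y‖⁻¹ * ‖y‖) ^ k := by rw [mul_pow]; ring
      _ = 4 * M := by rw [inv_mul_cancel₀ ht0.ne', one_pow, mul_one]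


end JS2
export JS2 (exists_Xi)

end Porous
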