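import Pool.Agent.Porous.K1

open MeasureTheory Complex Set
open scoped ContDiff ENNReal
noncomputable section
namespace Porous
namespace JGI


theorem zt_sq' : zt ^ 2 = zt - 1 := by
  have h3 : Real.sqrt 3 * Real.sqrt 3 = 3 := Real.mul_self_sqrt (by norm_num)
  apply Complex.ext
  · simp [zt, pow_two]
    nlinarith
  · simp [zt, pow_two]
    ring

theorem zt_cube' : zt ^ 3 = -1 := by
  have h := zt_sq'
  calc zt ^ 3 = zt * zt ^ 2 := by ring
    _ = zt ^ 2 - zt := by rw [h]; ring_nf; rw [h]; ring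
    _ = -1 := by rw [h]; ring

theorem zt_conj : zt * (starRingEnd ℂ) zt = 1 := by
  have h3 : Real.sqrt 3 * Real.sqrt 3 = 3 := Real.mul_self_sqrt (by norm_num)
  rw [Complex.mul_conj]
  have : Complex.normSq zt = 1 := by
    simp [zt, Complex.normSq_apply]
    nlinarith
  rw [this]
  norm_num

theorem zt_norm : ‖zt‖ = 1 := by
  have h := congrArg (fun z => ‖z‖) zt_conj
  simp only [norm_mul, RCLike.norm_conj, norm_one] at h
  have h0 := norm_nonneg zt
  nlinarith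

/-- image of a frame under `x ↦ ζ² x + L` -/
def rotF (m : ℕ) (F : Frame) : Frame := ⟨zt ^ 2 * F.O + Lm m, zt ^ 2 * F.τ, zt ^ 2 * F.σ⟩

theorem rotF_pt (m : ℕ) (F : Frame) (s r : ℝ) :
    (rotF m F).pt s r = zt ^ 2 * F.pt s r + Lm m := by
  unfold rotF Frame.pt
  ring

theorem conj_fac (z w : ℂ) : (zt ^ 2 * z) * (starRingEnd ℂ) (zt ^ 2 * w) = z * (starRingEnd ℂ) w := by
  have h := zt_conj
  rw [map_mul, map_pow]
  calc (zt ^ 2 * z) * ((starRingEnd ℂ) zt ^ 2 * (starRingEnd ℂ) w)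
      = (zt * (starRingEnd ℂ) zt) ^ 2 * (z * (starRingEnd ℂ) w) := by ring
    _ = _ := by rw [h]; ring

theorem rotF_cs (m : ℕ) (F : Frame) (x : ℂ) : (rotF m F).cs (zt ^ 2 * x + Lm m) = F.cs x := by
  unfold rotF Frame.cs
  have h1 : zt ^ 2 * x + Lm m - (zt ^ 2 * F.O + Lm m) = zt ^ 2 * (x - F.O) := by ring
  simp only
  rw [h1, conj_fac, conj_fac]

theorem rotF_cr (m : ℕ) (F : Frame) (x : ℂ) : (rotF m F).cr (zt ^ 2 * x + Lm m) = F.cr x := by
  unfold rotF Frame.cr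
  have h1 : zt ^ 2 * x + Lm m - (zt ^ 2 * F.O + Lm m) = zt ^ 2 * (x - F.O) := by ring
  simp only
  rw [h1, conj_fac, conj_fac]

theorem rot_norm (m : ℕ) (x y : ℂ) : ‖(zt ^ 2 * x + Lm m) - (zt ^ 2 * y + Lm m)‖ = ‖x - y‖ := by
  have h1 : (zt ^ 2 * x + Lm m) - (zt ^ 2 * y + Lm m) = zt ^ 2 * (x - y) := by ring
  rw [h1, norm_mul, norm_pow, zt_norm, one_pow, one_mul]

theorem sideG_rotF (m : ℕ) (a : ℝ) (F : Frame) (x : ℂ) :
    zt ^ 2 * x + Lm m ∈ sideG (rotF m F) m a ↔ x ∈ sideG F m a := by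
  have hN : ∀ j, (rotF m F).N j = zt ^ 2 * F.N j + Lm m := fun j => rotF_pt m F _ _
  have hD : ∀ j, (rotF m F).D j = zt ^ 2 * F.D j + Lm m := fun j => rotF_pt m F _ _
  have hU : ∀ j, (rotF m F).U m j = zt ^ 2 * F.U m j + Lm m := fun j => rotF_pt m F _ _
  unfold sideG
  simp only [Set.mem_union, Set.mem_ofPred_eq, rotF_cs, rotF_cr, hN, hD, hU, rot_norm]

theorem next1 (m : ℕ) : hx.next (Lm m) = rotF m hx := by
  have h2 := zt_sq'
  have h3 := zt_cube'
  unfold rotF Frame.next hx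
  apply Frame.ext
  · simp
  · simp only [mul_one]
    rw [h2]
  · simp only
    rw [← h3]
    ring

theorem next2 (m : ℕ) : (hx.next (Lm m)).next (Lm m) = rotF m (hx.next (Lm m)) := by
  have h2 := zt_sq'
  unfold rotF Frame.next hx
  apply Frame.ext
  · simp only
    rw [h2]
    ring
  · simp only
    linear_combination -(zt) * h2
  · simp only
    rw [h2]
    ring

theorem next3 (m : ℕ) : hx = rotF m ((hx.next (Lm m)).next (Lm m)) := by
  have h2 := zt_sq'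
  unfold rotF Frame.next hx
  apply Frame.ext
  · simp only
    linear_combination -(Lm m : ℂ) * (zt + 1) * h2
  · simp only
    linear_combination (zt + 1) * h2
  · simp only
    linear_combination (zt) * h2

/-- the union of the three sides -/
def SS (m : ℕ) (a : ℝ) : Set ℂ :=
  sideG hx m a ∪ sideG (hx.next (Lm m)) m a ∪ sideG ((hx.next (Lm m)).next (Lm m)) m a

theorem mem_Gam_iff (m : ℕ) (a : ℝ) (x : ℂ) :
    x ∈ Gam hx m a ↔ ∃ t : ℤ × ℤ, x - Lm m * lp t ∈ SS m a := by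
  unfold Gam SS lp
  rw [Set.mem_ofPred_eq]
  have h1 : hx.τ = 1 := rfl
  have h2 : hx.σ = zt := rfl
  constructor
  · rintro ⟨t₁, t₂, h⟩
    refine ⟨(t₁, t₂), ?_⟩
    rw [h1, h2, mul_one] at h
    exact h
  · rintro ⟨⟨t₁, t₂⟩, h⟩
    refine ⟨t₁, t₂, ?_⟩
    rw [h1, h2, mul_one]
    exact h

/-! TARGET -/

/-- the frames of the other two sides are the images of the first one under the rotation `x ↦ ζ² x + L` -/
theorem sideG_rot (m : ℕ) (a : ℝ) (x : ℂ) :
    (zt ^ 2 * x + Lm m ∈ sideG (hx.next (Lm m)) m a ↔ x ∈ sideG hx m a) ∧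
    (zt ^ 2 * x + Lm m ∈ sideG ((hx.next (Lm m)).next (Lm m)) m a ↔ x ∈ sideG (hx.next (Lm m)) m a) ∧
    (zt ^ 2 * x + Lm m ∈ sideG hx m a ↔ x ∈ sideG ((hx.next (Lm m)).next (Lm m)) m a) := by
  refine ⟨?_, ?_, ?_⟩
  · have := sideG_rotF m a hx x
    rwa [← next1] at this
  · have := sideG_rotF m a (hx.next (Lm m)) x
    rwa [← next2] at this
  · have := sideG_rotF m a ((hx.next (Lm m)).next (Lm m)) x
    rwa [← next3] at this

theorem SS_rot (m : ℕ) (a : ℝ) (x : ℂ) : zt ^ 2 * x + Lm m ∈ SS m a ↔ x ∈ SS m a := by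
  obtain ⟨h1, h2, h3⟩ := sideG_rot m a x
  unfold SS
  rw [Set.mem_union, Set.mem_union, Set.mem_union, Set.mem_union, h1, h2, h3]
  tauto
/-- the crack set is invariant under the rotation `x ↦ ζ² x + L` and under the lattice -/
theorem Gam_rot (m : ℕ) (a : ℝ) (x : ℂ) : zt ^ 2 * x + Lm m ∈ Gam hx m a ↔ x ∈ Gam hx m a := by
  have h2 := zt_sq'
  rw [mem_Gam_iff, mem_Gam_iff]
  have key : ∀ t : ℤ × ℤ, zt ^ 2 * x + Lm m - Lm m * lp (-t.1 - t.2, t.1) =
      zt ^ 2 * (x - Lm m * lp t) + Lm m := by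
    rintro ⟨t₁, t₂⟩
    unfold lp
    push_cast
    linear_combination ((Lm m : ℂ) * (t₁ + t₂ * (zt + 1))) * h2
  constructor
  · rintro ⟨⟨s₁, s₂⟩, h⟩
    refine ⟨(s₂, -s₁ - s₂), ?_⟩
    rw [← SS_rot, ← key]
    have : ((-s₂ - (-s₁ - s₂), s₂) : ℤ × ℤ) = (s₁, s₂) := by
      refine Prod.ext ?_ rfl
      simp only
      ring
    simp only
    rw [this]
    exact h
  · rintro ⟨t, h⟩
    refine ⟨(-t.1 - t.2, t.1), ?_⟩
    rw [key, SS_rot]
    exact h
theorem Gam_per (m : ℕ) (a : ℝ) (n : ℤ × ℤ) (x : ℂ) : x + Lm m * lp n ∈ Gam hx m a ↔ x ∈ Gam hx m a := by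
  rw [mem_Gam_iff, mem_Gam_iff]
  constructor
  · rintro ⟨t, h⟩
    refine ⟨t - n, ?_⟩
    have : x - Lm m * lp (t - n) = x + Lm m * lp n - Lm m * lp t := by
      unfold lp
      simp only [Prod.fst_sub, Prod.snd_sub]
      push_cast
      ring
    rw [this]
    exact h
  · rintro ⟨t, h⟩
    refine ⟨t + n, ?_⟩
    have : x + Lm m * lp n - Lm m * lp (t + n) = x - Lm m * lp t := by
      unfold lp
      simp only [Prod.fst_add, Prod.snd_add]
      push_cast
      ring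
    rw [this]
    exact h


end JGI
export JGI (sideG_rot Gam_rot Gam_per)

end Porous
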