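import Pool.Agent.Porous.K1

open MeasureTheory Complex Set
open scoped ContDiff ENNReal
noncomputable section
namespace Porous
namespace JS5a

/-! TARGET -/

theorem zt_re : zt.re = 1 / 2 := rfl
theorem zt_im : zt.im = Real.sqrt 3 / 2 := rfl
theorem s3 : Real.sqrt 3 * Real.sqrt 3 = 3 := Real.mul_self_sqrt (by norm_num)
theorem s3pos : 0 < Real.sqrt 3 := Real.sqrt_pos.2 (by norm_num)

theorem zt2 : zt ^ 2 = zt - 1 := by
  apply Complex.ext
  · rw [pow_two, Complex.mul_re, Complex.sub_re, Complex.one_re, zt_re, zt_im]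
    have := s3
    linarith
  · rw [pow_two, Complex.mul_im, Complex.sub_im, Complex.one_im, zt_re, zt_im]
    ring

theorem zt3 : zt ^ 3 = -1 := by
  linear_combination (zt + 1) * zt2

theorem hx_pt (s r : ℝ) : hx.pt s r = s + r * zt := by
  show (0 : ℂ) + s * 1 + r * zt = s + r * zt
  ring

theorem csx (x : ℂ) : hx.cs x = x.re - x.im / Real.sqrt 3 := by
  have h := s3pos
  show ((x - 0) * (starRingEnd ℂ) zt).im / ((1 : ℂ) * (starRingEnd ℂ) zt).im =
    x.re - x.im / Real.sqrt 3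
  rw [sub_zero, one_mul, Complex.mul_im, Complex.conj_re, Complex.conj_im, zt_re, zt_im]
  field_simp
  ring

theorem crx (x : ℂ) : hx.cr x = 2 * x.im / Real.sqrt 3 := by
  have h := s3pos
  show ((x - 0) * (starRingEnd ℂ) (1 : ℂ)).im / (zt * (starRingEnd ℂ) (1 : ℂ)).im =
    2 * x.im / Real.sqrt 3
  rw [sub_zero, map_one, mul_one, mul_one, zt_im]
  field_simp

theorem cs_pt' (s r : ℝ) : hx.cs (hx.pt s r) = s := by
  have h := s3pos
  rw [csx, hx_pt]
  simp only [Complex.add_re, Complex.add_im, Complex.mul_re, Complex.mul_im, Complex.ofReal_re,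
    Complex.ofReal_im, zt_re, zt_im]
  field_simp
  ring

theorem cr_pt' (s r : ℝ) : hx.cr (hx.pt s r) = r := by
  have h := s3pos
  rw [crx, hx_pt]
  simp only [Complex.add_im, Complex.mul_im, Complex.ofReal_re,
    Complex.ofReal_im, zt_im]
  field_simp
  ring

theorem cs_D (i : ℕ) : hx.cs (hx.D i) = 2 * (i : ℝ) + 1 := cs_pt' _ _
theorem cr_D (i : ℕ) : hx.cr (hx.D i) = 1 := cr_pt' _ _
theorem cs_N (j : ℕ) : hx.cs (hx.N j) = (j : ℝ) + 2 := cs_pt' _ _
theorem cr_N (j : ℕ) : hx.cr (hx.N j) = 0 := cr_pt' _ _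
theorem cs_U (m i : ℕ) : hx.cs (hx.U m i) = 2 * (i : ℝ) + 3 := cs_pt' _ _
theorem cr_U (m i : ℕ) : hx.cr (hx.U m i) = -1 + dl m := cr_pt' _ _

theorem Lm_pos (m : ℕ) : 0 < Lm m := by
  unfold Lm
  positivity

theorem dl_Lm (m : ℕ) : dl m * Lm m = 1 := by
  unfold dl
  have := (Lm_pos m).ne'
  field_simp

theorem dl_lt (m : ℕ) : 1 - dl m ≠ 0 := by
  have h1 := dl_Lm m
  intro h
  have h2 : dl m = 1 := by linarith
  rw [h2, one_mul] at h1
  unfold Lm at h1
  have : (0 : ℝ) ≤ m := Nat.cast_nonneg m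
  linarith

theorem aN_even (m : ℕ) (c : ℂ) (i : ℕ) : aN m c (2 * i) = (aU m c i + aD m c i) / 2 + gam c := by
  unfold aN
  rw [show 2 * i / 2 = i by omega, show (2 * i + 1) / 2 = i by omega]

theorem aN_odd (m : ℕ) (c : ℂ) (i : ℕ) :
    aN m c (2 * i + 1) = (aU m c i + aD m c (i + 1)) / 2 + gam c := by
  unfold aN
  rw [show (2 * i + 1) / 2 = i by omega, show (2 * i + 1 + 1) / 2 = i + 1 by omega]

theorem bp_values (m : ℕ) (hm : 2 ≤ m) (c : ℂ) (i : ℕ) (hi : i < m) :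
    bp m c i (hx.D i) = aD m c i ∧ bp m c i (hx.D (i + 1)) = aD m c (i + 1) ∧
    bp m c i (hx.N (2 * i)) = aN m c (2 * i) ∧ bp m c i (hx.N (2 * i + 1)) = aN m c (2 * i + 1) := by
  refine ⟨?_, ?_, ?_, ?_⟩
  · unfold bp
    rw [cs_D, cr_D]
    ring
  · unfold bp
    rw [cs_D, cr_D]
    push_cast
    ring
  · unfold bp
    rw [cs_N, cr_N]
    push_cast
    ring
  · unfold bp
    rw [cs_N, cr_N, aN_odd, aN_even]
    push_cast
    ring

theorem lM_eq (m : ℕ) (c x : ℂ) :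
    lM m c x = (c * (2 * (Lm m : ℂ) * x - (Lm m : ℂ) ^ 2)).re := by
  have h : c * (2 * (Lm m : ℂ) * x - (Lm m : ℂ) ^ 2) =
      c * (Lm m : ℂ) ^ 2 + ((2 : ℝ) : ℂ) * (c * (Lm m : ℂ) * (x - Lm m)) := by
    push_cast
    ring
  rw [h, Complex.add_re, Complex.re_ofReal_mul]
  rfl

theorem wp_values (m : ℕ) (hm : 2 ≤ m) (c : ℂ) (i : ℕ) (hi : i < m) :
    wp m c i (hx.N (2 * i)) = aN m c (2 * i) ∧ wp m c (i + 1) (hx.N (2 * i + 1)) = aN m c (2 * i + 1) ∧
    wp m c i (hx.U m i) = aU m c i ∧ wp m c (i + 1) (hx.U m i) = aU m c i := by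
  have hd := dl_lt m
  refine ⟨?_, ?_, ?_, ?_⟩
  · unfold wp
    split_ifs with h1 h2
    · subst h1
      rw [aN_even]
      simp [aU, aD]
      ring
    · omega
    · rw [cs_N, cr_N]
      push_cast
      ring
  · unfold wp
    rw [if_neg (by omega)]
    split_ifs with h2
    · have hi0 : i ≠ 0 := by omega
      have hm0 : m ≠ 0 := by omega
      rw [aN_odd, h2]
      unfold aU aD
      rw [if_neg hi0, if_pos h2, if_neg hm0, if_pos rfl]
      rw [lM_eq, lM_eq, lM_eq]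
      have e : hx.U m i + (hx.D m - dl m * zt) = 2 * hx.N (2 * i + 1) := by
        unfold Frame.U Frame.D Frame.N
        rw [hx_pt, hx_pt, hx_pt, ← h2]
        have : dl (i + 1) = 1 / (2 * ((i + 1 : ℕ) : ℝ) + 3) := rfl
        rw [this]
        push_cast
        ring
      have e2 : (c * (2 * (Lm m : ℂ) * hx.N (2 * i + 1) - (Lm m : ℂ) ^ 2)).re * 2 =
          (c * (2 * (Lm m : ℂ) * hx.U m i - (Lm m : ℂ) ^ 2)).re +
          (c * (2 * (Lm m : ℂ) * (hx.D m - dl m * zt) - (Lm m : ℂ) ^ 2)).re := by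
        rw [← Complex.add_re]
        have : c * (2 * (Lm m : ℂ) * hx.U m i - (Lm m : ℂ) ^ 2) +
            c * (2 * (Lm m : ℂ) * (hx.D m - dl m * zt) - (Lm m : ℂ) ^ 2) =
            c * (2 * (Lm m : ℂ) * hx.N (2 * i + 1) - (Lm m : ℂ) ^ 2) * ((2 : ℝ) : ℂ) := by
          push_cast
          linear_combination (c * 2 * (Lm m : ℂ)) * e
        rw [this, Complex.re_mul_ofReal]
      linarith
    · rw [cs_N, cr_N, aN_even, aN_odd, Nat.add_sub_cancel]
      push_cast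
      ring
  · unfold wp
    split_ifs with h1 h2
    · subst h1
      simp [aU]
    · omega
    · rw [cs_U, cr_U]
      field_simp
      ring
  · unfold wp
    rw [if_neg (by omega)]
    split_ifs with h2
    · unfold aU
      rw [if_neg (by omega), if_pos h2]
    · rw [cs_U, cr_U, Nat.add_sub_cancel]
      push_cast
      field_simp
      ring

theorem qf_tangent (m : ℕ) (c x : ℂ) :
    lM m c x = qf c x - qf c (x - Lm m) ∧ lM m c x = qf c x - qf (c * zt ^ 4) (zt ^ 4 * (x - Lm m)) := by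
  have h1 : lM m c x = qf c x - qf c (x - Lm m) := by
    rw [lM_eq]
    unfold qf
    rw [← Complex.sub_re]
    congr 1
    ring
  refine ⟨h1, ?_⟩
  rw [h1]
  congr 1
  unfold qf
  congr 1
  have h12 : zt ^ 12 = 1 := by
    rw [show (12 : ℕ) = 3 * 4 by norm_num, pow_mul, zt3]
    norm_num
  linear_combination (-(c * (x - Lm m) ^ 2)) * h12

/-- the last black plane of a side agrees with the `previous plane` of the next side -/
theorem closing (m : ℕ) (hm : 2 ≤ m) (c x : ℂ) :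
    lM m c x + bL m (c * zt ^ 4) (zt ^ 4 * (x - Lm m)) = bp m c (m - 1) x := by
  have h6 : zt ^ 6 = 1 := by
    rw [show (6 : ℕ) = 3 * 2 by norm_num, pow_mul, zt3]
    norm_num
  unfold bL
  have e1 : c * zt ^ 4 * zt ^ 2 = c := by linear_combination c * h6
  have e2 : zt ^ 2 * (zt ^ 4 * (x - Lm m)) + Lm m = x := by
    linear_combination (x - Lm m) * h6
  rw [e1, e2]
  have e3 : lM m c x + (qf (c * zt ^ 4) (Lm m * zt) + 2 * (c * zt ^ 4 * (Lm m * zt) *
      (zt ^ 4 * (x - Lm m) - Lm m * zt)).re) = 0 := by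
    rw [lM_eq]
    unfold qf
    rw [← Complex.re_ofReal_mul, ← Complex.add_re, ← Complex.add_re]
    have : c * (2 * (Lm m : ℂ) * x - (Lm m : ℂ) ^ 2) + (c * zt ^ 4 * (Lm m * zt) ^ 2 +
        ((2 : ℝ) : ℂ) * (c * zt ^ 4 * (Lm m * zt) * (zt ^ 4 * (x - Lm m) - Lm m * zt))) = 0 := by
      have h9 : zt ^ 9 = -1 := by
        rw [show (9 : ℕ) = 3 * 3 by norm_num, pow_mul, zt3]
        norm_num
      push_cast
      linear_combination (2 * c * (Lm m : ℂ) * (x - Lm m)) * h9 - (c * (Lm m : ℂ) ^ 2) * h6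
    rw [this, Complex.zero_re]
  linarith

theorem bL_value (m : ℕ) (hm : 2 ≤ m) (c : ℂ) : bL m c (hx.D 0) = aD m c 0 := by
  have hDm : zt ^ 2 * hx.D 0 + Lm m = hx.D m := by
    unfold Frame.D Lm
    rw [hx_pt, hx_pt]
    push_cast
    linear_combination zt2 + zt3
  unfold bL
  rw [hDm]
  have hb := (bp_values m hm (c * zt ^ 2) (m - 1) (by omega)).2.1
  rw [Nat.sub_add_cancel (by omega : 1 ≤ m)] at hb
  rw [hb]
  unfold aD
  rw [if_neg (by omega), if_pos rfl, if_pos rfl, lM_eq]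
  unfold gam qf
  have hD0 : hx.D 0 = 1 + zt := by
    unfold Frame.D
    rw [hx_pt]
    push_cast
    ring
  have hDm' : hx.D m = (Lm m : ℂ) - 2 + zt := by
    unfold Frame.D Lm
    rw [hx_pt]
    push_cast
    ring
  have hdL : ((dl m : ℝ) : ℂ) * ((Lm m : ℝ) : ℂ) = 1 := by
    rw [← Complex.ofReal_mul, dl_Lm, Complex.ofReal_one]
  rw [hD0, hDm']
  have key : (c * ((Lm m : ℂ) * zt) ^ 2) + 2 * (c * ((Lm m : ℂ) * zt) * (1 + zt - (Lm m : ℂ) * zt)) +
      c * zt ^ 2 * (2 * (Lm m : ℂ) * ((Lm m : ℂ) - 2 + zt - (dl m : ℂ) * zt) - (Lm m : ℂ) ^ 2) +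
      (2 / 3) * (c * zt ^ 2 + c * zt ^ 2 * zt) = (2 / 3) * (c + c * zt) := by
    have h2 := zt2
    have h3 := zt3
    generalize zt = z at *
    generalize ((Lm m : ℝ) : ℂ) = l at *
    generalize ((dl m : ℝ) : ℂ) = d at *
    grind
  have k2 := congrArg Complex.re key
  simp only [Complex.add_re] at k2
  have r2 : ∀ z : ℂ, ((2 : ℂ) * z).re = 2 * z.re := by intro z; simp
  have r3 : ∀ z : ℂ, ((2 / 3 : ℂ) * z).re = 2 / 3 * z.re := by
    intro z
    have : ((2 / 3 : ℂ) * z) = ((2 / 3 : ℝ) : ℂ) * z := by push_cast; ring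
    rw [this, Complex.re_ofReal_mul]
  rw [r2, r3, r3] at k2
  simp only [Complex.add_re] at k2
  linarith

theorem planes_affine (m : ℕ) (c : ℂ) (i : ℕ) :
    (∃ (α : ℝ) (g : ℂ), ∀ x, bp m c i x = α + (g * x).re) ∧ (∃ (α : ℝ) (g : ℂ), ∀ x, wp m c i x = α + (g * x).re) ∧
    (∃ (α : ℝ) (g : ℂ), ∀ x, bL m c x = α + (g * x).re) ∧ (∃ (α : ℝ) (g : ℂ), ∀ x, lM m c x = α + (g * x).re) := by
  have haff : ∀ A B C : ℝ, ∃ (α : ℝ) (g : ℂ), ∀ x, A + B * hx.cs x + C * hx.cr x =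
      α + (g * x).re := by
    intro A B C
    refine ⟨A, ⟨B, B / Real.sqrt 3 - 2 * C / Real.sqrt 3⟩, fun x => ?_⟩
    rw [csx, crx, Complex.mul_re]
    ring
  have hbp : ∀ c i, ∃ (α : ℝ) (g : ℂ), ∀ x, bp m c i x = α + (g * x).re := by
    intro c i
    obtain ⟨α, g, h⟩ := haff (aD m c i - (aD m c (i + 1) - aD m c i) / 2 * (2 * (i : ℝ) + 1) -
      ((aD m c i + aD m c (i + 1)) / 2 - aN m c (2 * i))) ((aD m c (i + 1) - aD m c i) / 2)
      ((aD m c i + aD m c (i + 1)) / 2 - aN m c (2 * i))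
    refine ⟨α, g, fun x => ?_⟩
    rw [← h x]
    unfold bp
    ring
  have hlM : ∃ (α : ℝ) (g : ℂ), ∀ x, lM m c x = α + (g * x).re := by
    refine ⟨-(c * (Lm m : ℂ) ^ 2).re, c * (2 * (Lm m : ℂ)), fun x => ?_⟩
    rw [lM_eq, ← Complex.neg_re, ← Complex.add_re]
    congr 1
    ring
  refine ⟨hbp c i, ?_, ?_, hlM⟩
  · by_cases h1 : i = 0
    · exact ⟨0, 0, fun x => by simp [wp, h1]⟩
    · by_cases h2 : i = m
      · obtain ⟨α, g, h⟩ := hlM
        refine ⟨α, g, fun x => ?_⟩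
        rw [← h x]
        unfold wp
        rw [if_neg h1, if_pos h2]
      · obtain ⟨α, g, h⟩ := haff (aN m c (2 * i) -
          (aU m c i - aU m c (i - 1)) / 2 * (2 * (i : ℝ) + 2))
          ((aU m c i - aU m c (i - 1)) / 2)
          ((aN m c (2 * i) - (aU m c i + aU m c (i - 1)) / 2) / (1 - dl m))
        refine ⟨α, g, fun x => ?_⟩
        rw [← h x]
        unfold wp
        rw [if_neg h1, if_neg h2]
        ring
  · obtain ⟨α, g, h⟩ := hbp (c * zt ^ 2) (m - 1)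
    refine ⟨α + (c * (Lm m * zt) ^ 2).re + (-(((2 : ℝ) : ℂ) * (c * (Lm m * zt) * (Lm m * zt)))).re +
      (g * Lm m).re, ((2 : ℝ) : ℂ) * (c * (Lm m * zt)) + g * zt ^ 2, fun x => ?_⟩
    unfold bL
    rw [h, ← Complex.re_ofReal_mul]
    unfold qf
    have e : (g * (zt ^ 2 * x + (Lm m : ℂ))).re = (g * zt ^ 2 * x).re + (g * Lm m).re := by
      rw [← Complex.add_re]; congr 1; ring
    have e2 : (((2 : ℝ) : ℂ) * (c * ((Lm m : ℂ) * zt) * (x - (Lm m : ℂ) * zt))).re =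
        (((2 : ℝ) : ℂ) * (c * (Lm m * zt)) * x).re +
        (-(((2 : ℝ) : ℂ) * (c * (Lm m * zt) * (Lm m * zt)))).re := by
      rw [← Complex.add_re]; congr 1; ring
    rw [e, e2, add_mul, Complex.add_re]
    ring


end JS5a
export JS5a (bp_values wp_values bL_value closing qf_tangent planes_affine)

end Porous
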