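import Pool.Agent.Porous.S0
import Pool.Agent.Porous.S5a

open MeasureTheory Complex Set
open scoped ContDiff ENNReal
noncomputable section
namespace Porous
namespace JS6c2

/-! TARGET -/

theorem lp_add' (s t : ℤ × ℤ) : lp (s + t) = lp s + lp t := by
  simp only [lp, Prod.fst_add, Prod.snd_add]
  push_cast
  ring

theorem zt_sq' : zt ^ 2 = zt - 1 := by
  have h3 : Real.sqrt 3 * Real.sqrt 3 = 3 := Real.mul_self_sqrt (by norm_num)
  rw [sq]
  apply Complex.ext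
  · simp only [zt, Complex.mul_re, Complex.sub_re, Complex.one_re]
    nlinarith [h3]
  · simp only [zt, Complex.mul_im, Complex.sub_im, Complex.one_im]
    ring

theorem zt_cub' : zt ^ 3 = -1 := by
  have h := zt_sq'
  calc zt ^ 3 = zt ^ 2 * zt := by ring
    _ = (zt - 1) * zt := by rw [h]
    _ = zt ^ 2 - zt := by ring
    _ = -1 := by rw [h]; ring

theorem zt_four' : zt ^ 4 = -zt := by
  calc zt ^ 4 = zt ^ 3 * zt := by ring
    _ = -zt := by rw [zt_cub']; ring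

theorem zt_six' : zt ^ 6 = 1 := by
  calc zt ^ 6 = (zt ^ 3) ^ 2 := by ring
    _ = 1 := by rw [zt_cub']; ring

/-- rotation of the lattice -/
def RR' : (ℤ × ℤ) ≃ (ℤ × ℤ) where
  toFun s := (-s.1 - s.2, s.1)
  invFun t := (t.2, -t.1 - t.2)
  left_inv s := by
    ext
    · simp
    · simp only; ring
  right_inv t := by
    ext
    · simp only; ring
    · simp

theorem lp_RR' (s : ℤ × ℤ) : lp (RR' s) = zt ^ 2 * lp s := by
  have h := zt_sq'
  simp only [lp, RR', Equiv.coe_fn_mk]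
  have h2 : zt ^ 2 * ((s.1 : ℂ) + (s.2 : ℂ) * zt) = zt ^ 2 * s.1 + zt ^ 3 * s.2 := by ring
  rw [h2, zt_cub', h]
  push_cast
  ring

theorem lp_rotL' (m : ℕ) (p : ℤ × ℤ) : lp (rotL m p) = zt ^ 2 * lp p + Lm m := by
  have h := zt_sq'
  simp only [lp, rotL, Lm]
  have h2 : zt ^ 2 * ((p.1 : ℂ) + (p.2 : ℂ) * zt) = zt ^ 2 * p.1 + zt ^ 3 * p.2 := by ring
  rw [h2, zt_cub', h]
  push_cast
  ring

theorem rotL_three' (m : ℕ) (p : ℤ × ℤ) : rotL m (rotL m (rotL m p)) = p := by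
  ext
  · simp only [rotL]; ring
  · simp only [rotL]; ring

theorem Lm_pos' (m : ℕ) : 0 < Lm m := by
  unfold Lm; positivity

/-- vertex part -/
def VV' (θ : ℂ → ℝ) (c x : ℂ) : ℝ := -(θ x * qf c x)
/-- side part -/
def SS' (θ Xi : ℂ → ℝ) (m : ℕ) (a : ℝ) (c x : ℂ) : ℝ :=
  ∑ p ∈ box m,
    (θ (x - lp p) * Dev Xi m a c p x
      + θ (x - lp (rotL m p)) * Dev Xi m a (c * zt ^ 4) p (zt ^ 4 * (x - Lm m))
      + θ (x - lp (rotL m (rotL m p))) * Dev Xi m a (c * zt ^ 2) p (zt ^ 2 * x + Lm m))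

theorem HH_eq' (θ Xi : ℂ → ℝ) (m : ℕ) (a : ℝ) (c x : ℂ) :
    HH θ Xi m a c x = VV' θ c x + SS' θ Xi m a c x := rfl

theorem contDiff_affine' (f : ℂ → ℝ) (h : ∃ (α : ℝ) (g : ℂ), ∀ x, f x = α + (g * x).re) :
    ContDiff ℝ ∞ f := by
  obtain ⟨α, g, hf⟩ := h
  have : f = fun x => α + (g * x).re := funext hf
  rw [this]
  exact contDiff_const.add (Complex.reCLM.contDiff.comp (contDiff_const.mul contDiff_id))

theorem contDiff_qf' (c : ℂ) : ContDiff ℝ ∞ (qf c) := by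
  unfold qf
  exact Complex.reCLM.contDiff.comp (contDiff_const.mul (contDiff_id.pow 2))

theorem contDiff_hg' {Xi : ℂ → ℝ} (hXi : ContDiff ℝ ∞ Xi) (a : ℝ) (P d : ℂ) {lm lq : ℂ → ℝ}
    (h1 : ContDiff ℝ ∞ lm) (h2 : ContDiff ℝ ∞ lq) : ContDiff ℝ ∞ (hg Xi a P d lm lq) := by
  unfold hg
  refine h1.add (ContDiff.mul (hXi.comp ?_) (h2.sub h1))
  exact ((contDiff_id.sub contDiff_const).mul contDiff_const).div_const _

theorem contDiff_LL' {Xi : ℂ → ℝ} (hXi : ContDiff ℝ ∞ Xi) (m : ℕ) (a : ℝ) (c : ℂ) (p : ℤ × ℤ) :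
    ContDiff ℝ ∞ (LL Xi m a c p) := by
  have hb : ∀ i, ContDiff ℝ ∞ (bp m c i) := fun i => contDiff_affine' _ (planes_affine m c i).1
  have hw : ∀ i, ContDiff ℝ ∞ (wp m c i) := fun i => contDiff_affine' _ (planes_affine m c i).2.1
  have hbL : ContDiff ℝ ∞ (bL m c) := contDiff_affine' _ (planes_affine m c 0).2.2.1
  have hlM : ContDiff ℝ ∞ (lM m c) := contDiff_affine' _ (planes_affine m c 0).2.2.2
  unfold LL
  by_cases h0 : p.2 = 0
  · simp only [h0, if_true]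
    by_cases h1 : p.1 = 1
    · simp only [h1, if_true]
      exact contDiff_const
    · by_cases h2 : p.1 = 2 * (m : ℤ) + 2
      · simp only [h1, h2, if_true, if_false]
        by_cases h3 : (2 * (m : ℤ) + 2 = 1)
        · simp only [h3, if_true]; exact contDiff_const
        · simp only [h3, if_false]; exact hlM
      · simp only [h1, h2, if_false]
        unfold LN
        exact contDiff_hg' hXi _ _ _ (hw _) (hb _)
  · by_cases h1 : p.2 = 1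
    · simp only [h1, if_true]
      simp only [one_ne_zero, if_false]
      unfold LD
      by_cases h2 : ((p.1 - 1) / 2).toNat = 0
      · simp only [h2, if_true]
        exact contDiff_hg' hXi _ _ _ hbL (hb _)
      · simp only [h2, if_false]
        exact contDiff_hg' hXi _ _ _ (hb _) (hb _)
    · simp only [h0, h1, if_false]
      unfold LU
      exact contDiff_hg' hXi _ _ _ (hw _) (hw _)

theorem contDiff_Dev' {Xi : ℂ → ℝ} (hXi : ContDiff ℝ ∞ Xi) (m : ℕ) (a : ℝ) (c : ℂ) (p : ℤ × ℤ) :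
    ContDiff ℝ ∞ (Dev Xi m a c p) := by
  unfold Dev
  by_cases h : Sp m p
  · simp only [h, if_true]
    exact (contDiff_LL' hXi m a c p).sub (contDiff_qf' c)
  · simp only [h, if_false]
    exact contDiff_const

theorem contDiff_VV' {θ : ℂ → ℝ} (hθ : ThetaOK θ) (c : ℂ) : ContDiff ℝ ∞ (VV' θ c) := by
  unfold VV'
  exact (hθ.smooth.mul (contDiff_qf' c)).neg

theorem contDiff_SS' {θ : ℂ → ℝ} (hθ : ThetaOK θ) {Xi : ℂ → ℝ} (hXi : ContDiff ℝ ∞ Xi) (m : ℕ)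
    (a : ℝ) (c : ℂ) : ContDiff ℝ ∞ (SS' θ Xi m a c) := by
  unfold SS'
  refine ContDiff.sum fun p _ => ?_
  have hsub : ∀ q : ℂ, ContDiff ℝ ∞ (fun x : ℂ => x - q) := fun q => contDiff_id.sub contDiff_const
  refine ContDiff.add (ContDiff.add ?_ ?_) ?_
  · exact (hθ.smooth.comp (hsub _)).mul (contDiff_Dev' hXi _ _ _ _)
  · exact (hθ.smooth.comp (hsub _)).mul
      ((contDiff_Dev' hXi m a (c * zt ^ 4) p).comp (contDiff_const.mul (hsub _)))
  · exact (hθ.smooth.comp (hsub _)).mul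
      ((contDiff_Dev' hXi m a (c * zt ^ 2) p).comp
        ((contDiff_const.mul contDiff_id).add contDiff_const))

theorem supp_VV' {θ : ℂ → ℝ} (hθ : ThetaOK θ) (c : ℂ) : ∀ x, (1 : ℝ) < ‖x‖ → VV' θ c x = 0 := by
  intro x hx
  unfold VV'
  rw [hθ.supp x (by linarith)]
  simp

theorem supp_SS' {θ : ℂ → ℝ} (hθ : ThetaOK θ) (Xi : ℂ → ℝ) (m : ℕ) (a : ℝ) (c : ℂ) :
    ∃ R : ℝ, ∀ x, R < ‖x‖ → SS' θ Xi m a c x = 0 := by
  refine ⟨∑ p ∈ box m, (‖lp p‖ + ‖lp (rotL m p)‖ + ‖lp (rotL m (rotL m p))‖) + 1, fun x hx => ?_⟩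
  unfold SS'
  refine Finset.sum_eq_zero fun p hp => ?_
  have hle : ‖lp p‖ + ‖lp (rotL m p)‖ + ‖lp (rotL m (rotL m p))‖ ≤
      ∑ p ∈ box m, (‖lp p‖ + ‖lp (rotL m p)‖ + ‖lp (rotL m (rotL m p))‖) :=
    Finset.single_le_sum (f := fun p => ‖lp p‖ + ‖lp (rotL m p)‖ + ‖lp (rotL m (rotL m p))‖)
      (fun i _ => by positivity) hp
  have h1 := norm_nonneg (lp p)
  have h2 := norm_nonneg (lp (rotL m p))
  have h3 := norm_nonneg (lp (rotL m (rotL m p)))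
  have hz : ∀ q : ℂ, ‖q‖ + 1 < ‖x‖ → θ (x - q) = 0 := by
    intro q hq
    apply hθ.supp
    have := norm_sub_norm_le x q
    linarith
  rw [hz (lp p) (by linarith), hz (lp (rotL m p)) (by linarith),
    hz (lp (rotL m (rotL m p))) (by linarith)]
  simp

theorem dd_contDiff {θ : ℂ → ℝ} (hθ : ThetaOK θ) {Xi : ℂ → ℝ} {K : ℝ} (hXi : XiOK Xi K) (m : ℕ)
    (a : ℝ) (ha : 0 < a) (c : ℂ) : ContDiff ℝ ∞ (dd θ Xi m a c) := by
  obtain ⟨R, hR⟩ := supp_SS' hθ Xi m a c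
  unfold dd
  refine (periodize (HH θ Xi m a c) ?_ (Lm m) (max R 1) (Lm_pos' m) ?_).1
  · exact (contDiff_VV' hθ c).add (contDiff_SS' hθ hXi.smooth m a c)
  · intro x hx
    rw [HH_eq', hR x (lt_of_le_of_lt (le_max_left _ _) hx),
      supp_VV' hθ c x (lt_of_le_of_lt (le_max_right _ _) hx)]
    simp

theorem dd_periodic {θ : ℂ → ℝ} (hθ : ThetaOK θ) {Xi : ℂ → ℝ} {K : ℝ} (hXi : XiOK Xi K) (m : ℕ)
    (a : ℝ) (ha : 0 < a) (c : ℂ) (n : ℤ × ℤ) (x : ℂ) : dd θ Xi m a c (x + Lm m * lp n) = dd θ Xi m a c x := by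
  obtain ⟨R, hR⟩ := supp_SS' hθ Xi m a c
  unfold dd
  refine (periodize (HH θ Xi m a c) ?_ (Lm m) (max R 1) (Lm_pos' m) ?_).2.1 n x
  · exact (contDiff_VV' hθ c).add (contDiff_SS' hθ hXi.smooth m a c)
  · intro x hx
    rw [HH_eq', hR x (lt_of_le_of_lt (le_max_left _ _) hx),
      supp_VV' hθ c x (lt_of_le_of_lt (le_max_right _ _) hx)]
    simp

theorem dd_split' {θ : ℂ → ℝ} (hθ : ThetaOK θ) {Xi : ℂ → ℝ} (hXi : ContDiff ℝ ∞ Xi) (m : ℕ)
    (a : ℝ) (c x : ℂ) : dd θ Xi m a c x =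
      ∑' t : ℤ × ℤ, VV' θ c (x - Lm m * lp t) + ∑' t : ℤ × ℤ, SS' θ Xi m a c (x - Lm m * lp t) := by
  obtain ⟨R, hR⟩ := supp_SS' hθ Xi m a c
  obtain ⟨T1, hT1⟩ := (periodize (VV' θ c) (contDiff_VV' hθ c) (Lm m) 1 (Lm_pos' m)
    (supp_VV' hθ c)).2.2 x
  obtain ⟨T2, hT2⟩ := (periodize (SS' θ Xi m a c) (contDiff_SS' hθ hXi m a c) (Lm m) R (Lm_pos' m)
    hR).2.2 x
  have hs1 : Summable (fun t : ℤ × ℤ => VV' θ c (x - Lm m * lp t)) :=
    summable_of_ne_finset_zero (s := T1) (fun t ht => hT1 x (by simp) t ht)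
  have hs2 : Summable (fun t : ℤ × ℤ => SS' θ Xi m a c (x - Lm m * lp t)) :=
    summable_of_ne_finset_zero (s := T2) (fun t ht => hT2 x (by simp) t ht)
  rw [← hs1.tsum_add hs2]
  rfl

theorem VV_rot' {θ : ℂ → ℝ} (hθ : ThetaOK θ) (c y : ℂ) :
    VV' θ c (zt ^ 2 * y) = VV' θ (c * zt ^ 4) y := by
  unfold VV' qf
  have h1 : θ (zt ^ 2 * y) = θ y := by
    have : zt ^ 2 * y = zt * (zt * y) := by ring
    rw [this, hθ.rot, hθ.rot]
  have h2 : c * (zt ^ 2 * y) ^ 2 = c * zt ^ 4 * y ^ 2 := by ring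
  rw [h1, h2]

theorem SS_rot' {θ : ℂ → ℝ} (hθ : ThetaOK θ) (Xi : ℂ → ℝ) (m : ℕ) (a : ℝ) (c y : ℂ) :
    SS' θ Xi m a c (zt ^ 2 * y + Lm m) = SS' θ Xi m a (c * zt ^ 4) y := by
  unfold SS'
  refine Finset.sum_congr rfl fun p _ => ?_
  have hθ2 : ∀ y : ℂ, θ (zt ^ 2 * y) = θ y := by
    intro y
    have : zt ^ 2 * y = zt * (zt * y) := by ring
    rw [this, hθ.rot, hθ.rot]
  have e1 : zt ^ 2 * y + Lm m - lp p = zt ^ 2 * (y - lp (rotL m (rotL m p))) := by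
    conv_lhs => rw [← rotL_three' m p, lp_rotL' m (rotL m (rotL m p))]
    ring
  have e2 : zt ^ 2 * y + Lm m - lp (rotL m p) = zt ^ 2 * (y - lp p) := by
    rw [lp_rotL' m p]; ring
  have e3 : zt ^ 2 * y + Lm m - lp (rotL m (rotL m p)) = zt ^ 2 * (y - lp (rotL m p)) := by
    rw [lp_rotL' m (rotL m p)]; ring
  have f2 : zt ^ 4 * (zt ^ 2 * y + Lm m - Lm m) = y := by
    calc zt ^ 4 * (zt ^ 2 * y + Lm m - Lm m) = zt ^ 6 * y := by ring
      _ = y := by rw [zt_six']; ring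
  have f3 : zt ^ 2 * (zt ^ 2 * y + Lm m) + Lm m = zt ^ 4 * (y - Lm m) := by
    have h1 : zt ^ 2 * (zt ^ 2 * y + Lm m) + Lm m = zt ^ 4 * y + (zt ^ 2 + 1) * Lm m := by ring
    have h2 : zt ^ 4 * (y - Lm m) = zt ^ 4 * y - zt ^ 4 * Lm m := by ring
    rw [h1, h2, zt_sq', zt_four']
    ring
  have g1 : c * zt ^ 4 * zt ^ 2 = c := by
    calc c * zt ^ 4 * zt ^ 2 = c * zt ^ 6 := by ring
      _ = c := by rw [zt_six']; ring
  have g2 : c * zt ^ 4 * zt ^ 4 = c * zt ^ 2 := by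
    calc c * zt ^ 4 * zt ^ 4 = c * zt ^ 2 * zt ^ 6 := by ring
      _ = c * zt ^ 2 := by rw [zt_six']; ring
  rw [e1, e2, e3, hθ2, hθ2, hθ2, f2, f3, g1, g2]
  ring

theorem dd_rot {θ : ℂ → ℝ} (hθ : ThetaOK θ) {Xi : ℂ → ℝ} {K : ℝ} (hXi : XiOK Xi K) (m : ℕ)
    (a : ℝ) (ha : 0 < a) (c x : ℂ) : dd θ Xi m a c (zt ^ 2 * x + Lm m) = dd θ Xi m a (c * zt ^ 4) x := by
  rw [dd_split' hθ hXi.smooth, dd_split' hθ hXi.smooth]
  congr 1
  · have h1 := Equiv.tsum_eq (RR'.trans (Equiv.addLeft ((1, 0) : ℤ × ℤ)))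
      (fun t : ℤ × ℤ => VV' θ c (zt ^ 2 * x + Lm m - Lm m * lp t))
    rw [← h1]
    refine tsum_congr fun s => ?_
    rw [← VV_rot' hθ]
    congr 1
    have : lp ((RR'.trans (Equiv.addLeft ((1, 0) : ℤ × ℤ))) s) = 1 + zt ^ 2 * lp s := by
      rw [Equiv.trans_apply, Equiv.coe_addLeft, lp_add', lp_RR']
      simp [lp]
    rw [this]
    ring
  · have h1 := Equiv.tsum_eq RR'
      (fun t : ℤ × ℤ => SS' θ Xi m a c (zt ^ 2 * x + Lm m - Lm m * lp t))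
    rw [← h1]
    refine tsum_congr fun s => ?_
    rw [← SS_rot' hθ]
    congr 1
    rw [lp_RR']
    ring


end JS6c2
export JS6c2 (dd_contDiff dd_periodic dd_rot)

end Porous
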