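import Pool.Agent.Porous.S6c1
import Pool.Agent.Porous.S6c2
import Pool.Agent.Porous.GI

open MeasureTheory Complex Set
open scoped ContDiff ENNReal
noncomputable section
namespace Porous
namespace JS6c3

/-! TARGET -/

theorem zt_sq : zt ^ 2 = zt - 1 := by
  have h3 : Real.sqrt 3 * Real.sqrt 3 = 3 := Real.mul_self_sqrt (by norm_num)
  rw [pow_two]
  apply Complex.ext
  · simp only [zt, Complex.mul_re, Complex.sub_re, Complex.one_re]
    nlinarith
  · simp only [zt, Complex.mul_im, Complex.sub_im, Complex.one_im]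
    ring

theorem zt_pow_six : zt ^ 6 = 1 := by
  have h3 : zt ^ 3 = -1 := by
    calc zt ^ 3 = zt * zt ^ 2 := by ring
      _ = zt ^ 2 - zt := by rw [zt_sq]; ring_nf; rw [zt_sq]; ring
      _ = -1 := by rw [zt_sq]; ring
  calc zt ^ 6 = (zt ^ 3) ^ 2 := by ring
    _ = 1 := by rw [h3]; norm_num

theorem norm_zt : ‖zt‖ = 1 := by
  have h : ‖zt‖ ^ 6 = 1 := by rw [← norm_pow, zt_pow_six, norm_one]
  exact (pow_eq_one_iff_of_nonneg (norm_nonneg _) (by norm_num)).1 h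

/-- locally affine -/
def LocAff (θ Xi : ℂ → ℝ) (m : ℕ) (a : ℝ) (c x : ℂ) : Prop :=
  ∃ (α : ℝ) (g : ℂ), ∀ᶠ z in nhds x, qf c z + dd θ Xi m a c z = α + (g * z).re

theorem locAff_rot {θ : ℂ → ℝ} (hθ : ThetaOK θ) {Xi : ℂ → ℝ} {K : ℝ} (hXi : XiOK Xi K) (m : ℕ)
    (a : ℝ) (ha : 0 < a) (c x : ℂ) (h : LocAff θ Xi m a (c * zt ^ 4) x) :
    LocAff θ Xi m a c (zt ^ 2 * x + Lm m) := by
  obtain ⟨α, g, hg⟩ := h
  have hc : ContinuousAt (fun z : ℂ => zt ^ 4 * (z - Lm m)) (zt ^ 2 * x + Lm m) := by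
    fun_prop
  have hx : zt ^ 4 * ((zt ^ 2 * x + Lm m) - Lm m) = x := by
    have : zt ^ 4 * ((zt ^ 2 * x + Lm m) - Lm m) = zt ^ 6 * x := by ring
    rw [this, zt_pow_six, one_mul]
  have h2 : Filter.Tendsto (fun z : ℂ => zt ^ 4 * (z - Lm m)) (nhds (zt ^ 2 * x + Lm m)) (nhds x) := by
    have := hc.tendsto
    simp only [hx] at this
    exact this
  refine ⟨α + (c * (Lm m : ℂ) ^ 2).re - ((g + 2 * c * zt ^ 2 * Lm m) * zt ^ 4 * Lm m).re,
    (g + 2 * c * zt ^ 2 * Lm m) * zt ^ 4, ?_⟩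
  filter_upwards [h2.eventually hg] with z hz
  set w := zt ^ 4 * (z - Lm m) with hw
  have hzw : z = zt ^ 2 * w + Lm m := by
    have : zt ^ 2 * w = zt ^ 6 * (z - Lm m) := by rw [hw]; ring
    rw [this, zt_pow_six]
    ring
  have hdd : dd θ Xi m a c z = dd θ Xi m a (c * zt ^ 4) w := by
    rw [hzw]
    exact dd_rot hθ hXi m a ha c w
  rw [hdd]
  have hq : qf c z = qf (c * zt ^ 4) w + (2 * c * zt ^ 2 * Lm m * w).re + (c * (Lm m : ℂ) ^ 2).re := by
    simp only [qf]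
    rw [hzw, ← Complex.add_re, ← Complex.add_re]
    congr 1
    ring
  have hfin : ((g + 2 * c * zt ^ 2 * Lm m) * zt ^ 4 * z).re
      = (g * w).re + (2 * c * zt ^ 2 * Lm m * w).re
        + ((g + 2 * c * zt ^ 2 * Lm m) * zt ^ 4 * Lm m).re := by
    rw [← Complex.add_re, ← Complex.add_re]
    congr 1
    rw [hw]
    ring
  rw [hfin, hq]
  linarith

theorem locAff_per {θ : ℂ → ℝ} (hθ : ThetaOK θ) {Xi : ℂ → ℝ} {K : ℝ} (hXi : XiOK Xi K) (m : ℕ)
    (a : ℝ) (ha : 0 < a) (c : ℂ) (n : ℤ × ℤ) (x : ℂ) (h : LocAff θ Xi m a c x) :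
    LocAff θ Xi m a c (x + Lm m * lp n) := by
  obtain ⟨α, g, hg⟩ := h
  set T : ℂ := Lm m * lp n with hT
  have hc : ContinuousAt (fun z : ℂ => z - T) (x + T) := by
    fun_prop
  have h2 : Filter.Tendsto (fun z : ℂ => z - T) (nhds (x + T)) (nhds x) := by
    have := hc.tendsto
    simp only [add_sub_cancel_right] at this
    exact this
  refine ⟨α - (g * T).re - (c * T ^ 2).re, g + 2 * c * T, ?_⟩
  filter_upwards [h2.eventually hg] with z hz
  set w := z - T with hw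
  have hzw : z = w + T := by rw [hw]; ring
  have hdd : dd θ Xi m a c z = dd θ Xi m a c w := by
    rw [hzw]
    exact dd_periodic hθ hXi m a ha c n w
  rw [hdd]
  have hq : qf c z = qf c w + (2 * c * T * z).re - (c * T ^ 2).re := by
    simp only [qf]
    rw [hzw, ← Complex.add_re, ← Complex.sub_re]
    congr 1
    ring
  have hfin : ((g + 2 * c * T) * z).re = (g * w).re + (g * T).re + (2 * c * T * z).re := by
    rw [← Complex.add_re, ← Complex.add_re]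
    congr 1
    rw [hzw]
    ring
  rw [hfin, hq]
  linarith

theorem rot_surj (m : ℕ) (x : ℂ) : ∃ y, x = zt ^ 2 * y + Lm m := by
  refine ⟨zt ^ 4 * (x - Lm m), ?_⟩
  have : zt ^ 2 * (zt ^ 4 * (x - Lm m)) = zt ^ 6 * (x - Lm m) := by ring
  rw [this, zt_pow_six]
  ring

theorem rot_norm (m : ℕ) (x y : ℂ) : ‖(zt ^ 2 * x + Lm m) - (zt ^ 2 * y + Lm m)‖ = ‖x - y‖ := by
  have : (zt ^ 2 * x + Lm m) - (zt ^ 2 * y + Lm m) = zt ^ 2 * (x - y) := by ring
  rw [this, norm_mul, norm_pow, norm_zt, one_pow, one_mul]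

/-- the Airy function is locally affine near the whole crack set -/
theorem near_Gam {θ : ℂ → ℝ} (hθ : ThetaOK θ) {Xi : ℂ → ℝ} {K : ℝ} (hXi : XiOK Xi K) (m : ℕ) (hm : 4 ≤ m)
    (a : ℝ) (ha : 0 < a) (ha' : a ≤ 1 / (100 * (m : ℝ))) (c y : ℂ) (hy : y ∈ Gam hx m a) (x : ℂ)
    (hxy : ‖x - y‖ < a / 100) :
    ∃ (α : ℝ) (g : ℂ), ∀ᶠ z in nhds x, qf c z + dd θ Xi m a c z = α + (g * z).re := by
  have h0 : ∀ (c y : ℂ), y ∈ sideG hx m a → ∀ x, ‖x - y‖ < a / 100 → LocAff θ Xi m a c x := by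
    intro c y hy x hxy
    obtain ⟨α, g, hg⟩ := near_side hθ hXi m hm a ha ha' c y hy
    refine ⟨α, g, ?_⟩
    have hc : ContinuousAt (fun z : ℂ => ‖z - y‖) x := by fun_prop
    filter_upwards [hc.eventually_lt_const hxy] with z hz
    exact hg z hz.le
  have h1 : ∀ (c y : ℂ), y ∈ sideG (hx.next (Lm m)) m a → ∀ x, ‖x - y‖ < a / 100 →
      LocAff θ Xi m a c x := by
    intro c y hy x hxy
    obtain ⟨y', rfl⟩ := rot_surj m y
    obtain ⟨x', rfl⟩ := rot_surj m x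
    rw [rot_norm] at hxy
    exact locAff_rot hθ hXi m a ha c x' (h0 _ y' ((sideG_rot m a y').1.1 hy) x' hxy)
  have h2 : ∀ (c y : ℂ), y ∈ sideG ((hx.next (Lm m)).next (Lm m)) m a → ∀ x, ‖x - y‖ < a / 100 →
      LocAff θ Xi m a c x := by
    intro c y hy x hxy
    obtain ⟨y', rfl⟩ := rot_surj m y
    obtain ⟨x', rfl⟩ := rot_surj m x
    rw [rot_norm] at hxy
    exact locAff_rot hθ hXi m a ha c x' (h1 _ y' ((sideG_rot m a y').2.1.1 hy) x' hxy)
  obtain ⟨t₁, t₂, ht⟩ := hy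
  set T : ℂ := Lm m * lp (t₁, t₂) with hT
  have hT' : (Lm m : ℂ) * ((t₁ : ℂ) * hx.τ + (t₂ : ℂ) * hx.σ) = T := by
    rw [hT]
    simp [hx, lp]
  rw [hT'] at ht
  have hn : ‖(x - T) - (y - T)‖ < a / 100 := by
    have : (x - T) - (y - T) = x - y := by ring
    rw [this]
    exact hxy
  have h3 : LocAff θ Xi m a c (x - T) := by
    rcases ht with (ht | ht) | ht
    · exact h0 c _ ht _ hn
    · exact h1 c _ ht _ hn
    · exact h2 c _ ht _ hn
  have h4 := locAff_per hθ hXi m a ha c (t₁, t₂) (x - T) h3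
  rw [← hT, sub_add_cancel] at h4
  exact h4


end JS6c3
export JS6c3 (near_Gam)

end Porous
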