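import Pool.Agent.Porous.K1

open MeasureTheory Complex Set
open scoped ContDiff ENNReal
noncomputable section
namespace Porous
namespace JS0

/-! TARGET -/

theorem lp_sub (t n : ℤ × ℤ) : lp (t - n) = lp t - lp n := by
  unfold lp
  simp only [Prod.fst_sub, Prod.snd_sub]
  push_cast
  ring

theorem lp_re (p : ℤ × ℤ) : (lp p).re = p.1 + p.2 / 2 := by
  simp [lp, zt]
  ring

theorem lp_im (p : ℤ × ℤ) : (lp p).im = p.2 * (Real.sqrt 3 / 2) := by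
  simp [lp, zt]

theorem lp_bound (p : ℤ × ℤ) : |(p.1 : ℝ)| ≤ 2 * ‖lp p‖ ∧ |(p.2 : ℝ)| ≤ 2 * ‖lp p‖ := by
  have h1 := Complex.abs_re_le_norm (lp p)
  have h2 := Complex.abs_im_le_norm (lp p)
  rw [lp_re] at h1
  rw [lp_im, abs_mul] at h2
  have h3 : (1 : ℝ) ≤ Real.sqrt 3 := by
    rw [Real.one_le_sqrt]
    norm_num
  have h4 : |Real.sqrt 3 / 2| = Real.sqrt 3 / 2 := abs_of_nonneg (by positivity)
  rw [h4] at h2
  have h5 : 0 ≤ |(p.2 : ℝ)| := abs_nonneg _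
  have h6 : |(p.2 : ℝ)| ≤ 2 * ‖lp p‖ := by nlinarith
  refine ⟨?_, h6⟩
  have h7 : |(p.1 : ℝ)| ≤ |(p.1 : ℝ) + p.2 / 2| + |(p.2 : ℝ) / 2| := by
    calc |(p.1 : ℝ)| = |((p.1 : ℝ) + p.2 / 2) - p.2 / 2| := by ring_nf
      _ ≤ _ := abs_sub _ _
  have h8 : |(p.2 : ℝ) / 2| ≤ ‖lp p‖ := by
    rw [abs_div, abs_of_pos (by norm_num : (0:ℝ) < 2)]
    linarith
  linarith

theorem per3 (H : ℂ → ℝ) (L R : ℝ) (hL : 0 < L) (hs : ∀ x, R < ‖x‖ → H x = 0) (x₀ : ℂ) :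
    ∃ T : Finset (ℤ × ℤ), ∀ x, ‖x - x₀‖ < 1 → ∀ t, t ∉ T → H (x - L * lp t) = 0 := by
  set B : ℤ := ⌈2 * (‖x₀‖ + 1 + |R|) / L⌉ with hB
  refine ⟨Finset.Icc (-B) B ×ˢ Finset.Icc (-B) B, ?_⟩
  intro x hx t ht
  apply hs
  by_contra hcon
  push Not at hcon
  apply ht
  have h1 : ‖x‖ ≤ ‖x₀‖ + 1 := by
    calc ‖x‖ = ‖(x - x₀) + x₀‖ := by ring_nf
      _ ≤ ‖x - x₀‖ + ‖x₀‖ := norm_add_le _ _
      _ ≤ _ := by linarith
  have h2 : ‖(L : ℂ) * lp t‖ ≤ ‖x₀‖ + 1 + |R| := by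
    calc ‖(L : ℂ) * lp t‖ = ‖x - (x - L * lp t)‖ := by ring_nf
      _ ≤ ‖x‖ + ‖x - L * lp t‖ := norm_sub_le _ _
      _ ≤ _ := by
          have := le_abs_self R
          linarith
  rw [norm_mul, Complex.norm_real, Real.norm_eq_abs, abs_of_pos hL] at h2
  have h3 : 2 * ‖lp t‖ ≤ 2 * (‖x₀‖ + 1 + |R|) / L := by
    rw [le_div_iff₀ hL]
    linarith
  have h4 : 2 * ‖lp t‖ ≤ (B : ℝ) := h3.trans (Int.le_ceil _)
  obtain ⟨b1, b2⟩ := lp_bound t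
  have c1 : |t.1| ≤ B := by
    have : ((|t.1| : ℤ) : ℝ) ≤ B := by
      rw [Int.cast_abs]
      linarith
    exact_mod_cast this
  have c2 : |t.2| ≤ B := by
    have : ((|t.2| : ℤ) : ℝ) ≤ B := by
      rw [Int.cast_abs]
      linarith
    exact_mod_cast this
  rw [Finset.mem_product, Finset.mem_Icc, Finset.mem_Icc]
  exact ⟨abs_le.1 c1, abs_le.1 c2⟩

/-- periodisation of a smooth compactly supported function -/
theorem periodize (H : ℂ → ℝ) (hH : ContDiff ℝ ∞ H) (L R : ℝ) (hL : 0 < L) (hs : ∀ x, R < ‖x‖ → H x = 0) :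
    ContDiff ℝ ∞ (fun x => ∑' t : ℤ × ℤ, H (x - L * lp t)) ∧
    (∀ (n : ℤ × ℤ) (x : ℂ), ∑' t : ℤ × ℤ, H (x + L * lp n - L * lp t) = ∑' t : ℤ × ℤ, H (x - L * lp t)) ∧
    (∀ x₀ : ℂ, ∃ T : Finset (ℤ × ℤ), ∀ x, ‖x - x₀‖ < 1 → ∀ t, t ∉ T → H (x - L * lp t) = 0) := by
  refine ⟨?_, ?_, per3 H L R hL hs⟩
  · rw [contDiff_iff_contDiffAt]
    intro x₀
    obtain ⟨T, hT⟩ := per3 H L R hL hs x₀
    have h1 : ContDiffAt ℝ ∞ (fun x => ∑ t ∈ T, H (x - L * lp t)) x₀ := by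
      apply ContDiff.contDiffAt
      apply ContDiff.sum
      intro t _
      exact hH.comp (contDiff_id.sub contDiff_const)
    refine h1.congr_of_eventuallyEq ?_
    filter_upwards [Metric.ball_mem_nhds x₀ (by norm_num : (0:ℝ) < 1)] with x hx
    rw [Metric.mem_ball, dist_eq_norm] at hx
    exact tsum_eq_sum (fun t ht => hT x hx t ht)
  · intro n x
    rw [← (Equiv.subRight n).tsum_eq (fun t => H (x - L * lp t))]
    congr 1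
    funext t
    congr 1
    rw [Equiv.subRight_apply, lp_sub]
    ring


end JS0
export JS0 (periodize)

end Porous
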