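import Pool.Agent.Porous.K1

open MeasureTheory Complex Set
open scoped ContDiff ENNReal
noncomputable section
namespace Porous
namespace JS5b

/-! TARGET -/

theorem zt_re : zt.re = 1 / 2 := rfl
theorem zt_im : zt.im = Real.sqrt 3 / 2 := rfl

theorem sq3 : Real.sqrt 3 * Real.sqrt 3 = 3 := Real.mul_self_sqrt (by norm_num)
theorem sq3_pos : 0 < Real.sqrt 3 := Real.sqrt_pos.mpr (by norm_num)

theorem zt_sq : zt ^ 2 = zt - 1 := by
  have := sq3
  rw [sq]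
  apply Complex.ext
  · rw [Complex.mul_re, zt_re, zt_im, Complex.sub_re, zt_re, Complex.one_re]
    nlinarith
  · rw [Complex.mul_im, zt_re, zt_im, Complex.sub_im, zt_im, Complex.one_im]
    ring

theorem zt_cube : zt ^ 3 = -1 := by
  have h : zt ^ 3 = zt ^ 2 * zt := by ring
  rw [h, zt_sq]
  have h2 : (zt - 1) * zt = zt ^ 2 - zt := by ring
  rw [h2, zt_sq]; ring

theorem norm_zt : ‖zt‖ = 1 := by
  have h : ‖zt‖ ^ 3 = 1 := by rw [← norm_pow, zt_cube]; simp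
  exact (pow_eq_one_iff_of_nonneg (norm_nonneg _) (by norm_num)).mp h

theorem hx_cs (x : ℂ) : hx.cs x = x.re - x.im / Real.sqrt 3 := by
  have h3 := sq3
  have hp := sq3_pos
  unfold Frame.cs hx
  simp only [sub_zero, one_mul]
  rw [Complex.mul_im, Complex.conj_re, Complex.conj_im, zt_re, zt_im]
  field_simp
  ring

theorem hx_cr (x : ℂ) : hx.cr x = 2 * x.im / Real.sqrt 3 := by
  have hp := sq3_pos
  unfold Frame.cr hx
  simp only [sub_zero, map_one, mul_one]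
  rw [zt_im]
  field_simp

theorem hx_eq (x : ℂ) : x = (hx.cs x : ℂ) + (hx.cr x : ℂ) * zt := by
  have hp := sq3_pos
  have h3 := sq3
  rw [hx_cs, hx_cr]
  apply Complex.ext
  · simp only [Complex.add_re, Complex.ofReal_re, Complex.mul_re, Complex.ofReal_im, zt_re, zt_im]
    field_simp
    ring
  · simp only [Complex.add_im, Complex.ofReal_re, Complex.mul_im, Complex.ofReal_im, zt_re, zt_im]
    field_simp
    ring

theorem hx_cs_pt (s r : ℝ) : hx.cs (hx.pt s r) = s := by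
  have hp := sq3_pos
  have h3 := sq3
  rw [hx_cs]
  unfold Frame.pt hx
  simp only [Complex.add_re, Complex.add_im, Complex.mul_re, Complex.mul_im, Complex.ofReal_re,
    Complex.ofReal_im, zt_re, zt_im, Complex.zero_re, Complex.zero_im, Complex.one_re,
    Complex.one_im]
  field_simp
  ring

theorem hx_cr_pt (s r : ℝ) : hx.cr (hx.pt s r) = r := by
  have hp := sq3_pos
  rw [hx_cr]
  unfold Frame.pt hx
  simp only [Complex.add_re, Complex.add_im, Complex.mul_re, Complex.mul_im, Complex.ofReal_re,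
    Complex.ofReal_im, zt_re, zt_im, Complex.zero_re, Complex.zero_im, Complex.one_re,
    Complex.one_im]
  field_simp
  ring

theorem hx_cs_sub (x y : ℂ) : |hx.cs x - hx.cs y| ≤ 2 * ‖x - y‖ := by
  have h1 : hx.cs x - hx.cs y = (x - y).re - (x - y).im / Real.sqrt 3 := by
    rw [hx_cs, hx_cs, Complex.sub_re, Complex.sub_im]; ring
  rw [h1]
  have h2 := Complex.abs_re_le_norm (x - y)
  have h3 := Complex.abs_im_le_norm (x - y)
  have h4 : (1 : ℝ) ≤ Real.sqrt 3 := Real.one_le_sqrt.mpr (by norm_num)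
  have h5 : |(x - y).im / Real.sqrt 3| ≤ ‖x - y‖ := by
    rw [abs_div, abs_of_pos sq3_pos]
    exact (div_le_self (abs_nonneg _) h4).trans h3
  calc _ ≤ |(x - y).re| + |(x - y).im / Real.sqrt 3| := abs_sub _ _
    _ ≤ _ := by linarith

theorem hx_cr_sub (x y : ℂ) : |hx.cr x - hx.cr y| ≤ 2 * ‖x - y‖ := by
  have h1 : hx.cr x - hx.cr y = 2 * ((x - y).im / Real.sqrt 3) := by
    rw [hx_cr, hx_cr, Complex.sub_im]; ring
  rw [h1, abs_mul, abs_two]
  have h3 := Complex.abs_im_le_norm (x - y)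
  have h4 : (1 : ℝ) ≤ Real.sqrt 3 := Real.one_le_sqrt.mpr (by norm_num)
  have h5 : |(x - y).im / Real.sqrt 3| ≤ ‖x - y‖ := by
    rw [abs_div, abs_of_pos sq3_pos]
    exact (div_le_self (abs_nonneg _) h4).trans h3
  linarith

/-- the quadratic form in lattice coordinates -/
def qq (c0 c1 s r : ℝ) : ℝ := c0 * s ^ 2 + 2 * c1 * s * r + (c1 - c0) * r ^ 2

theorem qf_coord (c : ℂ) (s r : ℝ) : qf c ((s : ℂ) + (r : ℂ) * zt) = qq c.re (c * zt).re s r := by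
  have h : c * ((s : ℂ) + (r : ℂ) * zt) ^ 2 = ((s ^ 2 : ℝ) : ℂ) * c + ((2 * s * r : ℝ) : ℂ) * (c * zt)
      + ((r ^ 2 : ℝ) : ℂ) * (c * zt - c) := by
    have : ((s : ℂ) + (r : ℂ) * zt) ^ 2 = (s : ℂ) ^ 2 + 2 * s * r * zt + (r : ℂ) ^ 2 * zt ^ 2 := by
      ring
    rw [this, zt_sq]
    push_cast
    ring
  unfold qf qq
  rw [h]
  simp only [Complex.add_re, Complex.re_ofReal_mul, Complex.sub_re]
  ring

theorem qf_eq (c x : ℂ) : qf c x = qq c.re (c * zt).re (hx.cs x) (hx.cr x) := by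
  conv_lhs => rw [hx_eq x]
  exact qf_coord c _ _

theorem pt_eq (s r : ℝ) : hx.pt s r = (s : ℂ) + (r : ℂ) * zt := by
  unfold Frame.pt hx
  simp

theorem lM_eq (m : ℕ) (c x : ℂ) : lM m c x = qf c x - qf c (x - Lm m) := by
  unfold lM qf
  have h : c * x ^ 2 = c * (Lm m : ℂ) ^ 2 + 2 * (c * (Lm m : ℂ) * (x - Lm m)) +
      c * (x - Lm m) ^ 2 := by ring
  rw [h, Complex.add_re, Complex.add_re]
  have h2 : (2 * (c * (Lm m : ℂ) * (x - Lm m))).re = 2 * (c * (Lm m : ℂ) * (x - Lm m)).re := by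
    rw [Complex.mul_re]; simp
  rw [h2]; ring

theorem re_bounds (c : ℂ) : |c.re| ≤ ‖c‖ ∧ |(c * zt).re| ≤ ‖c‖ ∧ |(c * zt).re - c.re| ≤ ‖c‖ := by
  refine ⟨Complex.abs_re_le_norm c, ?_, ?_⟩
  · refine (Complex.abs_re_le_norm _).trans ?_
    rw [norm_mul, norm_zt, mul_one]
  · have h : (c * zt).re - c.re = (c * zt ^ 2).re := by
      rw [zt_sq, mul_sub, mul_one, Complex.sub_re]
    rw [h]
    refine (Complex.abs_re_le_norm _).trans ?_
    rw [norm_mul, norm_pow, norm_zt, one_pow, mul_one]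

theorem abs_mul_le' {a b A B : ℝ} (ha : |a| ≤ A) (hb : |b| ≤ B) : |a * b| ≤ A * B := by
  rw [abs_mul]
  exact mul_le_mul ha hb (abs_nonneg _) ((abs_nonneg _).trans ha)

theorem qq_le {κ c0 c1 s r A B : ℝ} (h0 : |c0| ≤ κ) (h1 : |c1| ≤ κ) (h2 : |c1 - c0| ≤ κ)
    (hs : |s| ≤ A) (hr : |r| ≤ B) : |qq c0 c1 s r| ≤ κ * (A + B) ^ 2 := by
  have hA : 0 ≤ A := (abs_nonneg _).trans hs
  have hB : 0 ≤ B := (abs_nonneg _).trans hr
  have e1 : |c0 * s ^ 2| ≤ κ * A ^ 2 := abs_mul_le' h0 (by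
    rw [abs_pow]; exact pow_le_pow_left₀ (abs_nonneg _) hs 2)
  have e2 : |c1 * (s * r)| ≤ κ * (A * B) := abs_mul_le' h1 (abs_mul_le' hs hr)
  have e3 : |(c1 - c0) * r ^ 2| ≤ κ * B ^ 2 := abs_mul_le' h2 (by
    rw [abs_pow]; exact pow_le_pow_left₀ (abs_nonneg _) hr 2)
  rw [abs_le] at e1 e2 e3 ⊢
  unfold qq
  constructor <;> nlinarith

section est

variable {m : ℕ} (hm : 2 ≤ m) (c : ℂ)

theorem dl_bounds (hm : 2 ≤ m) : 0 < dl m ∧ dl m ≤ 1 / 7 ∧ ∀ t : ℝ, 0 ≤ t → t ≤ 2 * m + 3 →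
    0 ≤ t * dl m ∧ t * dl m ≤ 1 := by
  have hm' : (2 : ℝ) ≤ m := by exact_mod_cast hm
  have hL : (7 : ℝ) ≤ Lm m := by unfold Lm; linarith
  unfold dl
  refine ⟨by positivity, one_div_le_one_div_of_le (by norm_num) hL, fun t ht ht2 => ⟨by positivity, ?_⟩⟩
  rw [mul_one_div, div_le_one (by linarith)]
  unfold Lm
  exact ht2

theorem gam_le : |gam c| ≤ ‖c‖ := by
  obtain ⟨h0, h1, _⟩ := re_bounds c
  unfold gam
  rw [abs_le] at *
  constructor <;> linarith [h0.1, h0.2, h1.1, h1.2, norm_nonneg c]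

theorem aD_close (hm : 2 ≤ m) (i : ℕ) (hi : i ≤ m) :
    |aD m c i - qq c.re (c * zt).re (2 * i + 1) 1| ≤ 20 * ‖c‖ := by
  obtain ⟨h0, h1, h2⟩ := re_bounds c
  have hg := gam_le c
  have hκ : 0 ≤ ‖c‖ := norm_nonneg c
  obtain ⟨hd0, hd1, hd2⟩ := dl_bounds hm
  unfold aD
  split_ifs with hi0 him
  · subst hi0
    have e := qq_le (κ := ‖c‖) h0 h1 h2 (s := 1) (r := 1) (A := 1) (B := 1) (by norm_num) (by norm_num)
    rw [abs_le] at hg e ⊢
    simp only [Nat.cast_zero, mul_zero, zero_add]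
    constructor <;> linarith [hg.1, hg.2, e.1, e.2]
  · subst him
    have e1 : hx.D i - dl i * zt = ((2 * (i : ℝ) + 1 : ℝ) : ℂ) + ((1 - dl i : ℝ) : ℂ) * zt := by
      unfold Frame.D
      rw [pt_eq]; push_cast; ring
    have e2 : hx.D i - dl i * zt - Lm i = ((-2 : ℝ) : ℂ) + ((1 - dl i : ℝ) : ℂ) * zt := by
      rw [e1]; unfold Lm; push_cast; ring
    rw [lM_eq, e2, e1, qf_coord, qf_coord]
    have e3 := qq_le (κ := ‖c‖) h0 h1 h2 (s := -2) (r := 1 - dl i) (A := 2) (B := 1) (by norm_num)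
      (by rw [abs_of_nonneg (by linarith)]; linarith)
    obtain ⟨k1, k2⟩ := hd2 (2 * i + 1) (by positivity) (by linarith)
    have e4 : qq c.re (c * zt).re (2 * i + 1) (1 - dl i) - qq c.re (c * zt).re (2 * i + 1) 1 =
        (c * zt).re * (-2 * ((2 * i + 1) * dl i)) +
          ((c * zt).re - c.re) * (dl i ^ 2 - 2 * dl i) := by
      unfold qq; ring
    have e5 : |(c * zt).re * (-2 * ((2 * i + 1) * dl i))| ≤ ‖c‖ * 2 := abs_mul_le' h1 (by
      rw [abs_le]; constructor <;> linarith)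
    have e6 : |((c * zt).re - c.re) * (dl i ^ 2 - 2 * dl i)| ≤ ‖c‖ * 1 := abs_mul_le' h2 (by
      rw [abs_le]; constructor <;> nlinarith)
    rw [abs_le] at hg e3 e5 e6 ⊢
    constructor <;> linarith [hg.1, hg.2, e3.1, e3.2, e5.1, e5.2, e6.1, e6.2]
  · have e1 : qf c (hx.D i) = qq c.re (c * zt).re (2 * i + 1) 1 := by
      unfold Frame.D
      rw [pt_eq, qf_coord]
    rw [e1, sub_self, abs_zero]
    positivity

theorem U_eq (m i : ℕ) : hx.U m i = ((2 * (i : ℝ) + 3 : ℝ) : ℂ) + ((-1 + dl m : ℝ) : ℂ) * zt := by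
  unfold Frame.U dl Lm
  rw [pt_eq]

theorem aU_close (hm : 2 ≤ m) (i : ℕ) (hi : i < m) :
    |aU m c i - qq c.re (c * zt).re (2 * i + 3) (-1 + dl m)| ≤ 20 * ‖c‖ := by
  obtain ⟨h0, h1, h2⟩ := re_bounds c
  have hκ : 0 ≤ ‖c‖ := norm_nonneg c
  obtain ⟨hd0, hd1, hd2⟩ := dl_bounds hm
  have hr : |(-1 + dl m : ℝ)| ≤ 1 := by
    rw [abs_le]; constructor <;> linarith
  unfold aU
  split_ifs with hi0 him
  · subst hi0
    have e := qq_le (κ := ‖c‖) h0 h1 h2 (s := 3) (r := -1 + dl m) (A := 3) (B := 1) (by norm_num) hr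
    simp only [Nat.cast_zero, mul_zero, zero_add, zero_sub, abs_neg]
    linarith
  · have hmi : (m : ℝ) = i + 1 := by rw [← him]; push_cast; ring
    have e2 : hx.U m i - Lm m = ((-2 : ℝ) : ℂ) + ((-1 + dl m : ℝ) : ℂ) * zt := by
      rw [U_eq]; unfold Lm; rw [hmi]; push_cast; ring
    rw [lM_eq, e2, U_eq, qf_coord, qf_coord]
    have e3 := qq_le (κ := ‖c‖) h0 h1 h2 (s := -2) (r := -1 + dl m) (A := 2) (B := 1) (by norm_num) hr
    rw [abs_le] at e3 ⊢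
    constructor <;> linarith [e3.1, e3.2]
  · rw [U_eq, qf_coord, sub_self, abs_zero]
    positivity

theorem aN_eq (m i : ℕ) : aN m c (2 * i) = (aU m c i + aD m c i) / 2 + gam c := by
  unfold aN
  have h1 : 2 * i / 2 = i := by omega
  have h2 : (2 * i + 1) / 2 = i := by omega
  rw [h1, h2]

theorem bp_close (hm : 2 ≤ m) (i : ℕ) (hi : i < m) (x : ℂ) (hx6 : ‖x - hx.N (2 * i)‖ ≤ 6) :
    |bp m c i x - qf c x| ≤ 10 ^ 4 * ‖c‖ := by
  obtain ⟨h0, h1, h2⟩ := re_bounds c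
  have hg := gam_le c
  have hκ : 0 ≤ ‖c‖ := norm_nonneg c
  obtain ⟨hd0, hd1, hd2⟩ := dl_bounds hm
  have hi' : (i : ℝ) + 1 ≤ m := by exact_mod_cast hi
  -- coordinates
  have a1 := hx_cs_sub x (hx.N (2 * i))
  have a2 := hx_cr_sub x (hx.N (2 * i))
  unfold Frame.N at a1 a2
  rw [hx_cs_pt] at a1
  rw [hx_cr_pt] at a2
  have hx6' : ‖x - hx.pt (((2 * i : ℕ) : ℝ) + 2) 0‖ ≤ 6 := hx6
  have a1' : |hx.cs x - (2 * i + 2)| ≤ 12 := by
    push_cast at a1 hx6'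
    linarith
  have a2' : |hx.cr x| ≤ 12 := by
    rw [sub_zero] at a2
    linarith
  obtain ⟨s, hs⟩ : ∃ s, s = hx.cs x - (2 * i + 1) := ⟨_, rfl⟩
  obtain ⟨r, hr⟩ : ∃ r, r = hx.cr x - 1 := ⟨_, rfl⟩
  have hs13 : |s| ≤ 13 := by
    rw [hs]; rw [abs_le] at a1' ⊢; constructor <;> linarith [a1'.1, a1'.2]
  have hr13 : |r| ≤ 13 := by
    rw [hr]; rw [abs_le] at a2' ⊢; constructor <;> linarith [a2'.1, a2'.2]
  -- errors
  obtain ⟨e1, he1⟩ : ∃ e, e = aD m c i - qq c.re (c * zt).re (2 * i + 1) 1 := ⟨_, rfl⟩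
  obtain ⟨e2, he2⟩ : ∃ e, e = aD m c (i + 1) - qq c.re (c * zt).re (2 * i + 3) 1 := ⟨_, rfl⟩
  obtain ⟨e3, he3⟩ : ∃ e, e = aU m c i - qq c.re (c * zt).re (2 * i + 3) (-1 + dl m) := ⟨_, rfl⟩
  have b1 : |e1| ≤ 20 * ‖c‖ := by rw [he1]; exact aD_close c hm i hi.le
  have b2 : |e2| ≤ 20 * ‖c‖ := by
    rw [he2]
    have := aD_close c hm (i + 1) hi
    have e : (2 * ((i + 1 : ℕ) : ℝ) + 1) = 2 * i + 3 := by push_cast; ring
    rw [e] at this
    exact this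
  have b3 : |e3| ≤ 20 * ‖c‖ := by rw [he3]; exact aU_close c hm i hi
  obtain ⟨k1, k2⟩ := hd2 (2 * i + 3) (by positivity) (by linarith)
  have key : bp m c i x - qf c x = e1 + s * (2 * c.re + (e2 - e1) / 2) +
      r * ((c * zt).re * (4 - (2 * i + 3) * dl m) +
        ((c * zt).re - c.re) * ((2 * dl m - dl m ^ 2) / 2 - 2) + (e2 - e3) / 2 - gam c) -
      qq c.re (c * zt).re s r := by
    unfold bp
    rw [qf_eq, aN_eq]
    have hD : aD m c i = e1 + qq c.re (c * zt).re (2 * i + 1) 1 := by rw [he1]; ring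
    have hD' : aD m c (i + 1) = e2 + qq c.re (c * zt).re (2 * i + 3) 1 := by rw [he2]; ring
    have hU : aU m c i = e3 + qq c.re (c * zt).re (2 * i + 3) (-1 + dl m) := by rw [he3]; ring
    have hcs : hx.cs x = s + (2 * i + 1) := by rw [hs]; ring
    have hcr : hx.cr x = r + 1 := by rw [hr]; ring
    rw [hD, hD', hU, hcs, hcr]
    unfold qq
    ring
  rw [key]
  have f1 : |2 * c.re + (e2 - e1) / 2| ≤ 22 * ‖c‖ := by
    rw [abs_le] at h0 b1 b2 ⊢; constructor <;> linarith [h0.1, h0.2, b1.1, b1.2, b2.1, b2.2]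
  have f2 : |(c * zt).re * (4 - (2 * i + 3) * dl m)| ≤ ‖c‖ * 4 := abs_mul_le' h1 (by
    rw [abs_le]; constructor <;> linarith)
  have f3 : |((c * zt).re - c.re) * ((2 * dl m - dl m ^ 2) / 2 - 2)| ≤ ‖c‖ * 2 :=
    abs_mul_le' h2 (by rw [abs_le]; constructor <;> nlinarith)
  have f4 : |(c * zt).re * (4 - (2 * i + 3) * dl m) +
        ((c * zt).re - c.re) * ((2 * dl m - dl m ^ 2) / 2 - 2) + (e2 - e3) / 2 - gam c| ≤
      30 * ‖c‖ := by
    rw [abs_le] at f2 f3 b2 b3 hg ⊢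
    constructor <;> linarith [f2.1, f2.2, f3.1, f3.2, b2.1, b2.2, b3.1, b3.2, hg.1, hg.2]
  have g1 := abs_mul_le' hs13 f1
  have g2 := abs_mul_le' hr13 f4
  have g3 := qq_le (κ := ‖c‖) h0 h1 h2 hs13 hr13
  rw [abs_le] at b1 g1 g2 g3 ⊢
  constructor <;> linarith [b1.1, b1.2, g1.1, g1.2, g2.1, g2.2, g3.1, g3.2]

theorem qf_le (x : ℂ) : |qf c x| ≤ ‖c‖ * ‖x‖ ^ 2 := by
  unfold qf
  refine (Complex.abs_re_le_norm _).trans ?_
  rw [norm_mul, norm_pow]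

set_option maxHeartbeats 4000000 in
theorem wp_close (hm : 2 ≤ m) (i : ℕ) (hi : i ≤ m) (x : ℂ)
    (hx4 : ‖x - hx.pt (2 * (i : ℝ) + 2) 0‖ ≤ 4) : |wp m c i x - qf c x| ≤ 10 ^ 4 * ‖c‖ := by
  obtain ⟨h0, h1, h2⟩ := re_bounds c
  have hg := gam_le c
  have hκ : 0 ≤ ‖c‖ := norm_nonneg c
  obtain ⟨hd0, hd1, hd2⟩ := dl_bounds hm
  unfold wp
  split_ifs with hi0 him
  · subst hi0
    rw [zero_sub, abs_neg]
    refine (qf_le c x).trans ?_
    have h3 : ‖x‖ ≤ 6 := by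
      have e : hx.pt (2 * ((0 : ℕ) : ℝ) + 2) 0 = 2 := by rw [pt_eq]; push_cast; ring
      rw [e] at hx4
      calc ‖x‖ = ‖(x - 2) + 2‖ := by rw [sub_add_cancel]
        _ ≤ ‖x - 2‖ + ‖(2 : ℂ)‖ := norm_add_le _ _
        _ ≤ 4 + 2 := by
          have : ‖(2 : ℂ)‖ = 2 := by norm_num
          rw [this]; gcongr
        _ = 6 := by norm_num
    have h4 : ‖x‖ ^ 2 ≤ 6 ^ 2 := pow_le_pow_left₀ (norm_nonneg _) h3 2
    nlinarith
  · subst him
    rw [lM_eq, sub_sub_cancel_left, abs_neg]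
    refine (qf_le c _).trans ?_
    have h3 : ‖x - (Lm i : ℂ)‖ ≤ 5 := by
      have e : x - (Lm i : ℂ) = (x - hx.pt (2 * (i : ℝ) + 2) 0) - 1 := by
        rw [pt_eq]; unfold Lm; push_cast; ring
      rw [e]
      calc _ ≤ ‖x - hx.pt (2 * (i : ℝ) + 2) 0‖ + ‖(1 : ℂ)‖ := norm_sub_le _ _
        _ ≤ 4 + 1 := by rw [norm_one]; gcongr
        _ = 5 := by norm_num
    have h4 : ‖x - (Lm i : ℂ)‖ ^ 2 ≤ 5 ^ 2 := pow_le_pow_left₀ (norm_nonneg _) h3 2
    nlinarith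
  · obtain ⟨k, rfl⟩ : ∃ k, i = k + 1 := ⟨i - 1, by omega⟩
    have hkm : k + 1 < m := lt_of_le_of_ne hi him
    have hk' : (k : ℝ) + 2 ≤ m := by exact_mod_cast hkm
    rw [Nat.add_sub_cancel]
    have a1 := hx_cs_sub x (hx.pt (2 * ((k + 1 : ℕ) : ℝ) + 2) 0)
    have a2 := hx_cr_sub x (hx.pt (2 * ((k + 1 : ℕ) : ℝ) + 2) 0)
    rw [hx_cs_pt] at a1
    rw [hx_cr_pt, sub_zero] at a2
    obtain ⟨s, hs⟩ : ∃ s, s = hx.cs x - (2 * ((k + 1 : ℕ) : ℝ) + 2) := ⟨_, rfl⟩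
    obtain ⟨r, hr⟩ : ∃ r, r = hx.cr x := ⟨_, rfl⟩
    have hs8 : |s| ≤ 8 := by rw [hs]; linarith
    have hr8 : |r| ≤ 8 := by rw [hr]; linarith
    obtain ⟨e1, he1⟩ : ∃ e, e = aD m c (k + 1) - qq c.re (c * zt).re (2 * k + 3) 1 := ⟨_, rfl⟩
    obtain ⟨e2, he2⟩ : ∃ e, e = aU m c (k + 1) - qq c.re (c * zt).re (2 * k + 5) (-1 + dl m) :=
      ⟨_, rfl⟩
    obtain ⟨e3, he3⟩ : ∃ e, e = aU m c k - qq c.re (c * zt).re (2 * k + 3) (-1 + dl m) := ⟨_, rfl⟩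
    have b1 : |e1| ≤ 20 * ‖c‖ := by
      rw [he1]
      have := aD_close c hm (k + 1) hi
      have e : (2 * ((k + 1 : ℕ) : ℝ) + 1) = 2 * k + 3 := by push_cast; ring
      rw [e] at this
      exact this
    have b2 : |e2| ≤ 20 * ‖c‖ := by
      rw [he2]
      have := aU_close c hm (k + 1) hkm
      have e : (2 * ((k + 1 : ℕ) : ℝ) + 3) = 2 * k + 5 := by push_cast; ring
      rw [e] at this
      exact this
    have b3 : |e3| ≤ 20 * ‖c‖ := by rw [he3]; exact aU_close c hm k (by omega)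
    obtain ⟨k1, k2⟩ := hd2 (2 * k + 5) (by positivity) (by linarith)
    have hd : (1 : ℝ) - dl m ≠ 0 := by linarith
    obtain ⟨EN, hEN⟩ : ∃ E, E = c.re + (c * zt).re * (-2 + (2 * k + 5) * dl m) +
      ((c * zt).re - c.re) * ((1 + (1 - dl m) ^ 2) / 2) + (e2 + e1) / 2 + gam c := ⟨_, rfl⟩
    obtain ⟨E', hE'⟩ : ∃ E, E = EN - c.re - ((c * zt).re - c.re) * (1 - dl m) ^ 2 -
      (e2 + e3) / 2 := ⟨_, rfl⟩
    have key : aN m c (2 * (k + 1)) + (aU m c (k + 1) - aU m c k) / 2 *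
        (hx.cs x - (2 * ((k + 1 : ℕ) : ℝ) + 2)) +
        (aN m c (2 * (k + 1)) - (aU m c (k + 1) + aU m c k) / 2) / (1 - dl m) * hx.cr x - qf c x =
        EN + s * ((c * zt).re * (-2 * (1 - dl m)) + (e2 - e3) / 2) + r * (E' / (1 - dl m)) -
        qq c.re (c * zt).re s r := by
      have hD : aD m c (k + 1) = e1 + qq c.re (c * zt).re (2 * k + 3) 1 := by rw [he1]; ring
      have hU : aU m c (k + 1) = e2 + qq c.re (c * zt).re (2 * k + 5) (-1 + dl m) := by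
        rw [he2]; ring
      have hU' : aU m c k = e3 + qq c.re (c * zt).re (2 * k + 3) (-1 + dl m) := by rw [he3]; ring
      have hN : aN m c (2 * (k + 1)) = c.re * (2 * k + 4) ^ 2 + EN := by
        rw [aN_eq, hD, hU, hEN]
        unfold qq
        ring
      have hq : (aN m c (2 * (k + 1)) - (aU m c (k + 1) + aU m c k) / 2) / (1 - dl m) =
          2 * (c * zt).re * (2 * k + 4) + E' / (1 - dl m) := by
        rw [hN, hU, hU', hE', div_eq_iff hd, add_mul, div_mul_cancel₀ _ hd]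
        unfold qq
        ring
      rw [hq, hN, hU, hU', qf_eq]
      have hcs : hx.cs x = s + (2 * k + 4) := by rw [hs]; push_cast; ring
      have hcr : hx.cr x = r := hr.symm
      rw [hcs, hcr]
      unfold qq
      push_cast
      ring
    rw [key]
    have f1 : |(c * zt).re * (-2 + (2 * k + 5) * dl m)| ≤ ‖c‖ * 2 := abs_mul_le' h1 (by
      rw [abs_le]; constructor <;> linarith)
    have q0 : (0 : ℝ) ≤ (1 - dl m) ^ 2 := sq_nonneg _
    have q1 : (1 - dl m) ^ 2 ≤ (1 : ℝ) := pow_le_one₀ (by linarith) (by linarith)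
    have f2 : |((c * zt).re - c.re) * ((1 + (1 - dl m) ^ 2) / 2)| ≤ ‖c‖ * 1 := abs_mul_le' h2 (by
      rw [abs_le]; constructor <;> linarith)
    have f3 : |EN| ≤ 30 * ‖c‖ := by
      rw [hEN]
      rw [abs_le] at f1 f2 b1 b2 hg h0 ⊢
      constructor <;> linarith [f1.1, f1.2, f2.1, f2.2, b1.1, b1.2, b2.1, b2.2, hg.1, hg.2,
        h0.1, h0.2]
    have f4 : |((c * zt).re - c.re) * (1 - dl m) ^ 2| ≤ ‖c‖ * 1 := abs_mul_le' h2 (by
      rw [abs_le]; constructor <;> linarith)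
    have f5 : |E'| ≤ 60 * ‖c‖ := by
      rw [hE']
      rw [abs_le] at f3 f4 b2 b3 h0 ⊢
      constructor <;> linarith [f3.1, f3.2, f4.1, f4.2, b2.1, b2.2, b3.1, b3.2, h0.1, h0.2]
    have f6 : |E' / (1 - dl m)| ≤ 120 * ‖c‖ := by
      rw [abs_div, abs_of_pos (show (0 : ℝ) < 1 - dl m by linarith),
        div_le_iff₀ (show (0 : ℝ) < 1 - dl m by linarith)]
      nlinarith
    have f7 : |(c * zt).re * (-2 * (1 - dl m))| ≤ ‖c‖ * 2 := abs_mul_le' h1 (by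
      rw [abs_le]; constructor <;> linarith)
    have f8 : |(c * zt).re * (-2 * (1 - dl m)) + (e2 - e3) / 2| ≤ 30 * ‖c‖ := by
      rw [abs_le] at f7 b2 b3 ⊢
      constructor <;> linarith [f7.1, f7.2, b2.1, b2.2, b3.1, b3.2]
    have g1 := abs_mul_le' hs8 f8
    have g2 := abs_mul_le' hr8 f6
    have g3 := qq_le (κ := ‖c‖) h0 h1 h2 hs8 hr8
    rw [abs_le] at f3 g1 g2 g3 ⊢
    constructor <;> linarith [f3.1, f3.2, g1.1, g1.2, g2.1, g2.2, g3.1, g3.2]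

theorem bL_close (hm : 2 ≤ m) (x : ℂ) (hx4 : ‖x - hx.D 0‖ ≤ 4) :
    |bL m c x - qf c x| ≤ 10 ^ 4 * ‖c‖ := by
  have hz6 : zt ^ 6 = 1 := by
    have : zt ^ 6 = (zt ^ 3) ^ 2 := by ring
    rw [this, zt_cube]; norm_num
  have hy : zt ^ 2 * x + Lm m = zt ^ 2 * (x - Lm m * zt) := by
    have : zt ^ 2 * (x - Lm m * zt) = zt ^ 2 * x - Lm m * zt ^ 3 := by ring
    rw [this, zt_cube]; ring
  have e1 : qf (c * zt ^ 2) (zt ^ 2 * x + Lm m) = qf c (x - Lm m * zt) := by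
    rw [hy]
    unfold qf
    congr 1
    have : c * zt ^ 2 * (zt ^ 2 * (x - Lm m * zt)) ^ 2 = c * (x - Lm m * zt) ^ 2 * zt ^ 6 := by ring
    rw [this, hz6, mul_one]
  have e2 : qf c (Lm m * zt) + 2 * (c * (Lm m * zt) * (x - Lm m * zt)).re =
      qf c x - qf c (x - Lm m * zt) := by
    unfold qf
    have h : c * x ^ 2 = c * (Lm m * zt) ^ 2 + 2 * (c * (Lm m * zt) * (x - Lm m * zt)) +
      c * (x - Lm m * zt) ^ 2 := by ring
    rw [h, Complex.add_re, Complex.add_re]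
    have h2 : (2 * (c * (Lm m * zt) * (x - Lm m * zt))).re =
        2 * (c * (Lm m * zt) * (x - Lm m * zt)).re := by
      rw [Complex.mul_re]; simp
    rw [h2]; ring
  have e3 : bL m c x - qf c x = bp m (c * zt ^ 2) (m - 1) (zt ^ 2 * x + Lm m) -
      qf (c * zt ^ 2) (zt ^ 2 * x + Lm m) := by
    unfold bL
    rw [e2, e1]; ring
  have e4 : ‖c * zt ^ 2‖ = ‖c‖ := by rw [norm_mul, norm_pow, norm_zt, one_pow, mul_one]
  rw [e3, ← e4]
  refine bp_close (c * zt ^ 2) hm (m - 1) (by omega) _ ?_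
  have hN : hx.N (2 * (m - 1)) = 2 * m := by
    unfold Frame.N
    rw [pt_eq]
    have : ((2 * (m - 1) : ℕ) : ℝ) = 2 * m - 2 := by
      rw [Nat.cast_mul, Nat.cast_sub (by omega)]; push_cast; ring
    rw [this]; push_cast; ring
  have hD : hx.D 0 = 1 + zt := by
    unfold Frame.D
    rw [pt_eq]; push_cast; ring
  rw [hN]
  have e5 : zt ^ 2 * x + Lm m - 2 * m = zt ^ 2 * (x - hx.D 0) + (zt + 1) := by
    rw [hD]
    have : zt ^ 2 * (x - (1 + zt)) = zt ^ 2 * x - zt ^ 2 - zt ^ 3 := by ring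
    rw [this, zt_cube, zt_sq]
    unfold Lm; push_cast; ring
  rw [e5]
  calc _ ≤ ‖zt ^ 2 * (x - hx.D 0)‖ + ‖zt + 1‖ := norm_add_le _ _
    _ ≤ 4 + 2 := by
      gcongr
      · rw [norm_mul, norm_pow, norm_zt, one_pow, one_mul]; exact hx4
      · refine (norm_add_le _ _).trans ?_
        rw [norm_zt, norm_one]; norm_num
    _ = 6 := by norm_num

end est

/-- the planes are uniformly close to the quadratic form near their crack clusters -/
theorem planes_close : ∃ K : ℝ, 0 < K ∧ ∀ (m : ℕ), 2 ≤ m → ∀ (c : ℂ),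
    (∀ i < m, ∀ x, ‖x - hx.N (2 * i)‖ ≤ 4 → |bp m c i x - qf c x| ≤ K * ‖c‖) ∧
    (∀ i ≤ m, ∀ x, ‖x - hx.pt (2 * (i : ℝ) + 2) 0‖ ≤ 4 → |wp m c i x - qf c x| ≤ K * ‖c‖) ∧
    (∀ x, ‖x - hx.D 0‖ ≤ 4 → |bL m c x - qf c x| ≤ K * ‖c‖) := by
  refine ⟨10 ^ 4, by norm_num, fun m hm c => ⟨fun i hi x hx4 => ?_, fun i hi x hx4 => ?_,
    fun x hx4 => ?_⟩⟩
  · exact bp_close c hm i hi x (by linarith)
  · exact wp_close c hm i hi x hx4
  · exact bL_close c hm x hx4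


end JS5b
export JS5b (planes_close)

end Porous
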