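import Pool.Agent.Porous.S4
import Pool.Agent.Porous.S5a
import Pool.Agent.Porous.S5b

open MeasureTheory Complex Set
open scoped ContDiff ENNReal
noncomputable section
namespace Porous
namespace JS7a

/-! TARGET -/

theorem S7_zt : ‖zt‖ = 1 := by
  have h3 : Real.sqrt 3 * Real.sqrt 3 = 3 := Real.mul_self_sqrt (by norm_num)
  rw [Complex.norm_def, Real.sqrt_eq_one]
  unfold zt
  rw [Complex.normSq_mk]
  nlinarith

theorem S7_pt (s r : ℝ) : hx.pt s r = (s : ℂ) + (r : ℂ) * zt := by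
  unfold Frame.pt hx
  simp

/-- the energy near one hinge, in terms of functions -/
theorem S7_item {θ : ℂ → ℝ} (hθ : ThetaOK θ) {Xi : ℂ → ℝ} {KX : ℝ} (hXi : XiOK Xi KX) :
    ∃ K : ℝ, 0 < K ∧ ∀ (a : ℝ), 0 < a → a ≤ 1 / 2 → ∀ (z P d c : ℂ), ‖d‖ = 1 → ‖P - z‖ ≤ 1 / 2 →
      ∀ lm lq : ℂ → ℝ, (∃ (α : ℝ) (g : ℂ), ∀ x, lm x = α + (g * x).re) →
      (∃ (α : ℝ) (g : ℂ), ∀ x, lq x = α + (g * x).re) → ∀ (B : ℝ), 0 ≤ B →
      (∀ x, ‖x - z‖ ≤ 1 → |lm x - qf c x| ≤ B) →
      (∀ x, ‖x - z‖ ≤ 1 → |lq x - qf c x| ≤ B) →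
      lm P = lq P → ∀ F : ℂ → ℝ, (∀ x, F x = hg Xi a P d lm lq x - qf c x) →
      ContDiff ℝ ∞ (fun x => θ (x - z) * F x) ∧
      Integrable (fun x => ‖iteratedFDeriv ℝ 2 (fun x => θ (x - z) * F x) x‖ ^ 2) ∧
      ∫ x, ‖iteratedFDeriv ℝ 2 (fun x => θ (x - z) * F x) x‖ ^ 2
        ≤ K * (B + ‖c‖) ^ 2 * (1 + |Real.log a|) := by
  obtain ⟨K, hK, H⟩ := hinge_energy hθ hXi
  refine ⟨K, hK, ?_⟩
  intro a ha ha' z P d c hd hP lm lq hlm hlq B hB h1 h2 heq F hF
  obtain ⟨αm, gm, hm⟩ := hlm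
  obtain ⟨αq, gq, hq⟩ := hlq
  obtain rfl : lm = fun x => αm + (gm * x).re := funext hm
  obtain rfl : lq = fun x => αq + (gq * x).re := funext hq
  obtain rfl : F = fun x => hg Xi a P d (fun x => αm + (gm * x).re)
    (fun x => αq + (gq * x).re) x - qf c x := funext hF
  exact H a ha ha' z P d c hd hP αm αq gm gq B hB h1 h2 heq

/-- energy of the contribution of one lattice point -/
theorem item_energy {θ : ℂ → ℝ} (hθ : ThetaOK θ) {Xi : ℂ → ℝ} {KX : ℝ} (hXi : XiOK Xi KX) :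
    ∃ K : ℝ, 0 < K ∧ ∀ (m : ℕ), 2 ≤ m → ∀ (a : ℝ), 0 < a → a ≤ 1 / 2 → ∀ (c : ℂ) (p : ℤ × ℤ),
      ContDiff ℝ ∞ (fun x => θ (x - lp p) * Dev Xi m a c p x) ∧
      Integrable (fun x => ‖iteratedFDeriv ℝ 2 (fun x => θ (x - lp p) * Dev Xi m a c p x) x‖ ^ 2) ∧
      ∫ x, ‖iteratedFDeriv ℝ 2 (fun x => θ (x - lp p) * Dev Xi m a c p x) x‖ ^ 2
        ≤ K * ‖c‖ ^ 2 * (1 + |Real.log a|) := by
  obtain ⟨K1, hK1, H1⟩ := S7_item hθ hXi
  obtain ⟨K2, hK2, H2⟩ := planes_close
  refine ⟨K1 * (K2 + 1) ^ 2, by positivity, ?_⟩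
  intro m hm a ha ha' c p
  obtain ⟨cb, cw, cL⟩ := H2 m hm c
  have hc0 := norm_nonneg c
  have hB : 0 ≤ K2 * ‖c‖ := by positivity
  -- the reduction
  have red : ∀ (P d : ℂ) (lm lq : ℂ → ℝ), ‖d‖ = 1 → ‖P - lp p‖ ≤ 1 / 2 →
      (∃ (α : ℝ) (g : ℂ), ∀ x, lm x = α + (g * x).re) →
      (∃ (α : ℝ) (g : ℂ), ∀ x, lq x = α + (g * x).re) →
      (∀ x, ‖x - lp p‖ ≤ 1 → |lm x - qf c x| ≤ K2 * ‖c‖) →
      (∀ x, ‖x - lp p‖ ≤ 1 → |lq x - qf c x| ≤ K2 * ‖c‖) → lm P = lq P →
      (∀ x, Dev Xi m a c p x = hg Xi a P d lm lq x - qf c x) →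
      ContDiff ℝ ∞ (fun x => θ (x - lp p) * Dev Xi m a c p x) ∧
      Integrable (fun x => ‖iteratedFDeriv ℝ 2 (fun x => θ (x - lp p) * Dev Xi m a c p x) x‖ ^ 2) ∧
      ∫ x, ‖iteratedFDeriv ℝ 2 (fun x => θ (x - lp p) * Dev Xi m a c p x) x‖ ^ 2
        ≤ K1 * (K2 + 1) ^ 2 * ‖c‖ ^ 2 * (1 + |Real.log a|) := by
    intro P d lm lq hd hP h1 h2 h3 h4 h5 h6
    obtain ⟨r1, r2, r3⟩ := H1 a ha ha' (lp p) P d c hd hP lm lq h1 h2 (K2 * ‖c‖) hB h3 h4 h5
      (Dev Xi m a c p) h6
    refine ⟨r1, r2, r3.trans (le_of_eq ?_)⟩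
    ring
  have close : ∀ (l : ℂ → ℝ) (ce : ℂ), (∀ x, ‖x - ce‖ ≤ 4 → |l x - qf c x| ≤ K2 * ‖c‖) →
      ‖lp p - ce‖ ≤ 3 → ∀ x, ‖x - lp p‖ ≤ 1 → |l x - qf c x| ≤ K2 * ‖c‖ := by
    intro l ce h1 h2 x hx
    apply h1
    calc ‖x - ce‖ = ‖(x - lp p) + (lp p - ce)‖ := by congr 1; ring
      _ ≤ ‖x - lp p‖ + ‖lp p - ce‖ := norm_add_le _ _
      _ ≤ 4 := by linarith
  have hgsame : ∀ (P d : ℂ) (l : ℂ → ℝ) (x : ℂ), hg Xi a P d l l x = l x := by
    intro P d l x
    unfold hg
    rw [sub_self, mul_zero, add_zero]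
  have hz1 : ‖(1:ℂ)‖ = 1 := norm_one
  by_cases hSp : Sp m p
  · have hDev : ∀ x, Dev Xi m a c p x = LL Xi m a c p x - qf c x := by
      intro x; unfold Dev; rw [if_pos hSp]
    have hsp := hSp
    obtain ⟨p1, p2⟩ := p
    rcases hsp with ⟨h2, h1l, h1u⟩ | ⟨h2, i, hi, h1⟩ | ⟨h2, i, hi, h1⟩
    · simp only at h2 h1l h1u
      subst h2
      have hlp : lp (p1, 0) = (p1 : ℂ) := by
        unfold lp; push_cast; ring
      by_cases e1 : p1 = 1
      · subst e1
        have hw0 : wp m c 0 = fun _ => 0 := by funext x; unfold wp; rw [if_pos rfl]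
        refine red (lp (1, 0)) 1 (wp m c 0) (wp m c 0) hz1 (by simp) (planes_affine m c 0).2.1
          (planes_affine m c 0).2.1 ?_ ?_ rfl ?_
        · refine close _ _ (cw 0 (Nat.zero_le _)) ?_
          rw [hlp, S7_pt]
          have : ((1:ℤ):ℂ) - (((2 * ((0:ℕ):ℝ) + 2 : ℝ) : ℂ) + ((0:ℝ):ℂ) * zt) = -1 := by
            push_cast; ring
          rw [this, norm_neg, norm_one]; norm_num
        · refine close _ _ (cw 0 (Nat.zero_le _)) ?_
          rw [hlp, S7_pt]
          have : ((1:ℤ):ℂ) - (((2 * ((0:ℕ):ℝ) + 2 : ℝ) : ℂ) + ((0:ℝ):ℂ) * zt) = -1 := by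
            push_cast; ring
          rw [this, norm_neg, norm_one]; norm_num
        · intro x
          rw [hDev, hgsame, hw0]
          unfold LL
          rw [if_pos rfl, if_pos rfl]
      · by_cases e2 : p1 = 2 * (m : ℤ) + 2
        · have hwm : wp m c m = lM m c := by
            funext x; unfold wp
            rw [if_neg (by omega), if_pos rfl]
          have hcl : ∀ x, ‖x - lp (p1, 0)‖ ≤ 1 → |lM m c x - qf c x| ≤ K2 * ‖c‖ := by
            rw [← hwm]
            refine close _ _ (cw m le_rfl) ?_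
            rw [hlp, S7_pt, e2]
            have : ((2 * (m : ℤ) + 2 : ℤ) : ℂ) - (((2 * (m:ℝ) + 2 : ℝ) : ℂ) + ((0:ℝ):ℂ) * zt) = 0 := by
              push_cast; ring
            rw [this, norm_zero]; norm_num
          refine red (lp (p1, 0)) 1 (lM m c) (lM m c) hz1 (by simp) (planes_affine m c 0).2.2.2
            (planes_affine m c 0).2.2.2 hcl hcl rfl ?_
          intro x
          rw [hDev, hgsame]
          unfold LL
          rw [if_pos rfl, if_neg e1, if_pos e2]
        · obtain ⟨j, hj⟩ : ∃ j : ℕ, j = (p1 - 2).toNat := ⟨_, rfl⟩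
          have hjp : p1 = (j : ℤ) + 2 := by omega
          have hj2 : j < 2 * m := by omega
          have hP : hx.N j = lp (p1, 0) := by
            rw [hlp, hjp]
            unfold Frame.N
            rw [S7_pt]; push_cast; ring
          have hd1 : ‖(if Even j then zt else zt ^ 2)‖ = 1 := by
            split_ifs
            · exact S7_zt
            · rw [norm_pow, S7_zt, one_pow]
          refine red (hx.N j) (if Even j then zt else zt ^ 2) (wp m c ((j + 1) / 2))
            (bp m c (j / 2)) hd1 (by rw [hP, sub_self, norm_zero]; norm_num)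
            (planes_affine m c _).2.1 (planes_affine m c _).1 ?_ ?_ ?_ ?_
          · refine close _ _ (cw ((j + 1) / 2) (by omega)) ?_
            rw [hlp, S7_pt, hjp]
            rcases Nat.even_or_odd' j with ⟨i, rfl | rfl⟩
            · have h3 : (2 * i + 1) / 2 = i := by omega
              rw [h3]
              have : (((2 * i : ℕ) : ℤ) + 2 : ℤ) - (((2 * (i:ℝ) + 2 : ℝ) : ℂ) + ((0:ℝ):ℂ) * zt) =
                  (0:ℂ) := by push_cast; ring
              rw [this, norm_zero]; norm_num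
            · have h3 : (2 * i + 1 + 1) / 2 = i + 1 := by omega
              rw [h3]
              have : (((2 * i + 1 : ℕ) : ℤ) + 2 : ℤ) -
                  (((2 * ((i + 1 : ℕ):ℝ) + 2 : ℝ) : ℂ) + ((0:ℝ):ℂ) * zt) = (-1:ℂ) := by
                push_cast; ring
              rw [this, norm_neg, norm_one]; norm_num
          · refine close _ _ (cb (j / 2) (by omega)) ?_
            unfold Frame.N
            rw [hlp, S7_pt, hjp]
            rcases Nat.even_or_odd' j with ⟨i, rfl | rfl⟩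
            · have h3 : (2 * i) / 2 = i := by omega
              rw [h3]
              have : (((2 * i : ℕ) : ℤ) + 2 : ℤ) -
                  (((((2 * i : ℕ)):ℝ) + 2 : ℝ) + ((0:ℝ):ℂ) * zt) = (0:ℂ) := by push_cast; ring
              rw [this, norm_zero]; norm_num
            · have h3 : (2 * i + 1) / 2 = i := by omega
              rw [h3]
              have : (((2 * i + 1 : ℕ) : ℤ) + 2 : ℤ) -
                  (((((2 * i : ℕ)):ℝ) + 2 : ℝ) + ((0:ℝ):ℂ) * zt) = (1:ℂ) := by push_cast; ring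
              rw [this, norm_one]; norm_num
          · rcases Nat.even_or_odd' j with ⟨i, rfl | rfl⟩
            · have h3 : (2 * i + 1) / 2 = i := by omega
              have h4 : (2 * i) / 2 = i := by omega
              rw [h3, h4, (wp_values m hm c i (by omega)).1, (bp_values m hm c i (by omega)).2.2.1]
            · have h3 : (2 * i + 1 + 1) / 2 = i + 1 := by omega
              have h4 : (2 * i + 1) / 2 = i := by omega
              rw [h3, h4, (wp_values m hm c i (by omega)).2.1,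
                (bp_values m hm c i (by omega)).2.2.2]
          · intro x
            rw [hDev]
            unfold LL
            rw [if_pos rfl, if_neg e1, if_neg e2, ← hj]
            rfl
    · simp only at h2 h1
      subst h2
      subst h1
      have htn : ((2 * (i : ℤ) + 1 - 1) / 2).toNat = i := by omega
      have hlp : lp (2 * (i : ℤ) + 1, 1) = 2 * (i : ℂ) + 1 + zt := by
        unfold lp; push_cast; ring
      have hP : hx.D i = lp (2 * (i : ℤ) + 1, 1) := by
        rw [hlp]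
        unfold Frame.D
        rw [S7_pt]; push_cast; ring
      refine red (hx.D i) 1 (if i = 0 then bL m c else bp m c (i - 1)) (bp m c i) hz1
        (by rw [hP, sub_self, norm_zero]; norm_num) ?_ (planes_affine m c i).1 ?_ ?_ ?_ ?_
      · split_ifs
        · exact (planes_affine m c 0).2.2.1
        · exact (planes_affine m c _).1
      · split_ifs with hi0
        · refine close _ _ cL ?_
          rw [← hP, hi0, sub_self, norm_zero]; norm_num
        · refine close _ _ (cb (i - 1) (by omega)) ?_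
          unfold Frame.N
          rw [hlp, S7_pt]
          obtain ⟨k, rfl⟩ : ∃ k, i = k + 1 := ⟨i - 1, by omega⟩
          have : 2 * (((k + 1 : ℕ)) : ℂ) + 1 + zt -
              ((((((2 * (k + 1 - 1) : ℕ)):ℝ) + 2 : ℝ) : ℂ) + ((0:ℝ):ℂ) * zt) = 1 + zt := by
            rw [Nat.add_sub_cancel]; push_cast; ring
          rw [this]
          refine (norm_add_le _ _).trans ?_
          rw [norm_one, S7_zt]; norm_num
      · refine close _ _ (cb i hi) ?_
        unfold Frame.N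
        rw [hlp, S7_pt]
        have : 2 * (i : ℂ) + 1 + zt -
            ((((((2 * i : ℕ)):ℝ) + 2 : ℝ) : ℂ) + ((0:ℝ):ℂ) * zt) = -1 + zt := by
          push_cast; ring
        rw [this]
        refine (norm_add_le _ _).trans ?_
        rw [norm_neg, norm_one, S7_zt]; norm_num
      · split_ifs with hi0
        · subst hi0
          rw [bL_value m hm c, (bp_values m hm c 0 hi).1]
        · obtain ⟨k, rfl⟩ : ∃ k, i = k + 1 := ⟨i - 1, by omega⟩
          rw [Nat.add_sub_cancel, (bp_values m hm c k (by omega)).2.1,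
            (bp_values m hm c (k + 1) hi).1]
      · intro x
        rw [hDev]
        unfold LL
        rw [if_neg (show ¬ ((2 * (i : ℤ) + 1, (1 : ℤ)).2 = 0) by simp), if_pos rfl]
        show LD Xi m a c ((2 * (i : ℤ) + 1 - 1) / 2).toNat x - qf c x = _
        rw [htn]
        unfold LD
        congr 2
    · simp only at h2 h1
      subst h2
      subst h1
      have htn : ((2 * (i : ℤ) + 3 - 3) / 2).toNat = i := by omega
      have hlp : lp (2 * (i : ℤ) + 3, -1) = 2 * (i : ℂ) + 3 - zt := by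
        unfold lp; push_cast; ring
      have hP : hx.U m i - lp (2 * (i : ℤ) + 3, -1) = ((1 / (2 * (m : ℝ) + 3) : ℝ) : ℂ) * zt := by
        rw [hlp]
        unfold Frame.U
        rw [S7_pt]; push_cast; ring
      refine red (hx.U m i) 1 (wp m c i) (wp m c (i + 1)) hz1 ?_ (planes_affine m c i).2.1
        (planes_affine m c (i + 1)).2.1 ?_ ?_ ?_ ?_
      · rw [hP, norm_mul, S7_zt, mul_one, Complex.norm_real, Real.norm_eq_abs]
        have hm' : (2:ℝ) ≤ m := by exact_mod_cast hm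
        rw [abs_of_pos (by positivity)]
        rw [div_le_div_iff₀ (by positivity) (by norm_num)]
        linarith
      · refine close _ _ (cw i (by omega)) ?_
        rw [hlp, S7_pt]
        have : 2 * (i : ℂ) + 3 - zt - (((2 * (i:ℝ) + 2 : ℝ) : ℂ) + ((0:ℝ):ℂ) * zt) = 1 - zt := by
          push_cast; ring
        rw [this]
        refine (norm_sub_le _ _).trans ?_
        rw [norm_one, S7_zt]; norm_num
      · refine close _ _ (cw (i + 1) (by omega)) ?_
        rw [hlp, S7_pt]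
        have : 2 * (i : ℂ) + 3 - zt - (((2 * (((i + 1 : ℕ)):ℝ) + 2 : ℝ) : ℂ) + ((0:ℝ):ℂ) * zt) =
            -1 - zt := by
          push_cast; ring
        rw [this]
        refine (norm_sub_le _ _).trans ?_
        rw [norm_neg, norm_one, S7_zt]; norm_num
      · rw [(wp_values m hm c i hi).2.2.1, (wp_values m hm c i hi).2.2.2]
      · intro x
        rw [hDev]
        unfold LL
        rw [if_neg (show ¬ ((2 * (i : ℤ) + 3, (-1 : ℤ)).2 = 0) by simp),
          if_neg (show ¬ ((2 * (i : ℤ) + 3, (-1 : ℤ)).2 = 1) by simp)]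
        show LU Xi m a c ((2 * (i : ℤ) + 3 - 3) / 2).toNat x - qf c x = _
        rw [htn]
        rfl
  · have hDev : ∀ x, Dev Xi m a c p x = 0 := by
      intro x; unfold Dev; rw [if_neg hSp]
    have hfun : (fun x => θ (x - lp p) * Dev Xi m a c p x) = fun _ => 0 := by
      funext x; rw [hDev, mul_zero]
    rw [hfun]
    have h0 : ∀ x : ℂ, iteratedFDeriv ℝ 2 (fun _ : ℂ => (0:ℝ)) x = 0 := by
      intro x
      rw [iteratedFDeriv_fun_zero]
      rfl
    refine ⟨contDiff_const, ?_, ?_⟩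
    · simp only [h0, norm_zero]
      norm_num
    · simp only [h0, norm_zero]
      norm_num
      positivity

/-- energy of the contribution of a vertex of the tiling -/
theorem vertex_energy {θ : ℂ → ℝ} (hθ : ThetaOK θ) :
    ∃ K : ℝ, 0 < K ∧ ∀ (c : ℂ), ContDiff ℝ ∞ (fun x => θ x * qf c x) ∧
      Integrable (fun x => ‖iteratedFDeriv ℝ 2 (fun x => θ x * qf c x) x‖ ^ 2) ∧
      ∫ x, ‖iteratedFDeriv ℝ 2 (fun x => θ x * qf c x) x‖ ^ 2 ≤ K * ‖c‖ ^ 2 := by
  have hre : ContDiff ℝ ∞ (fun x : ℂ => (x ^ 2).re) :=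
    Complex.reCLM.contDiff.comp (contDiff_id.pow 2)
  have him : ContDiff ℝ ∞ (fun x : ℂ => (x ^ 2).im) :=
    Complex.imCLM.contDiff.comp (contDiff_id.pow 2)
  obtain ⟨A, hA⟩ : ∃ A : ℂ → ℝ, A = fun x => θ x * (x ^ 2).re := ⟨_, rfl⟩
  obtain ⟨B, hB⟩ : ∃ B : ℂ → ℝ, B = fun x => θ x * (x ^ 2).im := ⟨_, rfl⟩
  have cA : ContDiff ℝ ∞ A := by rw [hA]; exact hθ.smooth.mul hre
  have cB : ContDiff ℝ ∞ B := by rw [hB]; exact hθ.smooth.mul him
  have hθc : HasCompactSupport θ := by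
    refine HasCompactSupport.intro (isCompact_closedBall (0:ℂ) 0.86) (fun x hx => ?_)
    apply hθ.supp
    rw [mem_closedBall_zero_iff, not_le] at hx
    exact hx.le
  have sA : HasCompactSupport A := by rw [hA]; exact hθc.mul_right
  have sB : HasCompactSupport B := by rw [hB]; exact hθc.mul_right
  have int : ∀ f : ℂ → ℝ, ContDiff ℝ ∞ f → HasCompactSupport f →
      Integrable (fun x => ‖iteratedFDeriv ℝ 2 f x‖ ^ 2) := by
    intro f hf hs
    have h1 : Continuous (fun x => iteratedFDeriv ℝ 2 f x) :=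
      hf.continuous_iteratedFDeriv (WithTop.coe_le_coe.2 le_top)
    have h2 : HasCompactSupport (fun x => iteratedFDeriv ℝ 2 f x) := hs.iteratedFDeriv 2
    have h3 : HasCompactSupport (fun x => ‖iteratedFDeriv ℝ 2 f x‖ ^ 2) :=
      h2.comp_left (g := fun y => ‖y‖ ^ 2) (by simp)
    exact (h1.norm.pow 2).integrable_of_hasCompactSupport h3
  have iA := int A cA sA
  have iB := int B cB sB
  refine ⟨2 * (∫ x, (‖iteratedFDeriv ℝ 2 A x‖ ^ 2 + ‖iteratedFDeriv ℝ 2 B x‖ ^ 2)) + 1, ?_, ?_⟩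
  · have : 0 ≤ ∫ x, (‖iteratedFDeriv ℝ 2 A x‖ ^ 2 + ‖iteratedFDeriv ℝ 2 B x‖ ^ 2) :=
      integral_nonneg (fun x => by positivity)
    linarith
  intro c
  have hq : ContDiff ℝ ∞ (fun x => qf c x) := by
    unfold qf
    exact Complex.reCLM.contDiff.comp (contDiff_const.mul (contDiff_id.pow 2))
  have cF : ContDiff ℝ ∞ (fun x => θ x * qf c x) := hθ.smooth.mul hq
  have sF : HasCompactSupport (fun x => θ x * qf c x) := hθc.mul_right
  have iF := int _ cF sF
  refine ⟨cF, iF, ?_⟩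
  have hF : (fun x => θ x * qf c x) = (fun x => c.re • A x) - (fun x => c.im • B x) := by
    funext x
    rw [hA, hB]
    simp only [Pi.sub_apply, qf, smul_eq_mul, Complex.mul_re]
    ring
  have c2A : ContDiff ℝ 2 A := cA.of_le (WithTop.coe_le_coe.2 le_top)
  have c2B : ContDiff ℝ 2 B := cB.of_le (WithTop.coe_le_coe.2 le_top)
  have hpt : ∀ x, ‖iteratedFDeriv ℝ 2 (fun x => θ x * qf c x) x‖ ^ 2 ≤
      2 * ‖c‖ ^ 2 * (‖iteratedFDeriv ℝ 2 A x‖ ^ 2 + ‖iteratedFDeriv ℝ 2 B x‖ ^ 2) := by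
    intro x
    have e1 : iteratedFDeriv ℝ 2 (fun x => θ x * qf c x) x =
        c.re • iteratedFDeriv ℝ 2 A x - c.im • iteratedFDeriv ℝ 2 B x := by
      rw [hF, iteratedFDeriv_sub_apply (c2A.const_smul c.re).contDiffAt
        (c2B.const_smul c.im).contDiffAt]
      rw [iteratedFDeriv_const_smul_apply' c2A.contDiffAt,
        iteratedFDeriv_const_smul_apply' c2B.contDiffAt]
    rw [e1]
    have e2 : ‖c.re • iteratedFDeriv ℝ 2 A x - c.im • iteratedFDeriv ℝ 2 B x‖ ≤
        ‖c‖ * ‖iteratedFDeriv ℝ 2 A x‖ + ‖c‖ * ‖iteratedFDeriv ℝ 2 B x‖ := by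
      refine (norm_sub_le _ _).trans ?_
      rw [norm_smul, norm_smul, Real.norm_eq_abs, Real.norm_eq_abs]
      have r1 := Complex.abs_re_le_norm c
      have r2 := Complex.abs_im_le_norm c
      gcongr
    have e3 := pow_le_pow_left₀ (norm_nonneg _) e2 2
    refine e3.trans ?_
    have := sq_nonneg (‖c‖ * (‖iteratedFDeriv ℝ 2 A x‖ - ‖iteratedFDeriv ℝ 2 B x‖))
    nlinarith
  have hint : ∫ x, ‖iteratedFDeriv ℝ 2 (fun x => θ x * qf c x) x‖ ^ 2 ≤
      ∫ x, 2 * ‖c‖ ^ 2 * (‖iteratedFDeriv ℝ 2 A x‖ ^ 2 + ‖iteratedFDeriv ℝ 2 B x‖ ^ 2) :=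
    integral_mono iF ((iA.add iB).const_mul _) hpt
  refine hint.trans ?_
  rw [integral_const_mul]
  have h0 : 0 ≤ ‖c‖ ^ 2 := by positivity
  nlinarith


end JS7a
export JS7a (item_energy vertex_energy)

end Porous
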