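import Pool.Agent.Porous.K1

open MeasureTheory Complex Set
open scoped ContDiff ENNReal
noncomputable section
namespace Porous
namespace JSU

/-! TARGET -/

theorem bnd_t (L t a : ℤ) (hL : 7 ≤ L) (h : L * t = a) (h1 : -(2 * L) ≤ a) (h2 : a ≤ 2 * L) :
    -2 ≤ t ∧ t ≤ 2 := by
  constructor
  · by_contra hc
    push Not at hc
    nlinarith
  · by_contra hc
    push Not at hc
    nlinarith

theorem Sp_bnd (m : ℕ) (hm : 2 ≤ m) (q : ℤ × ℤ) (hq : Sp m q) :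
    1 ≤ q.1 ∧ q.1 ≤ 2 * (m : ℤ) + 2 ∧ -1 ≤ q.2 ∧ q.2 ≤ 1 ∧
    (q.2 = 1 → q.1 ≤ 2 * (m : ℤ) - 1) ∧ (q.2 = -1 → 3 ≤ q.1 ∧ q.1 ≤ 2 * (m : ℤ) + 1) := by
  rcases hq with ⟨h1, h2, h3⟩ | ⟨h1, i, hi, h2⟩ | ⟨h1, i, hi, h2⟩
  · omega
  · have : (i : ℤ) < m := by exact_mod_cast hi
    omega
  · have : (i : ℤ) < m := by exact_mod_cast hi
    omega

/-- uniqueness of the representation of special lattice points -/
theorem special_unique (m : ℕ) (hm : 2 ≤ m) (q t : ℤ × ℤ) (hq : Sp m q) :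
    (∀ p, Sp m p → (p.1 = q.1 + (2 * (m : ℤ) + 3) * t.1 ∧ p.2 = q.2 + (2 * (m : ℤ) + 3) * t.2) → t = 0 ∧ p = q) ∧
    (∀ p, Sp m p → ¬ (p.1 = (rotL m q).1 + (2 * (m : ℤ) + 3) * t.1 ∧ p.2 = (rotL m q).2 + (2 * (m : ℤ) + 3) * t.2)) ∧
    (∀ p, Sp m p → ¬ (p.1 = (rotL m (rotL m q)).1 + (2 * (m : ℤ) + 3) * t.1 ∧
      p.2 = (rotL m (rotL m q)).2 + (2 * (m : ℤ) + 3) * t.2)) ∧
    ¬ (q.1 = (2 * (m : ℤ) + 3) * t.1 ∧ q.2 = (2 * (m : ℤ) + 3) * t.2) ∧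
    ¬ ((rotL m q).1 = (2 * (m : ℤ) + 3) * t.1 ∧ (rotL m q).2 = (2 * (m : ℤ) + 3) * t.2) ∧
    ¬ ((rotL m (rotL m q)).1 = (2 * (m : ℤ) + 3) * t.1 ∧ (rotL m (rotL m q)).2 = (2 * (m : ℤ) + 3) * t.2) ∧
    ¬ ((2 * (m : ℤ) + 1) = q.1 + (2 * (m : ℤ) + 3) * t.1 ∧ (1 : ℤ) = q.2 + (2 * (m : ℤ) + 3) * t.2) ∧
    ((2 * (m : ℤ) + 1) = (rotL m q).1 + (2 * (m : ℤ) + 3) * t.1 ∧ (1 : ℤ) = (rotL m q).2 + (2 * (m : ℤ) + 3) * t.2 →
      t = 0 ∧ q = (1, 1)) ∧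
    ¬ ((2 * (m : ℤ) + 1) = (rotL m (rotL m q)).1 + (2 * (m : ℤ) + 3) * t.1 ∧
      (1 : ℤ) = (rotL m (rotL m q)).2 + (2 * (m : ℤ) + 3) * t.2) := by
  have hb := Sp_bnd m hm q hq
  obtain ⟨q1, q2⟩ := q
  obtain ⟨t1, t2⟩ := t
  have hL : (7 : ℤ) ≤ 2 * (m : ℤ) + 3 := by omega
  simp only [rotL] at hb ⊢
  generalize hLL : 2 * (m : ℤ) + 3 = L at hL ⊢
  refine ⟨?_, ?_, ?_, ?_, ?_, ?_, ?_, ?_, ?_⟩
  · rintro ⟨p1, p2⟩ hp ⟨e1, e2⟩
    have hp' := Sp_bnd m hm _ hp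
    simp only at hp' e1 e2
    obtain ⟨a1, a2⟩ := bnd_t L t1 (p1 - q1) hL (by linarith) (by omega) (by omega)
    obtain ⟨b1, b2⟩ := bnd_t L t2 (p2 - q2) hL (by linarith) (by omega) (by omega)
    simp only [Prod.mk_eq_zero, Prod.mk.injEq]
    interval_cases t1 <;> interval_cases t2 <;> omega
  · rintro ⟨p1, p2⟩ hp ⟨e1, e2⟩
    have hp' := Sp_bnd m hm _ hp
    simp only at hp' e1 e2
    obtain ⟨a1, a2⟩ := bnd_t L t1 (p1 - (L - q1 - q2)) hL (by linarith) (by omega) (by omega)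
    obtain ⟨b1, b2⟩ := bnd_t L t2 (p2 - q1) hL (by linarith) (by omega) (by omega)
    interval_cases t1 <;> interval_cases t2 <;> first | omega | skip
  · rintro ⟨p1, p2⟩ hp ⟨e1, e2⟩
    have hp' := Sp_bnd m hm _ hp
    simp only at hp' e1 e2
    obtain ⟨a1, a2⟩ := bnd_t L t1 (p1 - (L - (L - q1 - q2) - q1)) hL (by linarith) (by omega) (by omega)
    obtain ⟨b1, b2⟩ := bnd_t L t2 (p2 - (L - q1 - q2)) hL (by linarith) (by omega) (by omega)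
    interval_cases t1 <;> interval_cases t2 <;> first | omega | skip
  · rintro ⟨e1, e2⟩
    obtain ⟨a1, a2⟩ := bnd_t L t1 q1 hL (by linarith) (by omega) (by omega)
    interval_cases t1 <;> omega
  · rintro ⟨e1, e2⟩
    obtain ⟨a1, a2⟩ := bnd_t L t2 q1 hL (by linarith) (by omega) (by omega)
    interval_cases t2 <;> omega
  · rintro ⟨e1, e2⟩
    obtain ⟨a1, a2⟩ := bnd_t L t1 q2 hL (by linarith) (by omega) (by omega)
    obtain ⟨b1, b2⟩ := bnd_t L t2 (L - q1 - q2) hL (by linarith) (by omega) (by omega)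
    interval_cases t1 <;> interval_cases t2 <;> omega
  · rintro ⟨e1, e2⟩
    obtain ⟨a1, a2⟩ := bnd_t L t1 (2 * (m : ℤ) + 1 - q1) hL (by linarith) (by omega) (by omega)
    obtain ⟨b1, b2⟩ := bnd_t L t2 (1 - q2) hL (by linarith) (by omega) (by omega)
    interval_cases t1 <;> interval_cases t2 <;> omega
  · rintro ⟨e1, e2⟩
    obtain ⟨a1, a2⟩ := bnd_t L t1 (2 * (m : ℤ) + 1 - (L - q1 - q2)) hL (by linarith) (by omega) (by omega)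
    obtain ⟨b1, b2⟩ := bnd_t L t2 (1 - q1) hL (by linarith) (by omega) (by omega)
    simp only [Prod.mk_eq_zero, Prod.mk.injEq]
    interval_cases t1 <;> interval_cases t2 <;> omega
  · rintro ⟨e1, e2⟩
    obtain ⟨a1, a2⟩ := bnd_t L t1 (2 * (m : ℤ) + 1 - (L - (L - q1 - q2) - q1)) hL (by linarith) (by omega) (by omega)
    obtain ⟨b1, b2⟩ := bnd_t L t2 (1 - (L - q1 - q2)) hL (by linarith) (by omega) (by omega)
    interval_cases t1 <;> interval_cases t2 <;> omega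


end JSU
export JSU (special_unique)

end Porous
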