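import Pool.Agent.Porous.S1
import Pool.Agent.Porous.SU
import Pool.Agent.Porous.S0
import Pool.Agent.Porous.S7a

open MeasureTheory Complex Set
open scoped ContDiff ENNReal
noncomputable section
namespace Porous
namespace JS7b

theorem zt_norm : ‖zt‖ = 1 := by
  have h : ‖zt‖ ^ 2 = 1 := by
    rw [← Complex.normSq_eq_norm_sq, Complex.normSq_apply]
    simp only [zt]
    have h3 : Real.sqrt 3 * Real.sqrt 3 = 3 := Real.mul_self_sqrt (by norm_num)
    nlinarith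
  have h0 := norm_nonneg zt
  nlinarith

theorem zt_sq : zt ^ 2 = zt - 1 := by
  have h3 : Real.sqrt 3 * Real.sqrt 3 = 3 := Real.mul_self_sqrt (by norm_num)
  apply Complex.ext
  · simp only [sq, Complex.mul_re, Complex.sub_re, Complex.one_re, zt]
    nlinarith
  · simp only [sq, Complex.mul_im, Complex.sub_im, Complex.one_im, zt]
    ring

theorem zt_four : zt ^ 4 = -zt := by
  have : zt ^ 4 = zt ^ 2 * zt ^ 2 := by ring
  rw [this, zt_sq]
  have h := zt_sq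
  linear_combination h

theorem theta_rot2 {θ : ℂ → ℝ} (hθ : ThetaOK θ) (x : ℂ) : θ (zt ^ 2 * x) = θ x := by
  rw [show zt ^ 2 * x = zt * (zt * x) by ring, hθ.rot, hθ.rot]

theorem theta_rot4 {θ : ℂ → ℝ} (hθ : ThetaOK θ) (x : ℂ) : θ (zt ^ 4 * x) = θ x := by
  rw [show zt ^ 4 * x = zt ^ 2 * (zt ^ 2 * x) by ring, theta_rot2 hθ, theta_rot2 hθ]

/-- lattice coordinates for the equilateral lattice -/
def co1 (z : ℂ) : ℝ := z.re - z.im / Real.sqrt 3
def co2 (z : ℂ) : ℝ := 2 * z.im / Real.sqrt 3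

theorem co1_sub (x y : ℂ) : co1 (x - y) = co1 x - co1 y := by
  simp only [co1, Complex.sub_re, Complex.sub_im]; ring
theorem co2_sub (x y : ℂ) : co2 (x - y) = co2 x - co2 y := by
  simp only [co2, Complex.sub_im]; ring
theorem co1_lin (s r : ℝ) : co1 ((s : ℂ) + (r : ℂ) * zt) = s := by
  have h3 : Real.sqrt 3 ≠ 0 := by positivity
  simp only [co1, Complex.add_re, Complex.add_im, Complex.mul_re, Complex.mul_im,
    Complex.ofReal_re, Complex.ofReal_im, zt]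
  field_simp
  ring
theorem co2_lin (s r : ℝ) : co2 ((s : ℂ) + (r : ℂ) * zt) = r := by
  have h3 : Real.sqrt 3 ≠ 0 := by positivity
  simp only [co2, Complex.add_re, Complex.add_im, Complex.mul_re, Complex.mul_im,
    Complex.ofReal_re, Complex.ofReal_im, zt]
  field_simp
  ring
theorem one_le_sqrt3 : 1 ≤ Real.sqrt 3 := by
  rw [Real.one_le_sqrt]; norm_num
theorem co1_le (z : ℂ) : |co1 z| ≤ 2 * ‖z‖ := by
  have h1 := Complex.abs_re_le_norm z
  have h2 := Complex.abs_im_le_norm z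
  have h3 : |z.im / Real.sqrt 3| ≤ |z.im| := by
    rw [abs_div, abs_of_pos (by positivity : 0 < Real.sqrt 3)]
    exact div_le_self (abs_nonneg _) one_le_sqrt3
  unfold co1
  have h4 := abs_sub z.re (z.im / Real.sqrt 3)
  linarith
theorem co2_le (z : ℂ) : |co2 z| ≤ 2 * ‖z‖ := by
  have h2 := Complex.abs_im_le_norm z
  have h3 : |2 * z.im / Real.sqrt 3| ≤ |2 * z.im| := by
    rw [abs_div, abs_of_pos (by positivity : 0 < Real.sqrt 3)]
    exact div_le_self (abs_nonneg _) one_le_sqrt3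
  unfold co2
  rw [abs_mul, abs_two] at h3
  linarith

theorem lp_inj {p q : ℤ × ℤ} (h : lp p = lp q) : p = q := by
  have h1 : ∀ p : ℤ × ℤ, lp p = ((p.1 : ℝ) : ℂ) + ((p.2 : ℝ) : ℂ) * zt := by
    intro p; simp [lp]
  have h2 := congrArg co1 h
  have h3 := congrArg co2 h
  rw [h1 p, h1 q, co1_lin, co1_lin] at h2
  rw [h1 p, h1 q, co2_lin, co2_lin] at h3
  ext
  · exact_mod_cast h2
  · exact_mod_cast h3

theorem co1_lp (p : ℤ × ℤ) : co1 (lp p) = p.1 := by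
  have : lp p = ((p.1 : ℝ) : ℂ) + ((p.2 : ℝ) : ℂ) * zt := by simp [lp]
  rw [this, co1_lin]
theorem co2_lp (p : ℤ × ℤ) : co2 (lp p) = p.2 := by
  have : lp p = ((p.1 : ℝ) : ℂ) + ((p.2 : ℝ) : ℂ) * zt := by simp [lp]
  rw [this, co2_lin]
theorem co1_Llp (L : ℝ) (p : ℤ × ℤ) : co1 (L * lp p) = L * p.1 := by
  have : (L : ℂ) * lp p = ((L * p.1 : ℝ) : ℂ) + ((L * p.2 : ℝ) : ℂ) * zt := by
    simp [lp]; ring
  rw [this, co1_lin]
theorem co2_Llp (L : ℝ) (p : ℤ × ℤ) : co2 (L * lp p) = L * p.2 := by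
  have : (L : ℂ) * lp p = ((L * p.1 : ℝ) : ℂ) + ((L * p.2 : ℝ) : ℂ) * zt := by
    simp [lp]; ring
  rw [this, co2_lin]

/-- rigid motions -/
theorem iso_deriv (f : ℂ → ℝ) (w v : ℂ) (hw : ‖w‖ = 1) (y : ℂ) :
    ‖iteratedFDeriv ℝ 2 (fun y => f (w * y + v)) y‖ = ‖iteratedFDeriv ℝ 2 f (w * y + v)‖ := by
  let e : ℂ ≃ₗᵢ[ℝ] ℂ := rotation ⟨w, mem_sphere_zero_iff_norm.2 hw⟩
  have he : ∀ y, e y = w * y := fun y => rfl
  have h1 : (fun y => f (w * y + v)) = (fun z => f (z + v)) ∘ e := by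
    funext y; simp [he]
  rw [h1, LinearIsometryEquiv.norm_iteratedFDeriv_comp_right, iteratedFDeriv_comp_add_right, he]

theorem iso_int (g : ℂ → ℝ) (w v : ℂ) (hw : ‖w‖ = 1) :
    ∫ y, g (w * y + v) = ∫ y, g y := by
  let e : ℂ ≃ₗᵢ[ℝ] ℂ := rotation ⟨w, mem_sphere_zero_iff_norm.2 hw⟩
  have he : ∀ y, e y = w * y := fun y => rfl
  have hmp : MeasurePreserving e volume volume := e.measurePreserving
  have h1 := hmp.integral_comp e.toHomeomorph.measurableEmbedding (fun z => g (z + v))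
  simp only [he] at h1
  rw [h1, integral_add_right_eq_self]

theorem iso_integrable (g : ℂ → ℝ) (w v : ℂ) (hw : ‖w‖ = 1) (hg : Integrable g) :
    Integrable (fun y => g (w * y + v)) := by
  let e : ℂ ≃ₗᵢ[ℝ] ℂ := rotation ⟨w, mem_sphere_zero_iff_norm.2 hw⟩
  have he : ∀ y, e y = w * y := fun y => rfl
  have h2 : Integrable (fun z => g (z + v)) := hg.comp_add_right v
  have hmp : MeasurePreserving e volume volume := e.measurePreserving
  have h1 := (hmp.integrable_comp_emb e.toHomeomorph.measurableEmbedding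
    (g := fun z => g (z + v))).2 h2
  exact h1

/-- a sum with few non-zero terms -/
theorem sq_sum_active {ι E : Type*} [NormedAddCommGroup E] (s : Finset ι) (f : ι → E) (N : ℕ)
    (h : ∀ A ⊆ s, (∀ i ∈ A, f i ≠ 0) → A.card ≤ N) :
    ‖∑ i ∈ s, f i‖ ^ 2 ≤ N * ∑ i ∈ s, ‖f i‖ ^ 2 := by
  classical
  set A := s.filter (fun i => f i ≠ 0) with hA
  have h1 : ∑ i ∈ s, f i = ∑ i ∈ A, f i := by
    rw [hA, Finset.sum_filter_ne_zero]
  have h2 : A.card ≤ N := h A (Finset.filter_subset _ _) (fun i hi => (Finset.mem_filter.1 hi).2)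
  rw [h1]
  calc ‖∑ i ∈ A, f i‖ ^ 2 ≤ (∑ i ∈ A, ‖f i‖) ^ 2 := by
        gcongr
        exact norm_sum_le _ _
    _ ≤ A.card * ∑ i ∈ A, ‖f i‖ ^ 2 := sq_sum_le_card_mul_sum_sq
    _ ≤ N * ∑ i ∈ s, ‖f i‖ ^ 2 := by
        apply mul_le_mul
        · exact_mod_cast h2
        · exact Finset.sum_le_sum_of_subset_of_nonneg (Finset.filter_subset _ _)
            (fun i _ _ => by positivity)
        · exact Finset.sum_nonneg fun i _ => by positivity
        · positivity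

/-- the sum of the items of one side -/
def Gs (θ Xi : ℂ → ℝ) (m : ℕ) (a : ℝ) (c : ℂ) : ℂ → ℝ :=
  fun x => ∑ p ∈ box m, θ (x - lp p) * Dev Xi m a c p x

theorem HH_eq {θ : ℂ → ℝ} (hθ : ThetaOK θ) (Xi : ℂ → ℝ) (m : ℕ) (a : ℝ) (c x : ℂ) :
    HH θ Xi m a c x = -(θ x * qf c x) + (Gs θ Xi m a c x +
      (Gs θ Xi m a (c * zt ^ 4) (zt ^ 4 * x + (-(zt ^ 4 * Lm m))) +
        Gs θ Xi m a (c * zt ^ 2) (zt ^ 2 * x + Lm m))) := by
  unfold HH Gs
  rw [← Finset.sum_add_distrib, ← Finset.sum_add_distrib]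
  congr 1
  refine Finset.sum_congr rfl fun p _ => ?_
  have hL : ((Lm m : ℝ) : ℂ) = 2 * (m : ℂ) + 3 := by simp [Lm]
  have hz := zt_sq
  have h1 : θ (x - lp (rotL m p)) = θ (zt ^ 4 * x + (-(zt ^ 4 * Lm m)) - lp p) := by
    rw [← theta_rot4 hθ (x - lp (rotL m p))]
    congr 1
    rw [zt_four, hL]
    simp only [lp, rotL]
    push_cast
    linear_combination (p.1 : ℂ) * hz
  have h2 : θ (x - lp (rotL m (rotL m p))) = θ (zt ^ 2 * x + Lm m - lp p) := by
    rw [← theta_rot2 hθ (x - lp (rotL m (rotL m p)))]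
    congr 1
    rw [hL]
    simp only [lp, rotL]
    push_cast
    linear_combination (-(p.2 : ℂ) - (2 * m + 3 - p.1 - p.2) * (zt + 1)) * hz
  have h3 : zt ^ 4 * (x - Lm m) = zt ^ 4 * x + (-(zt ^ 4 * Lm m)) := by ring
  rw [h1, h2, h3, add_assoc]

/-- HH is localised near the triangle -/
theorem HH_supp {θ : ℂ → ℝ} (hθ : ThetaOK θ) (Xi : ℂ → ℝ) (m : ℕ) (a : ℝ) (c x : ℂ)
    (h : HH θ Xi m a c x ≠ 0) :
    (-3 ≤ co1 x ∧ co1 x ≤ Lm m + 2) ∧ (-3 ≤ co2 x ∧ co2 x ≤ Lm m + 2) := by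
  have key : ∃ q : ℤ × ℤ, (-1 ≤ q.1 ∧ q.1 ≤ 2 * (m : ℤ) + 3) ∧
      (-1 ≤ q.2 ∧ q.2 ≤ 2 * (m : ℤ) + 3) ∧ θ (x - lp q) ≠ 0 := by
    by_contra hno
    push Not at hno
    apply h
    unfold HH
    have h0 : θ x = 0 := by
      have := hno (0, 0) ⟨by norm_num, by positivity⟩ ⟨by norm_num, by positivity⟩
      simpa [lp] using this
    rw [h0, zero_mul, neg_zero, zero_add]
    apply Finset.sum_eq_zero
    intro p hp
    simp only [box, Finset.mem_product, Finset.mem_Icc] at hp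
    obtain ⟨⟨a1, a2⟩, a3, a4⟩ := hp
    rw [hno p ⟨by omega, by omega⟩ ⟨by omega, by omega⟩,
      hno (rotL m p) ⟨by simp only [rotL]; omega, by simp only [rotL]; omega⟩
        ⟨by simp only [rotL]; omega, by simp only [rotL]; omega⟩,
      hno (rotL m (rotL m p)) ⟨by simp only [rotL]; omega, by simp only [rotL]; omega⟩
        ⟨by simp only [rotL]; omega, by simp only [rotL]; omega⟩]
    ring
  obtain ⟨q, ⟨q1, q2⟩, ⟨q3, q4⟩, hq⟩ := key
  have hn : ‖x - lp q‖ < 0.86 := by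
    by_contra hc
    exact hq (hθ.supp _ (not_lt.1 hc))
  have e1 := abs_le.1 (co1_le (x - lp q))
  have e2 := abs_le.1 (co2_le (x - lp q))
  rw [co1_sub, co1_lp] at e1
  rw [co2_sub, co2_lp] at e2
  have q1' : (-1 : ℝ) ≤ q.1 := by exact_mod_cast q1
  have q2' : (q.1 : ℝ) ≤ 2 * m + 3 := by exact_mod_cast q2
  have q3' : (-1 : ℝ) ≤ q.2 := by exact_mod_cast q3
  have q4' : (q.2 : ℝ) ≤ 2 * m + 3 := by exact_mod_cast q4
  unfold Lm
  refine ⟨⟨?_, ?_⟩, ?_, ?_⟩ <;> norm_num at hn ⊢ <;> linarith [e1.1, e1.2, e2.1, e2.2]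

/-- pointwise bound for the second derivative of the items of one side -/
theorem Gs_bound {θ : ℂ → ℝ} (hθ : ThetaOK θ) {Xi : ℂ → ℝ} (m : ℕ) (a : ℝ) (c : ℂ)
    (hsm : ∀ p, ContDiff ℝ ∞ (fun x => θ (x - lp p) * Dev Xi m a c p x)) (z : ℂ) :
    ‖iteratedFDeriv ℝ 2 (Gs θ Xi m a c) z‖ ^ 2 ≤ 4 * ∑ p ∈ box m,
      ‖iteratedFDeriv ℝ 2 (fun x => θ (x - lp p) * Dev Xi m a c p x) z‖ ^ 2 := by
  unfold Gs
  rw [iteratedFDeriv_fun_sum_apply (fun p _ => (contDiff_infty.1 (hsm p) 2).contDiffAt)]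
  apply sq_sum_active (N := 4)
  intro A _ hA
  apply active_card hθ z A
  intro p hp
  by_contra hc
  apply hA p hp
  have hev : (fun x => θ (x - lp p) * Dev Xi m a c p x) =ᶠ[nhds z] fun _ => 0 := by
    have h1 : ∀ᶠ x in nhds z, 0.86 < ‖x - lp p‖ := by
      have hcont : Continuous (fun x : ℂ => ‖x - lp p‖) := by fun_prop
      apply (hcont.tendsto z).eventually_const_lt
      norm_num at hc ⊢
      linarith
    filter_upwards [h1] with x hx
    rw [hθ.supp _ hx.le, zero_mul]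
  have h2 := (hev.iteratedFDeriv (𝕜 := ℝ) 2).eq_of_nhds
  rw [h2]
  simp

theorem cell_bound {θ : ℂ → ℝ} (hθ : ThetaOK θ) (Xi : ℂ → ℝ) (m : ℕ) (hm' : (2 : ℝ) ≤ m) (a : ℝ)
    (c : ℂ) (h : ℂ → ℝ) (hHHsm : ContDiff ℝ ∞ (HH θ Xi m a c)) (hhint : Integrable h)
    (hHHle : ∀ x, ‖iteratedFDeriv ℝ 2 (HH θ Xi m a c) x‖ ^ 2 ≤ h x)
    (b : Module.Basis (Fin 2) ℝ ℂ) (hb0 : b 0 = Lm m) (hb1 : b 1 = Lm m * zt) :
    ∫ x in ZSpan.fundamentalDomain b, ‖iteratedFDeriv ℝ 2 (dd θ Xi m a c) x‖ ^ 2 ≤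
      81 * ∫ x, h x := by
  have hh0 : ∀ x, 0 ≤ h x := fun x => le_trans (by positivity) (hHHle x)
  -- the cell
  set L : ℝ := Lm m with hLdef
  have hL7 : 7 ≤ L := by rw [hLdef]; unfold Lm; linarith
  set T : Finset (ℤ × ℤ) := Finset.Icc (-1 : ℤ) 1 ×ˢ Finset.Icc (-1 : ℤ) 1 with hT
  have hTcard : T.card = 9 := by rw [hT]; rfl
  have hcell : ∀ x ∈ ZSpan.fundamentalDomain b,
      ‖iteratedFDeriv ℝ 2 (dd θ Xi m a c) x‖ ^ 2 ≤ 9 * ∑ t ∈ T, h (x - L * lp t) := by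
    intro x hx
    rw [ZSpan.mem_fundamentalDomain] at hx
    have hx0 := hx 0
    have hx1 := hx 1
    have hxe : x = ((b.repr x 0 * L : ℝ) : ℂ) + ((b.repr x 1 * L : ℝ) : ℂ) * zt := by
      conv_lhs => rw [← b.sum_repr x]
      rw [Fin.sum_univ_two, hb0, hb1, Complex.real_smul, Complex.real_smul]
      push_cast
      ring
    have hs : co1 x = b.repr x 0 * L := by
      conv_lhs => rw [hxe]
      rw [co1_lin]
    have hr : co2 x = b.repr x 1 * L := by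
      conv_lhs => rw [hxe]
      rw [co2_lin]
    have hs0 : 0 ≤ co1 x := by rw [hs]; exact mul_nonneg hx0.1 (by linarith)
    have hs1 : co1 x ≤ L := by rw [hs]; nlinarith [hx0.2]
    have hr0 : 0 ≤ co2 x := by rw [hr]; exact mul_nonneg hx1.1 (by linarith)
    have hr1 : co2 x ≤ L := by rw [hr]; nlinarith [hx1.2]
    have hloc : dd θ Xi m a c =ᶠ[nhds x] fun y => ∑ t ∈ T, HH θ Xi m a c (y - L * lp t) := by
      have hball : Metric.ball x 0.1 ∈ nhds x := Metric.ball_mem_nhds _ (by norm_num)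
      filter_upwards [hball] with y hy
      unfold dd
      apply tsum_eq_sum
      intro t ht
      by_contra hne
      have hsupp := HH_supp hθ Xi m a c _ hne
      rw [co1_sub, co2_sub, co1_Llp, co2_Llp] at hsupp
      rw [Metric.mem_ball, dist_eq_norm] at hy
      have y1 := abs_le.1 (co1_le (y - x))
      have y2 := abs_le.1 (co2_le (y - x))
      rw [co1_sub] at y1
      rw [co2_sub] at y2
      norm_num at hy
      apply ht
      obtain ⟨⟨s1, s2⟩, s3, s4⟩ := hsupp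
      have t1 : -2 < (t.1 : ℝ) := by nlinarith [y1.1, y1.2]
      have t2 : (t.1 : ℝ) < 2 := by nlinarith [y1.1, y1.2]
      have t3 : -2 < (t.2 : ℝ) := by nlinarith [y2.1, y2.2]
      have t4 : (t.2 : ℝ) < 2 := by nlinarith [y2.1, y2.2]
      have t1' : -2 < t.1 := by exact_mod_cast t1
      have t2' : t.1 < 2 := by exact_mod_cast t2
      have t3' : -2 < t.2 := by exact_mod_cast t3
      have t4' : t.2 < 2 := by exact_mod_cast t4
      rw [hT]
      simp only [Finset.mem_product, Finset.mem_Icc]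
      omega
    have hd := (hloc.iteratedFDeriv (𝕜 := ℝ) 2).eq_of_nhds
    rw [hd]
    have hsmt : ∀ t ∈ T, ContDiffAt ℝ (2 : ℕ) (fun y => HH θ Xi m a c (y - L * lp t)) x := by
      intro t _
      have : ContDiff ℝ ∞ (fun y => HH θ Xi m a c (y - L * lp t)) :=
        hHHsm.comp (by fun_prop)
      exact (contDiff_infty.1 this 2).contDiffAt
    rw [iteratedFDeriv_fun_sum_apply hsmt]
    refine (sq_sum_active T _ 9 (fun A hA _ => ?_)).trans ?_
    · rw [← hTcard]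
      exact Finset.card_le_card hA
    · push_cast
      apply mul_le_mul_of_nonneg_left _ (by norm_num)
      refine Finset.sum_le_sum fun t _ => ?_
      rw [iteratedFDeriv_comp_sub]
      exact hHHle _
  have hgint : Integrable (fun x => 9 * ∑ t ∈ T, h (x - L * lp t)) :=
    (integrable_finsetSum _ fun t _ => hhint.comp_sub_right _).const_mul 9
  have hmeas : MeasurableSet (ZSpan.fundamentalDomain b) := ZSpan.fundamentalDomain_measurableSet b
  calc ∫ x in ZSpan.fundamentalDomain b, ‖iteratedFDeriv ℝ 2 (dd θ Xi m a c) x‖ ^ 2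
      ≤ ∫ x in ZSpan.fundamentalDomain b, 9 * ∑ t ∈ T, h (x - L * lp t) := by
        apply integral_mono_of_nonneg
        · exact Filter.Eventually.of_forall fun x => by positivity
        · exact hgint.integrableOn
        · filter_upwards [ae_restrict_mem hmeas] with x hx
          exact hcell x hx
    _ ≤ ∫ x, 9 * ∑ t ∈ T, h (x - L * lp t) := by
        apply setIntegral_le_integral hgint
        exact Filter.Eventually.of_forall fun x => mul_nonneg (by norm_num)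
          (Finset.sum_nonneg fun t _ => hh0 _)
    _ = 9 * ∑ t ∈ T, ∫ x, h x := by
        rw [integral_const_mul, integral_finsetSum _ fun t _ => hhint.comp_sub_right _]
        congr 1
        refine Finset.sum_congr rfl fun t _ => ?_
        rw [integral_sub_right_eq_self]
    _ = 81 * ∫ x, h x := by
        rw [Finset.sum_const, hTcard, nsmul_eq_mul]
        push_cast
        ring

/-! TARGET -/

/-- energy of the deviation over a period cell -/
theorem dd_energy {θ : ℂ → ℝ} (hθ : ThetaOK θ) {Xi : ℂ → ℝ} {KX : ℝ} (hXi : XiOK Xi KX) :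
    ∃ K : ℝ, 0 < K ∧ ∀ (m : ℕ), 2 ≤ m → ∀ (a : ℝ), 0 < a → a ≤ 1 / 2 → ∀ (c : ℂ)
      (b : Module.Basis (Fin 2) ℝ ℂ), b 0 = Lm m → b 1 = Lm m * zt →
      ∫ x in ZSpan.fundamentalDomain b, ‖iteratedFDeriv ℝ 2 (dd θ Xi m a c) x‖ ^ 2
        ≤ K * ‖c‖ ^ 2 * m * (1 + |Real.log a|) := by
  obtain ⟨KG, hKG, HG⟩ := item_energy hθ hXi
  obtain ⟨KV, hKV, HV⟩ := vertex_energy hθ
  refine ⟨324 * (KV + 108 * KG), by positivity, ?_⟩
  intro m hm a ha0 ha1 c b hb0 hb1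
  have hm' : (2 : ℝ) ≤ m := by exact_mod_cast hm
  have hlog : 0 ≤ |Real.log a| := abs_nonneg _
  -- the pieces
  set V : ℂ → ℝ := fun x => θ x * qf c x with hVdef
  let G : ℂ → (ℤ × ℤ) → ℂ → ℝ := fun c p x => θ (x - lp p) * Dev Xi m a c p x
  set w1 : ℂ := zt ^ 4 with hw1
  set w2 : ℂ := zt ^ 2 with hw2
  have hn1 : ‖w1‖ = 1 := by rw [hw1, norm_pow, zt_norm, one_pow]
  have hn2 : ‖w2‖ = 1 := by rw [hw2, norm_pow, zt_norm, one_pow]
  have hc1 : ‖c * w1‖ = ‖c‖ := by rw [norm_mul, hn1, mul_one]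
  have hc2 : ‖c * w2‖ = ‖c‖ := by rw [norm_mul, hn2, mul_one]
  have hGsm : ∀ c p, ContDiff ℝ ∞ (G c p) := fun c p => (HG m hm a ha0 ha1 c p).1
  have hGint : ∀ c p, Integrable (fun x => ‖iteratedFDeriv ℝ 2 (G c p) x‖ ^ 2) :=
    fun c p => (HG m hm a ha0 ha1 c p).2.1
  have hGen : ∀ c p, ∫ x, ‖iteratedFDeriv ℝ 2 (G c p) x‖ ^ 2 ≤ KG * ‖c‖ ^ 2 * (1 + |Real.log a|) :=
    fun c p => (HG m hm a ha0 ha1 c p).2.2
  have hVsm : ContDiff ℝ ∞ V := (HV c).1
  have hVint : Integrable (fun x => ‖iteratedFDeriv ℝ 2 V x‖ ^ 2) := (HV c).2.1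
  have hVen : ∫ x, ‖iteratedFDeriv ℝ 2 V x‖ ^ 2 ≤ KV * ‖c‖ ^ 2 := (HV c).2.2
  have hGssm : ∀ c, ContDiff ℝ ∞ (Gs θ Xi m a c) := by
    intro c
    unfold Gs
    exact ContDiff.sum fun p _ => hGsm c p
  -- energy density of all items of one side
  let e : ℂ → ℂ → ℝ := fun c x => 4 * ∑ p ∈ box m, ‖iteratedFDeriv ℝ 2 (G c p) x‖ ^ 2
  have heint : ∀ c, Integrable (e c) := by
    intro c
    exact (integrable_finsetSum _ fun p _ => hGint c p).const_mul 4
  have hbox : ((box m).card : ℝ) ≤ 9 * m := by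
    have : (box m).card = (2 * m + 2) * 3 := by
      simp only [box, Finset.card_product, Int.card_Icc]
      have e1 : (2 * (m : ℤ) + 2 + 1 - 1).toNat = 2 * m + 2 := by omega
      rw [e1]
      rfl
    rw [this]
    push_cast
    linarith
  have heen : ∀ c', ‖c'‖ = ‖c‖ → ∫ x, e c' x ≤ 36 * KG * ‖c‖ ^ 2 * m * (1 + |Real.log a|) := by
    intro c' hc'
    simp only [e]
    rw [integral_const_mul, integral_finsetSum _ fun p _ => hGint c' p]
    have h1 : ∑ p ∈ box m, ∫ x, ‖iteratedFDeriv ℝ 2 (G c' p) x‖ ^ 2 ≤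
        (box m).card * (KG * ‖c‖ ^ 2 * (1 + |Real.log a|)) := by
      rw [← nsmul_eq_mul, ← Finset.sum_const]
      refine Finset.sum_le_sum fun p _ => ?_
      rw [← hc']
      exact hGen c' p
    have h2 : ((box m).card : ℝ) * (KG * ‖c‖ ^ 2 * (1 + |Real.log a|)) ≤
        (9 * m) * (KG * ‖c‖ ^ 2 * (1 + |Real.log a|)) := by
      apply mul_le_mul_of_nonneg_right hbox
      positivity
    nlinarith
  -- pointwise bound for HH
  let h : ℂ → ℝ := fun x => 4 * (‖iteratedFDeriv ℝ 2 V x‖ ^ 2 + (e c x +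
    (e (c * w1) (w1 * x + (-(w1 * Lm m))) + e (c * w2) (w2 * x + Lm m))))
  have hHH : HH θ Xi m a c = fun x => -(V x) + (Gs θ Xi m a c x +
      (Gs θ Xi m a (c * w1) (w1 * x + (-(w1 * Lm m))) +
        Gs θ Xi m a (c * w2) (w2 * x + Lm m))) := by
    funext x
    exact HH_eq hθ Xi m a c x
  have sm1 : ContDiff ℝ ∞ (fun x => Gs θ Xi m a (c * w1) (w1 * x + (-(w1 * Lm m)))) :=
    (hGssm _).comp (by fun_prop)
  have sm2 : ContDiff ℝ ∞ (fun x => Gs θ Xi m a (c * w2) (w2 * x + Lm m)) :=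
    (hGssm _).comp (by fun_prop)
  have hHHsm : ContDiff ℝ ∞ (HH θ Xi m a c) := by
    rw [hHH]
    exact hVsm.neg.add ((hGssm c).add (sm1.add sm2))
  have hHHle : ∀ x, ‖iteratedFDeriv ℝ 2 (HH θ Xi m a c) x‖ ^ 2 ≤ h x := by
    intro x
    have d1 : iteratedFDeriv ℝ 2 (HH θ Xi m a c) x = -iteratedFDeriv ℝ 2 V x +
        (iteratedFDeriv ℝ 2 (Gs θ Xi m a c) x +
        (iteratedFDeriv ℝ 2 (fun x => Gs θ Xi m a (c * w1) (w1 * x + (-(w1 * Lm m)))) x +
          iteratedFDeriv ℝ 2 (fun x => Gs θ Xi m a (c * w2) (w2 * x + Lm m)) x)) := by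
      rw [hHH]
      rw [fun_iteratedFDeriv_add_apply ((contDiff_infty.1 hVsm.neg 2).contDiffAt)
        ((contDiff_infty.1 ((hGssm c).add (sm1.add sm2)) 2).contDiffAt),
        fun_iteratedFDeriv_add_apply ((contDiff_infty.1 (hGssm c) 2).contDiffAt)
        ((contDiff_infty.1 (sm1.add sm2) 2).contDiffAt),
        fun_iteratedFDeriv_add_apply ((contDiff_infty.1 sm1 2).contDiffAt)
        ((contDiff_infty.1 sm2 2).contDiffAt)]
      have := iteratedFDeriv_neg_apply (𝕜 := ℝ) (i := 2) (f := V) (x := x)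
      rw [← this]
      rfl
    set A := iteratedFDeriv ℝ 2 V x
    set B := iteratedFDeriv ℝ 2 (Gs θ Xi m a c) x
    set C := iteratedFDeriv ℝ 2 (fun x => Gs θ Xi m a (c * w1) (w1 * x + (-(w1 * Lm m)))) x
    set D := iteratedFDeriv ℝ 2 (fun x => Gs θ Xi m a (c * w2) (w2 * x + Lm m)) x
    have n1 : ‖-A + (B + (C + D))‖ ≤ ‖A‖ + (‖B‖ + (‖C‖ + ‖D‖)) := by
      refine (norm_add_le _ _).trans ?_
      rw [norm_neg]
      gcongr
      refine (norm_add_le _ _).trans ?_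
      gcongr
      exact norm_add_le _ _
    have n2 : ‖B‖ ^ 2 ≤ e c x := Gs_bound hθ m a c (hGsm c) x
    have n3 : ‖C‖ ^ 2 ≤ e (c * w1) (w1 * x + (-(w1 * Lm m))) := by
      rw [show ‖C‖ = _ from iso_deriv _ _ _ hn1 x]
      exact Gs_bound hθ m a (c * w1) (hGsm (c * w1)) _
    have n4 : ‖D‖ ^ 2 ≤ e (c * w2) (w2 * x + Lm m) := by
      rw [show ‖D‖ = _ from iso_deriv _ _ _ hn2 x]
      exact Gs_bound hθ m a (c * w2) (hGsm (c * w2)) _
    rw [d1]
    have n5 : ‖-A + (B + (C + D))‖ ^ 2 ≤ (‖A‖ + (‖B‖ + (‖C‖ + ‖D‖))) ^ 2 := by gcongr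
    have n6 : (‖A‖ + (‖B‖ + (‖C‖ + ‖D‖))) ^ 2 ≤
        4 * (‖A‖ ^ 2 + (‖B‖ ^ 2 + (‖C‖ ^ 2 + ‖D‖ ^ 2))) := by
      nlinarith [sq_nonneg (‖A‖ - ‖B‖), sq_nonneg (‖A‖ - ‖C‖), sq_nonneg (‖A‖ - ‖D‖),
        sq_nonneg (‖B‖ - ‖C‖), sq_nonneg (‖B‖ - ‖D‖), sq_nonneg (‖C‖ - ‖D‖)]
    simp only [h]
    linarith
  have hhint : Integrable h := by
    have i1 := iso_integrable (e (c * w1)) w1 (-(w1 * Lm m)) hn1 (heint _)
    have i2 := iso_integrable (e (c * w2)) w2 (Lm m) hn2 (heint _)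
    exact (hVint.add ((heint c).add (i1.add i2))).const_mul 4
  have hhen : ∫ x, h x ≤ 4 * (KV + 108 * KG) * ‖c‖ ^ 2 * m * (1 + |Real.log a|) := by
    have i1 := iso_integrable (e (c * w1)) w1 (-(w1 * Lm m)) hn1 (heint _)
    have i2 := iso_integrable (e (c * w2)) w2 (Lm m) hn2 (heint _)
    have j1 := iso_int (e (c * w1)) w1 (-(w1 * Lm m)) hn1
    have j2 := iso_int (e (c * w2)) w2 (Lm m) hn2
    have j : ∫ x, h x = 4 * ((∫ x, ‖iteratedFDeriv ℝ 2 V x‖ ^ 2) + ((∫ x, e c x) +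
        ((∫ x, e (c * w1) x) + ∫ x, e (c * w2) x))) := by
      simp only [h]
      rw [integral_const_mul]
      congr 1
      have i3 : Integrable (fun y => e (c * w1) (w1 * y + -(w1 * Lm m)) +
        e (c * w2) (w2 * y + Lm m)) := i1.add i2
      have i4 : Integrable (fun y => e c y + (e (c * w1) (w1 * y + -(w1 * Lm m)) +
        e (c * w2) (w2 * y + Lm m))) := (heint c).add i3
      rw [integral_add hVint i4, integral_add (heint c) i3, integral_add i1 i2, j1, j2]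
    rw [j]
    have k1 := heen c rfl
    have k2 := heen (c * w1) hc1
    have k3 := heen (c * w2) hc2
    have k4 : KV * ‖c‖ ^ 2 ≤ KV * ‖c‖ ^ 2 * m * (1 + |Real.log a|) := by
      have : 1 ≤ (m : ℝ) * (1 + |Real.log a|) := by nlinarith
      calc KV * ‖c‖ ^ 2 = KV * ‖c‖ ^ 2 * 1 := (mul_one _).symm
        _ ≤ KV * ‖c‖ ^ 2 * (m * (1 + |Real.log a|)) :=
            mul_le_mul_of_nonneg_left this (by positivity)
        _ = _ := by ring
    nlinarith
  have hfin := cell_bound hθ Xi m hm' a c h hHHsm hhint hHHle b hb0 hb1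
  refine hfin.trans ?_
  calc 81 * ∫ x, h x ≤ 81 * (4 * (KV + 108 * KG) * ‖c‖ ^ 2 * m * (1 + |Real.log a|)) :=
        mul_le_mul_of_nonneg_left hhen (by norm_num)
    _ = 324 * (KV + 108 * KG) * ‖c‖ ^ 2 * m * (1 + |Real.log a|) := by ring


end JS7b
export JS7b (dd_energy)

end Porous
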