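import Pool.Agent.Porous.Defs

open MeasureTheory Complex Set
open scoped ContDiff ENNReal
noncomputable section
namespace Porous
namespace JV1

/-- the basis of the period lattice and the area of the cell -/
theorem hex_basis (L : ℝ) (hL : 0 < L) : ∃ b : Module.Basis (Fin 2) ℝ ℂ, b 0 = (L : ℂ) ∧ b 1 = (L : ℂ) * zt := by
  have h3 : 0 < Real.sqrt 3 := Real.sqrt_pos.mpr (by norm_num)
  have hli : LinearIndependent ℝ ![(L : ℂ), (L : ℂ) * zt] := by
    rw [LinearIndependent.pair_iff]
    intro s t h
    have him := congrArg Complex.im h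
    have hre := congrArg Complex.re h
    simp only [zt, Complex.add_im, Complex.add_re, Complex.smul_im, Complex.smul_re,
      Complex.mul_im, Complex.mul_re, Complex.ofReal_im, Complex.ofReal_re, smul_eq_mul,
      Complex.zero_im, Complex.zero_re] at him hre
    have ht : t = 0 := by
      have h4 : t * (L * (Real.sqrt 3 / 2)) = 0 := by linarith
      rcases mul_eq_zero.mp h4 with h5 | h5
      · exact h5
      · exact absurd h5 (by positivity)
    rw [ht] at hre
    have h4 : s * L = 0 := by linarith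
    rcases mul_eq_zero.mp h4 with h5 | h5
    · exact ⟨h5, ht⟩
    · exact absurd h5 hL.ne'
  refine ⟨basisOfLinearIndependentOfCardEqFinrank hli (by simp), ?_, ?_⟩
  · simp
  · simp

theorem hex_volume (L : ℝ) (hL : 0 < L) (b : Module.Basis (Fin 2) ℝ ℂ) (h0 : b 0 = (L : ℂ)) (h1 : b 1 = (L : ℂ) * zt) :
    (volume (ZSpan.fundamentalDomain b)).toReal = Real.sqrt 3 / 2 * L ^ 2 := by
  have e1 := ZSpan.measure_fundamentalDomain b volume Complex.orthonormalBasisOneI.toBasis
  have e2 : volume (ZSpan.fundamentalDomain Complex.orthonormalBasisOneI.toBasis) = 1 := by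
    rw [measure_congr (ZSpan.fundamentalDomain_ae_parallelepiped _ volume)]
    have := Complex.orthonormalBasisOneI.volume_parallelepiped
    simpa using this
  have e3 : Complex.orthonormalBasisOneI.toBasis.det b = L * (L * (Real.sqrt 3 / 2)) := by
    rw [Module.Basis.det_apply, Matrix.det_fin_two]
    simp [Module.Basis.toMatrix_apply, h0, h1, zt]
  rw [e1, e2, e3, mul_one, ENNReal.toReal_ofReal (abs_nonneg _), abs_of_nonneg (by positivity)]
  ring

/-- the lattice is invariant under multiplication by `ζ²` -/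
theorem hex_lattice_rot (L : ℝ) (hL : 0 < L) (b : Module.Basis (Fin 2) ℝ ℂ) (h0 : b 0 = (L : ℂ))
    (h1 : b 1 = (L : ℂ) * zt) (x : ℂ) :
    x ∈ Submodule.span ℤ (Set.range b) ↔ zt ^ 2 * x ∈ Submodule.span ℤ (Set.range b) := by
  have hz : zt ^ 2 = zt - 1 := by
    apply Complex.ext
    · simp [zt, pow_two, Complex.mul_re]
      nlinarith [Real.mul_self_sqrt (show (0:ℝ) ≤ 3 by norm_num)]
    · simp [zt, pow_two, Complex.mul_im]
      ring
  have hr : Set.range b = {b 0, b 1} := by
    ext y
    constructor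
    · rintro ⟨i, rfl⟩
      fin_cases i
      · left; rfl
      · right; rfl
    · rintro (h | h)
      · exact ⟨0, h.symm⟩
      · exact ⟨1, h.symm⟩
  rw [hr, Submodule.mem_span_pair, Submodule.mem_span_pair, h0, h1]
  constructor
  · rintro ⟨m, n, rfl⟩
    refine ⟨-m - n, m, ?_⟩
    simp only [zsmul_eq_mul]
    push_cast
    have : zt ^ 2 * (m * (L : ℂ) + n * (L * zt)) = m * L * zt ^ 2 + n * L * (zt ^ 2 * zt) := by ring
    have h7 : zt ^ 2 * zt = -1 := by
      rw [hz]
      have : (zt - 1) * zt = zt ^ 2 - zt := by ring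
      rw [this, hz]; ring
    rw [this, h7, hz]
    ring
  · rintro ⟨m, n, h⟩
    refine ⟨n, -m - n, ?_⟩
    simp only [zsmul_eq_mul] at h ⊢
    push_cast
    have h6 : -zt * zt ^ 2 = 1 := by
      rw [hz]
      have : -zt * (zt - 1) = zt - zt ^ 2 := by ring
      rw [this, hz]; ring
    have : x = -zt * (zt ^ 2 * x) := by rw [← mul_assoc, h6, one_mul]
    rw [this, ← h]
    have : -zt * (m * (L : ℂ) + n * (L * zt)) = - m * L * zt - n * L * zt ^ 2 := by ring
    rw [this, hz]
    ring


end JV1
export JV1 (hex_basis hex_volume hex_lattice_rot)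

end Porous
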