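import Pool.Agent.Porous.G1
import Pool.Agent.Porous.G2
import Pool.Agent.Porous.G3
import Pool.Agent.Porous.G5
import Pool.Agent.Porous.G4
import Pool.Agent.Porous.G5b
import Pool.Agent.Porous.G6
import Pool.Agent.Porous.G7
import Pool.Agent.Porous.S2
import Pool.Agent.Porous.S6c3
import Pool.Agent.Porous.S7b
import Pool.Agent.Porous.V1
import Pool.Agent.Porous.KF

open MeasureTheory Complex Set
open scoped ContDiff ENNReal
noncomputable section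
namespace Porous
namespace JF1

/-! TARGET -/

theorem fz_zt_sq : zt ^ 2 = ⟨-1/2, Real.sqrt 3 / 2⟩ := by
  have h3 : Real.sqrt 3 * Real.sqrt 3 = 3 := Real.mul_self_sqrt (by norm_num)
  unfold zt
  apply Complex.ext
  · rw [pow_two, Complex.mul_re]
    simp only
    nlinarith
  · rw [pow_two, Complex.mul_im]
    simp only
    ring

theorem fz_norm_zt : ‖zt‖ = 1 := by
  have h3 : Real.sqrt 3 * Real.sqrt 3 = 3 := Real.mul_self_sqrt (by norm_num)
  have h : ‖zt‖ ^ 2 = 1 := by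
    rw [← Complex.normSq_eq_norm_sq, Complex.normSq_apply]
    unfold zt
    simp only
    nlinarith
  have h0 := norm_nonneg zt
  nlinarith

theorem fz_conj : (starRingEnd ℂ (zt ^ 2)) ^ 2 = ⟨-1/2, Real.sqrt 3 / 2⟩ := by
  have h3 : Real.sqrt 3 * Real.sqrt 3 = 3 := Real.mul_self_sqrt (by norm_num)
  rw [fz_zt_sq]
  apply Complex.ext
  · rw [pow_two, Complex.mul_re, Complex.conj_re, Complex.conj_im]
    simp only
    nlinarith
  · rw [pow_two, Complex.mul_im, Complex.conj_re, Complex.conj_im]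
    simp only
    ring

theorem fz_cube : (⟨-1/2, Real.sqrt 3 / 2⟩ : ℂ) * ((⟨-1/2, Real.sqrt 3 / 2⟩ : ℂ) *
    (⟨-1/2, Real.sqrt 3 / 2⟩ : ℂ)) = 1 := by
  have h3 : Real.sqrt 3 * Real.sqrt 3 = 3 := Real.mul_self_sqrt (by norm_num)
  apply Complex.ext
  · rw [Complex.mul_re, Complex.mul_re, Complex.mul_im]
    simp only [Complex.one_re]
    nlinarith
  · rw [Complex.mul_im, Complex.mul_re, Complex.mul_im]
    simp only [Complex.one_im]
    linear_combination (-(Real.sqrt 3) / 8) * h3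

theorem fz_numeric (A B ε : ℝ) (hε : 0 < ε) (hB : 0 ≤ B) : ∃ m : ℕ, 4 ≤ m ∧
    A ≤ ε * m ∧ B * (1 + |Real.log (1 / (100 * (m : ℝ) ^ 3))|) ≤ ε * m := by
  obtain ⟨m, hm⟩ := exists_nat_ge (max 4 (max (A / ε) ((106 * B / ε) ^ 2)))
  have h4 : (4 : ℝ) ≤ m := le_trans (le_max_left _ _) hm
  have hA : A / ε ≤ m := le_trans (le_trans (le_max_left _ _) (le_max_right _ _)) hm
  have hB2 : (106 * B / ε) ^ 2 ≤ m := le_trans (le_trans (le_max_right _ _) (le_max_right _ _)) hm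
  refine ⟨m, by exact_mod_cast h4, ?_, ?_⟩
  · rw [div_le_iff₀ hε] at hA
    linarith
  · have hm0 : (0 : ℝ) < m := by linarith
    have hs0 : 0 < Real.sqrt m := Real.sqrt_pos.2 hm0
    have hss : Real.sqrt m * Real.sqrt m = m := Real.mul_self_sqrt hm0.le
    have hs1 : 1 ≤ Real.sqrt m := by
      rw [Real.one_le_sqrt]
      linarith
    have hlog : |Real.log (1 / (100 * (m : ℝ) ^ 3))| ≤ 99 + 6 * Real.sqrt m := by
      have e1 : Real.log (1 / (100 * (m : ℝ) ^ 3)) = -(Real.log 100 + 3 * Real.log m) := by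
        rw [one_div, Real.log_inv, Real.log_mul (by norm_num) (by positivity), Real.log_pow]
        push_cast
        ring
      have e2 : 0 ≤ Real.log 100 := Real.log_nonneg (by norm_num)
      have e3 : 0 ≤ Real.log m := Real.log_nonneg (by linarith)
      rw [e1, abs_neg, abs_of_nonneg (by linarith)]
      have e4 : Real.log 100 ≤ 100 - 1 := Real.log_le_sub_one_of_pos (by norm_num)
      have e5 : Real.log m = 2 * Real.log (Real.sqrt m) := by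
        have := Real.log_sqrt hm0.le
        linarith
      have e6 : Real.log (Real.sqrt m) ≤ Real.sqrt m - 1 := Real.log_le_sub_one_of_pos hs0
      linarith
    have hle : B * (1 + |Real.log (1 / (100 * (m : ℝ) ^ 3))|) ≤ B * (106 * Real.sqrt m) :=
      mul_le_mul_of_nonneg_left (by linarith) hB
    have h5 : 106 * B / ε ≤ Real.sqrt m := by
      apply Real.le_sqrt_of_sq_le hB2
    rw [div_le_iff₀ hε] at h5
    have h6 : 106 * B * Real.sqrt m ≤ Real.sqrt m * ε * Real.sqrt m :=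
      mul_le_mul_of_nonneg_right h5 hs0.le
    have h7 : Real.sqrt m * ε * Real.sqrt m = ε * m := by
      rw [← hss]
      have : Real.sqrt (Real.sqrt m * Real.sqrt m) = Real.sqrt m := by rw [hss]
      rw [this]
      ring
    linarith

theorem fz_infDist_image {Γ : Set ℂ} {Φ : ℂ → ℂ} (hΦ : Isometry Φ) (hsurj : Function.Surjective Φ)
    (h : ∀ x, Φ x ∈ Γ ↔ x ∈ Γ) (x : ℂ) : Metric.infDist (Φ x) Γ = Metric.infDist x Γ := by
  have himg : Φ '' Γ = Γ := by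
    ext y
    constructor
    · rintro ⟨z, hz, rfl⟩
      exact (h z).2 hz
    · intro hy
      obtain ⟨z, rfl⟩ := hsurj y
      exact ⟨z, (h z).1 hy, rfl⟩
  conv_lhs => rw [← himg]
  exact Metric.infDist_image hΦ

theorem fz_zero_mem (m : ℕ) (a : ℝ) (ha : a ≤ 1 / 2) : (0 : ℂ) ∈ Gam hx m a := by
  refine ⟨0, 0, ?_⟩
  left
  left
  left
  have hpt : hx.pt 0 0 = 0 := by
    unfold Frame.pt hx
    simp
  have hcs : hx.cs 0 = 0 := by
    have := Frame.cs_pt hx_good 0 0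
    rwa [hpt] at this
  have hcr : hx.cr 0 = 0 := by
    have := Frame.cr_pt hx_good 0 0
    rwa [hpt] at this
  have h0 : (0 : ℂ) - Lm m * (((0 : ℤ) : ℂ) * hx.τ + ((0 : ℤ) : ℂ) * hx.σ) = 0 := by
    simp
  show (hx.cs ((0 : ℂ) - Lm m * (((0 : ℤ) : ℂ) * hx.τ + ((0 : ℤ) : ℂ) * hx.σ)),
      hx.cr ((0 : ℂ) - Lm m * (((0 : ℤ) : ℂ) * hx.τ + ((0 : ℤ) : ℂ) * hx.σ))) ∈ Edges m ∧
      (∀ j < 2 * m, a ≤ ‖((0 : ℂ) - Lm m * (((0 : ℤ) : ℂ) * hx.τ + ((0 : ℤ) : ℂ) * hx.σ)) - hx.N j‖) ∧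
      (∀ i ≤ m, a ≤ ‖((0 : ℂ) - Lm m * (((0 : ℤ) : ℂ) * hx.τ + ((0 : ℤ) : ℂ) * hx.σ)) - hx.D i‖) ∧
      (∀ i < m, a ≤ ‖((0 : ℂ) - Lm m * (((0 : ℤ) : ℂ) * hx.τ + ((0 : ℤ) : ℂ) * hx.σ)) - hx.U m i‖)
  rw [h0, hcs, hcr]
  refine ⟨?_, ?_, ?_, ?_⟩
  · left
    refine ⟨rfl, le_refl _, ?_⟩
    show (0 : ℝ) ≤ Lm m
    unfold Lm
    positivity
  · intro j _
    have h1 := Frame.abs_cs_sub_le hx_good 0 (hx.N j)
    rw [hcs] at h1
    have h2 : hx.cs (hx.N j) = (j : ℝ) + 2 := Frame.cs_pt hx_good _ _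
    rw [h2] at h1
    have h3 : (j : ℝ) + 2 ≤ |0 - ((j : ℝ) + 2)| := by
      rw [zero_sub, abs_neg]
      exact le_abs_self _
    have h4 : (0 : ℝ) ≤ j := Nat.cast_nonneg _
    linarith
  · intro i _
    have h1 := Frame.abs_cr_sub_le hx_good 0 (hx.D i)
    rw [hcr] at h1
    have h2 : hx.cr (hx.D i) = 1 := Frame.cr_pt hx_good _ _
    rw [h2] at h1
    have h3 : (1 : ℝ) ≤ |0 - 1| := by norm_num
    linarith
  · intro i _
    have h1 := Frame.abs_cs_sub_le hx_good 0 (hx.U m i)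
    rw [hcs] at h1
    have h2 : hx.cs (hx.U m i) = 2 * (i : ℝ) + 3 := Frame.cs_pt hx_good _ _
    rw [h2] at h1
    have h3 : 2 * (i : ℝ) + 3 ≤ |0 - (2 * (i : ℝ) + 3)| := by
      rw [zero_sub, abs_neg]
      exact le_abs_self _
    have h4 : (0 : ℝ) ≤ i := Nat.cast_nonneg _
    linarith

/-- exactly isotropic hexagonal composites with moduli close to `(0, μ)`, for a compressible (`κ < ∞`) or an
incompressible (`κ = ∞`) phase -/
theorem hex_main (κ : ℝ≥0∞) (hκ : κ ≠ 0) (μ : ℝ) (hμ : 0 < μ) (ε : ℝ) (hε : 0 < ε) :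
    ∃ (b : Module.Basis (Fin 2) ℝ ℂ) (Ω : Set ℂ) (k n : ℝ), MeasurableSet Ω ∧
      (∀ (i : Fin 2) (x : ℂ), x + b i ∈ Ω ↔ x ∈ Ω) ∧ 0 ≤ k ∧ k ≤ ε ∧ 0 ≤ n ∧ μ - ε ≤ n ∧ n ≤ μ ∧
      ∀ e₁₁ e₂₂ e₁₂ : ℝ, effE b Ω κ μ e₁₁ e₂₂ e₁₂ =
        ENNReal.ofReal (k * (e₁₁ + e₂₂) ^ 2 + n * ((e₁₁ - e₂₂) ^ 2 + 4 * e₁₂ ^ 2)) := by
  obtain ⟨θ, hθ⟩ := exists_theta
  obtain ⟨Xi, KX, hKX, hXi⟩ := exists_Xi
  obtain ⟨K1, hK1, hkin⟩ := kin_final
  obtain ⟨K2, hK2, hen⟩ := dd_energy hθ hXi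
  have hq : 0 ≤ (κ⁻¹).toReal := ENNReal.toReal_nonneg
  set q : ℝ := (κ⁻¹).toReal with hqdef
  obtain ⟨m, hm4, hmA, hmB⟩ := fz_numeric (μ * K1) ((2 / μ + q) * (K2 * μ ^ 2)) ε hε (by positivity)
  have hm4r : (4 : ℝ) ≤ m := by exact_mod_cast hm4
  have hm0 : (0 : ℝ) < m := by linarith
  set a : ℝ := 1 / (100 * (m : ℝ) ^ 3) with hadef
  have ha : 0 < a := by positivity
  have hm3 : (m : ℝ) ≤ (m : ℝ) ^ 3 := by
    have h1 : (1 : ℝ) ≤ (m : ℝ) ^ 2 := by nlinarith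
    have h2 : (m : ℝ) * 1 ≤ (m : ℝ) * (m : ℝ) ^ 2 := mul_le_mul_of_nonneg_left h1 hm0.le
    calc (m : ℝ) = m * 1 := by ring
      _ ≤ m * (m : ℝ) ^ 2 := h2
      _ = (m : ℝ) ^ 3 := by ring
  have ha1 : a ≤ 1 / (100 * (m : ℝ)) := by
    rw [hadef]
    apply one_div_le_one_div_of_le (by positivity)
    linarith
  have ha2 : a ≤ 1 / 2 := by
    refine le_trans ha1 ?_
    apply one_div_le_one_div_of_le (by norm_num)
    linarith
  set η : ℝ := a / 200 with hη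
  have hη0 : 0 < η := by positivity
  have hL0 : 0 < Lm m := by unfold Lm; positivity
  obtain ⟨b, hb0, hb1⟩ := hex_basis (Lm m) hL0
  have hvol := hex_volume (Lm m) hL0 b hb0 hb1
  have hvol3 : 3 * (m : ℝ) ^ 2 ≤ (volume (cell b)).toReal := by
    show 3 * (m : ℝ) ^ 2 ≤ (volume (ZSpan.fundamentalDomain b)).toReal
    rw [hvol]
    have h3 : (3 : ℝ) / 2 ≤ Real.sqrt 3 := by
      apply Real.le_sqrt_of_sq_le
      norm_num
    have hL2 : 4 * (m : ℝ) ^ 2 ≤ Lm m ^ 2 := by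
      unfold Lm
      nlinarith
    have hL2' : 0 ≤ Lm m ^ 2 := sq_nonneg _
    nlinarith
  have hV0 : 0 < (volume (cell b)).toReal := by
    have : 0 < 3 * (m : ℝ) ^ 2 := by positivity
    linarith
  set V : ℝ := (volume (cell b)).toReal with hV
  set Γ := Gam hx m a with hΓ
  have hne : Γ.Nonempty := ⟨0, fz_zero_mem m a ha2⟩
  set Ω : Set ℂ := {x | η ≤ Metric.infDist x Γ} with hΩ
  have hΩm : MeasurableSet Ω := (isClosed_le continuous_const (Metric.continuous_infDist_pt Γ)).measurableSet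
  have hper : ∀ (n : ℤ × ℤ) (x : ℂ), x + Lm m * lp n ∈ Ω ↔ x ∈ Ω := by
    intro n x
    have := fz_infDist_image (Γ := Γ) (Φ := fun y => y + Lm m * lp n)
      (fun y z => by simp [edist_add_right])
      (fun y => ⟨y - Lm m * lp n, by simp⟩) (fun y => Gam_per m a n y) x
    show η ≤ Metric.infDist (x + Lm m * lp n) Γ ↔ η ≤ Metric.infDist x Γ
    rw [this]
  have hl0 : b 0 = Lm m * lp (1, 0) := by
    rw [hb0]
    simp [lp]
  have hl1 : b 1 = Lm m * lp (0, 1) := by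
    rw [hb1]
    simp [lp]
  have hΩp : ∀ (i : Fin 2) (x : ℂ), x + b i ∈ Ω ↔ x ∈ Ω := by
    intro i x
    fin_cases i
    · show x + b 0 ∈ Ω ↔ x ∈ Ω
      rw [hl0]
      exact hper _ x
    · show x + b 1 ∈ Ω ↔ x ∈ Ω
      rw [hl1]
      exact hper _ x
  have hztn : ‖zt ^ 2‖ = 1 := by rw [norm_pow, fz_norm_zt, one_pow]
  have hztne : zt ^ 2 ≠ 0 := by
    intro h
    rw [h, norm_zero] at hztn
    exact zero_ne_one hztn
  have hrotΩ : ∀ x, x ∈ Ω ↔ zt ^ 2 * x + (Lm m : ℂ) ∈ Ω := by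
    intro x
    have := fz_infDist_image (Γ := Γ) (Φ := fun y => zt ^ 2 * y + (Lm m : ℂ))
      (by
        apply Isometry.of_dist_eq
        intro y z
        rw [dist_eq_norm, dist_eq_norm]
        have : zt ^ 2 * y + (Lm m : ℂ) - (zt ^ 2 * z + (Lm m : ℂ)) = zt ^ 2 * (y - z) := by ring
        rw [this, norm_mul, hztn, one_mul])
      (fun y => ⟨(y - (Lm m : ℂ)) / zt ^ 2, by
        show zt ^ 2 * ((y - (Lm m : ℂ)) / zt ^ 2) + (Lm m : ℂ) = y
        rw [mul_div_cancel₀ _ hztne]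
        ring⟩) (fun y => Gam_rot m a y) x
    show η ≤ Metric.infDist x Γ ↔ η ≤ Metric.infDist (zt ^ 2 * x + (Lm m : ℂ)) Γ
    rw [this]
  have hlat := hex_lattice_rot (Lm m) hL0 b hb0 hb1
  have hstep : ∀ (s : ℝ) (β : ℂ),
      effE b Ω κ μ (s + ((⟨-1/2, Real.sqrt 3 / 2⟩ : ℂ) * β).re) (s - ((⟨-1/2, Real.sqrt 3 / 2⟩ : ℂ) * β).re)
        ((⟨-1/2, Real.sqrt 3 / 2⟩ : ℂ) * β).im ≤ effE b Ω κ μ (s + β.re) (s - β.re) β.im := by
    intro s β
    have h := effE_rot_le b Ω κ μ (zt ^ 2) (Lm m : ℂ) hztn hlat hrotΩ hΩm hΩp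
      (fun f hf => integral_cell_rot b (zt ^ 2) (Lm m : ℂ) hztn hlat f hf)
      (fun f hf => lintegral_cell_rot b (zt ^ 2) (Lm m : ℂ) hztn hlat f hf)
      (fun f hf hL => memLp_cell_rot b (zt ^ 2) (Lm m : ℂ) hztn hlat f hf hL) s β
    rw [fz_conj] at h
    exact h
  have hrot : ∀ (s : ℝ) (β : ℂ),
      effE b Ω κ μ (s + ((⟨-1/2, Real.sqrt 3 / 2⟩ : ℂ) * β).re) (s - ((⟨-1/2, Real.sqrt 3 / 2⟩ : ℂ) * β).re)
        ((⟨-1/2, Real.sqrt 3 / 2⟩ : ℂ) * β).im = effE b Ω κ μ (s + β.re) (s - β.re) β.im := by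
    intro s β
    apply le_antisymm (hstep s β)
    have h1 := hstep s ((⟨-1/2, Real.sqrt 3 / 2⟩ : ℂ) * β)
    have h2 := hstep s ((⟨-1/2, Real.sqrt 3 / 2⟩ : ℂ) * ((⟨-1/2, Real.sqrt 3 / 2⟩ : ℂ) * β))
    have h3 : (⟨-1/2, Real.sqrt 3 / 2⟩ : ℂ) * ((⟨-1/2, Real.sqrt 3 / 2⟩ : ℂ) *
        ((⟨-1/2, Real.sqrt 3 / 2⟩ : ℂ) * β)) = β := by
      have := fz_cube
      calc (⟨-1/2, Real.sqrt 3 / 2⟩ : ℂ) * ((⟨-1/2, Real.sqrt 3 / 2⟩ : ℂ) *
        ((⟨-1/2, Real.sqrt 3 / 2⟩ : ℂ) * β)) = ((⟨-1/2, Real.sqrt 3 / 2⟩ : ℂ) * ((⟨-1/2, Real.sqrt 3 / 2⟩ : ℂ) *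
    (⟨-1/2, Real.sqrt 3 / 2⟩ : ℂ))) * β := by ring
        _ = β := by rw [this, one_mul]
    rw [h3] at h2
    exact h2.trans h1
  -- upper bound at the identity
  obtain ⟨u, hu, huper, hutr, huint⟩ := hkin m (by omega) a ha ha1 η hη0 b hb0 hb1
  have hH := isH1Per_of_contDiff (fun b f hf hp h => integral_cell_deriv b f hf hp h) b u hu huper
  have hup := effE_le b Ω hΩm κ μ hμ u hu hH 1 1 0 (fun x hx => hutr x hx)
  have hup2 : effE b Ω κ μ 1 1 0 ≤ ENNReal.ofReal (μ * (K1 * (m : ℝ) ^ 7 * a ^ 2) / V) := by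
    refine hup.trans (ENNReal.ofReal_le_ofReal ?_)
    rw [integral_const_mul]
    apply div_le_div_of_nonneg_right _ hV0.le
    exact mul_le_mul_of_nonneg_left huint hμ.le
  have hfin : effE b Ω κ μ 1 1 0 ≠ ⊤ := (hup2.trans_lt ENNReal.ofReal_lt_top).ne
  obtain ⟨k, n, hk0, hn0, hform⟩ := effE_isotropic b Ω κ μ hμ
    (fun f h1 h2 h3 h4 => iso_algebra f h1 h2 h3 _ rfl h4)
    (fun u G₁ G₂ u' G₁' G₂' h h' => IsH1Per.add h h')
    (fun u G₁ G₂ t h => IsH1Per.smul h t) hfin hrot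
  refine ⟨b, Ω, k, n, hΩm, hΩp, hk0, ?_, hn0, ?_, ?_, hform⟩
  · -- k ≤ ε
    rw [hform 1 1 0, ENNReal.ofReal_le_ofReal_iff (by positivity)] at hup2
    have h1 : (m : ℝ) ^ 7 * a ^ 2 = m / 10000 := by
      rw [hadef]
      field_simp
      ring
    have h2 : μ * (K1 * (m : ℝ) ^ 7 * a ^ 2) / V ≤ ε := by
      rw [div_le_iff₀ hV0, mul_assoc K1, h1]
      have h3 : μ * (K1 * ((m : ℝ) / 10000)) ≤ (ε * m) * m := by
        have h4 : μ * (K1 * ((m : ℝ) / 10000)) ≤ (μ * K1) * m := by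
          have : 0 < μ * K1 * m := by positivity
          linarith
        exact h4.trans (mul_le_mul_of_nonneg_right hmA hm0.le)
      have h5 : (ε * m) * m ≤ ε * V := by
        have : ε * (3 * (m : ℝ) ^ 2) ≤ ε * V := mul_le_mul_of_nonneg_left hvol3 hε.le
        have h6 : 0 ≤ ε * (m : ℝ) ^ 2 := by positivity
        linarith
      linarith
    have h7 : k * (1 + 1) ^ 2 + n * ((1 - 1) ^ 2 + 4 * (0 : ℝ) ^ 2) = 4 * k := by ring
    rw [h7] at hup2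
    linarith
  · -- μ - ε ≤ n
    set c : ℂ := ((-μ : ℝ) : ℂ) with hc
    have hcn : ‖c‖ = μ := by
      rw [hc, Complex.norm_real, Real.norm_eq_abs, abs_neg, abs_of_pos hμ]
    have hdper : Per b (dd θ Xi m a c) := by
      intro i x
      fin_cases i
      · show dd θ Xi m a c (x + b 0) = dd θ Xi m a c x
        rw [hl0]
        exact dd_periodic hθ hXi m a ha c _ x
      · show dd θ Xi m a c (x + b 1) = dd θ Xi m a c x
        rw [hl1]
        exact dd_periodic hθ hXi m a ha c _ x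
    have haff : ∀ x, x ∉ Ω → ∃ (α : ℝ) (g : ℂ), ∀ᶠ y in nhds x,
        (c * y ^ 2).re + dd θ Xi m a c y = α + (g * y).re := by
      intro x hx
      have hlt : Metric.infDist x Γ < η := not_le.1 hx
      obtain ⟨y, hy, hxy⟩ := (Metric.infDist_lt_iff hne).1 hlt
      rw [dist_eq_norm] at hxy
      exact near_Gam hθ hXi m hm4 a ha ha1 c y hy x (by
        have : η < a / 100 := by rw [hη]; linarith
        linarith)
    have hlow := effE_ge b (fun f hf hp h => integral_cell_deriv b f hf hp h) Ω hΩm κ hκ μ hμ c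
      (dd θ Xi m a c) (dd_contDiff hθ hXi m a ha c) hdper haff 1 (-1) 0
    rw [hform 1 (-1) 0, ENNReal.ofReal_le_ofReal_iff (by positivity)] at hlow
    have hI := hen m (by omega) a ha ha2 c b hb0 hb1
    rw [hcn] at hI hlow
    have hcre : c.re = -μ := by rw [hc, Complex.ofReal_re]
    have hcim : c.im = 0 := by rw [hc, Complex.ofReal_im]
    rw [hcre, hcim] at hlow
    have h8 : (∫ x in cell b, ‖iteratedFDeriv ℝ 2 (dd θ Xi m a c) x‖ ^ 2) / V ≤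
        K2 * μ ^ 2 * m * (1 + |Real.log a|) / V := div_le_div_of_nonneg_right hI hV0.le
    have h9 : (2 / μ + q) * ((∫ x in cell b, ‖iteratedFDeriv ℝ 2 (dd θ Xi m a c) x‖ ^ 2) / V) ≤
        (2 / μ + q) * (K2 * μ ^ 2 * m * (1 + |Real.log a|) / V) :=
      mul_le_mul_of_nonneg_left h8 (by positivity)
    have h10 : (2 / μ + q) * (K2 * μ ^ 2 * m * (1 + |Real.log a|) / V) ≤ ε := by
      have e1 : (2 / μ + q) * (K2 * μ ^ 2 * m * (1 + |Real.log a|) / V) =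
          ((2 / μ + q) * (K2 * μ ^ 2) * (1 + |Real.log a|)) * m / V := by ring
      rw [e1, div_le_iff₀ hV0]
      have e2 := mul_le_mul_of_nonneg_right hmB hm0.le
      have e3 : ε * (3 * (m : ℝ) ^ 2) ≤ ε * V := mul_le_mul_of_nonneg_left hvol3 hε.le
      have e4 : 0 ≤ ε * (m : ℝ) ^ 2 := by positivity
      linarith
    have h11 : 4 * μ ^ 2 / μ = 4 * μ := by
      field_simp
    rw [h11] at hlow
    have h12 : k * (1 + -1) ^ 2 + n * ((1 - -1) ^ 2 + 4 * (0 : ℝ) ^ 2) = 4 * n := by ring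
    rw [h12] at hlow
    linarith
  · -- n ≤ μ
    have hdev := effE_le_dev b Ω κ μ hμ 1 0
    rw [hform 1 (-1) 0, ENNReal.ofReal_le_ofReal_iff (by positivity)] at hdev
    have h12 : k * (1 + -1) ^ 2 + n * ((1 - -1) ^ 2 + 4 * (0 : ℝ) ^ 2) = 4 * n := by ring
    have h13 : μ * ((1 + 1) ^ 2 + 4 * (0 : ℝ) ^ 2) = 4 * μ := by ring
    rw [h12, h13] at hdev
    linarith


end JF1
export JF1 (hex_main)

end Porous
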