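import Mathlib

open MeasureTheory Complex Set
open scoped ContDiff ENNReal
noncomputable section
namespace Porous
namespace JG1


theorem g1_three (f : ℝ → ℂ → ℝ)
    (hpar : ∀ (s s' : ℝ) (β β' : ℂ), f (s + s') (β + β') + f (s - s') (β - β') = 2 * f s β + 2 * f s' β')
    (s₁ s₂ s₃ : ℝ) (b₁ b₂ b₃ : ℂ) :
    f (s₁ + s₂ + s₃) (b₁ + b₂ + b₃) + f s₁ b₁ + f s₂ b₂ + f s₃ b₃ =
      f (s₁ + s₂) (b₁ + b₂) + f (s₂ + s₃) (b₂ + b₃) + f (s₁ + s₃) (b₁ + b₃) := by
  have e1 := hpar (s₁ + s₂) s₃ (b₁ + b₂) b₃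
  have e2 := hpar s₁ (s₂ - s₃) b₁ (b₂ - b₃)
  have e3 := hpar (s₁ + s₃) s₂ (b₁ + b₃) b₂
  have e4 := hpar s₂ s₃ b₂ b₃
  have r1 : s₁ + (s₂ - s₃) = s₁ + s₂ - s₃ := by ring
  have r2 : b₁ + (b₂ - b₃) = b₁ + b₂ - b₃ := by ring
  have r3 : s₁ - (s₂ - s₃) = s₁ + s₃ - s₂ := by ring
  have r4 : b₁ - (b₂ - b₃) = b₁ + b₃ - b₂ := by ring
  have r5 : s₁ + s₃ + s₂ = s₁ + s₂ + s₃ := by ring
  have r6 : b₁ + b₃ + b₂ = b₁ + b₂ + b₃ := by ring
  rw [r1, r2, r3, r4] at e2
  rw [r5, r6] at e3
  linarith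

/-- A nonnegative function on `ℝ × ℂ` that is homogeneous of degree two, satisfies the parallelogram law and is invariant
under the rotation of the second variable by 120 degrees is `A s² + B |β|²`. -/
theorem iso_algebra (f : ℝ → ℂ → ℝ) (hf0 : ∀ s β, 0 ≤ f s β)
    (hhom : ∀ (t s : ℝ) (β : ℂ), f (t * s) (t * β) = t ^ 2 * f s β)
    (hpar : ∀ (s s' : ℝ) (β β' : ℂ), f (s + s') (β + β') + f (s - s') (β - β') = 2 * f s β + 2 * f s' β')
    (ρ : ℂ) (hρ : ρ = ⟨-1/2, Real.sqrt 3 / 2⟩) (hrot : ∀ s β, f s (ρ * β) = f s β) :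
    ∃ A B : ℝ, 0 ≤ A ∧ 0 ≤ B ∧ ∀ s β, f s β = A * s ^ 2 + B * ‖β‖ ^ 2 := by
  have h3 := g1_three f hpar
  have hs3 : Real.sqrt 3 * Real.sqrt 3 = 3 := Real.mul_self_sqrt (by norm_num)
  have hρ2 : ρ ^ 2 + ρ + 1 = 0 := by
    rw [hρ]
    apply Complex.ext
    · simp [pow_two]
      nlinarith
    · simp [pow_two]
      ring
  have h00 : f 0 0 = 0 := by
    have := hhom 0 0 0
    simpa using this
  have hneg : ∀ s β, f (-s) (-β) = f s β := by
    intro s β
    have := hhom (-1) s β
    simpa using this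
  -- splitting
  have hg : ∀ s b, f s b = f s 0 + f 0 ((1 - ρ) * b) / 3 := by
    intro s b
    have e := h3 s s s b (ρ * b) (ρ ^ 2 * b)
    have r1 : f s (ρ * b) = f s b := hrot s b
    have r2 : f s (ρ ^ 2 * b) = f s b := by
      rw [pow_two, mul_assoc, hrot, hrot]
    have p1 := hpar s s b (ρ * b)
    have p2 := hpar s s (ρ * b) (ρ ^ 2 * b)
    have p3 := hpar s s b (ρ ^ 2 * b)
    have q1 : b - ρ * b = (1 - ρ) * b := by ring
    have q2 : ρ * b - ρ ^ 2 * b = ρ * ((1 - ρ) * b) := by ring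
    have q3 : b - ρ ^ 2 * b = -(ρ ^ 2 * ((1 - ρ) * b)) := by
      linear_combination (1 - ρ) * b * hρ2
    have q4 : b + ρ * b + ρ ^ 2 * b = 0 := by
      linear_combination b * hρ2
    have q5 : f 0 (-(ρ ^ 2 * ((1 - ρ) * b))) = f 0 ((1 - ρ) * b) := by
      have := hneg 0 (ρ ^ 2 * ((1 - ρ) * b))
      rw [neg_zero] at this
      rw [this, pow_two, mul_assoc, hrot, hrot]
    rw [sub_self, q1] at p1
    rw [sub_self, q2, hrot] at p2
    rw [sub_self, q3, q5] at p3
    rw [q4, r1, r2] at e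
    have q6 : f (s + s + s) 0 = 9 * f s 0 := by
      have := hhom 3 s 0
      rw [mul_zero] at this
      have q7 : s + s + s = 3 * s := by ring
      rw [q7, this]; norm_num
    rw [q6] at e
    rw [r1] at p1
    rw [r1, r2] at p2
    rw [r2] at p3
    linarith
  have hsplit : ∀ s b, f s b = f s 0 + f 0 b := by
    intro s b
    have e1 := hg s b
    have e2 := hg 0 b
    rw [h00] at e2
    linarith
  have hA : ∀ s, f s 0 = f 1 0 * s ^ 2 := by
    intro s
    have := hhom s 1 0
    rw [mul_one, mul_zero] at this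
    rw [this]; ring
  -- the function of the second variable
  set h : ℂ → ℝ := fun b => f 0 b with hh
  have hh0 : ∀ b, 0 ≤ h b := fun b => hf0 0 b
  have hhh : ∀ (t : ℝ) (b : ℂ), h (t * b) = t ^ 2 * h b := by
    intro t b
    have := hhom t 0 b
    rwa [mul_zero] at this
  have hpp : ∀ b b', h (b + b') + h (b - b') = 2 * h b + 2 * h b' := by
    intro b b'
    have := hpar 0 0 b b'
    rwa [add_zero, sub_zero] at this
  have ht : ∀ a b c, h (a + b + c) + h a + h b + h c = h (a + b) + h (b + c) + h (a + c) := by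
    intro a b c
    have := h3 0 0 0 a b c
    simpa using this
  have hn : ∀ b, h (-b) = h b := by
    intro b
    have := hneg 0 b
    rwa [neg_zero] at this
  have hr : ∀ b, h ((1 - ρ) * b) = 3 * h b := by
    intro b
    have e2 := hg 0 b
    rw [h00] at e2
    have : h b = 0 + h ((1 - ρ) * b) / 3 := e2
    linarith
  have hi : ∀ b, h (I * b) = h b := by
    set u : ℂ := ⟨Real.sqrt 3 / 2, -1/2⟩ with hu
    have hu1 : 1 - ρ = (Real.sqrt 3 : ℝ) * u := by
      rw [hρ, hu]
      apply Complex.ext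
      · simp
        nlinarith
      · simp
        ring
    have hub : ∀ b, h (u * b) = h b := by
      intro b
      have e := hr b
      rw [hu1, mul_assoc, hhh, Real.sq_sqrt (by norm_num)] at e
      linarith
    have hu3 : u * (u * u) = -I := by
      rw [hu]
      apply Complex.ext
      · simp
        linear_combination (Real.sqrt 3 / 8) * hs3
      · simp
        linear_combination (-3 / 8 : ℝ) * hs3
    intro b
    have e : h (u * (u * (u * b))) = h b := by rw [hub, hub, hub]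
    have e2 : u * (u * (u * b)) = -(I * b) := by
      calc u * (u * (u * b)) = (u * (u * u)) * b := by ring
        _ = -(I * b) := by rw [hu3]; ring
    rw [e2, hn] at e
    exact e
  -- polar form
  have hlin : ∀ (x z : ℂ) (t : ℝ), h (t * x + z) - h (t * x) - h z = t * (h (x + z) - h x - h z) := by
    intro x z t
    let φ : ℝ →+ ℝ :=
      { toFun := fun t => h (t * x + z) - h (t * x) - h z
        map_zero' := by
          have : h 0 = 0 := h00
          simp [this]
        map_add' := by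
          intro a b
          have e := ht ((a : ℂ) * x) ((b : ℂ) * x) z
          have e2 : ((a + b : ℝ) : ℂ) * x = a * x + b * x := by push_cast; ring
          rw [e2]
          linarith }
    have hφ : ∀ t, φ t = h (t * x + z) - h (t * x) - h z := fun t => rfl
    have hb : ∀ t : ℝ, |φ t| ≤ t ^ 2 * h x + h z := by
      intro t
      rw [abs_le]
      constructor
      · rw [hφ, hhh]
        have := hh0 (t * x + z)
        linarith
      · have e1 : φ (-t) = - φ t := map_neg φ t
        have e2 : φ (-t) = h (((-t : ℝ) : ℂ) * x + z) - h (((-t : ℝ) : ℂ) * x) - h z := hφ (-t)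
        rw [hhh] at e2
        have := hh0 (((-t : ℝ) : ℂ) * x + z)
        have e3 : (-t) ^ 2 = t ^ 2 := by ring
        rw [e3] at e2
        linarith
    have hc : Continuous φ := by
      apply AddMonoidHom.continuous_of_isBounded_nhds_zero φ (Metric.ball_mem_nhds (0 : ℝ) one_pos)
      apply (Metric.isBounded_closedBall (x := (0 : ℝ)) (r := h x + h z)).subset
      rintro _ ⟨t, ht1, rfl⟩
      rw [Metric.mem_closedBall, dist_zero_right, Real.norm_eq_abs]
      refine (hb t).trans ?_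
      rw [Metric.mem_ball, dist_zero_right, Real.norm_eq_abs] at ht1
      have e4 : t ^ 2 ≤ 1 := by
        rw [← sq_abs]
        exact pow_le_one₀ (abs_nonneg _) ht1.le
      have := hh0 x
      nlinarith
    have e := map_real_smul φ hc t 1
    rw [smul_eq_mul, smul_eq_mul, mul_one] at e
    rw [hφ, hφ] at e
    simpa using e
  have h1i : h (1 + I) = 2 * h 1 := by
    have e1 := hpp 1 I
    have e2 : h I = h 1 := by
      have := hi 1
      rwa [mul_one] at this
    have e3 : h (1 - I) = h (1 + I) := by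
      have := hi (1 - I)
      have e4 : I * (1 - I) = 1 + I := by
        rw [mul_sub, mul_one, I_mul_I]; ring
      rw [e4] at this
      exact this.symm
    rw [e3, e2] at e1
    linarith
  have hI : h I = h 1 := by
    have := hi 1
    rwa [mul_one] at this
  refine ⟨f 1 0, h 1, hf0 _ _, hh0 _, fun s β => ?_⟩
  rw [hsplit, hA]
  congr 1
  show h β = h 1 * ‖β‖ ^ 2
  have e1 := hlin 1 ((β.im : ℂ) * I) β.re
  have e2 := hlin I 1 β.im
  rw [mul_one, add_comm ((β.re : ℂ)) ((β.im : ℂ) * I), add_comm ((β.im : ℂ)* I) (β.re : ℂ), re_add_im] at e1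
  have e3 : h ((β.re : ℂ)) = β.re ^ 2 * h 1 := by
    have := hhh β.re 1
    rwa [mul_one] at this
  have e4 : h ((β.im : ℂ) * I) = β.im ^ 2 * h 1 := by rw [hhh, hI]
  rw [add_comm I 1, h1i, hI] at e2
  rw [add_comm (1 : ℂ)] at e1
  rw [Complex.sq_norm, Complex.normSq_apply]
  have e5 : h ((β.im : ℂ) * I + 1) - h ((β.im : ℂ) * I) - h 1 = 0 := by
    rw [e2]; ring
  have e6 : h β - h (β.re : ℂ) - h ((β.im : ℂ) * I) =
      β.re * (h ((β.im : ℂ) * I + 1) - h 1 - h ((β.im : ℂ) * I)) := e1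
  have e7 : h ((β.im : ℂ) * I + 1) - h 1 - h ((β.im : ℂ) * I) = 0 := by linarith
  rw [e7, mul_zero] at e6
  rw [e3, e4] at e6
  linarith

end JG1
export JG1 (iso_algebra)

end Porous
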