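import Pool.Agent.Porous.F1
import Pool.Agent.Porous.F1x

open MeasureTheory Complex Set Filter Topology
open scoped ContDiff ENNReal
noncomputable section
namespace Porous

/-- The pairs `(κ_*, μ_*)` of effective moduli of the exactly isotropic periodic composites of the elastic phase
`(κ, μ)` with void (any period lattice, any measurable periodic solid part `Ω`). -/
def IsoModuli (κ : ℝ≥0∞) (μ : ℝ) : Set (ℝ × ℝ) :=
  {p | 0 ≤ p.1 ∧ 0 ≤ p.2 ∧ ∃ (b : Module.Basis (Fin 2) ℝ ℂ) (Ω : Set ℂ), MeasurableSet Ω ∧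
    (∀ (i : Fin 2) (x : ℂ), x + b i ∈ Ω ↔ x ∈ Ω) ∧
    ∀ e₁₁ e₂₂ e₁₂ : ℝ, effE b Ω κ μ e₁₁ e₂₂ e₁₂ =
      ENNReal.ofReal (p.1 * (e₁₁ + e₂₂) ^ 2 + p.2 * ((e₁₁ - e₂₂) ^ 2 + 4 * e₁₂ ^ 2))}

theorem IsoModuli_le {κ : ℝ≥0∞} {μ : ℝ} (hμ : 0 < μ) {p : ℝ × ℝ} (hp : p ∈ IsoModuli κ μ) : p.2 ≤ μ := by
  obtain ⟨h1, h2, b, Ω, hm, hper, he⟩ := hp
  have h3 := he 1 (-1) 0
  have h4 := effE_le_dev b Ω κ μ hμ 1 0
  rw [h3] at h4
  have h5 : p.1 * (1 + -1) ^ 2 + p.2 * ((1 - -1) ^ 2 + 4 * 0 ^ 2) = 4 * p.2 := by ring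
  have h6 : μ * ((1 + 1) ^ 2 + 4 * (0 : ℝ) ^ 2) = 4 * μ := by ring
  rw [h5, h6] at h4
  rw [ENNReal.ofReal_le_ofReal_iff (by positivity)] at h4
  linarith

theorem IsoModuli_mem_closure (κ : ℝ≥0∞) (hκ : κ ≠ 0) (μ : ℝ) (hμ : 0 < μ) :
    ((0 : ℝ), μ) ∈ closure (IsoModuli κ μ) := by
  rw [Metric.mem_closure_iff]
  intro ε hε
  obtain ⟨b, Ω, k, n, hm, hper, hk0, hk, hn0, hn, hn', he⟩ := hex_main κ hκ μ hμ (ε / 2) (by positivity)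
  refine ⟨(k, n), ⟨hk0, hn0, b, Ω, hm, hper, he⟩, ?_⟩
  rw [Prod.dist_eq, max_lt_iff, Real.dist_eq, Real.dist_eq]
  constructor
  · rw [abs_lt]; constructor <;> simp <;> linarith
  · rw [abs_lt]; constructor <;> simp <;> linarith

theorem IsoModuli_isLUB (κ : ℝ≥0∞) (hκ : κ ≠ 0) (μ : ℝ) (hμ : 0 < μ) (c : ℝ) (hc : 0 < c) :
    IsLUB ((fun p : ℝ × ℝ => p.2 - c * p.1) '' IsoModuli κ μ) μ := by
  constructor
  · rintro v ⟨p, hp, rfl⟩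
    have h1 := IsoModuli_le hμ hp
    have h2 : 0 ≤ c * p.1 := mul_nonneg hc.le hp.1
    show p.2 - c * p.1 ≤ μ
    linarith
  · intro v hv
    by_contra hlt
    push Not at hlt
    have hpos : 0 < μ - v := by linarith
    obtain ⟨b, Ω, k, n, hm, hper, hk0, hk, hn0, hn, hn', he⟩ :=
      hex_main κ hκ μ hμ ((μ - v) / (2 * (1 + c))) (by positivity)
    have h1 : n - c * k ≤ v := hv ⟨(k, n), ⟨hk0, hn0, b, Ω, hm, hper, he⟩, rfl⟩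
    have h2 : c * k ≤ c * ((μ - v) / (2 * (1 + c))) := mul_le_mul_of_nonneg_left hk hc.le
    have h3 : (μ - v) / (2 * (1 + c)) + c * ((μ - v) / (2 * (1 + c))) = (μ - v) / 2 := by
      field_simp
    linarith

end Porous
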