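import Pool.Agent.Porous.Defs

open MeasureTheory Complex Set
open scoped ContDiff ENNReal
noncomputable section
namespace Porous


namespace Frame
theorem im_aux1 (z w : ℂ) : (z * (starRingEnd ℂ) w).im = z.im * w.re - z.re * w.im := by
  simp [Complex.mul_im]; ring

theorem im_aux2 (z w : ℂ) : (z * (starRingEnd ℂ) w).im = -(w * (starRingEnd ℂ) z).im := by
  rw [im_aux1, im_aux1]; ring

theorem pt_cs_cr {F : Frame} (hF : F.good) (x : ℂ) : F.pt (F.cs x) (F.cr x) = x := by
  have hd := hF.det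
  have hd' : (F.τ * (starRingEnd ℂ) F.σ).im = -(F.σ * (starRingEnd ℂ) F.τ).im := im_aux2 _ _
  have hne : (F.σ * (starRingEnd ℂ) F.τ).im ≠ 0 := hd.ne'
  have hne' : F.σ.im * F.τ.re - F.σ.re * F.τ.im ≠ 0 := by
    rw [← im_aux1]; exact hne
  unfold pt cs cr
  rw [hd']
  simp only [im_aux1]
  apply Complex.ext
  · simp only [Complex.add_re, Complex.mul_re, Complex.ofReal_re, Complex.ofReal_im, Complex.sub_re,
      Complex.sub_im, zero_mul, sub_zero]
    field_simp
    ring
  · simp only [Complex.add_im, Complex.mul_im, Complex.ofReal_re, Complex.ofReal_im, Complex.sub_re,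
      Complex.sub_im, zero_mul, add_zero]
    field_simp
    ring
theorem cs_pt {F : Frame} (hF : F.good) (s r : ℝ) : F.cs (F.pt s r) = s := by
  have hd := hF.det
  have hd' : (F.τ * (starRingEnd ℂ) F.σ).im = -(F.σ * (starRingEnd ℂ) F.τ).im := im_aux2 _ _
  have hne : F.τ.im * F.σ.re - F.τ.re * F.σ.im ≠ 0 := by
    rw [← im_aux1, hd']
    exact neg_ne_zero.2 hd.ne'
  unfold pt cs
  rw [im_aux1, im_aux1]
  simp only [Complex.add_re, Complex.mul_re, Complex.ofReal_re, Complex.ofReal_im,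
    Complex.sub_re, Complex.sub_im, Complex.add_im, Complex.mul_im, zero_mul, sub_zero, add_zero]
  rw [div_eq_iff hne]
  ring
theorem cr_pt {F : Frame} (hF : F.good) (s r : ℝ) : F.cr (F.pt s r) = r := by
  have hd := hF.det
  have hne : F.σ.im * F.τ.re - F.σ.re * F.τ.im ≠ 0 := by
    rw [← im_aux1]
    exact hd.ne'
  unfold pt cr
  rw [im_aux1, im_aux1]
  simp only [Complex.add_re, Complex.mul_re, Complex.ofReal_re, Complex.ofReal_im,
    Complex.sub_re, Complex.sub_im, Complex.add_im, Complex.mul_im, zero_mul, sub_zero, add_zero]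
  rw [div_eq_iff hne]
  ring
/-- uniqueness of lattice coordinates -/
theorem coords_of_eq {F : Frame} (hF : F.good) {x : ℂ} {s r : ℝ} (h : x = F.pt s r) :
    F.cs x = s ∧ F.cr x = r := by
  subst h
  exact ⟨cs_pt hF s r, cr_pt hF s r⟩
theorem good_next {F : Frame} (hF : F.good) (L : ℝ) : (F.next L).good := by
  have key : ∀ s r : ℝ, (s : ℂ) * (F.next L).τ + r * (F.next L).σ =
      ((-(s + r) : ℝ) : ℂ) * F.τ + s * F.σ := by
    intro s r
    simp only [next]
    push_cast
    ring
  refine ⟨?_, ?_, ?_, ?_⟩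
  · have hd := hF.det
    rw [im_aux1] at hd ⊢
    simp only [next, Complex.sub_re, Complex.sub_im, Complex.neg_re, Complex.neg_im]
    nlinarith
  · intro s r
    rw [key]
    exact hF.br (-(s + r)) s
  · intro s r
    rw [key]
    have := hF.bsr (-(s + r)) s
    have e : -(s + r) + s = -r := by ring
    rw [e, abs_neg] at this
    exact this
  · intro s r
    rw [key]
    have := hF.bs (-(s + r)) s
    rw [abs_neg] at this
    exact this
theorem next_pt (F : Frame) (L s r : ℝ) : (F.next L).pt r (L - s - r) = F.pt s r := by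
  simp only [next, pt]
  push_cast
  ring
theorem cs_next {F : Frame} (hF : F.good) (L : ℝ) (x : ℂ) : (F.next L).cs x = F.cr x := by
  have h1 := next_pt F L (F.cs x) (F.cr x)
  rw [pt_cs_cr hF] at h1
  exact (coords_of_eq (good_next hF L) h1.symm).1
theorem cr_next {F : Frame} (hF : F.good) (L : ℝ) (x : ℂ) : (F.next L).cr x = L - F.cs x - F.cr x := by
  have h1 := next_pt F L (F.cs x) (F.cr x)
  rw [pt_cs_cr hF] at h1
  exact (coords_of_eq (good_next hF L) h1.symm).2
theorem good_shift {F : Frame} (hF : F.good) (v : ℂ) : (F.shift v).good :=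
  ⟨hF.det, hF.bs, hF.br, hF.bsr⟩
theorem cs_shift (F : Frame) (v x : ℂ) : (F.shift v).cs x = F.cs (x - v) := by
  simp only [cs, shift]
  congr 3
  ring
theorem cr_shift (F : Frame) (v x : ℂ) : (F.shift v).cr x = F.cr (x - v) := by
  simp only [cr, shift]
  congr 3
  ring
theorem add_eq_pt {F : Frame} (hF : F.good) (x : ℂ) (s r : ℝ) :
    x + ((s : ℂ) * F.τ + r * F.σ) = F.pt (F.cs x + s) (F.cr x + r) := by
  have h := pt_cs_cr hF x
  have h2 : F.pt (F.cs x + s) (F.cr x + r) = F.pt (F.cs x) (F.cr x) + ((s : ℂ) * F.τ + r * F.σ) := by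
    simp only [pt]
    push_cast
    ring
  rw [h2, h]
theorem cs_add {F : Frame} (hF : F.good) (x : ℂ) (s r : ℝ) : F.cs (x + ((s : ℂ) * F.τ + r * F.σ)) = F.cs x + s :=
  (coords_of_eq hF (add_eq_pt hF x s r)).1
theorem cr_add {F : Frame} (hF : F.good) (x : ℂ) (s r : ℝ) : F.cr (x + ((s : ℂ) * F.τ + r * F.σ)) = F.cr x + r :=
  (coords_of_eq hF (add_eq_pt hF x s r)).2
theorem next_next_next (F : Frame) (L : ℝ) : ((F.next L).next L).next L = F := by
  ext1
  · simp only [next]
    ring
  · simp only [next]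
    ring
  · simp only [next]
    ring
theorem sub_eq_coords {F : Frame} (hF : F.good) (x y : ℂ) :
    x - y = ((F.cs x - F.cs y : ℝ) : ℂ) * F.τ + ((F.cr x - F.cr y : ℝ) : ℂ) * F.σ := by
  have hx := pt_cs_cr hF x
  have hy := pt_cs_cr hF y
  calc x - y = F.pt (F.cs x) (F.cr x) - F.pt (F.cs y) (F.cr y) := by rw [hx, hy]
    _ = _ := by
      simp only [pt]
      push_cast
      ring
theorem abs_cs_sub_le {F : Frame} (hF : F.good) (x y : ℂ) : |F.cs x - F.cs y| ≤ 2 * ‖x - y‖ := by
  have h := hF.bs (F.cs x - F.cs y) (F.cr x - F.cr y)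
  rw [← sub_eq_coords hF] at h
  exact h
theorem abs_cr_sub_le {F : Frame} (hF : F.good) (x y : ℂ) : |F.cr x - F.cr y| ≤ 2 * ‖x - y‖ := by
  have h := hF.br (F.cs x - F.cs y) (F.cr x - F.cr y)
  rw [← sub_eq_coords hF] at h
  exact h
theorem abs_csr_sub_le {F : Frame} (hF : F.good) (x y : ℂ) :
    |(F.cs x + F.cr x) - (F.cs y + F.cr y)| ≤ 2 * ‖x - y‖ := by
  have h := hF.bsr (F.cs x - F.cs y) (F.cr x - F.cr y)
  rw [← sub_eq_coords hF] at h
  have e : (F.cs x + F.cr x) - (F.cs y + F.cr y) = F.cs x - F.cs y + (F.cr x - F.cr y) := by ring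
  rw [e]
  exact h
theorem continuous_cs (F : Frame) : Continuous F.cs := by
  unfold cs
  fun_prop
theorem continuous_cr (F : Frame) : Continuous F.cr := by
  unfold cr
  fun_prop
/-- the key relation between the hinges: `D + U = 2 N + σ / L` -/
theorem key_rel (F : Frame) (m j : ℕ) (hj : j < 2 * m) :
    2 * F.N j - F.D ((j + 1) / 2) - F.U m (j / 2) = -((1 / Lm m : ℝ) : ℂ) * F.σ := by
  rcases Nat.even_or_odd' j with ⟨i, rfl | rfl⟩
  · have h1 : (2 * i + 1) / 2 = i := by omega
    have h2 : 2 * i / 2 = i := by omega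
    rw [h1, h2]
    simp only [N, D, U, pt, Lm]
    push_cast
    ring
  · have h1 : (2 * i + 1 + 1) / 2 = i + 1 := by omega
    have h2 : (2 * i + 1) / 2 = i := by omega
    rw [h1, h2]
    simp only [N, D, U, pt, Lm]
    push_cast
    ring
end Frame


end Porous
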