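import Pool.Agent.Porous.K1
import Pool.Agent.Porous.K2

open MeasureTheory Complex Set
open scoped ContDiff ENNReal
noncomputable section
namespace Porous
namespace JKA1

/-! TARGET -/

theorem KA1_gf2 {a : ℝ} (ha : 0 < a) {C P Q x : ℂ} (h1 : 2 * a ≤ ‖x - C‖) (h2 : ‖x - P‖ ≤ a)
    (h3 : 2 * a ≤ ‖x - Q‖) : gf a C C P Q x = P - C := by
  unfold gf
  rw [kk_eq_one ha h1, kk_eq_zero ha h2, kk_eq_one ha h3]
  push_cast
  ring

theorem KA1_gf3 {a : ℝ} (ha : 0 < a) {C P Q x : ℂ} (h1 : 2 * a ≤ ‖x - C‖) (h2 : 2 * a ≤ ‖x - P‖)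
    (h3 : ‖x - Q‖ ≤ a) : gf a C C P Q x = Q - C := by
  unfold gf
  rw [kk_eq_one ha h1, kk_eq_one ha h2, kk_eq_zero ha h3]
  push_cast
  ring

theorem KA1_cs {F : Frame} (hF : F.good) (x : ℂ) (s r : ℝ) : |F.cs x - s| ≤ 2 * ‖x - F.pt s r‖ := by
  have := Frame.abs_cs_sub_le hF x (F.pt s r)
  rwa [Frame.cs_pt hF] at this

theorem KA1_cr {F : Frame} (hF : F.good) (x : ℂ) (s r : ℝ) : |F.cr x - r| ≤ 2 * ‖x - F.pt s r‖ := by
  have := Frame.abs_cr_sub_le hF x (F.pt s r)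
  rwa [Frame.cr_pt hF] at this

theorem KA1_csr {F : Frame} (hF : F.good) (x : ℂ) (s r : ℝ) :
    |(F.cs x + F.cr x) - (s + r)| ≤ 2 * ‖x - F.pt s r‖ := by
  have := Frame.abs_csr_sub_le hF x (F.pt s r)
  rwa [Frame.cr_pt hF, Frame.cs_pt hF] at this

theorem KA1_low_zero (F : Frame) (m : ℕ) (a w : ℝ) (x : ℂ)
    (h1 : ∀ i ∈ Finset.Ico 1 m, ¬ (0 < F.cr x ∧ 2 * (i : ℝ) + 1 ≤ F.cs x ∧
      F.cs x + F.cr x ≤ 2 * (i : ℝ) + 2))
    (h2 : ¬ (0 < F.cs x ∧ 0 < F.cr x ∧ F.cs x + F.cr x ≤ 2))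
    (h3 : ∀ j ∈ Finset.range (2 * m), ¬ (0 < F.cr x ∧ 0 < lam j (F.cs x) (F.cr x) ∧
      ‖x - F.N j‖ < 3 * a / 2)) : low F m a w x = 0 := by
  unfold low
  rw [Finset.sum_eq_zero (fun i hi => if_neg (h1 i hi)), if_neg h2,
    Finset.sum_eq_zero (fun i hi => if_neg (h3 i hi))]
  ring

theorem KA1_low_sector (F : Frame) (m : ℕ) (a w : ℝ) (x : ℂ) (j : ℕ) (hj : j < 2 * m)
    (h1 : ∀ i ∈ Finset.Ico 1 m, ¬ (0 < F.cr x ∧ 2 * (i : ℝ) + 1 ≤ F.cs x ∧
      F.cs x + F.cr x ≤ 2 * (i : ℝ) + 2))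
    (h2 : ¬ (0 < F.cs x ∧ 0 < F.cr x ∧ F.cs x + F.cr x ≤ 2))
    (h3 : ∀ j' ∈ Finset.range (2 * m), j' ≠ j → ¬ (0 < F.cr x ∧ 0 < lam j' (F.cs x) (F.cr x) ∧
      ‖x - F.N j'‖ < 3 * a / 2))
    (h4 : 0 < F.cr x ∧ 0 < lam j (F.cs x) (F.cr x) ∧ ‖x - F.N j‖ < 3 * a / 2) :
    low F m a w x = -(I * w) * (F.N j - F.D ((j + 1) / 2)) := by
  unfold low
  rw [Finset.sum_eq_zero (fun i hi => if_neg (h1 i hi)), if_neg h2,
    Finset.sum_eq_single_of_mem j (Finset.mem_range.mpr hj)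
      (fun i hi hne => if_neg (h3 i hi hne)), if_pos h4]
  ring

theorem KA1_low_body (F : Frame) (m : ℕ) (a w : ℝ) (x : ℂ) (k : ℕ) (hk : k ∈ Finset.Ico 1 m)
    (h1 : ∀ i ∈ Finset.Ico 1 m, i ≠ k → ¬ (0 < F.cr x ∧ 2 * (i : ℝ) + 1 ≤ F.cs x ∧
      F.cs x + F.cr x ≤ 2 * (i : ℝ) + 2))
    (h1' : 0 < F.cr x ∧ 2 * (k : ℝ) + 1 ≤ F.cs x ∧ F.cs x + F.cr x ≤ 2 * (k : ℝ) + 2)
    (h2 : ¬ (0 < F.cs x ∧ 0 < F.cr x ∧ F.cs x + F.cr x ≤ 2))
    (h3 : ∀ j ∈ Finset.range (2 * m), ¬ (0 < F.cr x ∧ 0 < lam j (F.cs x) (F.cr x) ∧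
      ‖x - F.N j‖ < 3 * a / 2)) :
    low F m a w x = -(I * w) * gf a (F.D k) (F.D k) (F.N (2 * k - 1)) (F.N (2 * k)) x := by
  unfold low
  rw [Finset.sum_eq_single_of_mem k hk (fun i hi hne => if_neg (h1 i hi hne)), if_pos h1',
    if_neg h2, Finset.sum_eq_zero (fun i hi => if_neg (h3 i hi))]
  ring

theorem KA1_low_tip (F : Frame) (m : ℕ) (a w : ℝ) (x : ℂ)
    (h1 : ∀ i ∈ Finset.Ico 1 m, ¬ (0 < F.cr x ∧ 2 * (i : ℝ) + 1 ≤ F.cs x ∧
      F.cs x + F.cr x ≤ 2 * (i : ℝ) + 2))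
    (h2 : 0 < F.cs x ∧ 0 < F.cr x ∧ F.cs x + F.cr x ≤ 2)
    (h3 : ∀ j ∈ Finset.range (2 * m), ¬ (0 < F.cr x ∧ 0 < lam j (F.cs x) (F.cr x) ∧
      ‖x - F.N j‖ < 3 * a / 2)) :
    low F m a w x = -(I * w) * gf a (F.D 0) (F.D 0) (F.N 0) (F.pt 0 2) x := by
  unfold low
  rw [Finset.sum_eq_zero (fun i hi => if_neg (h1 i hi)), if_pos h2,
    Finset.sum_eq_zero (fun i hi => if_neg (h3 i hi))]
  ring

theorem KA1_F {F : Frame} (hF : F.good) (m : ℕ) (a w : ℝ) (ha : 0 < a) (ha' : a ≤ 1 / 100)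
    (j : ℕ) (hj : j < 2 * m) (x : ℂ) (hx : ‖x - F.N j‖ < a) (hr : 0 < F.cr x) :
    low F m a w x = if (j = 2 * m - 1 ∧ lam j (F.cs x) (F.cr x) ≤ 0) then 0 else
      -(I * w) * (F.N j - F.D ((j + 1) / 2)) := by
  have hs := abs_le.mp (KA1_cs hF x ((j : ℝ) + 2) 0)
  have hr' := abs_le.mp (KA1_cr hF x ((j : ℝ) + 2) 0)
  have hsr := abs_le.mp (KA1_csr hF x ((j : ℝ) + 2) 0)
  have hxx : ‖x - F.pt ((j : ℝ) + 2) 0‖ < a := hx
  have other : ∀ j' : ℕ, j' ≠ j → 2 * a ≤ ‖x - F.N j'‖ := by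
    intro j' hne
    have h := abs_le.mp (KA1_cs hF x ((j' : ℝ) + 2) 0)
    have e : F.N j' = F.pt ((j' : ℝ) + 2) 0 := rfl
    rw [e]
    rcases Nat.lt_or_gt_of_ne hne with h' | h'
    · have : (j' : ℝ) + 1 ≤ j := by exact_mod_cast h'
      linarith
    · have : (j : ℝ) + 1 ≤ j' := by exact_mod_cast h'
      linarith
  have farD : ∀ i : ℕ, 2 * a ≤ ‖x - F.D i‖ := by
    intro i
    have h := abs_le.mp (KA1_cr hF x (2 * (i : ℝ) + 1) 1)
    have e : F.D i = F.pt (2 * (i : ℝ) + 1) 1 := rfl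
    rw [e]
    linarith
  have far02 : 2 * a ≤ ‖x - F.pt 0 2‖ := by
    have h := abs_le.mp (KA1_cr hF x 0 2)
    linarith
  have h3 : ∀ j' ∈ Finset.range (2 * m), j' ≠ j → ¬ (0 < F.cr x ∧ 0 < lam j' (F.cs x) (F.cr x) ∧
      ‖x - F.N j'‖ < 3 * a / 2) := by
    intro j' _ hne h
    have := other j' hne
    linarith [h.2.2]
  by_cases hl : 0 < lam j (F.cs x) (F.cr x)
  · rw [if_neg (fun h => absurd h.2 (not_le.mpr hl))]
    apply KA1_low_sector F m a w x j hj _ _ h3 ⟨hr, hl, by linarith⟩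
    · rintro i - ⟨_, hi1, hi2⟩
      rcases Nat.even_or_odd' j with ⟨k, hk | hk⟩
      · have hev : Even j := ⟨k, by omega⟩
        rw [lam, if_pos hev] at hl
        have hjr : (j : ℝ) = 2 * k := by rw [hk]; push_cast; ring
        rcases Nat.lt_or_ge i k with h' | h'
        · have : (i : ℝ) + 1 ≤ k := by exact_mod_cast h'
          linarith
        · rcases Nat.eq_or_lt_of_le h' with h'' | h''
          · have : (k : ℝ) = i := by exact_mod_cast h''
            linarith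
          · have : (k : ℝ) + 1 ≤ i := by exact_mod_cast h''
            linarith
      · have hev : ¬ Even j := by
          rw [Nat.not_even_iff_odd]; exact ⟨k, by omega⟩
        rw [lam, if_neg hev] at hl
        have hjr : (j : ℝ) = 2 * k + 1 := by rw [hk]; push_cast; ring
        rcases Nat.lt_or_ge i (k + 1) with h' | h'
        · have : (i : ℝ) + 1 ≤ k + 1 := by exact_mod_cast h'
          linarith
        · have : (k : ℝ) + 1 ≤ i := by exact_mod_cast h'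
          linarith
    · rintro ⟨_, _, hi2⟩
      rcases Nat.eq_zero_or_pos j with h0 | h0
      · have hev : Even j := ⟨0, by omega⟩
        rw [lam, if_pos hev, h0] at hl
        push_cast at hl
        linarith
      · have : (1 : ℝ) ≤ j := by exact_mod_cast h0
        linarith
  · have h3' : ∀ j' ∈ Finset.range (2 * m), ¬ (0 < F.cr x ∧ 0 < lam j' (F.cs x) (F.cr x) ∧
        ‖x - F.N j'‖ < 3 * a / 2) := by
      intro j' hj' h
      by_cases hne : j' = j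
      · rw [hne] at h
        exact hl h.2.1
      · exact h3 j' hj' hne h
    rcases Nat.even_or_odd' j with ⟨k, hk | hk⟩
    · have hev : Even j := ⟨k, by omega⟩
      rw [if_neg (by omega)]
      rw [lam, if_pos hev] at hl
      have hjr : (j : ℝ) = 2 * k := by rw [hk]; push_cast; ring
      have huniq : ∀ i ∈ Finset.Ico 1 m, i ≠ k → ¬ (0 < F.cr x ∧ 2 * (i : ℝ) + 1 ≤ F.cs x ∧
          F.cs x + F.cr x ≤ 2 * (i : ℝ) + 2) := by
        rintro i - hne ⟨_, hi1, hi2⟩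
        rcases Nat.lt_or_gt_of_ne hne with h' | h'
        · have : (i : ℝ) + 1 ≤ k := by exact_mod_cast h'
          linarith
        · have : (k : ℝ) + 1 ≤ i := by exact_mod_cast h'
          linarith
      have hdiv : (j + 1) / 2 = k := by omega
      rw [hdiv]
      rcases Nat.eq_zero_or_pos k with h0 | h0
      · rw [KA1_low_tip F m a w x (fun i hi => huniq i hi (by
          have := (Finset.mem_Ico.mp hi).1; omega)) ⟨by
          have : (0 : ℝ) ≤ j := by positivity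
          linarith, hr, by
          rw [hjr, h0] at hl
          push_cast at hl
          linarith⟩ h3']
        have hj0 : j = 0 := by omega
        rw [h0, hj0]
        rw [KA1_gf2 ha (farD 0) (by rw [hj0] at hx; exact hx.le) far02]
      · rw [KA1_low_body F m a w x k (Finset.mem_Ico.mpr ⟨h0, by omega⟩) huniq
          ⟨hr, by linarith, by linarith⟩ (by
          rintro ⟨_, _, hi2⟩
          have : (1 : ℝ) ≤ k := by exact_mod_cast h0
          linarith) h3']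
        rw [KA1_gf3 ha (farD k) (other _ (by omega)) (by rw [← hk]; exact hx.le), ← hk]
    · have hev : ¬ Even j := by
        rw [Nat.not_even_iff_odd]; exact ⟨k, by omega⟩
      have hl' : lam j (F.cs x) (F.cr x) ≤ 0 := not_lt.mp hl
      rw [lam, if_neg hev] at hl
      have hjr : (j : ℝ) = 2 * k + 1 := by rw [hk]; push_cast; ring
      have huniq : ∀ i ∈ Finset.Ico 1 m, i ≠ k + 1 → ¬ (0 < F.cr x ∧ 2 * (i : ℝ) + 1 ≤ F.cs x ∧
          F.cs x + F.cr x ≤ 2 * (i : ℝ) + 2) := by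
        rintro i - hne ⟨_, hi1, hi2⟩
        rcases Nat.lt_or_gt_of_ne hne with h' | h'
        · have : (i : ℝ) + 1 ≤ k + 1 := by exact_mod_cast h'
          linarith
        · have : (k : ℝ) + 1 + 1 ≤ i := by exact_mod_cast h'
          linarith
      have hdiv : (j + 1) / 2 = k + 1 := by omega
      rw [hdiv]
      have htip : ¬ (0 < F.cs x ∧ 0 < F.cr x ∧ F.cs x + F.cr x ≤ 2) := by
        rintro ⟨_, _, hi2⟩
        have : (0 : ℝ) ≤ k := by positivity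
        linarith
      by_cases hlast : j = 2 * m - 1
      · rw [if_pos ⟨hlast, hl'⟩]
        exact KA1_low_zero F m a w x (fun i hi => huniq i hi (by
          have := (Finset.mem_Ico.mp hi).2; omega)) htip h3'
      · rw [if_neg (fun h => hlast h.1)]
        rw [KA1_low_body F m a w x (k + 1) (Finset.mem_Ico.mpr ⟨by omega, by omega⟩) huniq
          ⟨hr, by push_cast; linarith, by push_cast; linarith⟩ htip h3']
        have e1 : 2 * (k + 1) - 1 = j := by omega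
        rw [e1, KA1_gf2 ha (farD _) hx.le (other _ (by omega))]

theorem KA1_next_pt (F : Frame) (L s r : ℝ) : (F.next L).pt s r = F.pt (L - s - r) s := by
  unfold Frame.pt Frame.next
  push_cast
  ring

theorem KA1_F2 {F : Frame} (hF : F.good) (m : ℕ) (a w : ℝ) (ha : 0 < a) (ha' : a ≤ 1 / 100)
    (j : ℕ) (hj : j < 2 * m) (x : ℂ) (hx : ‖x - F.N j‖ < a) (hr : 0 < F.cr x) :
    low (F.next (Lm m)) m a w x = if (j = 2 * m - 1 ∧ lam j (F.cs x) (F.cr x) ≤ 0) then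
      -(I * w) * (F.N j - F.D ((j + 1) / 2)) else 0 := by
  have hs := abs_le.mp (KA1_cs hF x ((j : ℝ) + 2) 0)
  have hr' := abs_le.mp (KA1_cr hF x ((j : ℝ) + 2) 0)
  have hsr := abs_le.mp (KA1_csr hF x ((j : ℝ) + 2) 0)
  have hxx : ‖x - F.pt ((j : ℝ) + 2) 0‖ < a := hx
  have hG := Frame.good_next hF (Lm m)
  have ecs := Frame.cs_next hF (Lm m) x
  have ecr := Frame.cr_next hF (Lm m) x
  have hL : Lm m = 2 * (m : ℝ) + 3 := rfl
  have hjm : (j : ℝ) + 1 ≤ 2 * m := by exact_mod_cast hj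
  have h1 : ∀ i ∈ Finset.Ico 1 m, ¬ (0 < (F.next (Lm m)).cr x ∧
      2 * (i : ℝ) + 1 ≤ (F.next (Lm m)).cs x ∧
      (F.next (Lm m)).cs x + (F.next (Lm m)).cr x ≤ 2 * (i : ℝ) + 2) := by
    rintro i hi ⟨_, h, _⟩
    rw [ecs] at h
    have : (0 : ℝ) ≤ i := by positivity
    linarith
  have h3 : ∀ j' ∈ Finset.range (2 * m), ¬ (0 < (F.next (Lm m)).cr x ∧
      0 < lam j' ((F.next (Lm m)).cs x) ((F.next (Lm m)).cr x) ∧
      ‖x - (F.next (Lm m)).N j'‖ < 3 * a / 2) := by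
    rintro j' _ ⟨_, _, h⟩
    have h' := abs_le.mp (KA1_cs hG x ((j' : ℝ) + 2) 0)
    have h'' : ‖x - (F.next (Lm m)).pt ((j' : ℝ) + 2) 0‖ < 3 * a / 2 := h
    rw [ecs] at h'
    have : (0 : ℝ) ≤ j' := by positivity
    linarith
  by_cases hc : j = 2 * m - 1 ∧ lam j (F.cs x) (F.cr x) ≤ 0
  · rw [if_pos hc]
    have hev : ¬ Even j := by
      rw [Nat.not_even_iff_odd]; exact ⟨m - 1, by omega⟩
    have hl := hc.2
    rw [lam, if_neg hev] at hl
    have hjr : (j : ℝ) + 1 = 2 * m := by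
      have : j + 1 = 2 * m := by omega
      exact_mod_cast this
    rw [KA1_low_tip _ m a w x h1 ⟨by rw [ecs]; exact hr, by rw [ecr]; linarith,
      by rw [ecs, ecr]; linarith⟩ h3]
    have eD : (F.next (Lm m)).D 0 = F.D m := by
      unfold Frame.D
      rw [KA1_next_pt, hL]
      push_cast
      congr 1 <;> ring
    have eN : (F.next (Lm m)).pt 0 2 = F.N j := by
      unfold Frame.N
      rw [KA1_next_pt, hL]
      congr 1
      linarith
    have eN0 : (F.next (Lm m)).N 0 = F.pt (2 * (m : ℝ) + 1) 2 := by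
      unfold Frame.N
      rw [KA1_next_pt, hL]
      push_cast
      congr 1 <;> ring
    have hdiv : (j + 1) / 2 = m := by omega
    rw [eD, eN, eN0, hdiv, KA1_gf3 ha _ _ hx.le]
    · have h := abs_le.mp (KA1_cr hF x (2 * (m : ℝ) + 1) 1)
      have e : F.D m = F.pt (2 * (m : ℝ) + 1) 1 := rfl
      rw [e]
      linarith
    · have h := abs_le.mp (KA1_cr hF x (2 * (m : ℝ) + 1) 2)
      linarith
  · rw [if_neg hc]
    apply KA1_low_zero _ m a w x h1 _ h3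
    rintro ⟨_, _, h⟩
    rw [ecs, ecr] at h
    have hjr : (j : ℝ) + 1 = 2 * m := by
      by_contra hne
      have h5 : j + 1 ≠ 2 * m := fun h => hne (by exact_mod_cast h)
      have h6 : j + 2 ≤ 2 * m := by omega
      have h7 : (j : ℝ) + 2 ≤ 2 * m := by exact_mod_cast h6
      linarith
    have hj2 : j + 1 = 2 * m := by exact_mod_cast hjr
    apply hc
    refine ⟨by omega, ?_⟩
    have hev : ¬ Even j := by
      rw [Nat.not_even_iff_odd]; exact ⟨m - 1, by omega⟩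
    rw [lam, if_neg hev]
    linarith

theorem KA1_F3 {F : Frame} (hF : F.good) (m : ℕ) (hm : 2 ≤ m) (a w : ℝ) (ha : 0 < a)
    (ha' : a ≤ 1 / 100)
    (j : ℕ) (x : ℂ) (hx : ‖x - F.N j‖ < a) :
    low ((F.next (Lm m)).next (Lm m)) m a w x = 0 := by
  have hs := abs_le.mp (KA1_cs hF x ((j : ℝ) + 2) 0)
  have hr' := abs_le.mp (KA1_cr hF x ((j : ℝ) + 2) 0)
  have hxx : ‖x - F.pt ((j : ℝ) + 2) 0‖ < a := hx
  have hG := Frame.good_next hF (Lm m)
  have hH := Frame.good_next hG (Lm m)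
  have ecs := Frame.cs_next hG (Lm m) x
  have ecr := Frame.cr_next hG (Lm m) x
  rw [Frame.cr_next hF] at ecs
  rw [Frame.cr_next hF, Frame.cs_next hF] at ecr
  have hL : Lm m = 2 * (m : ℝ) + 3 := rfl
  have hj0 : (0 : ℝ) ≤ j := by positivity
  have hm0 : (2 : ℝ) ≤ m := by exact_mod_cast hm
  apply KA1_low_zero
  · rintro i hi ⟨_, _, h⟩
    rw [ecs, ecr] at h
    have : (i : ℝ) + 1 ≤ m := by exact_mod_cast (Finset.mem_Ico.mp hi).2
    linarith
  · rintro ⟨_, _, h⟩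
    rw [ecs, ecr] at h
    linarith
  · rintro j' _ ⟨_, _, h⟩
    have h' := abs_le.mp (KA1_cr hH x ((j' : ℝ) + 2) 0)
    have h'' : ‖x - ((F.next (Lm m)).next (Lm m)).pt ((j' : ℝ) + 2) 0‖ < 3 * a / 2 := h
    rw [ecr] at h'
    linarith

/-- in the black part of a small ball about a node the displacement is constant -/
theorem blackV_node {F : Frame} (hF : F.good) (m : ℕ) (hm : 2 ≤ m) (a w : ℝ) (ha : 0 < a) (ha' : a ≤ 1 / 100)
    (j : ℕ) (hj : j < 2 * m) (x : ℂ) (hx : ‖x - F.N j‖ < a) (hr : 0 < F.cr x) :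
    blackV F m a w x = -(I * w) * (F.N j - F.D ((j + 1) / 2)) := by
  unfold blackV
  rw [KA1_F hF m a w ha ha' j hj x hx hr, KA1_F2 hF m a w ha ha' j hj x hx hr,
    KA1_F3 hF m hm a w ha ha' j x hx]
  split_ifs <;> ring


end JKA1
export JKA1 (blackV_node)

end Porous
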