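import Pool.Agent.Porous.K1
import Pool.Agent.Porous.K2

open MeasureTheory Complex Set
open scoped ContDiff ENNReal
noncomputable section
namespace Porous
namespace JKA2

/-! TARGET -/

theorem up_zero (G : Frame) (m : ℕ) (a w : ℝ) (x : ℂ)
    (h1 : ∀ i < m, ¬ (G.cr x ≤ 0 ∧ G.cs x ≤ 2 * (i : ℝ) + 3 ∧
      2 * (i : ℝ) + 2 ≤ G.cs x + G.cr x))
    (h2 : ∀ j < 2 * m, ¬ (‖x - G.N j‖ < 3 * a / 2)) : up G m a w x = 0 := by
  unfold up
  rw [Finset.sum_eq_zero, Finset.sum_eq_zero]
  · simp
  · intro j hj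
    rw [if_neg]
    intro h
    exact h2 j (Finset.mem_range.1 hj) h.2.2
  · intro i hi
    exact if_neg (h1 i (Finset.mem_range.1 hi))

theorem up_node {F : Frame} (hF : F.good) (m : ℕ) (hm : 2 ≤ m) (a w : ℝ) (ha : 0 < a)
    (ha' : a ≤ 1 / 100) (j : ℕ) (hj : j < 2 * m) (x : ℂ) (hx : ‖x - F.N j‖ < a)
    (hr : F.cr x ≤ 0) : up F m a w x = (I * w) * (F.N j - F.U m (j / 2)) := by
  have hNs : ∀ k : ℕ, F.cs (F.N k) = (k : ℝ) + 2 := fun k => Frame.cs_pt hF _ _
  have hNr : ∀ k : ℕ, F.cr (F.N k) = 0 := fun k => Frame.cr_pt hF _ _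
  have hUr : ∀ k : ℕ, F.cr (F.U m k) = -1 + 1 / (2 * (m : ℝ) + 3) := fun k =>
    Frame.cr_pt hF _ _
  have h1 := Frame.abs_cs_sub_le hF x (F.N j)
  have h2 := Frame.abs_cr_sub_le hF x (F.N j)
  have h3 := Frame.abs_csr_sub_le hF x (F.N j)
  rw [hNs, hNr] at h3
  rw [hNs] at h1
  rw [hNr] at h2
  rw [abs_le] at h1 h2 h3
  have hfar : ∀ k : ℕ, k ≠ j → 49 / 100 ≤ ‖x - F.N k‖ := by
    intro k hk
    have h4 := Frame.abs_cs_sub_le hF x (F.N k)
    rw [hNs, abs_le] at h4
    rcases lt_or_gt_of_ne hk with h | h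
    · have : (k : ℝ) + 1 ≤ j := by exact_mod_cast h
      linarith [h4.2, h1.1]
    · have : (j : ℝ) + 1 ≤ k := by exact_mod_cast h
      linarith [h4.1, h1.2]
  have hmr : (2 : ℝ) ≤ m := by exact_mod_cast hm
  have hinv : 1 / (2 * (m : ℝ) + 3) ≤ 1 / 7 := by
    apply one_div_le_one_div_of_le (by norm_num); linarith
  have hU : ∀ k : ℕ, 2 * a ≤ ‖x - F.U m k‖ := by
    intro k
    have h4 := Frame.abs_cr_sub_le hF x (F.U m k)
    rw [hUr, abs_le] at h4
    linarith [h4.2, h2.1]
  have hbody : ∀ i : ℕ, i ≠ j / 2 → ¬ (F.cr x ≤ 0 ∧ F.cs x ≤ 2 * (i : ℝ) + 3 ∧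
      2 * (i : ℝ) + 2 ≤ F.cs x + F.cr x) := by
    rintro i hi ⟨-, hb1, hb2⟩
    rcases lt_or_gt_of_ne hi with h | h
    · have h5 : 2 * i + 2 ≤ j := by omega
      have h6 : 2 * (i : ℝ) + 2 ≤ j := by exact_mod_cast h5
      linarith [h1.1]
    · have h5 : j + 1 ≤ 2 * i := by omega
      have h6 : (j : ℝ) + 1 ≤ 2 * i := by exact_mod_cast h5
      linarith [h3.2]
  have hj2 : j / 2 < m := by omega
  unfold up
  by_cases hl : lam j (F.cs x) (F.cr x) < 0
  · rw [Finset.sum_eq_zero, Finset.sum_eq_single_of_mem j (Finset.mem_range.2 hj),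
      if_pos ⟨hr, hl, by linarith⟩, zero_add]
    · intro k _ hk
      rw [if_neg]
      rintro ⟨-, -, h⟩
      linarith [hfar k hk]
    · intro i hi
      by_cases hij : i = j / 2
      · rw [if_neg]
        rintro ⟨-, hb1, hb2⟩
        unfold lam at hl
        split_ifs at hl with he
        · obtain ⟨k, hk⟩ := he
          have h5 : j = 2 * i := by omega
          have h6 : (j : ℝ) = 2 * i := by exact_mod_cast h5
          linarith
        · have h5 : j = 2 * i + 1 := by
            rw [Nat.not_even_iff_odd] at he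
            obtain ⟨k, hk⟩ := he
            omega
          have h6 : (j : ℝ) = 2 * i + 1 := by exact_mod_cast h5
          linarith
      · exact if_neg (hbody i hij)
  · have hl' : 0 ≤ lam j (F.cs x) (F.cr x) := not_lt.1 hl
    rw [Finset.sum_eq_single_of_mem (j / 2) (Finset.mem_range.2 hj2)]
    · rw [Finset.sum_eq_zero, add_zero]
      · rw [if_pos]
        · unfold gf
          rw [kk_eq_one ha (hU (j / 2))]
          rcases Nat.even_or_odd j with he | ho
          · have h5 : 2 * (j / 2) = j := by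
              obtain ⟨k, hk⟩ := he; omega
            rw [h5, kk_eq_zero ha hx.le, kk_eq_one ha (by linarith [hfar (j + 1) (by omega)])]
            push_cast
            ring
          · have h5 : 2 * (j / 2) + 1 = j := by
              obtain ⟨k, hk⟩ := ho; omega
            rw [h5, kk_eq_zero ha hx.le,
              kk_eq_one ha (by linarith [hfar (2 * (j / 2)) (by omega)])]
            push_cast
            ring
        · refine ⟨hr, ?_, ?_⟩
          · unfold lam at hl'
            split_ifs at hl' with he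
            · obtain ⟨k, hk⟩ := he
              have h5 : j = 2 * (j / 2) := by omega
              have h6 : (j : ℝ) = 2 * ((j / 2 : ℕ) : ℝ) := by exact_mod_cast h5
              linarith [h1.2]
            · rw [Nat.not_even_iff_odd] at he
              obtain ⟨k, hk⟩ := he
              have h5 : j = 2 * (j / 2) + 1 := by omega
              have h6 : (j : ℝ) = 2 * ((j / 2 : ℕ) : ℝ) + 1 := by exact_mod_cast h5
              linarith [h1.2]
          · unfold lam at hl'
            split_ifs at hl' with he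
            · obtain ⟨k, hk⟩ := he
              have h5 : j = 2 * (j / 2) := by omega
              have h6 : (j : ℝ) = 2 * ((j / 2 : ℕ) : ℝ) := by exact_mod_cast h5
              linarith [h3.1]
            · rw [Nat.not_even_iff_odd] at he
              obtain ⟨k, hk⟩ := he
              have h5 : j = 2 * (j / 2) + 1 := by omega
              have h6 : (j : ℝ) = 2 * ((j / 2 : ℕ) : ℝ) + 1 := by exact_mod_cast h5
              linarith [h3.1]
      · intro k _
        rw [if_neg]
        rintro ⟨-, h, h'⟩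
        by_cases hk : k = j
        · rw [hk] at h; exact hl h
        · linarith [hfar k hk]
    · intro i _ hij
      exact if_neg (hbody i hij)

/-- in the white part of a small ball about a node the displacement is the same constant -/
theorem whiteV_node {F : Frame} (hF : F.good) (m : ℕ) (hm : 2 ≤ m) (a w : ℝ) (ha : 0 < a) (ha' : a ≤ 1 / 100)
    (j : ℕ) (hj : j < 2 * m) (x : ℂ) (hx : ‖x - F.N j‖ < a) (hr : F.cr x ≤ 0) :
    whiteV F m a w x = -(I * w) * (F.N j - F.D ((j + 1) / 2)) := by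
  have hNs : F.cs (F.N j) = (j : ℝ) + 2 := Frame.cs_pt hF _ _
  have hNr : F.cr (F.N j) = 0 := Frame.cr_pt hF _ _
  have h1 := Frame.abs_cs_sub_le hF x (F.N j)
  have h2 := Frame.abs_cr_sub_le hF x (F.N j)
  rw [hNs, abs_le] at h1
  rw [hNr, abs_le] at h2
  have hmr : (2 : ℝ) ≤ m := by exact_mod_cast hm
  have hjr : (j : ℝ) + 1 ≤ 2 * m := by exact_mod_cast hj
  have hL : Lm m = 2 * (m : ℝ) + 3 := rfl
  -- the first other frame
  have hG1 : ((F.next (Lm m)).shift (-(Lm m * F.σ))).good :=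
    Frame.good_shift (Frame.good_next hF _) _
  have hx1 : x - -((Lm m : ℂ) * F.σ) = x + (((0 : ℝ) : ℂ) * F.τ + ((Lm m : ℝ) : ℂ) * F.σ) := by
    push_cast; ring
  have hs1 : ((F.next (Lm m)).shift (-(Lm m * F.σ))).cs x = F.cr x + Lm m := by
    rw [Frame.cs_shift, Frame.cs_next hF, hx1, Frame.cr_add hF]
  have hr1 : ((F.next (Lm m)).shift (-(Lm m * F.σ))).cr x = -F.cs x - F.cr x := by
    rw [Frame.cr_shift, Frame.cr_next hF, hx1, Frame.cr_add hF, Frame.cs_add hF]
    ring
  have hz1 : up ((F.next (Lm m)).shift (-(Lm m * F.σ))) m a w x = 0 := by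
    apply up_zero
    · rintro i hi ⟨-, hb, -⟩
      rw [hs1, hL] at hb
      have : (i : ℝ) + 1 ≤ m := by exact_mod_cast hi
      linarith [h2.1]
    · intro k hk hlt
      have h4 := Frame.abs_cs_sub_le hG1 x (((F.next (Lm m)).shift (-(Lm m * F.σ))).N k)
      have h5 : ((F.next (Lm m)).shift (-(Lm m * F.σ))).cs
          (((F.next (Lm m)).shift (-(Lm m * F.σ))).N k) = (k : ℝ) + 2 := Frame.cs_pt hG1 _ _
      rw [h5, hs1, abs_le, hL] at h4
      have : (k : ℝ) + 1 ≤ 2 * m := by exact_mod_cast hk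
      rw [hL] at hlt
      linarith [h2.1, h4.2]
  -- the second other frame
  have hG2 : (((F.next (Lm m)).next (Lm m)).shift (Lm m * (F.τ - F.σ))).good :=
    Frame.good_shift (Frame.good_next (Frame.good_next hF _) _) _
  have hx2 : x - ((Lm m : ℂ) * (F.τ - F.σ)) =
      x + (((-(Lm m) : ℝ) : ℂ) * F.τ + ((Lm m : ℝ) : ℂ) * F.σ) := by
    push_cast; ring
  have hs2 : (((F.next (Lm m)).next (Lm m)).shift (Lm m * (F.τ - F.σ))).cs x =
      Lm m - F.cs x - F.cr x := by
    rw [Frame.cs_shift, Frame.cs_next (Frame.good_next hF _), Frame.cr_next hF, hx2,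
      Frame.cr_add hF, Frame.cs_add hF]
    ring
  have hr2 : (((F.next (Lm m)).next (Lm m)).shift (Lm m * (F.τ - F.σ))).cr x =
      F.cs x - Lm m := by
    rw [Frame.cr_shift, Frame.cr_next (Frame.good_next hF _), Frame.cr_next hF,
      Frame.cs_next hF, hx2, Frame.cr_add hF, Frame.cs_add hF]
    ring
  have hz2 : up (((F.next (Lm m)).next (Lm m)).shift (Lm m * (F.τ - F.σ))) m a w x = 0 := by
    apply up_zero
    · rintro i hi ⟨-, -, hb⟩
      rw [hs2, hr2] at hb
      have : (0 : ℝ) ≤ i := Nat.cast_nonneg i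
      linarith [h2.1]
    · intro k hk hlt
      have h4 := Frame.abs_cr_sub_le hG2 x
        ((((F.next (Lm m)).next (Lm m)).shift (Lm m * (F.τ - F.σ))).N k)
      have h5 : (((F.next (Lm m)).next (Lm m)).shift (Lm m * (F.τ - F.σ))).cr
          ((((F.next (Lm m)).next (Lm m)).shift (Lm m * (F.τ - F.σ))).N k) = 0 :=
        Frame.cr_pt hG2 _ _
      rw [h5, hr2, abs_le] at h4
      linarith [h1.2, h4.1]
  unfold whiteV
  rw [hz1, hz2, up_node hF m hm a w ha ha' j hj x hx hr]
  have hk := Frame.key_rel F m j hj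
  have h6 : ((1 / Lm m : ℝ) : ℂ) * F.σ = -(2 * F.N j - F.D ((j + 1) / 2) - F.U m (j / 2)) := by
    rw [hk]; ring
  have h7 : I * (w : ℂ) * ((1 / Lm m : ℝ) : ℂ) * F.σ =
      I * (w : ℂ) * (((1 / Lm m : ℝ) : ℂ) * F.σ) := by ring
  rw [h7, h6]
  ring


end JKA2
export JKA2 (whiteV_node)

end Porous
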