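import Pool.Agent.Porous.K1
import Pool.Agent.Porous.K2

open MeasureTheory Complex Set
open scoped ContDiff ENNReal
noncomputable section
namespace Porous
namespace JKA3

/-! TARGET -/

theorem ka3_low_zero {F : Frame} {m : ℕ} {a w : ℝ} {x : ℂ}
    (hb : ∀ k : ℕ, 1 ≤ k → k < m → 0 < F.cr x → 2 * (k : ℝ) + 1 ≤ F.cs x →
      F.cs x + F.cr x ≤ 2 * (k : ℝ) + 2 →
      gf a (F.D k) (F.D k) (F.N (2 * k - 1)) (F.N (2 * k)) x = 0)
    (ht : 0 < F.cs x → 0 < F.cr x → F.cs x + F.cr x ≤ 2 →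
      gf a (F.D 0) (F.D 0) (F.N 0) (F.pt 0 2) x = 0)
    (hs : ∀ j < 2 * m, ¬ ‖x - F.N j‖ < 3 * a / 2) : low F m a w x = 0 := by
  unfold low
  rw [Finset.sum_eq_zero, Finset.sum_eq_zero]
  · by_cases h : 0 < F.cs x ∧ 0 < F.cr x ∧ F.cs x + F.cr x ≤ 2
    · rw [if_pos h, ht h.1 h.2.1 h.2.2]
      simp
    · rw [if_neg h]
      simp
  · intro j hj
    rw [if_neg]
    intro h
    exact hs j (Finset.mem_range.1 hj) h.2.2
  · intro k hk
    rw [Finset.mem_Ico] at hk
    by_cases h : 0 < F.cr x ∧ 2 * (k : ℝ) + 1 ≤ F.cs x ∧ F.cs x + F.cr x ≤ 2 * (k : ℝ) + 2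
    · rw [if_pos h, hb k hk.1 hk.2 h.1 h.2.1 h.2.2]
    · rw [if_neg h]

theorem ka3_up_zero {F : Frame} {m : ℕ} {a w : ℝ} {x : ℂ}
    (hb : ∀ k : ℕ, k < m → F.cr x ≤ 0 → F.cs x ≤ 2 * (k : ℝ) + 3 →
      2 * (k : ℝ) + 2 ≤ F.cs x + F.cr x →
      gf a (F.U m k) (F.U m k) (F.N (2 * k)) (F.N (2 * k + 1)) x = 0)
    (hs : ∀ j < 2 * m, ¬ ‖x - F.N j‖ < 3 * a / 2) : up F m a w x = 0 := by
  unfold up
  rw [Finset.sum_eq_zero, Finset.sum_eq_zero]
  · simp
  · intro j hj
    rw [if_neg]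
    intro h
    exact hs j (Finset.mem_range.1 hj) h.2.2
  · intro k hk
    rw [Finset.mem_range] at hk
    by_cases h : F.cr x ≤ 0 ∧ F.cs x ≤ 2 * (k : ℝ) + 3 ∧ 2 * (k : ℝ) + 2 ≤ F.cs x + F.cr x
    · rw [if_pos h, hb k hk h.1 h.2.1 h.2.2]
    · rw [if_neg h]

theorem ka3_cs_N {F : Frame} (hF : F.good) (j : ℕ) : F.cs (F.N j) = (j : ℝ) + 2 :=
  Frame.cs_pt hF _ _

theorem ka3_cr_N {F : Frame} (hF : F.good) (j : ℕ) : F.cr (F.N j) = 0 :=
  Frame.cr_pt hF _ _

/-- distance to the nodes -/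
theorem ka3_cr_le {F : Frame} (hF : F.good) (j : ℕ) (x : ℂ) : |F.cr x| ≤ 2 * ‖x - F.N j‖ := by
  have := Frame.abs_cr_sub_le hF x (F.N j)
  rwa [ka3_cr_N hF, sub_zero] at this

theorem ka3_gf_zero {a : ℝ} (ha : 0 < a) {C P Q x : ℂ} (h1 : ‖x - C‖ ≤ a) (h2 : 2 * a ≤ ‖x - P‖)
    (h3 : 2 * a ≤ ‖x - Q‖) : gf a C C P Q x = 0 := by
  unfold gf
  rw [kk_eq_zero ha h1, kk_eq_one ha h2, kk_eq_one ha h3]
  simp

/-- in a small ball about a black hinge the displacement vanishes -/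
theorem blackV_D {F : Frame} (hF : F.good) (m : ℕ) (hm : 2 ≤ m) (a w : ℝ) (ha : 0 < a) (ha' : a ≤ 1 / 100)
    (i : ℕ) (hi : i < m) (x : ℂ) (hx : ‖x - F.D i‖ < a) :
    blackV F m a w x = 0 := by
  have hcs : F.cs (F.D i) = 2 * (i : ℝ) + 1 := Frame.cs_pt hF _ _
  have hcr : F.cr (F.D i) = 1 := Frame.cr_pt hF _ _
  have b1 := Frame.abs_cs_sub_le hF x (F.D i)
  have b2 := Frame.abs_cr_sub_le hF x (F.D i)
  have b3 := Frame.abs_csr_sub_le hF x (F.D i)
  rw [hcs, abs_le] at b1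
  rw [hcr, abs_le] at b2
  rw [hcs, hcr, abs_le] at b3
  obtain ⟨b11, b12⟩ := b1
  obtain ⟨b21, b22⟩ := b2
  obtain ⟨b31, b32⟩ := b3
  have him : (i : ℝ) + 1 ≤ m := by exact_mod_cast hi
  have hm' : (2 : ℝ) ≤ m := by exact_mod_cast hm
  have hi0 : (0 : ℝ) ≤ i := Nat.cast_nonneg i
  have hF1 := Frame.good_next hF (Lm m)
  have hF2 := Frame.good_next hF1 (Lm m)
  have e1 := Frame.cs_next hF (Lm m) x
  have e2 := Frame.cr_next hF (Lm m) x
  have e3 := Frame.cs_next hF1 (Lm m) x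
  have e4 := Frame.cr_next hF1 (Lm m) x
  rw [e2] at e3
  rw [e1, e2] at e4
  have hL : Lm m = 2 * (m : ℝ) + 3 := rfl
  have nodes : ∀ j, 2 * a ≤ ‖x - F.N j‖ := by
    intro j
    have h1 := ka3_cr_le hF j x
    have h2 := le_abs_self (F.cr x)
    linarith
  have l1 : low F m a w x = 0 := by
    refine ka3_low_zero ?_ ?_ ?_
    · intro k hk1 hkm h1 h2 h3
      have c1 : (k : ℝ) < (i : ℝ) + 1 := by linarith
      have c2 : (i : ℝ) < (k : ℝ) + 1 := by linarith
      have c3 : k < i + 1 := by exact_mod_cast c1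
      have c4 : i < k + 1 := by exact_mod_cast c2
      have : k = i := by omega
      subst this
      exact ka3_gf_zero ha hx.le (nodes _) (nodes _)
    · intro h1 h2 h3
      have c1 : (i : ℝ) < 1 := by linarith
      have c2 : i < 1 := by exact_mod_cast c1
      have : i = 0 := by omega
      subst this
      refine ka3_gf_zero ha hx.le (nodes _) ?_
      have h4 := Frame.abs_cr_sub_le hF x (F.pt 0 2)
      rw [Frame.cr_pt hF] at h4
      have h5 := neg_abs_le (F.cr x - 2)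
      linarith
    · intro j _ hlt
      have := nodes j
      have h1 := ka3_cr_le hF j x
      have h2 := le_abs_self (F.cr x)
      linarith
  have l2 : low (F.next (Lm m)) m a w x = 0 := by
    refine ka3_low_zero ?_ ?_ ?_
    · intro k hk1 hkm h1 h2 h3
      exfalso
      rw [e1] at h2
      have hk' : (1 : ℝ) ≤ k := by exact_mod_cast hk1
      linarith
    · intro h1 h2 h3
      exfalso
      rw [e1, e2] at h3
      linarith
    · intro j _ hlt
      have h1 := ka3_cr_le hF1 j x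
      have h2 := le_abs_self ((F.next (Lm m)).cr x)
      rw [e2] at h2
      rw [e2] at h1
      linarith
  have l3 : low ((F.next (Lm m)).next (Lm m)) m a w x = 0 := by
    refine ka3_low_zero ?_ ?_ ?_
    · intro k hk1 hkm h1 h2 h3
      exfalso
      rw [e3, e4] at h3
      have hk' : (k : ℝ) + 1 ≤ m := by exact_mod_cast hkm
      linarith
    · intro h1 h2 h3
      exfalso
      rw [e3, e4] at h3
      linarith
    · intro j _ hlt
      have h1 := ka3_cr_le hF2 j x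
      have h2 := le_abs_self (((F.next (Lm m)).next (Lm m)).cr x)
      rw [e4] at h2
      rw [e4] at h1
      linarith
  unfold blackV
  rw [l1, l2, l3]
  simp

/-- in a small ball about a white hinge the displacement is that of the white triangle -/
theorem whiteV_U {F : Frame} (hF : F.good) (m : ℕ) (hm : 2 ≤ m) (a w : ℝ) (ha : 0 < a)
    (ha' : a ≤ 1 / (100 * (m : ℝ)))
    (i : ℕ) (hi : i < m) (x : ℂ) (hx : ‖x - F.U m i‖ < a) :
    whiteV F m a w x = I * w * (1 / Lm m : ℝ) * F.σ := by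
  have hcs : F.cs (F.U m i) = 2 * (i : ℝ) + 3 := Frame.cs_pt hF _ _
  have hcr : F.cr (F.U m i) = -1 + 1 / (2 * (m : ℝ) + 3) := Frame.cr_pt hF _ _
  have b1 := Frame.abs_cs_sub_le hF x (F.U m i)
  have b2 := Frame.abs_cr_sub_le hF x (F.U m i)
  have b3 := Frame.abs_csr_sub_le hF x (F.U m i)
  rw [hcs, abs_le] at b1
  rw [hcr, abs_le] at b2
  rw [hcs, hcr, abs_le] at b3
  obtain ⟨b11, b12⟩ := b1
  obtain ⟨b21, b22⟩ := b2
  obtain ⟨b31, b32⟩ := b3
  have him : (i : ℝ) + 1 ≤ m := by exact_mod_cast hi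
  have hm' : (2 : ℝ) ≤ m := by exact_mod_cast hm
  have hi0 : (0 : ℝ) ≤ i := Nat.cast_nonneg i
  have ha2 : a ≤ 1 / 200 := by
    refine ha'.trans ?_
    exact one_div_le_one_div_of_le (by norm_num) (by linarith)
  have hinv0 : 0 < 1 / (2 * (m : ℝ) + 3) := by positivity
  have hinv1 : 1 / (2 * (m : ℝ) + 3) ≤ 1 / 7 :=
    one_div_le_one_div_of_le (by norm_num) (by linarith)
  set δ := 1 / (2 * (m : ℝ) + 3) with hδ
  have hL : Lm m = 2 * (m : ℝ) + 3 := rfl
  have nodes : ∀ j, 2 * a ≤ ‖x - F.N j‖ := by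
    intro j
    have h1 := ka3_cr_le hF j x
    have h2 := neg_abs_le (F.cr x)
    linarith
  have l1 : up F m a w x = 0 := by
    refine ka3_up_zero ?_ ?_
    · intro k hkm h1 h2 h3
      have c1 : (k : ℝ) < (i : ℝ) + 1 := by linarith
      have c2 : (i : ℝ) < (k : ℝ) + 1 := by linarith
      have c3 : k < i + 1 := by exact_mod_cast c1
      have c4 : i < k + 1 := by exact_mod_cast c2
      have : k = i := by omega
      subst this
      exact ka3_gf_zero ha hx.le (nodes _) (nodes _)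
    · intro j _ hlt
      have := nodes j
      have h1 := ka3_cr_le hF j x
      have h2 := neg_abs_le (F.cr x)
      linarith
  have hF1 := Frame.good_next hF (Lm m)
  have hF2 := Frame.good_next hF1 (Lm m)
  -- first shifted frame
  have hG1 := Frame.good_shift hF1 (-(Lm m * F.σ))
  have y1 : x - -(Lm m * F.σ) = x + (((0 : ℝ) : ℂ) * F.τ + (Lm m : ℝ) * F.σ) := by
    push_cast
    ring
  have g1 : ((F.next (Lm m)).shift (-(Lm m * F.σ))).cs x = F.cr x + Lm m := by
    rw [Frame.cs_shift, Frame.cs_next hF, y1, Frame.cr_add hF]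
  have g2 : ((F.next (Lm m)).shift (-(Lm m * F.σ))).cr x = - F.cs x - F.cr x := by
    rw [Frame.cr_shift, Frame.cr_next hF, y1, Frame.cr_add hF, Frame.cs_add hF]
    ring
  have l2 : up ((F.next (Lm m)).shift (-(Lm m * F.σ))) m a w x = 0 := by
    refine ka3_up_zero ?_ ?_
    · intro k hkm h1 h2 h3
      exfalso
      rw [g1] at h2
      have hk' : (k : ℝ) + 1 ≤ m := by exact_mod_cast hkm
      linarith
    · intro j hj hlt
      have h1 := Frame.abs_cs_sub_le hG1 x (((F.next (Lm m)).shift (-(Lm m * F.σ))).N j)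
      rw [ka3_cs_N hG1, g1] at h1
      have h2 := le_abs_self (F.cr x + Lm m - ((j : ℝ) + 2))
      have hj' : (j : ℝ) + 1 ≤ 2 * m := by exact_mod_cast hj
      linarith
  -- second shifted frame
  have hG2 := Frame.good_shift hF2 (Lm m * (F.τ - F.σ))
  have y2 : x - Lm m * (F.τ - F.σ) = x + (((-Lm m : ℝ) : ℂ) * F.τ + (Lm m : ℝ) * F.σ) := by
    push_cast
    ring
  have g3 : (((F.next (Lm m)).next (Lm m)).shift (Lm m * (F.τ - F.σ))).cs x =
      Lm m - F.cs x - F.cr x := by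
    rw [Frame.cs_shift, Frame.cs_next hF1, Frame.cr_next hF, y2, Frame.cr_add hF, Frame.cs_add hF]
    ring
  have g4 : (((F.next (Lm m)).next (Lm m)).shift (Lm m * (F.τ - F.σ))).cr x =
      F.cs x - Lm m := by
    rw [Frame.cr_shift, Frame.cr_next hF1, Frame.cs_next hF, Frame.cr_next hF, y2,
      Frame.cr_add hF, Frame.cs_add hF]
    ring
  have l3 : up (((F.next (Lm m)).next (Lm m)).shift (Lm m * (F.τ - F.σ))) m a w x = 0 := by
    refine ka3_up_zero ?_ ?_
    · intro k hkm h1 h2 h3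
      exfalso
      rw [g3, g4] at h3
      have hk' : (0 : ℝ) ≤ k := Nat.cast_nonneg k
      linarith
    · intro j hj hlt
      have h1 := ka3_cr_le hG2 j x
      have h2 := neg_abs_le ((((F.next (Lm m)).next (Lm m)).shift (Lm m * (F.τ - F.σ))).cr x)
      rw [g4] at h2
      rw [g4] at h1
      linarith
  unfold whiteV
  rw [l1, l2, l3]
  simp


end JKA3
export JKA3 (blackV_D whiteV_U)

end Porous
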