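import Pool.Agent.Porous.K1
import Pool.Agent.Porous.K2

open MeasureTheory Complex Set
open scoped ContDiff ENNReal
noncomputable section
namespace Porous
namespace JKB1

/-! TARGET -/

open Filter Topology in
theorem ls_body {F : Frame} (m i : ℕ) (hi : 1 ≤ i) (him : i < m) (x : ℂ) (hr : 0 < F.cr x)
    (hE : (F.cs x, F.cr x) ∉ Edges m) :
    ∀ᶠ y in 𝓝 x, ((0 < F.cr y ∧ 2 * (i : ℝ) + 1 ≤ F.cs y ∧ F.cs y + F.cr y ≤ 2 * (i : ℝ) + 2) ↔
      (0 < F.cr x ∧ 2 * (i : ℝ) + 1 ≤ F.cs x ∧ F.cs x + F.cr x ≤ 2 * (i : ℝ) + 2)) := by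
  have c1 : ContinuousAt F.cs x := F.continuous_cs.continuousAt
  have c2 : ContinuousAt F.cr x := F.continuous_cr.continuousAt
  have c3 : ContinuousAt (fun y => F.cs y + F.cr y) x := c1.add c2
  rcases lt_or_ge (2 * (i : ℝ) + 2) (F.cs x + F.cr x) with h1 | h1
  · have h2 : ∀ᶠ y in 𝓝 x, 2 * (i : ℝ) + 2 < F.cs y + F.cr y :=
      ContinuousAt.eventually_lt continuousAt_const c3 h1
    filter_upwards [h2] with y hy
    constructor
    · rintro ⟨_, _, h⟩; linarith
    · rintro ⟨_, _, h⟩; linarith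
  rcases lt_or_ge (F.cs x) (2 * (i : ℝ) + 1) with h3 | h3
  · have h2 : ∀ᶠ y in 𝓝 x, F.cs y < 2 * (i : ℝ) + 1 :=
      ContinuousAt.eventually_lt c1 continuousAt_const h3
    filter_upwards [h2] with y hy
    constructor
    · rintro ⟨_, h, _⟩; linarith
    · rintro ⟨_, h, _⟩; linarith
  have hr1 : F.cr x ≤ 1 := by linarith
  have h4 : F.cs x ≠ 2 * (i : ℝ) + 1 := by
    intro h
    apply hE
    right
    obtain ⟨i', rfl⟩ : ∃ i', i = i' + 1 := ⟨i - 1, by omega⟩
    refine ⟨i', by omega, by simp only; linarith, by simpa using hr1, Or.inr ?_⟩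
    simp only
    rw [h]; push_cast; ring
  have h5 : F.cs x + F.cr x ≠ 2 * (i : ℝ) + 2 := by
    intro h
    apply hE
    right
    exact ⟨i, him, by simp only; linarith, by simpa using hr1, Or.inl h⟩
  have h6 : 2 * (i : ℝ) + 1 < F.cs x := lt_of_le_of_ne h3 (Ne.symm h4)
  have h7 : F.cs x + F.cr x < 2 * (i : ℝ) + 2 := lt_of_le_of_ne h1 h5
  have e1 : ∀ᶠ y in 𝓝 x, 2 * (i : ℝ) + 1 < F.cs y :=
    ContinuousAt.eventually_lt continuousAt_const c1 h6
  have e2 : ∀ᶠ y in 𝓝 x, F.cs y + F.cr y < 2 * (i : ℝ) + 2 :=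
    ContinuousAt.eventually_lt c3 continuousAt_const h7
  have e3 : ∀ᶠ y in 𝓝 x, 0 < F.cr y := ContinuousAt.eventually_lt continuousAt_const c2 hr
  filter_upwards [e1, e2, e3] with y y1 y2 y3
  exact ⟨fun _ => ⟨hr, h3, h1⟩, fun _ => ⟨y3, y1.le, y2.le⟩⟩

open Filter Topology in
theorem ls_corner {F : Frame} (m : ℕ) (hm : 2 ≤ m) (x : ℂ) (hs : 0 < F.cs x) (hr : 0 < F.cr x)
    (hE : (F.cs x, F.cr x) ∉ Edges m) (hE2 : (Lm m - F.cs x - F.cr x, F.cs x) ∉ Edges m) :
    ∀ᶠ y in 𝓝 x, ((0 < F.cs y ∧ 0 < F.cr y ∧ F.cs y + F.cr y ≤ 2) ↔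
      (0 < F.cs x ∧ 0 < F.cr x ∧ F.cs x + F.cr x ≤ 2)) := by
  have c1 : ContinuousAt F.cs x := F.continuous_cs.continuousAt
  have c2 : ContinuousAt F.cr x := F.continuous_cr.continuousAt
  have c3 : ContinuousAt (fun y => F.cs y + F.cr y) x := c1.add c2
  rcases lt_trichotomy (F.cs x + F.cr x) 2 with h | h | h
  · have e1 : ∀ᶠ y in 𝓝 x, 0 < F.cs y := ContinuousAt.eventually_lt continuousAt_const c1 hs
    have e2 : ∀ᶠ y in 𝓝 x, F.cs y + F.cr y < 2 := ContinuousAt.eventually_lt c3 continuousAt_const h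
    have e3 : ∀ᶠ y in 𝓝 x, 0 < F.cr y := ContinuousAt.eventually_lt continuousAt_const c2 hr
    filter_upwards [e1, e2, e3] with y y1 y2 y3
    exact ⟨fun _ => ⟨hs, hr, h.le⟩, fun _ => ⟨y1, y3, y2.le⟩⟩
  · exfalso
    rcases le_or_gt (F.cr x) 1 with h1 | h1
    · apply hE
      right
      refine ⟨0, by omega, by simp only; linarith, by simpa using h1, Or.inl ?_⟩
      simp only
      rw [h]; norm_num
    · apply hE2
      right
      refine ⟨m - 1, by omega, by simp only; linarith, by simp only; linarith, Or.inr ?_⟩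
      simp only
      unfold Lm
      obtain ⟨m', rfl⟩ : ∃ m', m = m' + 1 := ⟨m - 1, by omega⟩
      simp only [Nat.add_sub_cancel]
      push_cast
      linarith
  · have h2 : ∀ᶠ y in 𝓝 x, 2 < F.cs y + F.cr y :=
      ContinuousAt.eventually_lt continuousAt_const c3 h
    filter_upwards [h2] with y hy
    constructor
    · rintro ⟨_, _, h⟩; linarith
    · rintro ⟨_, _, h⟩; linarith

open Filter Topology in
theorem ls_node {F : Frame} (hF : F.good) (m j : ℕ) (hj : j < 2 * m) (a : ℝ) (ha : 0 < a)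
    (ha' : a ≤ 1 / 100) (x : ℂ) (hr : 0 < F.cr x)
    (hE : (F.cs x, F.cr x) ∉ Edges m)
    (hA : ¬ (‖x - F.N j‖ = 3 * a / 2 ∧ 0 ≤ lam j (F.cs x) (F.cr x))) :
    ∀ᶠ y in 𝓝 x, ((0 < F.cr y ∧ 0 < lam j (F.cs y) (F.cr y) ∧ ‖y - F.N j‖ < 3 * a / 2) ↔
      (0 < F.cr x ∧ 0 < lam j (F.cs x) (F.cr x) ∧ ‖x - F.N j‖ < 3 * a / 2)) := by
  have c1 : ContinuousAt F.cs x := F.continuous_cs.continuousAt
  have c2 : ContinuousAt F.cr x := F.continuous_cr.continuousAt
  have c3 : ContinuousAt (fun y => F.cs y + F.cr y) x := c1.add c2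
  have c4 : ContinuousAt (fun y => ‖y - F.N j‖) x := by fun_prop
  have c5 : ContinuousAt (fun y => lam j (F.cs y) (F.cr y)) x := by
    unfold lam
    split_ifs
    · exact c3.sub continuousAt_const
    · exact continuousAt_const.sub c1
  rcases lt_trichotomy (‖x - F.N j‖) (3 * a / 2) with h | h | h
  · have hcr : |F.cr x - 0| ≤ 2 * ‖x - F.N j‖ := by
      have := F.abs_cr_sub_le hF x (F.N j)
      rwa [Frame.N, F.cr_pt hF] at this
    rw [sub_zero] at hcr
    have hr1 : F.cr x ≤ 1 := by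
      have := (abs_le.1 hcr).2
      linarith
    rcases lt_trichotomy (lam j (F.cs x) (F.cr x)) 0 with hl | hl | hl
    · have e1 : ∀ᶠ y in 𝓝 x, lam j (F.cs y) (F.cr y) < 0 :=
        ContinuousAt.eventually_lt c5 continuousAt_const hl
      filter_upwards [e1] with y hy
      constructor
      · rintro ⟨_, h, _⟩; linarith
      · rintro ⟨_, h, _⟩; linarith
    · exfalso
      apply hE
      right
      unfold lam at hl
      rcases Nat.even_or_odd' j with ⟨i, hi | hi⟩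
      · rw [if_pos ⟨i, by omega⟩] at hl
        refine ⟨i, by omega, by simp only; linarith, by simpa using hr1, Or.inl ?_⟩
        simp only
        rw [hi] at hl
        push_cast at hl
        linarith
      · rw [if_neg (by rw [Nat.not_even_iff_odd]; exact ⟨i, hi⟩)] at hl
        refine ⟨i, by omega, by simp only; linarith, by simpa using hr1, Or.inr ?_⟩
        simp only
        rw [hi] at hl
        push_cast at hl
        linarith
    · have e1 : ∀ᶠ y in 𝓝 x, 0 < lam j (F.cs y) (F.cr y) :=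
        ContinuousAt.eventually_lt continuousAt_const c5 hl
      have e2 : ∀ᶠ y in 𝓝 x, ‖y - F.N j‖ < 3 * a / 2 :=
        ContinuousAt.eventually_lt c4 continuousAt_const h
      have e3 : ∀ᶠ y in 𝓝 x, 0 < F.cr y := ContinuousAt.eventually_lt continuousAt_const c2 hr
      filter_upwards [e1, e2, e3] with y y1 y2 y3
      exact ⟨fun _ => ⟨hr, hl, h⟩, fun _ => ⟨y3, y1, y2⟩⟩
  · have hl : lam j (F.cs x) (F.cr x) < 0 := by
      by_contra hcon
      exact hA ⟨h, not_lt.1 hcon⟩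
    have e1 : ∀ᶠ y in 𝓝 x, lam j (F.cs y) (F.cr y) < 0 :=
      ContinuousAt.eventually_lt c5 continuousAt_const hl
    filter_upwards [e1] with y hy
    constructor
    · rintro ⟨_, h, _⟩; linarith
    · rintro ⟨_, h, _⟩; linarith
  · have e1 : ∀ᶠ y in 𝓝 x, 3 * a / 2 < ‖y - F.N j‖ :=
      ContinuousAt.eventually_lt continuousAt_const c4 h
    filter_upwards [e1] with y hy
    constructor
    · rintro ⟨_, _, h⟩; linarith
    · rintro ⟨_, _, h⟩; linarith

/-- abstract strain lemma -/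
theorem ls_sum (m : ℕ) (G : ℕ → ℂ → ℂ) (c : ℂ) (x : ℂ)
    (hG : ∀ i, DifferentiableAt ℝ (G i) x) :
    sdiv (fun y => (∑ i ∈ Finset.range m, G i y) + c) x = ∑ i ∈ Finset.range m, sdiv (G i) x ∧
    sdif (fun y => (∑ i ∈ Finset.range m, G i y) + c) x = ∑ i ∈ Finset.range m, sdif (G i) x ∧
    sshe (fun y => (∑ i ∈ Finset.range m, G i y) + c) x = ∑ i ∈ Finset.range m, sshe (G i) x := by
  have h : fderiv ℝ (fun y => (∑ i ∈ Finset.range m, G i y) + c) x =
      ∑ i ∈ Finset.range m, fderiv ℝ (G i) x := by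
    rw [fderiv_add_const, fderiv_fun_sum fun i _ => hG i]
  unfold sdiv sdif sshe
  rw [h]
  simp only [ContinuousLinearMap.sum_apply, Complex.re_sum, Complex.im_sum,
    Finset.sum_add_distrib, Finset.sum_sub_distrib]
  exact ⟨trivial, trivial, trivial⟩

open Filter Topology in
theorem ls_congr {f g : ℂ → ℂ} {x : ℂ} (h : f =ᶠ[𝓝 x] g) :
    sdiv f x = sdiv g x ∧ sdif f x = sdif g x ∧ sshe f x = sshe g x := by
  unfold sdiv sdif sshe
  rw [h.fderiv_eq]
  exact ⟨rfl, rfl, rfl⟩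

/-- smoothness and strain of the lower displacement inside the black triangle, away from cracks and arcs -/
theorem low_smooth : ∃ K : ℝ, 0 < K ∧ ∀ {F : Frame} (hF : F.good) (m : ℕ) (hm : 2 ≤ m) (a w : ℝ) (ha : 0 < a)
    (ha' : a ≤ 1 / 100) (x : ℂ), 0 < F.cs x → 0 < F.cr x → F.cs x + F.cr x < Lm m →
    (F.cs x, F.cr x) ∉ Edges m → (Lm m - F.cs x - F.cr x, F.cs x) ∉ Edges m →
    (∀ j < 2 * m, ¬ (‖x - F.N j‖ = 3 * a / 2 ∧ 0 ≤ lam j (F.cs x) (F.cr x))) →
    ContDiffAt ℝ ∞ (low F m a w) x ∧ sdiv (low F m a w) x = 0 ∧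
    |sdif (low F m a w) x| ≤ K * |w| * m ∧ |sshe (low F m a w) x| ≤ K * |w| * m ∧
    (x ∉ Zs F m a → sdif (low F m a w) x = 0 ∧ sshe (low F m a w) x = 0) := by
  classical
  obtain ⟨K, hK, hstr⟩ := gf_strain
  refine ⟨K, hK, ?_⟩
  intro F hF m hm a w ha ha' x hs hr hsr hE hE2 hA
  -- data of the bodies
  let Pc : ℕ → Prop := fun i => if i = 0 then (0 < F.cs x ∧ 0 < F.cr x ∧ F.cs x + F.cr x ≤ 2) else
    (0 < F.cr x ∧ 2 * (i : ℝ) + 1 ≤ F.cs x ∧ F.cs x + F.cr x ≤ 2 * (i : ℝ) + 2)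
  let P2 : ℕ → ℂ := fun i => if i = 0 then F.N 0 else F.N (2 * i - 1)
  let P3 : ℕ → ℂ := fun i => if i = 0 then F.pt 0 2 else F.N (2 * i)
  let G : ℕ → ℂ → ℂ := fun i y => if Pc i then (I * ((-w : ℝ) : ℂ)) *
    gf a (F.D i) (F.D i) (P2 i) (P3 i) y else 0
  let c : ℂ := -(I * w) * ∑ j ∈ Finset.range (2 * m),
      (if 0 < F.cr x ∧ 0 < lam j (F.cs x) (F.cr x) ∧ ‖x - F.N j‖ < 3 * a / 2 then
        F.N j - F.D ((j + 1) / 2) else 0)
  have hGs : ∀ i, ContDiff ℝ ∞ (G i) := by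
    intro i
    by_cases hP : Pc i
    · have : G i = fun y => (I * ((-w : ℝ) : ℂ)) * gf a (F.D i) (F.D i) (P2 i) (P3 i) y := by
        funext y; simp only [G, if_pos hP]
      rw [this]
      exact contDiff_const.mul (gf_contDiff ha _ _ _ _)
    · have : G i = fun y => 0 := by
        funext y; simp only [G, if_neg hP]
      rw [this]
      exact contDiff_const
  have hGd : ∀ i, DifferentiableAt ℝ (G i) x := fun i =>
    ((hGs i).differentiable (by simp)).differentiableAt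
  have hGstr : ∀ i, sdiv (G i) x = 0 ∧ |sdif (G i) x| ≤ K * |w| ∧ |sshe (G i) x| ≤ K * |w| ∧
      (2 * a < ‖x - F.D i‖ → 2 * a < ‖x - P2 i‖ → 2 * a < ‖x - P3 i‖ →
        sdif (G i) x = 0 ∧ sshe (G i) x = 0) := by
    intro i
    by_cases hP : Pc i
    · have h1 : G i = fun y => (I * ((-w : ℝ) : ℂ)) * gf a (F.D i) (F.D i) (P2 i) (P3 i) y := by
        funext y; simp only [G, if_pos hP]
      rw [h1]
      have h2 := hstr a ha (-w) (F.D i) (F.D i) (P2 i) (P3 i) x
      rw [abs_neg] at h2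
      exact h2
    · have h1 : G i = fun y => 0 := by
        funext y; simp only [G, if_neg hP]
      have h0 : 0 ≤ K * |w| := by positivity
      rw [h1]
      unfold sdiv sdif sshe
      simp [h0]
  -- local form
  have hloc : low F m a w =ᶠ[nhds x] fun y => (∑ i ∈ Finset.range m, G i y) + c := by
    have e1 : ∀ᶠ y in nhds x, ∀ i ∈ Finset.Ico 1 m,
        ((0 < F.cr y ∧ 2 * (i : ℝ) + 1 ≤ F.cs y ∧ F.cs y + F.cr y ≤ 2 * (i : ℝ) + 2) ↔
        (0 < F.cr x ∧ 2 * (i : ℝ) + 1 ≤ F.cs x ∧ F.cs x + F.cr x ≤ 2 * (i : ℝ) + 2)) := by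
      rw [Filter.eventually_all_finset]
      intro i hi
      rw [Finset.mem_Ico] at hi
      exact ls_body m i hi.1 hi.2 x hr hE
    have e2 := ls_corner m hm x hs hr hE hE2
    have e3 : ∀ᶠ y in nhds x, ∀ j ∈ Finset.range (2 * m),
        ((0 < F.cr y ∧ 0 < lam j (F.cs y) (F.cr y) ∧ ‖y - F.N j‖ < 3 * a / 2) ↔
        (0 < F.cr x ∧ 0 < lam j (F.cs x) (F.cr x) ∧ ‖x - F.N j‖ < 3 * a / 2)) := by
      rw [Filter.eventually_all_finset]
      intro j hj
      rw [Finset.mem_range] at hj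
      exact ls_node hF m j hj a ha ha' x hr hE (hA j hj)
    filter_upwards [e1, e2, e3] with y y1 y2 y3
    unfold low
    have s1 : ∑ i ∈ Finset.Ico 1 m,
      (if 0 < F.cr y ∧ 2 * (i : ℝ) + 1 ≤ F.cs y ∧ F.cs y + F.cr y ≤ 2 * (i : ℝ) + 2 then
        gf a (F.D i) (F.D i) (F.N (2 * i - 1)) (F.N (2 * i)) y else 0) =
      ∑ i ∈ Finset.Ico 1 m,
      (if Pc i then gf a (F.D i) (F.D i) (P2 i) (P3 i) y else 0) := by
      apply Finset.sum_congr rfl
      intro i hi
      have hi0 : i ≠ 0 := by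
        rw [Finset.mem_Ico] at hi; omega
      have hPc : Pc i ↔ (0 < F.cr y ∧ 2 * (i : ℝ) + 1 ≤ F.cs y ∧
          F.cs y + F.cr y ≤ 2 * (i : ℝ) + 2) := by
        simp only [Pc, if_neg hi0]
        exact (y1 i hi).symm
      simp only [P2, P3, if_neg hi0, hPc]
    have s2 : (if 0 < F.cs y ∧ 0 < F.cr y ∧ F.cs y + F.cr y ≤ 2 then
        gf a (F.D 0) (F.D 0) (F.N 0) (F.pt 0 2) y else 0) =
        (if Pc 0 then gf a (F.D 0) (F.D 0) (P2 0) (P3 0) y else 0) := by
      have hPc : Pc 0 ↔ (0 < F.cs y ∧ 0 < F.cr y ∧ F.cs y + F.cr y ≤ 2) := by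
        simp only [Pc, if_true]
        exact y2.symm
      simp only [P2, P3, if_true, hPc]
    have s3 : ∑ j ∈ Finset.range (2 * m),
      (if 0 < F.cr y ∧ 0 < lam j (F.cs y) (F.cr y) ∧ ‖y - F.N j‖ < 3 * a / 2 then
        F.N j - F.D ((j + 1) / 2) else 0) = ∑ j ∈ Finset.range (2 * m),
      (if 0 < F.cr x ∧ 0 < lam j (F.cs x) (F.cr x) ∧ ‖x - F.N j‖ < 3 * a / 2 then
        F.N j - F.D ((j + 1) / 2) else 0) := by
      apply Finset.sum_congr rfl
      intro j hj
      simp only [y3 j hj]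
    rw [s1, s2, s3]
    have s4 : ∑ i ∈ Finset.range m, G i y = -(I * w) *
        (∑ i ∈ Finset.Ico 1 m, (if Pc i then gf a (F.D i) (F.D i) (P2 i) (P3 i) y else 0) +
        (if Pc 0 then gf a (F.D 0) (F.D 0) (P2 0) (P3 0) y else 0)) := by
      have s5 : ∀ i, G i y = -(I * w) *
          (if Pc i then gf a (F.D i) (F.D i) (P2 i) (P3 i) y else 0) := by
        intro i
        simp only [G]
        split_ifs
        · push_cast; ring
        · ring
      simp only [s5]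
      rw [← Finset.mul_sum, Finset.range_eq_Ico, Finset.sum_eq_sum_Ico_succ_bot (by omega)]
      rw [zero_add, add_comm]
    rw [s4]
    simp only [c]
    ring
  obtain ⟨k1, k2, k3⟩ := ls_congr hloc
  obtain ⟨l1, l2, l3⟩ := ls_sum m G c x hGd
  rw [k1, k2, k3, l1, l2, l3]
  refine ⟨?_, ?_, ?_, ?_, ?_⟩
  · refine ContDiffAt.congr_of_eventuallyEq ?_ hloc
    exact ((ContDiff.sum fun i _ => hGs i).add contDiff_const).contDiffAt
  · exact Finset.sum_eq_zero fun i _ => (hGstr i).1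
  · refine (Finset.abs_sum_le_sum_abs _ _).trans ?_
    refine (Finset.sum_le_sum fun i _ => (hGstr i).2.1).trans ?_
    rw [Finset.sum_const, Finset.card_range, nsmul_eq_mul]
    exact le_of_eq (by ring)
  · refine (Finset.abs_sum_le_sum_abs _ _).trans ?_
    refine (Finset.sum_le_sum fun i _ => (hGstr i).2.2.1).trans ?_
    rw [Finset.sum_const, Finset.card_range, nsmul_eq_mul]
    exact le_of_eq (by ring)
  · intro hZ
    have hN : ∀ j < 2 * m, 2 * a < ‖x - F.N j‖ := by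
      intro j hj
      by_contra hcon
      exact hZ (Or.inl ⟨j, hj, not_lt.1 hcon⟩)
    have hD : ∀ i < m, 2 * a < ‖x - F.D i‖ := by
      intro j hj
      by_contra hcon
      exact hZ (Or.inr (Or.inl ⟨j, hj, not_lt.1 hcon⟩))
    have hp : 2 * a < ‖x - F.pt 0 2‖ := by
      by_contra hcon
      exact hZ (Or.inr (Or.inr (Or.inr (not_lt.1 hcon))))
    have hall : ∀ i ∈ Finset.range m, sdif (G i) x = 0 ∧ sshe (G i) x = 0 := by
      intro i hi
      rw [Finset.mem_range] at hi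
      refine (hGstr i).2.2.2 (hD i hi) ?_ ?_
      · simp only [P2]
        split_ifs
        · exact hN 0 (by omega)
        · exact hN _ (by omega)
      · simp only [P3]
        split_ifs
        · exact hp
        · exact hN _ (by omega)
    exact ⟨Finset.sum_eq_zero fun i hi => (hall i hi).1, Finset.sum_eq_zero fun i hi => (hall i hi).2⟩


end JKB1
export JKB1 (low_smooth)

end Porous
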