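import Pool.Agent.Porous.K1
import Pool.Agent.Porous.K2

open MeasureTheory Complex Set
open scoped ContDiff ENNReal
noncomputable section
namespace Porous
namespace JKB2

/-! TARGET -/

theorem continuous_lam (F : Frame) (j : ℕ) : Continuous (fun y => lam j (F.cs y) (F.cr y)) := by
  have h1 := F.continuous_cs
  have h2 := F.continuous_cr
  unfold lam
  split_ifs
  · exact (h1.add h2).sub continuous_const
  · exact continuous_const.sub h1

/-- a node sector -/
theorem node_ev {F : Frame} (hF : F.good) {m : ℕ} {a : ℝ} (ha' : a ≤ 1 / 100) {x : ℂ}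
    (hcr : F.cr x < 0) (hE : (F.cs x, F.cr x) ∉ Edges m) {j : ℕ} (hj : j < 2 * m)
    (hN : ¬ (‖x - F.N j‖ = 3 * a / 2 ∧ lam j (F.cs x) (F.cr x) ≤ 0)) :
    ∀ᶠ y in nhds x, ((F.cr y ≤ 0 ∧ lam j (F.cs y) (F.cr y) < 0 ∧ ‖y - F.N j‖ < 3 * a / 2) ↔
      (F.cr x ≤ 0 ∧ lam j (F.cs x) (F.cr x) < 0 ∧ ‖x - F.N j‖ < 3 * a / 2)) := by
  have hcrev : ∀ᶠ y in nhds x, F.cr y < 0 :=
    F.continuous_cr.continuousAt.eventually_lt_const hcr
  have hlc := continuous_lam F j
  have hnc : Continuous (fun y : ℂ => ‖y - F.N j‖) := by fun_prop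
  by_cases h : (F.cr x ≤ 0 ∧ lam j (F.cs x) (F.cr x) < 0 ∧ ‖x - F.N j‖ < 3 * a / 2)
  · filter_upwards [hcrev, hlc.continuousAt.eventually_lt_const h.2.1,
      hnc.continuousAt.eventually_lt_const h.2.2] with y a1 a2 a3
    exact ⟨fun _ => h, fun _ => ⟨a1.le, a2, a3⟩⟩
  · have h' : 0 < lam j (F.cs x) (F.cr x) ∨ 3 * a / 2 < ‖x - F.N j‖ := by
      by_contra hc
      push Not at hc
      obtain ⟨h1, h2⟩ := hc
      rcases h2.lt_or_eq with h3 | h3
      · rcases h1.lt_or_eq with h4 | h4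
        · exact h ⟨hcr.le, h4, h3⟩
        · -- on a crack
          apply hE
          have h5 : F.cr (F.N j) = 0 := F.cr_pt hF _ _
          have h6 := F.abs_cr_sub_le hF x (F.N j)
          rw [h5, sub_zero] at h6
          have h7 := abs_le.1 h6
          right
          refine ⟨j / 2, by omega, ?_, ?_, ?_⟩
          · show -1 ≤ F.cr x
            linarith [h7.1]
          · show F.cr x ≤ 1
            linarith [h7.2]
          · show F.cs x + F.cr x = 2 * ((j / 2 : ℕ) : ℝ) + 2 ∨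
              F.cs x = 2 * ((j / 2 : ℕ) : ℝ) + 3
            unfold lam at h4
            split_ifs at h4 with he
            · left
              obtain ⟨b, hb⟩ := he
              have hb' : j / 2 = b := by omega
              rw [hb']
              rw [hb] at h4
              push_cast at h4
              linarith
            · right
              rw [Nat.not_even_iff_odd] at he
              obtain ⟨b, hb⟩ := he
              have hb' : j / 2 = b := by omega
              rw [hb']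
              rw [hb] at h4
              push_cast at h4
              linarith
      · exact hN ⟨h3, h1⟩
    rcases h' with h' | h'
    · filter_upwards [hlc.continuousAt.eventually_const_lt h'] with y a1
      exact ⟨fun b => absurd b.2.1 (not_lt.2 a1.le), fun b => absurd b h⟩
    · filter_upwards [hnc.continuousAt.eventually_const_lt h'] with y a1
      exact ⟨fun b => absurd b.2.2 (not_lt.2 a1.le), fun b => absurd b h⟩

/-- a body -/
theorem body_ev {F : Frame} {m : ℕ} {x : ℂ}
    (hcr : F.cr x < 0) (hE : (F.cs x, F.cr x) ∉ Edges m) {i : ℕ} (hi : i < m) :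
    ∀ᶠ y in nhds x, ((F.cr y ≤ 0 ∧ F.cs y ≤ 2 * (i : ℝ) + 3 ∧
        2 * (i : ℝ) + 2 ≤ F.cs y + F.cr y) ↔
      (F.cr x ≤ 0 ∧ F.cs x ≤ 2 * (i : ℝ) + 3 ∧ 2 * (i : ℝ) + 2 ≤ F.cs x + F.cr x)) := by
  have hcrev : ∀ᶠ y in nhds x, F.cr y < 0 :=
    F.continuous_cr.continuousAt.eventually_lt_const hcr
  have h1c := F.continuous_cs
  have h2c := h1c.add F.continuous_cr
  by_cases h : (F.cr x ≤ 0 ∧ F.cs x ≤ 2 * (i : ℝ) + 3 ∧ 2 * (i : ℝ) + 2 ≤ F.cs x + F.cr x)
  · have h1 : F.cs x < 2 * (i : ℝ) + 3 := by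
      rcases h.2.1.lt_or_eq with h1 | h1
      · exact h1
      · exfalso
        apply hE
        right
        refine ⟨i, hi, ?_, ?_, Or.inr h1⟩
        · show -1 ≤ F.cr x
          linarith [h.2.2]
        · show F.cr x ≤ 1
          linarith
    have h2 : 2 * (i : ℝ) + 2 < F.cs x + F.cr x := by
      rcases h.2.2.lt_or_eq with h2 | h2
      · exact h2
      · exfalso
        apply hE
        right
        refine ⟨i, hi, ?_, ?_, Or.inl h2.symm⟩
        · show -1 ≤ F.cr x
          linarith [h.2.1]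
        · show F.cr x ≤ 1
          linarith
    filter_upwards [hcrev, h1c.continuousAt.eventually_lt_const h1,
      h2c.continuousAt.eventually_const_lt h2] with y a1 a2 a3
    exact ⟨fun _ => h, fun _ => ⟨a1.le, a2.le, a3.le⟩⟩
  · have h' : 2 * (i : ℝ) + 3 < F.cs x ∨ F.cs x + F.cr x < 2 * (i : ℝ) + 2 := by
      by_contra hc
      push Not at hc
      exact h ⟨hcr.le, hc.1, hc.2⟩
    rcases h' with h' | h'
    · filter_upwards [h1c.continuousAt.eventually_const_lt h'] with y a1
      exact ⟨fun b => absurd b.2.1 (not_le.2 a1), fun b => absurd b h⟩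
    · filter_upwards [h2c.continuousAt.eventually_lt_const h'] with y a1
      exact ⟨fun b => absurd b.2.2 (not_le.2 a1), fun b => absurd b h⟩

/-- smoothness and strain of the upper displacement strictly below the side, away from cracks and arcs -/
theorem up_smooth : ∃ K : ℝ, 0 < K ∧ ∀ {F : Frame} (hF : F.good) (m : ℕ) (hm : 2 ≤ m) (a w : ℝ) (ha : 0 < a)
    (ha' : a ≤ 1 / 100) (x : ℂ), F.cr x < 0 →
    (F.cs x, F.cr x) ∉ Edges m →
    (∀ j < 2 * m, ¬ (‖x - F.N j‖ = 3 * a / 2 ∧ lam j (F.cs x) (F.cr x) ≤ 0)) →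
    ContDiffAt ℝ ∞ (up F m a w) x ∧ sdiv (up F m a w) x = 0 ∧
    |sdif (up F m a w) x| ≤ K * |w| * m ∧ |sshe (up F m a w) x| ≤ K * |w| * m ∧
    (x ∉ Zs F m a → sdif (up F m a w) x = 0 ∧ sshe (up F m a w) x = 0) := by
  classical
  obtain ⟨K, hK, hstr⟩ := gf_strain
  refine ⟨K, hK, ?_⟩
  intro F hF m hm a w ha ha' x hcr hE hN
  have hP : ∀ᶠ y in nhds x, ∀ i ∈ Finset.range m, ((F.cr y ≤ 0 ∧ F.cs y ≤ 2 * (i : ℝ) + 3 ∧
        2 * (i : ℝ) + 2 ≤ F.cs y + F.cr y) ↔
      (F.cr x ≤ 0 ∧ F.cs x ≤ 2 * (i : ℝ) + 3 ∧ 2 * (i : ℝ) + 2 ≤ F.cs x + F.cr x)) := by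
    rw [Filter.eventually_all_finset]
    intro i hi
    exact body_ev hcr hE (Finset.mem_range.1 hi)
  have hQ : ∀ᶠ y in nhds x, ∀ j ∈ Finset.range (2 * m),
      ((F.cr y ≤ 0 ∧ lam j (F.cs y) (F.cr y) < 0 ∧ ‖y - F.N j‖ < 3 * a / 2) ↔
      (F.cr x ≤ 0 ∧ lam j (F.cs x) (F.cr x) < 0 ∧ ‖x - F.N j‖ < 3 * a / 2)) := by
    rw [Filter.eventually_all_finset]
    intro j hj
    exact node_ev hF ha' hcr hE (Finset.mem_range.1 hj) (hN j (Finset.mem_range.1 hj))
  obtain ⟨P, hPd⟩ : ∃ P : ℕ → Prop, ∀ i, P i ↔ (F.cr x ≤ 0 ∧ F.cs x ≤ 2 * (i : ℝ) + 3 ∧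
    2 * (i : ℝ) + 2 ≤ F.cs x + F.cr x) := ⟨_, fun _ => Iff.rfl⟩
  obtain ⟨Q, hQd⟩ : ∃ Q : ℕ → Prop, ∀ j, Q j ↔ (F.cr x ≤ 0 ∧ lam j (F.cs x) (F.cr x) < 0 ∧
    ‖x - F.N j‖ < 3 * a / 2) := ⟨_, fun _ => Iff.rfl⟩
  obtain ⟨f, hf⟩ : ∃ f : ℕ → ℂ → ℂ, ∀ i, f i = fun y =>
    (I * w) * gf a (F.U m i) (F.U m i) (F.N (2 * i)) (F.N (2 * i + 1)) y := ⟨_, fun _ => rfl⟩
  have hfs : ∀ i, ContDiff ℝ ∞ (f i) := by
    intro i
    rw [hf]
    exact contDiff_const.mul (gf_contDiff ha _ _ _ _)
  have hev : up F m a w =ᶠ[nhds x] fun y =>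
      (∑ i ∈ Finset.range m, if P i then f i y else 0) +
        ∑ j ∈ Finset.range (2 * m), if Q j then (I * w) * (F.N j - F.U m (j / 2)) else 0 := by
    filter_upwards [hP, hQ] with y h1 h2
    unfold up
    rw [mul_add, Finset.mul_sum, Finset.mul_sum]
    congr 1
    · refine Finset.sum_congr rfl fun i hi => ?_
      rw [mul_ite, mul_zero, hf]
      exact if_congr ((h1 i hi).trans (hPd i).symm) rfl rfl
    · refine Finset.sum_congr rfl fun j hj => ?_
      rw [mul_ite, mul_zero]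
      exact if_congr ((h2 j hj).trans (hQd j).symm) rfl rfl
  have hcd : ContDiffAt ℝ ∞ (up F m a w) x := by
    refine ContDiffAt.congr_of_eventuallyEq ?_ hev
    refine ContDiffAt.add (ContDiffAt.sum fun i _ => ?_) contDiffAt_const
    split_ifs
    · exact (hfs i).contDiffAt
    · exact contDiffAt_const
  have hder : fderiv ℝ (up F m a w) x =
      ∑ i ∈ Finset.range m, if P i then fderiv ℝ (f i) x else 0 := by
    rw [hev.fderiv_eq]
    apply HasFDerivAt.fderiv
    have h1 : HasFDerivAt (fun y => ∑ i ∈ Finset.range m, if P i then f i y else 0)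
        (∑ i ∈ Finset.range m, if P i then fderiv ℝ (f i) x else 0) x := by
      apply HasFDerivAt.fun_sum
      intro i _
      split_ifs
      · exact ((hfs i).differentiable (by simp)).differentiableAt.hasFDerivAt
      · exact hasFDerivAt_const _ _
    simpa using h1.add_const (∑ j ∈ Finset.range (2 * m),
      if Q j then (I * w) * (F.N j - F.U m (j / 2)) else 0)
  have e1 : sdiv (up F m a w) x = ∑ i ∈ Finset.range m, if P i then sdiv (f i) x else 0 := by
    unfold sdiv
    rw [hder]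
    simp only [ContinuousLinearMap.sum_apply, Complex.re_sum, Complex.im_sum]
    rw [← Finset.sum_add_distrib]
    refine Finset.sum_congr rfl fun i _ => ?_
    split_ifs <;> simp
  have e2 : sdif (up F m a w) x = ∑ i ∈ Finset.range m, if P i then sdif (f i) x else 0 := by
    unfold sdif
    rw [hder]
    simp only [ContinuousLinearMap.sum_apply, Complex.re_sum, Complex.im_sum]
    rw [← Finset.sum_sub_distrib]
    refine Finset.sum_congr rfl fun i _ => ?_
    split_ifs <;> simp
  have e3 : sshe (up F m a w) x = ∑ i ∈ Finset.range m, if P i then sshe (f i) x else 0 := by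
    unfold sshe
    rw [hder]
    simp only [ContinuousLinearMap.sum_apply, Complex.re_sum, Complex.im_sum]
    rw [← Finset.sum_add_distrib]
    refine Finset.sum_congr rfl fun i _ => ?_
    split_ifs <;> simp
  have hst : ∀ i, _ := fun i => hstr a ha w (F.U m i) (F.U m i) (F.N (2 * i)) (F.N (2 * i + 1)) x
  have hKw : 0 ≤ K * |w| := by positivity
  refine ⟨hcd, ?_, ?_, ?_, ?_⟩
  · rw [e1]
    refine Finset.sum_eq_zero fun i _ => ?_
    split_ifs
    · rw [hf]; exact (hst i).1
    · rfl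
  · rw [e2]
    refine (Finset.abs_sum_le_sum_abs _ _).trans ?_
    calc _ ≤ ∑ i ∈ Finset.range m, K * |w| := by
          refine Finset.sum_le_sum fun i _ => ?_
          split_ifs
          · rw [hf]; exact (hst i).2.1
          · simpa using hKw
      _ = K * |w| * m := by rw [Finset.sum_const, Finset.card_range, nsmul_eq_mul]; ring
  · rw [e3]
    refine (Finset.abs_sum_le_sum_abs _ _).trans ?_
    calc _ ≤ ∑ i ∈ Finset.range m, K * |w| := by
          refine Finset.sum_le_sum fun i _ => ?_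
          split_ifs
          · rw [hf]; exact (hst i).2.2.1
          · simpa using hKw
      _ = K * |w| * m := by rw [Finset.sum_const, Finset.card_range, nsmul_eq_mul]; ring
  · intro hZ
    have hz : ∀ i < m, sdif (f i) x = 0 ∧ sshe (f i) x = 0 := by
      intro i hi
      rw [hf]
      refine (hst i).2.2.2 ?_ ?_ ?_
      · by_contra hc
        exact hZ (Or.inr (Or.inr (Or.inl ⟨i, hi, not_lt.1 hc⟩)))
      · by_contra hc
        exact hZ (Or.inl ⟨2 * i, by omega, not_lt.1 hc⟩)
      · by_contra hc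
        exact hZ (Or.inl ⟨2 * i + 1, by omega, not_lt.1 hc⟩)
    rw [e2, e3]
    constructor
    · refine Finset.sum_eq_zero fun i hi => ?_
      rw [(hz i (Finset.mem_range.1 hi)).1, ite_self]
    · refine Finset.sum_eq_zero fun i hi => ?_
      rw [(hz i (Finset.mem_range.1 hi)).2, ite_self]


end JKB2
export JKB2 (up_smooth)

end Porous
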