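import Pool.Agent.Porous.K1
import Pool.Agent.Porous.K2

open MeasureTheory Complex Set
open scoped ContDiff ENNReal
noncomputable section
namespace Porous
namespace JKC1

/-! TARGETS -/

theorem kc_D (F : Frame) (v : ℂ) (i : ℕ) : (F.shift v).D i = F.D i + v := by
  simp only [Frame.D, Frame.pt, Frame.shift]; ring
theorem kc_N (F : Frame) (v : ℂ) (i : ℕ) : (F.shift v).N i = F.N i + v := by
  simp only [Frame.N, Frame.pt, Frame.shift]; ring
theorem kc_U (F : Frame) (v : ℂ) (m i : ℕ) : (F.shift v).U m i = F.U m i + v := by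
  simp only [Frame.U, Frame.pt, Frame.shift]; ring
theorem kc_pt (F : Frame) (v : ℂ) (s r : ℝ) : (F.shift v).pt s r = F.pt s r + v := by
  simp only [Frame.pt, Frame.shift]; ring
theorem kc_sub (x P v : ℂ) : x - (P + v) = x - v - P := by ring
theorem kc_gf (a : ℝ) (C P₁ P₂ P₃ x v : ℂ) :
    gf a (C + v) (P₁ + v) (P₂ + v) (P₃ + v) x = gf a C P₁ P₂ P₃ (x - v) := by
  unfold gf
  rw [kc_sub, kc_sub, kc_sub, kc_sub]

theorem low_shift (F : Frame) (v : ℂ) (m : ℕ) (a w : ℝ) (x : ℂ) :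
    low (F.shift v) m a w x = low F m a w (x - v) := by
  unfold low
  congr 1
  congr 1
  · congr 1
    · refine Finset.sum_congr rfl fun i _ => ?_
      rw [Frame.cs_shift, Frame.cr_shift, kc_D, kc_N, kc_N, kc_gf]
    · rw [Frame.cs_shift, Frame.cr_shift, kc_D, kc_N, kc_pt, kc_gf]
  · refine Finset.sum_congr rfl fun i _ => ?_
    rw [Frame.cs_shift, Frame.cr_shift, kc_D, kc_N, kc_sub, add_sub_add_right_eq_sub]

theorem up_shift (F : Frame) (v : ℂ) (m : ℕ) (a w : ℝ) (x : ℂ) :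
    up (F.shift v) m a w x = up F m a w (x - v) := by
  unfold up
  congr 1
  congr 1
  · refine Finset.sum_congr rfl fun i _ => ?_
    rw [Frame.cs_shift, Frame.cr_shift, kc_U, kc_N, kc_N, kc_gf]
  · refine Finset.sum_congr rfl fun i _ => ?_
    rw [Frame.cs_shift, Frame.cr_shift, kc_U, kc_N, kc_sub, add_sub_add_right_eq_sub]

theorem blackV_next (F : Frame) (m : ℕ) (a w : ℝ) (x : ℂ) :
    blackV (F.next (Lm m)) m a w x = blackV F m a w x := by
  unfold blackV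
  rw [Frame.next_next_next]
  ring

theorem kc_white (F : Frame) (m : ℕ) (a w : ℝ) (x : ℂ) :
    whiteV F m a w x = I * w * ((1 / Lm m : ℝ) : ℂ) * F.σ + up F m a w x
      + up (F.next (Lm m)) m a w (x + Lm m * F.σ)
      + up ((F.next (Lm m)).next (Lm m)) m a w (x - Lm m * (F.τ - F.σ)) := by
  unfold whiteV
  rw [up_shift, up_shift, sub_neg_eq_add]

theorem kc_next_shift (F : Frame) (v : ℂ) (L : ℝ) : (F.shift v).next L = (F.next L).shift v := by
  ext1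
  · simp only [Frame.next, Frame.shift]; ring
  · rfl
  · rfl

theorem kc_white_shift (F : Frame) (v : ℂ) (m : ℕ) (a w : ℝ) (x : ℂ) :
    whiteV (F.shift v) m a w x = whiteV F m a w (x - v) := by
  rw [kc_white, kc_white, kc_next_shift, kc_next_shift, up_shift, up_shift, up_shift]
  have e1 : (F.shift v).σ = F.σ := rfl
  have e2 : (F.shift v).τ = F.τ := rfl
  rw [e1, e2]
  have e3 : x + Lm m * F.σ - v = x - v + Lm m * F.σ := by ring
  have e4 : x - Lm m * (F.τ - F.σ) - v = x - v - Lm m * (F.τ - F.σ) := by ring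
  rw [e3, e4]

theorem kc_Lpos (m : ℕ) : 0 < Lm m := by unfold Lm; positivity

open Classical in
/-- the displacement in the tile with integer coordinates `t₁, t₂` -/
def vcore (F : Frame) (m : ℕ) (a w : ℝ) (t₁ t₂ : ℤ) (x : ℂ) : ℂ :=
  Tr F m w ((t₁ : ℤ) : ℝ) ((t₂ : ℤ) : ℝ) +
  (if F.cs (x - Lm m * (((t₁ : ℤ) : ℂ) * F.τ + ((t₂ : ℤ) : ℂ) * F.σ))
      + F.cr (x - Lm m * (((t₁ : ℤ) : ℂ) * F.τ + ((t₂ : ℤ) : ℂ) * F.σ)) < Lm m
    then blackV F m a w (x - Lm m * (((t₁ : ℤ) : ℂ) * F.τ + ((t₂ : ℤ) : ℂ) * F.σ))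
    else Tr F m w 0 1 + whiteV (F.shift (Lm m * F.σ)) m a w
      (x - Lm m * (((t₁ : ℤ) : ℂ) * F.τ + ((t₂ : ℤ) : ℂ) * F.σ)))

theorem kc_vfun (F : Frame) (m : ℕ) (a w : ℝ) (x : ℂ) :
    vfun F m a w x = vcore F m a w (⌈F.cs x / Lm m⌉ - 1) (⌈F.cr x / Lm m⌉ - 1) x := rfl

theorem kc_cs {F : Frame} (hF : F.good) (x : ℂ) (L s r : ℝ) :
    F.cs (x + L * ((s : ℂ) * F.τ + (r : ℂ) * F.σ)) = F.cs x + L * s := by
  have e : x + L * ((s : ℂ) * F.τ + (r : ℂ) * F.σ) =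
      x + (((L * s : ℝ) : ℂ) * F.τ + ((L * r : ℝ) : ℂ) * F.σ) := by
    push_cast; ring
  rw [e, Frame.cs_add hF]

theorem kc_cr {F : Frame} (hF : F.good) (x : ℂ) (L s r : ℝ) :
    F.cr (x + L * ((s : ℂ) * F.τ + (r : ℂ) * F.σ)) = F.cr x + L * r := by
  have e : x + L * ((s : ℂ) * F.τ + (r : ℂ) * F.σ) =
      x + (((L * s : ℝ) : ℂ) * F.τ + ((L * r : ℝ) : ℂ) * F.σ) := by
    push_cast; ring
  rw [e, Frame.cr_add hF]

theorem kc_Tr_add (F : Frame) (m : ℕ) (w t₁ t₂ n₁ n₂ : ℝ) :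
    Tr F m w (t₁ + n₁) (t₂ + n₂) = Tr F m w t₁ t₂ + Tr F m w n₁ n₂ := by
  unfold Tr
  push_cast
  ring

theorem kc_vcore_add (F : Frame) (m : ℕ) (a w : ℝ) (t₁ t₂ n₁ n₂ : ℤ) (x : ℂ) :
    vcore F m a w (t₁ + n₁) (t₂ + n₂) (x + Lm m * ((n₁ : ℂ) * F.τ + (n₂ : ℂ) * F.σ)) =
      vcore F m a w t₁ t₂ x + Tr F m w n₁ n₂ := by
  unfold vcore
  have e : x + Lm m * ((n₁ : ℂ) * F.τ + (n₂ : ℂ) * F.σ) -
      Lm m * (((t₁ + n₁ : ℤ) : ℂ) * F.τ + ((t₂ + n₂ : ℤ) : ℂ) * F.σ) =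
      x - Lm m * (((t₁ : ℤ) : ℂ) * F.τ + ((t₂ : ℤ) : ℂ) * F.σ) := by
    push_cast; ring
  rw [e]
  have e2 : Tr F m w ((t₁ + n₁ : ℤ) : ℝ) ((t₂ + n₂ : ℤ) : ℝ) =
      Tr F m w (t₁ : ℝ) (t₂ : ℝ) + Tr F m w n₁ n₂ := by
    push_cast
    exact kc_Tr_add F m w _ _ _ _
  rw [e2]
  ring

/-- quasi-periodicity -/
theorem vfun_add {F : Frame} (hF : F.good) (m : ℕ) (a w : ℝ) (n₁ n₂ : ℤ) (x : ℂ) :
    vfun F m a w (x + Lm m * ((n₁ : ℂ) * F.τ + (n₂ : ℂ) * F.σ)) = vfun F m a w x + Tr F m w n₁ n₂ := by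
  have hL := kc_Lpos m
  have e1 : F.cs (x + Lm m * ((n₁ : ℂ) * F.τ + (n₂ : ℂ) * F.σ)) = F.cs x + Lm m * n₁ := by
    have := kc_cs hF x (Lm m) n₁ n₂
    push_cast at this
    exact this
  have e2 : F.cr (x + Lm m * ((n₁ : ℂ) * F.τ + (n₂ : ℂ) * F.σ)) = F.cr x + Lm m * n₂ := by
    have := kc_cr hF x (Lm m) n₁ n₂
    push_cast at this
    exact this
  have e3 : ⌈(F.cs x + Lm m * n₁) / Lm m⌉ - 1 = (⌈F.cs x / Lm m⌉ - 1) + n₁ := by
    have : (F.cs x + Lm m * n₁) / Lm m = F.cs x / Lm m + n₁ := by field_simp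
    rw [this, Int.ceil_add_intCast]
    ring
  have e4 : ⌈(F.cr x + Lm m * n₂) / Lm m⌉ - 1 = (⌈F.cr x / Lm m⌉ - 1) + n₂ := by
    have : (F.cr x + Lm m * n₂) / Lm m = F.cr x / Lm m + n₂ := by field_simp
    rw [this, Int.ceil_add_intCast]
    ring
  rw [kc_vfun, kc_vfun, e1, e2, e3, e4, kc_vcore_add]

theorem kc_ceil_one {c L : ℝ} (hL : 0 < L) (h1 : 0 < c) (h2 : c < L) : ⌈c / L⌉ - 1 = 0 := by
  have : ⌈c / L⌉ = 1 := by
    rw [Int.ceil_eq_iff]
    constructor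
    · push_cast
      have := div_pos h1 hL
      linarith
    · push_cast
      rw [div_le_one hL]
      exact h2.le
  rw [this]; rfl

theorem kc_ceil_zero {c L : ℝ} (hL : 0 < L) (h1 : -L < c) (h2 : c ≤ 0) : ⌈c / L⌉ - 1 = -1 := by
  have : ⌈c / L⌉ = 0 := by
    rw [Int.ceil_eq_iff]
    constructor
    · push_cast
      rw [lt_div_iff₀ hL]
      linarith
    · push_cast
      exact div_nonpos_of_nonpos_of_nonneg h2 hL.le
  rw [this]; rfl

/-- the displacement in the open black triangle -/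
theorem vfun_black {F : Frame} (hF : F.good) (m : ℕ) (a w : ℝ) (x : ℂ)
    (h1 : 0 < F.cs x) (h2 : 0 < F.cr x) (h3 : F.cs x + F.cr x < Lm m) :
    vfun F m a w x = blackV F m a w x := by
  have hL := kc_Lpos m
  rw [kc_vfun, kc_ceil_one hL h1 (by linarith), kc_ceil_one hL h2 (by linarith)]
  unfold vcore
  have e : x - Lm m * (((0 : ℤ) : ℂ) * F.τ + ((0 : ℤ) : ℂ) * F.σ) = x := by
    push_cast; ring
  rw [e, if_pos h3]
  unfold Tr
  push_cast
  ring

/-- the displacement in the three white triangles adjacent to the black triangle -/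
theorem vfun_white {F : Frame} (hF : F.good) (m : ℕ) (a w : ℝ) (x : ℂ) (G : Frame)
    (hG : G = F ∨ G = F.next (Lm m) ∨ G = (F.next (Lm m)).next (Lm m))
    (h1 : G.cr x ≤ 0) (h2 : 0 < G.cs x + G.cr x) (h3 : G.cs x < Lm m) :
    vfun F m a w x = whiteV G m a w x := by
  have hL := kc_Lpos m
  rcases hG with rfl | rfl | rfl
  · rw [kc_vfun, kc_ceil_one hL (by linarith) h3, kc_ceil_zero hL (by linarith) h1]
    unfold vcore
    have e : x - Lm m * (((0 : ℤ) : ℂ) * G.τ + ((-1 : ℤ) : ℂ) * G.σ) = x + Lm m * G.σ := by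
      push_cast; ring
    have e' : x + Lm m * G.σ = x + Lm m * (((0 : ℝ) : ℂ) * G.τ + ((1 : ℝ) : ℂ) * G.σ) := by
      push_cast; ring
    have e1 : G.cs (x + Lm m * G.σ) = G.cs x := by
      rw [e', kc_cs hF]; ring
    have e2 : G.cr (x + Lm m * G.σ) = G.cr x + Lm m := by
      rw [e', kc_cr hF]; ring
    rw [e, e1, e2, if_neg (by linarith), kc_white_shift, add_sub_cancel_right]
    unfold Tr
    push_cast
    ring
  · rw [Frame.cr_next hF] at h1 h2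
    rw [Frame.cs_next hF] at h2 h3
    rw [kc_vfun, kc_ceil_one hL (by linarith) (by linarith), kc_ceil_one hL (by linarith) h3]
    unfold vcore
    have e : x - Lm m * (((0 : ℤ) : ℂ) * F.τ + ((0 : ℤ) : ℂ) * F.σ) = x := by
      push_cast; ring
    rw [e, if_neg (by linarith), kc_white_shift, kc_white, kc_white, Frame.next_next_next]
    have e1 : (F.next (Lm m)).σ = -F.τ := rfl
    have e2 : (F.next (Lm m)).τ = F.σ - F.τ := rfl
    rw [e1, e2]
    have e3 : x - Lm m * F.σ + Lm m * F.σ = x := by ring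
    have e4 : x - Lm m * F.σ - Lm m * (F.τ - F.σ) = x + Lm m * -F.τ := by ring
    have e5 : x - Lm m * (F.σ - F.τ - -F.τ) = x - Lm m * F.σ := by ring
    rw [e3, e4, e5]
    unfold Tr
    push_cast
    ring
  · rw [Frame.cr_next (Frame.good_next hF _), Frame.cs_next hF, Frame.cr_next hF] at h1 h2
    rw [Frame.cs_next (Frame.good_next hF _), Frame.cr_next hF] at h2 h3
    rw [kc_vfun, kc_ceil_zero hL (by linarith) (by linarith), kc_ceil_one hL (by linarith) (by linarith)]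
    unfold vcore
    have e : x - Lm m * (((-1 : ℤ) : ℂ) * F.τ + ((0 : ℤ) : ℂ) * F.σ) = x + Lm m * F.τ := by
      push_cast; ring
    have e' : x + Lm m * F.τ = x + Lm m * (((1 : ℝ) : ℂ) * F.τ + ((0 : ℝ) : ℂ) * F.σ) := by
      push_cast; ring
    have e1 : F.cs (x + Lm m * F.τ) = F.cs x + Lm m := by
      rw [e', kc_cs hF]; ring
    have e2 : F.cr (x + Lm m * F.τ) = F.cr x := by
      rw [e', kc_cr hF]; ring
    rw [e, e1, e2, if_neg (by linarith), kc_white_shift, kc_white, kc_white, Frame.next_next_next]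
    have e3 : ((F.next (Lm m)).next (Lm m)).σ = -(F.σ - F.τ) := rfl
    have e4 : ((F.next (Lm m)).next (Lm m)).τ = -F.τ - (F.σ - F.τ) := rfl
    rw [e3, e4]
    have e5 : x + Lm m * F.τ - Lm m * F.σ = x + Lm m * -(F.σ - F.τ) := by ring
    have e6 : x + Lm m * -(F.σ - F.τ) + Lm m * F.σ = x - Lm m * (-F.τ - (F.σ - F.τ) - -(F.σ - F.τ)) := by
      ring
    have e7 : x + Lm m * -(F.σ - F.τ) - Lm m * (F.τ - F.σ) = x := by ring
    rw [e5, e6, e7]
    unfold Tr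
    push_cast
    ring


end JKC1
export JKC1 (low_shift up_shift blackV_next vfun_add vfun_black vfun_white)

end Porous
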