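import Pool.Agent.Porous.KA1
import Pool.Agent.Porous.KA2
import Pool.Agent.Porous.KA3
import Pool.Agent.Porous.KC1

open MeasureTheory Complex Set
open scoped ContDiff ENNReal
noncomputable section
namespace Porous
namespace JKC2

/-! TARGET -/

/-- all hinges of one side -/
def hinges (F : Frame) (m : ℕ) : Set ℂ :=
  {P | (∃ j < 2 * m, P = F.N j) ∨ (∃ i < m, P = F.D i) ∨ (∃ i < m, P = F.U m i)}

theorem vfun_hinge_aux {F G : Frame} (hF : F.good) (hGg : G.good) (m : ℕ) (hm : 2 ≤ m) (a w : ℝ)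
    (ha : 0 < a) (ha' : a ≤ 1 / (100 * (m : ℝ)))
    (hG : G = F ∨ G = F.next (Lm m) ∨ G = (F.next (Lm m)).next (Lm m))
    (hb : ∀ x, blackV G m a w x = blackV F m a w x)
    (htri : ∀ x, 0 < G.cs x → 0 < G.cr x → G.cs x + G.cr x < Lm m →
      vfun F m a w x = blackV F m a w x) (P : ℂ) (hP : P ∈ hinges G m) :
    ∃ c : ℂ, ∀ x, ‖x - P‖ < a → vfun F m a w x = c := by
  have hm' : (2 : ℝ) ≤ m := by exact_mod_cast hm
  have h100 : a ≤ 1 / 200 := by
    refine ha'.trans ?_
    rw [div_le_div_iff₀ (by positivity) (by norm_num)]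
    linarith
  have hLm : Lm m = 2 * (m : ℝ) + 3 := rfl
  rcases hP with ⟨j, hj, rfl⟩ | ⟨i, hi, rfl⟩ | ⟨i, hi, rfl⟩
  · have hj' : (j : ℝ) + 1 ≤ 2 * m := by exact_mod_cast hj
    have hj0 : (0 : ℝ) ≤ j := Nat.cast_nonneg j
    refine ⟨-(I * w) * (G.N j - G.D ((j + 1) / 2)), fun x hx => ?_⟩
    have e1 : G.cs (G.N j) = (j : ℝ) + 2 := Frame.cs_pt hGg _ _
    have e2 : G.cr (G.N j) = 0 := Frame.cr_pt hGg _ _
    have b1 := Frame.abs_cs_sub_le hGg x (G.N j)
    have b2 := Frame.abs_cr_sub_le hGg x (G.N j)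
    rw [e1] at b1
    rw [e2] at b2
    rw [abs_le] at b1 b2
    by_cases hr : 0 < G.cr x
    · rw [htri x (by linarith) hr (by linarith), ← hb]
      exact blackV_node hGg m hm a w ha (by linarith) j hj x hx hr
    · push Not at hr
      rw [vfun_white hF m a w x G hG hr (by linarith) (by linarith)]
      exact whiteV_node hGg m hm a w ha (by linarith) j hj x hx hr
  · have hi' : (i : ℝ) + 1 ≤ m := by exact_mod_cast hi
    have hi0 : (0 : ℝ) ≤ i := Nat.cast_nonneg i
    refine ⟨0, fun x hx => ?_⟩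
    have e1 : G.cs (G.D i) = 2 * (i : ℝ) + 1 := Frame.cs_pt hGg _ _
    have e2 : G.cr (G.D i) = 1 := Frame.cr_pt hGg _ _
    have b1 := Frame.abs_cs_sub_le hGg x (G.D i)
    have b2 := Frame.abs_cr_sub_le hGg x (G.D i)
    rw [e1] at b1
    rw [e2] at b2
    rw [abs_le] at b1 b2
    rw [htri x (by linarith) (by linarith) (by linarith), ← hb]
    exact blackV_D hGg m hm a w ha (by linarith) i hi x hx
  · have hi' : (i : ℝ) + 1 ≤ m := by exact_mod_cast hi
    have hi0 : (0 : ℝ) ≤ i := Nat.cast_nonneg i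
    refine ⟨I * w * (1 / Lm m : ℝ) * G.σ, fun x hx => ?_⟩
    have e1 : G.cs (G.U m i) = 2 * (i : ℝ) + 3 := Frame.cs_pt hGg _ _
    have e2 : G.cr (G.U m i) = -1 + 1 / (2 * (m : ℝ) + 3) := Frame.cr_pt hGg _ _
    have b1 := Frame.abs_cs_sub_le hGg x (G.U m i)
    have b2 := Frame.abs_cr_sub_le hGg x (G.U m i)
    rw [e1] at b1
    rw [e2] at b2
    rw [abs_le] at b1 b2
    have h7 : 1 / (2 * (m : ℝ) + 3) ≤ 1 / 7 :=
      one_div_le_one_div_of_le (by norm_num) (by linarith)
    have h0 : 0 < 1 / (2 * (m : ℝ) + 3) := by positivity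
    rw [vfun_white hF m a w x G hG (by linarith) (by linarith) (by linarith)]
    exact whiteV_U hGg m hm a w ha ha' i hi x hx

/-- the displacement is constant in every small ball about a hinge -/
theorem vfun_hinge {F : Frame} (hF : F.good) (m : ℕ) (hm : 2 ≤ m) (a w : ℝ) (ha : 0 < a)
    (ha' : a ≤ 1 / (100 * (m : ℝ))) (P : ℂ)
    (hP : P ∈ hinges F m ∪ hinges (F.next (Lm m)) m ∪ hinges ((F.next (Lm m)).next (Lm m)) m) :
    ∃ c : ℂ, ∀ x, ‖x - P‖ < a → vfun F m a w x = c := by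
  rcases hP with (hP | hP) | hP
  · exact vfun_hinge_aux hF hF m hm a w ha ha' (Or.inl rfl) (fun x => rfl)
      (fun x h1 h2 h3 => vfun_black hF m a w x h1 h2 h3) P hP
  · refine vfun_hinge_aux hF (Frame.good_next hF _) m hm a w ha ha' (Or.inr (Or.inl rfl))
      (fun x => blackV_next F m a w x) (fun x h1 h2 h3 => ?_) P hP
    rw [Frame.cs_next hF] at h1 h3
    rw [Frame.cr_next hF] at h2 h3
    exact vfun_black hF m a w x (by linarith) (by linarith) (by linarith)
  · refine vfun_hinge_aux hF (Frame.good_next (Frame.good_next hF _) _) m hm a w ha ha'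
      (Or.inr (Or.inr rfl))
      (fun x => by rw [blackV_next, blackV_next]) (fun x h1 h2 h3 => ?_) P hP
    rw [Frame.cs_next (Frame.good_next hF _), Frame.cr_next hF] at h1 h3
    rw [Frame.cr_next (Frame.good_next hF _), Frame.cs_next hF, Frame.cr_next hF] at h2 h3
    exact vfun_black hF m a w x (by linarith) (by linarith) (by linarith)


end JKC2
export JKC2 (vfun_hinge)

end Porous
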