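import Pool.Agent.Porous.K1
import Pool.Agent.Porous.K2

open MeasureTheory Complex Set
open scoped ContDiff ENNReal
noncomputable section
namespace Porous
namespace JKC3a


/-! TARGET -/

theorem D_next17 (G : Frame) (m : ℕ) : G.D m = (G.next (Lm m)).D 0 := by
  simp only [Frame.D, Frame.pt, Frame.next, Lm]
  push_cast
  ring

/-- off the crack set a point is in a small hinge ball or it is on no crack line and on no arc of any triangle -/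
theorem gam_cases {F : Frame} (hF : F.good) (m : ℕ) (hm : 2 ≤ m) (a : ℝ) (ha : 0 < a) (x : ℂ)
    (hx : x ∉ Gam F m a) :
    (∃ t₁ t₂ : ℤ, ∃ P ∈ hinges F m ∪ hinges (F.next (Lm m)) m ∪ hinges ((F.next (Lm m)).next (Lm m)) m,
      ‖x - Lm m * ((t₁ : ℂ) * F.τ + (t₂ : ℂ) * F.σ) - P‖ < a) ∨
    (∀ G : Frame, (G = F ∨ G = F.next (Lm m) ∨ G = (F.next (Lm m)).next (Lm m)) → ∀ t₁ t₂ : ℤ,
      (G.cs (x - Lm m * ((t₁ : ℂ) * F.τ + (t₂ : ℂ) * F.σ)), G.cr (x - Lm m * ((t₁ : ℂ) * F.τ + (t₂ : ℂ) * F.σ))) ∉ Edges m ∧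
      ∀ j < 2 * m, ¬ (‖x - Lm m * ((t₁ : ℂ) * F.τ + (t₂ : ℂ) * F.σ) - G.N j‖ = 3 * a / 2 ∧
        ((0 ≤ G.cr (x - Lm m * ((t₁ : ℂ) * F.τ + (t₂ : ℂ) * F.σ)) ∧
            0 ≤ lam j (G.cs (x - Lm m * ((t₁ : ℂ) * F.τ + (t₂ : ℂ) * F.σ))) (G.cr (x - Lm m * ((t₁ : ℂ) * F.τ + (t₂ : ℂ) * F.σ)))) ∨
          (G.cr (x - Lm m * ((t₁ : ℂ) * F.τ + (t₂ : ℂ) * F.σ)) ≤ 0 ∧
            lam j (G.cs (x - Lm m * ((t₁ : ℂ) * F.τ + (t₂ : ℂ) * F.σ))) (G.cr (x - Lm m * ((t₁ : ℂ) * F.τ + (t₂ : ℂ) * F.σ))) ≤ 0)))) := by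
  by_cases h1 : ∃ t₁ t₂ : ℤ, ∃ P ∈ hinges F m ∪ hinges (F.next (Lm m)) m ∪
      hinges ((F.next (Lm m)).next (Lm m)) m,
      ‖x - Lm m * ((t₁ : ℂ) * F.τ + (t₂ : ℂ) * F.σ) - P‖ < a
  · exact Or.inl h1
  right
  intro G hG t₁ t₂
  have hH : ∀ H : Frame, (H = F ∨ H = F.next (Lm m) ∨ H = (F.next (Lm m)).next (Lm m)) →
      ∀ P ∈ hinges H m, a ≤ ‖x - Lm m * ((t₁ : ℂ) * F.τ + (t₂ : ℂ) * F.σ) - P‖ := by
    intro H hH P hP
    by_contra hc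
    apply h1
    refine ⟨t₁, t₂, P, ?_, not_le.1 hc⟩
    rcases hH with rfl | rfl | rfl
    · exact Or.inl (Or.inl hP)
    · exact Or.inl (Or.inr hP)
    · exact Or.inr hP
  have hnx : G.next (Lm m) = F ∨ G.next (Lm m) = F.next (Lm m) ∨
      G.next (Lm m) = (F.next (Lm m)).next (Lm m) := by
    rcases hG with rfl | rfl | rfl
    · exact Or.inr (Or.inl rfl)
    · exact Or.inr (Or.inr rfl)
    · exact Or.inl (Frame.next_next_next F (Lm m))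
  have hy : x - Lm m * ((t₁ : ℂ) * F.τ + (t₂ : ℂ) * F.σ) ∉ sideG G m a := by
    intro hc
    apply hx
    refine ⟨t₁, t₂, ?_⟩
    rcases hG with rfl | rfl | rfl
    · exact Or.inl (Or.inl hc)
    · exact Or.inl (Or.inr hc)
    · exact Or.inr hc
  refine ⟨fun hE => hy (Or.inl ⟨hE, ?_, ?_, ?_⟩), fun j hj hc => hy (Or.inr ⟨j, hj, hc⟩)⟩
  · intro j hj
    exact hH G hG _ (Or.inl ⟨j, hj, rfl⟩)
  · intro i hi
    rcases Nat.lt_or_ge i m with h | h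
    · exact hH G hG _ (Or.inr (Or.inl ⟨i, h, rfl⟩))
    · have him : i = m := le_antisymm hi h
      subst him
      rw [D_next17]
      exact hH _ hnx _ (Or.inr (Or.inl ⟨0, by omega, rfl⟩))
  · intro i hi
    exact hH G hG _ (Or.inr (Or.inr ⟨i, hi, rfl⟩))


end JKC3a
export JKC3a (gam_cases)

end Porous
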