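import Pool.Agent.Porous.KA1
import Pool.Agent.Porous.KA2
import Pool.Agent.Porous.KA3
import Pool.Agent.Porous.KB1
import Pool.Agent.Porous.KB2
import Pool.Agent.Porous.KC1
import Pool.Agent.Porous.KC2
import Pool.Agent.Porous.KC3a

open MeasureTheory Complex Set
open scoped ContDiff ENNReal
noncomputable section
namespace Porous
namespace JKC3b

/-! TARGET -/

/-- auxiliary bundle -/
def auxGD (f : ℂ → ℂ) (x : ℂ) (b : ℝ) (z : Prop) : Prop :=
  ContDiffAt ℝ ∞ f x ∧ sdiv f x = 0 ∧ |sdif f x| ≤ b ∧ |sshe f x| ≤ b ∧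
    (z → sdif f x = 0 ∧ sshe f x = 0)

theorem auxGD_mono {f : ℂ → ℂ} {x : ℂ} {b b' : ℝ} {z z' : Prop} (h : auxGD f x b z) (hb : b ≤ b')
    (hz : z' → z) : auxGD f x b' z' :=
  ⟨h.1, h.2.1, h.2.2.1.trans hb, h.2.2.2.1.trans hb, fun h' => h.2.2.2.2 (hz h')⟩

theorem auxGD_congr {f g : ℂ → ℂ} {x : ℂ} {b : ℝ} {z : Prop} (h : auxGD f x b z)
    (e : g =ᶠ[nhds x] f) : auxGD g x b z := by
  obtain ⟨f1, f2, f3, f4, f5⟩ := h
  have e' := e.fderiv_eq (𝕜 := ℝ)
  refine ⟨f1.congr_of_eventuallyEq e, ?_, ?_, ?_, ?_⟩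
  · rw [sdiv, e']; exact f2
  · rw [sdif, e']; exact f3
  · rw [sshe, e']; exact f4
  · rw [sdif, sshe, e']; exact f5

theorem auxGD_const (c x : ℂ) : auxGD (fun _ => c) x 0 True := by
  refine ⟨contDiffAt_const, ?_, ?_, ?_, ?_⟩
  · simp [sdiv]
  · simp [sdif]
  · simp [sshe]
  · simp [sdif, sshe]

theorem auxGD_add {f g : ℂ → ℂ} {x : ℂ} {b c : ℝ} {z z' : Prop} (hf : auxGD f x b z)
    (hg : auxGD g x c z') : auxGD (fun y => f y + g y) x (b + c) (z ∧ z') := by
  obtain ⟨f1, f2, f3, f4, f5⟩ := hf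
  obtain ⟨g1, g2, g3, g4, g5⟩ := hg
  have df : DifferentiableAt ℝ f x := f1.differentiableAt (by simp)
  have dg : DifferentiableAt ℝ g x := g1.differentiableAt (by simp)
  have e : fderiv ℝ (fun y => f y + g y) x = fderiv ℝ f x + fderiv ℝ g x := fderiv_fun_add df dg
  have e1 : sdiv (fun y => f y + g y) x = sdiv f x + sdiv g x := by
    simp only [sdiv, e, add_apply, add_re, add_im]
    ring
  have e2 : sdif (fun y => f y + g y) x = sdif f x + sdif g x := by
    simp only [sdif, e, add_apply, add_re, add_im]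
    ring
  have e3 : sshe (fun y => f y + g y) x = sshe f x + sshe g x := by
    simp only [sshe, e, add_apply, add_re, add_im]
    ring
  refine ⟨f1.add g1, ?_, ?_, ?_, ?_⟩
  · rw [e1, f2, g2, add_zero]
  · rw [e2]
    exact (abs_add_le _ _).trans (add_le_add f3 g3)
  · rw [e3]
    exact (abs_add_le _ _).trans (add_le_add f4 g4)
  · rintro ⟨hz, hz'⟩
    rw [e2, e3, (f5 hz).1, (f5 hz).2, (g5 hz').1, (g5 hz').2]
    simp

theorem auxGD_comp {f : ℂ → ℂ} {x v : ℂ} {b : ℝ} {z : Prop} (h : auxGD f (x - v) b z) :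
    auxGD (fun y => f (y - v)) x b z := by
  obtain ⟨f1, f2, f3, f4, f5⟩ := h
  have e : fderiv ℝ (fun y => f (y - v)) x = fderiv ℝ f (x - v) := fderiv_comp_sub v
  refine ⟨?_, ?_, ?_, ?_, ?_⟩
  · exact ContDiffAt.comp x f1 (by fun_prop)
  · rw [sdiv, e]; exact f2
  · rw [sdif, e]; exact f3
  · rw [sshe, e]; exact f4
  · rw [sdif, sshe, e]; exact f5

theorem auxR_cs {F : Frame} (hF : F.good) (s r : ℝ) (x : ℂ) :
    F.cs (x - ((s : ℂ) * F.τ + (r : ℂ) * F.σ)) = F.cs x - s := by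
  have h := Frame.cs_add hF x (-s) (-r)
  have e : x - ((s : ℂ) * F.τ + (r : ℂ) * F.σ) =
      x + (((-s : ℝ) : ℂ) * F.τ + ((-r : ℝ) : ℂ) * F.σ) := by
    push_cast
    ring
  rw [e, h]
  ring

theorem auxR_cr {F : Frame} (hF : F.good) (s r : ℝ) (x : ℂ) :
    F.cr (x - ((s : ℂ) * F.τ + (r : ℂ) * F.σ)) = F.cr x - r := by
  have h := Frame.cr_add hF x (-s) (-r)
  have e : x - ((s : ℂ) * F.τ + (r : ℂ) * F.σ) =
      x + (((-s : ℝ) : ℂ) * F.τ + ((-r : ℝ) : ℂ) * F.σ) := by
    push_cast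
    ring
  rw [e, h]
  ring

/-- the displacement is smooth off the crack set, divergence free, with strain concentrated near the hinges -/
theorem vfun_main : ∃ K : ℝ, 0 < K ∧ ∀ {F : Frame} (hF : F.good) (m : ℕ) (hm : 2 ≤ m) (a w : ℝ) (ha : 0 < a)
    (ha' : a ≤ 1 / (100 * (m : ℝ))) (x : ℂ), x ∉ Gam F m a →
    ContDiffAt ℝ ∞ (vfun F m a w) x ∧ sdiv (vfun F m a w) x = 0 ∧
    |sdif (vfun F m a w) x| ≤ K * |w| * m ∧ |sshe (vfun F m a w) x| ≤ K * |w| * m ∧
    (x ∉ Zfull F m a → sdif (vfun F m a w) x = 0 ∧ sshe (vfun F m a w) x = 0) := by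
  obtain ⟨K1, hK1, hlow⟩ := low_smooth
  obtain ⟨K2, hK2, hup⟩ := up_smooth
  refine ⟨3 * (K1 + K2), by positivity, ?_⟩
  intro F hF m hm a w ha ha' x hx
  have hm1 : (1 : ℝ) ≤ m := by exact_mod_cast (by omega : 1 ≤ m)
  have ha'' : a ≤ 1 / 100 :=
    ha'.trans (one_div_le_one_div_of_le (by norm_num) (by linarith))
  have hL : 0 < Lm m := by
    unfold Lm
    positivity
  have hb0 : 0 ≤ 3 * (K1 + K2) * |w| * m := by positivity
  have hb1 : K1 * |w| * m + K1 * |w| * m + K1 * |w| * m ≤ 3 * (K1 + K2) * |w| * m := by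
    have : 0 ≤ K2 * |w| * m := by positivity
    nlinarith
  have hb2 : 0 + K2 * |w| * m + K2 * |w| * m + K2 * |w| * m ≤ 3 * (K1 + K2) * |w| * m := by
    have : 0 ≤ K1 * |w| * m := by positivity
    nlinarith
  show auxGD (vfun F m a w) x (3 * (K1 + K2) * |w| * m) (x ∉ Zfull F m a)
  have hred : ∀ (t₁ t₂ : ℤ) (b : ℝ) (z : Prop),
      auxGD (vfun F m a w) (x - Lm m * ((t₁ : ℂ) * F.τ + (t₂ : ℂ) * F.σ)) b z →
      auxGD (vfun F m a w) x b z := by
    intro t₁ t₂ b z h
    have h1 := auxGD_add (auxGD_comp h) (auxGD_const (Tr F m w t₁ t₂) x)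
    refine auxGD_mono (auxGD_congr h1 ?_) (by rw [add_zero]) (fun hz => ⟨hz, trivial⟩)
    refine Filter.Eventually.of_forall (fun y => ?_)
    show vfun F m a w y = vfun F m a w (y - Lm m * ((t₁ : ℂ) * F.τ + (t₂ : ℂ) * F.σ)) +
      Tr F m w t₁ t₂
    rw [← vfun_add hF m a w t₁ t₂, sub_add_cancel]
  rcases gam_cases hF m hm a ha x hx with ⟨t₁, t₂, P, hP, hball⟩ | hB
  · obtain ⟨c, hc⟩ := vfun_hinge hF m hm a w ha ha' P hP
    apply hred t₁ t₂
    refine auxGD_mono (auxGD_congr (auxGD_const c _) ?_) hb0 (fun _ => trivial)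
    have hcont : Continuous (fun x' : ℂ => ‖x' - P‖) := by fun_prop
    filter_upwards [hcont.continuousAt.eventually_lt_const hball] with x' hx'
    exact hc x' hx'
  · obtain ⟨t₁, ht₁⟩ : ∃ t : ℤ, t = ⌈F.cs x / Lm m⌉ - 1 := ⟨_, rfl⟩
    obtain ⟨t₂, ht₂⟩ : ∃ t : ℤ, t = ⌈F.cr x / Lm m⌉ - 1 := ⟨_, rfl⟩
    obtain ⟨y, hy⟩ : ∃ y : ℂ, y = x - Lm m * ((t₁ : ℂ) * F.τ + (t₂ : ℂ) * F.σ) := ⟨_, rfl⟩
    have hy' : y = x - (((Lm m * t₁ : ℝ) : ℂ) * F.τ + ((Lm m * t₂ : ℝ) : ℂ) * F.σ) := by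
      rw [hy]
      push_cast
      ring
    have hsy : F.cs y = F.cs x - Lm m * t₁ := by rw [hy', auxR_cs hF]
    have hry : F.cr y = F.cr x - Lm m * t₂ := by rw [hy', auxR_cr hF]
    have hs0 : 0 < F.cs y := by
      have h1 := Int.ceil_lt_add_one (F.cs x / Lm m)
      have h2 : (t₁ : ℝ) < F.cs x / Lm m := by
        rw [ht₁]
        push_cast
        linarith
      rw [lt_div_iff₀ hL] at h2
      rw [hsy]
      linarith
    have hr0 : 0 < F.cr y := by
      have h1 := Int.ceil_lt_add_one (F.cr x / Lm m)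
      have h2 : (t₂ : ℝ) < F.cr x / Lm m := by
        rw [ht₂]
        push_cast
        linarith
      rw [lt_div_iff₀ hL] at h2
      rw [hry]
      linarith
    have hs1 : F.cs y ≤ Lm m := by
      have h1 := Int.le_ceil (F.cs x / Lm m)
      have h2 : F.cs x / Lm m ≤ t₁ + 1 := by
        rw [ht₁]
        push_cast
        linarith
      rw [div_le_iff₀ hL] at h2
      rw [hsy]
      linarith
    have hr1 : F.cr y ≤ Lm m := by
      have h1 := Int.le_ceil (F.cr x / Lm m)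
      have h2 : F.cr x / Lm m ≤ t₂ + 1 := by
        rw [ht₂]
        push_cast
        linarith
      rw [div_le_iff₀ hL] at h2
      rw [hry]
      linarith
    have hF1 := Frame.good_next hF (Lm m)
    have hF2 := Frame.good_next hF1 (Lm m)
    have c1 : ∀ p, (F.next (Lm m)).cs p = F.cr p := fun p => Frame.cs_next hF _ p
    have d1 : ∀ p, (F.next (Lm m)).cr p = Lm m - F.cs p - F.cr p := fun p => Frame.cr_next hF _ p
    have c2 : ∀ p, ((F.next (Lm m)).next (Lm m)).cs p = Lm m - F.cs p - F.cr p := fun p => by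
      rw [Frame.cs_next hF1, d1]
    have d2 : ∀ p, ((F.next (Lm m)).next (Lm m)).cr p = F.cs p := fun p => by
      rw [Frame.cr_next hF1, c1, d1]
      ring
    have p10 : x - Lm m * (((t₁ + 1 : ℤ) : ℂ) * F.τ + (t₂ : ℂ) * F.σ) = y - Lm m * F.τ := by
      rw [hy]
      push_cast
      ring
    have p01 : x - Lm m * ((t₁ : ℂ) * F.τ + ((t₂ + 1 : ℤ) : ℂ) * F.σ) = y - Lm m * F.σ := by
      rw [hy]
      push_cast
      ring
    have q10 : y - Lm m * F.τ = y - (((Lm m : ℝ) : ℂ) * F.τ + ((0 : ℝ) : ℂ) * F.σ) := by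
      push_cast
      ring
    have q01 : y - Lm m * F.σ = y - (((0 : ℝ) : ℂ) * F.τ + ((Lm m : ℝ) : ℂ) * F.σ) := by
      push_cast
      ring
    have s10 : F.cs (y - Lm m * F.τ) = F.cs y - Lm m := by rw [q10, auxR_cs hF]
    have r10 : F.cr (y - Lm m * F.τ) = F.cr y := by rw [q10, auxR_cr hF, sub_zero]
    have s01 : F.cs (y - Lm m * F.σ) = F.cs y := by rw [q01, auxR_cs hF, sub_zero]
    have r01 : F.cr (y - Lm m * F.σ) = F.cr y - Lm m := by rw [q01, auxR_cr hF]
    have B00 := fun G hG => hB G hG t₁ t₂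
    have B10 := fun G hG => hB G hG (t₁ + 1) t₂
    have B01 := fun G hG => hB G hG t₁ (t₂ + 1)
    rw [← hy] at B00
    rw [p10] at B10
    rw [p01] at B01
    have hr2 : F.cr y < Lm m := by
      refine lt_of_le_of_ne hr1 (fun h => ?_)
      apply (B01 F (Or.inl rfl)).1
      left
      refine ⟨?_, ?_, ?_⟩
      · show F.cr (y - Lm m * F.σ) = 0
        rw [r01, h, sub_self]
      · show 0 ≤ F.cs (y - Lm m * F.σ)
        rw [s01]
        exact hs0.le
      · show F.cs (y - Lm m * F.σ) ≤ Lm m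
        rw [s01]
        exact hs1
    have hs2 : F.cs y < Lm m := by
      refine lt_of_le_of_ne hs1 (fun h => ?_)
      apply (B10 ((F.next (Lm m)).next (Lm m)) (Or.inr (Or.inr rfl))).1
      left
      refine ⟨?_, ?_, ?_⟩
      · show ((F.next (Lm m)).next (Lm m)).cr (y - Lm m * F.τ) = 0
        rw [d2, s10, h, sub_self]
      · show 0 ≤ ((F.next (Lm m)).next (Lm m)).cs (y - Lm m * F.τ)
        rw [c2, s10, r10]
        linarith
      · show ((F.next (Lm m)).next (Lm m)).cs (y - Lm m * F.τ) ≤ Lm m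
        rw [c2, s10, r10]
        linarith
    have hsr : F.cs y + F.cr y ≠ Lm m := by
      intro h
      apply (B00 (F.next (Lm m)) (Or.inr (Or.inl rfl))).1
      left
      refine ⟨?_, ?_, ?_⟩
      · show (F.next (Lm m)).cr y = 0
        rw [d1]
        linarith
      · show 0 ≤ (F.next (Lm m)).cs y
        rw [c1]
        exact hr0.le
      · show (F.next (Lm m)).cs y ≤ Lm m
        rw [c1]
        exact hr1
    apply hred t₁ t₂
    rw [← hy]
    have hccs := (Frame.continuous_cs F).continuousAt (x := y)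
    have hccr := (Frame.continuous_cr F).continuousAt (x := y)
    have hccsr := hccs.add hccr
    rcases lt_or_gt_of_ne hsr with h | h
    · -- black
      have hA : ∀ G : Frame, G.good →
          (G = F ∨ G = F.next (Lm m) ∨ G = (F.next (Lm m)).next (Lm m)) →
          0 < G.cs y → 0 < G.cr y → G.cs y + G.cr y < Lm m →
          (Lm m - G.cs y - G.cr y, G.cs y) ∉ Edges m →
          auxGD (low G m a w) y (K1 * |w| * m) (y ∉ Zs G m a) :=
        fun G hG hG' h1 h2 h3 h4 => hlow hG m hm a w ha ha'' y h1 h2 h3 (B00 G hG').1 h4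
          (fun j hj hh => (B00 G hG').2 j hj ⟨hh.1, Or.inl ⟨h2.le, hh.2⟩⟩)
      have g0 := hA F hF (Or.inl rfl) hs0 hr0 h (by
        have := (B00 ((F.next (Lm m)).next (Lm m)) (Or.inr (Or.inr rfl))).1
        rw [c2, d2] at this
        exact this)
      have g1 := hA (F.next (Lm m)) hF1 (Or.inr (Or.inl rfl)) (by rw [c1]; exact hr0)
        (by rw [d1]; linarith) (by rw [c1, d1]; linarith) (by
        have := (B00 F (Or.inl rfl)).1
        rw [c1, d1]
        have e : Lm m - F.cr y - (Lm m - F.cs y - F.cr y) = F.cs y := by ring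
        rw [e]
        exact this)
      have g2 := hA ((F.next (Lm m)).next (Lm m)) hF2 (Or.inr (Or.inr rfl))
        (by rw [c2]; linarith) (by rw [d2]; exact hs0) (by rw [c2, d2]; linarith) (by
        have := (B00 (F.next (Lm m)) (Or.inr (Or.inl rfl))).1
        rw [c1, d1] at this
        rw [c2, d2]
        have e : Lm m - (Lm m - F.cs y - F.cr y) - F.cs y = F.cr y := by ring
        rw [e]
        exact this)
      refine auxGD_mono (auxGD_congr (auxGD_add (auxGD_add g0 g1) g2) ?_) hb1 ?_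
      · filter_upwards [hccs.eventually_const_lt hs0, hccr.eventually_const_lt hr0,
          hccsr.eventually_lt_const h] with p h1 h2 h3
        rw [vfun_black hF m a w p h1 h2 h3]
        rfl
      · intro hz
        exact ⟨⟨fun h' => hz ⟨t₁, t₂, by rw [← hy]; exact Or.inl (Or.inl h')⟩,
          fun h' => hz ⟨t₁, t₂, by rw [← hy]; exact Or.inl (Or.inr h')⟩⟩,
          fun h' => hz ⟨t₁, t₂, by rw [← hy]; exact Or.inr h'⟩⟩
    · -- white
      have hh : ∀ (G : Frame) (q : ℂ), G.good → G.cr q < 0 → (G.cs q, G.cr q) ∉ Edges m →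
          (∀ j < 2 * m, ¬ (‖q - G.N j‖ = 3 * a / 2 ∧
            ((0 ≤ G.cr q ∧ 0 ≤ lam j (G.cs q) (G.cr q)) ∨
              (G.cr q ≤ 0 ∧ lam j (G.cs q) (G.cr q) ≤ 0)))) →
          auxGD (up G m a w) q (K2 * |w| * m) (q ∉ Zs G m a) :=
        fun G q hG h1 h2 h3 => hup hG m hm a w ha ha'' q h1 h2
          (fun j hj h4 => h3 j hj ⟨h4.1, Or.inr ⟨h1.le, h4.2⟩⟩)
      have g1 := hh (F.next (Lm m)) y hF1 (by rw [d1]; linarith)
        (B00 _ (Or.inr (Or.inl rfl))).1 (B00 _ (Or.inr (Or.inl rfl))).2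
      have g2 := hh ((F.next (Lm m)).next (Lm m)) (y - Lm m * F.τ) hF2
        (by rw [d2, s10]; linarith)
        (B10 _ (Or.inr (Or.inr rfl))).1 (B10 _ (Or.inr (Or.inr rfl))).2
      have g3 := hh F (y - Lm m * F.σ) hF (by rw [r01]; linarith)
        (B01 _ (Or.inl rfl)).1 (B01 _ (Or.inl rfl)).2
      refine auxGD_mono (auxGD_congr (auxGD_add (auxGD_add (auxGD_add
        (auxGD_const (I * w * (1 / Lm m : ℝ) * (F.next (Lm m)).σ) y) g1)
        (auxGD_comp g2)) (auxGD_comp g3)) ?_) hb2 ?_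
      · filter_upwards [hccs.eventually_lt_const hs2, hccr.eventually_lt_const hr2,
          hccsr.eventually_const_lt h] with p h1 h2 h3
        rw [vfun_white hF m a w p (F.next (Lm m)) (Or.inr (Or.inl rfl))
          (by rw [d1]; simp only [Pi.add_apply] at h3; linarith) (by rw [c1, d1]; linarith)
          (by rw [c1]; exact h2)]
        have e1 : -(↑(Lm m) * (F.next (Lm m)).σ) = Lm m * F.τ := by
          show -(↑(Lm m) * (-F.τ)) = _
          ring
        have e2 : ↑(Lm m) * ((F.next (Lm m)).τ - (F.next (Lm m)).σ) = Lm m * F.σ := by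
          show ↑(Lm m) * ((F.σ - F.τ) - (-F.τ)) = _
          ring
        unfold whiteV
        rw [Frame.next_next_next, e1, e2, up_shift, up_shift]
      · intro hz
        exact ⟨⟨⟨trivial, fun h' => hz ⟨t₁, t₂, by rw [← hy]; exact Or.inl (Or.inr h')⟩⟩,
          fun h' => hz ⟨t₁ + 1, t₂, by rw [p10]; exact Or.inr h'⟩⟩,
          fun h' => hz ⟨t₁, t₂ + 1, by rw [p01]; exact Or.inl (Or.inl h')⟩⟩


end JKC3b
export JKC3b (vfun_main)

end Porous
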