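import Pool.Agent.Porous.ZT
import Pool.Agent.Porous.IsoMod

open MeasureTheory Complex Set Filter Topology
open scoped ContDiff ENNReal
noncomputable section
namespace Porous

/-- The pairs `(κ_*, μ_*)` of moduli of the isotropic tensors that are limits of the effective tensors of a sequence of
composites of the elastic phase `(κ, μ)` with void, all periodic for the lattice of the given basis `b`
(`b = Complex.basisOneI` is the lattice `ℤ²`). -/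
def LimModuli (b : Module.Basis (Fin 2) ℝ ℂ) (κ : ℝ≥0∞) (μ : ℝ) : Set (ℝ × ℝ) :=
  {p | 0 ≤ p.1 ∧ 0 ≤ p.2 ∧ ∃ Ω : ℕ → Set ℂ, (∀ n, MeasurableSet (Ω n)) ∧
    (∀ (n : ℕ) (i : Fin 2) (x : ℂ), x + b i ∈ Ω n ↔ x ∈ Ω n) ∧
    ∀ e₁₁ e₂₂ e₁₂ : ℝ, Tendsto (fun n => effE b (Ω n) κ μ e₁₁ e₂₂ e₁₂) atTop
      (𝓝 (ENNReal.ofReal (p.1 * (e₁₁ + e₂₂) ^ 2 + p.2 * ((e₁₁ - e₂₂) ^ 2 + 4 * e₁₂ ^ 2))))}

theorem LimModuli_le {b : Module.Basis (Fin 2) ℝ ℂ} {κ : ℝ≥0∞} {μ : ℝ} (hμ : 0 < μ) {p : ℝ × ℝ}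
    (hp : p ∈ LimModuli b κ μ) : p.2 ≤ μ := by
  obtain ⟨h1, h2, Ω, hm, hper, he⟩ := hp
  have h3 := he 1 (-1) 0
  have h4 : ∀ n, effE b (Ω n) κ μ 1 (-1) 0 ≤ ENNReal.ofReal (μ * ((1 + 1) ^ 2 + 4 * (0 : ℝ) ^ 2)) :=
    fun n => effE_le_dev b (Ω n) κ μ hμ 1 0
  have h5 := le_of_tendsto' h3 h4
  have h6 : p.1 * (1 + -1) ^ 2 + p.2 * ((1 - -1) ^ 2 + 4 * 0 ^ 2) = 4 * p.2 := by ring
  have h7 : μ * ((1 + 1) ^ 2 + 4 * (0 : ℝ) ^ 2) = 4 * μ := by ring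
  rw [h6, h7] at h5
  rw [ENNReal.ofReal_le_ofReal_iff (by positivity)] at h5
  linarith

theorem LimModuli_mem (b : Module.Basis (Fin 2) ℝ ℂ) (κ : ℝ≥0∞) (hκ : κ ≠ 0) (μ : ℝ) (hμ : 0 < μ) :
    ((0 : ℝ), μ) ∈ LimModuli b κ μ := by
  have key := fun n : ℕ => any_cell_main b κ hκ μ hμ (1 / ((n : ℝ) + 1)) (by positivity)
  choose Ω hm hper he using key
  refine ⟨le_refl _, hμ.le, Ω, hm, hper, fun e₁₁ e₂₂ e₁₂ => ?_⟩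
  have h1 : Tendsto (fun n : ℕ => (effE b (Ω n) κ μ e₁₁ e₂₂ e₁₂).toReal) atTop
      (𝓝 (μ * ((e₁₁ - e₂₂) ^ 2 + 4 * e₁₂ ^ 2))) := by
    rw [tendsto_iff_dist_tendsto_zero]
    have h2 : Tendsto (fun n : ℕ => 1 / ((n : ℝ) + 1) * (e₁₁ ^ 2 + e₂₂ ^ 2 + e₁₂ ^ 2)) atTop (𝓝 0) := by
      have := tendsto_one_div_add_atTop_nhds_zero_nat (𝕜 := ℝ)
      simpa using this.mul_const (e₁₁ ^ 2 + e₂₂ ^ 2 + e₁₂ ^ 2)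
    refine squeeze_zero (fun n => dist_nonneg) (fun n => ?_) h2
    rw [Real.dist_eq]
    exact (he n e₁₁ e₂₂ e₁₂).2
  have h3 := ENNReal.tendsto_ofReal h1
  have h4 : (0 : ℝ) * (e₁₁ + e₂₂) ^ 2 + μ * ((e₁₁ - e₂₂) ^ 2 + 4 * e₁₂ ^ 2) =
      μ * ((e₁₁ - e₂₂) ^ 2 + 4 * e₁₂ ^ 2) := by ring
  show Tendsto _ _ (𝓝 (ENNReal.ofReal ((0 : ℝ) * (e₁₁ + e₂₂) ^ 2 + μ * ((e₁₁ - e₂₂) ^ 2 + 4 * e₁₂ ^ 2))))
  rw [h4]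
  refine h3.congr (fun n => ?_)
  exact ENNReal.ofReal_toReal (he n e₁₁ e₂₂ e₁₂).1

theorem closure_snd_le {A : Set (ℝ × ℝ)} {μ : ℝ} (h : ∀ p ∈ A, p.2 ≤ μ) : ∀ p ∈ closure A, p.2 ≤ μ := by
  intro p hp
  have hc : IsClosed {q : ℝ × ℝ | q.2 ≤ μ} := isClosed_le continuous_snd continuous_const
  exact (closure_minimal (fun q hq => h q hq) hc) hp

theorem isGreatest_Iso (κ : ℝ≥0∞) (hκ : κ ≠ 0) (μ : ℝ) (hμ : 0 < μ) :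
    IsGreatest {m : ℝ | ((0 : ℝ), m) ∈ closure (IsoModuli κ μ)} μ :=
  ⟨IsoModuli_mem_closure κ hκ μ hμ, fun m hm =>
    closure_snd_le (fun _ hp => IsoModuli_le hμ hp) ((0 : ℝ), m) hm⟩

theorem isGreatest_Lim (b : Module.Basis (Fin 2) ℝ ℂ) (κ : ℝ≥0∞) (hκ : κ ≠ 0) (μ : ℝ) (hμ : 0 < μ) :
    IsGreatest {m : ℝ | ((0 : ℝ), m) ∈ closure (LimModuli b κ μ)} μ :=
  ⟨subset_closure (LimModuli_mem b κ hκ μ hμ), fun m hm =>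
    closure_snd_le (fun _ hp => LimModuli_le hμ hp) ((0 : ℝ), m) hm⟩

theorem LimModuli_isLUB (b : Module.Basis (Fin 2) ℝ ℂ) (κ : ℝ≥0∞) (hκ : κ ≠ 0) (μ : ℝ) (hμ : 0 < μ) (c : ℝ) (hc : 0 < c) :
    IsLUB ((fun p : ℝ × ℝ => p.2 - c * p.1) '' LimModuli b κ μ) μ := by
  constructor
  · rintro v ⟨p, hp, rfl⟩
    have h1 := LimModuli_le hμ hp
    have h2 : 0 ≤ c * p.1 := mul_nonneg hc.le hp.1
    show p.2 - c * p.1 ≤ μ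
    linarith
  · intro v hv
    have := hv ⟨((0 : ℝ), μ), LimModuli_mem b κ hκ μ hμ, rfl⟩
    simpa using this

end Porous
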