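import Pool.Agent.Porous.K1

open MeasureTheory Complex Set
open scoped ContDiff ENNReal
noncomputable section
namespace Porous
namespace JS1

/-! TARGET -/

/-- bump -/
def bet (x : ℂ) : ℝ := Real.smoothTransition (0.7225 - ‖x‖ ^ 2)

theorem bet_smooth : ContDiff ℝ ∞ bet := by
  unfold bet
  exact Real.smoothTransition.contDiff.comp (contDiff_const.sub (contDiff_norm_sq ℝ))

theorem bet_nonneg (x : ℂ) : 0 ≤ bet x := Real.smoothTransition.nonneg _

theorem bet_zero {x : ℂ} (h : 0.85 ≤ ‖x‖) : bet x = 0 := by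
  unfold bet
  apply Real.smoothTransition.zero_of_nonpos
  norm_num at h ⊢
  nlinarith

theorem bet_pos {x : ℂ} (h : ‖x‖ ^ 2 < 0.7225) : 0 < bet x := by
  unfold bet
  apply Real.smoothTransition.pos_of_pos
  linarith

theorem zt_re : zt.re = 1 / 2 := rfl
theorem zt_im : zt.im = Real.sqrt 3 / 2 := rfl

theorem sq3 : Real.sqrt 3 * Real.sqrt 3 = 3 := Real.mul_self_sqrt (by norm_num)

theorem norm_zt : ‖zt‖ = 1 := by
  have h : ‖zt‖ ^ 2 = 1 := by
    rw [← Complex.normSq_eq_norm_sq, Complex.normSq_apply, zt_re, zt_im]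
    have := sq3
    nlinarith
  have h0 : 0 ≤ ‖zt‖ := norm_nonneg _
  nlinarith

theorem lp_re (p : ℤ × ℤ) : (lp p).re = p.1 + p.2 / 2 := by
  unfold lp
  simp [zt_re, zt_im]
  ring

theorem lp_im (p : ℤ × ℤ) : (lp p).im = p.2 * (Real.sqrt 3 / 2) := by
  unfold lp
  simp [zt_re, zt_im]

theorem norm_coord (y : ℂ) : ‖y‖ ^ 2 = (y.re - y.im / Real.sqrt 3) ^ 2 +
    (y.re - y.im / Real.sqrt 3) * (2 * y.im / Real.sqrt 3) + (2 * y.im / Real.sqrt 3) ^ 2 := by
  have h3 : Real.sqrt 3 ≠ 0 := by positivity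
  have hs := sq3
  rw [← Complex.normSq_eq_norm_sq, Complex.normSq_apply]
  have e1 : (y.im / Real.sqrt 3) ^ 2 = y.im ^ 2 / 3 := by
    rw [div_pow, sq (Real.sqrt 3), hs]
  have e2 : 2 * y.im / Real.sqrt 3 = 2 * (y.im / Real.sqrt 3) := by ring
  rw [e2]
  nlinarith

/-- lattice coordinates of a difference are small -/
theorem coord_small (x : ℂ) (p : ℤ × ℤ) (ρ : ℝ) (h : ‖x - lp p‖ < ρ) :
    3 / 4 * (x.re - x.im / Real.sqrt 3 - p.1) ^ 2 < ρ ^ 2 ∧
    3 / 4 * (2 * x.im / Real.sqrt 3 - p.2) ^ 2 < ρ ^ 2 := by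
  have h3 : Real.sqrt 3 ≠ 0 := by positivity
  have hn := norm_coord (x - lp p)
  have hlt : ‖x - lp p‖ ^ 2 < ρ ^ 2 := by
    apply pow_lt_pow_left₀ h (norm_nonneg _) (by norm_num)
  have e1 : (x - lp p).re - (x - lp p).im / Real.sqrt 3 = x.re - x.im / Real.sqrt 3 - p.1 := by
    rw [Complex.sub_re, Complex.sub_im, lp_re, lp_im]
    field_simp
    ring
  have e2 : 2 * (x - lp p).im / Real.sqrt 3 = 2 * x.im / Real.sqrt 3 - p.2 := by
    rw [Complex.sub_im, lp_im]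
    field_simp
  rw [e1, e2] at hn
  set a := x.re - x.im / Real.sqrt 3 - p.1
  set b := 2 * x.im / Real.sqrt 3 - p.2
  constructor
  · nlinarith [sq_nonneg (a / 2 + b)]
  · nlinarith [sq_nonneg (a + b / 2)]

/-- at most four lattice points are within `0.865` -/
theorem card_near (x : ℂ) (S : Finset (ℤ × ℤ)) (hS : ∀ p ∈ S, ‖x - lp p‖ < 0.865) :
    S.card ≤ 4 := by
  set s := x.re - x.im / Real.sqrt 3
  set r := 2 * x.im / Real.sqrt 3
  have hsub : S ⊆ Finset.Icc ⌊s⌋ (⌊s⌋ + 1) ×ˢ Finset.Icc ⌊r⌋ (⌊r⌋ + 1) := by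
    intro p hp
    obtain ⟨h1, h2⟩ := coord_small x p 0.865 (hS p hp)
    have key : ∀ (t : ℝ) (q : ℤ), 3 / 4 * (t - q) ^ 2 < (0.865:ℝ) ^ 2 → ⌊t⌋ ≤ q ∧ q ≤ ⌊t⌋ + 1 := by
      intro t q h
      have hlt : (t - q) ^ 2 < 1 ^ 2 := by
        norm_num at h
        rw [one_pow]
        linarith
      have habs : |t - q| < 1 := by
        have := abs_lt_of_sq_lt_sq hlt (by norm_num)
        exact this
      rw [abs_lt] at habs
      have f1 : (⌊t⌋ : ℝ) ≤ t := Int.floor_le t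
      have f2 : t < ⌊t⌋ + 1 := Int.lt_floor_add_one t
      constructor
      · have : (⌊t⌋ : ℝ) < q + 1 := by linarith
        have : ⌊t⌋ < q + 1 := by exact_mod_cast this
        omega
      · have : (q : ℝ) < ⌊t⌋ + 2 := by linarith
        have : q < ⌊t⌋ + 2 := by exact_mod_cast this
        omega
    rw [Finset.mem_product, Finset.mem_Icc, Finset.mem_Icc]
    exact ⟨key s p.1 h1, key r p.2 h2⟩
  refine (Finset.card_le_card hsub).trans ?_
  rw [Finset.card_product, Int.card_Icc, Int.card_Icc]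
  have e1 : (⌊s⌋ + 1 + 1 - ⌊s⌋).toNat = 2 := by
    have : ⌊s⌋ + 1 + 1 - ⌊s⌋ = 2 := by ring
    rw [this]; rfl
  have e2 : (⌊r⌋ + 1 + 1 - ⌊r⌋).toNat = 2 := by
    have : ⌊r⌋ + 1 + 1 - ⌊r⌋ = 2 := by ring
    rw [this]; rfl
  rw [e1, e2]

/-- a finite set of lattice points controlling a disc -/
theorem fin_near (R : ℝ) : ∃ B : Finset (ℤ × ℤ), ∀ x : ℂ, ‖x‖ ≤ R → ∀ p, p ∉ B →
    bet (x - lp p) = 0 := by
  set N : ℤ := ⌈2 * (|R| + 1)⌉ with hN
  refine ⟨Finset.Icc (-N) N ×ˢ Finset.Icc (-N) N, ?_⟩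
  intro x hx p hp
  apply bet_zero
  by_contra hcon
  push Not at hcon
  apply hp
  have hnp : ‖(0:ℂ) - lp p‖ < |R| + 1 := by
    have h1 : ‖(0:ℂ) - lp p‖ ≤ ‖x - lp p‖ + ‖x‖ := by
      calc ‖(0:ℂ) - lp p‖ = ‖(x - lp p) - x‖ := by congr 1; ring
        _ ≤ ‖x - lp p‖ + ‖x‖ := norm_sub_le _ _
    have h2 := le_abs_self R
    norm_num at hcon
    linarith
  obtain ⟨h1, h2⟩ := coord_small 0 p (|R| + 1) hnp
  simp only [Complex.zero_re, Complex.zero_im, zero_div, mul_zero, sub_zero, zero_sub] at h1 h2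
  have hR0 : 0 ≤ |R| + 1 := by positivity
  have key : ∀ q : ℤ, 3 / 4 * (-(q:ℝ)) ^ 2 < (|R| + 1) ^ 2 → -N ≤ q ∧ q ≤ N := by
    intro q h
    have hlt : (q:ℝ) ^ 2 < (2 * (|R| + 1)) ^ 2 := by nlinarith
    have habs : |(q:ℝ)| < 2 * (|R| + 1) := abs_lt_of_sq_lt_sq hlt (by linarith)
    have hN' : 2 * (|R| + 1) ≤ N := Int.le_ceil _
    rw [abs_lt] at habs
    constructor
    · have : (-(N:ℝ)) < q := by linarith
      have : -N < q := by exact_mod_cast this
      omega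
    · have : (q:ℝ) < N := by linarith
      have : q < N := by exact_mod_cast this
      omega
  rw [Finset.mem_product, Finset.mem_Icc, Finset.mem_Icc]
  exact ⟨key p.1 h1, key p.2 h2⟩

/-- the lattice sum -/
def SS (x : ℂ) : ℝ := ∑' p : ℤ × ℤ, bet (x - lp p)

theorem SS_summable (x : ℂ) : Summable (fun p : ℤ × ℤ => bet (x - lp p)) := by
  obtain ⟨B, hB⟩ := fin_near ‖x‖
  exact summable_of_ne_finset_zero (s := B) (fun p hp => hB x (le_refl _) p hp)

theorem SS_smooth : ContDiff ℝ ∞ SS := by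
  rw [contDiff_iff_contDiffAt]
  intro x0
  obtain ⟨B, hB⟩ := fin_near (‖x0‖ + 1)
  have h1 : ContDiff ℝ ∞ (fun x => ∑ p ∈ B, bet (x - lp p)) := by
    apply ContDiff.sum
    intro p _
    exact bet_smooth.comp (contDiff_id.sub contDiff_const)
  apply h1.contDiffAt.congr_of_eventuallyEq
  have hb : Metric.ball x0 1 ∈ nhds x0 := Metric.ball_mem_nhds x0 one_pos
  filter_upwards [hb] with x hx
  unfold SS
  apply tsum_eq_sum
  intro p hp
  apply hB x _ p hp
  rw [Metric.mem_ball, dist_eq_norm] at hx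
  calc ‖x‖ = ‖(x - x0) + x0‖ := by congr 1; ring
    _ ≤ ‖x - x0‖ + ‖x0‖ := norm_add_le _ _
    _ ≤ ‖x0‖ + 1 := by linarith

theorem SS_pos (x : ℂ) : 0 < SS x := by
  have h3 : 0 < Real.sqrt 3 := by positivity
  set p2 : ℤ := round (2 * x.im / Real.sqrt 3) with hp2
  set p1 : ℤ := round (x.re - p2 / 2) with hp1
  have a1 := abs_sub_round (x.re - (p2 : ℝ) / 2)
  have a2 := abs_sub_round (2 * x.im / Real.sqrt 3)
  rw [← hp1] at a1
  rw [← hp2] at a2
  have hnorm : ‖x - lp (p1, p2)‖ ^ 2 < 0.7225 := by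
    rw [← Complex.normSq_eq_norm_sq, Complex.normSq_apply, Complex.sub_re, Complex.sub_im, lp_re,
      lp_im]
    have e1 : x.re - (((p1, p2) : ℤ × ℤ).1 + ((p1, p2) : ℤ × ℤ).2 / 2) = x.re - (p2:ℝ) / 2 - p1 := by
      simp only; ring
    have e2 : x.im - ((p1, p2) : ℤ × ℤ).2 * (Real.sqrt 3 / 2) =
        Real.sqrt 3 / 2 * (2 * x.im / Real.sqrt 3 - p2) := by
      simp only
      field_simp
    rw [e1, e2]
    rw [abs_le] at a1 a2
    set u := x.re - (p2:ℝ) / 2 - p1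
    set v := 2 * x.im / Real.sqrt 3 - p2
    have hu : u ^ 2 ≤ 1 / 4 := by nlinarith
    have hv : v ^ 2 ≤ 1 / 4 := by nlinarith
    have hs := sq3
    have e3 : Real.sqrt 3 / 2 * v * (Real.sqrt 3 / 2 * v) = 3 / 4 * v ^ 2 := by
      have : Real.sqrt 3 / 2 * v * (Real.sqrt 3 / 2 * v) = (Real.sqrt 3 * Real.sqrt 3) / 4 * v ^ 2 := by ring
      rw [this, hs]
    rw [e3]
    norm_num
    nlinarith
  have hpos := bet_pos hnorm
  unfold SS
  exact (SS_summable x).tsum_pos (fun p => bet_nonneg _) (p1, p2) hpos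

theorem lp_add (p q : ℤ × ℤ) : lp (p + q) = lp p + lp q := by
  unfold lp
  simp only [Prod.fst_add, Prod.snd_add]
  push_cast
  ring

theorem lp_sub (p q : ℤ × ℤ) : lp (p - q) = lp p - lp q := by
  unfold lp
  simp only [Prod.fst_sub, Prod.snd_sub]
  push_cast
  ring

theorem SS_shift (x : ℂ) (q : ℤ × ℤ) : SS (x - lp q) = SS x := by
  unfold SS
  rw [← (Equiv.addRight q).tsum_eq (fun p : ℤ × ℤ => bet (x - lp p))]
  congr 1
  funext p
  rw [Equiv.coe_addRight, lp_add]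
  congr 1
  ring

theorem zt_sq : zt * zt = zt - 1 := by
  apply Complex.ext
  · rw [Complex.mul_re, Complex.sub_re, zt_re, zt_im, Complex.one_re]
    have := sq3
    nlinarith
  · rw [Complex.mul_im, Complex.sub_im, zt_re, zt_im, Complex.one_im]
    ring

/-- rotation of the lattice -/
def rotE : ℤ × ℤ ≃ ℤ × ℤ where
  toFun p := (-p.2, p.1 + p.2)
  invFun p := (p.1 + p.2, -p.1)
  left_inv p := by ext <;> simp
  right_inv p := by ext <;> simp

theorem lp_rot (p : ℤ × ℤ) : lp (rotE p) = zt * lp p := by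
  unfold lp rotE
  simp only [Equiv.coe_fn_mk]
  push_cast
  have h := zt_sq
  linear_combination (-(p.2 : ℂ)) * h

theorem bet_rot (x : ℂ) : bet (zt * x) = bet x := by
  unfold bet
  rw [norm_mul, norm_zt, one_mul]

theorem SS_rot (x : ℂ) : SS (zt * x) = SS x := by
  unfold SS
  rw [← rotE.tsum_eq (fun p : ℤ × ℤ => bet (zt * x - lp p))]
  congr 1
  funext p
  rw [lp_rot, ← mul_sub, bet_rot]

/-- lattice partition of unity -/
theorem exists_theta : ∃ θ : ℂ → ℝ, ThetaOK θ := by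
  refine ⟨fun x => bet x / SS x, ?_, ?_, ?_, ?_, ?_⟩
  · exact bet_smooth.div SS_smooth (fun x => (SS_pos x).ne')
  · intro x hx
    show bet x / SS x = 0
    rw [bet_zero (by norm_num at hx ⊢; linarith), zero_div]
  · intro x
    show bet (zt * x) / SS (zt * x) = bet x / SS x
    rw [bet_rot, SS_rot]
  · intro x
    exact div_nonneg (bet_nonneg x) (SS_pos x).le
  · intro x
    show ∑' p : ℤ × ℤ, bet (x - lp p) / SS (x - lp p) = 1
    simp_rw [SS_shift]
    rw [tsum_div_const]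
    exact div_self (SS_pos x).ne'

/-- at most four lattice points are active at a given point -/
theorem active_card {θ : ℂ → ℝ} (hθ : ThetaOK θ) (x : ℂ) (S : Finset (ℤ × ℤ)) (hS : ∀ p ∈ S, ‖x - lp p‖ < 0.865) :
    S.card ≤ 4 :=
  card_near x S hS


end JS1
export JS1 (exists_theta active_card)

end Porous
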