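import Pool.Agent.Porous.K1

open MeasureTheory Complex Set
open scoped ContDiff ENNReal
noncomputable section
namespace Porous
namespace JS4

theorem s4_two : (2 : WithTop ℕ∞) ≤ ((⊤ : ℕ∞) : WithTop ℕ∞) := by
  have h : ((2 : ℕ∞) : WithTop ℕ∞) ≤ ((⊤ : ℕ∞) : WithTop ℕ∞) := WithTop.coe_le_coe.2 le_top
  exact h

theorem s4_mul2 {f g : ℂ → ℝ} (hf : ContDiff ℝ ∞ f) (hg : ContDiff ℝ ∞ g) (x : ℂ) :
    ‖iteratedFDeriv ℝ 2 (fun y => f y * g y) x‖ ≤ |f x| * ‖iteratedFDeriv ℝ 2 g x‖ +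
      2 * ‖iteratedFDeriv ℝ 1 f x‖ * ‖iteratedFDeriv ℝ 1 g x‖ +
      ‖iteratedFDeriv ℝ 2 f x‖ * |g x| := by
  have h := norm_iteratedFDeriv_mul_le hf hg x (n := 2) s4_two
  rw [Finset.sum_range_succ, Finset.sum_range_succ, Finset.sum_range_succ, Finset.sum_range_zero,
    zero_add, Nat.choose_zero_right, Nat.choose_self,
    show Nat.choose 2 1 = 2 from rfl, show 2 - 0 = 2 from rfl, show 2 - 1 = 1 from rfl,
    show 2 - 2 = 0 from rfl, norm_iteratedFDeriv_zero, norm_iteratedFDeriv_zero] at h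
  push_cast at h
  rw [one_mul, one_mul] at h
  exact h

theorem s4_mul1 {f g : ℂ → ℝ} (hf : ContDiff ℝ ∞ f) (hg : ContDiff ℝ ∞ g) (x : ℂ) :
    ‖iteratedFDeriv ℝ 1 (fun y => f y * g y) x‖ ≤ |f x| * ‖iteratedFDeriv ℝ 1 g x‖ +
      ‖iteratedFDeriv ℝ 1 f x‖ * |g x| := by
  have h := norm_iteratedFDeriv_mul_le hf hg x (n := 1) (by exact_mod_cast le_top)
  rw [Finset.sum_range_succ, Finset.sum_range_succ, Finset.sum_range_zero,
    zero_add, Nat.choose_zero_right, Nat.choose_self,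
    show 1 - 0 = 1 from rfl, show 1 - 1 = 0 from rfl, norm_iteratedFDeriv_zero,
    norm_iteratedFDeriv_zero] at h
  push_cast at h
  rw [one_mul, one_mul] at h
  exact h

/-- the real linear functionals of the plane -/
def s4L : ℂ →L[ℝ] ℂ →L[ℝ] ℝ :=
  (ContinuousLinearMap.compL ℝ ℂ ℂ ℝ Complex.reCLM).comp (ContinuousLinearMap.mul ℝ ℂ)

theorem s4L_apply (p v : ℂ) : s4L p v = (p * v).re := rfl

theorem s4L_norm (p : ℂ) : ‖s4L p‖ ≤ ‖p‖ := by
  refine ContinuousLinearMap.opNorm_le_bound _ (norm_nonneg p) fun v => ?_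
  rw [s4L_apply, Real.norm_eq_abs, ← norm_mul]
  exact Complex.abs_re_le_norm _

/-- quadratic functions -/
def s4Q (α : ℝ) (p c : ℂ) (x : ℂ) : ℝ := α + (p * x).re - (c * x ^ 2).re

theorem s4Q_contDiff (α : ℝ) (p c : ℂ) : ContDiff ℝ ∞ (s4Q α p c) := by
  unfold s4Q
  have h1 : ContDiff ℝ ∞ (fun x : ℂ => (p * x).re) :=
    Complex.reCLM.contDiff.comp (contDiff_const.mul contDiff_id)
  have h2 : ContDiff ℝ ∞ (fun x : ℂ => (c * x ^ 2).re) :=
    Complex.reCLM.contDiff.comp (contDiff_const.mul (contDiff_id.pow 2))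
  exact (contDiff_const.add h1).sub h2

theorem s4Q_deriv (α : ℝ) (p c x : ℂ) : HasFDerivAt (s4Q α p c) (s4L (p - 2 * c * x)) x := by
  have h1 : HasFDerivAt (fun x : ℂ => p * x) (p • ContinuousLinearMap.id ℝ ℂ) x :=
    (hasFDerivAt_id x).const_smul p
  have h2 : HasFDerivAt (fun x : ℂ => c * x ^ 2) ((2 * c * x) • ContinuousLinearMap.id ℝ ℂ) x := by
    have h3 : HasDerivAt (fun x : ℂ => c * x ^ 2) (2 * c * x) x := by
      have := (hasDerivAt_pow 2 x).const_mul c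
      refine this.congr_deriv ?_
      simp
      ring
    have h4 := h3.hasFDerivAt.restrictScalars ℝ
    refine h4.congr_fderiv ?_
    ext v
    simp [mul_comm]
  have h3 := (Complex.reCLM.hasFDerivAt.comp x h1)
  have h4 := (Complex.reCLM.hasFDerivAt.comp x h2)
  have h5 := (h3.const_add α).sub h4
  refine h5.congr_fderiv ?_
  ext v
  simp [s4L_apply, sub_mul]

theorem s4Q_fderiv (α : ℝ) (p c : ℂ) : fderiv ℝ (s4Q α p c) = fun x => s4L (p - 2 * c * x) :=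
  funext fun x => (s4Q_deriv α p c x).fderiv

theorem s4Q_D1 (α : ℝ) (p c x : ℂ) : ‖iteratedFDeriv ℝ 1 (s4Q α p c) x‖ ≤ ‖p - 2 * c * x‖ := by
  rw [norm_iteratedFDeriv_one, s4Q_fderiv]
  exact s4L_norm _

theorem s4Q_D2 (α : ℝ) (p c x : ℂ) : ‖iteratedFDeriv ℝ 2 (s4Q α p c) x‖ ≤ 2 * ‖c‖ := by
  have h := norm_iteratedFDeriv_fderiv (𝕜 := ℝ) (f := s4Q α p c) (x := x) (n := 1)
  rw [← h, norm_iteratedFDeriv_one, s4Q_fderiv]
  have h1 : HasFDerivAt (fun x : ℂ => p - 2 * c * x) (-((2 * c) • ContinuousLinearMap.id ℝ ℂ)) x :=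
    ((hasFDerivAt_id x).const_smul (2 * c)).const_sub p
  have h2 := s4L.hasFDerivAt.comp x h1
  have h3 : fderiv ℝ (fun x => s4L (p - 2 * c * x)) x =
    s4L.comp (-((2 * c) • ContinuousLinearMap.id ℝ ℂ)) := h2.fderiv
  rw [h3]
  refine ContinuousLinearMap.opNorm_le_bound _ (by positivity) fun v => ?_
  refine (s4L_norm _).trans ?_
  simp

theorem s4_slope {α : ℝ} {p c z : ℂ} {B : ℝ} (hB : 0 ≤ B)
    (h : ∀ x, ‖x - z‖ ≤ 1 → |α + (p * x).re - qf c x| ≤ B) : ‖p - 2 * c * z‖ ≤ B := by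
  obtain ⟨w, hw⟩ : ∃ w, w = p - 2 * c * z := ⟨_, rfl⟩
  rw [← hw]
  rcases eq_or_ne w 0 with h0 | h0
  · rw [h0, norm_zero]; exact hB
  · have hn : 0 < ‖w‖ := norm_pos_iff.2 h0
    obtain ⟨y, hy⟩ : ∃ y : ℂ, y = (starRingEnd ℂ) w / ‖w‖ := ⟨_, rfl⟩
    have hy1 : ‖y‖ = 1 := by
      rw [hy, norm_div, RCLike.norm_conj, Complex.norm_real, Real.norm_of_nonneg hn.le,
        div_self hn.ne']
    have hwy : w * y = (‖w‖ : ℂ) := by
      rw [hy, mul_div_assoc', Complex.mul_conj, Complex.normSq_eq_norm_sq]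
      have : (‖w‖ : ℂ) ≠ 0 := by exact_mod_cast hn.ne'
      field_simp
      push_cast
      ring
    have h1 := abs_le.1 (h (z + y) (by rw [add_sub_cancel_left, hy1]))
    have h2 := abs_le.1 (h (z - y) (by rw [sub_sub_cancel_left, norm_neg, hy1]))
    have h3 : (α + (p * (z + y)).re - qf c (z + y)) - (α + (p * (z - y)).re - qf c (z - y)) =
        2 * ‖w‖ := by
      have h4 : (p * (z + y)) - (p * (z - y)) - (c * (z + y) ^ 2 - c * (z - y) ^ 2) =
          2 * (w * y) := by rw [hw]; ring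
      rw [hwy] at h4
      have h5 := congrArg Complex.re h4
      simp only [Complex.sub_re] at h5
      unfold qf
      have h6 : (2 * (‖w‖ : ℂ)).re = 2 * ‖w‖ := by simp
      rw [h6] at h5
      linarith
    linarith [h1.1, h1.2, h2.1, h2.2]

theorem s4_X {Xi : ℂ → ℝ} {KX : ℝ} (hXi : XiOK Xi KX) {a : ℝ} (ha : 0 < a) {P d : ℂ}
    (hd : ‖d‖ = 1) (k : ℕ) (hk : k ≤ 2) (x : ℂ) :
    ‖iteratedFDeriv ℝ k (fun x => Xi ((x - P) * (starRingEnd ℂ) d / a)) x‖ ≤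
      KX / (a + ‖x - P‖) ^ k := by
  let L : ℂ →L[ℝ] ℂ := ((starRingEnd ℂ) d / a) • ContinuousLinearMap.id ℝ ℂ
  have hL : ∀ y, L y = y * (starRingEnd ℂ) d / a := fun y => by
    simp [L]; ring
  have hLn : ‖L‖ ≤ 1 / a := by
    refine ContinuousLinearMap.opNorm_le_bound _ (by positivity) fun v => ?_
    rw [hL, norm_div, norm_mul, RCLike.norm_conj, hd, Complex.norm_real,
      Real.norm_of_nonneg ha.le]
    exact le_of_eq (by ring)
  have e1 : (fun x => Xi ((x - P) * (starRingEnd ℂ) d / a)) = fun x => (Xi ∘ L) (x - P) := by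
    funext x
    rw [Function.comp_apply, hL]
  rw [e1, iteratedFDeriv_comp_sub, L.iteratedFDeriv_comp_right hXi.smooth _
    (by exact_mod_cast le_top)]
  refine (ContinuousMultilinearMap.norm_compContinuousLinearMap_le _ _).trans ?_
  rw [Finset.prod_const, Finset.card_univ, Fintype.card_fin]
  have h1 := hXi.bound k (L (x - P)) hk
  have h2 : ‖L (x - P)‖ = ‖x - P‖ / a := by
    rw [hL, norm_div, norm_mul, RCLike.norm_conj, hd, Complex.norm_real,
      Real.norm_of_nonneg ha.le, mul_one]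
  rw [h2] at h1
  have h3 : 0 < 1 + ‖x - P‖ / a := by positivity
  have h4 : 0 < a + ‖x - P‖ := by positivity
  calc ‖iteratedFDeriv ℝ k Xi (L (x - P))‖ * ‖L‖ ^ k
      ≤ KX / (1 + ‖x - P‖ / a) ^ k * (1 / a) ^ k := by
        gcongr
        exact (norm_nonneg _).trans h1
    _ = KX / (a + ‖x - P‖) ^ k := by
        have e2 : 1 + ‖x - P‖ / a = (a + ‖x - P‖) / a := by field_simp
        rw [e2, div_pow, one_div, inv_pow]
        have h5 : a ^ k ≠ 0 := pow_ne_zero _ ha.ne'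
        have h6 : (a + ‖x - P‖) ^ k ≠ 0 := pow_ne_zero _ h4.ne'
        field_simp

theorem s4_X_contDiff {Xi : ℂ → ℝ} {KX : ℝ} (hXi : XiOK Xi KX) (a : ℝ) (P d : ℂ) :
    ContDiff ℝ ∞ (fun x => Xi ((x - P) * (starRingEnd ℂ) d / a)) := by
  refine hXi.smooth.comp ?_
  exact ((contDiff_id.sub contDiff_const).mul contDiff_const).div_const _

/-- the radial majorant -/
def s4G (a r : ℝ) : ℝ := if r ≤ 3 / 2 then ((a + r) ^ 2)⁻¹ else 0

theorem s4G_nonneg (a r : ℝ) : 0 ≤ s4G a r := by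
  unfold s4G; split_ifs <;> positivity

theorem s4G_integrable {a : ℝ} (ha : 0 < a) : Integrable (fun x : ℂ => s4G a ‖x‖) := by
  have e : (fun x : ℂ => s4G a ‖x‖) =
      (Metric.closedBall (0 : ℂ) (3 / 2)).indicator (fun x => ((a + ‖x‖) ^ 2)⁻¹) := by
    funext x
    unfold s4G
    by_cases h : ‖x‖ ≤ 3 / 2
    · rw [if_pos h, indicator_of_mem (by simpa using h)]
    · rw [if_neg h, indicator_of_notMem (by simpa using h)]
  rw [e, integrable_indicator_iff Metric.isClosed_closedBall.measurableSet]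
  refine ContinuousOn.integrableOn_compact (isCompact_closedBall _ _) ?_
  refine ContinuousOn.inv₀ (Continuous.continuousOn (by fun_prop)) fun x _ => ?_
  have : 0 < a + ‖x‖ := by positivity
  positivity

theorem s4G_integral {a : ℝ} (ha : 0 < a) (ha2 : a ≤ 1 / 2) :
    ∫ x : ℂ, s4G a ‖x‖ ≤ 2 * (volume : Measure ℂ).real (Metric.ball 0 1) *
      (1 + |Real.log a|) := by
  rw [integral_fun_norm_addHaar, Complex.finrank_real_complex]
  have h1 : ∫ y in Ioi (0 : ℝ), y ^ (2 - 1) • s4G a y ≤ 1 + |Real.log a| := by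
    have h2 : ∫ y in Ioi (0 : ℝ), y ^ (2 - 1) • s4G a y ≤
        ∫ y in Ioi (0 : ℝ), (Iic (3 / 2 : ℝ)).indicator (fun y => (a + y)⁻¹) y := by
      refine integral_mono_of_nonneg ?_ ?_ ?_
      · rw [Filter.EventuallyLE, ae_restrict_iff' measurableSet_Ioi]
        refine Filter.Eventually.of_forall fun y hy => ?_
        have hy0 : (0 : ℝ) < y := hy
        have := s4G_nonneg a y
        simp only [Pi.zero_apply, smul_eq_mul]
        positivity
      · rw [integrable_indicator_iff measurableSet_Iic, IntegrableOn, Measure.restrict_restrict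
          measurableSet_Iic]
        have e : Iic (3 / 2 : ℝ) ∩ Ioi 0 = Ioc 0 (3 / 2) := by
          ext y; simp [and_comm]
        rw [e]
        have h3 : ContinuousOn (fun y : ℝ => (a + y)⁻¹) (Icc 0 (3 / 2)) := by
          refine ContinuousOn.inv₀ (by fun_prop) fun y hy => ?_
          have := hy.1
          positivity
        exact (h3.integrableOn_compact isCompact_Icc).mono_set Ioc_subset_Icc_self
      · rw [Filter.EventuallyLE, ae_restrict_iff' measurableSet_Ioi]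
        refine Filter.Eventually.of_forall fun y hy => ?_
        have hy0 : (0 : ℝ) < y := hy
        unfold s4G
        by_cases h : y ≤ 3 / 2
        · rw [if_pos h, indicator_of_mem (by exact h)]
          rw [smul_eq_mul, pow_one, mul_inv_le_iff₀ (by positivity), inv_mul_eq_div, le_div_iff₀
            (by positivity)]
          nlinarith
        · rw [if_neg h, indicator_of_notMem (by exact h), smul_zero]
    refine h2.trans ?_
    rw [setIntegral_indicator measurableSet_Iic]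
    have e : Ioi (0 : ℝ) ∩ Iic (3 / 2) = Ioc 0 (3 / 2) := by
      ext y; simp
    rw [e, ← intervalIntegral.integral_of_le (by norm_num),
      intervalIntegral.integral_comp_add_left (fun y => y⁻¹) a,
      integral_inv_of_pos (by linarith) (by linarith), Real.log_div (by linarith) (by linarith)]
    have h3 : Real.log (a + 3 / 2) ≤ a + 3 / 2 - 1 := Real.log_le_sub_one_of_pos (by linarith)
    have h4 := neg_abs_le (Real.log a)
    rw [add_zero]
    linarith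
  rw [nsmul_eq_mul, smul_eq_mul]
  have h5 : 0 ≤ (volume : Measure ℂ).real (Metric.ball 0 1) := measureReal_nonneg
  push_cast
  calc 2 * ((volume : Measure ℂ).real (Metric.ball 0 1) *
        ∫ y in Ioi (0 : ℝ), y ^ (2 - 1) • s4G a y)
      ≤ 2 * ((volume : Measure ℂ).real (Metric.ball 0 1) * (1 + |Real.log a|)) := by gcongr
    _ = _ := by ring

theorem s4_theta {θ : ℂ → ℝ} (hθ : ThetaOK θ) :
    HasCompactSupport θ ∧ ∃ M : ℝ, 0 ≤ M ∧ ∀ k, k ≤ 2 → ∀ x, ‖iteratedFDeriv ℝ k θ x‖ ≤ M := by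
  have hc : HasCompactSupport θ := by
    refine HasCompactSupport.of_support_subset_isCompact (isCompact_closedBall (0 : ℂ) 0.86) ?_
    intro x hx
    rw [Metric.mem_closedBall, dist_zero_right]
    by_contra h
    push Not at h
    exact hx (hθ.supp x h.le)
  refine ⟨hc, ?_⟩
  have h : ∀ k : ℕ, ∃ M : ℝ, ∀ x, ‖iteratedFDeriv ℝ k θ x‖ ≤ M := fun k =>
    (hθ.smooth.continuous_iteratedFDeriv (m := k) (by exact_mod_cast le_top)).bounded_above_of_compact_support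
      (hc.iteratedFDeriv (𝕜 := ℝ) k)
  choose M hM using h
  refine ⟨max (M 0) (max (M 1) (M 2)), ?_, ?_⟩
  · exact ((norm_nonneg _).trans (hM 0 0)).trans (le_max_left _ _)
  · intro k hk x
    interval_cases k
    · exact (hM 0 x).trans (le_max_left _ _)
    · exact (hM 1 x).trans ((le_max_left _ _).trans (le_max_right _ _))
    · exact (hM 2 x).trans ((le_max_right _ _).trans (le_max_right _ _))

theorem s4_arith {K B c t : ℝ} (hK : 0 ≤ K) (hB : 0 ≤ B) (hc : 0 ≤ c)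
    (h : t ≤ (6 * c + 3 * B + 11 * K * B) * 2) :
    t + 6 * K * B ≤ (12 + 28 * K) * (B + c) := by
  have h1 := mul_nonneg hK hc
  have e : (12 + 28 * K) * (B + c) = (6 * c + 3 * B + 11 * K * B) * 2 + 6 * K * B +
    (6 * B + 28 * (K * c)) := by ring
  rw [e]
  linarith

set_option maxHeartbeats 4000000 in
/-- the pointwise bound -/
theorem s4_point {θ : ℂ → ℝ} (hθ : ThetaOK θ) {M : ℝ} (hM0 : 0 ≤ M)
    (hM : ∀ k, k ≤ 2 → ∀ x, ‖iteratedFDeriv ℝ k θ x‖ ≤ M) {Xi : ℂ → ℝ} {KX : ℝ}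
    (hXi : XiOK Xi KX) {a : ℝ} (ha : 0 < a) (ha2 : a ≤ 1 / 2) {z P d c : ℂ} (hd : ‖d‖ = 1)
    (hP : ‖P - z‖ ≤ 1 / 2) {αm αq : ℝ} {gm gq : ℂ} {B : ℝ} (hB : 0 ≤ B)
    (h1 : ∀ x, ‖x - z‖ ≤ 1 → |αm + (gm * x).re - qf c x| ≤ B)
    (h2 : ∀ x, ‖x - z‖ ≤ 1 → |αq + (gq * x).re - qf c x| ≤ B)
    (h3 : αm + (gm * P).re = αq + (gq * P).re) {x : ℂ} (hx : ‖x - z‖ ≤ 1) :
    ‖iteratedFDeriv ℝ 2 (fun x => θ (x - z) *
        (s4Q αm gm c x + Xi ((x - P) * (starRingEnd ℂ) d / a) * s4Q (αq - αm) (gq - gm) 0 x)) x‖ ≤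
      M * (12 + 28 * KX) * (B + ‖c‖) * (a + ‖x - P‖)⁻¹ := by
  have hK : 0 ≤ KX := by
    have := hXi.bound 0 0 (by norm_num)
    simpa using (norm_nonneg _).trans this
  obtain ⟨ρ, hρ⟩ : ∃ ρ, ρ = ‖x - P‖ := ⟨_, rfl⟩
  have hρ0 : 0 ≤ ρ := by rw [hρ]; exact norm_nonneg _
  have hρ1 : ρ ≤ 3 / 2 := by
    have : x - P = (x - z) - (P - z) := by ring
    rw [hρ, this]
    refine (norm_sub_le _ _).trans ?_
    linarith
  have hs0 : 0 < a + ρ := by linarith
  have hs2 : a + ρ ≤ 2 := by linarith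
  have hθs : ContDiff ℝ ∞ (fun x => θ (x - z)) := hθ.smooth.comp (contDiff_id.sub contDiff_const)
  have hXs := s4_X_contDiff hXi a P d
  have hA := s4Q_contDiff αm gm c
  have hℓ := s4Q_contDiff (αq - αm) (gq - gm) 0
  have hG : ContDiff ℝ ∞ (fun x => Xi ((x - P) * (starRingEnd ℂ) d / a) *
    s4Q (αq - αm) (gq - gm) 0 x) := hXs.mul hℓ
  have hF := hA.add hG
  -- slopes
  have w1 := s4_slope hB h1
  have w2 := s4_slope hB h2
  have hg : ‖gq - gm‖ ≤ 2 * B := by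
    have : gq - gm = (gq - 2 * c * z) - (gm - 2 * c * z) := by ring
    rw [this]
    refine (norm_sub_le _ _).trans ?_
    linarith
  have hc0 := norm_nonneg c
  have A0 : |s4Q αm gm c x| ≤ B := h1 x hx
  have A1 : ‖iteratedFDeriv ℝ 1 (s4Q αm gm c) x‖ ≤ B + 2 * ‖c‖ := by
    refine (s4Q_D1 _ _ _ _).trans ?_
    have : gm - 2 * c * x = (gm - 2 * c * z) - 2 * c * (x - z) := by ring
    rw [this]
    refine (norm_sub_le _ _).trans ?_
    rw [norm_mul, norm_mul]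
    simp only [Complex.norm_ofNat]
    have : 2 * ‖c‖ * ‖x - z‖ ≤ 2 * ‖c‖ * 1 := by gcongr
    linarith
  have A2 := s4Q_D2 αm gm c x
  have l0 : |s4Q (αq - αm) (gq - gm) 0 x| ≤ 2 * B * ρ := by
    have e : s4Q (αq - αm) (gq - gm) 0 x = ((gq - gm) * (x - P)).re := by
      unfold s4Q
      have e1 : ((gq - gm) * (x - P)).re = ((gq - gm) * x).re - ((gq * P).re - (gm * P).re) := by
        rw [← Complex.sub_re, ← Complex.sub_re]
        congr 1
        ring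
      rw [e1, zero_mul, Complex.zero_re, sub_zero]
      linarith
    rw [e]
    refine (Complex.abs_re_le_norm _).trans ?_
    rw [norm_mul, ← hρ]
    gcongr
  have l1 : ‖iteratedFDeriv ℝ 1 (s4Q (αq - αm) (gq - gm) 0) x‖ ≤ 2 * B := by
    refine (s4Q_D1 _ _ _ _).trans ?_
    simpa using hg
  have l2 : ‖iteratedFDeriv ℝ 2 (s4Q (αq - αm) (gq - gm) 0) x‖ ≤ 0 := by
    have := s4Q_D2 (αq - αm) (gq - gm) 0 x
    simpa using this
  have x0 : |Xi ((x - P) * (starRingEnd ℂ) d / a)| ≤ KX := by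
    have := s4_X hXi ha hd (P := P) 0 (by norm_num) x
    simpa using this
  have x1 : ‖iteratedFDeriv ℝ 1 (fun x => Xi ((x - P) * (starRingEnd ℂ) d / a)) x‖ ≤
      KX / (a + ρ) := by
    have := s4_X hXi ha hd (P := P) 1 (by norm_num) x
    rwa [pow_one, ← hρ] at this
  have x2 : ‖iteratedFDeriv ℝ 2 (fun x => Xi ((x - P) * (starRingEnd ℂ) d / a)) x‖ ≤
      KX / (a + ρ) ^ 2 := by
    have := s4_X hXi ha hd (P := P) 2 (by norm_num) x
    rwa [← hρ] at this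
  have q1 : ρ / (a + ρ) ≤ 1 := by rw [div_le_one hs0]; linarith
  have hKs : 0 ≤ KX / (a + ρ) := by positivity
  -- the product
  have g0 : |Xi ((x - P) * (starRingEnd ℂ) d / a) * s4Q (αq - αm) (gq - gm) 0 x| ≤ 3 * KX * B := by
    rw [abs_mul]
    calc |Xi ((x - P) * (starRingEnd ℂ) d / a)| * |s4Q (αq - αm) (gq - gm) 0 x|
        ≤ KX * (2 * B * (3 / 2)) := by
          gcongr
          exact l0.trans (by gcongr)
      _ = 3 * KX * B := by ring
  have g1 : ‖iteratedFDeriv ℝ 1 (fun x => Xi ((x - P) * (starRingEnd ℂ) d / a) *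
      s4Q (αq - αm) (gq - gm) 0 x) x‖ ≤ 4 * KX * B := by
    refine (s4_mul1 hXs hℓ x).trans ?_
    have t1 : |Xi ((x - P) * (starRingEnd ℂ) d / a)| *
        ‖iteratedFDeriv ℝ 1 (s4Q (αq - αm) (gq - gm) 0) x‖ ≤ KX * (2 * B) := by gcongr
    have t2 : ‖iteratedFDeriv ℝ 1 (fun x => Xi ((x - P) * (starRingEnd ℂ) d / a)) x‖ *
        |s4Q (αq - αm) (gq - gm) 0 x| ≤ KX / (a + ρ) * (2 * B * ρ) := by gcongr
    have t3 : KX / (a + ρ) * (2 * B * ρ) = 2 * KX * B * (ρ / (a + ρ)) := by ring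
    have t4 : 2 * KX * B * (ρ / (a + ρ)) ≤ 2 * KX * B * 1 := by gcongr
    linarith
  have g2 : ‖iteratedFDeriv ℝ 2 (fun x => Xi ((x - P) * (starRingEnd ℂ) d / a) *
      s4Q (αq - αm) (gq - gm) 0 x) x‖ ≤ 6 * KX * B * (a + ρ)⁻¹ := by
    refine (s4_mul2 hXs hℓ x).trans ?_
    have t1 : |Xi ((x - P) * (starRingEnd ℂ) d / a)| *
        ‖iteratedFDeriv ℝ 2 (s4Q (αq - αm) (gq - gm) 0) x‖ ≤ KX * 0 := by gcongr
    have t2 : 2 * ‖iteratedFDeriv ℝ 1 (fun x => Xi ((x - P) * (starRingEnd ℂ) d / a)) x‖ *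
        ‖iteratedFDeriv ℝ 1 (s4Q (αq - αm) (gq - gm) 0) x‖ ≤ 2 * (KX / (a + ρ)) * (2 * B) := by
      gcongr
    have t3 : ‖iteratedFDeriv ℝ 2 (fun x => Xi ((x - P) * (starRingEnd ℂ) d / a)) x‖ *
        |s4Q (αq - αm) (gq - gm) 0 x| ≤ KX / (a + ρ) ^ 2 * (2 * B * ρ) := by gcongr
    have t4 : KX / (a + ρ) ^ 2 * (2 * B * ρ) = 2 * KX * B * (a + ρ)⁻¹ * (ρ / (a + ρ)) := by
      field_simp
    have t5 : 2 * KX * B * (a + ρ)⁻¹ * (ρ / (a + ρ)) ≤ 2 * KX * B * (a + ρ)⁻¹ * 1 := by gcongr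
    have t6 : 2 * (KX / (a + ρ)) * (2 * B) = 4 * KX * B * (a + ρ)⁻¹ := by
      rw [div_eq_mul_inv]; ring
    linarith
  -- F
  have f0 : |s4Q αm gm c x + Xi ((x - P) * (starRingEnd ℂ) d / a) *
      s4Q (αq - αm) (gq - gm) 0 x| ≤ B + 3 * KX * B := (abs_add_le _ _).trans (add_le_add A0 g0)
  have f1 : ‖iteratedFDeriv ℝ 1 (fun x => s4Q αm gm c x + Xi ((x - P) * (starRingEnd ℂ) d / a) *
      s4Q (αq - αm) (gq - gm) 0 x) x‖ ≤ B + 2 * ‖c‖ + 4 * KX * B := by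
    have e := iteratedFDeriv_add_apply (𝕜 := ℝ) (i := 1) (x := x)
      (hA.contDiffAt.of_le (by exact_mod_cast le_top))
      (hG.contDiffAt.of_le (by exact_mod_cast le_top))
    have e' : iteratedFDeriv ℝ 1 (fun x => s4Q αm gm c x + Xi ((x - P) * (starRingEnd ℂ) d / a) *
      s4Q (αq - αm) (gq - gm) 0 x) x = _ := e
    rw [e']
    exact (norm_add_le _ _).trans (add_le_add A1 g1)
  have f2 : ‖iteratedFDeriv ℝ 2 (fun x => s4Q αm gm c x + Xi ((x - P) * (starRingEnd ℂ) d / a) *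
      s4Q (αq - αm) (gq - gm) 0 x) x‖ ≤ 2 * ‖c‖ + 6 * KX * B * (a + ρ)⁻¹ := by
    have e := iteratedFDeriv_add_apply (𝕜 := ℝ) (i := 2) (x := x)
      (hA.contDiffAt.of_le s4_two)
      (hG.contDiffAt.of_le s4_two)
    have e' : iteratedFDeriv ℝ 2 (fun x => s4Q αm gm c x + Xi ((x - P) * (starRingEnd ℂ) d / a) *
      s4Q (αq - αm) (gq - gm) 0 x) x = _ := e
    rw [e']
    exact (norm_add_le _ _).trans (add_le_add A2 g2)
  -- theta
  have θ0 : |θ (x - z)| ≤ M := by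
    have := hM 0 (by norm_num) (x - z)
    simpa using this
  have θ1 : ‖iteratedFDeriv ℝ 1 (fun x => θ (x - z)) x‖ ≤ M := by
    rw [iteratedFDeriv_comp_sub]; exact hM 1 (by norm_num) _
  have θ2 : ‖iteratedFDeriv ℝ 2 (fun x => θ (x - z)) x‖ ≤ M := by
    rw [iteratedFDeriv_comp_sub]; exact hM 2 (by norm_num) _
  refine (s4_mul2 hθs hF x).trans ?_
  rw [← hρ]
  have u0 : |θ (x - z)| * ‖iteratedFDeriv ℝ 2 (fun x => s4Q αm gm c x +
      Xi ((x - P) * (starRingEnd ℂ) d / a) * s4Q (αq - αm) (gq - gm) 0 x) x‖ ≤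
      M * (2 * ‖c‖ + 6 * KX * B * (a + ρ)⁻¹) := by gcongr
  have u1 : 2 * ‖iteratedFDeriv ℝ 1 (fun x => θ (x - z)) x‖ *
      ‖iteratedFDeriv ℝ 1 (fun x => s4Q αm gm c x +
      Xi ((x - P) * (starRingEnd ℂ) d / a) * s4Q (αq - αm) (gq - gm) 0 x) x‖ ≤
      2 * M * (B + 2 * ‖c‖ + 4 * KX * B) := by gcongr
  have u2 : ‖iteratedFDeriv ℝ 2 (fun x => θ (x - z)) x‖ *
      |s4Q αm gm c x + Xi ((x - P) * (starRingEnd ℂ) d / a) * s4Q (αq - αm) (gq - gm) 0 x| ≤
      M * (B + 3 * KX * B) := by gcongr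
  refine (add_le_add (add_le_add u0 u1) u2).trans ?_
  have e1 : M * (2 * ‖c‖ + 6 * KX * B * (a + ρ)⁻¹) + 2 * M * (B + 2 * ‖c‖ + 4 * KX * B) +
      M * (B + 3 * KX * B) = M * ((6 * ‖c‖ + 3 * B + 11 * KX * B) * (a + ρ) + 6 * KX * B) *
      (a + ρ)⁻¹ := by
    field_simp
    ring
  rw [e1]
  have e2 : (6 * ‖c‖ + 3 * B + 11 * KX * B) * (a + ρ) + 6 * KX * B ≤
      (12 + 28 * KX) * (B + ‖c‖) := by
    have e3 : (6 * ‖c‖ + 3 * B + 11 * KX * B) * (a + ρ) ≤
      (6 * ‖c‖ + 3 * B + 11 * KX * B) * 2 := by gcongr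
    exact s4_arith hK hB hc0 e3
  calc M * ((6 * ‖c‖ + 3 * B + 11 * KX * B) * (a + ρ) + 6 * KX * B) * (a + ρ)⁻¹
      ≤ M * ((12 + 28 * KX) * (B + ‖c‖)) * (a + ρ)⁻¹ := by gcongr
    _ = M * (12 + 28 * KX) * (B + ‖c‖) * (a + ρ)⁻¹ := by ring

/-! TARGET -/

set_option maxHeartbeats 4000000 in
/-- energy of the Airy function near one hinge -/
theorem hinge_energy {θ : ℂ → ℝ} (hθ : ThetaOK θ) {Xi : ℂ → ℝ} {KX : ℝ} (hXi : XiOK Xi KX) :
    ∃ K : ℝ, 0 < K ∧ ∀ (a : ℝ), 0 < a → a ≤ 1 / 2 → ∀ (z P d c : ℂ), ‖d‖ = 1 → ‖P - z‖ ≤ 1 / 2 →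
      ∀ (αm αq : ℝ) (gm gq : ℂ) (B : ℝ), 0 ≤ B →
      (∀ x, ‖x - z‖ ≤ 1 → |αm + (gm * x).re - qf c x| ≤ B) →
      (∀ x, ‖x - z‖ ≤ 1 → |αq + (gq * x).re - qf c x| ≤ B) →
      αm + (gm * P).re = αq + (gq * P).re →
      ContDiff ℝ ∞ (fun x => θ (x - z) *
        (hg Xi a P d (fun x => αm + (gm * x).re) (fun x => αq + (gq * x).re) x - qf c x)) ∧
      Integrable (fun x => ‖iteratedFDeriv ℝ 2 (fun x => θ (x - z) *
        (hg Xi a P d (fun x => αm + (gm * x).re) (fun x => αq + (gq * x).re) x - qf c x)) x‖ ^ 2) ∧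
      ∫ x, ‖iteratedFDeriv ℝ 2 (fun x => θ (x - z) *
        (hg Xi a P d (fun x => αm + (gm * x).re) (fun x => αq + (gq * x).re) x - qf c x)) x‖ ^ 2
        ≤ K * (B + ‖c‖) ^ 2 * (1 + |Real.log a|) := by
  obtain ⟨hθc, M, hM0, hM⟩ := s4_theta hθ
  obtain ⟨V, hV⟩ : ∃ V, V = (volume : Measure ℂ).real (Metric.ball 0 1) := ⟨_, rfl⟩
  have hV0 : 0 ≤ V := by rw [hV]; exact measureReal_nonneg
  obtain ⟨C, hC⟩ : ∃ C, C = M * (12 + 28 * KX) := ⟨_, rfl⟩
  refine ⟨C ^ 2 * (2 * V) + 1, by positivity, ?_⟩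
  intro a ha ha2 z P d c hd hP αm αq gm gq B hB h1 h2 h3
  have e : (fun x => θ (x - z) *
        (hg Xi a P d (fun x => αm + (gm * x).re) (fun x => αq + (gq * x).re) x - qf c x)) =
      fun x => θ (x - z) *
        (s4Q αm gm c x + Xi ((x - P) * (starRingEnd ℂ) d / a) *
          s4Q (αq - αm) (gq - gm) 0 x) := by
    funext x
    unfold hg s4Q qf
    simp only [zero_mul, Complex.zero_re, sub_zero, sub_mul, Complex.sub_re]
    ring
  rw [e]
  have hθs : ContDiff ℝ ∞ (fun x => θ (x - z)) := hθ.smooth.comp (contDiff_id.sub contDiff_const)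
  have hf : ContDiff ℝ ∞ (fun x => θ (x - z) *
        (s4Q αm gm c x + Xi ((x - P) * (starRingEnd ℂ) d / a) *
          s4Q (αq - αm) (gq - gm) 0 x)) :=
    hθs.mul ((s4Q_contDiff αm gm c).add ((s4_X_contDiff hXi a P d).mul
      (s4Q_contDiff (αq - αm) (gq - gm) 0)))
  have hsupp : Function.support (fun x => θ (x - z) *
        (s4Q αm gm c x + Xi ((x - P) * (starRingEnd ℂ) d / a) *
          s4Q (αq - αm) (gq - gm) 0 x)) ⊆ Metric.closedBall z 0.86 := by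
    intro x hx
    rw [Metric.mem_closedBall, dist_eq_norm]
    by_contra h
    push Not at h
    apply hx
    show θ (x - z) * _ = 0
    rw [hθ.supp _ h.le, zero_mul]
  have hcs : HasCompactSupport (fun x => θ (x - z) *
        (s4Q αm gm c x + Xi ((x - P) * (starRingEnd ℂ) d / a) *
          s4Q (αq - αm) (gq - gm) 0 x)) :=
    HasCompactSupport.of_support_subset_isCompact (isCompact_closedBall z 0.86) hsupp
  have hts : tsupport (fun x => θ (x - z) *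
        (s4Q αm gm c x + Xi ((x - P) * (starRingEnd ℂ) d / a) *
          s4Q (αq - αm) (gq - gm) 0 x)) ⊆ Metric.closedBall z 0.86 :=
    closure_minimal hsupp Metric.isClosed_closedBall
  set f := (fun x => θ (x - z) *
        (s4Q αm gm c x + Xi ((x - P) * (starRingEnd ℂ) d / a) *
          s4Q (αq - αm) (gq - gm) 0 x)) with hfdef
  have hcont : Continuous (fun x => ‖iteratedFDeriv ℝ 2 f x‖ ^ 2) :=
    ((hf.continuous_iteratedFDeriv (m := 2) s4_two).norm).pow 2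
  have hcs2 : HasCompactSupport (fun x => ‖iteratedFDeriv ℝ 2 f x‖ ^ 2) := by
    refine (hcs.iteratedFDeriv (𝕜 := ℝ) 2).mono' ?_
    refine Function.support_subset_iff'.2 ?_ |>.trans subset_closure
    intro x hx
    rw [Function.notMem_support] at hx
    rw [hx]
    simp
  have hint : Integrable (fun x => ‖iteratedFDeriv ℝ 2 f x‖ ^ 2) :=
    hcont.integrable_of_hasCompactSupport hcs2
  refine ⟨hf, hint, ?_⟩
  have hpt : ∀ x, ‖iteratedFDeriv ℝ 2 f x‖ ^ 2 ≤ (C * (B + ‖c‖)) ^ 2 * s4G a ‖x - P‖ := by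
    intro x
    by_cases hx : ‖x - z‖ ≤ 1
    · have h4 := s4_point hθ hM0 hM hXi ha ha2 hd hP hB h1 h2 h3 hx
      rw [← hC] at h4
      have hρ1 : ‖x - P‖ ≤ 3 / 2 := by
        have : x - P = (x - z) - (P - z) := by ring
        rw [this]
        refine (norm_sub_le _ _).trans ?_
        linarith
      unfold s4G
      rw [if_pos hρ1]
      calc ‖iteratedFDeriv ℝ 2 f x‖ ^ 2 ≤ (C * (B + ‖c‖) * (a + ‖x - P‖)⁻¹) ^ 2 := by
            gcongr
        _ = (C * (B + ‖c‖)) ^ 2 * ((a + ‖x - P‖) ^ 2)⁻¹ := by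
            rw [mul_pow, inv_pow]
    · have h5 : iteratedFDeriv ℝ 2 f x = 0 := by
        by_contra hne
        have h6 := hts (support_iteratedFDeriv_subset (𝕜 := ℝ) 2 hne)
        rw [Metric.mem_closedBall, dist_eq_norm] at h6
        exact hx (h6.trans (by norm_num))
      rw [h5, norm_zero, zero_pow two_ne_zero]
      exact mul_nonneg (sq_nonneg _) (s4G_nonneg a ‖x - P‖)
  have hGi : Integrable (fun x : ℂ => s4G a ‖x - P‖) := (s4G_integrable ha).comp_sub_right P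
  calc ∫ x, ‖iteratedFDeriv ℝ 2 f x‖ ^ 2 ≤ ∫ x, (C * (B + ‖c‖)) ^ 2 * s4G a ‖x - P‖ :=
        integral_mono hint (hGi.const_mul _) hpt
    _ = (C * (B + ‖c‖)) ^ 2 * ∫ x : ℂ, s4G a ‖x‖ := by
        rw [integral_const_mul, integral_sub_right_eq_self (fun x : ℂ => s4G a ‖x‖) P]
    _ ≤ (C * (B + ‖c‖)) ^ 2 * (2 * V * (1 + |Real.log a|)) := by
        have := s4G_integral ha ha2
        rw [← hV] at this
        gcongr
    _ = (C ^ 2 * (2 * V)) * (B + ‖c‖) ^ 2 * (1 + |Real.log a|) := by ring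
    _ ≤ (C ^ 2 * (2 * V) + 1) * (B + ‖c‖) ^ 2 * (1 + |Real.log a|) := by
        gcongr
        linarith


end JS4
export JS4 (hinge_energy)

end Porous
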