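import Pool.Agent.Porous.SU
import Pool.Agent.Porous.S5a
import Pool.Agent.Porous.S1

open MeasureTheory Complex Set
open scoped ContDiff ENNReal
noncomputable section
namespace Porous
namespace JS6a

/-! TARGET -/



theorem h170_pos {θ : ℂ → ℝ} (m : ℕ) (x : ℂ)
    (hact : ∀ p : ℤ × ℤ, θ (x - lp p) ≠ 0 → SpP m p) (t q : ℤ × ℤ)
    (h : θ (x - Lm m * lp t - lp q) ≠ 0) :
    SpP m (q.1 + (2 * (m : ℤ) + 3) * t.1, q.2 + (2 * (m : ℤ) + 3) * t.2) := by
  apply hact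
  have : x - Lm m * lp t - lp q =
      x - lp (q.1 + (2 * (m : ℤ) + 3) * t.1, q.2 + (2 * (m : ℤ) + 3) * t.2) := by
    unfold lp Lm
    push_cast
    ring
  rw [this] at h
  exact h

theorem h170_T1 {θ : ℂ → ℝ} (Xi : ℂ → ℝ) (m : ℕ) (hm : 2 ≤ m) (a : ℝ) (c x y : ℂ)
    (hact : ∀ p : ℤ × ℤ, θ (x - lp p) ≠ 0 → SpP m p) (t p : ℤ × ℤ) (ht : t ≠ 0) :
    θ (x - Lm m * lp t - lp p) * Dev Xi m a c p y = 0 := by
  by_cases hp : Sp m p
  · by_cases h : θ (x - Lm m * lp t - lp p) = 0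
    · rw [h, zero_mul]
    · exfalso
      have h1 := h170_pos m x hact t p h
      obtain ⟨u1, -, -, -, -, -, u7, -, -⟩ := special_unique m hm p t hp
      rcases h1 with h1 | h1 | h1 | h1
      · exact ht (u1 _ h1 ⟨rfl, rfl⟩).1
      · rw [Prod.mk.injEq] at h1
        obtain ⟨-, -, -, u4, -⟩ := special_unique m hm p (-t.1, -t.2) hp
        exact u4 ⟨by linarith [h1.1], by linarith [h1.2]⟩
      · rw [Prod.mk.injEq] at h1
        obtain ⟨-, -, -, u4, -⟩ := special_unique m hm p (1 - t.1, -t.2) hp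
        exact u4 ⟨by linarith [h1.1], by linarith [h1.2]⟩
      · rw [Prod.mk.injEq] at h1
        exact u7 ⟨h1.1.symm, h1.2.symm⟩
  · rw [Dev, if_neg hp, mul_zero]

theorem h170_T2 {θ : ℂ → ℝ} (Xi : ℂ → ℝ) (m : ℕ) (hm : 2 ≤ m) (a : ℝ) (c x y : ℂ)
    (hact : ∀ p : ℤ × ℤ, θ (x - lp p) ≠ 0 → SpP m p) (t p : ℤ × ℤ) (ht : ¬ (t = 0 ∧ p = (1, 1))) :
    θ (x - Lm m * lp t - lp (rotL m p)) * Dev Xi m a c p y = 0 := by
  by_cases hp : Sp m p
  · by_cases h : θ (x - Lm m * lp t - lp (rotL m p)) = 0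
    · rw [h, zero_mul]
    · exfalso
      have h1 := h170_pos m x hact t (rotL m p) h
      obtain ⟨-, u2, -, -, -, -, -, u8, -⟩ := special_unique m hm p t hp
      rcases h1 with h1 | h1 | h1 | h1
      · exact u2 _ h1 ⟨rfl, rfl⟩
      · rw [Prod.mk.injEq] at h1
        obtain ⟨-, -, -, -, u5, -⟩ := special_unique m hm p (-t.1, -t.2) hp
        exact u5 ⟨by linarith [h1.1], by linarith [h1.2]⟩
      · rw [Prod.mk.injEq] at h1
        obtain ⟨-, -, -, -, u5, -⟩ := special_unique m hm p (1 - t.1, -t.2) hp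
        exact u5 ⟨by linarith [h1.1], by linarith [h1.2]⟩
      · rw [Prod.mk.injEq] at h1
        exact ht (u8 ⟨h1.1.symm, h1.2.symm⟩)
  · rw [Dev, if_neg hp, mul_zero]

theorem h170_T3 {θ : ℂ → ℝ} (Xi : ℂ → ℝ) (m : ℕ) (hm : 2 ≤ m) (a : ℝ) (c x y : ℂ)
    (hact : ∀ p : ℤ × ℤ, θ (x - lp p) ≠ 0 → SpP m p) (t p : ℤ × ℤ) :
    θ (x - Lm m * lp t - lp (rotL m (rotL m p))) * Dev Xi m a c p y = 0 := by
  by_cases hp : Sp m p
  · by_cases h : θ (x - Lm m * lp t - lp (rotL m (rotL m p))) = 0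
    · rw [h, zero_mul]
    · exfalso
      have h1 := h170_pos m x hact t (rotL m (rotL m p)) h
      obtain ⟨-, -, u3, -, -, -, -, -, u9⟩ := special_unique m hm p t hp
      rcases h1 with h1 | h1 | h1 | h1
      · exact u3 _ h1 ⟨rfl, rfl⟩
      · rw [Prod.mk.injEq] at h1
        obtain ⟨-, -, -, -, -, u6, -⟩ := special_unique m hm p (-t.1, -t.2) hp
        exact u6 ⟨by linarith [h1.1], by linarith [h1.2]⟩
      · rw [Prod.mk.injEq] at h1
        obtain ⟨-, -, -, -, -, u6, -⟩ := special_unique m hm p (1 - t.1, -t.2) hp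
        exact u6 ⟨by linarith [h1.1], by linarith [h1.2]⟩
      · rw [Prod.mk.injEq] at h1
        exact u9 ⟨h1.1.symm, h1.2.symm⟩
  · rw [Dev, if_neg hp, mul_zero]

theorem h170_T4 {θ : ℂ → ℝ} (m : ℕ) (hm : 2 ≤ m) (x : ℂ)
    (hact : ∀ p : ℤ × ℤ, θ (x - lp p) ≠ 0 → SpP m p) (t : ℤ × ℤ) (ht0 : t ≠ 0) (ht1 : t ≠ (1, 0)) :
    θ (x - Lm m * lp t) = 0 := by
  by_contra h
  have h0 : x - Lm m * lp t = x - Lm m * lp t - lp (0, 0) := by
    unfold lp; simp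
  rw [h0] at h
  have h1 := h170_pos m x hact t (0, 0) h
  simp only [zero_add] at h1
  have hL : (2 * (m : ℤ) + 3) ≠ 0 := by positivity
  rcases h1 with h1 | h1 | h1 | h1
  · obtain ⟨-, -, -, u4, -⟩ := special_unique m hm _ t h1
    exact u4 ⟨rfl, rfl⟩
  · rw [Prod.mk.injEq] at h1
    apply ht0
    exact Prod.ext ((mul_eq_zero.1 h1.1).resolve_left hL) ((mul_eq_zero.1 h1.2).resolve_left hL)
  · rw [Prod.mk.injEq] at h1
    apply ht1
    refine Prod.ext ?_ ((mul_eq_zero.1 h1.2).resolve_left hL)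
    exact mul_left_cancel₀ hL (by rw [h1.1, mul_one])
  · rw [Prod.mk.injEq] at h1
    have h2 : (2 * (m : ℤ) + 3) ∣ 1 := ⟨t.2, h1.2.symm⟩
    have h3 := Int.le_of_dvd one_pos h2
    omega

theorem h170_box (m : ℕ) (p : ℤ × ℤ) (hp : Sp m p) : p ∈ box m := by
  unfold box
  rw [Finset.mem_product, Finset.mem_Icc, Finset.mem_Icc]
  rcases hp with ⟨h1, h2, h3⟩ | ⟨h1, i, hi, h2⟩ | ⟨h1, i, hi, h2⟩
  · exact ⟨⟨h2, h3⟩, by omega, by omega⟩
  · exact ⟨⟨by omega, by omega⟩, by omega, by omega⟩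
  · exact ⟨⟨by omega, by omega⟩, by omega, by omega⟩

theorem h170_box_mem (m : ℕ) (p : ℤ × ℤ) : p ∈ box m ↔ (1 ≤ p.1 ∧ p.1 ≤ 2 * (m : ℤ) + 2) ∧ (-1 ≤ p.2 ∧ p.2 ≤ 1) := by
  unfold box
  rw [Finset.mem_product, Finset.mem_Icc, Finset.mem_Icc]

theorem h170_HH0 {θ : ℂ → ℝ} (Xi : ℂ → ℝ) (m : ℕ) (hm : 2 ≤ m) (a : ℝ) (c x : ℂ)
    (hact : ∀ p : ℤ × ℤ, θ (x - lp p) ≠ 0 → SpP m p) :
    HH θ Xi m a c (x - Lm m * lp 0) = -(θ x * qf c x) + ∑ p ∈ box m, θ (x - lp p) * Dev Xi m a c p x +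
      θ (x - lp (2 * (m : ℤ) + 1, 1)) * Dev Xi m a (c * zt ^ 4) (1, 1) (zt ^ 4 * (x - Lm m)) := by
  have e0 : x - Lm m * lp 0 = x := by
    unfold lp; simp
  unfold HH
  rw [add_assoc]
  rw [Finset.sum_add_distrib, Finset.sum_add_distrib]
  have s3 : ∑ p ∈ box m, θ (x - Lm m * lp 0 - lp (rotL m (rotL m p))) *
      Dev Xi m a (c * zt ^ 2) p (zt ^ 2 * (x - Lm m * lp 0) + Lm m) = 0 :=
    Finset.sum_eq_zero fun p _ => h170_T3 Xi m hm a _ x _ hact 0 p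
  have h11 : ((1, 1) : ℤ × ℤ) ∈ box m := by
    rw [h170_box_mem]; exact ⟨⟨by simp, by simp; omega⟩, by simp, by simp⟩
  have s2 : ∑ p ∈ box m, θ (x - Lm m * lp 0 - lp (rotL m p)) *
      Dev Xi m a (c * zt ^ 4) p (zt ^ 4 * (x - Lm m * lp 0 - Lm m)) =
      θ (x - lp (2 * (m : ℤ) + 1, 1)) * Dev Xi m a (c * zt ^ 4) (1, 1) (zt ^ 4 * (x - Lm m)) := by
    rw [Finset.sum_eq_single_of_mem (1, 1) h11]
    · have : rotL m (1, 1) = (2 * (m : ℤ) + 1, 1) := by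
        unfold rotL
        ext <;> simp
        ring
      rw [this, e0]
    · intro p _ hp
      exact h170_T2 Xi m hm a _ x _ hact 0 p (fun h => hp h.2)
  rw [s2, s3, e0, add_zero]

theorem h170_HH1 {θ : ℂ → ℝ} (Xi : ℂ → ℝ) (m : ℕ) (hm : 2 ≤ m) (a : ℝ) (c x : ℂ)
    (hact : ∀ p : ℤ × ℤ, θ (x - lp p) ≠ 0 → SpP m p) (t : ℤ × ℤ) (ht : t ≠ 0) :
    HH θ Xi m a c (x - Lm m * lp t) = -(θ (x - Lm m * lp t) * qf c (x - Lm m * lp t)) := by
  unfold HH
  rw [Finset.sum_eq_zero, add_zero]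
  intro p _
  rw [h170_T1 Xi m hm a _ x _ hact t p ht, h170_T2 Xi m hm a _ x _ hact t p (fun h => ht h.1),
    h170_T3 Xi m hm a _ x _ hact t p]
  simp

theorem h170_dd {θ : ℂ → ℝ} (Xi : ℂ → ℝ) (m : ℕ) (hm : 2 ≤ m) (a : ℝ) (c x : ℂ)
    (hact : ∀ p : ℤ × ℤ, θ (x - lp p) ≠ 0 → SpP m p) :
    dd θ Xi m a c x = -(θ x * qf c x) + ∑ p ∈ box m, θ (x - lp p) * Dev Xi m a c p x +
      θ (x - lp (2 * (m : ℤ) + 1, 1)) * Dev Xi m a (c * zt ^ 4) (1, 1) (zt ^ 4 * (x - Lm m)) -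
      θ (x - Lm m) * qf c (x - Lm m) := by
  unfold dd
  have hne : (0 : ℤ × ℤ) ≠ (1, 0) := by decide
  rw [tsum_eq_sum (s := ({0, (1, 0)} : Finset (ℤ × ℤ)))]
  · rw [Finset.sum_pair hne, h170_HH0 Xi m hm a c x hact, h170_HH1 Xi m hm a c x hact (1, 0) hne.symm]
    have e1 : x - Lm m * lp (1, 0) = x - Lm m := by
      unfold lp; simp
    rw [e1]
    ring
  · intro t ht
    rw [Finset.mem_insert, Finset.mem_singleton, not_or] at ht
    rw [h170_HH1 Xi m hm a c x hact t ht.1, h170_T4 m hm x hact t ht.1 ht.2]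
    simp

/-- evaluation of the Airy function at points where only special lattice points of the first side are active -/
theorem dd_eval {θ : ℂ → ℝ} (hθ : ThetaOK θ) (Xi : ℂ → ℝ) (m : ℕ) (hm : 2 ≤ m) (a : ℝ) (c x : ℂ)
    (hact : ∀ p : ℤ × ℤ, θ (x - lp p) ≠ 0 → SpP m p) :
    qf c x + dd θ Xi m a c x = ∑' p : ℤ × ℤ, θ (x - lp p) * VV Xi m a c p x := by
  classical
  rw [h170_dd Xi m hm a c x hact]
  set B : Finset (ℤ × ℤ) := insert (0, 0) (insert (2 * (m : ℤ) + 3, 0) (box m)) with hB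
  have n1 : ((2 * (m : ℤ) + 3, 0) : ℤ × ℤ) ∉ box m := by
    rw [h170_box_mem]; simp
  have n0 : ((0, 0) : ℤ × ℤ) ∉ insert ((2 * (m : ℤ) + 3, 0) : ℤ × ℤ) (box m) := by
    rw [Finset.mem_insert, not_or, h170_box_mem]
    constructor
    · intro h
      rw [Prod.mk.injEq] at h
      omega
    · simp
  have h21 : ((2 * (m : ℤ) + 1, 1) : ℤ × ℤ) ∈ box m := by
    rw [h170_box_mem]; exact ⟨⟨by simp, by simp⟩, by simp, by simp⟩
  have hout : ∀ p : ℤ × ℤ, p ∉ B → θ (x - lp p) = 0 := by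
    intro p hp
    by_contra h
    apply hp
    rw [hB, Finset.mem_insert, Finset.mem_insert]
    rcases hact p h with h1 | h1 | h1 | h1
    · exact Or.inr (Or.inr (h170_box m p h1))
    · exact Or.inl h1
    · exact Or.inr (Or.inl h1)
    · rw [h1]; exact Or.inr (Or.inr h21)
  rw [tsum_eq_sum (s := B) (fun p hp => by rw [hout p hp, zero_mul])]
  have hone : ∑ p ∈ B, θ (x - lp p) = 1 := by
    rw [← hθ.sum_one x]
    exact (tsum_eq_sum (fun p hp => hout p hp)).symm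
  have hq : qf c x = ∑ p ∈ B, θ (x - lp p) * qf c x := by
    rw [← Finset.sum_mul, hone, one_mul]
  have hsub : ∑ p ∈ B, θ (x - lp p) * VV Xi m a c p x =
      qf c x + ∑ p ∈ B, θ (x - lp p) * (VV Xi m a c p x - qf c x) := by
    conv_rhs => rw [hq]
    rw [← Finset.sum_add_distrib]
    refine Finset.sum_congr rfl fun p _ => ?_
    rw [← hq]
    ring
  rw [hsub, hB, Finset.sum_insert n0, Finset.sum_insert n1]
  have v0 : θ (x - lp (0, 0)) * (VV Xi m a c (0, 0) x - qf c x) = -(θ x * qf c x) := by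
    have e : x - lp (0, 0) = x := by unfold lp; simp
    rw [e, VV, if_pos rfl]
    ring
  have v1 : θ (x - lp (2 * (m : ℤ) + 3, 0)) * (VV Xi m a c (2 * (m : ℤ) + 3, 0) x - qf c x) =
      -(θ (x - Lm m) * qf c (x - Lm m)) := by
    have e : x - lp (2 * (m : ℤ) + 3, 0) = x - Lm m := by
      unfold lp Lm; push_cast; ring
    have hne : ((2 * (m : ℤ) + 3, 0) : ℤ × ℤ) ≠ (0, 0) := by
      intro h
      rw [Prod.mk.injEq] at h
      omega
    rw [e, VV, if_neg hne, if_pos rfl, (qf_tangent m c x).1]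
    ring
  rw [v0, v1]
  have hbox : ∑ p ∈ box m, θ (x - lp p) * (VV Xi m a c p x - qf c x) =
      ∑ p ∈ box m, θ (x - lp p) * Dev Xi m a c p x +
      θ (x - lp (2 * (m : ℤ) + 1, 1)) * Dev Xi m a (c * zt ^ 4) (1, 1) (zt ^ 4 * (x - Lm m)) := by
    have hite : θ (x - lp (2 * (m : ℤ) + 1, 1)) * Dev Xi m a (c * zt ^ 4) (1, 1) (zt ^ 4 * (x - Lm m)) =
        ∑ p ∈ box m, if p = (2 * (m : ℤ) + 1, 1) then
          θ (x - lp (2 * (m : ℤ) + 1, 1)) * Dev Xi m a (c * zt ^ 4) (1, 1) (zt ^ 4 * (x - Lm m)) else 0 := by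
      rw [Finset.sum_ite_eq' (box m) ((2 * (m : ℤ) + 1, 1) : ℤ × ℤ), if_pos h21]
    rw [hite, ← Finset.sum_add_distrib]
    refine Finset.sum_congr rfl fun p hp => ?_
    rw [h170_box_mem] at hp
    have p0 : p ≠ (0, 0) := by
      rintro rfl; simp at hp
    have p1 : p ≠ (2 * (m : ℤ) + 3, 0) := by
      rintro rfl; simp at hp
    by_cases hz : θ (x - lp p) = 0
    · by_cases hpe : p = (2 * (m : ℤ) + 1, 1)
      · rw [if_pos hpe, ← hpe, hz]; ring
      · rw [if_neg hpe, hz]; ring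
    · by_cases hpe : p = (2 * (m : ℤ) + 1, 1)
      · rw [if_pos hpe]
        have hns : ¬ Sp m p := by
          rw [hpe]
          rintro (⟨h1, -⟩ | ⟨-, i, hi, h2⟩ | ⟨h1, -⟩)
          · simp at h1
          · simp only at h2; omega
          · simp at h1
        have hs : Sp m (1, 1) := Or.inr (Or.inl ⟨rfl, 0, by omega, by simp⟩)
        have d1 : Dev Xi m a c p x = 0 := by rw [Dev, if_neg hns]
        have d2 : Dev Xi m a (c * zt ^ 4) (1, 1) (zt ^ 4 * (x - Lm m)) =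
            LD Xi m a (c * zt ^ 4) 0 (zt ^ 4 * (x - Lm m)) - qf (c * zt ^ 4) (zt ^ 4 * (x - Lm m)) := by
          rw [Dev, if_pos hs, LL]
          simp
        have d3 : VV Xi m a c p x = lM m c x + LD Xi m a (c * zt ^ 4) 0 (zt ^ 4 * (x - Lm m)) := by
          rw [VV, if_neg p0, if_neg p1, if_pos hpe]
        rw [d1, d2, d3, (qf_tangent m c x).2, hpe]
        ring
      · rw [if_neg hpe]
        have hs : Sp m p := by
          rcases hact p hz with h | h | h | h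
          · exact h
          · exact absurd h p0
          · exact absurd h p1
          · exact absurd h hpe
        rw [Dev, if_pos hs, VV, if_neg p0, if_neg p1, if_neg hpe]
        ring
  rw [hbox]
  ring


end JS6a
export JS6a (dd_eval)

end Porous
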