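import Pool.Agent.Porous.S5a
import Pool.Agent.Porous.S6b0

open MeasureTheory Complex Set
open scoped ContDiff ENNReal
noncomputable section
namespace Porous
namespace JS6b1

theorem ln_near_aux {Xi : ℂ → ℝ} {K : ℝ} (hXi : XiOK Xi K) (m : ℕ) (a : ℝ) (ha : 0 < a) (c : ℂ)
    (s : ℝ) (j : ℕ) (hN : 0.95 * a ≤ ‖(s : ℂ) - hx.N j‖) (x : ℂ) (hx' : ‖x - (s : ℂ)‖ ≤ a / 100) :
    (Even j → (j : ℝ) + 2 ≤ s → LN Xi m a c j x = bp m c (j / 2) x) ∧
    (Even j → s ≤ (j : ℝ) + 2 → LN Xi m a c j x = wp m c ((j + 1) / 2) x) ∧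
    (¬ Even j → (j : ℝ) + 2 ≤ s → LN Xi m a c j x = wp m c ((j + 1) / 2) x) ∧
    (¬ Even j → s ≤ (j : ℝ) + 2 → LN Xi m a c j x = bp m c (j / 2) x) := by
  have hNj : (s : ℂ) - hx.N j = ((s - ((j : ℝ) + 2) : ℝ) : ℂ) := by
    simp [Frame.N, Frame.pt, hx]
  have hnorm : ‖(s : ℂ) - hx.N j‖ = |s - ((j : ℝ) + 2)| := by
    rw [hNj, Complex.norm_real, Real.norm_eq_abs]
  have h3 : (Real.sqrt 3) ^ 2 = 3 := Real.sq_sqrt (by norm_num)
  have h3' : Real.sqrt 3 * Real.sqrt 3 = 3 := Real.mul_self_sqrt (by norm_num)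
  have hzt : ‖zt‖ = 1 := by
    rw [Complex.norm_def, Complex.normSq_apply]
    have : zt.re * zt.re + zt.im * zt.im = 1 := by
      simp only [zt]; nlinarith
    rw [this, Real.sqrt_one]
  have hzt2 : ‖zt ^ 2‖ = 1 := by rw [norm_pow, hzt, one_pow]
  have hre1 : zt.re = 1 / 2 := rfl
  have hre2 : (zt ^ 2).re = -(1 / 2) := by
    rw [pow_two, Complex.mul_re]; simp only [zt]; nlinarith
  have hmul : ∀ d : ℂ, (((s : ℂ) - hx.N j) * (starRingEnd ℂ) d).re = (s - ((j : ℝ) + 2)) * d.re := by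
    intro d
    rw [hNj, Complex.re_ofReal_mul, Complex.conj_re]
  refine ⟨?_, ?_, ?_, ?_⟩
  · intro he hs
    have h := (hg_sector hXi a ha (hx.N j) zt hzt (wp m c ((j + 1) / 2)) (bp m c (j / 2)) s x hN hx').1
    unfold LN
    rw [if_pos he]
    apply h
    rw [hmul, hnorm, hre1, abs_of_nonneg (by linarith)]
    norm_num; linarith
  · intro he hs
    have h := (hg_sector hXi a ha (hx.N j) zt hzt (wp m c ((j + 1) / 2)) (bp m c (j / 2)) s x hN hx').2
    unfold LN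
    rw [if_pos he]
    apply h
    rw [hmul, hnorm, hre1, abs_of_nonpos (by linarith)]
    norm_num; linarith
  · intro he hs
    have h := (hg_sector hXi a ha (hx.N j) (zt ^ 2) hzt2 (wp m c ((j + 1) / 2)) (bp m c (j / 2)) s x hN hx').2
    unfold LN
    rw [if_neg he]
    apply h
    rw [hmul, hnorm, hre2, abs_of_nonneg (by linarith)]
    norm_num; linarith
  · intro he hs
    have h := (hg_sector hXi a ha (hx.N j) (zt ^ 2) hzt2 (wp m c ((j + 1) / 2)) (bp m c (j / 2)) s x hN hx').1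
    unfold LN
    rw [if_neg he]
    apply h
    rw [hmul, hnorm, hre2, abs_of_nonpos (by linarith)]
    norm_num; linarith

theorem vv_node_aux (Xi : ℂ → ℝ) (m : ℕ) (a : ℝ) (c : ℂ) (j : ℕ) (hj : j < 2 * m) (k : ℤ)
    (hk : k = (j : ℤ) + 2) (x : ℂ) : VV Xi m a c (k, 0) x = LN Xi m a c j x := by
  subst hk
  have h1 : (((j : ℤ) + 2, 0) : ℤ × ℤ) ≠ (0, 0) := by
    intro h; simp only [Prod.mk.injEq] at h; omega
  have h2 : (((j : ℤ) + 2, 0) : ℤ × ℤ) ≠ (2 * (m : ℤ) + 3, 0) := by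
    intro h; simp only [Prod.mk.injEq] at h; omega
  have h3 : (((j : ℤ) + 2, 0) : ℤ × ℤ) ≠ (2 * (m : ℤ) + 1, 1) := by
    intro h; simp only [Prod.mk.injEq] at h; omega
  unfold VV
  rw [if_neg h1, if_neg h2, if_neg h3]
  unfold LL
  have h4 : ((j : ℤ) + 2 - 2).toNat = j := by omega
  simp only [if_true]
  rw [if_neg (by omega), if_neg (by omega), h4]

theorem vv_one_aux (Xi : ℂ → ℝ) (m : ℕ) (a : ℝ) (c : ℂ) (x : ℂ) : VV Xi m a c (1, 0) x = 0 := by
  have h1 : ((1, 0) : ℤ × ℤ) ≠ (0, 0) := by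
    intro h; simp only [Prod.mk.injEq] at h; omega
  have h2 : ((1, 0) : ℤ × ℤ) ≠ (2 * (m : ℤ) + 3, 0) := by
    intro h; simp only [Prod.mk.injEq] at h; omega
  have h3 : ((1, 0) : ℤ × ℤ) ≠ (2 * (m : ℤ) + 1, 1) := by
    intro h; simp only [Prod.mk.injEq] at h; omega
  unfold VV
  rw [if_neg h1, if_neg h2, if_neg h3]
  unfold LL
  simp

theorem vv_last_aux (Xi : ℂ → ℝ) (m : ℕ) (a : ℝ) (c : ℂ) (k : ℤ) (hk : k = 2 * (m : ℤ) + 2) (x : ℂ) :
    VV Xi m a c (k, 0) x = lM m c x := by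
  subst hk
  have h1 : ((2 * (m : ℤ) + 2, 0) : ℤ × ℤ) ≠ (0, 0) := by
    intro h; simp only [Prod.mk.injEq] at h; omega
  have h2 : ((2 * (m : ℤ) + 2, 0) : ℤ × ℤ) ≠ (2 * (m : ℤ) + 3, 0) := by
    intro h; simp only [Prod.mk.injEq] at h; omega
  have h3 : ((2 * (m : ℤ) + 2, 0) : ℤ × ℤ) ≠ (2 * (m : ℤ) + 1, 1) := by
    intro h; simp only [Prod.mk.injEq] at h; omega
  unfold VV
  rw [if_neg h1, if_neg h2, if_neg h3]
  unfold LL
  simp only [if_true]
  rw [if_neg (by omega)]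

theorem vv_end_aux (Xi : ℂ → ℝ) (m : ℕ) (a : ℝ) (c : ℂ) (k : ℤ) (hk : k = 2 * (m : ℤ) + 3) (x : ℂ) :
    VV Xi m a c (k, 0) x = lM m c x := by
  subst hk
  have h1 : ((2 * (m : ℤ) + 3, 0) : ℤ × ℤ) ≠ (0, 0) := by
    intro h; simp only [Prod.mk.injEq] at h; omega
  unfold VV
  rw [if_neg h1, if_pos rfl]

theorem vv_zero_aux (Xi : ℂ → ℝ) (m : ℕ) (a : ℝ) (c : ℂ) (x : ℂ) : VV Xi m a c (0, 0) x = 0 := by
  unfold VV
  rw [if_pos rfl]

theorem spP_aux (m : ℕ) (k : ℤ) (h0 : 0 ≤ k) (h1 : k ≤ 2 * (m : ℤ) + 3) : SpP m (k, 0) := by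
  rcases eq_or_lt_of_le h0 with h | h
  · right; left; rw [← h]
  · rcases eq_or_lt_of_le h1 with h' | h'
    · right; right; left; rw [h']
    · left; left; exact ⟨rfl, by show (1 : ℤ) ≤ k; omega, by show k ≤ 2 * (m : ℤ) + 2; omega⟩

/-! TARGET -/

/-- cracks on the line `r = 0` -/
theorem near_line {θ : ℂ → ℝ} (hθ : ThetaOK θ) {Xi : ℂ → ℝ} {K : ℝ} (hXi : XiOK Xi K) (m : ℕ) (hm : 4 ≤ m)
    (a : ℝ) (ha : 0 < a) (ha' : a ≤ 1 / (100 * (m : ℝ))) (c y : ℂ) (h0 : hx.cr y = 0) (h1 : 0 ≤ hx.cs y)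
    (h2 : hx.cs y ≤ Lm m) (hN : ∀ j < 2 * m, 0.95 * a ≤ ‖y - hx.N j‖) :
    ∃ (α : ℝ) (g : ℂ), ∀ x, ‖x - y‖ ≤ a / 100 → ∀ p : ℤ × ℤ, θ (x - lp p) ≠ 0 →
      SpP m p ∧ VV Xi m a c p x = α + (g * x).re := by
  obtain ⟨s, hs⟩ : ∃ s : ℝ, s = hx.cs y := ⟨_, rfl⟩
  have hy : y = (s : ℂ) := by
    have h := Frame.pt_cs_cr hx_good y
    rw [h0, ← hs] at h
    rw [← h]
    simp [Frame.pt, hx]
  rw [← hs] at h1 h2
  unfold Lm at h2
  have hm' : (4 : ℝ) ≤ m := by exact_mod_cast hm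
  have ha2 : a / 100 ≤ 0.005 := by
    have h5 : a * (100 * (m : ℝ)) ≤ 1 := by rwa [le_div_iff₀ (by positivity)] at ha'
    have h6 : a ≤ 1 / 400 := by nlinarith
    norm_num
    linarith
  -- the edge
  obtain ⟨n, hn, hn0, hn1⟩ : ∃ n : ℕ, n ≤ 2 * m + 2 ∧ (n : ℝ) ≤ s ∧ s ≤ (n : ℝ) + 1 := by
    by_cases hc : s < 2 * (m : ℝ) + 3
    · refine ⟨⌊s⌋₊, ?_, Nat.floor_le h1, (Nat.lt_floor_add_one s).le⟩
      have : ⌊s⌋₊ < 2 * m + 3 := by
        rw [Nat.floor_lt h1]; push_cast; exact hc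
      omega
    · refine ⟨2 * m + 2, le_rfl, ?_, ?_⟩
      · push_cast; linarith
      · push_cast; linarith
  have hact : ∀ x, ‖x - y‖ ≤ a / 100 → ∀ p : ℤ × ℤ, θ (x - lp p) ≠ 0 →
      p = ((n : ℤ), 0) ∨ p = ((n : ℤ) + 1, 0) := by
    intro x hx' p hp
    have hp' : ‖x - lp p‖ < 0.86 := by
      by_contra hcon
      exact hp (hθ.supp _ (not_lt.mp hcon))
    have he := active_edge ((n : ℤ), 0) (1, 0) (Or.inl rfl) (s - n) (by linarith) (by linarith) x
      (by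
        have : (lp ((n : ℤ), 0) + ((s - n : ℝ) : ℂ) * lp (1, 0)) = y := by
          rw [hy]; simp [lp]
        rw [this]; linarith) p hp'
    simpa using he
  have hsp0 : SpP m ((n : ℤ), 0) := spP_aux m _ (by omega) (by omega)
  have hsp1 : SpP m ((n : ℤ) + 1, 0) := spP_aux m _ (by omega) (by omega)
  -- reduce to a plane
  have hred : ∀ L : ℂ → ℝ, (∃ (α : ℝ) (g : ℂ), ∀ x, L x = α + (g * x).re) →
      (∀ x, ‖x - y‖ ≤ a / 100 → VV Xi m a c ((n : ℤ), 0) x = L x ∧ VV Xi m a c ((n : ℤ) + 1, 0) x = L x) →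
      ∃ (α : ℝ) (g : ℂ), ∀ x, ‖x - y‖ ≤ a / 100 → ∀ p : ℤ × ℤ, θ (x - lp p) ≠ 0 →
      SpP m p ∧ VV Xi m a c p x = α + (g * x).re := by
    rintro L ⟨α, g, hL⟩ h
    refine ⟨α, g, fun x hx' p hp => ?_⟩
    rcases hact x hx' p hp with rfl | rfl
    · exact ⟨hsp0, by rw [(h x hx').1, hL]⟩
    · exact ⟨hsp1, by rw [(h x hx').2, hL]⟩
  have hln : ∀ j < 2 * m, ∀ x, ‖x - y‖ ≤ a / 100 →
    (Even j → (j : ℝ) + 2 ≤ s → LN Xi m a c j x = bp m c (j / 2) x) ∧
    (Even j → s ≤ (j : ℝ) + 2 → LN Xi m a c j x = wp m c ((j + 1) / 2) x) ∧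
    (¬ Even j → (j : ℝ) + 2 ≤ s → LN Xi m a c j x = wp m c ((j + 1) / 2) x) ∧
    (¬ Even j → s ≤ (j : ℝ) + 2 → LN Xi m a c j x = bp m c (j / 2) x) := by
    intro j hj x hx'
    have := hN j hj
    rw [hy] at this hx'
    exact ln_near_aux hXi m a ha c s j this x hx'
  rcases Nat.eq_zero_or_pos n with hn2 | hn2
  · -- first edge
    subst hn2
    apply hred (fun _ => 0) ⟨0, 0, by simp⟩
    intro x _
    exact ⟨by simpa using vv_zero_aux Xi m a c x, by simpa using vv_one_aux Xi m a c x⟩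
  rcases Nat.lt_or_ge n (2 * m + 2) with hn3 | hn3
  · rcases Nat.even_or_odd' n with ⟨i, hi | hi⟩
    · -- n = 2 i, i = i' + 1
      obtain ⟨i', rfl⟩ : ∃ i', i = i' + 1 := ⟨i - 1, by omega⟩
      have hi' : i' < m := by omega
      apply hred (bp m c i') (planes_affine m c i').1
      intro x hx'
      constructor
      · rw [vv_node_aux Xi m a c (2 * i') (by omega) _ (by omega)]
        rw [(hln (2 * i') (by omega) x hx').1 (by simp) (by
          have : (n : ℝ) = 2 * (i' : ℝ) + 2 := by rw [hi]; push_cast; ring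
          push_cast; linarith)]
        congr 1
        omega
      · rw [vv_node_aux Xi m a c (2 * i' + 1) (by omega) _ (by omega)]
        rw [(hln (2 * i' + 1) (by omega) x hx').2.2.2 (by simp) (by
          have : (n : ℝ) = 2 * (i' : ℝ) + 2 := by rw [hi]; push_cast; ring
          push_cast; linarith)]
        congr 1
        omega
    · -- n = 2 i + 1
      have hi' : i ≤ m := by omega
      have hnr : (n : ℝ) = 2 * (i : ℝ) + 1 := by rw [hi]; push_cast; ring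
      apply hred (wp m c i) (planes_affine m c i).2.1
      intro x hx'
      constructor
      · rcases Nat.eq_zero_or_pos i with h | h
        · subst h
          have : (n : ℤ) = 1 := by omega
          rw [this, vv_one_aux]
          simp [wp]
        · rw [vv_node_aux Xi m a c (2 * i - 1) (by omega) _ (by omega)]
          have hodd : ¬ Even (2 * i - 1) := by
            rw [Nat.not_even_iff_odd]
            exact ⟨i - 1, by omega⟩
          rw [(hln (2 * i - 1) (by omega) x hx').2.2.1 hodd (by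
            have : ((2 * i - 1 : ℕ) : ℝ) = 2 * (i : ℝ) - 1 := by
              rw [Nat.cast_sub (by omega)]; push_cast; ring
            rw [this]; linarith)]
          congr 1
          omega
      · rcases Nat.lt_or_ge i m with h | h
        · rw [vv_node_aux Xi m a c (2 * i) (by omega) _ (by omega)]
          rw [(hln (2 * i) (by omega) x hx').2.1 (by simp) (by
            push_cast; linarith)]
          congr 1
          omega
        · have him : i = m := by omega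
          rw [vv_last_aux Xi m a c _ (by omega)]
          subst him
          unfold wp
          rw [if_neg (by omega), if_pos rfl]
  · -- last edge
    have hn4 : n = 2 * m + 2 := by omega
    apply hred (lM m c) (planes_affine m c 0).2.2.2
    intro x _
    exact ⟨vv_last_aux Xi m a c _ (by omega) x, vv_end_aux Xi m a c _ (by omega) x⟩


end JS6b1
export JS6b1 (near_line)

end Porous
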