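import Pool.Agent.Porous.S5a
import Pool.Agent.Porous.S6b0

open MeasureTheory Complex Set
open scoped ContDiff ENNReal
noncomputable section
namespace Porous
namespace JS6b2

/-! TARGET -/

theorem zt_re : zt.re = 1 / 2 := rfl
theorem zt_im : zt.im = Real.sqrt 3 / 2 := rfl

theorem sq3 : Real.sqrt 3 * Real.sqrt 3 = 3 := Real.mul_self_sqrt (by norm_num)

theorem zt_sq : zt ^ 2 = zt - 1 := by
  apply Complex.ext
  · rw [pow_two, Complex.mul_re, Complex.sub_re, zt_re, zt_im, Complex.one_re]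
    nlinarith [sq3]
  · rw [pow_two, Complex.mul_im, Complex.sub_im, zt_re, zt_im, Complex.one_im]
    ring

theorem zt_conj : (starRingEnd ℂ) zt = 1 - zt := by
  apply Complex.ext
  · rw [Complex.conj_re, Complex.sub_re, zt_re, Complex.one_re]; norm_num
  · rw [Complex.conj_im, Complex.sub_im, zt_im, Complex.one_im]; ring

theorem zt_norm : ‖zt‖ = 1 := by
  have h : ‖zt‖ ^ 2 = 1 := by
    rw [← Complex.normSq_eq_norm_sq, Complex.normSq_apply, zt_re, zt_im]
    nlinarith [sq3]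
  have h0 : 0 ≤ ‖zt‖ := norm_nonneg _
  nlinarith

theorem sector_pos (w e d : ℂ) (t : ℝ) (ht : 0 ≤ t) (he : ‖e‖ = 1) (hw : w = (t : ℂ) * e)
    (h : (e * (starRingEnd ℂ) d).re = 1 / 2) : 0.5 * ‖w‖ ≤ (w * (starRingEnd ℂ) d).re := by
  rw [hw, norm_mul, he, Complex.norm_real, Real.norm_of_nonneg ht, mul_assoc,
    Complex.re_ofReal_mul, h]
  linarith

theorem sector_neg (w e d : ℂ) (t : ℝ) (ht : 0 ≤ t) (he : ‖e‖ = 1) (hw : w = (t : ℂ) * e)
    (h : (e * (starRingEnd ℂ) d).re = -(1 / 2)) : (w * (starRingEnd ℂ) d).re ≤ -0.5 * ‖w‖ := by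
  rw [hw, norm_mul, he, Complex.norm_real, Real.norm_of_nonneg ht, mul_assoc,
    Complex.re_ofReal_mul, h]
  linarith

theorem y_eq (y : ℂ) : y = (hx.cs y : ℂ) + (hx.cr y : ℂ) * zt := by
  have h := Frame.pt_cs_cr hx_good y
  unfold Frame.pt hx at h
  simp only [zero_add, mul_one] at h
  exact h.symm

theorem N_eq (j : ℕ) : hx.N j = (j : ℂ) + 2 := by
  unfold Frame.N Frame.pt hx
  push_cast
  ring

theorem D_eq (i : ℕ) : hx.D i = 2 * (i : ℂ) + 1 + zt := by
  unfold Frame.D Frame.pt hx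
  push_cast
  ring

theorem supp' {θ : ℂ → ℝ} (hθ : ThetaOK θ) {x : ℂ} (h : θ x ≠ 0) : ‖x‖ < 0.86 := by
  by_contra hcon
  push Not at hcon
  exact h (hθ.supp x hcon)

/-- values at the node points -/
theorem VV_even (Xi : ℂ → ℝ) (m : ℕ) (a : ℝ) (c : ℂ) (i : ℕ) (hi : i < m) (x : ℂ) :
    VV Xi m a c (2 * (i : ℤ) + 2, 0) x =
      hg Xi a (hx.N (2 * i)) zt (wp m c i) (bp m c i) x := by
  unfold VV
  rw [if_neg (by simp only [Prod.mk.injEq]; omega), if_neg (by simp only [Prod.mk.injEq]; omega),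
    if_neg (by simp only [Prod.mk.injEq]; omega)]
  unfold LL
  rw [if_pos rfl, if_neg (by dsimp only; omega), if_neg (by dsimp only; omega)]
  unfold LN
  dsimp only
  have e1 : (2 * (i : ℤ) + 2 - 2).toNat = 2 * i := by omega
  rw [e1, if_pos (even_two_mul i)]
  have e2 : (2 * i + 1) / 2 = i := by omega
  have e3 : (2 * i) / 2 = i := by omega
  rw [e2, e3]

theorem VV_odd (Xi : ℂ → ℝ) (m : ℕ) (a : ℝ) (c : ℂ) (i : ℕ) (hi : i < m) (x : ℂ) :
    VV Xi m a c (2 * (i : ℤ) + 3, 0) x =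
      hg Xi a (hx.N (2 * i + 1)) (zt ^ 2) (wp m c (i + 1)) (bp m c i) x := by
  unfold VV
  rw [if_neg (by simp only [Prod.mk.injEq]; omega), if_neg (by simp only [Prod.mk.injEq]; omega),
    if_neg (by simp only [Prod.mk.injEq]; omega)]
  unfold LL
  rw [if_pos rfl, if_neg (by dsimp only; omega), if_neg (by dsimp only; omega)]
  unfold LN
  dsimp only
  have e1 : (2 * (i : ℤ) + 3 - 2).toNat = 2 * i + 1 := by omega
  rw [e1, if_neg (by simp)]
  have e2 : (2 * i + 1 + 1) / 2 = i + 1 := by omega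
  have e3 : (2 * i + 1) / 2 = i := by omega
  rw [e2, e3]

theorem VV_D (Xi : ℂ → ℝ) (m : ℕ) (a : ℝ) (c : ℂ) (i : ℕ) (hi : i < m) (x : ℂ) :
    VV Xi m a c (2 * (i : ℤ) + 1, 1) x = LD Xi m a c i x := by
  unfold VV
  rw [if_neg (by simp), if_neg (by simp),
    if_neg (by simp only [Prod.mk.injEq]; omega)]
  unfold LL
  rw [if_neg (by simp), if_pos rfl]
  dsimp only
  have e1 : ((2 * (i : ℤ) + 1 - 1) / 2).toNat = i := by omega
  rw [e1]

theorem VV_last (Xi : ℂ → ℝ) (m : ℕ) (a : ℝ) (c : ℂ) (x : ℂ) :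
    VV Xi m a c (2 * (m : ℤ) + 1, 1) x =
      lM m c x + LD Xi m a (c * zt ^ 4) 0 (zt ^ 4 * (x - Lm m)) := by
  unfold VV
  rw [if_neg (by simp), if_neg (by simp), if_pos rfl]

/-- cracks in the black triangle -/
theorem near_black {θ : ℂ → ℝ} (hθ : ThetaOK θ) {Xi : ℂ → ℝ} {K : ℝ} (hXi : XiOK Xi K) (m : ℕ) (hm : 4 ≤ m)
    (a : ℝ) (ha : 0 < a) (ha' : a ≤ 1 / (100 * (m : ℝ))) (c y : ℂ) (i : ℕ) (hi : i < m)
    (h0 : 0 ≤ hx.cr y) (h1 : hx.cr y ≤ 1)
    (h2 : hx.cs y + hx.cr y = 2 * (i : ℝ) + 2 ∨ hx.cs y = 2 * (i : ℝ) + 3)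
    (hN : ∀ j < 2 * m, 0.95 * a ≤ ‖y - hx.N j‖) (hD : ∀ i ≤ m, 0.95 * a ≤ ‖y - hx.D i‖) :
    ∃ (α : ℝ) (g : ℂ), ∀ x, ‖x - y‖ ≤ a / 100 → ∀ p : ℤ × ℤ, θ (x - lp p) ≠ 0 →
      SpP m p ∧ VV Xi m a c p x = α + (g * x).re := by
  obtain ⟨⟨α, g, hαg⟩, -⟩ := planes_affine m c i
  refine ⟨α, g, ?_⟩
  intro x hxy p hp
  rw [← hαg x]
  have hp' := supp' hθ hp
  have hm' : (4 : ℝ) ≤ m := by exact_mod_cast hm
  have ha1 : a ≤ 1 / 400 := by
    refine ha'.trans ?_
    apply one_div_le_one_div_of_le (by norm_num)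
    linarith
  have hxy' : ‖x - y‖ ≤ 0.005 := by
    refine hxy.trans ?_
    linarith
  have hy := y_eq y
  obtain ⟨r, hr⟩ : ∃ r, r = hx.cr y := ⟨_, rfl⟩
  rw [← hr] at h0 h1 h2 hy
  have hzz : zt ^ 2 = zt - 1 := zt_sq
  have hzn : ‖zt‖ = 1 := zt_norm
  have hz1 : ‖(1 : ℂ) - zt‖ = 1 := by
    rw [← zt_conj, RCLike.norm_conj, hzn]
  rcases h2 with h2 | h2
  · have hs : (hx.cs y : ℂ) = 2 * (i : ℂ) + 2 - r := by
      have : hx.cs y = 2 * (i : ℝ) + 2 - r := by linarith
      rw [this]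
      push_cast
      ring
    rw [hs] at hy
    have hact := active_edge (2 * (i : ℤ) + 2, 0) (-1, 1) (Or.inr (Or.inr rfl)) r h0 h1 x (by
      have : lp (2 * (i : ℤ) + 2, 0) + (r : ℂ) * lp (-1, 1) = y := by
        rw [hy]
        unfold lp
        push_cast
        ring
      rw [this]
      exact hxy') p hp'
    rcases hact with rfl | hpe
    · refine ⟨Or.inl (Or.inl ⟨rfl, by dsimp only; omega, by dsimp only; omega⟩), ?_⟩
      rw [VV_even Xi m a c i hi]
      refine (hg_sector hXi a ha _ zt hzn _ _ y x (hN (2 * i) (by omega)) hxy).1 ?_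
      apply sector_pos _ (zt ^ 2) zt r h0 (by rw [norm_pow, hzn, one_pow])
      · rw [N_eq, hy, hzz]
        push_cast
        ring
      · have : zt ^ 2 * (starRingEnd ℂ) zt = zt := by
          rw [zt_conj]
          linear_combination (-zt - 0) * hzz
        rw [this]
        exact zt_re
    · have hpe' : p = (2 * (i : ℤ) + 1, 1) := by
        rw [hpe, Prod.mk_add_mk, Prod.mk.injEq]
        constructor <;> ring
      rw [hpe']
      refine ⟨Or.inl (Or.inr (Or.inl ⟨rfl, i, hi, rfl⟩)), ?_⟩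
      rw [VV_D Xi m a c i hi]
      unfold LD
      refine (hg_sector hXi a ha _ 1 norm_one _ _ y x (hD i hi.le) hxy).1 ?_
      apply sector_pos _ (1 - zt) 1 (1 - r) (by linarith) hz1
      · rw [D_eq, hy]
        push_cast
        ring
      · rw [map_one, mul_one, Complex.sub_re, Complex.one_re, zt_re]
        norm_num
  · have hs : (hx.cs y : ℂ) = 2 * (i : ℂ) + 3 := by
      rw [h2]
      push_cast
      ring
    rw [hs] at hy
    have hact := active_edge (2 * (i : ℤ) + 3, 0) (0, 1) (Or.inr (Or.inl rfl)) r h0 h1 x (by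
      have : lp (2 * (i : ℤ) + 3, 0) + (r : ℂ) * lp (0, 1) = y := by
        rw [hy]
        unfold lp
        push_cast
        ring
      rw [this]
      exact hxy') p hp'
    rcases hact with rfl | hpe
    · refine ⟨Or.inl (Or.inl ⟨rfl, by dsimp only; omega, by dsimp only; omega⟩), ?_⟩
      rw [VV_odd Xi m a c i hi]
      refine (hg_sector hXi a ha _ (zt ^ 2) (by rw [norm_pow, hzn, one_pow]) _ _ y x
        (hN (2 * i + 1) (by omega)) hxy).1 ?_
      apply sector_pos _ zt (zt ^ 2) r h0 hzn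
      · rw [N_eq, hy]
        push_cast
        ring
      · have : zt * (starRingEnd ℂ) (zt ^ 2) = 1 - zt := by
          rw [map_pow, zt_conj]
          linear_combination (zt - 1) * hzz
        rw [this, Complex.sub_re, Complex.one_re, zt_re]
        norm_num
    · have hpe' : p = (2 * (i : ℤ) + 3, 1) := by
        rw [hpe, Prod.mk_add_mk, Prod.mk.injEq]
        constructor <;> ring
      by_cases him : i + 1 < m
      · have hpe2 : p = (2 * ((i + 1 : ℕ) : ℤ) + 1, 1) := by
          rw [hpe', Prod.mk.injEq]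
          constructor
          · push_cast; ring
          · rfl
        rw [hpe2]
        refine ⟨Or.inl (Or.inr (Or.inl ⟨rfl, i + 1, him, rfl⟩)), ?_⟩
        rw [VV_D Xi m a c (i + 1) him]
        unfold LD
        rw [if_neg (by omega)]
        have e4 : i + 1 - 1 = i := by omega
        rw [e4]
        refine (hg_sector hXi a ha _ 1 norm_one _ _ y x (hD (i + 1) him.le) hxy).2 ?_
        apply sector_neg _ (-zt) 1 (1 - r) (by linarith) (by rw [norm_neg, hzn])
        · rw [D_eq, hy]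
          push_cast
          ring
        · rw [map_one, mul_one, Complex.neg_re, zt_re]
      · have him' : i + 1 = m := by omega
        have hpe2 : p = (2 * (m : ℤ) + 1, 1) := by
          rw [hpe', Prod.mk.injEq]
          constructor
          · rw [← him']; push_cast; ring
          · rfl
        rw [hpe2]
        refine ⟨Or.inr (Or.inr (Or.inr rfl)), ?_⟩
        rw [VV_last]
        have hDm := hD m le_rfl
        have hmi : (m : ℂ) = (i : ℂ) + 1 := by rw [← him']; push_cast; ring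
        have hz3 : zt ^ 3 = -1 := by linear_combination (zt + 1) * hzz
        have e5 : zt ^ 4 * (y - Lm m) - hx.D 0 = zt ^ 4 * (y - hx.D m) := by
          rw [D_eq, D_eq]
          unfold Lm
          push_cast
          linear_combination (-2 * zt + zt ^ 2) * hz3 - hzz
        have hz4 : ‖zt ^ 4‖ = 1 := by rw [norm_pow, hzn, one_pow]
        have e6 : ‖zt ^ 4 * (y - Lm m) - hx.D 0‖ = ‖y - hx.D m‖ := by
          rw [e5, norm_mul, hz4, one_mul]
        have e7 : ‖zt ^ 4 * (x - Lm m) - zt ^ 4 * (y - Lm m)‖ ≤ a / 100 := by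
          rw [← mul_sub, norm_mul, hz4, one_mul, sub_sub_sub_cancel_right]
          exact hxy
        unfold LD
        rw [if_pos rfl]
        rw [(hg_sector hXi a ha _ 1 norm_one _ _ (zt ^ 4 * (y - Lm m)) (zt ^ 4 * (x - Lm m))
          (by rw [e6]; exact hDm) e7).2 ?_]
        · rw [closing m (by omega) c x]
          have : m - 1 = i := by omega
          rw [this]
        · apply sector_neg _ (zt ^ 2) 1 (1 - r) (by linarith) (by rw [norm_pow, hzn, one_pow])
          · rw [e5, D_eq, hy, hmi]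
            push_cast
            linear_combination (-(1 - r) * zt ^ 2 : ℂ) * hz3
          · rw [map_one, mul_one, hzz, Complex.sub_re, Complex.one_re, zt_re]
            norm_num


end JS6b2
export JS6b2 (near_black)

end Porous
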