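import Pool.Agent.Porous.S5a
import Pool.Agent.Porous.S6b0

open MeasureTheory Complex Set
open scoped ContDiff ENNReal
noncomputable section
namespace Porous
namespace JS6b3

namespace W63

theorem sq3 : Real.sqrt 3 * Real.sqrt 3 = 3 := Real.mul_self_sqrt (by norm_num)

theorem nsq (u v : ℝ) : ‖(u : ℂ) + v * zt‖ ^ 2 = u ^ 2 + u * v + v ^ 2 := by
  rw [← Complex.normSq_eq_norm_sq, Complex.normSq_apply]
  simp only [zt, Complex.add_re, Complex.add_im, Complex.mul_re, Complex.mul_im, Complex.ofReal_re,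
    Complex.ofReal_im]
  have := sq3
  nlinarith [this]

theorem re_one (u v : ℝ) : (((u : ℂ) + v * zt) * (starRingEnd ℂ) 1).re = u + v / 2 := by
  simp only [zt, map_one, mul_one, Complex.add_re, Complex.mul_re, Complex.ofReal_re,
    Complex.ofReal_im]
  ring

theorem re_zt (u v : ℝ) : (((u : ℂ) + v * zt) * (starRingEnd ℂ) zt).re = u / 2 + v := by
  simp only [zt, Complex.add_re, Complex.add_im, Complex.mul_re, Complex.mul_im, Complex.ofReal_re,
    Complex.ofReal_im, Complex.conj_re, Complex.conj_im]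
  linear_combination (v / 4) * sq3

theorem re_zt2 (u v : ℝ) : (((u : ℂ) + v * zt) * (starRingEnd ℂ) (zt ^ 2)).re = (v - u) / 2 := by
  rw [map_pow, pow_two]
  simp only [zt, Complex.add_re, Complex.add_im, Complex.mul_re, Complex.mul_im, Complex.ofReal_re,
    Complex.ofReal_im, Complex.conj_re, Complex.conj_im]
  linear_combination (-(u + v / 2) / 4 + v / 4) * sq3

theorem norm_zt : ‖zt‖ = 1 := by
  have h := nsq 0 1
  simp only [Complex.ofReal_zero, Complex.ofReal_one, zero_add, one_mul] at h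
  norm_num at h
  rcases h with h | h
  · exact h
  · have := norm_nonneg zt
    linarith

theorem norm_zt2 : ‖zt ^ 2‖ = 1 := by
  rw [norm_pow, norm_zt, one_pow]

theorem y_eq (y : ℂ) : y = (hx.cs y : ℂ) + (hx.cr y : ℂ) * zt := by
  have h := Frame.pt_cs_cr hx_good y
  unfold Frame.pt at h
  simp only [hx] at h ⊢
  rw [zero_add, mul_one] at h
  exact h.symm

theorem N_eq (j : ℕ) : hx.N j = (((j : ℝ) + 2 : ℝ) : ℂ) := by
  unfold Frame.N Frame.pt
  simp [hx]

theorem U_eq (m i : ℕ) : hx.U m i = ((2 * (i : ℝ) + 3 : ℝ) : ℂ) + ((-1 + 1 / (2 * (m : ℝ) + 3) : ℝ) : ℂ) * zt := by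
  unfold Frame.U Frame.pt
  simp only [hx]
  ring

theorem lp_edge (i : ℕ) : lp (2 * (i : ℤ) + 3, -1) = ((2 * (i : ℝ) + 3 : ℝ) : ℂ) - zt := by
  unfold lp
  push_cast
  ring

end W63

open W63 in
/-- cracks in the white triangle -/
theorem near_white {θ : ℂ → ℝ} (hθ : ThetaOK θ) {Xi : ℂ → ℝ} {K : ℝ} (hXi : XiOK Xi K) (m : ℕ) (hm : 4 ≤ m)
    (a : ℝ) (ha : 0 < a) (ha' : a ≤ 1 / (100 * (m : ℝ))) (c y : ℂ) (i : ℕ) (hi : i < m)
    (h0 : hx.cr y ≤ 0) (h1 : -1 ≤ hx.cr y)
    (h2 : hx.cs y + hx.cr y = 2 * (i : ℝ) + 2 ∨ hx.cs y = 2 * (i : ℝ) + 3)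
    (hN : ∀ j < 2 * m, 0.95 * a ≤ ‖y - hx.N j‖) (hU : ∀ i < m, 0.95 * a ≤ ‖y - hx.U m i‖) :
    ∃ (α : ℝ) (g : ℂ), ∀ x, ‖x - y‖ ≤ a / 100 → ∀ p : ℤ × ℤ, θ (x - lp p) ≠ 0 →
      SpP m p ∧ VV Xi m a c p x = α + (g * x).re := by
  have hmR : (4 : ℝ) ≤ m := by exact_mod_cast hm
  have ha2 : a ≤ 1 / 400 := by
    refine ha'.trans ?_
    apply one_div_le_one_div_of_le (by norm_num)
    linarith
  have hact : ∀ x p, θ (x - lp p) ≠ 0 → ‖x - lp p‖ < 0.86 := by
    intro x p hp
    by_contra h
    push Not at h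
    exact hp (hθ.supp _ h)
  set s := hx.cs y with hs
  set r := hx.cr y with hr
  have hy : y = (s : ℂ) + (r : ℂ) * zt := y_eq y
  set δ : ℝ := 1 / (2 * (m : ℝ) + 3) with hδ
  have hδ0 : 0 < δ := by positivity
  have hδ1 : δ ≤ 1 / 11 := by
    rw [hδ]
    apply one_div_le_one_div_of_le (by norm_num)
    linarith
  -- the special points
  have sp1 : SpP m (2 * (i : ℤ) + 3, -1) := by
    left; right; right
    exact ⟨rfl, i, hi, rfl⟩
  have v1 : ∀ x, VV Xi m a c (2 * (i : ℤ) + 3, -1) x = LU Xi m a c i x := by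
    intro x
    unfold VV LL
    rw [if_neg (by simp), if_neg (by simp), if_neg (by simp), if_neg (by norm_num), if_neg (by norm_num)]
    congr 1
    simp only
    omega
  rcases h2 with h2 | h2
  · -- edge of direction 120 degrees
    have hs2 : s = 2 * (i : ℝ) + 2 - r := by linarith
    obtain ⟨α, g, hag⟩ := (planes_affine m c i).2.1
    refine ⟨α, g, fun x hx1 p hp => ?_⟩
    have hedge := active_edge (2 * (i : ℤ) + 3, -1) (-1, 1) (Or.inr (Or.inr rfl)) (r + 1) (by linarith) (by linarith)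
      x (by
        have e : lp (2 * (i : ℤ) + 3, -1) + ((r + 1 : ℝ) : ℂ) * lp (-1, 1) = y := by
          rw [hy, hs2]
          unfold lp
          push_cast
          ring
        rw [e]
        refine hx1.trans ?_
        linarith) p (hact x p hp)
    have sp2 : SpP m (2 * (i : ℤ) + 2, 0) := by
      left; left
      refine ⟨rfl, ?_, ?_⟩
      · show 1 ≤ 2 * (i : ℤ) + 2
        omega
      · show 2 * (i : ℤ) + 2 ≤ 2 * (m : ℤ) + 2
        omega
    have v2 : VV Xi m a c (2 * (i : ℤ) + 2, 0) x = LN Xi m a c (2 * i) x := by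
      unfold VV LL
      rw [if_neg (by simp; omega), if_neg (by simp; omega), if_neg (by simp), if_pos rfl, if_neg (by simp; omega),
        if_neg (by simp; omega)]
      congr 1
      simp only
      omega
    rcases hedge with h | h
    · rw [h]
      refine ⟨sp1, ?_⟩
      rw [v1, LU, ← hag]
      refine (hg_sector hXi a ha (hx.U m i) 1 (by simp) _ _ y x (hU i hi) hx1).2 ?_
      have e : y - hx.U m i = ((-(r + 1) : ℝ) : ℂ) + ((r + 1 - δ : ℝ) : ℂ) * zt := by
        rw [hy, U_eq, hs2, hδ]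
        push_cast
        ring
      rw [e, re_one]
      have hn := nsq (-(r + 1)) (r + 1 - δ)
      have hn0 := norm_nonneg (((-(r + 1) : ℝ) : ℂ) + ((r + 1 - δ : ℝ) : ℂ) * zt)
      generalize ‖((-(r + 1) : ℝ) : ℂ) + ((r + 1 - δ : ℝ) : ℂ) * zt‖ = q at *
      have ht : 0 ≤ r + 1 := by linarith
      have hq : q ≤ (r + 1) + δ := by
        apply le_of_sq_le_sq _ (by linarith)
        rw [hn]
        nlinarith [mul_nonneg ht hδ0.le]
      norm_num
      linarith
    · have h' : p = (2 * (i : ℤ) + 2, 0) := by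
        rw [h]
        ext
        · simp; ring
        · simp
      rw [h']
      refine ⟨sp2, ?_⟩
      rw [v2, LN, if_pos (even_two_mul i), ← hag]
      have e1 : (2 * i + 1) / 2 = i := by omega
      rw [e1]
      refine (hg_sector hXi a ha (hx.N (2 * i)) zt norm_zt _ _ y x (hN (2 * i) (by omega)) hx1).2 ?_
      have e : y - hx.N (2 * i) = ((-r : ℝ) : ℂ) + ((r : ℝ) : ℂ) * zt := by
        rw [hy, N_eq, hs2]
        push_cast
        ring
      rw [e, re_zt]
      have hn := nsq (-r) r
      have hn0 := norm_nonneg (((-r : ℝ) : ℂ) + ((r : ℝ) : ℂ) * zt)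
      generalize ‖((-r : ℝ) : ℂ) + ((r : ℝ) : ℂ) * zt‖ = q at *
      have hq : q ≤ -r := by
        apply le_of_sq_le_sq _ (by linarith)
        rw [hn]
        nlinarith
      norm_num
      linarith
  · -- edge of direction 60 degrees
    have hedge : ∀ x, ‖x - y‖ ≤ a / 100 → ∀ p : ℤ × ℤ, θ (x - lp p) ≠ 0 →
        p = (2 * (i : ℤ) + 3, -1) ∨ p = (2 * (i : ℤ) + 3, 0) := by
      intro x hx1 p hp
      have h3 := active_edge (2 * (i : ℤ) + 3, -1) (0, 1) (Or.inr (Or.inl rfl)) (r + 1) (by linarith) (by linarith)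
        x (by
          have e : lp (2 * (i : ℤ) + 3, -1) + ((r + 1 : ℝ) : ℂ) * lp (0, 1) = y := by
            rw [hy, h2]
            unfold lp
            push_cast
            ring
          rw [e]
          refine hx1.trans ?_
          linarith) p (hact x p hp)
      rcases h3 with h | h
      · exact Or.inl h
      · right
        rw [h]
        ext
        · simp
        · simp
    have eU : y - hx.U m i = ((0 : ℝ) : ℂ) + ((r + 1 - δ : ℝ) : ℂ) * zt := by
      rw [hy, U_eq, h2, hδ]
      push_cast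
      ring
    have nU : ‖((0 : ℝ) : ℂ) + ((r + 1 - δ : ℝ) : ℂ) * zt‖ = |r + 1 - δ| := by
      rw [Complex.ofReal_zero, zero_add, norm_mul, norm_zt, mul_one, Complex.norm_real, Real.norm_eq_abs]
    rcases le_or_gt δ (r + 1) with ht | ht
    · obtain ⟨α, g, hag⟩ := (planes_affine m c (i + 1)).2.1
      refine ⟨α, g, fun x hx1 p hp => ?_⟩
      rcases hedge x hx1 p hp with h | h
      · rw [h]
        refine ⟨sp1, ?_⟩
        rw [v1, LU, ← hag]
        refine (hg_sector hXi a ha (hx.U m i) 1 (by simp) _ _ y x (hU i hi) hx1).1 ?_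
        rw [eU, re_one, nU, abs_of_nonneg (by linarith)]
        norm_num
        linarith
      · rw [h]
        have sp2 : SpP m (2 * (i : ℤ) + 3, 0) := by
          left; left
          refine ⟨rfl, ?_, ?_⟩
          · show 1 ≤ 2 * (i : ℤ) + 3
            omega
          · show 2 * (i : ℤ) + 3 ≤ 2 * (m : ℤ) + 2
            omega
        have v2 : VV Xi m a c (2 * (i : ℤ) + 3, 0) x = LN Xi m a c (2 * i + 1) x := by
          unfold VV LL
          rw [if_neg (by simp; omega), if_neg (by simp; omega), if_neg (by simp), if_pos rfl, if_neg (by simp; omega),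
            if_neg (by simp; omega)]
          congr 1
          simp only
          omega
        refine ⟨sp2, ?_⟩
        have hodd : ¬ Even (2 * i + 1) := by
          rw [Nat.not_even_iff_odd]
          exact odd_two_mul_add_one i
        rw [v2, LN, if_neg hodd, ← hag]
        have e1 : (2 * i + 1 + 1) / 2 = i + 1 := by omega
        rw [e1]
        refine (hg_sector hXi a ha (hx.N (2 * i + 1)) (zt ^ 2) norm_zt2 _ _ y x (hN (2 * i + 1) (by omega)) hx1).2 ?_
        have e : y - hx.N (2 * i + 1) = ((0 : ℝ) : ℂ) + ((r : ℝ) : ℂ) * zt := by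
          rw [hy, N_eq, h2]
          push_cast
          ring
        rw [e, re_zt2]
        have nn : ‖((0 : ℝ) : ℂ) + ((r : ℝ) : ℂ) * zt‖ = |r| := by
          rw [Complex.ofReal_zero, zero_add, norm_mul, norm_zt, mul_one, Complex.norm_real, Real.norm_eq_abs]
        rw [nn, abs_of_nonpos h0]
        norm_num
        linarith
    · obtain ⟨α, g, hag⟩ := (planes_affine m c i).2.1
      refine ⟨α, g, fun x hx1 p hp => ?_⟩
      rcases hedge x hx1 p hp with h | h
      · rw [h]
        refine ⟨sp1, ?_⟩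
        rw [v1, LU, ← hag]
        refine (hg_sector hXi a ha (hx.U m i) 1 (by simp) _ _ y x (hU i hi) hx1).2 ?_
        rw [eU, re_one, nU, abs_of_neg (by linarith)]
        norm_num
        linarith
      · exfalso
        rw [h] at hp
        have h4 := hact x _ hp
        have e : y - lp (2 * (i : ℤ) + 3, 0) = ((0 : ℝ) : ℂ) + ((r : ℝ) : ℂ) * zt := by
          rw [hy, h2]
          unfold lp
          push_cast
          ring
        have nn : ‖((0 : ℝ) : ℂ) + ((r : ℝ) : ℂ) * zt‖ = |r| := by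
          rw [Complex.ofReal_zero, zero_add, norm_mul, norm_zt, mul_one, Complex.norm_real, Real.norm_eq_abs]
        rw [← e, abs_of_nonpos h0] at nn
        have h5 : ‖y - lp (2 * (i : ℤ) + 3, 0)‖ ≤ ‖x - lp (2 * (i : ℤ) + 3, 0)‖ + ‖x - y‖ := by
          have : y - lp (2 * (i : ℤ) + 3, 0) = (x - lp (2 * (i : ℤ) + 3, 0)) - (x - y) := by ring
          rw [this]
          exact norm_sub_le _ _
        norm_num at h4
        linarith


end JS6b3
export JS6b3 (near_white)

end Porous
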