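import Pool.Agent.Porous.S5a
import Pool.Agent.Porous.S6b0

open MeasureTheory Complex Set
open scoped ContDiff ENNReal
noncomputable section
namespace Porous
namespace JS6b4

/-! TARGET -/

lemma zt_re : zt.re = 1 / 2 := rfl
lemma zt_im : zt.im = Real.sqrt 3 / 2 := rfl

lemma sqrt3_sq : Real.sqrt 3 ^ 2 = 3 := Real.sq_sqrt (by norm_num)

lemma node_aux (j : ℕ) (s r : ℝ) :
    ‖(s : ℂ) + r * zt‖ ^ 2 = s ^ 2 + s * r + r ^ 2 ∧
    (((s : ℂ) + r * zt) * (starRingEnd ℂ) zt).re = s / 2 + r ∧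
    (((s : ℂ) + r * zt) * (starRingEnd ℂ) (zt ^ 2)).re = (-s + r) / 2 := by
  have h3 := sqrt3_sq
  refine ⟨?_, ?_, ?_⟩
  · rw [← Complex.normSq_eq_norm_sq, Complex.normSq_apply]
    simp only [Complex.add_re, Complex.add_im, Complex.mul_re, Complex.mul_im, Complex.ofReal_re,
      Complex.ofReal_im, zt_re, zt_im]
    linear_combination (r ^ 2 / 4) * h3
  · simp only [Complex.add_re, Complex.add_im, Complex.mul_re, Complex.mul_im, Complex.ofReal_re,
      Complex.ofReal_im, zt_re, zt_im, Complex.conj_re, Complex.conj_im]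
    linear_combination (r / 4) * h3
  · simp only [map_pow, pow_two, Complex.add_re, Complex.add_im, Complex.mul_re, Complex.mul_im, Complex.ofReal_re,
      Complex.ofReal_im, zt_re, zt_im, Complex.conj_re, Complex.conj_im]
    linear_combination (-s / 4 + r / 8) * h3

lemma norm_zt : ‖zt‖ = 1 := by
  have h := (node_aux 0 0 1).1
  simp only [Complex.ofReal_zero, Complex.ofReal_one, zero_add, one_mul] at h
  have h2 : ‖zt‖ ^ 2 = 1 := by rw [h]; norm_num
  have h3 : 0 ≤ ‖zt‖ := norm_nonneg _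
  nlinarith

/-- the black and white sectors at a node, outside the small ball -/
theorem near_arc {θ : ℂ → ℝ} (hθ : ThetaOK θ) {Xi : ℂ → ℝ} {K : ℝ} (hXi : XiOK Xi K) (m : ℕ) (hm : 4 ≤ m)
    (a : ℝ) (ha : 0 < a) (ha' : a ≤ 1 / (100 * (m : ℝ))) (c y : ℂ) (j : ℕ) (hj : j < 2 * m)
    (h0 : 0.95 * a ≤ ‖y - hx.N j‖) (h1 : ‖y - hx.N j‖ ≤ 3 * a)
    (h2 : (0 ≤ hx.cr y ∧ 0 ≤ lam j (hx.cs y) (hx.cr y)) ∨ (hx.cr y ≤ 0 ∧ lam j (hx.cs y) (hx.cr y) ≤ 0)) :
    ∃ (α : ℝ) (g : ℂ), ∀ x, ‖x - y‖ ≤ a / 100 → ∀ p : ℤ × ℤ, θ (x - lp p) ≠ 0 →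
      SpP m p ∧ VV Xi m a c p x = α + (g * x).re := by
  have hN : hx.N j = lp ((j : ℤ) + 2, 0) := by
    unfold Frame.N Frame.pt lp hx
    push_cast
    ring
  have ha2 : a ≤ 1 / 400 := by
    refine ha'.trans ?_
    have hm' : (4 : ℝ) ≤ m := by exact_mod_cast hm
    exact one_div_le_one_div_of_le (by norm_num) (by linarith)
  -- only one active point
  have hact : ∀ x, ‖x - y‖ ≤ a / 100 → ∀ p : ℤ × ℤ, θ (x - lp p) ≠ 0 → p = ((j : ℤ) + 2, 0) := by
    intro x hx1 p hp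
    refine active_point _ x ?_ p ?_
    · rw [← hN]
      have h3 : x - hx.N j = (x - y) + (y - hx.N j) := by ring
      rw [h3]
      refine (norm_add_le _ _).trans ?_
      linarith
    · by_contra hcon
      push Not at hcon
      exact hp (hθ.supp _ hcon)
  have hSp : SpP m ((j : ℤ) + 2, 0) := by
    left; left
    refine ⟨rfl, ?_, ?_⟩
    · show (1 : ℤ) ≤ (j : ℤ) + 2
      omega
    · show (j : ℤ) + 2 ≤ 2 * (m : ℤ) + 2
      omega
  have hVV : ∀ x, VV Xi m a c ((j : ℤ) + 2, 0) x = LN Xi m a c j x := by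
    intro x
    unfold VV LL
    have e1 : ¬ (((j : ℤ) + 2, (0 : ℤ)) = ((0 : ℤ), (0 : ℤ))) := by
      intro h; have := congrArg Prod.fst h; simp only at this; omega
    have e2 : ¬ (((j : ℤ) + 2, (0 : ℤ)) = (2 * (m : ℤ) + 3, (0 : ℤ))) := by
      intro h; have := congrArg Prod.fst h; simp only at this; omega
    have e3 : ¬ (((j : ℤ) + 2, (0 : ℤ)) = (2 * (m : ℤ) + 1, (1 : ℤ))) := by
      intro h; have := congrArg Prod.snd h; simp only at this; omega
    have e4 : ¬ ((j : ℤ) + 2 = 1) := by omega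
    have e5 : ¬ ((j : ℤ) + 2 = 2 * (m : ℤ) + 2) := by omega
    have e6 : ((j : ℤ) + 2 - 2).toNat = j := by omega
    rw [if_neg e1, if_neg e2, if_neg e3]
    simp only [if_true, if_neg e4, if_neg e5, e6]
  -- coordinates
  set s' : ℝ := hx.cs y - ((j : ℝ) + 2) with hs'
  set r : ℝ := hx.cr y with hr
  have hyN : y - hx.N j = (s' : ℂ) + r * zt := by
    have h3 := Frame.pt_cs_cr hx_good y
    conv_lhs => rw [← h3]
    unfold Frame.N Frame.pt
    have hO : hx.O = 0 := rfl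
    have hτ : hx.τ = 1 := rfl
    have hσ : hx.σ = zt := rfl
    rw [hO, hτ, hσ, hs', ← hr]
    push_cast
    ring
  obtain ⟨n1, n2, n3⟩ := node_aux j s' r
  rw [← hyN] at n1 n2 n3
  set d : ℂ := if Even j then zt else zt ^ 2 with hd
  have hd1 : ‖d‖ = 1 := by
    rw [hd]
    split_ifs
    · exact norm_zt
    · rw [norm_pow, norm_zt, one_pow]
  set l : ℝ := lam j (hx.cs y) r with hl
  have hre : ((y - hx.N j) * (starRingEnd ℂ) d).re = (l + r) / 2 ∧ ‖y - hx.N j‖ ^ 2 = l ^ 2 - l * r + r ^ 2 := by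
    rw [hd, hl]
    unfold lam
    by_cases he : Even j
    · rw [if_pos he, if_pos he]
      refine ⟨?_, ?_⟩
      · rw [n2, hs']; ring
      · rw [n1, hs']; ring
    · rw [if_neg he, if_neg he]
      refine ⟨?_, ?_⟩
      · rw [n3, hs']; ring
      · rw [n1, hs']; ring
  have hsec := fun x hxy => hg_sector hXi a ha (hx.N j) d hd1 (wp m c ((j + 1) / 2)) (bp m c (j / 2)) y x h0 hxy
  have hLN : ∀ x, LN Xi m a c j x = hg Xi a (hx.N j) d (wp m c ((j + 1) / 2)) (bp m c (j / 2)) x := fun x => rfl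
  obtain ⟨hre1, hre2⟩ := hre
  have hnn : 0 ≤ ‖y - hx.N j‖ := norm_nonneg _
  rcases h2 with ⟨hr0, hl0⟩ | ⟨hr0, hl0⟩
  · obtain ⟨α, g, hαg⟩ := (planes_affine m c (j / 2)).1
    refine ⟨α, g, fun x hxy p hp => ?_⟩
    obtain rfl := hact x hxy p hp
    refine ⟨hSp, ?_⟩
    rw [hVV, hLN, (hsec x hxy).1 ?_, hαg]
    have h5 : ‖y - hx.N j‖ ≤ l + r := by
      refine abs_le_of_sq_le_sq' ?_ (by positivity) |>.2
      rw [hre2]
      nlinarith [mul_nonneg hl0 hr0]
    rw [hre1]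
    linarith
  · obtain ⟨α, g, hαg⟩ := (planes_affine m c ((j + 1) / 2)).2.1
    refine ⟨α, g, fun x hxy p hp => ?_⟩
    obtain rfl := hact x hxy p hp
    refine ⟨hSp, ?_⟩
    rw [hVV, hLN, (hsec x hxy).2 ?_, hαg]
    have h5 : ‖y - hx.N j‖ ≤ -(l + r) := by
      refine abs_le_of_sq_le_sq' ?_ (by linarith) |>.2
      rw [hre2]
      nlinarith [mul_nonneg_of_nonpos_of_nonpos hl0 hr0]
    rw [hre1]
    linarith


end JS6b4
export JS6b4 (near_arc)

end Porous
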