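import Pool.Agent.Porous.S6b0
import Pool.Agent.Porous.S6b1
import Pool.Agent.Porous.S6b2
import Pool.Agent.Porous.S6b3
import Pool.Agent.Porous.S6b4
import Pool.Agent.Porous.S6a

open MeasureTheory Complex Set
open scoped ContDiff ENNReal
noncomputable section
namespace Porous
namespace JS6c1

/-! TARGET -/

/-- the Airy function is affine near the cracks of the first side -/
theorem near_side {θ : ℂ → ℝ} (hθ : ThetaOK θ) {Xi : ℂ → ℝ} {K : ℝ} (hXi : XiOK Xi K) (m : ℕ) (hm : 4 ≤ m)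
    (a : ℝ) (ha : 0 < a) (ha' : a ≤ 1 / (100 * (m : ℝ))) (c y : ℂ) (hy : y ∈ sideG hx m a) :
    ∃ (α : ℝ) (g : ℂ), ∀ x, ‖x - y‖ ≤ a / 100 → qf c x + dd θ Xi m a c x = α + (g * x).re := by
  have key : ∃ (α : ℝ) (g : ℂ), ∀ x, ‖x - y‖ ≤ a / 100 → ∀ p : ℤ × ℤ, θ (x - lp p) ≠ 0 →
      SpP m p ∧ VV Xi m a c p x = α + (g * x).re := by
    rcases hy with ⟨hE, hN, hD, hU⟩ | ⟨j, hj, hjn, hs⟩
    · have hN' : ∀ j < 2 * m, 0.95 * a ≤ ‖y - hx.N j‖ := fun j hj => by
        have := hN j hj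
        linarith
      have hD' : ∀ i ≤ m, 0.95 * a ≤ ‖y - hx.D i‖ := fun i hi => by
        have := hD i hi
        linarith
      have hU' : ∀ i < m, 0.95 * a ≤ ‖y - hx.U m i‖ := fun i hi => by
        have := hU i hi
        linarith
      rcases hE with ⟨h1, h2, h3⟩ | ⟨i, hi, h1, h2, h3⟩
      · exact near_line hθ hXi m hm a ha ha' c y h1 h2 h3 hN'
      · rcases le_total 0 (hx.cr y) with h4 | h4
        · exact near_black hθ hXi m hm a ha ha' c y i hi h4 h2 h3 hN' hD'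
        · exact near_white hθ hXi m hm a ha ha' c y i hi h4 h1 h3 hN' hU'
    · exact near_arc hθ hXi m hm a ha ha' c y j hj (by rw [hjn]; linarith) (by rw [hjn]; linarith) hs
  obtain ⟨α, g, h⟩ := key
  refine ⟨α, g, fun x hxy => ?_⟩
  rw [dd_eval hθ Xi m (by omega) a c x (fun p hp => (h x hxy p hp).1)]
  have e1 : (fun p : ℤ × ℤ => θ (x - lp p) * VV Xi m a c p x) =
      fun p : ℤ × ℤ => θ (x - lp p) * (α + (g * x).re) := by
    ext p
    by_cases hp : θ (x - lp p) = 0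
    · rw [hp, zero_mul, zero_mul]
    · rw [(h x hxy p hp).2]
  rw [e1, tsum_mul_right, hθ.sum_one, one_mul]


end JS6c1
export JS6c1 (near_side)

end Porous
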