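import Pool.Agent.Porous.F1

/-! Composites with an arbitrary period lattice whose effective tensors converge to the isotropic tensor with moduli `(0, μ)`. -/

open MeasureTheory Complex Set
open scoped ContDiff ENNReal
noncomputable section
namespace Porous
open JF1

namespace ZT

/-- directional derivative -/
def G7D (h : ℂ) (f : ℂ → ℝ) : ℂ → ℝ := fun x => fderiv ℝ f x h

lemma G7_contDiff {f : ℂ → ℝ} (hf : ContDiff ℝ ∞ f) (h : ℂ) : ContDiff ℝ ∞ (G7D h f) :=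
  (hf.fderiv_right (m := ∞) (by simp)).clm_apply contDiff_const

lemma G7_Per {b : Module.Basis (Fin 2) ℝ ℂ} {f : ℂ → ℝ} (hf : Per b f) (h : ℂ) :
    Per b (G7D h f) := by
  intro i x
  unfold G7D
  have h1 : (fun y => f (y + b i)) = f := funext fun y => hf i y
  have h2 := fderiv_comp_add_right (𝕜 := ℝ) (f := f) (x := x) (b i)
  rw [h1] at h2
  rw [← h2]

lemma G7_DD {f : ℂ → ℝ} (hf : ContDiff ℝ ∞ f) (h k x : ℂ) :
    G7D k (G7D h f) x = fderiv ℝ (fderiv ℝ f) x k h := by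
  unfold G7D
  have h1 : DifferentiableAt ℝ (fderiv ℝ f) x :=
    ((hf.fderiv_right (m := ∞) (by simp)).differentiable (by simp)) x
  have h2 : HasFDerivAt (fun y => fderiv ℝ f y h)
      ((ContinuousLinearMap.apply ℝ ℝ h).comp (fderiv ℝ (fderiv ℝ f) x)) x :=
    (ContinuousLinearMap.apply ℝ ℝ h).hasFDerivAt.comp x h1.hasFDerivAt
  rw [h2.fderiv]
  rfl

lemma G7_two_le : (2 : WithTop ℕ∞) ≤ ((⊤ : ℕ∞) : WithTop ℕ∞) :=
  show (((2 : ℕ∞)) : WithTop ℕ∞) ≤ ((⊤ : ℕ∞) : WithTop ℕ∞) from WithTop.coe_le_coe.mpr le_top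

lemma G7_comm {f : ℂ → ℝ} (hf : ContDiff ℝ ∞ f) (h k x : ℂ) :
    G7D k (G7D h f) x = G7D h (G7D k f) x := by
  rw [G7_DD hf, G7_DD hf]
  have h0 : (2 : WithTop ℕ∞) ≤ ((⊤ : ℕ∞) : WithTop ℕ∞) := G7_two_le
  have h1 : IsSymmSndFDerivAt ℝ f x :=
    (hf.contDiffAt (x := x)).isSymmSndFDerivAt (by simpa using h0)
  exact h1.eq k h

lemma G7_bound {f : ℂ → ℝ} (hf : ContDiff ℝ ∞ f) (h k x : ℂ) (hh : ‖h‖ = 1) (hk : ‖k‖ = 1) :
    |G7D k (G7D h f) x| ≤ ‖iteratedFDeriv ℝ 2 f x‖ := by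
  rw [G7_DD hf]
  have h1 := (iteratedFDeriv ℝ 2 f x).le_opNorm ![k, h]
  rw [iteratedFDeriv_two_apply] at h1
  simpa [Fin.prod_univ_two, hh, hk] using h1

lemma G7_pointwise {κ : ℝ≥0∞} (hκ : κ ≠ 0) {μ : ℝ} (hμ : 0 < μ)
    (s11 s22 s12 p11 p22 p12 : ℝ) :
    ENNReal.ofReal (2 * (s11 * p11 + s22 * p22 + 2 * s12 * p12) -
      ((s11 - s22) ^ 2 + 4 * s12 ^ 2) / (4 * μ) - (s11 + s22) ^ 2 * (κ⁻¹).toReal / 4) ≤
      W κ μ p11 p22 p12 := by
  have hB : (s11 - s22) * (p11 - p22) + 4 * s12 * p12 - ((s11 - s22) ^ 2 + 4 * s12 ^ 2) / (4 * μ) ≤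
      μ * ((p11 - p22) ^ 2 + 4 * p12 ^ 2) := by
    have h1 : μ * ((p11 - p22) ^ 2 + 4 * p12 ^ 2) - ((s11 - s22) * (p11 - p22) + 4 * s12 * p12 -
        ((s11 - s22) ^ 2 + 4 * s12 ^ 2) / (4 * μ)) =
        ((2 * μ * (p11 - p22) - (s11 - s22)) ^ 2 + 4 * (2 * μ * p12 - s12) ^ 2) / (4 * μ) := by
      field_simp
      ring
    have h2 : 0 ≤ ((2 * μ * (p11 - p22) - (s11 - s22)) ^ 2 + 4 * (2 * μ * p12 - s12) ^ 2) /
        (4 * μ) := by positivity
    linarith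
  have hA : ENNReal.ofReal ((s11 + s22) * (p11 + p22) - (s11 + s22) ^ 2 * (κ⁻¹).toReal / 4) ≤
      κ * ENNReal.ofReal ((p11 + p22) ^ 2) := by
    by_cases htop : κ = ⊤
    · subst htop
      by_cases ht : p11 + p22 = 0
      · rw [ht]
        simp
      · have : ENNReal.ofReal ((p11 + p22) ^ 2) ≠ 0 := by
          simp only [ne_eq, ENNReal.ofReal_eq_zero, not_le]
          positivity
        rw [ENNReal.top_mul this]
        exact le_top
    · obtain ⟨k, hk, rfl⟩ : ∃ k : ℝ, 0 < k ∧ κ = ENNReal.ofReal k :=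
        ⟨κ.toReal, ENNReal.toReal_pos hκ htop, (ENNReal.ofReal_toReal htop).symm⟩
      rw [← ENNReal.ofReal_mul hk.le, ← ENNReal.ofReal_inv_of_pos hk,
        ENNReal.toReal_ofReal (by positivity)]
      apply ENNReal.ofReal_le_ofReal
      have h1 : k * (p11 + p22) ^ 2 - ((s11 + s22) * (p11 + p22) - (s11 + s22) ^ 2 * k⁻¹ / 4) =
          (2 * k * (p11 + p22) - (s11 + s22)) ^ 2 / (4 * k) := by
        field_simp
        ring
      have h2 : 0 ≤ (2 * k * (p11 + p22) - (s11 + s22)) ^ 2 / (4 * k) := by positivity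
      linarith
  unfold W
  calc ENNReal.ofReal (2 * (s11 * p11 + s22 * p22 + 2 * s12 * p12) -
      ((s11 - s22) ^ 2 + 4 * s12 ^ 2) / (4 * μ) - (s11 + s22) ^ 2 * (κ⁻¹).toReal / 4)
      = ENNReal.ofReal (((s11 + s22) * (p11 + p22) - (s11 + s22) ^ 2 * (κ⁻¹).toReal / 4) +
        ((s11 - s22) * (p11 - p22) + 4 * s12 * p12 -
          ((s11 - s22) ^ 2 + 4 * s12 ^ 2) / (4 * μ))) := by
        congr 1
        ring
    _ ≤ ENNReal.ofReal ((s11 + s22) * (p11 + p22) - (s11 + s22) ^ 2 * (κ⁻¹).toReal / 4) +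
        ENNReal.ofReal ((s11 - s22) * (p11 - p22) + 4 * s12 * p12 -
          ((s11 - s22) ^ 2 + 4 * s12 ^ 2) / (4 * μ)) := ENNReal.ofReal_add_le
    _ ≤ _ := add_le_add hA (ENNReal.ofReal_le_ofReal hB)

lemma G7_ofReal_int_le {α : Type*} [MeasurableSpace α] {ν : Measure α} {f : α → ℝ}
    (hf : Integrable f ν) : ENNReal.ofReal (∫ x, f x ∂ν) ≤ ∫⁻ x, ENNReal.ofReal (f x) ∂ν := by
  have h1 : ∫ x, f x ∂ν ≤ ∫ x, max (f x) 0 ∂ν :=
    integral_mono hf hf.pos_part fun x => le_max_left _ _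
  refine (ENNReal.ofReal_le_ofReal h1).trans ?_
  rw [ofReal_integral_eq_lintegral_ofReal hf.pos_part
    (Filter.Eventually.of_forall fun x => le_max_right _ _)]
  apply le_of_eq
  refine lintegral_congr fun x => ?_
  rcases le_total (f x) 0 with h | h
  · rw [max_eq_right h, ENNReal.ofReal_zero, ENNReal.ofReal_of_nonpos h]
  · rw [max_eq_left h]

/-- second derivatives of a quadratic function -/
lemma G7_quad (c g : ℂ) (α : ℝ) (h k x : ℂ) :
    G7D k (G7D h (fun y => α + (g * y).re - (c * y ^ 2).re)) x = - (2 * c * h * k).re := by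
  have h1 : ∀ y, G7D h (fun y => α + (g * y).re - (c * y ^ 2).re) y =
      (g * h).re - (2 * c * y * h).re := by
    intro y
    unfold G7D
    have e1 : HasFDerivAt (fun y : ℂ => g * y) (g • ContinuousLinearMap.id ℝ ℂ : ℂ →L[ℝ] ℂ) y := by
      have := (hasFDerivAt_id (𝕜 := ℝ) y).const_mul g
      simpa using this
    have e2 : HasFDerivAt (fun y : ℂ => c * y ^ 2)
        ((c * (2 * y)) • ContinuousLinearMap.id ℝ ℂ : ℂ →L[ℝ] ℂ) y := by
      have e3 : HasDerivAt (fun y : ℂ => c * y ^ 2) (c * (2 * y)) y := by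
        simpa using (hasDerivAt_pow 2 y).const_mul c
      refine (e3.hasFDerivAt.restrictScalars ℝ).congr_fderiv ?_
      refine ContinuousLinearMap.ext fun v => ?_
      simp [mul_comm]
    have e5 := ((hasFDerivAt_const (𝕜 := ℝ) α y).add (Complex.reCLM.hasFDerivAt.comp y e1)).sub
      (Complex.reCLM.hasFDerivAt.comp y e2)
    have e6 : HasFDerivAt (fun y : ℂ => α + (g * y).re - (c * y ^ 2).re)
      (0 + Complex.reCLM.comp (g • ContinuousLinearMap.id ℝ ℂ : ℂ →L[ℝ] ℂ) -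
        Complex.reCLM.comp ((c * (2 * y)) • ContinuousLinearMap.id ℝ ℂ : ℂ →L[ℝ] ℂ)) y := e5
    rw [e6.fderiv]
    simp only [zero_add, _root_.sub_apply, ContinuousLinearMap.comp_apply,
      _root_.smul_apply, ContinuousLinearMap.id_apply, smul_eq_mul, Complex.reCLM_apply]
    congr 2
    ring
  have h2 : G7D h (fun y => α + (g * y).re - (c * y ^ 2).re) =
      fun y => (g * h).re - ((2 * c * h) * y).re := by
    funext y
    rw [h1]
    congr 2
    ring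
  rw [h2]
  unfold G7D
  have e1 : HasFDerivAt (fun y : ℂ => (2 * c * h) * y)
      ((2 * c * h) • ContinuousLinearMap.id ℝ ℂ : ℂ →L[ℝ] ℂ) x := by
    have := (hasFDerivAt_id (𝕜 := ℝ) x).const_mul (2 * c * h)
    simpa using this
  have e5 := (hasFDerivAt_const (𝕜 := ℝ) (g * h).re x).sub (Complex.reCLM.hasFDerivAt.comp x e1)
  have e6 : HasFDerivAt (fun y : ℂ => (g * h).re - ((2 * c * h) * y).re)
      (0 - Complex.reCLM.comp ((2 * c * h) • ContinuousLinearMap.id ℝ ℂ : ℂ →L[ℝ] ℂ)) x := e5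
  rw [e6.fderiv]
  simp

/-- second derivatives of a quadratic function -/
lemma G8_quad (c g : ℂ) (t α : ℝ) (h k x : ℂ) :
    G7D k (G7D h (fun y => α + (g * y).re - ((c * y ^ 2).re + t * (y.re ^ 2 + y.im ^ 2)))) x =
      - ((2 * c * h * k).re + 2 * t * (h.re * k.re + h.im * k.im)) := by
  have hsm1 : ContDiff ℝ ∞ (fun y : ℂ => α + (g * y).re - (c * y ^ 2).re) := by
    have e1 : ContDiff ℝ ∞ (fun y : ℂ => g * y) := contDiff_const.mul contDiff_id
    have e2 : ContDiff ℝ ∞ (fun y : ℂ => c * y ^ 2) := contDiff_const.mul (contDiff_id.pow 2)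
    exact (contDiff_const.add (Complex.reCLM.contDiff.comp e1)).sub (Complex.reCLM.contDiff.comp e2)
  have hre : ContDiff ℝ ∞ (fun y : ℂ => y.re) := Complex.reCLM.contDiff
  have him : ContDiff ℝ ∞ (fun y : ℂ => y.im) := Complex.imCLM.contDiff
  have hq1 : ∀ y, G7D h (fun y : ℂ => t * (y.re ^ 2 + y.im ^ 2)) y =
      2 * t * (y.re * h.re + y.im * h.im) := by
    intro y
    unfold G7D
    have e1 : HasFDerivAt (fun y : ℂ => y.re) Complex.reCLM y := Complex.reCLM.hasFDerivAt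
    have e2 : HasFDerivAt (fun y : ℂ => y.im) Complex.imCLM y := Complex.imCLM.hasFDerivAt
    have e3 := ((e1.pow 2).add (e2.pow 2)).const_mul t
    have e4 : HasFDerivAt (fun y : ℂ => t * (y.re ^ 2 + y.im ^ 2)) _ y := e3
    rw [e4.fderiv]
    simp
    ring
  have hq2 : G7D k (G7D h (fun y : ℂ => t * (y.re ^ 2 + y.im ^ 2))) x =
      2 * t * (h.re * k.re + h.im * k.im) := by
    have e0 : G7D h (fun y : ℂ => t * (y.re ^ 2 + y.im ^ 2)) =
        fun y => 2 * t * (y.re * h.re + y.im * h.im) := funext hq1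
    rw [e0]
    unfold G7D
    have e1 : HasFDerivAt (fun y : ℂ => y.re) Complex.reCLM x := Complex.reCLM.hasFDerivAt
    have e2 : HasFDerivAt (fun y : ℂ => y.im) Complex.imCLM x := Complex.imCLM.hasFDerivAt
    have e3 := ((e1.mul_const h.re).add (e2.mul_const h.im)).const_mul (2 * t)
    have e4 : HasFDerivAt (fun y : ℂ => 2 * t * (y.re * h.re + y.im * h.im)) _ x := e3
    rw [e4.fderiv]
    simp
    ring
  have hsm2 : ContDiff ℝ ∞ (fun y : ℂ => t * (y.re ^ 2 + y.im ^ 2)) :=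
    contDiff_const.mul ((hre.pow 2).add (him.pow 2))
  have hsplit : (fun y : ℂ => α + (g * y).re - ((c * y ^ 2).re + t * (y.re ^ 2 + y.im ^ 2))) =
      fun y => (α + (g * y).re - (c * y ^ 2).re) - t * (y.re ^ 2 + y.im ^ 2) := by
    funext y
    ring
  have hD1 : G7D h (fun y : ℂ => (α + (g * y).re - (c * y ^ 2).re) - t * (y.re ^ 2 + y.im ^ 2)) =
      fun y => G7D h (fun y : ℂ => α + (g * y).re - (c * y ^ 2).re) y -
        G7D h (fun y : ℂ => t * (y.re ^ 2 + y.im ^ 2)) y := by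
    funext y
    unfold G7D
    rw [fderiv_fun_sub (hsm1.differentiable (by simp) y) (hsm2.differentiable (by simp) y)]
    simp
  rw [hsplit, hD1]
  have hD2 : G7D k (fun y => G7D h (fun y : ℂ => α + (g * y).re - (c * y ^ 2).re) y -
        G7D h (fun y : ℂ => t * (y.re ^ 2 + y.im ^ 2)) y) x =
      G7D k (G7D h (fun y : ℂ => α + (g * y).re - (c * y ^ 2).re)) x -
      G7D k (G7D h (fun y : ℂ => t * (y.re ^ 2 + y.im ^ 2))) x := by
    have d1 := (G7_contDiff hsm1 h).differentiable (by simp) x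
    have d2 := (G7_contDiff hsm2 h).differentiable (by simp) x
    show fderiv ℝ _ x k = _
    rw [fderiv_fun_sub d1 d2]
    simp [G7D]
  rw [hD2, hq2, G7_quad]
  ring

lemma G8_eventually {d : ℂ → ℝ} {c g : ℂ} {t α : ℝ} {x : ℂ}
    (h : ∀ᶠ y in nhds x, (c * y ^ 2).re + t * (y.re ^ 2 + y.im ^ 2) + d y = α + (g * y).re) (v w : ℂ) :
    G7D w (G7D v d) x = - ((2 * c * v * w).re + 2 * t * (v.re * w.re + v.im * w.im)) := by
  have h1 : d =ᶠ[nhds x] (fun y => α + (g * y).re - ((c * y ^ 2).re + t * (y.re ^ 2 + y.im ^ 2))) := by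
    filter_upwards [h] with y hy
    linarith
  have h2 : G7D v d =ᶠ[nhds x] G7D v (fun y => α + (g * y).re - ((c * y ^ 2).re + t * (y.re ^ 2 + y.im ^ 2))) := by
    filter_upwards [h1.fderiv (𝕜 := ℝ)] with y hy
    unfold G7D
    rw [hy]
  rw [← G8_quad c g t α v w x]
  unfold G7D at h2 ⊢
  rw [h2.fderiv_eq]

set_option maxHeartbeats 4000000 in
/-- dual lower bound of the effective energy by an Airy function `φ(x) = Re (c x²) + d(x)`, `d` smooth periodic, which is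
locally affine outside `Ω`. -/
theorem effE_ge' (b : Module.Basis (Fin 2) ℝ ℂ)
    (hder : ∀ f : ℂ → ℝ, ContDiff ℝ ∞ f → Per b f → ∀ h : ℂ, ∫ x in cell b, fderiv ℝ f x h = 0)
    (Ω : Set ℂ) (hΩm : MeasurableSet Ω) (κ : ℝ≥0∞) (hκ : κ ≠ 0) (μ : ℝ) (hμ : 0 < μ)
    (c : ℂ) (t : ℝ) (d : ℂ → ℝ) (hd : ContDiff ℝ ∞ d) (hper : Per b d)
    (haff : ∀ x, x ∉ Ω → ∃ (α : ℝ) (g : ℂ), ∀ᶠ y in nhds x,
      (c * y ^ 2).re + t * (y.re ^ 2 + y.im ^ 2) + d y = α + (g * y).re)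
    (e₁₁ e₂₂ e₁₂ : ℝ) :
    ENNReal.ofReal (-4 * c.re * (e₁₁ - e₂₂) + 4 * t * (e₁₁ + e₂₂) + 8 * c.im * e₁₂ - 4 * ‖c‖ ^ 2 / μ
        - 4 * t ^ 2 * (κ⁻¹).toReal
        - (2 / μ + (κ⁻¹).toReal) * ((∫ x in cell b, ‖iteratedFDeriv ℝ 2 d x‖ ^ 2) / (volume (cell b)).toReal))
      ≤ effE b Ω κ μ e₁₁ e₂₂ e₁₂ := by
  unfold effE
  refine le_iInf fun u => le_iInf fun G₁ => le_iInf fun G₂ => le_iInf fun hu => ?_
  -- the cell
  have hcb : Bornology.IsBounded (cell b) := ZSpan.fundamentalDomain_isBounded b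
  have hcm : MeasurableSet (cell b) := ZSpan.fundamentalDomain_measurableSet b
  have hc0 : volume (cell b) ≠ 0 := ZSpan.measure_fundamentalDomain_ne_zero b
  have hct : volume (cell b) ≠ ⊤ := hcb.measure_lt_top.ne
  have hK : IsCompact (closure (cell b)) :=
    Metric.isCompact_of_isClosed_isBounded isClosed_closure hcb.closure
  set V : ℝ := (volume (cell b)).toReal with hV
  have hVpos : 0 < V := ENNReal.toReal_pos hc0 hct
  have hvolV : volume (cell b) = ENNReal.ofReal V := (ENNReal.ofReal_toReal hct).symm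
  have hfin : IsFiniteMeasure (volume.restrict (cell b)) := ⟨by
    rw [Measure.restrict_apply_univ]; exact hcb.measure_lt_top⟩
  have hci : ∀ f : ℂ → ℝ, Continuous f → IntegrableOn f (cell b) := fun f hf =>
    (hf.continuousOn.integrableOn_compact hK).mono_set subset_closure
  -- the second derivatives
  set a₁₁ : ℂ → ℝ := G7D I (G7D I d) with ha₁₁
  set a₂₂ : ℂ → ℝ := G7D 1 (G7D 1 d) with ha₂₂
  set a₁₂ : ℂ → ℝ := G7D I (G7D 1 d) with ha₁₂
  have sm₁₁ : ContDiff ℝ ∞ a₁₁ := G7_contDiff (G7_contDiff hd _) _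
  have sm₂₂ : ContDiff ℝ ∞ a₂₂ := G7_contDiff (G7_contDiff hd _) _
  have sm₁₂ : ContDiff ℝ ∞ a₁₂ := G7_contDiff (G7_contDiff hd _) _
  have ct₁₁ := sm₁₁.continuous
  have ct₂₂ := sm₂₂.continuous
  have ct₁₂ := sm₁₂.continuous
  have per₁₁ : Per b a₁₁ := G7_Per (G7_Per hper _) _
  have per₂₂ : Per b a₂₂ := G7_Per (G7_Per hper _) _
  have per₁₂ : Per b a₁₂ := G7_Per (G7_Per hper _) _
  have int₁₁ : ∫ x in cell b, a₁₁ x = 0 := hder _ (G7_contDiff hd _) (G7_Per hper _) I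
  have int₂₂ : ∫ x in cell b, a₂₂ x = 0 := hder _ (G7_contDiff hd _) (G7_Per hper _) 1
  have int₁₂ : ∫ x in cell b, a₁₂ x = 0 := hder _ (G7_contDiff hd _) (G7_Per hper _) I
  have bd₁₁ : ∀ x, |a₁₁ x| ≤ ‖iteratedFDeriv ℝ 2 d x‖ := fun x =>
    G7_bound hd _ _ x (by simp) (by simp)
  have bd₂₂ : ∀ x, |a₂₂ x| ≤ ‖iteratedFDeriv ℝ 2 d x‖ := fun x =>
    G7_bound hd _ _ x (by simp) (by simp)
  have bd₁₂ : ∀ x, |a₁₂ x| ≤ ‖iteratedFDeriv ℝ 2 d x‖ := fun x =>
    G7_bound hd _ _ x (by simp) (by simp)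
  -- the stress
  set σ₁₁ : ℂ → ℝ := fun x => -2 * c.re + 2 * t + a₁₁ x with hσ₁₁
  set σ₂₂ : ℂ → ℝ := fun x => 2 * c.re + 2 * t + a₂₂ x with hσ₂₂
  set σ₁₂ : ℂ → ℝ := fun x => 2 * c.im - a₁₂ x with hσ₁₂
  have ssm₁₁ : ContDiff ℝ ∞ σ₁₁ := contDiff_const.add sm₁₁
  have ssm₂₂ : ContDiff ℝ ∞ σ₂₂ := contDiff_const.add sm₂₂
  have ssm₁₂ : ContDiff ℝ ∞ σ₁₂ := contDiff_const.sub sm₁₂
  have sper₁₁ : Per b σ₁₁ := fun i x => by simp only [hσ₁₁, per₁₁ i x]
  have sper₂₂ : Per b σ₂₂ := fun i x => by simp only [hσ₂₂, per₂₂ i x]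
  have sper₁₂ : Per b σ₁₂ := fun i x => by simp only [hσ₁₂, per₁₂ i x]
  have D11 : ∀ h x, fderiv ℝ σ₁₁ x h = G7D h a₁₁ x := by
    intro h x
    rw [hσ₁₁, fderiv_const_add]
    rfl
  have D22 : ∀ h x, fderiv ℝ σ₂₂ x h = G7D h a₂₂ x := by
    intro h x
    rw [hσ₂₂, fderiv_const_add]
    rfl
  have D12 : ∀ h x, fderiv ℝ σ₁₂ x h = - G7D h a₁₂ x := by
    intro h x
    rw [hσ₁₂, fderiv_const_sub]
    rfl
  -- equilibrium
  have eq1 : ∀ x, fderiv ℝ σ₁₂ x I = - fderiv ℝ σ₁₁ x 1 := by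
    intro x
    rw [D12, D11, ha₁₁, ha₁₂]
    have h1 : G7D I (G7D 1 d) = G7D 1 (G7D I d) := funext fun y => G7_comm hd 1 I y
    rw [h1, G7_comm (G7_contDiff hd _)]
  have eq2 : ∀ x, fderiv ℝ σ₂₂ x I = - fderiv ℝ σ₁₂ x 1 := by
    intro x
    rw [D12, D22, ha₂₂, ha₁₂, neg_neg, G7_comm (G7_contDiff hd _)]
  have w1 := hu.weak_1 σ₁₁ ssm₁₁ sper₁₁
  have w2 := hu.weak_1 σ₁₂ ssm₁₂ sper₁₂
  have w3 := hu.weak_2 σ₁₂ ssm₁₂ sper₁₂
  have w4 := hu.weak_2 σ₂₂ ssm₂₂ sper₂₂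
  simp_rw [eq1] at w3
  simp_rw [eq2] at w4
  simp only [neg_smul, integral_neg, neg_neg] at w3 w4
  -- integrability
  have iG1 : Integrable G₁ (volume.restrict (cell b)) := hu.mem_1.integrable (by norm_num)
  have iG2 : Integrable G₂ (volume.restrict (cell b)) := hu.mem_2.integrable (by norm_num)
  have hbdd : ∀ f : ℂ → ℝ, Continuous f → ∃ C : ℝ, ∀ᵐ x ∂(volume.restrict (cell b)), ‖f x‖ ≤ C := by
    intro f hf
    obtain ⟨C, hC⟩ := hK.exists_bound_of_continuousOn hf.continuousOn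
    refine ⟨C, ?_⟩
    filter_upwards [ae_restrict_mem hcm] with x hx
    exact hC x (subset_closure hx)
  have imul : ∀ (f g : ℂ → ℝ), Continuous f → Integrable g (volume.restrict (cell b)) →
      Integrable (fun x => f x * g x) (volume.restrict (cell b)) := by
    intro f g hf hg
    obtain ⟨C, hC⟩ := hbdd f hf
    exact hg.bdd_mul hf.aestronglyMeasurable hC
  have ismul : ∀ (f : ℂ → ℝ) (g : ℂ → ℂ), Continuous f → Integrable g (volume.restrict (cell b)) →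
      Integrable (fun x => f x • g x) (volume.restrict (cell b)) := by
    intro f g hf hg
    obtain ⟨C, hC⟩ := hbdd f hf
    exact hg.bdd_smul C hf.aestronglyMeasurable hC
  have hre : ∀ (f : ℂ → ℝ) (g : ℂ → ℂ), Continuous f → Integrable g (volume.restrict (cell b)) →
      ∫ x in cell b, f x * (g x).re = (∫ x in cell b, f x • g x).re := by
    intro f g hf hg
    have h1 := integral_re (ismul f g hf hg)
    have h2 : ∀ x, RCLike.re (f x • g x) = f x * (g x).re := by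
      intro x; simp
    simp_rw [h2] at h1
    exact h1
  have him : ∀ (f : ℂ → ℝ) (g : ℂ → ℂ), Continuous f → Integrable g (volume.restrict (cell b)) →
      ∫ x in cell b, f x * (g x).im = (∫ x in cell b, f x • g x).im := by
    intro f g hf hg
    have h1 := integral_im (ismul f g hf hg)
    have h2 : ∀ x, RCLike.im (f x • g x) = f x * (g x).im := by
      intro x; simp
    simp_rw [h2] at h1
    exact h1
  have r1 := hre σ₁₁ G₁ ssm₁₁.continuous iG1
  have r2 := him σ₁₂ G₁ ssm₁₂.continuous iG1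
  have r3 := hre σ₁₂ G₂ ssm₁₂.continuous iG2
  have r4 := him σ₂₂ G₂ ssm₂₂.continuous iG2
  rw [w1] at r1
  rw [w2] at r2
  rw [w3] at r3
  rw [w4] at r4
  have j1 := imul σ₁₁ _ ssm₁₁.continuous iG1.re
  have j2 := imul σ₁₂ _ ssm₁₂.continuous iG1.im
  have j3 := imul σ₁₂ _ ssm₁₂.continuous iG2.re
  have j4 := imul σ₂₂ _ ssm₂₂.continuous iG2.im
  set Bf : ℂ → ℝ := fun x => σ₁₁ x * (G₁ x).re + σ₁₂ x * (G₁ x).im + σ₁₂ x * (G₂ x).re +
    σ₂₂ x * (G₂ x).im with hBf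
  have iBf : Integrable Bf (volume.restrict (cell b)) := ((j1.add j2).add j3).add j4
  have intB : ∫ x in cell b, Bf x = 0 := by
    have h1 : ∫ x in cell b, Bf x = ((∫ x in cell b, σ₁₁ x * (G₁ x).re) +
        (∫ x in cell b, σ₁₂ x * (G₁ x).im)) + (∫ x in cell b, σ₁₂ x * (G₂ x).re) +
        ∫ x in cell b, σ₂₂ x * (G₂ x).im := by
      have k1 := integral_add ((j1.add j2).add j3) j4
      have k2 := integral_add (j1.add j2) j3
      have k3 := integral_add j1 j2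
      simp only [Pi.add_apply] at k1 k2 k3
      rw [k2, k3] at k1
      exact k1
    rw [h1, r1, r2, r3, r4]
    simp only [Complex.neg_re, Complex.neg_im]
    ring
  -- the dual energy
  set kinv : ℝ := (κ⁻¹).toReal with hkinv
  have hkinv0 : 0 ≤ kinv := ENNReal.toReal_nonneg
  set A : ℂ → ℝ := fun x => 2 * (σ₁₁ x * e₁₁ + σ₂₂ x * e₂₂ + 2 * σ₁₂ x * e₁₂) -
    ((σ₁₁ x - σ₂₂ x) ^ 2 + 4 * σ₁₂ x ^ 2) / (4 * μ) - (σ₁₁ x + σ₂₂ x) ^ 2 * kinv / 4 with hA
  have cA : Continuous A := by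
    have c1 := ssm₁₁.continuous
    have c2 := ssm₂₂.continuous
    have c3 := ssm₁₂.continuous
    fun_prop
  have iA : IntegrableOn A (cell b) := hci A cA
  set n : ℂ → ℝ := fun x => ‖iteratedFDeriv ℝ 2 d x‖ with hn
  have cn : Continuous n := by
    have : Continuous (iteratedFDeriv ℝ 2 d) := hd.continuous_iteratedFDeriv G7_two_le
    exact this.norm
  set Lin : ℂ → ℝ := fun x => 2 * (a₁₁ x * e₁₁ + a₂₂ x * e₂₂ - 2 * a₁₂ x * e₁₂) -
    (-8 * c.re * (a₁₁ x - a₂₂ x) - 16 * c.im * a₁₂ x) / (4 * μ) - 2 * t * kinv * (a₁₁ x + a₂₂ x) with hLin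
  have intLin : ∫ x in cell b, Lin x = 0 := by
    have h1 : Lin = fun x => (2 * e₁₁ + 8 * c.re / (4 * μ) - 2 * t * kinv) * a₁₁ x +
        (2 * e₂₂ - 8 * c.re / (4 * μ) - 2 * t * kinv) * a₂₂ x + (16 * c.im / (4 * μ) - 4 * e₁₂) * a₁₂ x := by
      funext x
      rw [hLin]
      field_simp
      ring
    rw [h1]
    have i1 : IntegrableOn (fun x => (2 * e₁₁ + 8 * c.re / (4 * μ) - 2 * t * kinv) * a₁₁ x) (cell b) :=
      hci _ (by fun_prop)
    have i2 : IntegrableOn (fun x => (2 * e₂₂ - 8 * c.re / (4 * μ) - 2 * t * kinv) * a₂₂ x) (cell b) :=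
      hci _ (by fun_prop)
    have i3 : IntegrableOn (fun x => (16 * c.im / (4 * μ) - 4 * e₁₂) * a₁₂ x) (cell b) :=
      hci _ (by fun_prop)
    have k1 := integral_add (i1.add i2) i3
    have k2 := integral_add i1 i2
    simp only [Pi.add_apply] at k1 k2
    rw [k1, k2, integral_const_mul, integral_const_mul, integral_const_mul, int₁₁, int₂₂, int₁₂]
    ring
  set A0 : ℝ := -4 * c.re * (e₁₁ - e₂₂) + 4 * t * (e₁₁ + e₂₂) + 8 * c.im * e₁₂ - 4 * ‖c‖ ^ 2 / μ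
    - 4 * t ^ 2 * kinv with hA0
  have hpt : ∀ x, A0 + Lin x - (2 / μ + kinv) * n x ^ 2 ≤ A x := by
    intro x
    have b1 := bd₁₁ x
    have b2 := bd₂₂ x
    have b3 := bd₁₂ x
    have hnx : ‖iteratedFDeriv ℝ 2 d x‖ = n x := rfl
    rw [hnx] at b1 b2 b3
    have hcn : ‖c‖ ^ 2 = c.re ^ 2 + c.im ^ 2 := by
      rw [← Complex.normSq_eq_norm_sq, Complex.normSq_apply]; ring
    have h1 : A x = A0 + Lin x - ((a₁₁ x - a₂₂ x) ^ 2 + 4 * a₁₂ x ^ 2) / (4 * μ) -
        (a₁₁ x + a₂₂ x) ^ 2 * kinv / 4 := by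
      simp only [hA, hA0, hLin, hσ₁₁, hσ₂₂, hσ₁₂, hcn]
      field_simp
      ring
    have hn0 : 0 ≤ n x := norm_nonneg _
    have q1 := sq_le_sq' (abs_le.mp b1).1 (abs_le.mp b1).2
    have q2 := sq_le_sq' (abs_le.mp b2).1 (abs_le.mp b2).2
    have q3 := sq_le_sq' (abs_le.mp b3).1 (abs_le.mp b3).2
    have t1 : (a₁₁ x - a₂₂ x) ^ 2 + 4 * a₁₂ x ^ 2 ≤ 8 * n x ^ 2 := by
      nlinarith [sq_nonneg (a₁₁ x + a₂₂ x)]
    have t2 : (a₁₁ x + a₂₂ x) ^ 2 ≤ 4 * n x ^ 2 := by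
      nlinarith [sq_nonneg (a₁₁ x - a₂₂ x)]
    have t3 : ((a₁₁ x - a₂₂ x) ^ 2 + 4 * a₁₂ x ^ 2) / (4 * μ) ≤ 2 / μ * n x ^ 2 := by
      calc ((a₁₁ x - a₂₂ x) ^ 2 + 4 * a₁₂ x ^ 2) / (4 * μ) ≤ (8 * n x ^ 2) / (4 * μ) := by
            gcongr
        _ = 2 / μ * n x ^ 2 := by field_simp; ring
    have t4 : (a₁₁ x + a₂₂ x) ^ 2 * kinv / 4 ≤ kinv * n x ^ 2 := by
      nlinarith
    rw [h1]
    linarith
  have hintA : A0 * V - (2 / μ + kinv) * ∫ x in cell b, n x ^ 2 ≤ ∫ x in cell b, A x := by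
    have i0 : IntegrableOn (fun _ : ℂ => A0) (cell b) := hci _ continuous_const
    have cLin : Continuous Lin := by
      simp only [hLin]
      fun_prop
    have i1 : IntegrableOn Lin (cell b) := hci _ cLin
    have i2 : IntegrableOn (fun x => (2 / μ + kinv) * n x ^ 2) (cell b) := hci _ (by fun_prop)
    have h1 : ∫ x in cell b, (A0 + Lin x - (2 / μ + kinv) * n x ^ 2) ≤ ∫ x in cell b, A x :=
      integral_mono ((i0.add i1).sub i2) iA hpt
    have k1 := integral_sub (i0.add i1) i2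
    have k2 := integral_add i0 i1
    simp only [Pi.add_apply] at k1 k2
    rw [k1, k2, intLin, integral_const_mul, setIntegral_const, add_zero, smul_eq_mul, mul_comm] at h1
    exact h1
  -- the lower function
  set lower : ℂ → ℝ := fun x => A x + 2 * Bf x with hlower
  have ilower : Integrable lower (volume.restrict (cell b)) := iA.add (iBf.const_mul 2)
  have intlower : ∫ x in cell b, lower x = ∫ x in cell b, A x := by
    have k1 := integral_add iA (iBf.const_mul 2)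
    rw [integral_const_mul, intB, mul_zero, add_zero] at k1
    exact k1
  have hlow : ∀ x, ENNReal.ofReal (lower x) ≤
      W κ μ (e₁₁ + (G₁ x).re) (e₂₂ + (G₂ x).im) (e₁₂ + ((G₁ x).im + (G₂ x).re) / 2) := by
    intro x
    refine le_trans (le_of_eq ?_) (G7_pointwise hκ hμ (σ₁₁ x) (σ₂₂ x) (σ₁₂ x) _ _ _)
    congr 1
    simp only [hlower, hA, hBf]
    ring
  have hzero : ∀ x, x ∉ Ω → lower x = 0 := by
    intro x hx
    obtain ⟨α, g, hev⟩ := haff x hx
    have z1 : σ₁₁ x = 0 := by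
      simp only [hσ₁₁, ha₁₁]
      rw [G8_eventually hev]
      simp [mul_assoc]
    have z2 : σ₂₂ x = 0 := by
      simp only [hσ₂₂, ha₂₂]
      rw [G8_eventually hev]
      simp
    have z3 : σ₁₂ x = 0 := by
      simp only [hσ₁₂, ha₁₂]
      rw [G8_eventually hev]
      simp
    simp only [hlower, hA, hBf, z1, z2, z3]
    ring
  have hmain : ENNReal.ofReal (∫ x in cell b, A x) ≤ ∫⁻ x in Ω ∩ cell b,
      W κ μ (e₁₁ + (G₁ x).re) (e₂₂ + (G₂ x).im) (e₁₂ + ((G₁ x).im + (G₂ x).re) / 2) := by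
    rw [← intlower]
    refine (G7_ofReal_int_le ilower).trans ?_
    have h1 : ∫⁻ x in cell b, ENNReal.ofReal (lower x) =
        ∫⁻ x in cell b, Ω.indicator (fun x => ENNReal.ofReal (lower x)) x := by
      refine lintegral_congr fun x => ?_
      by_cases hx : x ∈ Ω
      · rw [indicator_of_mem hx]
      · rw [indicator_of_notMem hx, hzero x hx, ENNReal.ofReal_zero]
    rw [h1, setLIntegral_indicator hΩm]
    exact lintegral_mono fun x => hlow x
  rw [ENNReal.le_div_iff_mul_le (Or.inl hc0) (Or.inl hct), hvolV,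
    ← ENNReal.ofReal_mul' hVpos.le]
  refine le_trans (ENNReal.ofReal_le_ofReal ?_) hmain
  refine le_trans (le_of_eq ?_) hintA
  have : (∫ x in cell b, ‖iteratedFDeriv ℝ 2 d x‖ ^ 2) / V * V = ∫ x in cell b, n x ^ 2 := by
    rw [div_mul_cancel₀ _ hVpos.ne']
  rw [sub_mul, mul_assoc, this]

theorem per_span {α : Type*} {b : Module.Basis (Fin 2) ℝ ℂ} {f : ℂ → α} (hf : Per b f) :
    ∀ g ∈ Submodule.span ℤ (Set.range b), ∀ x, f (g + x) = f x := by
  let H : AddSubgroup ℂ :=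
    { carrier := {g | ∀ x, f (g + x) = f x}
      zero_mem' := fun x => by rw [zero_add]
      add_mem' := fun {g h} hg hh x => by rw [add_assoc, hg, hh]
      neg_mem' := fun {g} hg x => by rw [← hg (-g + x), add_neg_cancel_left] }
  have hle : Submodule.span ℤ (Set.range b) ≤ AddSubgroup.toIntSubmodule H := by
    rw [Submodule.span_le]
    rintro _ ⟨i, rfl⟩
    intro x
    show f (b i + x) = f x
    rw [add_comm]
    exact hf i x
  intro g hg
  exact hle hg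

instance instVAIz (b : Module.Basis (Fin 2) ℝ ℂ) :
    VAddInvariantMeasure (Submodule.span ℤ (Set.range b)) ℂ (volume : Measure ℂ) :=
  ⟨fun c s _ => measure_preimage_add volume (c : ℂ) s⟩

/-- number of translates of `x` by lattice points in the cell of a sublattice -/
def cnt (b b' : Module.Basis (Fin 2) ℝ ℂ) (x : ℂ) : ℝ≥0∞ :=
  ∑' v : Submodule.span ℤ (Set.range b), (cell b').indicator (fun _ => (1 : ℝ≥0∞)) (x + v)

lemma cnt_const (b b' : Module.Basis (Fin 2) ℝ ℂ)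
    (hsub : ∀ i, b' i ∈ Submodule.span ℤ (Set.range b)) (x y : ℂ) : cnt b b' x = cnt b b' y := by
  have hle : Submodule.span ℤ (Set.range b') ≤ Submodule.span ℤ (Set.range b) := by
    rw [Submodule.span_le]
    rintro _ ⟨i, rfl⟩
    exact hsub i
  have key : ∀ x y : ℂ, ∀ v : ℂ, v ∈ Submodule.span ℤ (Set.range b) → x + v ∈ cell b' →
      (ZSpan.fract b' (y + v) - y ∈ Submodule.span ℤ (Set.range b)) ∧
      y + (ZSpan.fract b' (y + v) - y) ∈ cell b' ∧
      ZSpan.fract b' (x + (ZSpan.fract b' (y + v) - y)) - x = v := by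
    intro x y v hv hx
    have hfl : ((ZSpan.floor b' (y + v) : Submodule.span ℤ (Set.range b')) : ℂ) ∈
        Submodule.span ℤ (Set.range b') := (ZSpan.floor b' (y + v)).2
    have e1 : ZSpan.fract b' (y + v) - y = v - (ZSpan.floor b' (y + v) : ℂ) := by
      rw [ZSpan.fract_apply]; ring
    refine ⟨?_, ?_, ?_⟩
    · rw [e1]
      exact Submodule.sub_mem _ hv (hle hfl)
    · have : y + (ZSpan.fract b' (y + v) - y) = ZSpan.fract b' (y + v) := by ring
      rw [this]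
      exact ZSpan.fract_mem_fundamentalDomain b' _
    · rw [e1]
      have e2 : x + (v - (ZSpan.floor b' (y + v) : ℂ)) =
          -(ZSpan.floor b' (y + v) : ℂ) + (x + v) := by ring
      rw [e2, ZSpan.fract_zSpan_add b' _ (Submodule.neg_mem _ hfl), (ZSpan.fract_eq_self).2 hx]
      ring
  let S : ℂ → Set (Submodule.span ℤ (Set.range b)) := fun x => {v | x + (v : ℂ) ∈ cell b'}
  have hS : ∀ x, cnt b b' x = ∑' v : S x, (1 : ℝ≥0∞) := by
    intro x
    unfold cnt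
    rw [tsum_subtype (S x) (fun _ => (1 : ℝ≥0∞))]
    refine tsum_congr fun v => ?_
    by_cases h : x + (v : ℂ) ∈ cell b'
    · rw [Set.indicator_of_mem h, Set.indicator_of_mem (show v ∈ S x from h)]
    · rw [Set.indicator_of_notMem h, Set.indicator_of_notMem (show v ∉ S x from h)]
  rw [hS, hS]
  let e : S x ≃ S y :=
    { toFun := fun v => ⟨⟨ZSpan.fract b' (y + v.1.1) - y, (key x y v.1.1 v.1.2 v.2).1⟩,
        (key x y v.1.1 v.1.2 v.2).2.1⟩
      invFun := fun v => ⟨⟨ZSpan.fract b' (x + v.1.1) - x, (key y x v.1.1 v.1.2 v.2).1⟩,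
        (key y x v.1.1 v.1.2 v.2).2.1⟩
      left_inv := fun v => Subtype.ext (Subtype.ext (key x y v.1.1 v.1.2 v.2).2.2)
      right_inv := fun v => Subtype.ext (Subtype.ext (key y x v.1.1 v.1.2 v.2).2.2) }
  exact Equiv.tsum_eq e (fun _ => (1 : ℝ≥0∞))

open scoped Pointwise in
lemma lintegral_cell_sub (b b' : Module.Basis (Fin 2) ℝ ℂ)
    (hsub : ∀ i, b' i ∈ Submodule.span ℤ (Set.range b)) (f : ℂ → ℝ≥0∞) (hf : Per b f)
    (hfm : Measurable f) :
    ∫⁻ x in cell b', f x = cnt b b' 0 * ∫⁻ x in cell b, f x := by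
  have hfd := ZSpan.isAddFundamentalDomain b (volume : Measure ℂ)
  have hcm : MeasurableSet (cell b') := ZSpan.fundamentalDomain_measurableSet b'
  rw [hfd.setLIntegral_eq_tsum' f (cell b')]
  have h1 : ∀ g : Submodule.span ℤ (Set.range b),
      ∫⁻ x in (g +ᵥ cell b') ∩ ZSpan.fundamentalDomain b, f (-g +ᵥ x) =
      ∫⁻ x in cell b, (cell b').indicator (fun _ => (1 : ℝ≥0∞)) (x + ((-g : Submodule.span ℤ (Set.range b)) : ℂ)) * f x := by
    intro g
    have hm : MeasurableSet (g +ᵥ cell b') := hcm.const_vadd g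
    rw [← Measure.restrict_restrict hm, ← lintegral_indicator hm]
    refine lintegral_congr fun x => ?_
    have hiff : x ∈ g +ᵥ cell b' ↔ x + ((-g : Submodule.span ℤ (Set.range b)) : ℂ) ∈ cell b' := by
      rw [Set.mem_vadd_set_iff_neg_vadd_mem]
      show ((-g : Submodule.span ℤ (Set.range b)) : ℂ) + x ∈ cell b' ↔ _
      rw [add_comm]
    by_cases hx : x ∈ g +ᵥ cell b'
    · rw [Set.indicator_of_mem hx, Set.indicator_of_mem (hiff.1 hx), one_mul]
      exact per_span hf _ (-g).2 x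
    · rw [Set.indicator_of_notMem hx, Set.indicator_of_notMem (fun h => hx (hiff.2 h)), zero_mul]
  rw [tsum_congr h1, ← lintegral_tsum]
  · have h2 : ∀ x, ∑' g : Submodule.span ℤ (Set.range b),
        (cell b').indicator (fun _ => (1 : ℝ≥0∞)) (x + ((-g : Submodule.span ℤ (Set.range b)) : ℂ)) * f x =
        cnt b b' 0 * f x := by
      intro x
      rw [ENNReal.tsum_mul_right, ← cnt_const b b' hsub x 0]
      congr 1
      unfold cnt
      exact (Equiv.neg (Submodule.span ℤ (Set.range b))).tsum_eq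
        (fun v => (cell b').indicator (fun _ => (1 : ℝ≥0∞)) (x + (v : ℂ)))
    rw [lintegral_congr h2, lintegral_const_mul _ hfm]
  · intro g
    refine (Measurable.mul ?_ hfm).aemeasurable
    exact (measurable_const.indicator hcm).comp (measurable_id.add_const _)

/-- averages over the cells of a lattice and of a sublattice agree -/
theorem lavg_sub (b b' : Module.Basis (Fin 2) ℝ ℂ)
    (hsub : ∀ i, b' i ∈ Submodule.span ℤ (Set.range b)) (f : ℂ → ℝ≥0∞) (hf : Per b f)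
    (hfm : Measurable f) :
    (∫⁻ x in cell b', f x) / volume (cell b') = (∫⁻ x in cell b, f x) / volume (cell b) := by
  have h1 := lintegral_cell_sub b b' hsub f hf hfm
  have h2 := lintegral_cell_sub b b' hsub (fun _ => 1) (fun _ _ => rfl) measurable_const
  simp only [lintegral_const, Measure.restrict_apply_univ, one_mul] at h2
  have hv0 : volume (cell b) ≠ 0 := ZSpan.measure_fundamentalDomain_ne_zero b
  have hvt : volume (cell b) ≠ ⊤ := (ZSpan.fundamentalDomain_isBounded b).measure_lt_top.ne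
  have hv0' : volume (cell b') ≠ 0 := ZSpan.measure_fundamentalDomain_ne_zero b'
  have hvt' : volume (cell b') ≠ ⊤ := (ZSpan.fundamentalDomain_isBounded b').measure_lt_top.ne
  have hc0 : cnt b b' 0 ≠ 0 := by
    intro h
    rw [h, zero_mul] at h2
    exact hv0' h2
  have hct : cnt b b' 0 ≠ ⊤ := by
    intro h
    rw [h, ENNReal.top_mul hv0] at h2
    exact hvt' h2
  rw [h1, h2]
  exact ENNReal.mul_div_mul_left _ _ hc0 hct

/-- linear change of variables -/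
lemma lintegral_map (b : Module.Basis (Fin 2) ℝ ℂ) (T : ℂ ≃L[ℝ] ℂ) (f : ℂ → ℝ≥0∞) (hfm : Measurable f) :
    ∫⁻ x in cell (b.map T.symm.toLinearEquiv), f (T x) =
      ENNReal.ofReal |(LinearMap.det (T.toLinearEquiv : ℂ →ₗ[ℝ] ℂ))⁻¹| * ∫⁻ x in cell b, f x := by
  have hcell : cell (b.map T.symm.toLinearEquiv) = T ⁻¹' (cell b) := by
    unfold cell
    rw [← ZSpan.map_fundamentalDomain]
    ext x
    constructor
    · rintro ⟨y, hy, rfl⟩
      simpa using hy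
    · intro hx
      exact ⟨T x, hx, by simp⟩
  have hcm : MeasurableSet (cell b) := ZSpan.fundamentalDomain_measurableSet b
  have hTm : Measurable T := T.continuous.measurable
  rw [hcell, ← setLIntegral_map hcm hfm hTm]
  have hdet : LinearMap.det (T.toLinearEquiv : ℂ →ₗ[ℝ] ℂ) ≠ 0 :=
    (LinearEquiv.isUnit_det' T.toLinearEquiv).ne_zero
  have h := Measure.map_linearMap_addHaar_eq_smul_addHaar (volume : Measure ℂ) hdet
  have h' : Measure.map T (volume : Measure ℂ) =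
      ENNReal.ofReal |(LinearMap.det (T.toLinearEquiv : ℂ →ₗ[ℝ] ℂ))⁻¹| • volume := h
  rw [h', Measure.restrict_smul, lintegral_smul_measure, smul_eq_mul]

lemma mem_span_map (b b' : Module.Basis (Fin 2) ℝ ℂ) (T : ℂ ≃L[ℝ] ℂ)
    (hT : ∀ i, T (b' i) ∈ Submodule.span ℤ (Set.range b)) (i : Fin 2) :
    b' i ∈ Submodule.span ℤ (Set.range (b.map T.symm.toLinearEquiv)) := by
  have h1 : ∀ y ∈ Submodule.span ℤ (Set.range b),
      T.symm y ∈ Submodule.span ℤ (Set.range (b.map T.symm.toLinearEquiv)) := by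
    intro y hy
    induction hy using Submodule.span_induction with
    | mem y hy =>
      obtain ⟨j, rfl⟩ := hy
      refine Submodule.subset_span ⟨j, ?_⟩
      simp
    | zero => rw [map_zero]; exact Submodule.zero_mem _
    | add y z _ _ hy hz => rw [map_add]; exact Submodule.add_mem _ hy hz
    | smul n y _ hy => rw [map_zsmul]; exact Submodule.smul_mem _ n hy
  have h2 := h1 _ (hT i)
  rwa [ContinuousLinearEquiv.symm_apply_apply] at h2

/-- cell averages under a linear map that sends the coarse lattice into the fine lattice -/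
theorem lavg_map (b b' : Module.Basis (Fin 2) ℝ ℂ) (T : ℂ ≃L[ℝ] ℂ)
    (hT : ∀ i, T (b' i) ∈ Submodule.span ℤ (Set.range b)) (f : ℂ → ℝ≥0∞) (hf : Per b f)
    (hfm : Measurable f) :
    (∫⁻ x in cell b', f (T x)) / volume (cell b') = (∫⁻ x in cell b, f x) / volume (cell b) := by
  have hTm : Measurable T := T.continuous.measurable
  have hper : Per (b.map T.symm.toLinearEquiv) (fun x => f (T x)) := by
    intro i x
    show f (T (x + (b.map T.symm.toLinearEquiv) i)) = f (T x)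
    have : (b.map T.symm.toLinearEquiv) i = T.symm (b i) := by simp
    rw [this, map_add, ContinuousLinearEquiv.apply_symm_apply]
    exact hf i (T x)
  rw [lavg_sub (b.map T.symm.toLinearEquiv) b' (mem_span_map b b' T hT) _ hper (hfm.comp hTm),
    lintegral_map b T f hfm]
  have h1 := lintegral_map b T (fun _ => 1) measurable_const
  simp only [lintegral_const, Measure.restrict_apply_univ, one_mul] at h1
  rw [h1]
  have hdet : LinearMap.det (T.toLinearEquiv : ℂ →ₗ[ℝ] ℂ) ≠ 0 :=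
    (LinearEquiv.isUnit_det' T.toLinearEquiv).ne_zero
  refine ENNReal.mul_div_mul_left _ _ ?_ ENNReal.ofReal_ne_top
  rw [Ne, ENNReal.ofReal_eq_zero, not_le]
  positivity

/-- real version -/
theorem avg_map (b b' : Module.Basis (Fin 2) ℝ ℂ) (T : ℂ ≃L[ℝ] ℂ)
    (hT : ∀ i, T (b' i) ∈ Submodule.span ℤ (Set.range b)) (f : ℂ → ℝ) (hf : Per b f)
    (hfm : Measurable f) (h0 : ∀ x, 0 ≤ f x) :
    (∫ x in cell b', f (T x)) / (volume (cell b')).toReal =
      (∫ x in cell b, f x) / (volume (cell b)).toReal := by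
  have hTm : Measurable T := T.continuous.measurable
  rw [integral_eq_lintegral_of_nonneg_ae (Filter.Eventually.of_forall fun x => h0 (T x))
    (hfm.comp hTm).aestronglyMeasurable,
    integral_eq_lintegral_of_nonneg_ae (Filter.Eventually.of_forall fun x => h0 x)
    hfm.aestronglyMeasurable, ← ENNReal.toReal_div, ← ENNReal.toReal_div]
  congr 1
  exact lavg_map b b' T hT (fun x => ENNReal.ofReal (f x)) (fun i x => congrArg ENNReal.ofReal (hf i x))
    (ENNReal.measurable_ofReal.comp hfm)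

/-- a linear map close to a multiple of the identity that sends the lattice of `b'` into the lattice of `b` -/
theorem exists_T (b b' : Module.Basis (Fin 2) ℝ ℂ) (δ : ℝ) (hδ : 0 < δ) (hδ1 : δ < 1) :
    ∃ (T : ℂ ≃L[ℝ] ℂ) (N : ℝ), 0 < N ∧ (∀ i, T (b' i) ∈ Submodule.span ℤ (Set.range b)) ∧
      ∀ x, ‖T x - N * x‖ ≤ δ * N * ‖x‖ := by
  -- coordinates are bounded
  let L : ℂ →L[ℝ] (Fin 2 → ℝ) := LinearMap.toContinuousLinearMap (b'.equivFun : ℂ →ₗ[ℝ] (Fin 2 → ℝ))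
  set C := ‖L‖ with hC
  have hL : ∀ x i, |b'.repr x i| ≤ C * ‖x‖ := by
    intro x i
    have h1 : ‖L x i‖ ≤ ‖L x‖ := norm_le_pi_norm (L x) i
    have h2 := L.le_opNorm x
    have h3 : L x i = b'.repr x i := by
      simp [L, Module.Basis.equivFun_apply]
    rw [← h3, ← Real.norm_eq_abs]
    exact h1.trans h2
  set R : ℝ := ∑ i, ‖b i‖ with hR
  have hC0 : 0 ≤ C := norm_nonneg _
  have hR0 : 0 ≤ R := Finset.sum_nonneg fun i _ => norm_nonneg _
  obtain ⟨n, hn⟩ := exists_nat_gt ((2 * C * R) / δ)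
  have hn0 : (0 : ℝ) < n := lt_of_le_of_lt (by positivity) hn
  have hn' : 2 * C * R ≤ δ * n := by
    rw [div_lt_iff₀ hδ] at hn
    linarith
  let T0 : ℂ →ₗ[ℝ] ℂ := b'.constr ℝ (fun i => ((ZSpan.floor b ((n : ℂ) * b' i) : Submodule.span ℤ (Set.range b)) : ℂ))
  have hT0 : ∀ i, T0 (b' i) = ((ZSpan.floor b ((n : ℂ) * b' i) : Submodule.span ℤ (Set.range b)) : ℂ) := by
    intro i
    simp only [T0]
    rw [Module.Basis.constr_basis]
  have hE : ∀ x, ‖T0 x - n * x‖ ≤ δ * n * ‖x‖ := by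
    intro x
    have hx : x = ∑ i, (b'.repr x i) • b' i := (b'.sum_repr x).symm
    have h1 : T0 x - n * x = ∑ i, (b'.repr x i) • (T0 (b' i) - n * b' i) := by
      conv_lhs => rw [hx]
      rw [map_sum, Finset.mul_sum, ← Finset.sum_sub_distrib]
      refine Finset.sum_congr rfl fun i _ => ?_
      rw [map_smul, smul_sub]
      congr 1
      rw [Complex.real_smul, Complex.real_smul]
      ring
    have h2 : ∀ i, ‖T0 (b' i) - n * b' i‖ ≤ R := by
      intro i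
      rw [hT0, norm_sub_rev]
      have h := ZSpan.norm_fract_le b ((n : ℂ) * b' i)
      rwa [ZSpan.fract_apply] at h
    rw [h1]
    calc ‖∑ i, (b'.repr x i) • (T0 (b' i) - n * b' i)‖
        ≤ ∑ i, ‖(b'.repr x i) • (T0 (b' i) - n * b' i)‖ := norm_sum_le _ _
      _ ≤ ∑ i : Fin 2, (C * ‖x‖) * R := by
          refine Finset.sum_le_sum fun i _ => ?_
          rw [norm_smul, Real.norm_eq_abs]
          exact mul_le_mul (hL x i) (h2 i) (norm_nonneg _) (by positivity)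
      _ = (2 * C * R) * ‖x‖ := by
          rw [Fin.sum_univ_two]; ring
      _ ≤ δ * n * ‖x‖ := mul_le_mul_of_nonneg_right hn' (norm_nonneg _)
  have hinj : Function.Injective T0 := by
    rw [← LinearMap.ker_eq_bot, LinearMap.ker_eq_bot']
    intro x hx
    have h := hE x
    rw [hx, zero_sub, norm_neg, norm_mul, Complex.norm_natCast] at h
    by_contra hne
    have hpos : 0 < ‖x‖ := norm_pos_iff.2 hne
    nlinarith [mul_pos hn0 hpos]
  refine ⟨(LinearEquiv.ofInjectiveEndo T0 hinj).toContinuousLinearEquiv, n, hn0, ?_, ?_⟩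
  · intro i
    have : (LinearEquiv.ofInjectiveEndo T0 hinj).toContinuousLinearEquiv (b' i) = T0 (b' i) := rfl
    rw [this, hT0]
    exact Subtype.mem _
  · intro x
    exact_mod_cast hE x

/-- trace of a real linear map of `ℂ` -/
lemma trace_eq (f : ℂ →ₗ[ℝ] ℂ) : LinearMap.trace ℝ ℂ f = (f 1).re + (f I).im := by
  rw [LinearMap.trace_eq_matrix_trace ℝ Complex.basisOneI f, Matrix.trace_fin_two,
    LinearMap.toMatrix_apply, LinearMap.toMatrix_apply]
  simp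

lemma trace_conj (A : ℂ →L[ℝ] ℂ) (T : ℂ ≃L[ℝ] ℂ) :
    (T.symm (A (T 1))).re + (T.symm (A (T I))).im = (A 1).re + (A I).im := by
  have h1 := trace_eq (A : ℂ →ₗ[ℝ] ℂ)
  have h2 := trace_eq ((T.symm.toLinearEquiv : ℂ ≃ₗ[ℝ] ℂ).conj (A : ℂ →ₗ[ℝ] ℂ))
  rw [LinearMap.trace_conj', h1] at h2
  simpa [LinearEquiv.conj_apply] using h2.symm

/-- the conjugated map is close to the original map -/
lemma conj_close (A : ℂ →L[ℝ] ℂ) (T : ℂ ≃L[ℝ] ℂ) (N δ : ℝ) (hN : 0 < N) (hδ : 0 < δ) (hδ1 : δ ≤ 1 / 2)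
    (hT : ∀ x, ‖T x - N * x‖ ≤ δ * N * ‖x‖) (h : ℂ) :
    ‖T.symm (A (T h)) - A h‖ ≤ 4 * δ * ‖A‖ * ‖h‖ := by
  have h1 : T.symm (A (T h)) - A h = T.symm (A (T h) - T (A h)) := by
    rw [map_sub, ContinuousLinearEquiv.symm_apply_apply]
  have h2 : ∀ y, ‖T.symm y‖ ≤ 2 / N * ‖y‖ := by
    intro y
    have h3 := hT (T.symm y)
    rw [ContinuousLinearEquiv.apply_symm_apply] at h3
    have h4 : ‖(N : ℂ) * T.symm y‖ = N * ‖T.symm y‖ := by
      rw [norm_mul, Complex.norm_real, Real.norm_of_nonneg hN.le]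
    have h5 : N * ‖T.symm y‖ ≤ ‖y‖ + δ * N * ‖T.symm y‖ := by
      rw [← h4]
      calc ‖(N : ℂ) * T.symm y‖ = ‖y - (y - (N : ℂ) * T.symm y)‖ := by congr 1; ring
        _ ≤ ‖y‖ + ‖y - (N : ℂ) * T.symm y‖ := norm_sub_le _ _
        _ ≤ _ := by linarith
    have h6 : δ * N * ‖T.symm y‖ ≤ 1 / 2 * N * ‖T.symm y‖ := by gcongr
    rw [div_mul_eq_mul_div, le_div_iff₀ hN]
    nlinarith
  have h3 : A (T h) - T (A h) = A (T h - N * h) - (T (A h) - N * A h) := by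
    have : A ((N : ℂ) * h) = (N : ℂ) * A h := by
      have := A.map_smul N h
      simpa only [Complex.real_smul] using this
    rw [map_sub, this]
    ring
  have h4 : ‖A (T h) - T (A h)‖ ≤ 2 * δ * N * ‖A‖ * ‖h‖ := by
    rw [h3]
    have e1 : ‖A (T h - N * h)‖ ≤ ‖A‖ * (δ * N * ‖h‖) :=
      (A.le_opNorm _).trans (mul_le_mul_of_nonneg_left (hT h) (norm_nonneg _))
    have e2 : ‖T (A h) - N * A h‖ ≤ δ * N * (‖A‖ * ‖h‖) :=
      (hT _).trans (mul_le_mul_of_nonneg_left (A.le_opNorm h) (by positivity))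
    calc ‖A (T h - N * h) - (T (A h) - N * A h)‖
        ≤ ‖A (T h - N * h)‖ + ‖T (A h) - N * A h‖ := norm_sub_le _ _
      _ ≤ ‖A‖ * (δ * N * ‖h‖) + δ * N * (‖A‖ * ‖h‖) := add_le_add e1 e2
      _ = _ := by ring
  rw [h1]
  calc ‖T.symm (A (T h) - T (A h))‖ ≤ 2 / N * ‖A (T h) - T (A h)‖ := h2 _
    _ ≤ 2 / N * (2 * δ * N * ‖A‖ * ‖h‖) := by gcongr
    _ = 4 * δ * ‖A‖ * ‖h‖ := by field_simp; ring

/-- kinematic certificate: total strain `(1,1,0) + e(u)` is trace free on `Ω` with mean energy at most `ε` -/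
def Kin (b : Module.Basis (Fin 2) ℝ ℂ) (Ω : Set ℂ) (ε : ℝ) : Prop :=
  ∃ u : ℂ → ℂ, ContDiff ℝ ∞ u ∧ Per b u ∧
    (∀ x ∈ Ω, (1 + (fderiv ℝ u x 1).re) + (1 + (fderiv ℝ u x I).im) = 0) ∧
    ∫ x in Ω ∩ cell b, (((1 + (fderiv ℝ u x 1).re) - (1 + (fderiv ℝ u x I).im)) ^ 2
      + 4 * (0 + ((fderiv ℝ u x 1).im + (fderiv ℝ u x I).re) / 2) ^ 2) ≤ ε * (volume (cell b)).toReal

/-- the period of the derivative -/
lemma per_fderiv {b : Module.Basis (Fin 2) ℝ ℂ} {E : Type*} [NormedAddCommGroup E] [NormedSpace ℝ E]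
    {u : ℂ → E} (hu : Per b u) : Per b (fderiv ℝ u) := by
  intro i x
  have h1 : (fun y => u (y + b i)) = u := funext fun y => hu i y
  have h2 := fderiv_comp_add_right (𝕜 := ℝ) (f := u) (x := x) (b i)
  rw [h1] at h2
  exact h2.symm

lemma exists_bound {b : Module.Basis (Fin 2) ℝ ℂ} {E : Type*} [NormedAddCommGroup E] [NormedSpace ℝ E]
    {f : ℂ → E} (hf : Continuous f) (hp : Per b f) : ∃ M : ℝ, 0 ≤ M ∧ ∀ x, ‖f x‖ ≤ M := by
  obtain ⟨R, hR⟩ := (ZSpan.fundamentalDomain_isBounded b).subset_closedBall (0 : ℂ)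
  obtain ⟨M, hM⟩ := (isCompact_closedBall (0 : ℂ) R).exists_bound_of_continuousOn hf.continuousOn
  have h0 : (0 : ℂ) ∈ cell b := ZSpan.mem_fundamentalDomain b |>.2 (fun i => by simp)
  refine ⟨M, (norm_nonneg _).trans (hM 0 (hR h0)), fun x => ?_⟩
  have h1 : f x = f (ZSpan.fract b x) := by
    have h2 := per_span hp (ZSpan.floor b x : ℂ) (Subtype.mem _) (ZSpan.fract b x)
    rw [← h2]
    congr 1
    rw [ZSpan.fract_apply]; ring
  rw [h1]
  exact hM _ (hR (ZSpan.fract_mem_fundamentalDomain b x))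

lemma fderiv_conj (u : ℂ → ℂ) (hu : ContDiff ℝ ∞ u) (T : ℂ ≃L[ℝ] ℂ) (x h : ℂ) :
    fderiv ℝ (fun y => T.symm (u (T y))) x h = T.symm (fderiv ℝ u (T x) (T h)) := by
  have h1 : HasFDerivAt u (fderiv ℝ u (T x)) (T x) :=
    ((hu.differentiable (by simp)) (T x)).hasFDerivAt
  have h2 := (T.symm.toContinuousLinearMap.hasFDerivAt (x := u (T x))).comp x
    (h1.comp x (T.toContinuousLinearMap.hasFDerivAt (x := x)))
  have h3 : HasFDerivAt (fun y => T.symm (u (T y)))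
      ((T.symm : ℂ →L[ℝ] ℂ).comp ((fderiv ℝ u (T x)).comp (T : ℂ →L[ℝ] ℂ))) x := h2
  rw [h3.fderiv]
  rfl

/-- transfer of the kinematic certificate -/
theorem Kin.transfer {b : Module.Basis (Fin 2) ℝ ℂ} {Ω : Set ℂ} (hΩm : MeasurableSet Ω)
    (hΩp : ∀ (i : Fin 2) (x : ℂ), x + b i ∈ Ω ↔ x ∈ Ω) {ε : ℝ} (hε : 0 < ε) (hK : Kin b Ω ε) :
    ∃ δ₀ : ℝ, 0 < δ₀ ∧ ∀ (b' : Module.Basis (Fin 2) ℝ ℂ) (T : ℂ ≃L[ℝ] ℂ) (N δ : ℝ), 0 < N → 0 < δ → δ ≤ δ₀ →
      (∀ i, T (b' i) ∈ Submodule.span ℤ (Set.range b)) → (∀ x, ‖T x - N * x‖ ≤ δ * N * ‖x‖) →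
      Kin b' (T ⁻¹' Ω) (3 * ε) := by
  obtain ⟨u, hu, hup, htr, hE⟩ := hK
  have hcd : Continuous (fderiv ℝ u) := hu.continuous_fderiv (by simp)
  obtain ⟨M, hM0, hM⟩ := exists_bound (f := fun x => ContinuousLinearMap.id ℝ ℂ + fderiv ℝ u x)
    (continuous_const.add hcd) (b := b) (fun i x => by
      show _ + fderiv ℝ u (x + b i) = _ + fderiv ℝ u x
      rw [per_fderiv hup i x])
  refine ⟨min (1 / 2) (ε / (256 * M ^ 2 + 256 + ε)), by positivity, ?_⟩
  intro b' T N δ hN hδ hδ0 hTb hT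
  have hδ1 : δ ≤ 1 / 2 := hδ0.trans (min_le_left _ _)
  have hδ2 : δ ≤ ε / (256 * M ^ 2 + 256 + ε) := hδ0.trans (min_le_right _ _)
  have hδ3 : 256 * δ ^ 2 * M ^ 2 ≤ ε := by
    rw [le_div_iff₀ (by positivity)] at hδ2
    have h1 : δ * (256 * M ^ 2) ≤ ε := by nlinarith [mul_pos hδ hε, sq_nonneg M]
    have h2 : δ * (δ * (256 * M ^ 2)) ≤ 1 * ε := by
      apply mul_le_mul (by linarith) h1 (by positivity) (by norm_num)
    linarith
  have hfd := fderiv_conj u hu T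
  set u' : ℂ → ℂ := fun y => T.symm (u (T y)) with hu'
  have hTc : ContDiff ℝ ∞ (T : ℂ → ℂ) := T.contDiff
  have hTsc : ContDiff ℝ ∞ (T.symm : ℂ → ℂ) := T.symm.contDiff
  have hu's : ContDiff ℝ ∞ u' := hTsc.comp (hu.comp hTc)
  -- the total gradient
  set A : ℂ → ℂ →L[ℝ] ℂ := fun x => ContinuousLinearMap.id ℝ ℂ + fderiv ℝ u x with hA
  have hAp : ∀ x h, A x h = h + fderiv ℝ u x h := fun x h => rfl
  have hA' : ∀ x h, h + fderiv ℝ u' x h = T.symm (A (T x) (T h)) := by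
    intro x h
    rw [hfd, hAp, map_add, ContinuousLinearEquiv.symm_apply_apply]
  have hclose : ∀ x h, ‖(h + fderiv ℝ u' x h) - A (T x) h‖ ≤ 4 * δ * M * ‖h‖ := by
    intro x h
    rw [hA']
    refine (conj_close (A (T x)) T N δ hN hδ hδ1 hT h).trans ?_
    have := hM (T x)
    gcongr
  have hper' : Per b' u' := by
    intro i x
    show T.symm (u (T (x + b' i))) = T.symm (u (T x))
    rw [map_add, add_comm, per_span hup _ (hTb i)]
  refine ⟨u', hu's, hper', ?_, ?_⟩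
  · intro x hx
    have h1 := trace_conj (A (T x)) T
    rw [← hA' x 1, ← hA' x I] at h1
    have h2 := htr (T x) hx
    rw [hAp, hAp] at h1
    simp only [Complex.add_re, Complex.add_im, Complex.one_re, Complex.I_im] at h1
    rw [h1]
    exact h2
  · -- pointwise estimate
    set F : ℂ → ℝ := fun x => ((1 + (fderiv ℝ u x 1).re) - (1 + (fderiv ℝ u x I).im)) ^ 2
      + 4 * (0 + ((fderiv ℝ u x 1).im + (fderiv ℝ u x I).re) / 2) ^ 2 with hF
    set F' : ℂ → ℝ := fun x => ((1 + (fderiv ℝ u' x 1).re) - (1 + (fderiv ℝ u' x I).im)) ^ 2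
      + 4 * (0 + ((fderiv ℝ u' x 1).im + (fderiv ℝ u' x I).re) / 2) ^ 2 with hF'
    have hFc : Continuous F := by
      have c1 : Continuous fun x => fderiv ℝ u x 1 := hcd.clm_apply continuous_const
      have c2 : Continuous fun x => fderiv ℝ u x I := hcd.clm_apply continuous_const
      have := Complex.continuous_re
      have := Complex.continuous_im
      simp only [hF]
      fun_prop
    have hcd' : Continuous (fderiv ℝ u') := hu's.continuous_fderiv (by simp)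
    have hFc' : Continuous F' := by
      have c1 : Continuous fun x => fderiv ℝ u' x 1 := hcd'.clm_apply continuous_const
      have c2 : Continuous fun x => fderiv ℝ u' x I := hcd'.clm_apply continuous_const
      have := Complex.continuous_re
      have := Complex.continuous_im
      simp only [hF']
      fun_prop
    have hF0 : ∀ x, 0 ≤ F x := fun x => by simp only [hF]; positivity
    have hpt : ∀ x, F' x ≤ 2 * F (T x) + ε := by
      intro x
      have a1 := hclose x 1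
      have a2 := hclose x I
      rw [hAp] at a1 a2
      simp only [norm_one, Complex.norm_I, mul_one] at a1 a2
      have r1 := (Complex.abs_re_le_norm _).trans a1
      have i1 := (Complex.abs_im_le_norm _).trans a1
      have r2 := (Complex.abs_re_le_norm _).trans a2
      have i2 := (Complex.abs_im_le_norm _).trans a2
      simp only [Complex.sub_re, Complex.add_re, Complex.one_re, Complex.sub_im, Complex.add_im,
        Complex.one_im, Complex.I_re, Complex.I_im] at r1 i1 r2 i2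
      simp only [hF, hF']
      rw [abs_le] at r1 i1 r2 i2
      set p1 := (fderiv ℝ u' x 1).re
      set p2 := (fderiv ℝ u' x 1).im
      set p3 := (fderiv ℝ u' x I).re
      set p4 := (fderiv ℝ u' x I).im
      set q1 := (fderiv ℝ u (T x) 1).re
      set q2 := (fderiv ℝ u (T x) 1).im
      set q3 := (fderiv ℝ u (T x) I).re
      set q4 := (fderiv ℝ u (T x) I).im
      set K := 4 * δ * M with hK
      have hK0 : 0 ≤ K := by positivity
      have e1 : ((p1 - p4) - (q1 - q4)) ^ 2 ≤ (2 * K) ^ 2 := by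
        apply sq_le_sq'
        · linarith [r1.1, r1.2, i2.1, i2.2]
        · linarith [r1.1, r1.2, i2.1, i2.2]
      have e2 : ((p2 + p3) - (q2 + q3)) ^ 2 ≤ (2 * K) ^ 2 := by
        apply sq_le_sq'
        · linarith [i1.1, i1.2, r2.1, r2.2]
        · linarith [i1.1, i1.2, r2.1, r2.2]
      have e3 : 16 * K ^ 2 ≤ ε := by
        have : 16 * K ^ 2 = 256 * δ ^ 2 * M ^ 2 := by rw [hK]; ring
        rw [this]; exact hδ3
      nlinarith [sq_nonneg ((p1 - p4) - 2 * (q1 - q4)), sq_nonneg ((p2 + p3) - 2 * (q2 + q3))]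
    -- integrate
    have hcm' : MeasurableSet (cell b') := ZSpan.fundamentalDomain_measurableSet b'
    have hTm : Measurable T := T.continuous.measurable
    have hΩm' : MeasurableSet (T ⁻¹' Ω) := hTm hΩm
    have hcb' : Bornology.IsBounded (cell b') := ZSpan.fundamentalDomain_isBounded b'
    have hKc : IsCompact (closure (cell b')) :=
      Metric.isCompact_of_isClosed_isBounded isClosed_closure hcb'.closure
    have hci : ∀ f : ℂ → ℝ, Continuous f → IntegrableOn f (cell b') := fun f hf =>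
      (hf.continuousOn.integrableOn_compact hKc).mono_set subset_closure
    have hV' : 0 < (volume (cell b')).toReal :=
      ENNReal.toReal_pos (ZSpan.measure_fundamentalDomain_ne_zero b') hcb'.measure_lt_top.ne
    have hV : 0 < (volume (cell b)).toReal :=
      ENNReal.toReal_pos (ZSpan.measure_fundamentalDomain_ne_zero b)
        (ZSpan.fundamentalDomain_isBounded b).measure_lt_top.ne
    have hFT : Continuous fun x => F (T x) := hFc.comp T.continuous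
    have hperF : Per b F := by
      intro i x
      simp only [hF]
      rw [per_fderiv hup i x]
    have hperG : Per b (Ω.indicator F) := by
      intro i x
      by_cases hx : x ∈ Ω
      · rw [Set.indicator_of_mem hx, Set.indicator_of_mem ((hΩp i x).2 hx), hperF i x]
      · rw [Set.indicator_of_notMem hx, Set.indicator_of_notMem (fun h => hx ((hΩp i x).1 h))]
    have havg := avg_map b b' T hTb (Ω.indicator F) hperG (hFc.measurable.indicator hΩm)
      (fun x => Set.indicator_nonneg (fun y _ => hF0 y) x)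
    have hI : ∀ (c : Module.Basis (Fin 2) ℝ ℂ) (S : Set ℂ) (hS : MeasurableSet S) (f : ℂ → ℝ),
        ∫ x in S ∩ cell c, f x = ∫ x in cell c, S.indicator f x := by
      intro c S hS f
      rw [integral_indicator hS, Measure.restrict_restrict hS]
    have h1 : ∫ x in (T ⁻¹' Ω) ∩ cell b', F' x ≤ ∫ x in (T ⁻¹' Ω) ∩ cell b', (2 * F (T x) + ε) := by
      refine setIntegral_mono ((hci _ hFc').mono_set inter_subset_right)
        ((hci _ ((continuous_const.mul hFT).add continuous_const)).mono_set inter_subset_right) hpt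
    have h2 : ∫ x in (T ⁻¹' Ω) ∩ cell b', (2 * F (T x) + ε) =
        2 * (∫ x in (T ⁻¹' Ω) ∩ cell b', F (T x)) + ε * (volume ((T ⁻¹' Ω) ∩ cell b')).toReal := by
      have g1 : IntegrableOn (fun x => 2 * F (T x)) ((T ⁻¹' Ω) ∩ cell b') :=
        (hci _ (continuous_const.mul hFT)).mono_set inter_subset_right
      have g2 : IntegrableOn (fun _ : ℂ => ε) ((T ⁻¹' Ω) ∩ cell b') :=
        (hci _ continuous_const).mono_set inter_subset_right
      rw [integral_add g1 g2, integral_const_mul]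
      congr 1
      simp [mul_comm, Measure.real]
    have h3 : (volume ((T ⁻¹' Ω) ∩ cell b')).toReal ≤ (volume (cell b')).toReal :=
      ENNReal.toReal_mono hcb'.measure_lt_top.ne (measure_mono inter_subset_right)
    have h4 : ∫ x in (T ⁻¹' Ω) ∩ cell b', F (T x) =
        (∫ x in Ω ∩ cell b, F x) / (volume (cell b)).toReal * (volume (cell b')).toReal := by
      rw [hI b Ω hΩm F, ← havg, hI b' _ hΩm', div_mul_cancel₀ _ hV'.ne']
      rfl
    have h5 : (∫ x in Ω ∩ cell b, F x) / (volume (cell b)).toReal ≤ ε := by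
      rw [div_le_iff₀ hV]; exact hE
    have h6 : ∫ x in (T ⁻¹' Ω) ∩ cell b', F (T x) ≤ ε * (volume (cell b')).toReal := by
      rw [h4]; exact mul_le_mul_of_nonneg_right h5 hV'.le
    calc ∫ x in (T ⁻¹' Ω) ∩ cell b', F' x ≤ _ := h1
      _ = _ := h2
      _ ≤ 3 * ε * (volume (cell b')).toReal := by nlinarith [mul_le_mul_of_nonneg_left h3 hε.le]

/-- static certificate of the fine lattice: for every `c` an Airy function `Re (c x²) + d(x)`, locally affine off `Ω`,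
with mean square Hessian of `d` at most `ε ‖c‖²` -/
def Stat (b : Module.Basis (Fin 2) ℝ ℂ) (Ω : Set ℂ) (ε : ℝ) : Prop :=
  ∀ c : ℂ, ∃ d : ℂ → ℝ, ContDiff ℝ ∞ d ∧ Per b d ∧
    (∀ x, x ∉ Ω → ∃ (α : ℝ) (g : ℂ), ∀ᶠ y in nhds x, (c * y ^ 2).re + d y = α + (g * y).re) ∧
    ∫ x in cell b, ‖iteratedFDeriv ℝ 2 d x‖ ^ 2 ≤ ε * ‖c‖ ^ 2 * (volume (cell b)).toReal

/-- static certificate of a general lattice: the quadratic part is only close to `Re (c x²)` -/
def Stat' (b : Module.Basis (Fin 2) ℝ ℂ) (Ω : Set ℂ) (ε : ℝ) : Prop :=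
  ∀ c : ℂ, ∃ (c' : ℂ) (t : ℝ) (d : ℂ → ℝ), ‖c' - c‖ ≤ ε * ‖c‖ ∧ |t| ≤ ε * ‖c‖ ∧ ContDiff ℝ ∞ d ∧ Per b d ∧
    (∀ x, x ∉ Ω → ∃ (α : ℝ) (g : ℂ), ∀ᶠ y in nhds x,
      (c' * y ^ 2).re + t * (y.re ^ 2 + y.im ^ 2) + d y = α + (g * y).re) ∧
    ∫ x in cell b, ‖iteratedFDeriv ℝ 2 d x‖ ^ 2 ≤ ε * ‖c‖ ^ 2 * (volume (cell b)).toReal

/-- decomposition of a real linear map -/
lemma decomp (T : ℂ ≃L[ℝ] ℂ) (N δ : ℝ)
    (hT : ∀ x, ‖T x - N * x‖ ≤ δ * N * ‖x‖) :
    ∃ p q : ℂ, (∀ x, T x = p * x + q * (starRingEnd ℂ) x) ∧ ‖p - N‖ ≤ δ * N ∧ ‖q‖ ≤ δ * N := by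
  refine ⟨(T 1 - I * T I) / 2, (T 1 + I * T I) / 2, ?_, ?_, ?_⟩
  · intro x
    have h1 : T x = x.re * T 1 + x.im * T I := by
      have h2 : x = x.re • (1 : ℂ) + x.im • I := by
        rw [Complex.real_smul, Complex.real_smul, mul_one, Complex.re_add_im]
      conv_lhs => rw [h2]
      rw [map_add, map_smul, map_smul, Complex.real_smul, Complex.real_smul]
    rw [h1]
    have h3 : x = x.re + x.im * I := (Complex.re_add_im x).symm
    have h4 : (starRingEnd ℂ) x = x.re - x.im * I := by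
      apply Complex.ext <;> simp
    rw [h4]
    conv_rhs => rw [h3]
    simp only [Complex.add_re, Complex.ofReal_re, Complex.mul_re, Complex.I_re, Complex.ofReal_im,
      Complex.I_im, Complex.add_im, Complex.mul_im]
    ring_nf
    simp only [Complex.I_sq]
    ring
  · have e : (T 1 - I * T I) / 2 - N = ((T 1 - N * 1) - I * (T I - N * I)) / 2 := by
      have : I * (N * I) = -(N : ℂ) := by
        rw [mul_comm, mul_assoc, Complex.I_mul_I]; ring
      linear_combination (-(1:ℂ)/2) * this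
    rw [e, norm_div]
    have h1 := hT 1
    have h2 := hT I
    have h3 : ‖I * (T I - N * I)‖ = ‖T I - N * I‖ := by rw [norm_mul, Complex.norm_I, one_mul]
    have h4 : ‖(2 : ℂ)‖ = 2 := by simp
    rw [norm_one, mul_one (δ * N)] at h1
    rw [Complex.norm_I, mul_one] at h2
    rw [h4, div_le_iff₀ (by norm_num)]
    refine (norm_sub_le _ _).trans ?_
    rw [h3]; linarith
  · have e : (T 1 + I * T I) / 2 = ((T 1 - N * 1) + I * (T I - N * I)) / 2 := by
      have : I * (N * I) = -(N : ℂ) := by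
        rw [mul_comm, mul_assoc, Complex.I_mul_I]; ring
      linear_combination (1/2 : ℂ) * this
    rw [e, norm_div]
    have h1 := hT 1
    have h2 := hT I
    have h3 : ‖I * (T I - N * I)‖ = ‖T I - N * I‖ := by rw [norm_mul, Complex.norm_I, one_mul]
    have h4 : ‖(2 : ℂ)‖ = 2 := by simp
    rw [norm_one, mul_one (δ * N)] at h1
    rw [Complex.norm_I, mul_one] at h2
    rw [h4, div_le_iff₀ (by norm_num)]
    refine (norm_add_le _ _).trans ?_
    rw [h3]; linarith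

/-- a real linear functional -/
lemma functional (T : ℂ ≃L[ℝ] ℂ) (g : ℂ) : ∃ g' : ℂ, ∀ x, (g * T x).re = (g' * x).re := by
  refine ⟨(g * T 1).re - (g * T I).re * I, fun x => ?_⟩
  have h1 : T x = x.re * T 1 + x.im * T I := by
    have h2 : x = x.re • (1 : ℂ) + x.im • I := by
      rw [Complex.real_smul, Complex.real_smul, mul_one, Complex.re_add_im]
    conv_lhs => rw [h2]
    rw [map_add, map_smul, map_smul, Complex.real_smul, Complex.real_smul]
  rw [h1]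
  have h2 : g * (x.re * T 1 + x.im * T I) = (x.re : ℂ) * (g * T 1) + (x.im : ℂ) * (g * T I) := by ring
  rw [h2, Complex.add_re, Complex.re_ofReal_mul, Complex.re_ofReal_mul]
  simp
  ring

/-- the quadratic form after the change of variables -/
lemma quad_map (c p q x : ℂ) (N : ℝ) :
    (c * (p * x + q * (starRingEnd ℂ) x) ^ 2).re / N ^ 2 =
      ((c * p ^ 2 + (starRingEnd ℂ) (c * q ^ 2)) / N ^ 2 * x ^ 2).re +
        (2 * c * p * q).re / N ^ 2 * (x.re ^ 2 + x.im ^ 2) := by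
  have h1 : (c * (p * x + q * (starRingEnd ℂ) x) ^ 2).re =
      ((c * p ^ 2 + (starRingEnd ℂ) (c * q ^ 2)) * x ^ 2).re +
        (2 * c * p * q).re * (x.re ^ 2 + x.im ^ 2) := by
    have e1 : c * (p * x + q * (starRingEnd ℂ) x) ^ 2 =
        c * p ^ 2 * x ^ 2 + (2 * c * p * q) * (x * (starRingEnd ℂ) x) +
          (c * q ^ 2) * ((starRingEnd ℂ) x) ^ 2 := by ring
    have e2 : ((c * q ^ 2) * ((starRingEnd ℂ) x) ^ 2).re =
        ((starRingEnd ℂ) (c * q ^ 2) * x ^ 2).re := by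
      have : (c * q ^ 2) * ((starRingEnd ℂ) x) ^ 2 =
          (starRingEnd ℂ) ((starRingEnd ℂ) (c * q ^ 2) * x ^ 2) := by
        simp
      rw [this, Complex.conj_re]
    have e3 : x * (starRingEnd ℂ) x = ((x.re ^ 2 + x.im ^ 2 : ℝ) : ℂ) := by
      rw [Complex.mul_conj, Complex.normSq_apply]
      congr 1; ring
    rw [e1, Complex.add_re, Complex.add_re, e2, e3, mul_comm (2 * c * p * q), Complex.re_ofReal_mul,
      add_mul (c * p ^ 2), Complex.add_re]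
    ring
  have h2 : ((c * p ^ 2 + (starRingEnd ℂ) (c * q ^ 2)) / N ^ 2 * x ^ 2).re =
      ((c * p ^ 2 + (starRingEnd ℂ) (c * q ^ 2)) * x ^ 2).re / N ^ 2 := by
    have : (c * p ^ 2 + (starRingEnd ℂ) (c * q ^ 2)) / N ^ 2 * x ^ 2 =
        (c * p ^ 2 + (starRingEnd ℂ) (c * q ^ 2)) * x ^ 2 / ((N ^ 2 : ℝ) : ℂ) := by
      push_cast; ring
    rw [this, Complex.div_ofReal_re]
  rw [h1, h2]
  ring

/-- transfer of the static certificate -/
theorem Stat.transfer {b : Module.Basis (Fin 2) ℝ ℂ} {Ω : Set ℂ} {ε : ℝ} (hε : 0 < ε)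
    (hS : Stat b Ω ε) (b' : Module.Basis (Fin 2) ℝ ℂ) (T : ℂ ≃L[ℝ] ℂ) (N δ : ℝ) (hN : 0 < N) (hδ : 0 < δ)
    (hδ1 : δ ≤ 1 / 2) (hδε : 4 * δ ≤ ε)
    (hTb : ∀ i, T (b' i) ∈ Submodule.span ℤ (Set.range b)) (hT : ∀ x, ‖T x - N * x‖ ≤ δ * N * ‖x‖) :
    Stat' b' (T ⁻¹' Ω) (16 * ε) := by
  intro c
  obtain ⟨d, hd, hdp, haff, hE⟩ := hS c
  obtain ⟨p, q, hpq, hp, hq⟩ := decomp T N δ hT
  have hc0 : 0 ≤ ‖c‖ := norm_nonneg c
  -- normalised coefficients
  set P : ℂ := p / N with hP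
  set Q : ℂ := q / N with hQ
  have hNc : (N : ℂ) ≠ 0 := Complex.ofReal_ne_zero.2 hN.ne'
  have hNn : ‖(N : ℂ)‖ = N := by rw [Complex.norm_real, Real.norm_of_nonneg hN.le]
  have hPn : ‖P - 1‖ ≤ δ := by
    have : P - 1 = (p - N) / N := by rw [hP]; field_simp
    rw [this, norm_div, hNn, div_le_iff₀ hN]; exact hp
  have hQn : ‖Q‖ ≤ δ := by
    rw [hQ, norm_div, hNn, div_le_iff₀ hN]; exact hq
  have hP1 : ‖P‖ ≤ 3 / 2 := by
    calc ‖P‖ = ‖(P - 1) + 1‖ := by congr 1; ring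
      _ ≤ ‖P - 1‖ + ‖(1 : ℂ)‖ := norm_add_le _ _
      _ ≤ 3 / 2 := by rw [norm_one]; linarith
  have hP2 : ‖P ^ 2 - 1‖ ≤ 5 / 2 * δ := by
    have : P ^ 2 - 1 = (P - 1) * ((P - 1) + 2) := by ring
    rw [this, norm_mul]
    have h2 : ‖(P - 1) + 2‖ ≤ 5 / 2 := by
      calc ‖(P - 1) + 2‖ ≤ ‖P - 1‖ + ‖(2 : ℂ)‖ := norm_add_le _ _
        _ ≤ 5 / 2 := by
          have : ‖(2 : ℂ)‖ = 2 := by simp
          rw [this]; linarith
    calc ‖P - 1‖ * ‖(P - 1) + 2‖ ≤ δ * (5 / 2) := by gcongr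
      _ = _ := by ring
  have hQ2 : ‖Q ^ 2‖ ≤ 1 / 2 * δ := by
    rw [norm_pow]
    nlinarith [norm_nonneg Q]
  set c' : ℂ := (c * p ^ 2 + (starRingEnd ℂ) (c * q ^ 2)) / N ^ 2 with hc'
  set t : ℝ := (2 * c * p * q).re / N ^ 2 with ht
  have hc'2 : c' = c * P ^ 2 + (starRingEnd ℂ) (c * Q ^ 2) := by
    have h1 : (starRingEnd ℂ) (N : ℂ) = (N : ℂ) := Complex.conj_ofReal N
    rw [hc', hP, hQ]
    simp only [map_mul, map_pow, map_div₀, h1]
    field_simp
  have ht2 : t = (2 * c * P * Q).re := by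
    have : 2 * c * P * Q = (2 * c * p * q) / ((N ^ 2 : ℝ) : ℂ) := by
      rw [hP, hQ]; push_cast; field_simp
    rw [this, Complex.div_ofReal_re]
  -- the new deviation
  have hTc : ContDiff ℝ ∞ (T : ℂ → ℂ) := T.contDiff
  have hcomp : ContDiff ℝ ∞ (fun x => d (T x)) := hd.comp hTc
  set d' : ℂ → ℝ := fun x => (1 / N ^ 2 : ℝ) * d (T x) with hd'
  have hd's : ContDiff ℝ ∞ d' := contDiff_const.mul hcomp
  have hper' : Per b' d' := by
    intro i x
    simp only [hd']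
    rw [map_add, add_comm, per_span hdp _ (hTb i)]
  refine ⟨c', t, d', ?_, ?_, hd's, hper', ?_, ?_⟩
  · rw [hc'2]
    have h1 : c * P ^ 2 + (starRingEnd ℂ) (c * Q ^ 2) - c =
        c * (P ^ 2 - 1) + (starRingEnd ℂ) (c * Q ^ 2) := by ring
    rw [h1]
    refine (norm_add_le _ _).trans ?_
    rw [RCLike.norm_conj, norm_mul, norm_mul]
    have h2 : ‖c‖ * ‖P ^ 2 - 1‖ ≤ ‖c‖ * (5 / 2 * δ) := mul_le_mul_of_nonneg_left hP2 hc0
    have h3 : ‖c‖ * ‖Q ^ 2‖ ≤ ‖c‖ * (1 / 2 * δ) := mul_le_mul_of_nonneg_left hQ2 hc0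
    nlinarith [mul_nonneg hc0 hε.le, mul_le_mul_of_nonneg_left hδε hc0]
  · rw [ht2]
    refine (Complex.abs_re_le_norm _).trans ?_
    have h1 : ‖2 * c * P * Q‖ = 2 * ‖c‖ * ‖P‖ * ‖Q‖ := by
      rw [norm_mul, norm_mul, norm_mul]; simp
    rw [h1]
    have h2 : 2 * ‖c‖ * ‖P‖ * ‖Q‖ ≤ 2 * ‖c‖ * (3 / 2) * δ := by gcongr
    nlinarith [mul_nonneg hc0 hε.le, mul_le_mul_of_nonneg_left hδε hc0]
  · intro x hx
    obtain ⟨α, g, hag⟩ := haff (T x) hx
    obtain ⟨g', hg'⟩ := functional T g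
    refine ⟨(1 / N ^ 2 : ℝ) * α, (1 / N ^ 2 : ℝ) * g', ?_⟩
    have h1 : ∀ᶠ y in nhds x, (c * (T y) ^ 2).re + d (T y) = α + (g * T y).re :=
      (T.continuous.tendsto x).eventually hag
    filter_upwards [h1] with y hy
    have h2 := quad_map c p q y N
    rw [← hpq] at h2
    have h3 : (c' * y ^ 2).re + t * (y.re ^ 2 + y.im ^ 2) = (c * (T y) ^ 2).re / N ^ 2 := by
      rw [h2]
    rw [h3]
    simp only [hd']
    have h4 : (((1 / N ^ 2 : ℝ) : ℂ) * g' * y).re = (1 / N ^ 2) * (g * T y).re := by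
      rw [hg', mul_assoc, Complex.re_ofReal_mul]
    rw [h4]
    have h5 : (c * (T y) ^ 2).re / N ^ 2 + 1 / N ^ 2 * d (T y) =
        1 / N ^ 2 * ((c * (T y) ^ 2).re + d (T y)) := by ring
    rw [h5, hy]; ring
  · -- the energy
    have hTn : ‖(T : ℂ →L[ℝ] ℂ)‖ ≤ 2 * N := by
      refine ContinuousLinearMap.opNorm_le_bound _ (by positivity) fun x => ?_
      have h1 := hT x
      have h2 : ‖(N : ℂ) * x‖ = N * ‖x‖ := by rw [norm_mul, hNn]
      have h3 : ‖T x‖ ≤ ‖T x - N * x‖ + ‖(N : ℂ) * x‖ := by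
        calc ‖T x‖ = ‖(T x - N * x) + N * x‖ := by congr 1; ring
          _ ≤ _ := norm_add_le _ _
      have h4 : δ * N * ‖x‖ ≤ 1 / 2 * N * ‖x‖ := by gcongr
      calc ‖(T : ℂ →L[ℝ] ℂ) x‖ = ‖T x‖ := rfl
        _ ≤ 2 * N * ‖x‖ := by
          rw [h2] at h3
          nlinarith [mul_nonneg hN.le (norm_nonneg x)]
    have hpt : ∀ x, ‖iteratedFDeriv ℝ 2 d' x‖ ≤ 4 * ‖iteratedFDeriv ℝ 2 d (T x)‖ := by
      intro x
      have h1 : iteratedFDeriv ℝ 2 d' x = (1 / N ^ 2 : ℝ) • iteratedFDeriv ℝ 2 (fun x => d (T x)) x := by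
        have h2 : d' = (1 / N ^ 2 : ℝ) • (fun x => d (T x)) := by
          funext y
          simp only [hd', Pi.smul_apply, smul_eq_mul]
        rw [h2]
        exact iteratedFDeriv_const_smul_apply ((hcomp.of_le (show (2 : WithTop ℕ∞) ≤ ((⊤ : ℕ∞) : WithTop ℕ∞) from WithTop.coe_le_coe.mpr le_top)).contDiffAt)
      have h3 : iteratedFDeriv ℝ 2 (fun x => d (T x)) x =
          (iteratedFDeriv ℝ 2 d (T x)).compContinuousLinearMap fun _ => (T : ℂ →L[ℝ] ℂ) :=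
        (T : ℂ →L[ℝ] ℂ).iteratedFDeriv_comp_right (f := d) (n := (∞ : WithTop ℕ∞)) hd x
          (show (2 : WithTop ℕ∞) ≤ ((⊤ : ℕ∞) : WithTop ℕ∞) from WithTop.coe_le_coe.mpr le_top)
      rw [h1, h3, norm_smul]
      have h4 := (iteratedFDeriv ℝ 2 d (T x)).norm_compContinuousLinearMap_le
        (fun _ : Fin 2 => (T : ℂ →L[ℝ] ℂ))
      rw [Fin.prod_univ_two] at h4
      have h5 : ‖(1 / N ^ 2 : ℝ)‖ = 1 / N ^ 2 := Real.norm_of_nonneg (by positivity)
      rw [h5]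
      calc 1 / N ^ 2 * ‖(iteratedFDeriv ℝ 2 d (T x)).compContinuousLinearMap fun _ => (T : ℂ →L[ℝ] ℂ)‖
          ≤ 1 / N ^ 2 * (‖iteratedFDeriv ℝ 2 d (T x)‖ * (‖(T : ℂ →L[ℝ] ℂ)‖ * ‖(T : ℂ →L[ℝ] ℂ)‖)) := by
            gcongr
        _ ≤ 1 / N ^ 2 * (‖iteratedFDeriv ℝ 2 d (T x)‖ * ((2 * N) * (2 * N))) := by
            gcongr
        _ = 4 * ‖iteratedFDeriv ℝ 2 d (T x)‖ := by field_simp; ring
    have hcb' : Bornology.IsBounded (cell b') := ZSpan.fundamentalDomain_isBounded b'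
    have hKc : IsCompact (closure (cell b')) :=
      Metric.isCompact_of_isClosed_isBounded isClosed_closure hcb'.closure
    have hci : ∀ f : ℂ → ℝ, Continuous f → IntegrableOn f (cell b') := fun f hf =>
      (hf.continuousOn.integrableOn_compact hKc).mono_set subset_closure
    have hV' : 0 < (volume (cell b')).toReal :=
      ENNReal.toReal_pos (ZSpan.measure_fundamentalDomain_ne_zero b') hcb'.measure_lt_top.ne
    have hV : 0 < (volume (cell b)).toReal :=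
      ENNReal.toReal_pos (ZSpan.measure_fundamentalDomain_ne_zero b)
        (ZSpan.fundamentalDomain_isBounded b).measure_lt_top.ne
    have h2le : (2 : WithTop ℕ∞) ≤ ((⊤ : ℕ∞) : WithTop ℕ∞) := WithTop.coe_le_coe.mpr le_top
    have c1 : Continuous fun x => ‖iteratedFDeriv ℝ 2 d x‖ ^ 2 :=
      ((hd.continuous_iteratedFDeriv (m := 2) h2le).norm).pow 2
    have c2 : Continuous fun x => ‖iteratedFDeriv ℝ 2 d' x‖ ^ 2 :=
      ((hd's.continuous_iteratedFDeriv (m := 2) h2le).norm).pow 2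
    have hperD : Per b (fun x => ‖iteratedFDeriv ℝ 2 d x‖ ^ 2) := by
      intro i x
      have h1 : iteratedFDeriv ℝ 2 (fun z => d (z + b i)) x = iteratedFDeriv ℝ 2 d (x + b i) :=
        iteratedFDeriv_comp_add_right 2 (b i) x
      have h2 : (fun z => d (z + b i)) = d := funext fun z => hdp i z
      rw [h2] at h1
      show ‖iteratedFDeriv ℝ 2 d (x + b i)‖ ^ 2 = ‖iteratedFDeriv ℝ 2 d x‖ ^ 2
      rw [h1]
    have havg := avg_map b b' T hTb _ hperD c1.measurable (fun x => by positivity)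
    have h1 : ∫ x in cell b', ‖iteratedFDeriv ℝ 2 d' x‖ ^ 2 ≤
        ∫ x in cell b', 16 * ‖iteratedFDeriv ℝ 2 d (T x)‖ ^ 2 := by
      refine setIntegral_mono (hci _ c2) (hci _ (continuous_const.mul (c1.comp T.continuous)))
        fun x => ?_
      have := hpt x
      have h0 := norm_nonneg (iteratedFDeriv ℝ 2 d' x)
      show ‖iteratedFDeriv ℝ 2 d' x‖ ^ 2 ≤ 16 * ‖iteratedFDeriv ℝ 2 d (T x)‖ ^ 2
      nlinarith
    rw [integral_const_mul] at h1
    have h2 : ∫ x in cell b', ‖iteratedFDeriv ℝ 2 d (T x)‖ ^ 2 =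
        (∫ x in cell b, ‖iteratedFDeriv ℝ 2 d x‖ ^ 2) / (volume (cell b)).toReal *
          (volume (cell b')).toReal := by
      rw [← havg, div_mul_cancel₀ _ hV'.ne']
    have h3 : (∫ x in cell b, ‖iteratedFDeriv ℝ 2 d x‖ ^ 2) / (volume (cell b)).toReal ≤ ε * ‖c‖ ^ 2 := by
      rw [div_le_iff₀ hV]; exact hE
    rw [h2] at h1
    refine h1.trans ?_
    have h4 := mul_le_mul_of_nonneg_right h3 hV'.le
    linarith

/-- upper bound from the kinematic certificate -/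
theorem upper {b : Module.Basis (Fin 2) ℝ ℂ} {Ω : Set ℂ} (hΩm : MeasurableSet Ω) {ε₁ : ℝ} (hε₁ : 0 < ε₁)
    (hK : Kin b Ω ε₁) (κ : ℝ≥0∞) (μ : ℝ) (hμ : 0 < μ) (θ : ℝ) (hθ : 0 < θ) (s p q : ℝ) :
    effE b Ω κ μ (s + p) (s - p) q ≤
      ENNReal.ofReal (μ * ((1 + θ) * (4 * p ^ 2 + 4 * q ^ 2) + (1 + 1 / θ) * s ^ 2 * ε₁)) := by
  obtain ⟨u, hu, hup, htr, hE⟩ := hK
  set v : ℂ → ℂ := fun x => (s : ℂ) * u x with hv
  have hvs : ContDiff ℝ ∞ v := contDiff_const.mul hu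
  have hvp : Per b v := by
    intro i x
    simp only [hv]
    rw [hup i x]
  have hfd : ∀ x h, fderiv ℝ v x h = (s : ℂ) * fderiv ℝ u x h := by
    intro x h
    have h1 : HasFDerivAt u (fderiv ℝ u x) x := ((hu.differentiable (by simp)) x).hasFDerivAt
    have h2 : HasFDerivAt v (s • fderiv ℝ u x) x := by
      have h3 := h1.const_smul s
      have h4 : v = fun x => s • u x := by
        funext y; simp only [hv, Complex.real_smul]
      rw [h4]; exact h3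
    rw [h2.fderiv]
    simp [Complex.real_smul]
  have hH : IsH1Per b v (fun x => fderiv ℝ v x 1) (fun x => fderiv ℝ v x I) :=
    isH1Per_of_contDiff (fun b f hf hp h => integral_cell_deriv b f hf hp h) b v hvs hvp
  have h1 := effE_le b Ω hΩm κ μ hμ v hvs hH (s + p) (s - p) q (by
    intro x hx
    have h2 := htr x hx
    rw [hfd, hfd, Complex.re_ofReal_mul, Complex.im_ofReal_mul]
    linear_combination s * h2)
  refine h1.trans (ENNReal.ofReal_le_ofReal ?_)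
  have hcb : Bornology.IsBounded (cell b) := ZSpan.fundamentalDomain_isBounded b
  have hcm : MeasurableSet (cell b) := ZSpan.fundamentalDomain_measurableSet b
  have hKc : IsCompact (closure (cell b)) :=
    Metric.isCompact_of_isClosed_isBounded isClosed_closure hcb.closure
  have hci : ∀ f : ℂ → ℝ, Continuous f → IntegrableOn f (cell b) := fun f hf =>
    (hf.continuousOn.integrableOn_compact hKc).mono_set subset_closure
  have hV : 0 < (volume (cell b)).toReal :=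
    ENNReal.toReal_pos (ZSpan.measure_fundamentalDomain_ne_zero b) hcb.measure_lt_top.ne
  set V := (volume (cell b)).toReal with hVdef
  set F : ℂ → ℝ := fun x => ((1 + (fderiv ℝ u x 1).re) - (1 + (fderiv ℝ u x I).im)) ^ 2
      + 4 * (0 + ((fderiv ℝ u x 1).im + (fderiv ℝ u x I).re) / 2) ^ 2 with hF
  have hcd : Continuous (fderiv ℝ u) := hu.continuous_fderiv (by simp)
  have c1 : Continuous fun x => fderiv ℝ u x 1 := hcd.clm_apply continuous_const
  have c2 : Continuous fun x => fderiv ℝ u x I := hcd.clm_apply continuous_const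
  have hFc : Continuous F := by
    have := Complex.continuous_re
    have := Complex.continuous_im
    simp only [hF]
    fun_prop
  have hpt : ∀ x, μ * (((s + p + (fderiv ℝ v x 1).re) - (s - p + (fderiv ℝ v x I).im)) ^ 2
      + 4 * (q + ((fderiv ℝ v x 1).im + (fderiv ℝ v x I).re) / 2) ^ 2) ≤
      μ * ((1 + θ) * (4 * p ^ 2 + 4 * q ^ 2)) + μ * (1 + 1 / θ) * s ^ 2 * F x := by
    intro x
    rw [hfd, hfd, Complex.re_ofReal_mul, Complex.im_ofReal_mul, Complex.im_ofReal_mul,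
      Complex.re_ofReal_mul]
    simp only [hF]
    set x1 := (fderiv ℝ u x 1).re
    set x2 := (fderiv ℝ u x 1).im
    set x3 := (fderiv ℝ u x I).re
    set x4 := (fderiv ℝ u x I).im
    have hyoung : ∀ A B : ℝ, (s * A + B) ^ 2 ≤ (1 + θ) * B ^ 2 + (1 + 1 / θ) * s ^ 2 * A ^ 2 := by
      intro A B
      have h3 : (1 + θ) * B ^ 2 + (1 + 1 / θ) * s ^ 2 * A ^ 2 - (s * A + B) ^ 2 =
          (θ * B - s * A) ^ 2 / θ := by
        field_simp; ring
      have h4 : 0 ≤ (θ * B - s * A) ^ 2 / θ := by positivity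
      linarith
    have e1 := hyoung (x1 - x4) (2 * p)
    have e2 := hyoung ((x2 + x3) / 2) q
    have e3 : s + p + s * x1 - (s - p + s * x4) = s * (x1 - x4) + 2 * p := by ring
    have e4 : q + (s * x2 + s * x3) / 2 = s * ((x2 + x3) / 2) + q := by ring
    rw [e3, e4]
    have e5 : (1 + x1 - (1 + x4)) = x1 - x4 := by ring
    have e6 : 0 + (x2 + x3) / 2 = (x2 + x3) / 2 := by ring
    rw [e5, e6]
    have e7 : μ * ((s * (x1 - x4) + 2 * p) ^ 2 + 4 * (s * ((x2 + x3) / 2) + q) ^ 2) ≤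
        μ * (((1 + θ) * (2 * p) ^ 2 + (1 + 1 / θ) * s ^ 2 * (x1 - x4) ^ 2) +
          4 * ((1 + θ) * q ^ 2 + (1 + 1 / θ) * s ^ 2 * ((x2 + x3) / 2) ^ 2)) := by
      apply mul_le_mul_of_nonneg_left _ hμ.le
      linarith
    linarith
  have hcdv : Continuous (fderiv ℝ v) := hvs.continuous_fderiv (by simp)
  have c1v : Continuous fun x => fderiv ℝ v x 1 := hcdv.clm_apply continuous_const
  have c2v : Continuous fun x => fderiv ℝ v x I := hcdv.clm_apply continuous_const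
  have hcv : Continuous fun x => μ * (((s + p + (fderiv ℝ v x 1).re) - (s - p + (fderiv ℝ v x I).im)) ^ 2
      + 4 * (q + ((fderiv ℝ v x 1).im + (fderiv ℝ v x I).re) / 2) ^ 2) := by
    have := Complex.continuous_re
    have := Complex.continuous_im
    fun_prop
  have h2 : ∫ x in Ω ∩ cell b, μ * (((s + p + (fderiv ℝ v x 1).re) - (s - p + (fderiv ℝ v x I).im)) ^ 2
      + 4 * (q + ((fderiv ℝ v x 1).im + (fderiv ℝ v x I).re) / 2) ^ 2) ≤
      ∫ x in Ω ∩ cell b, (μ * ((1 + θ) * (4 * p ^ 2 + 4 * q ^ 2)) + μ * (1 + 1 / θ) * s ^ 2 * F x) :=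
    setIntegral_mono ((hci _ hcv).mono_set inter_subset_right)
      ((hci _ (continuous_const.add (continuous_const.mul hFc))).mono_set inter_subset_right) hpt
  have g1 : IntegrableOn (fun _ : ℂ => μ * ((1 + θ) * (4 * p ^ 2 + 4 * q ^ 2))) (Ω ∩ cell b) :=
    (hci _ continuous_const).mono_set inter_subset_right
  have g2 : IntegrableOn (fun x : ℂ => μ * (1 + 1 / θ) * s ^ 2 * F x) (Ω ∩ cell b) :=
    (hci _ (continuous_const.mul hFc)).mono_set inter_subset_right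
  have h2b : ∫ x in Ω ∩ cell b, (μ * ((1 + θ) * (4 * p ^ 2 + 4 * q ^ 2)) + μ * (1 + 1 / θ) * s ^ 2 * F x) =
      volume.real (Ω ∩ cell b) • (μ * ((1 + θ) * (4 * p ^ 2 + 4 * q ^ 2))) +
        μ * (1 + 1 / θ) * s ^ 2 * ∫ x in Ω ∩ cell b, F x := by
    rw [integral_add g1 g2, setIntegral_const, integral_const_mul]
  rw [h2b] at h2
  have h3 : volume.real (Ω ∩ cell b) ≤ V :=
    ENNReal.toReal_mono hcb.measure_lt_top.ne (measure_mono inter_subset_right)
  rw [div_le_iff₀ hV]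
  refine h2.trans ?_
  rw [smul_eq_mul]
  have h4 : volume.real (Ω ∩ cell b) * (μ * ((1 + θ) * (4 * p ^ 2 + 4 * q ^ 2))) ≤
      V * (μ * ((1 + θ) * (4 * p ^ 2 + 4 * q ^ 2))) :=
    mul_le_mul_of_nonneg_right h3 (by positivity)
  have h5 : μ * (1 + 1 / θ) * s ^ 2 * (∫ x in Ω ∩ cell b, F x) ≤ μ * (1 + 1 / θ) * s ^ 2 * (ε₁ * V) :=
    mul_le_mul_of_nonneg_left hE (by positivity)
  linarith

/-- lower bound from the static certificate -/
theorem lower {b : Module.Basis (Fin 2) ℝ ℂ} {Ω : Set ℂ} (hΩm : MeasurableSet Ω) {ε₂ : ℝ} (hε₂ : 0 < ε₂)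
    (hε₂1 : ε₂ ≤ 1) (hS : Stat' b Ω ε₂) (κ : ℝ≥0∞) (hκ : κ ≠ 0) (μ : ℝ) (hμ : 0 < μ) (s p q : ℝ) :
    ENNReal.ofReal (4 * μ * (p ^ 2 + q ^ 2) - ε₂ * (34 * μ + 5 * (κ⁻¹).toReal * μ ^ 2) * (s ^ 2 + p ^ 2 + q ^ 2)) ≤
      effE b Ω κ μ (s + p) (s - p) q := by
  set k : ℝ := (κ⁻¹).toReal with hk
  have hk0 : 0 ≤ k := ENNReal.toReal_nonneg
  set c : ℂ := ⟨-(μ * p), μ * q⟩ with hc
  obtain ⟨c', t, d, hc', ht, hd, hdp, haff, hE⟩ := hS c
  refine le_trans ?_ (effE_ge' b (fun f hf hp h => integral_cell_deriv b f hf hp h) Ω hΩm κ hκ μ hμ c' t d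
    hd hdp haff (s + p) (s - p) q)
  apply ENNReal.ofReal_le_ofReal
  have hcb : Bornology.IsBounded (cell b) := ZSpan.fundamentalDomain_isBounded b
  have hV : 0 < (volume (cell b)).toReal :=
    ENNReal.toReal_pos (ZSpan.measure_fundamentalDomain_ne_zero b) hcb.measure_lt_top.ne
  set E := (∫ x in cell b, ‖iteratedFDeriv ℝ 2 d x‖ ^ 2) / (volume (cell b)).toReal with hEd
  have hE' : E ≤ ε₂ * ‖c‖ ^ 2 := by
    rw [hEd, div_le_iff₀ hV]; exact hE
  set r : ℝ := Real.sqrt (p ^ 2 + q ^ 2) with hr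
  have hr0 : 0 ≤ r := Real.sqrt_nonneg _
  have hr2 : r ^ 2 = p ^ 2 + q ^ 2 := Real.sq_sqrt (by positivity)
  have hcn : ‖c‖ = μ * r := by
    have h1 : ‖c‖ ^ 2 = (μ * r) ^ 2 := by
      rw [← Complex.normSq_eq_norm_sq, Complex.normSq_apply, mul_pow, hr2]
      simp only [hc]; ring
    have h2 : 0 ≤ μ * r := by positivity
    exact (pow_left_inj₀ (norm_nonneg c) h2 two_ne_zero).1 h1
  have hΔr : |c'.re - c.re| ≤ ε₂ * (μ * r) := by
    have := Complex.abs_re_le_norm (c' - c)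
    rw [Complex.sub_re] at this
    rw [← hcn]; exact this.trans hc'
  have hΔi : |c'.im - c.im| ≤ ε₂ * (μ * r) := by
    have := Complex.abs_im_le_norm (c' - c)
    rw [Complex.sub_im] at this
    rw [← hcn]; exact this.trans hc'
  have hc'n : ‖c'‖ ≤ (1 + ε₂) * (μ * r) := by
    calc ‖c'‖ = ‖(c' - c) + c‖ := by congr 1; ring
      _ ≤ ‖c' - c‖ + ‖c‖ := norm_add_le _ _
      _ ≤ ε₂ * ‖c‖ + ‖c‖ := by linarith
      _ = _ := by rw [hcn]; ring
  have hcre : c.re = -(μ * p) := rfl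
  have hcim : c.im = μ * q := rfl
  have hpr : |p| ≤ r := Real.abs_le_sqrt (by nlinarith [sq_nonneg q])
  have hqr : |q| ≤ r := Real.abs_le_sqrt (by nlinarith [sq_nonneg p])
  rw [hcn] at ht hE'
  -- terms
  have t1 : -8 * c'.re * p + 8 * c'.im * q ≥ 8 * μ * r ^ 2 - 16 * ε₂ * μ * r ^ 2 := by
    have e1 : -(ε₂ * (μ * r) * r) ≤ (c'.re - c.re) * p ∧ (c'.re - c.re) * p ≤ ε₂ * (μ * r) * r := by
      rw [← abs_le, abs_mul]
      exact mul_le_mul hΔr hpr (abs_nonneg _) (by positivity)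
    have e2 : -(ε₂ * (μ * r) * r) ≤ (c'.im - c.im) * q ∧ (c'.im - c.im) * q ≤ ε₂ * (μ * r) * r := by
      rw [← abs_le, abs_mul]
      exact mul_le_mul hΔi hqr (abs_nonneg _) (by positivity)
    have e3 : -8 * c'.re * p + 8 * c'.im * q =
        -8 * ((c'.re - c.re) * p) + 8 * ((c'.im - c.im) * q) + 8 * μ * (p ^ 2 + q ^ 2) := by
      rw [hcre, hcim]; ring
    rw [e3, ← hr2]
    nlinarith [e1.1, e1.2, e2.1, e2.2]
  have t2 : 8 * t * s ≥ -(4 * ε₂ * μ * (r ^ 2 + s ^ 2)) := by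
    have e1 : |t * s| ≤ ε₂ * (μ * r) * |s| := by
      rw [abs_mul]; exact mul_le_mul_of_nonneg_right ht (abs_nonneg _)
    have e2 : 2 * (r * |s|) ≤ r ^ 2 + s ^ 2 := by
      nlinarith [sq_nonneg (r - |s|), sq_abs s]
    have e3 : ε₂ * μ * (2 * (r * |s|)) ≤ ε₂ * μ * (r ^ 2 + s ^ 2) :=
      mul_le_mul_of_nonneg_left e2 (by positivity)
    have e4 := (abs_le.1 e1).1
    nlinarith
  have t3 : 4 * ‖c'‖ ^ 2 / μ ≤ 4 * μ * (1 + 3 * ε₂) * r ^ 2 := by
    rw [div_le_iff₀ hμ]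
    have e1 : ‖c'‖ ^ 2 ≤ ((1 + ε₂) * (μ * r)) ^ 2 := by gcongr
    have e2 : (1 + ε₂) ^ 2 ≤ 1 + 3 * ε₂ := by nlinarith
    have e3 : ((1 + ε₂) * (μ * r)) ^ 2 = (1 + ε₂) ^ 2 * (μ ^ 2 * r ^ 2) := by ring
    have e4 : (1 + ε₂) ^ 2 * (μ ^ 2 * r ^ 2) ≤ (1 + 3 * ε₂) * (μ ^ 2 * r ^ 2) :=
      mul_le_mul_of_nonneg_right e2 (by positivity)
    nlinarith
  have t4 : 4 * t ^ 2 * k ≤ 4 * k * ε₂ * μ ^ 2 * r ^ 2 := by
    have e1 : t ^ 2 ≤ (ε₂ * (μ * r)) ^ 2 := by
      rw [← sq_abs t]; gcongr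
    have e2 : (ε₂ * (μ * r)) ^ 2 ≤ ε₂ * (μ ^ 2 * r ^ 2) := by
      have : (ε₂ * (μ * r)) ^ 2 = ε₂ * ε₂ * (μ ^ 2 * r ^ 2) := by ring
      rw [this]
      have e3 : ε₂ * ε₂ ≤ ε₂ := by nlinarith
      exact mul_le_mul_of_nonneg_right e3 (by positivity)
    have e3 := mul_le_mul_of_nonneg_left (e1.trans e2) (by positivity : (0:ℝ) ≤ 4 * k)
    linarith
  have t5 : (2 / μ + k) * E ≤ (2 * μ + k * μ ^ 2) * ε₂ * r ^ 2 := by
    have e1 : (2 / μ + k) * E ≤ (2 / μ + k) * (ε₂ * (μ * r) ^ 2) :=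
      mul_le_mul_of_nonneg_left hE' (by positivity)
    have e2 : (2 / μ + k) * (ε₂ * (μ * r) ^ 2) = (2 * μ + k * μ ^ 2) * ε₂ * r ^ 2 := by
      field_simp
    linarith
  rw [← hr2]
  have fin : s ^ 2 + p ^ 2 + q ^ 2 = s ^ 2 + r ^ 2 := by rw [hr2]; ring
  rw [fin]
  have e9 : 0 ≤ ε₂ * (5 * k * μ ^ 2) * s ^ 2 := by positivity
  have e10 : 0 ≤ ε₂ * μ * s ^ 2 := by positivity
  have e11 : 0 ≤ ε₂ * μ * r ^ 2 := by positivity
  nlinarith [t1, t2, t3, t4, t5, e9, e10, e11]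

/-- **Transfer theorem.** If there are (hexagonal) certificates with arbitrarily small energies, then for every period
lattice there are composites whose effective tensor is as close as we like to the isotropic one with moduli `(0, μ)`. -/
theorem main
    (hcert : ∀ ε : ℝ, 0 < ε → ∃ (b : Module.Basis (Fin 2) ℝ ℂ) (Ω : Set ℂ), MeasurableSet Ω ∧
      (∀ (i : Fin 2) (x : ℂ), x + b i ∈ Ω ↔ x ∈ Ω) ∧ Kin b Ω ε ∧ Stat b Ω ε)
    (b' : Module.Basis (Fin 2) ℝ ℂ) (κ : ℝ≥0∞) (hκ : κ ≠ 0) (μ : ℝ) (hμ : 0 < μ) (ε : ℝ) (hε : 0 < ε) :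
    ∃ Ω : Set ℂ, MeasurableSet Ω ∧ (∀ (i : Fin 2) (x : ℂ), x + b' i ∈ Ω ↔ x ∈ Ω) ∧
      ∀ e₁₁ e₂₂ e₁₂ : ℝ,
        ENNReal.ofReal (μ * ((e₁₁ - e₂₂) ^ 2 + 4 * e₁₂ ^ 2) - ε * (e₁₁ ^ 2 + e₂₂ ^ 2 + 2 * e₁₂ ^ 2)) ≤
          effE b' Ω κ μ e₁₁ e₂₂ e₁₂ ∧
        effE b' Ω κ μ e₁₁ e₂₂ e₁₂ ≤
          ENNReal.ofReal (μ * ((e₁₁ - e₂₂) ^ 2 + 4 * e₁₂ ^ 2) + ε * (e₁₁ ^ 2 + e₂₂ ^ 2 + 2 * e₁₂ ^ 2)) := by
  set k : ℝ := (κ⁻¹).toReal with hk
  have hk0 : 0 ≤ k := ENNReal.toReal_nonneg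
  set C : ℝ := 34 * μ + 5 * k * μ ^ 2 with hC
  have hC0 : 0 < C := by positivity
  set ε₂ : ℝ := min 1 (ε / C) with hε₂
  have hε₂0 : 0 < ε₂ := by positivity
  have hε₂1 : ε₂ ≤ 1 := min_le_left _ _
  have hε₂C : ε₂ * C ≤ ε := by
    have : ε₂ ≤ ε / C := min_le_right _ _
    rwa [le_div_iff₀ hC0] at this
  set θ : ℝ := ε / (2 * μ) with hθ
  have hθ0 : 0 < θ := by positivity
  set ε₁ : ℝ := ε / (μ * (1 + 1 / θ)) with hε₁
  have hε₁0 : 0 < ε₁ := by positivity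
  have hε₁' : μ * (1 + 1 / θ) * ε₁ = ε := by
    rw [hε₁]; field_simp
  obtain ⟨b, Ω, hΩm, hΩp, hK, hS⟩ := hcert (min (ε₁ / 3) (ε₂ / 16)) (by positivity)
  set ε₀ := min (ε₁ / 3) (ε₂ / 16) with hε₀
  have hε₀0 : 0 < ε₀ := by positivity
  have h31 : 3 * ε₀ ≤ ε₁ := by
    have : ε₀ ≤ ε₁ / 3 := min_le_left _ _
    linarith
  have h162 : 16 * ε₀ ≤ ε₂ := by
    have : ε₀ ≤ ε₂ / 16 := min_le_right _ _
    linarith
  obtain ⟨δ₀, hδ₀, htrans⟩ := hK.transfer hΩm hΩp hε₀0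
  set δ : ℝ := min δ₀ (min (1 / 2) (ε₀ / 4)) with hδ
  have hδ0 : 0 < δ := by positivity
  have hδ1 : δ ≤ 1 / 2 := (min_le_right _ _).trans (min_le_left _ _)
  have hδ2 : 4 * δ ≤ ε₀ := by
    have : δ ≤ ε₀ / 4 := (min_le_right _ _).trans (min_le_right _ _)
    linarith
  obtain ⟨T, N, hN, hTb, hT⟩ := exists_T b b' δ hδ0 (by linarith)
  have hK' := htrans b' T N δ hN hδ0 (min_le_left _ _) hTb hT
  have hS' := hS.transfer hε₀0 b' T N δ hN hδ0 hδ1 hδ2 hTb hT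
  have hΩm' : MeasurableSet (T ⁻¹' Ω) := T.continuous.measurable hΩm
  refine ⟨T ⁻¹' Ω, hΩm', ?_, ?_⟩
  · intro i x
    have hper : Per b (fun x => x ∈ Ω) := fun i x => propext (hΩp i x)
    have := per_span hper _ (hTb i) (T x)
    show T (x + b' i) ∈ Ω ↔ T x ∈ Ω
    rw [map_add, add_comm]
    exact iff_of_eq this
  · intro e₁₁ e₂₂ e₁₂
    have he1 : e₁₁ = (e₁₁ + e₂₂) / 2 + (e₁₁ - e₂₂) / 2 := by ring
    have he2 : e₂₂ = (e₁₁ + e₂₂) / 2 - (e₁₁ - e₂₂) / 2 := by ring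
    set s : ℝ := (e₁₁ + e₂₂) / 2 with hs
    set p : ℝ := (e₁₁ - e₂₂) / 2 with hp
    set q : ℝ := e₁₂
    rw [he1, he2]
    have hdev : μ * ((s + p - (s - p)) ^ 2 + 4 * q ^ 2) = 4 * μ * (p ^ 2 + q ^ 2) := by ring
    have hn : (s + p) ^ 2 + (s - p) ^ 2 + 2 * q ^ 2 = 2 * (s ^ 2 + p ^ 2 + q ^ 2) := by ring
    rw [hdev, hn]
    constructor
    · refine le_trans (ENNReal.ofReal_le_ofReal ?_)
        (lower (b := b') hΩm' (by positivity : 0 < 16 * ε₀) (h162.trans hε₂1) hS' κ hκ μ hμ s p q)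
      have h1 : 16 * ε₀ * C * (s ^ 2 + p ^ 2 + q ^ 2) ≤ ε * (s ^ 2 + p ^ 2 + q ^ 2) := by
        apply mul_le_mul_of_nonneg_right _ (by positivity)
        exact (mul_le_mul_of_nonneg_right h162 hC0.le).trans hε₂C
      have h2 : 0 ≤ ε * (s ^ 2 + p ^ 2 + q ^ 2) := by positivity
      linarith
    · refine (upper (b := b') hΩm' (by positivity : 0 < 3 * ε₀) hK' κ μ hμ θ hθ0 s p q).trans
        (ENNReal.ofReal_le_ofReal ?_)
      have h1 : μ * θ * 4 * (p ^ 2 + q ^ 2) = 2 * ε * (p ^ 2 + q ^ 2) := by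
        rw [hθ]; field_simp; ring
      have h2 : μ * (1 + 1 / θ) * s ^ 2 * (3 * ε₀) ≤ ε * s ^ 2 := by
        have h3 : μ * (1 + 1 / θ) * s ^ 2 * (3 * ε₀) ≤ μ * (1 + 1 / θ) * s ^ 2 * ε₁ :=
          mul_le_mul_of_nonneg_left h31 (by positivity)
        have h4 : μ * (1 + 1 / θ) * s ^ 2 * ε₁ = ε * s ^ 2 := by
          rw [← hε₁']; ring
        linarith
      have h5 : 0 ≤ ε * s ^ 2 := by positivity
      nlinarith [h1, h2, h5]

end ZT

/-- certificates for the hexagonal lattice -/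
theorem hex_cert (ε : ℝ) (hε : 0 < ε) : ∃ (b : Module.Basis (Fin 2) ℝ ℂ) (Ω : Set ℂ), MeasurableSet Ω ∧
      (∀ (i : Fin 2) (x : ℂ), x + b i ∈ Ω ↔ x ∈ Ω) ∧ ZT.Kin b Ω ε ∧ ZT.Stat b Ω ε := by
  obtain ⟨θ, hθ⟩ := exists_theta
  obtain ⟨Xi, KX, hKX, hXi⟩ := exists_Xi
  obtain ⟨K1, hK1, hkin⟩ := kin_final
  obtain ⟨K2, hK2, hen⟩ := dd_energy hθ hXi
  obtain ⟨m, hm4, hmA, hmB⟩ := fz_numeric K1 K2 ε hε hK2.le
  have hm4r : (4 : ℝ) ≤ m := by exact_mod_cast hm4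
  have hm0 : (0 : ℝ) < m := by linarith
  set a : ℝ := 1 / (100 * (m : ℝ) ^ 3) with hadef
  have ha : 0 < a := by positivity
  have hm3 : (m : ℝ) ≤ (m : ℝ) ^ 3 := by
    have h1 : (1 : ℝ) ≤ (m : ℝ) ^ 2 := by nlinarith
    have h2 : (m : ℝ) * 1 ≤ (m : ℝ) * (m : ℝ) ^ 2 := mul_le_mul_of_nonneg_left h1 hm0.le
    calc (m : ℝ) = m * 1 := by ring
      _ ≤ m * (m : ℝ) ^ 2 := h2
      _ = (m : ℝ) ^ 3 := by ring
  have ha1 : a ≤ 1 / (100 * (m : ℝ)) := by
    rw [hadef]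
    apply one_div_le_one_div_of_le (by positivity)
    linarith
  have ha2 : a ≤ 1 / 2 := by
    refine le_trans ha1 ?_
    apply one_div_le_one_div_of_le (by norm_num)
    linarith
  set η : ℝ := a / 200 with hη
  have hη0 : 0 < η := by positivity
  have hL0 : 0 < Lm m := by unfold Lm; positivity
  obtain ⟨b, hb0, hb1⟩ := hex_basis (Lm m) hL0
  have hvol := hex_volume (Lm m) hL0 b hb0 hb1
  have hvol3 : 3 * (m : ℝ) ^ 2 ≤ (volume (cell b)).toReal := by
    show 3 * (m : ℝ) ^ 2 ≤ (volume (ZSpan.fundamentalDomain b)).toReal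
    rw [hvol]
    have h3 : (3 : ℝ) / 2 ≤ Real.sqrt 3 := by
      apply Real.le_sqrt_of_sq_le
      norm_num
    have hL2 : 4 * (m : ℝ) ^ 2 ≤ Lm m ^ 2 := by
      unfold Lm
      nlinarith
    have hL2' : 0 ≤ Lm m ^ 2 := sq_nonneg _
    nlinarith
  have hV0 : 0 < (volume (cell b)).toReal := by
    have : 0 < 3 * (m : ℝ) ^ 2 := by positivity
    linarith
  set V : ℝ := (volume (cell b)).toReal with hV
  set Γ := Gam hx m a with hΓ
  have hne : Γ.Nonempty := ⟨0, fz_zero_mem m a ha2⟩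
  set Ω : Set ℂ := {x | η ≤ Metric.infDist x Γ} with hΩ
  have hΩm : MeasurableSet Ω := (isClosed_le continuous_const (Metric.continuous_infDist_pt Γ)).measurableSet
  have hper : ∀ (n : ℤ × ℤ) (x : ℂ), x + Lm m * lp n ∈ Ω ↔ x ∈ Ω := by
    intro n x
    have := fz_infDist_image (Γ := Γ) (Φ := fun y => y + Lm m * lp n)
      (fun y z => by simp [edist_add_right])
      (fun y => ⟨y - Lm m * lp n, by simp⟩) (fun y => Gam_per m a n y) x
    show η ≤ Metric.infDist (x + Lm m * lp n) Γ ↔ η ≤ Metric.infDist x Γ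
    rw [this]
  have hl0 : b 0 = Lm m * lp (1, 0) := by
    rw [hb0]
    simp [lp]
  have hl1 : b 1 = Lm m * lp (0, 1) := by
    rw [hb1]
    simp [lp]
  have hΩp : ∀ (i : Fin 2) (x : ℂ), x + b i ∈ Ω ↔ x ∈ Ω := by
    intro i x
    fin_cases i
    · show x + b 0 ∈ Ω ↔ x ∈ Ω
      rw [hl0]
      exact hper _ x
    · show x + b 1 ∈ Ω ↔ x ∈ Ω
      rw [hl1]
      exact hper _ x
  refine ⟨b, Ω, hΩm, hΩp, ?_, ?_⟩
  · obtain ⟨u, hu, huper, hutr, huint⟩ := hkin m (by omega) a ha ha1 η hη0 b hb0 hb1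
    refine ⟨u, hu, huper, fun x hx => hutr x hx, huint.trans ?_⟩
    have h1 : (m : ℝ) ^ 7 * a ^ 2 = m / 10000 := by
      rw [hadef]
      field_simp
      ring
    rw [mul_assoc, h1]
    have h2 : K1 * (m / 10000) ≤ K1 * m := by
      have : 0 < K1 * m := by positivity
      linarith
    have h3 : K1 * m ≤ ε * m * m := mul_le_mul_of_nonneg_right hmA hm0.le
    have h4 : ε * (3 * (m : ℝ) ^ 2) ≤ ε * V := mul_le_mul_of_nonneg_left hvol3 hε.le
    have h5 : 0 ≤ ε * (m : ℝ) ^ 2 := by positivity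
    nlinarith
  · intro c
    have hdper : Per b (dd θ Xi m a c) := by
      intro i x
      fin_cases i
      · show dd θ Xi m a c (x + b 0) = dd θ Xi m a c x
        rw [hl0]
        exact dd_periodic hθ hXi m a ha c _ x
      · show dd θ Xi m a c (x + b 1) = dd θ Xi m a c x
        rw [hl1]
        exact dd_periodic hθ hXi m a ha c _ x
    refine ⟨dd θ Xi m a c, dd_contDiff hθ hXi m a ha c, hdper, ?_, ?_⟩
    · intro x hx
      have hlt : Metric.infDist x Γ < η := not_le.1 hx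
      obtain ⟨y, hy, hxy⟩ := (Metric.infDist_lt_iff hne).1 hlt
      rw [dist_eq_norm] at hxy
      exact near_Gam hθ hXi m hm4 a ha ha1 c y hy x (by
        have : η < a / 100 := by rw [hη]; linarith
        linarith)
    · refine (hen m (by omega) a ha ha2 c b hb0 hb1).trans ?_
      have e1 : K2 * ‖c‖ ^ 2 * m * (1 + |Real.log a|) =
          ‖c‖ ^ 2 * (K2 * (1 + |Real.log a|) * m) := by ring
      rw [e1]
      have e2 : K2 * (1 + |Real.log a|) * m ≤ ε * m * m := mul_le_mul_of_nonneg_right hmB hm0.le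
      have e3 : ε * (3 * (m : ℝ) ^ 2) ≤ ε * V := mul_le_mul_of_nonneg_left hvol3 hε.le
      have e4 : 0 ≤ ε * (m : ℝ) ^ 2 := by positivity
      have e5 : K2 * (1 + |Real.log a|) * m ≤ ε * V := by nlinarith
      have e6 := mul_le_mul_of_nonneg_left e5 (sq_nonneg ‖c‖)
      calc ‖c‖ ^ 2 * (K2 * (1 + |Real.log a|) * m) ≤ ‖c‖ ^ 2 * (ε * V) := e6
        _ = ε * ‖c‖ ^ 2 * V := by ring

/-- for every period lattice, composites whose effective tensor is as close as we like to the isotropic one with moduli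
`(0, μ)` -/
theorem any_cell_main (b' : Module.Basis (Fin 2) ℝ ℂ) (κ : ℝ≥0∞) (hκ : κ ≠ 0) (μ : ℝ) (hμ : 0 < μ)
    (ε : ℝ) (hε : 0 < ε) :
    ∃ Ω : Set ℂ, MeasurableSet Ω ∧ (∀ (i : Fin 2) (x : ℂ), x + b' i ∈ Ω ↔ x ∈ Ω) ∧
      ∀ e₁₁ e₂₂ e₁₂ : ℝ, effE b' Ω κ μ e₁₁ e₂₂ e₁₂ ≠ ⊤ ∧
        |(effE b' Ω κ μ e₁₁ e₂₂ e₁₂).toReal - μ * ((e₁₁ - e₂₂) ^ 2 + 4 * e₁₂ ^ 2)|
          ≤ ε * (e₁₁ ^ 2 + e₂₂ ^ 2 + e₁₂ ^ 2) := by
  obtain ⟨Ω, hΩm, hΩp, h⟩ := ZT.main hex_cert b' κ hκ μ hμ (ε / 2) (by positivity)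
  refine ⟨Ω, hΩm, hΩp, fun e₁₁ e₂₂ e₁₂ => ?_⟩
  obtain ⟨h1, h2⟩ := h e₁₁ e₂₂ e₁₂
  have hfin : effE b' Ω κ μ e₁₁ e₂₂ e₁₂ ≠ ⊤ := (h2.trans_lt ENNReal.ofReal_lt_top).ne
  refine ⟨hfin, ?_⟩
  have hD : 0 ≤ μ * ((e₁₁ - e₂₂) ^ 2 + 4 * e₁₂ ^ 2) := by positivity
  have h3 : (effE b' Ω κ μ e₁₁ e₂₂ e₁₂).toReal ≤
      μ * ((e₁₁ - e₂₂) ^ 2 + 4 * e₁₂ ^ 2) + ε / 2 * (e₁₁ ^ 2 + e₂₂ ^ 2 + 2 * e₁₂ ^ 2) :=
    ENNReal.toReal_le_of_le_ofReal (by positivity) h2
  have h4 : μ * ((e₁₁ - e₂₂) ^ 2 + 4 * e₁₂ ^ 2) - ε / 2 * (e₁₁ ^ 2 + e₂₂ ^ 2 + 2 * e₁₂ ^ 2) ≤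
      (effE b' Ω κ μ e₁₁ e₂₂ e₁₂).toReal := by
    rwa [ENNReal.ofReal_le_iff_le_toReal hfin] at h1
  have h5 : ε / 2 * (e₁₁ ^ 2 + e₂₂ ^ 2 + 2 * e₁₂ ^ 2) ≤ ε * (e₁₁ ^ 2 + e₂₂ ^ 2 + e₁₂ ^ 2) := by
    nlinarith [mul_nonneg hε.le (sq_nonneg e₁₁), mul_nonneg hε.le (sq_nonneg e₂₂)]
  rw [abs_le]
  constructor <;> linarith

/-- `ℤ²`-periodic composites whose effective tensors converge to the isotropic tensor with moduli `(0, μ)` -/
theorem z2_main (κ : ℝ≥0∞) (hκ : κ ≠ 0) (μ : ℝ) (hμ : 0 < μ) (ε : ℝ) (hε : 0 < ε) :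
    ∃ Ω : Set ℂ, MeasurableSet Ω ∧ (∀ (i : Fin 2) (x : ℂ), x + Complex.basisOneI i ∈ Ω ↔ x ∈ Ω) ∧
      ∀ e₁₁ e₂₂ e₁₂ : ℝ, effE Complex.basisOneI Ω κ μ e₁₁ e₂₂ e₁₂ ≠ ⊤ ∧
        |(effE Complex.basisOneI Ω κ μ e₁₁ e₂₂ e₁₂).toReal - μ * ((e₁₁ - e₂₂) ^ 2 + 4 * e₁₂ ^ 2)|
          ≤ ε * (e₁₁ ^ 2 + e₂₂ ^ 2 + e₁₂ ^ 2) :=
  any_cell_main Complex.basisOneI κ hκ μ hμ ε hε


end Porous
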